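import Pool.Agent.Lib.TR.SpecF

/-!
MP_00e23e_nt, directory Lib/TR, module Fbk: one dyadic block of moduli.
-/

set_option autoImplicit false

namespace Pool.Agent.Lib.TR

open Finset Pool.Agent.Lib.EH3 Pool.Agent.Results.MP_00e23e_nt

private theorem Fbk_large (ε ζ C4 : ℝ) (hε : 0 < ε) (X : ℝ) : ∃ x0 : ℝ, 3 ≤ x0 ∧ X ≤ x0 ∧ ∀ x : ℝ, x0 ≤ x →
    16 ≤ Real.log x ∧ 1 ≤ Real.log (Real.log x) ∧ 8 / ε ≤ Real.log (Real.log x) ∧
    1 + 2 * C4 * (Real.log 2 + ζ * Real.log (Real.log x)) ≤ Real.log x ∧ 4 * (Real.log x) ^ (3 : ℝ) ≤ x ∧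
    2 ≤ x ^ (ε / 2) ∧ 2 * (Real.log x) ^ (3 : ℝ) ≤ x ^ ε := by
  have hlog := Real.tendsto_log_atTop
  have e1 : ∀ᶠ x : ℝ in Filter.atTop, 16 ≤ Real.log x := hlog.eventually_ge_atTop 16
  have e2 : ∀ᶠ x : ℝ in Filter.atTop, 1 ≤ Real.log (Real.log x) := (hlog.comp hlog).eventually_ge_atTop 1
  have e3 : ∀ᶠ x : ℝ in Filter.atTop, 8 / ε ≤ Real.log (Real.log x) := (hlog.comp hlog).eventually_ge_atTop _
  have e4 : ∀ᶠ x : ℝ in Filter.atTop, 1 + 2 * C4 * (Real.log 2 + ζ * Real.log (Real.log x)) ≤ Real.log x := by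
    have h1 : (fun L : ℝ => (1 + 2 * C4 * Real.log 2) + (2 * C4 * ζ) * Real.log L) =o[Filter.atTop] (fun L : ℝ => L) := by
      have a1 : (fun _ : ℝ => (1 + 2 * C4 * Real.log 2)) =o[Filter.atTop] (fun L : ℝ => L) :=
        Asymptotics.isLittleO_const_id_atTop _
      have a2 : (fun L : ℝ => (2 * C4 * ζ) * Real.log L) =o[Filter.atTop] (fun L : ℝ => L) :=
        Real.isLittleO_log_id_atTop.const_mul_left _
      exact a1.add a2
    have h2 := h1.bound (c := 1) one_pos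
    have h3 : ∀ᶠ L : ℝ in Filter.atTop, 1 + 2 * C4 * (Real.log 2 + ζ * Real.log L) ≤ L := by
      filter_upwards [h2, Filter.eventually_ge_atTop (0 : ℝ)] with L hL hL0
      rw [one_mul, Real.norm_eq_abs, Real.norm_eq_abs, abs_of_nonneg hL0] at hL
      have := le_abs_self ((1 + 2 * C4 * Real.log 2) + (2 * C4 * ζ) * Real.log L)
      linarith
    exact hlog.eventually h3
  have e5 : ∀ᶠ x : ℝ in Filter.atTop, 4 * (Real.log x) ^ (3 : ℝ) ≤ x := by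
    have h1 := (isLittleO_log_rpow_rpow_atTop (s := 1) (3 : ℝ) one_pos).bound (c := 1 / 4) (by norm_num)
    filter_upwards [h1, Filter.eventually_ge_atTop (1 : ℝ)] with x hx hx1
    have hl : 0 ≤ Real.log x := Real.log_nonneg hx1
    rw [Real.norm_eq_abs, Real.norm_eq_abs, Real.rpow_one, abs_of_nonneg (by positivity : (0:ℝ) ≤ x),
      abs_of_nonneg (Real.rpow_nonneg hl _)] at hx
    linarith
  have e6 : ∀ᶠ x : ℝ in Filter.atTop, 2 ≤ x ^ (ε / 2) := (tendsto_rpow_atTop (by positivity)).eventually_ge_atTop 2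
  have e7 : ∀ᶠ x : ℝ in Filter.atTop, 2 * (Real.log x) ^ (3 : ℝ) ≤ x ^ ε := by
    have h1 := (isLittleO_log_rpow_rpow_atTop (s := ε) (3 : ℝ) hε).bound (c := 1 / 2) (by norm_num)
    filter_upwards [h1, Filter.eventually_ge_atTop (1 : ℝ)] with x hx hx1
    have hl : 0 ≤ Real.log x := Real.log_nonneg hx1
    rw [Real.norm_eq_abs, Real.norm_eq_abs, abs_of_nonneg (by positivity : (0:ℝ) ≤ x ^ ε),
      abs_of_nonneg (Real.rpow_nonneg hl _)] at hx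
    linarith
  obtain ⟨x0, hx0⟩ := Filter.eventually_atTop.mp (e1.and (e2.and (e3.and (e4.and (e5.and (e6.and e7))))))
  refine ⟨max x0 (max 3 X), le_trans (le_max_left _ _) (le_max_right _ _), le_trans (le_max_right _ _) (le_max_right _ _), ?_⟩
  intro x hx
  exact hx0 x (le_trans (le_max_left _ _) hx)

/-- the parameters P0, P1 -/
private theorem Fbk_par (L : ℝ) (B0 B1 : ℝ) (H : ℕ) (hL : 16 ≤ L) (hB0 : 1 ≤ B0) (hB1 : 1 ≤ B1)
    (hH : L ^ (2 * (B0 + B1 + 2)) ≤ (H : ℝ)) :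
    2 ≤ ⌈L ^ B0⌉₊ ∧ ⌈L ^ B0⌉₊ ≤ ⌊(H : ℝ) / L ^ B1⌋₊ ∧ (⌊(H : ℝ) / L ^ B1⌋₊ : ℝ) * L ^ B1 ≤ H ∧
      (⌊(H : ℝ) / L ^ B1⌋₊ : ℝ) ≤ H ∧ Real.log (⌈L ^ B0⌉₊ : ℝ) ≤ (B0 + 1) * Real.log L ∧
      Real.log H ≤ 2 * Real.log (⌊(H : ℝ) / L ^ B1⌋₊ : ℝ) ∧ 0 < Real.log H := by
  have hL0 : 0 < L := by linarith
  have hL1 : 1 ≤ L := by linarith
  have hp0 : 0 < L ^ B0 := Real.rpow_pos_of_pos hL0 _
  have hp1 : 0 < L ^ B1 := Real.rpow_pos_of_pos hL0 _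
  have h1p0 : L ≤ L ^ B0 := by
    calc L = L ^ (1 : ℝ) := (Real.rpow_one L).symm
      _ ≤ L ^ B0 := Real.rpow_le_rpow_of_exponent_le hL1 hB0
  have h1p1 : L ≤ L ^ B1 := by
    calc L = L ^ (1 : ℝ) := (Real.rpow_one L).symm
      _ ≤ L ^ B1 := Real.rpow_le_rpow_of_exponent_le hL1 hB1
  set s : ℝ := Real.sqrt H with hs
  have hH0 : (0 : ℝ) ≤ H := Nat.cast_nonneg _
  have hss : s * s = H := Real.mul_self_sqrt hH0
  have hs1 : L ^ (B0 + B1 + 2) ≤ s := by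
    rw [hs]
    apply Real.le_sqrt_of_sq_le
    calc (L ^ (B0 + B1 + 2)) ^ 2 = L ^ (2 * (B0 + B1 + 2)) := by
          rw [← Real.rpow_natCast, ← Real.rpow_mul hL0.le]; norm_num [mul_comm]
      _ ≤ H := hH
  have hsplit : L ^ (B0 + B1 + 2) = L ^ B0 * L ^ B1 * (L * L) := by
    rw [Real.rpow_add hL0, Real.rpow_add hL0]
    congr 1
    rw [show (2 : ℝ) = ((2 : ℕ) : ℝ) by norm_num, Real.rpow_natCast, pow_two]
  have hs2 : L ^ B0 * L ^ B1 * (L * L) ≤ s := hsplit ▸ hs1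
  have hLL : 256 ≤ L * L := by nlinarith
  have hs3 : 2 * L ^ B0 ≤ s := by
    have h1 : 1 ≤ L ^ B1 := le_trans hL1 h1p1
    calc 2 * L ^ B0 = L ^ B0 * 1 * 2 := by ring
      _ ≤ L ^ B0 * L ^ B1 * (L * L) := by gcongr; linarith
      _ ≤ s := hs2
  have hs4 : 4 * L ^ B1 ≤ s := by
    have h1 : 1 ≤ L ^ B0 := le_trans hL1 h1p0
    calc 4 * L ^ B1 = 1 * L ^ B1 * 4 := by ring
      _ ≤ L ^ B0 * L ^ B1 * (L * L) := by gcongr; linarith
      _ ≤ s := hs2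
  have hs0 : 32 ≤ s := by linarith
  have hdiv : 4 * s ≤ (H : ℝ) / L ^ B1 := by
    rw [le_div_iff₀ hp1, ← hss]
    nlinarith
  have hP1 : s ≤ (⌊(H : ℝ) / L ^ B1⌋₊ : ℝ) := by
    have := Nat.lt_floor_add_one ((H : ℝ) / L ^ B1)
    linarith
  have hP0 : (⌈L ^ B0⌉₊ : ℝ) ≤ 2 * L ^ B0 := by
    have := Nat.ceil_lt_add_one hp0.le
    linarith
  have hP0' : L ≤ (⌈L ^ B0⌉₊ : ℝ) := le_trans h1p0 (Nat.le_ceil _)
  refine ⟨?_, ?_, ?_, ?_, ?_, ?_, ?_⟩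
  · have : (2 : ℝ) ≤ (⌈L ^ B0⌉₊ : ℝ) := by linarith
    exact_mod_cast this
  · have : (⌈L ^ B0⌉₊ : ℝ) ≤ (⌊(H : ℝ) / L ^ B1⌋₊ : ℝ) := by linarith
    exact_mod_cast this
  · have := Nat.floor_le (div_nonneg hH0 hp1.le : (0 : ℝ) ≤ (H : ℝ) / L ^ B1)
    calc (⌊(H : ℝ) / L ^ B1⌋₊ : ℝ) * L ^ B1 ≤ (H : ℝ) / L ^ B1 * L ^ B1 := by gcongr
      _ = H := by field_simp
  · have := Nat.floor_le (div_nonneg hH0 hp1.le : (0 : ℝ) ≤ (H : ℝ) / L ^ B1)
    have h2 : (H : ℝ) / L ^ B1 ≤ H := div_le_self hH0 (le_trans hL1 h1p1)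
    linarith
  · have h3 : (⌈L ^ B0⌉₊ : ℝ) ≤ L ^ (B0 + 1) := by
      rw [Real.rpow_add hL0, Real.rpow_one]
      nlinarith
    calc Real.log (⌈L ^ B0⌉₊ : ℝ) ≤ Real.log (L ^ (B0 + 1)) := Real.log_le_log (by linarith) h3
      _ = (B0 + 1) * Real.log L := Real.log_rpow hL0 _
  · have h4 : Real.log s ≤ Real.log (⌊(H : ℝ) / L ^ B1⌋₊ : ℝ) := Real.log_le_log (by linarith) hP1
    have h5 : Real.log H = 2 * Real.log s := by
      rw [← hss, Real.log_mul (by linarith) (by linarith)]; ring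
    linarith
  · apply Real.log_pos
    rw [← hss]; nlinarith

/-- the sum over the block -/
private theorem Fbk_sum (A0 : ℤ) (D H G : ℕ) (Fl T2 T3 : ℤ → ℕ → ℝ) (T1 : ℕ → ℤ → ℕ → ℝ) (b1 b2 b3 b4 : ℝ) (hb4 : 0 ≤ b4)
    (hF : ∀ a ∈ Ico A0 (A0 + H), ∀ d ∈ (Ioc D (2 * D)).filter (fun d : ℕ => Int.gcd a d = 1),
      Fl a d ≤ ∑ g ∈ Icc 1 G, T1 g a d + T2 a d + T3 a d + b4)
    (h1 : ∀ g ∈ Icc 1 G, ∑ a ∈ Ico A0 (A0 + H), ∑ d ∈ (Ioc D (2 * D)).filter (fun d : ℕ => Int.gcd a d = 1), T1 g a d ≤ b1)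
    (h2 : ∑ a ∈ Ico A0 (A0 + H), ∑ d ∈ (Ioc D (2 * D)).filter (fun d : ℕ => Int.gcd a d = 1), T2 a d ≤ b2)
    (h3 : ∀ a ∈ Ico A0 (A0 + H), ∑ d ∈ (Ioc D (2 * D)).filter (fun d : ℕ => Int.gcd a d = 1), T3 a d ≤ b3) :
    ∑ a ∈ Ico A0 (A0 + H), ∑ d ∈ (Ioc D (2 * D)).filter (fun d : ℕ => Int.gcd a d = 1), Fl a d ≤
      G * b1 + b2 + H * b3 + H * (D * b4) := by
  have hcard : ((Ico A0 (A0 + H)).card : ℝ) = H := by
    rw [Int.card_Ico]
    have : (A0 + H - A0).toNat = H := by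
      rw [add_sub_cancel_left]; exact Int.toNat_natCast H
    rw [this]
  have hs1 : ∑ a ∈ Ico A0 (A0 + H), ∑ d ∈ (Ioc D (2 * D)).filter (fun d : ℕ => Int.gcd a d = 1), ∑ g ∈ Icc 1 G, T1 g a d ≤
      G * b1 := by
    have e1 : ∑ a ∈ Ico A0 (A0 + H), ∑ d ∈ (Ioc D (2 * D)).filter (fun d : ℕ => Int.gcd a d = 1), ∑ g ∈ Icc 1 G, T1 g a d =
        ∑ g ∈ Icc 1 G, ∑ a ∈ Ico A0 (A0 + H), ∑ d ∈ (Ioc D (2 * D)).filter (fun d : ℕ => Int.gcd a d = 1), T1 g a d := by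
      rw [sum_comm (s := Icc 1 G)]
      exact sum_congr rfl fun a _ => sum_comm
    rw [e1]
    calc ∑ g ∈ Icc 1 G, ∑ a ∈ Ico A0 (A0 + H), ∑ d ∈ (Ioc D (2 * D)).filter (fun d : ℕ => Int.gcd a d = 1), T1 g a d ≤
        ∑ _g ∈ Icc 1 G, b1 := sum_le_sum h1
      _ = G * b1 := by simp
  have hs3 : ∑ a ∈ Ico A0 (A0 + H), ∑ d ∈ (Ioc D (2 * D)).filter (fun d : ℕ => Int.gcd a d = 1), T3 a d ≤ H * b3 := by
    calc ∑ a ∈ Ico A0 (A0 + H), ∑ d ∈ (Ioc D (2 * D)).filter (fun d : ℕ => Int.gcd a d = 1), T3 a d ≤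
        ∑ _a ∈ Ico A0 (A0 + H), b3 := sum_le_sum h3
      _ = H * b3 := by rw [sum_const, nsmul_eq_mul, hcard]
  have hs4 : ∑ a ∈ Ico A0 (A0 + H), ∑ _d ∈ (Ioc D (2 * D)).filter (fun d : ℕ => Int.gcd a d = 1), b4 ≤ H * (D * b4) := by
    calc ∑ a ∈ Ico A0 (A0 + H), ∑ _d ∈ (Ioc D (2 * D)).filter (fun d : ℕ => Int.gcd a d = 1), b4 ≤
        ∑ _a ∈ Ico A0 (A0 + H), (D * b4) := by
          apply sum_le_sum
          intro a _
          rw [sum_const, nsmul_eq_mul]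
          apply mul_le_mul_of_nonneg_right _ hb4
          have : ((Ioc D (2 * D)).filter (fun d : ℕ => Int.gcd a d = 1)).card ≤ D := by
            refine (card_filter_le _ _).trans ?_
            rw [Nat.card_Ioc]; omega
          exact_mod_cast this
      _ = H * (D * b4) := by rw [sum_const, nsmul_eq_mul, hcard]
  calc ∑ a ∈ Ico A0 (A0 + H), ∑ d ∈ (Ioc D (2 * D)).filter (fun d : ℕ => Int.gcd a d = 1), Fl a d ≤
      ∑ a ∈ Ico A0 (A0 + H), ∑ d ∈ (Ioc D (2 * D)).filter (fun d : ℕ => Int.gcd a d = 1),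
        (∑ g ∈ Icc 1 G, T1 g a d + T2 a d + T3 a d + b4) := sum_le_sum fun a ha => sum_le_sum fun d hd => hF a ha d hd
    _ = ∑ a ∈ Ico A0 (A0 + H), ∑ d ∈ (Ioc D (2 * D)).filter (fun d : ℕ => Int.gcd a d = 1), ∑ g ∈ Icc 1 G, T1 g a d +
        ∑ a ∈ Ico A0 (A0 + H), ∑ d ∈ (Ioc D (2 * D)).filter (fun d : ℕ => Int.gcd a d = 1), T2 a d +
        ∑ a ∈ Ico A0 (A0 + H), ∑ d ∈ (Ioc D (2 * D)).filter (fun d : ℕ => Int.gcd a d = 1), T3 a d +
        ∑ a ∈ Ico A0 (A0 + H), ∑ _d ∈ (Ioc D (2 * D)).filter (fun d : ℕ => Int.gcd a d = 1), b4 := by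
          simp only [sum_add_distrib]
    _ ≤ _ := by linarith

theorem tFbk (h1 : FgdStmt) (h2 : FbsStmt) (h3 : NapStmt) (h4 : NszStmt) (h5 : BphStmt) (h6 : BadStmt) : FbkStmt := by
  intro ε hε hε1
  obtain ⟨B0, B1, ζ, c0, x1, hB0, hB1, hζ, hc0, hc1, hx1, H1⟩ := h1 ε 5 hε hε1 (by norm_num)
  obtain ⟨C3, x3, hC3, hx3, H3⟩ := h3 (ε / 2) 3 ζ (by positivity) (by linarith) (by norm_num) (by linarith)
  obtain ⟨C6, x6, hC6, hx6, H6⟩ := h6 ε ζ hε hε1 (by linarith)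
  obtain ⟨C4, hC4, H4⟩ := h4.1
  obtain ⟨x0, hx03, hX, hlarge⟩ := Fbk_large ε ζ C4 hε (max x1 (max x3 x6))
  refine ⟨4 + 20 * C3 + C6 * (2 * (B0 + 1) + 1), 2 * (B0 + B1 + 2), c0, x0, by positivity, by linarith, hc0, hc1, hx03, ?_⟩
  intro x D H A0 y hx hD1 hD2 hA1 hA2 hH1 hH2 hy
  obtain ⟨hL, hl1, hl2, hM, hx4, hxe, hxe3⟩ := hlarge x hx
  have hxx1 : x1 ≤ x := le_trans (le_trans (le_max_left _ _) hX) hx
  have hxx3 : x3 ≤ x := le_trans (le_trans (le_trans (le_max_left _ _) (le_max_right _ _)) hX) hx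
  have hxx6 : x6 ≤ x := le_trans (le_trans (le_trans (le_max_right _ _) (le_max_right _ _)) hX) hx
  have hx3' : 3 ≤ x := le_trans hx03 hx
  have hx0 : 0 < x := by linarith
  have hxone : 1 ≤ x := by linarith
  set L : ℝ := Real.log x with hLdef
  set l2 : ℝ := Real.log L with hl2def
  have hL0 : 0 < L := by linarith
  have hL1 : 1 ≤ L := by linarith
  obtain ⟨hP02, hP01, hP1H, hP1H', hlP0, hlP1, hlH⟩ := Fbk_par L B0 B1 H hL hB0 hB1 hH1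
  set P0 : ℕ := ⌈L ^ B0⌉₊ with hP0def
  set P1 : ℕ := ⌊(H : ℝ) / L ^ B1⌋₊ with hP1def
  set z : ℕ := zz ζ x with hz
  have hzL : L ^ ζ ≤ (z : ℝ) := by rw [hz]; unfold zz; exact Nat.le_ceil _
  have hLζ : L ≤ L ^ ζ := by
    calc L = L ^ (1 : ℝ) := (Real.rpow_one L).symm
      _ ≤ L ^ ζ := Real.rpow_le_rpow_of_exponent_le hL1 (by linarith)
  have hz2 : 2 ≤ z := by
    have : (2 : ℝ) ≤ z := by linarith
    exact_mod_cast this
  have hzU : (z : ℝ) ≤ 2 * L ^ ζ := by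
    have := Nat.ceil_lt_add_one (Real.rpow_nonneg hL0.le ζ)
    rw [hz]; unfold zz
    rw [← hLdef]
    linarith
  have hlz : Real.log z ≤ Real.log 2 + ζ * l2 := by
    calc Real.log z ≤ Real.log (2 * L ^ ζ) := Real.log_le_log (by linarith) hzU
      _ = Real.log 2 + ζ * l2 := by
        rw [Real.log_mul (by norm_num) (Real.rpow_pos_of_pos hL0 _).ne', Real.log_rpow hL0]
  have hff : ∀ n, |ff z n| ≤ L := by
    intro n
    refine (H4 z n hz2).2.2.trans ?_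
    have : 2 * C4 * Real.log z ≤ 2 * C4 * (Real.log 2 + ζ * l2) := by gcongr
    linarith
  -- D, U, G
  have hDpos : (1 : ℝ) ≤ D := le_trans (Real.one_le_rpow hxone hε.le) hD1
  have hDn : 1 ≤ D := by exact_mod_cast hDpos
  have hD0 : (0 : ℝ) < D := by linarith
  have hDx : (D : ℝ) ≤ x := hD2.trans (by
    calc x ^ (1 - ε) ≤ x ^ (1 : ℝ) := Real.rpow_le_rpow_of_exponent_le hxone (by linarith)
      _ = x := Real.rpow_one x)
  have hxD : 1 ≤ x / D := by rw [le_div_iff₀ hD0]; linarith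
  set U : ℕ := ⌈2 * x / D⌉₊ with hUdef
  have hU1 : 2 * x ≤ (D : ℝ) * U := by
    have := Nat.le_ceil (2 * x / D)
    rw [div_le_iff₀ hD0] at this
    rw [hUdef]; linarith
  have hU2 : (U : ℝ) ≤ 3 * x / D := by
    have := Nat.ceil_lt_add_one (by positivity : (0 : ℝ) ≤ 2 * x / D)
    have e : 3 * x / D = 2 * x / D + x / D := by ring
    rw [hUdef, e]; linarith
  set G : ℕ := ⌈L ^ (3 : ℝ)⌉₊ with hGdef
  have hL3 : 0 < L ^ (3 : ℝ) := Real.rpow_pos_of_pos hL0 _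
  have hL31 : 1 ≤ L ^ (3 : ℝ) := Real.one_le_rpow hL1 (by norm_num)
  have hG1 : L ^ (3 : ℝ) ≤ G := Nat.le_ceil _
  have hG2 : (G : ℝ) ≤ 2 * L ^ (3 : ℝ) := by
    have := Nat.ceil_lt_add_one hL3.le
    rw [hGdef]; linarith
  have hGn : 1 ≤ G := by
    have : (1 : ℝ) ≤ G := by linarith
    exact_mod_cast this
  have hG0 : (0 : ℝ) < G := by linarith
  have habs : ∀ a ∈ Ico A0 (A0 + H), |(a : ℝ)| ≤ x := by
    intro a ha
    rw [mem_Ico] at ha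
    rw [abs_le]
    have e1 : (A0 : ℝ) ≤ a := by exact_mod_cast ha.1
    have e2 : (a : ℝ) + 1 ≤ A0 + H := by exact_mod_cast ha.2
    constructor <;> linarith
  have hP1x : (P1 : ℝ) ≤ x ^ (ε / 8) := by
    refine hP1H'.trans (hH2.trans ?_)
    rw [Real.rpow_def_of_pos hx0]
    apply Real.exp_le_exp.mpr
    rw [← hLdef]
    have hl20 : 0 < l2 := by linarith
    have e1 : L / l2 ≤ L * (ε / 8) := by
      rw [div_le_iff₀ hl20]
      have h7 : 1 ≤ (ε / 8) * l2 := by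
        have := (div_le_iff₀ hε).mp hl2
        linarith
      calc L = L * 1 := (mul_one L).symm
        _ ≤ L * ((ε / 8) * l2) := mul_le_mul_of_nonneg_left h7 hL0.le
        _ = L * (ε / 8) * l2 := by ring
    have e2 : 0 ≤ L / l2 := by positivity
    calc c0 * (L / l2) ≤ 1 * (L / l2) := mul_le_mul_of_nonneg_right hc1 e2
      _ = L / l2 := one_mul _
      _ ≤ L * (ε / 8) := e1
  -- the sum
  have hmain := Fbk_sum A0 D H G (fun a d => |resErr (y d a) d a|)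
    (fun a d => ∑ u ∈ (Icc (-(U : ℤ)) U).filter (fun u => u ≠ 0 ∧ ¬ Good P0 P1 u.natAbs), |fc z ⌊x⌋ (a + d * u)|)
    (fun a d => |(∑ n ∈ (Icc (1 : ℤ) ⌊y d a⌋).filter (fun n => (d : ℤ) ∣ n - a), Pool.Agent.Lib.UI.lci n * nu z n) -
      li (y d a) / (d.totient : ℝ)|)
    (fun g a d => |∑ u ∈ (Icc (-(U : ℤ)) U).filter (fun u => u ≠ 0 ∧ Good P0 P1 u.natAbs),
      fc z ⌊(g : ℝ) * x / G⌋ (a + d * u)|)
    (H * (x * L ^ (-(5 : ℝ))))
    (C6 * (H * (x / L * (Real.log P0 / Real.log P1)) + H * (x * L ^ (2 - ζ))))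
    (C3 * (x * L ^ (-(3 : ℝ))) * 20)
    (L * (x / (G * D) + 2)) (by positivity)
    (by
      intro a ha d hd
      rw [mem_filter, mem_Ioc] at hd
      exact h2 z D d U G P0 P1 a x (y d a) L hDn hd.1.1 hGn (hy d a).1 (hy d a).2 (habs a ha) hU1 hL0.le hff)
    (by
      intro g hg
      rw [mem_Icc] at hg
      have hg1 : (1 : ℝ) ≤ g := by exact_mod_cast hg.1
      have hg2 : (g : ℝ) ≤ G := by exact_mod_cast hg.2
      refine H1 x ((g : ℝ) * x / G) D U P0 P1 H A0 hxx1 ?_ ?_ hDn hD2 hU1 hU2 (Nat.le_ceil _) hP01 hP1H hH2 habs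
      · rw [le_div_iff₀ hG0]
        calc 2 * (G : ℝ) ≤ 1 * x := by linarith
          _ ≤ g * x := mul_le_mul_of_nonneg_right hg1 hx0.le
      · rw [div_le_iff₀ hG0]
        calc (g : ℝ) * x ≤ G * x := mul_le_mul_of_nonneg_right hg2 hx0.le
          _ = x * G := mul_comm _ _)
    (H6 x D P0 P1 H U A0 hxx6 hD1 hD2 hP02 hP01 hP1x hA1 hA2 hU2)
    (by
      intro a _
      have hd1 : (2 : ℝ) * D ≤ x ^ (1 - ε / 2) := by
        calc (2 : ℝ) * D ≤ x ^ (ε / 2) * x ^ (1 - ε) := by gcongr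
          _ = x ^ (1 - ε / 2) := by rw [← Real.rpow_add hx0]; congr 1; ring
      calc ∑ d ∈ (Ioc D (2 * D)).filter (fun d : ℕ => Int.gcd a d = 1),
          |(∑ n ∈ (Icc (1 : ℤ) ⌊y d a⌋).filter (fun n => (d : ℤ) ∣ n - a), Pool.Agent.Lib.UI.lci n * nu z n) -
            li (y d a) / (d.totient : ℝ)| ≤
          ∑ d ∈ (Ioc D (2 * D)).filter (fun d : ℕ => Int.gcd a d = 1), C3 * (x * L ^ (-(3 : ℝ))) * (1 / (d.totient : ℝ)) := by
            apply sum_le_sum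
            intro d hd
            rw [mem_filter, mem_Ioc] at hd
            have hd2 : (d : ℝ) ≤ x ^ (1 - ε / 2) := by
              have : (d : ℝ) ≤ 2 * D := by exact_mod_cast hd.1.2
              linarith
            refine (H3 x (y d a) d a hxx3 (hy d a).1 (hy d a).2 (by omega) hd2 hd.2).trans (le_of_eq ?_)
            rw [← hLdef]
            ring
        _ ≤ ∑ d ∈ Ioc D (2 * D), C3 * (x * L ^ (-(3 : ℝ))) * (1 / (d.totient : ℝ)) := by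
            apply sum_le_sum_of_subset_of_nonneg (filter_subset _ _)
            intro d _ _
            positivity
        _ = C3 * (x * L ^ (-(3 : ℝ))) * ∑ d ∈ Ioc D (2 * D), 1 / (d.totient : ℝ) := by rw [mul_sum]
        _ ≤ C3 * (x * L ^ (-(3 : ℝ))) * 20 := by
            apply mul_le_mul_of_nonneg_left (h5.2 D hDn) (by positivity))
  refine hmain.trans ?_
  -- the final numbers
  have hl20 : 0 < l2 := by linarith
  have hlogHL : Real.log H ≤ L := by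
    have e1 : Real.log H ≤ c0 * (L / l2) := by
      have hHpos : (0 : ℝ) < H := by
        have : 0 < L ^ (2 * (B0 + B1 + 2)) := Real.rpow_pos_of_pos hL0 _
        linarith
      calc Real.log H ≤ Real.log (Real.exp (c0 * (L / l2))) := Real.log_le_log hHpos hH2
        _ = c0 * (L / l2) := Real.log_exp _
    have e2 : L / l2 ≤ L := div_le_self hL0.le hl1
    have e3 : 0 ≤ L / l2 := by positivity
    calc Real.log H ≤ c0 * (L / l2) := e1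
      _ ≤ 1 * (L / l2) := mul_le_mul_of_nonneg_right hc1 e3
      _ = L / l2 := one_mul _
      _ ≤ L := e2
  set K : ℝ := (H : ℝ) * (x / L * (l2 / Real.log H)) with hK
  have hH0 : (0 : ℝ) ≤ H := Nat.cast_nonneg _
  set W : ℝ := (H : ℝ) * (x * L ^ (-(2 : ℝ))) with hW
  have hLm2 : L ^ (-(2 : ℝ)) = 1 / L * (1 / L) := by
    rw [Real.rpow_neg hL0.le, show (2 : ℝ) = ((2 : ℕ) : ℝ) by norm_num, Real.rpow_natCast]
    field_simp
  have hWK : W ≤ K := by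
    rw [hW, hK, hLm2]
    have e1 : 1 / L ≤ l2 / Real.log H := by
      rw [div_le_div_iff₀ hL0 hlH]
      calc 1 * Real.log H = Real.log H := one_mul _
        _ ≤ L := hlogHL
        _ = 1 * L := (one_mul _).symm
        _ ≤ l2 * L := mul_le_mul_of_nonneg_right hl1 hL0.le
    calc (H : ℝ) * (x * (1 / L * (1 / L))) = H * (x / L * (1 / L)) := by ring
      _ ≤ H * (x / L * (l2 / Real.log H)) := by gcongr
  have hW0 : 0 ≤ W := by positivity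
  have hK0 : 0 ≤ K := hW0.trans hWK
  have t1 : (G : ℝ) * (H * (x * L ^ (-(5 : ℝ)))) ≤ 2 * W := by
    have e1 : L ^ (3 : ℝ) * L ^ (-(5 : ℝ)) = L ^ (-(2 : ℝ)) := by
      rw [← Real.rpow_add hL0]; norm_num
    calc (G : ℝ) * (H * (x * L ^ (-(5 : ℝ)))) ≤ (2 * L ^ (3 : ℝ)) * (H * (x * L ^ (-(5 : ℝ)))) := by gcongr
      _ = 2 * (H * (x * (L ^ (3 : ℝ) * L ^ (-(5 : ℝ))))) := by ring
      _ = 2 * W := by rw [e1]
  have t2 : C6 * (H * (x / L * (Real.log P0 / Real.log P1)) + H * (x * L ^ (2 - ζ))) ≤ C6 * (2 * (B0 + 1) + 1) * K := by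
    have hlP1pos : 0 < Real.log P1 := by linarith
    have e1 : Real.log P0 / Real.log P1 ≤ 2 * (B0 + 1) * (l2 / Real.log H) := by
      rw [← mul_div_assoc, div_le_div_iff₀ hlP1pos hlH]
      have e3 : 0 ≤ (B0 + 1) * l2 := by positivity
      calc Real.log P0 * Real.log H ≤ ((B0 + 1) * l2) * (2 * Real.log P1) := by
            apply mul_le_mul hlP0 hlP1 hlH.le e3
        _ = 2 * (B0 + 1) * l2 * Real.log P1 := by ring
    have e2 : L ^ (2 - ζ) ≤ L ^ (-(2 : ℝ)) := Real.rpow_le_rpow_of_exponent_le hL1 (by linarith)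
    have e3 : (H : ℝ) * (x / L * (Real.log P0 / Real.log P1)) ≤ 2 * (B0 + 1) * K := by
      calc (H : ℝ) * (x / L * (Real.log P0 / Real.log P1)) ≤ H * (x / L * (2 * (B0 + 1) * (l2 / Real.log H))) := by gcongr
        _ = 2 * (B0 + 1) * K := by rw [hK]; ring
    have e4 : (H : ℝ) * (x * L ^ (2 - ζ)) ≤ K := by
      calc (H : ℝ) * (x * L ^ (2 - ζ)) ≤ H * (x * L ^ (-(2 : ℝ))) := by gcongr
        _ ≤ K := hWK
    calc C6 * (H * (x / L * (Real.log P0 / Real.log P1)) + H * (x * L ^ (2 - ζ))) ≤ C6 * (2 * (B0 + 1) * K + K) := by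
          gcongr
      _ = C6 * (2 * (B0 + 1) + 1) * K := by ring
  have t3 : (H : ℝ) * (C3 * (x * L ^ (-(3 : ℝ))) * 20) ≤ 20 * C3 * K := by
    have e2 : L ^ (-(3 : ℝ)) ≤ L ^ (-(2 : ℝ)) := Real.rpow_le_rpow_of_exponent_le hL1 (by norm_num)
    calc (H : ℝ) * (C3 * (x * L ^ (-(3 : ℝ))) * 20) ≤ H * (C3 * (x * L ^ (-(2 : ℝ))) * 20) := by gcongr
      _ = 20 * C3 * W := by rw [hW]; ring
      _ ≤ 20 * C3 * K := by gcongr
  have t4 : (H : ℝ) * (D * (L * (x / (G * D) + 2))) ≤ 2 * W := by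
    have e1 : (D : ℝ) * (L * (x / (G * D) + 2)) = L * x / G + 2 * D * L := by field_simp
    have e2 : L * x / G ≤ x * L ^ (-(2 : ℝ)) := by
      rw [div_le_iff₀ hG0]
      have e3 : L ^ (-(2 : ℝ)) * L ^ (3 : ℝ) = L := by
        rw [← Real.rpow_add hL0]; norm_num
      calc L * x = x * (L ^ (-(2 : ℝ)) * L ^ (3 : ℝ)) := by rw [e3]; ring
        _ ≤ x * (L ^ (-(2 : ℝ)) * G) := by gcongr
        _ = x * L ^ (-(2 : ℝ)) * G := by ring
    have e4 : 2 * D * L ≤ x * L ^ (-(2 : ℝ)) := by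
      have e5 : L ^ (3 : ℝ) = L * L ^ (2 : ℝ) := by
        rw [show (3 : ℝ) = 1 + 2 by norm_num, Real.rpow_add hL0, Real.rpow_one]
      have e6 : L ^ (-(2 : ℝ)) * L ^ (2 : ℝ) = 1 := by
        rw [← Real.rpow_add hL0]; norm_num
      have e7 : x ^ (1 - ε) * x ^ ε = x := by
        rw [← Real.rpow_add hx0]; norm_num
      have hL2 : 0 < L ^ (2 : ℝ) := Real.rpow_pos_of_pos hL0 _
      have e8 : 2 * D * L * L ^ (2 : ℝ) ≤ x := by
        calc 2 * D * L * L ^ (2 : ℝ) = D * (2 * L ^ (3 : ℝ)) := by rw [e5]; ring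
          _ ≤ x ^ (1 - ε) * x ^ ε := by gcongr
          _ = x := e7
      calc 2 * D * L = 2 * D * L * (L ^ (-(2 : ℝ)) * L ^ (2 : ℝ)) := by rw [e6, mul_one]
        _ = (2 * D * L * L ^ (2 : ℝ)) * L ^ (-(2 : ℝ)) := by ring
        _ ≤ x * L ^ (-(2 : ℝ)) := by gcongr
    rw [e1]
    calc (H : ℝ) * (L * x / G + 2 * D * L) ≤ H * (x * L ^ (-(2 : ℝ)) + x * L ^ (-(2 : ℝ))) := by gcongr
      _ = 2 * W := by rw [hW]; ring
  calc (G : ℝ) * (H * (x * L ^ (-(5 : ℝ)))) +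
        C6 * (H * (x / L * (Real.log P0 / Real.log P1)) + H * (x * L ^ (2 - ζ))) +
        H * (C3 * (x * L ^ (-(3 : ℝ))) * 20) + H * (D * (L * (x / (G * D) + 2))) ≤
      2 * W + C6 * (2 * (B0 + 1) + 1) * K + 20 * C3 * K + 2 * W := by linarith
    _ ≤ (4 + 20 * C3 + C6 * (2 * (B0 + 1) + 1)) * K := by linarith

end Pool.Agent.Lib.TR
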