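import Pool.Agent.Lib.TR.SpecF

/-!
MP_00e23e_nt, directory Lib/TR, chapter F, module Fin: the final theorem TStmt.
-/

set_option autoImplicit false

namespace Pool.Agent.Lib.TR

open Finset Pool.Agent.Lib.EH3 Pool.Agent.Results.MP_00e23e_nt

/-- the inner sum -/
private noncomputable def Fin_F (e x : ℝ) (y : ℕ → ℤ → ℝ) (a : ℤ) : ℝ :=
  ∑ d ∈ (Icc 1 ⌊x ^ (1 - e)⌋₊).filter (fun d : ℕ => Int.gcd a d = 1), |resErr (y d a) d a|

/-- the right side without constant -/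
private noncomputable def Fin_R (x : ℝ) (H : ℕ) : ℝ :=
  Real.log (Real.log x) / Real.log H + (Real.log (Real.log x)) ^ 2 / Real.log x

private lemma Fin_mono (e ε x : ℝ) (he : e ≤ ε) (hx : 1 ≤ x) (y : ℕ → ℤ → ℝ) (a : ℤ) :
    Fin_F ε x y a ≤ Fin_F e x y a := by
  unfold Fin_F
  refine Finset.sum_le_sum_of_subset_of_nonneg ?_ fun _ _ _ => abs_nonneg _
  refine Finset.filter_subset_filter _ (Finset.Icc_subset_Icc le_rfl (Nat.floor_le_floor ?_))
  exact Real.rpow_le_rpow_of_exponent_le hx (by linarith)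

private lemma Fin_triv (h1 : Pool.Agent.Lib.UI.TrbStmt) (e x : ℝ) (he : 0 < e) (hx : 3 ≤ x) (y : ℕ → ℤ → ℝ)
    (hy : ∀ d a, 2 ≤ y d a ∧ y d a ≤ x) (a : ℤ) : Fin_F e x y a ≤ 20 * x * (Real.log x) ^ 2 := by
  refine le_trans ?_ (h1 x a (fun d => y d a) hx (fun d => hy d a))
  unfold Fin_F
  refine Finset.sum_le_sum_of_subset_of_nonneg ?_ fun _ _ _ => abs_nonneg _
  refine (Finset.filter_subset _ _).trans (Finset.Icc_subset_Icc le_rfl (Nat.floor_le_floor ?_))
  calc x ^ (1 - e) ≤ x ^ (1 : ℝ) := Real.rpow_le_rpow_of_exponent_le (by linarith) (by linarith)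
    _ = x := Real.rpow_one x

private lemma Fin_card (F : ℤ → ℝ) (A : ℤ) (H : ℕ) (M : ℝ) (h : ∀ a, F a ≤ M) :
    ∑ a ∈ Ico A (A + H), F a ≤ H * M := by
  refine (Finset.sum_le_sum fun a _ => h a).trans ?_
  rw [Finset.sum_const, Int.card_Ico, nsmul_eq_mul]
  have h2 : (A + (H : ℤ) - A).toNat = H := by
    rw [add_sub_cancel_left]
    exact Int.toNat_natCast H
  rw [h2]

private lemma Fin_L (x : ℝ) (hx : 3 ≤ x) : 1 < Real.log x ∧ 0 < Real.log (Real.log x) := by
  have h1 : Real.exp 1 < 3 := lt_of_lt_of_le Real.exp_one_lt_d9 (by norm_num)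
  have h2 : 1 < Real.log x := by
    rw [Real.lt_log_iff_exp_lt (by linarith)]
    linarith
  exact ⟨h2, Real.log_pos h2⟩

private lemma Fin_H (H : ℕ) (hH : 2 ≤ H) : 0 < Real.log H := by
  apply Real.log_pos
  have : (2 : ℝ) ≤ H := by exact_mod_cast hH
  linarith

private lemma Fin_R1 (x : ℝ) (H : ℕ) (hx : 3 ≤ x) (hH : 2 ≤ H) :
    Real.log (Real.log x) / Real.log H ≤ Fin_R x H := by
  unfold Fin_R
  have h1 := (Fin_L x hx).1
  have : 0 ≤ (Real.log (Real.log x)) ^ 2 / Real.log x := by positivity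
  linarith

private lemma Fin_R2 (x : ℝ) (H : ℕ) (hx : 3 ≤ x) (hH : 2 ≤ H) :
    (Real.log (Real.log x)) ^ 2 / Real.log x ≤ Fin_R x H := by
  unfold Fin_R
  have h1 := (Fin_L x hx).2
  have h2 := Fin_H H hH
  have : 0 ≤ Real.log (Real.log x) / Real.log H := by positivity
  linarith

private lemma Fin_R0 (x : ℝ) (H : ℕ) (hx : 3 ≤ x) (hH : 2 ≤ H) : 0 ≤ Fin_R x H := by
  have h1 := (Fin_L x hx).2
  have h2 := Fin_H H hH
  refine le_trans ?_ (Fin_R1 x H hx hH)
  positivity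

/-- case (a) -/
private lemma Fin_a (h1 : Pool.Agent.Lib.UI.TrbStmt) (e x x0 : ℝ) (he : 0 < e) (hx : 3 ≤ x) (hx0 : x ≤ x0)
    (A : ℤ) (H : ℕ) (hH : 2 ≤ H) (y : ℕ → ℤ → ℝ)
    (hy : ∀ d a, 2 ≤ y d a ∧ y d a ≤ x) : ∑ a ∈ Ico A (A + H), Fin_F e x y a ≤
      (20 * (Real.log x0) ^ 3 / (Real.log (Real.log 3)) ^ 2) * (H * x * Fin_R x H) := by
  have h3 := Fin_L 3 le_rfl
  have hL := Fin_L x hx
  have hL0 := Fin_L x0 (by linarith)
  have hle : Real.log x ≤ Real.log x0 := Real.log_le_log (by linarith) hx0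
  refine (Fin_card _ A H _ (Fin_triv h1 e x he hx y hy)).trans ?_
  have h5 : (Real.log (Real.log 3)) ^ 2 / Real.log x0 ≤ Fin_R x H := by
    refine le_trans ?_ (Fin_R2 x H hx hH)
    have h6 : Real.log 3 ≤ Real.log x := Real.log_le_log (by norm_num) hx
    have h7 : Real.log (Real.log 3) ≤ Real.log (Real.log x) := Real.log_le_log (by linarith [h3.1]) h6
    have h8 : (Real.log (Real.log 3)) ^ 2 ≤ (Real.log (Real.log x)) ^ 2 := pow_le_pow_left₀ h3.2.le h7 2
    exact div_le_div₀ (by positivity) h8 (by linarith [hL.1]) hle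
  have h9 : 0 < (Real.log (Real.log 3)) ^ 2 := pow_pos h3.2 2
  have h10 : (Real.log x) ^ 2 ≤ (Real.log x0) ^ 2 := pow_le_pow_left₀ (by linarith [hL.1]) hle 2
  have hpos0 : 0 < Real.log x0 := by linarith [hL0.1]
  have hne3 : Real.log (Real.log 3) ≠ 0 := h3.2.ne'
  have h11 : (Real.log x0) ^ 2 = (Real.log x0) ^ 3 / (Real.log (Real.log 3)) ^ 2 *
      ((Real.log (Real.log 3)) ^ 2 / Real.log x0) := by
    field_simp
  have h12 : 0 ≤ (Real.log x0) ^ 3 / (Real.log (Real.log 3)) ^ 2 := by positivity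
  have h13 : (Real.log x) ^ 2 ≤ (Real.log x0) ^ 3 / (Real.log (Real.log 3)) ^ 2 * Fin_R x H := by
    refine h10.trans ?_
    rw [h11]
    exact mul_le_mul_of_nonneg_left h5 h12
  have hHx : 0 ≤ (H : ℝ) * x := mul_nonneg (Nat.cast_nonneg H) (by linarith)
  calc (H : ℝ) * (20 * x * (Real.log x) ^ 2) = 20 * ((H : ℝ) * x) * (Real.log x) ^ 2 := by ring
    _ ≤ 20 * ((H : ℝ) * x) * ((Real.log x0) ^ 3 / (Real.log (Real.log 3)) ^ 2 * Fin_R x H) :=
        mul_le_mul_of_nonneg_left h13 (by positivity)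
    _ = _ := by ring

/-- case (b) -/
private lemma Fin_b (e x B C1 : ℝ) (hx : 3 ≤ x) (hB : 1 ≤ B) (hC1 : 0 < C1)
    (A : ℤ) (H : ℕ) (hH : 2 ≤ H) (hHB : (H : ℝ) < (Real.log x) ^ B) (y : ℕ → ℤ → ℝ)
    (hF : ∀ a, Fin_F e x y a ≤ C1 * x) : ∑ a ∈ Ico A (A + H), Fin_F e x y a ≤
      (C1 * B) * (H * x * Fin_R x H) := by
  have hL := Fin_L x hx
  have hlH := Fin_H H hH
  refine (Fin_card _ A H _ hF).trans ?_
  have h1 : Real.log H ≤ B * Real.log (Real.log x) := by
    rw [← Real.log_rpow (by linarith [hL.1])]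
    exact Real.log_le_log (by positivity) hHB.le
  have h2 : 1 ≤ B * (Real.log (Real.log x) / Real.log H) := by
    rw [← mul_div_assoc, le_div_iff₀ hlH]
    linarith
  have h3 : 1 ≤ B * Fin_R x H :=
    h2.trans (mul_le_mul_of_nonneg_left (Fin_R1 x H hx hH) (by linarith))
  have hHx : 0 ≤ (H : ℝ) * x := mul_nonneg (Nat.cast_nonneg H) (by linarith)
  calc (H : ℝ) * (C1 * x) = C1 * ((H : ℝ) * x) * 1 := by ring
    _ ≤ C1 * ((H : ℝ) * x) * (B * Fin_R x H) := mul_le_mul_of_nonneg_left h3 (by positivity)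
    _ = _ := by ring

/-- cases (c) and (d), with the inequality of Fmi as a hypothesis -/
private lemma Fin_d (h4 : FctStmt) (e x B c0 C2 : ℝ) (hx : 3 ≤ x) (hB : 1 ≤ B) (hc0 : 0 < c0) (hC2 : 0 < C2)
    (hL4 : 4 ≤ Real.log x) (hLB : (Real.log (Real.log x)) ^ 2 ≤ c0 / (2 * B) * Real.log x)
    (A : ℤ) (H : ℕ) (hH : 2 ≤ H) (hHB : (Real.log x) ^ B ≤ H) (y : ℕ → ℤ → ℝ) (hA : -x ≤ A) (hAH : (A : ℝ) + H ≤ x + 1)
    (hF : ∀ (H' : ℕ) (A' : ℤ), -x ≤ A' → (A' : ℝ) + H' ≤ x + 1 → (Real.log x) ^ B ≤ H' →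
      (H' : ℝ) ≤ Real.exp (c0 * (Real.log x / Real.log (Real.log x))) →
      ∑ a ∈ Ico A' (A' + H'), Fin_F e x y a ≤ C2 * (H' * (x * (Real.log (Real.log x) / Real.log H')))) :
    ∑ a ∈ Ico A (A + H), Fin_F e x y a ≤ (C2 + 2 * C2 / c0) * (H * x * Fin_R x H) := by
  have hL := Fin_L x hx
  have hlH := Fin_H H hH
  have hR0 := Fin_R0 x H hx hH
  have hHx : 0 ≤ (H : ℝ) * x := mul_nonneg (Nat.cast_nonneg H) (by linarith)
  have hHxR : 0 ≤ (H : ℝ) * x * Fin_R x H := mul_nonneg hHx hR0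
  have hx0 : 0 < x := by linarith
  by_cases hE : (H : ℝ) ≤ Real.exp (c0 * (Real.log x / Real.log (Real.log x)))
  · refine (hF H A hA hAH hHB hE).trans ?_
    have h1 : C2 * ((H : ℝ) * (x * (Real.log (Real.log x) / Real.log H))) ≤ C2 * ((H : ℝ) * x * Fin_R x H) := by
      refine mul_le_mul_of_nonneg_left ?_ hC2.le
      rw [mul_assoc]
      refine mul_le_mul_of_nonneg_left ?_ (Nat.cast_nonneg H)
      exact mul_le_mul_of_nonneg_left (Fin_R1 x H hx hH) hx0.le
    refine h1.trans (mul_le_mul_of_nonneg_right ?_ hHxR)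
    have : 0 ≤ 2 * C2 / c0 := by positivity
    linarith
  · rw [not_le] at hE
    set L := Real.log x with hLdef
    set l2 := Real.log L with hl2
    set E := Real.exp (c0 * (L / l2)) with hEdef
    have hl2pos : 0 < l2 := hL.2
    have hLpos : 0 < L := by linarith
    -- c0 L / (2 l2) ≥ B l2
    have h1 : B * l2 ≤ c0 * (L / l2) / 2 := by
      have h2 : B * l2 ^ 2 ≤ c0 * L / 2 := by
        have h3 := mul_le_mul_of_nonneg_left hLB (by linarith : (0 : ℝ) ≤ B)
        have h4 : B * (c0 / (2 * B) * L) = c0 * L / 2 := by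
          field_simp
        rw [h4] at h3
        exact h3
      have h5 : c0 * (L / l2) / 2 = (c0 * L / 2) / l2 := by
        field_simp
      rw [h5, le_div_iff₀ hl2pos]
      calc B * l2 * l2 = B * l2 ^ 2 := by ring
        _ ≤ c0 * L / 2 := h2
    set S := Real.exp (c0 * (L / l2) / 2) with hSdef
    have hES : E = S * S := by
      rw [hEdef, hSdef, ← Real.exp_add]
      ring_nf
    have hSL : L ^ B ≤ S := by
      rw [Real.rpow_def_of_pos hLpos, hSdef, Real.exp_le_exp]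
      rw [← hl2]
      linarith
    have hS4 : 4 ≤ S := by
      refine le_trans ?_ hSL
      calc (4 : ℝ) ≤ L := hL4
        _ = L ^ (1 : ℝ) := (Real.rpow_one L).symm
        _ ≤ L ^ B := Real.rpow_le_rpow_of_exponent_le (by linarith) hB
    have hE4 : 4 * S ≤ E := by
      rw [hES]
      exact mul_le_mul_of_nonneg_right hS4 (by linarith)
    set H1 := ⌊E / 2⌋₊ with hH1
    have hE0 : 0 ≤ E / 2 := by linarith
    have hH1a : (H1 : ℝ) ≤ E / 2 := Nat.floor_le hE0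
    have hH1b : E / 2 < H1 + 1 := Nat.lt_floor_add_one _
    have hH1S : S ≤ H1 := by linarith
    have hH1one : 1 ≤ H1 := by
      have : (1 : ℝ) ≤ H1 := by linarith
      exact_mod_cast this
    have hH1H : H1 ≤ H := by
      have : (H1 : ℝ) ≤ H := by linarith
      exact_mod_cast this
    have key := h4 (fun a => Fin_F e x y a) A H H1 (2 * C2 / c0 * (x * (l2 ^ 2 / L))) hH1one hH1H ?_
    · refine key.trans ?_
      have h6 := Fin_R2 x H hx hH
      rw [← hLdef, ← hl2] at h6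
      have h7 : 2 * C2 / c0 * (x * (l2 ^ 2 / L)) * H ≤ 2 * C2 / c0 * ((H : ℝ) * x * Fin_R x H) := by
        have h8 : 2 * C2 / c0 * (x * (l2 ^ 2 / L)) * H = 2 * C2 / c0 * ((H : ℝ) * x * (l2 ^ 2 / L)) := by ring
        rw [h8]
        exact mul_le_mul_of_nonneg_left (mul_le_mul_of_nonneg_left h6 hHx) (by positivity)
      refine h7.trans (mul_le_mul_of_nonneg_right ?_ hHxR)
      linarith
    · intro A' H' hA' hAH' hH1H' hH'2
      have hH'r : (H1 : ℝ) ≤ H' := by exact_mod_cast hH1H'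
      have hH'r2 : (H' : ℝ) ≤ 2 * H1 := by exact_mod_cast hH'2
      have hA'r : (A : ℝ) ≤ A' := by exact_mod_cast hA'
      have hAH'r : (A' : ℝ) + H' ≤ (A : ℝ) + H := by exact_mod_cast hAH'
      have hH'S : S ≤ H' := hH1S.trans hH'r
      refine (hF H' A' (by linarith) (by linarith) (hSL.trans hH'S) (by linarith)).trans ?_
      have h9 : c0 * (L / l2) / 2 ≤ Real.log H' := by
        rw [Real.le_log_iff_exp_le (by linarith)]
        exact hH'S
      have h10 : 0 < c0 * (L / l2) / 2 := by positivity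
      have h11 : l2 / Real.log H' ≤ l2 / (c0 * (L / l2) / 2) :=
        div_le_div_of_nonneg_left hl2pos.le h10 h9
      have h12 : l2 / (c0 * (L / l2) / 2) = 2 / c0 * (l2 ^ 2 / L) := by
        field_simp
      rw [h12] at h11
      calc C2 * ((H' : ℝ) * (x * (l2 / Real.log H'))) ≤ C2 * ((H' : ℝ) * (x * (2 / c0 * (l2 ^ 2 / L)))) := by
            refine mul_le_mul_of_nonneg_left ?_ hC2.le
            refine mul_le_mul_of_nonneg_left ?_ (Nat.cast_nonneg H')
            exact mul_le_mul_of_nonneg_left h11 hx0.le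
        _ = 2 * C2 / c0 * (x * (l2 ^ 2 / L)) * H' := by ring

theorem tFin (h1 : Pool.Agent.Lib.UI.TrbStmt) (h2 : BtrStmt) (h3 : FmiStmt) (h4 : FctStmt) : TStmt := by
  intro ε hε
  set e := min ε (1 / 10) with he
  have he0 : 0 < e := lt_min hε (by norm_num)
  have he10 : e ≤ 1 / 10 := min_le_right _ _
  have heε : e ≤ ε := min_le_left _ _
  obtain ⟨C1, xB, hC1, hxB, hB⟩ := h2 e he0 (by linarith)
  obtain ⟨C2, B, c0, xF, hC2, hB1, hc0, hc1, hxF, hFm⟩ := h3 e he0 he10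
  have hlo : ∃ L0 : ℝ, ∀ L : ℝ, L0 ≤ L → (Real.log L) ^ 2 ≤ c0 / (2 * B) * L := by
    have h5 := (Real.isLittleO_pow_log_id_atTop (n := 2)).bound (c := c0 / (2 * B)) (by positivity)
    rw [Filter.eventually_atTop] at h5
    obtain ⟨L0, hL0⟩ := h5
    refine ⟨max L0 0, fun L hL => ?_⟩
    have h6 := hL0 L ((le_max_left _ _).trans hL)
    have h7 : 0 ≤ L := (le_max_right _ _).trans hL
    rw [Real.norm_eq_abs, Real.norm_eq_abs, id, abs_of_nonneg h7] at h6
    exact (le_abs_self _).trans h6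
  obtain ⟨L0, hL0⟩ := hlo
  set x0 := max (max xB xF) (Real.exp (max L0 4)) with hx0
  have hx03 : 3 ≤ x0 := hxB.trans ((le_max_left _ _).trans (le_max_left _ _))
  have hl0 := Fin_L x0 hx03
  have hl3 := Fin_L 3 le_rfl
  refine ⟨20 * (Real.log x0) ^ 3 / (Real.log (Real.log 3)) ^ 2 + C1 * B + (C2 + 2 * C2 / c0), ?_⟩
  intro x A H y hx hH hA hAH hy
  have hR0 := Fin_R0 x H hx hH
  have hHx : 0 ≤ (H : ℝ) * x := mul_nonneg (Nat.cast_nonneg H) (by linarith)
  have hHxR : 0 ≤ (H : ℝ) * x * Fin_R x H := mul_nonneg hHx hR0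
  have ha : 0 ≤ 20 * (Real.log x0) ^ 3 / (Real.log (Real.log 3)) ^ 2 := by
    have : 0 < Real.log x0 := by linarith [hl0.1]
    positivity
  have hb : 0 ≤ C1 * B := by positivity
  have hc : 0 ≤ C2 + 2 * C2 / c0 := by positivity
  change ∑ a ∈ Ico A (A + H), Fin_F ε x y a ≤ _ * ((H : ℝ) * x * Fin_R x H)
  refine (Finset.sum_le_sum fun a _ => Fin_mono e ε x heε (by linarith) y a).trans ?_
  rcases le_total x x0 with hxx | hxx
  · refine (Fin_a h1 e x x0 he0 hx hxx A H hH y hy).trans (mul_le_mul_of_nonneg_right ?_ hHxR)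
    linarith
  · have hxB' : xB ≤ x := ((le_max_left _ _).trans (le_max_left _ _)).trans hxx
    have hxF' : xF ≤ x := ((le_max_right _ _).trans (le_max_left _ _)).trans hxx
    have hxL : Real.exp (max L0 4) ≤ x := (le_max_right _ _).trans hxx
    have hlx : max L0 4 ≤ Real.log x := by
      rw [Real.le_log_iff_exp_le (by linarith)]
      exact hxL
    by_cases hHB : (H : ℝ) < (Real.log x) ^ B
    · refine (Fin_b e x B C1 hx hB1 hC1 A H hH hHB y (fun a => ?_)).trans (mul_le_mul_of_nonneg_right ?_ hHxR)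
      · exact hB x a (fun d => y d a) hxB' (fun d => hy d a)
      · linarith
    · rw [not_lt] at hHB
      refine (Fin_d h4 e x B c0 C2 hx hB1 hc0 hC2 ((le_max_right _ _).trans hlx)
        (hL0 _ ((le_max_left _ _).trans hlx)) A H hH hHB y hA hAH (fun H' A' ha1 ha2 ha3 ha4 => ?_)).trans
        (mul_le_mul_of_nonneg_right ?_ hHxR)
      · exact hFm x H' A' y hxF' ha1 ha2 ha3 ha4 hy
      · linarith

end Pool.Agent.Lib.TR
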