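import Pool.Agent.Lib.TR.SpecF

/-!
MP_00e23e_nt, directory Lib/TR, module Fmi: all moduli, H of middle size.
-/

set_option autoImplicit false

namespace Pool.Agent.Lib.TR

open Finset Pool.Agent.Lib.EH3 Pool.Agent.Results.MP_00e23e_nt

private lemma Fmi_biUnion {T : Finset ℕ} {Si : ℕ → Finset ℕ} {f : ℕ → ℝ} (hf : ∀ d, 0 ≤ f d) :
    ∑ d ∈ T.biUnion Si, f d ≤ ∑ i ∈ T, ∑ d ∈ Si i, f d := by
  classical
  induction T using Finset.induction_on with
  | empty => simp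
  | insert a s ha ih =>
    rw [Finset.biUnion_insert, Finset.sum_insert ha]
    have h1 := Finset.sum_union_inter (s₁ := Si a) (s₂ := s.biUnion Si) (f := f)
    have h2 : 0 ≤ ∑ d ∈ Si a ∩ s.biUnion Si, f d := Finset.sum_nonneg fun d _ => hf d
    linarith

private lemma Fmi_cover {S S1 T : Finset ℕ} {Si : ℕ → Finset ℕ} {f : ℕ → ℝ} (hf : ∀ d, 0 ≤ f d)
    (hcov : ∀ d ∈ S, d ∈ S1 ∨ ∃ i ∈ T, d ∈ Si i) :
    ∑ d ∈ S, f d ≤ ∑ d ∈ S1, f d + ∑ i ∈ T, ∑ d ∈ Si i, f d := by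
  classical
  have h1 : S ⊆ S1 ∪ T.biUnion Si := by
    intro d hd
    rw [Finset.mem_union, Finset.mem_biUnion]
    exact hcov d hd
  have h2 := Finset.sum_le_sum_of_subset_of_nonneg (f := f) h1 fun d _ _ => hf d
  have h3 := Finset.sum_union_inter (s₁ := S1) (s₂ := T.biUnion Si) (f := f)
  have h4 : 0 ≤ ∑ d ∈ S1 ∩ T.biUnion Si, f d := Finset.sum_nonneg fun d _ => hf d
  have h5 := Fmi_biUnion (T := T) (Si := Si) hf
  linarith

private lemma Fmi_block {N0 d : ℕ} (hN0 : 1 ≤ N0) (hd : N0 < d) :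
    ∃ i : ℕ, 2 ^ i * N0 < d ∧ d ≤ 2 * (2 ^ i * N0) := by
  have h1 : 1 ≤ (d - 1) / N0 := by
    rw [Nat.one_le_div_iff (by omega)]
    omega
  refine ⟨Nat.log 2 ((d - 1) / N0), ?_, ?_⟩
  · have h2 := Nat.pow_log_le_self 2 (x := (d - 1) / N0) (by omega)
    have h3 : 2 ^ Nat.log 2 ((d - 1) / N0) * N0 ≤ d - 1 :=
      (Nat.mul_le_mul_right N0 h2).trans (Nat.div_mul_le_self _ _)
    omega
  · have h2 := Nat.lt_pow_succ_log_self (b := 2) (by norm_num) ((d - 1) / N0)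
    rw [Nat.div_lt_iff_lt_mul (by omega), pow_succ] at h2
    have h3 : 2 ^ Nat.log 2 ((d - 1) / N0) * 2 * N0 = 2 * (2 ^ Nat.log 2 ((d - 1) / N0) * N0) := by
      ring
    omega

theorem tFmi (h1 : FbkStmt) (h2 : Pool.Agent.Lib.UI.FiuStmt) : FmiStmt := by
  intro ε hε hε1
  obtain ⟨C, B', c0, x0, hC, hB', hc0, hc01, hx0, hk⟩ := h1 ε hε hε1
  obtain ⟨C', hu⟩ := h2 (1 / 10) 1 (by norm_num) one_pos
  refine ⟨|C'| + 3 * C, max B' (|C'| + 1), c0, max x0 (Real.exp 5), by positivity,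
    le_max_of_le_left hB', hc0, hc01, le_max_of_le_left hx0, ?_⟩
  intro x H A0 y hx hA hAH hHB hHe hy
  have hxx0 : x0 ≤ x := (le_max_left _ _).trans hx
  have hx5 : Real.exp 5 ≤ x := (le_max_right _ _).trans hx
  have hx3 : 3 ≤ x := hx0.trans hxx0
  have hxpos : 0 < x := by linarith
  obtain ⟨L, hL⟩ : ∃ L, L = Real.log x := ⟨_, rfl⟩
  rw [← hL] at hHB hHe ⊢
  have hL5 : 5 ≤ L := by
    rw [hL, Real.le_log_iff_exp_le hxpos]
    exact hx5
  have hL1 : 1 ≤ L := by linarith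
  have hLpos : 0 < L := by linarith
  obtain ⟨l2, hl2⟩ : ∃ l2, l2 = Real.log L := ⟨_, rfl⟩
  rw [← hl2] at hHe ⊢
  have hl21 : 1 ≤ l2 := by
    rw [hl2, Real.le_log_iff_exp_le hLpos]
    have := Real.exp_one_lt_d9
    linarith
  have hB1 : 1 ≤ max B' (|C'| + 1) := le_max_of_le_left hB'
  have hH5 : (5 : ℝ) ≤ H := by
    calc (5 : ℝ) ≤ L := hL5
      _ = L ^ (1 : ℝ) := (Real.rpow_one L).symm
      _ ≤ L ^ (max B' (|C'| + 1)) := Real.rpow_le_rpow_of_exponent_le hL1 hB1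
      _ ≤ H := hHB
  have hHpos : (0 : ℝ) < H := by linarith
  obtain ⟨lH, hlH⟩ : ∃ lH, lH = Real.log (H : ℝ) := ⟨_, rfl⟩
  rw [← hlH]
  have hlHpos : 0 < lH := by
    rw [hlH]
    exact Real.log_pos (by linarith)
  have hlHL : lH ≤ L := by
    have h3 : lH ≤ c0 * (L / l2) := by
      rw [hlH]
      have := Real.log_le_log hHpos hHe
      rwa [Real.log_exp] at this
    have h4 : L / l2 ≤ L := div_le_self hLpos.le hl21
    have h5 : 0 ≤ L / l2 := by positivity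
    nlinarith
  have hratio : 1 / L ≤ l2 / lH := by
    rw [div_le_div_iff₀ hLpos hlHpos]
    nlinarith
  -- powers of x
  have hpw : ∀ a b : ℝ, a ≤ b → x ^ a ≤ x ^ b := fun a b hab =>
    Real.rpow_le_rpow_of_exponent_le (by linarith) hab
  have hx14 : 1 ≤ x ^ ((1 : ℝ) / 4) := Real.one_le_rpow (by linarith) (by norm_num)
  have hx110 : 1 ≤ x ^ ((1 : ℝ) / 10) := Real.one_le_rpow (by linarith) (by norm_num)
  have hx15 : 2 ≤ x ^ ((3 : ℝ) / 20) := by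
    have h3 : Real.exp 1 ≤ x ^ ((1 : ℝ) / 5) := by
      rw [Real.rpow_def_of_pos hxpos, Real.exp_le_exp, ← hL]
      linarith
    have h4 : (x ^ ((3 : ℝ) / 20)) ^ (4 : ℕ) = (x ^ ((1 : ℝ) / 5)) ^ (3 : ℕ) := by
      rw [← Real.rpow_natCast, ← Real.rpow_natCast, ← Real.rpow_mul hxpos.le,
        ← Real.rpow_mul hxpos.le]
      norm_num
    have h5 : (2.7 : ℝ) ≤ x ^ ((1 : ℝ) / 5) := by
      have := Real.exp_one_gt_d9
      linarith
    have h6 : (2.7 : ℝ) ^ 3 ≤ (x ^ ((1 : ℝ) / 5)) ^ (3 : ℕ) := by gcongr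
    by_contra h7
    push Not at h7
    have h8 : (x ^ ((3 : ℝ) / 20)) ^ (4 : ℕ) ≤ 2 ^ 4 := by
      have : 0 ≤ x ^ ((3 : ℝ) / 20) := by positivity
      gcongr
    rw [h4] at h8
    norm_num at h6 h8
    linarith
  obtain ⟨N0, hN0⟩ : ∃ N0 : ℕ, N0 = ⌊x ^ ((1 : ℝ) / 4)⌋₊ := ⟨_, rfl⟩
  have hN0x : x ^ ε ≤ N0 := by
    have h3 : x ^ ((1 : ℝ) / 4) < (N0 : ℝ) + 1 := by
      rw [hN0]
      exact Nat.lt_floor_add_one _
    have h4 : x ^ ((1 : ℝ) / 4) = x ^ ((1 : ℝ) / 10) * x ^ ((3 : ℝ) / 20) := by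
      rw [← Real.rpow_add hxpos]
      norm_num
    have h5 : 2 * x ^ ((1 : ℝ) / 10) ≤ x ^ ((1 : ℝ) / 4) := by
      rw [h4]
      nlinarith
    have h6 := hpw ε (1 / 10) (by linarith)
    linarith
  have hN01 : 1 ≤ N0 := by
    have h3 : (1 : ℝ) ≤ x ^ ε := Real.one_le_rpow (by linarith) hε.le
    have : (1 : ℝ) ≤ N0 := h3.trans hN0x
    exact_mod_cast this
  obtain ⟨M, hM⟩ : ∃ M : ℕ, M = ⌊x ^ (1 - ε)⌋₊ := ⟨_, rfl⟩
  have hMx : (M : ℝ) ≤ x ^ (1 - ε) := by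
    rw [hM]
    exact Nat.floor_le (by positivity)
  rw [← hM]
  obtain ⟨I, hI⟩ : ∃ I : ℕ, I = ⌈2 * L⌉₊ := ⟨_, rfl⟩
  have hI3 : (I : ℝ) ≤ 3 * L := by
    have := Nat.ceil_lt_add_one (a := 2 * L) (by positivity)
    rw [← hI] at this
    linarith
  obtain ⟨T, hT⟩ : ∃ T : Finset ℕ, T = (range I).filter
    (fun i => ((2 ^ i * N0 : ℕ) : ℝ) ≤ x ^ (1 - ε)) := ⟨_, rfl⟩
  have hTcard : (T.card : ℝ) ≤ 3 * L := by
    refine le_trans ?_ hI3
    rw [hT]
    have := Finset.card_filter_le (range I) (fun i => ((2 ^ i * N0 : ℕ) : ℝ) ≤ x ^ (1 - ε))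
    rw [Finset.card_range] at this
    exact_mod_cast this
  -- the covering
  have hcov : ∀ a : ℤ, ∑ d ∈ (Icc 1 M).filter (fun d : ℕ => Int.gcd a d = 1),
      |resErr (y d a) d a| ≤
      ∑ d ∈ (Icc ⌈(1 : ℝ)⌉₊ ⌊x ^ ((1 : ℝ) / 4)⌋₊).filter (fun d : ℕ => Int.gcd a d = 1),
        |resErr (y d a) d a| +
      ∑ i ∈ T, ∑ d ∈ (Ioc (2 ^ i * N0) (2 * (2 ^ i * N0))).filter
        (fun d : ℕ => Int.gcd a d = 1), |resErr (y d a) d a| := by
    intro a
    refine Fmi_cover (f := fun d => |resErr (y d a) d a|) (fun d => abs_nonneg _) ?_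
    intro d hd
    rw [Finset.mem_filter, Finset.mem_Icc] at hd
    obtain ⟨⟨hd1, hdM⟩, hdg⟩ := hd
    rcases Nat.lt_or_ge N0 d with h | h
    · right
      obtain ⟨i, hi1, hi2⟩ := Fmi_block hN01 h
      have hdx : (d : ℝ) ≤ x ^ (1 - ε) := by
        refine le_trans ?_ hMx
        exact_mod_cast hdM
      have hid : ((2 ^ i * N0 : ℕ) : ℝ) ≤ d := by exact_mod_cast hi1.le
      refine ⟨i, ?_, ?_⟩
      · rw [hT, Finset.mem_filter, Finset.mem_range]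
        refine ⟨?_, hid.trans hdx⟩
        have h3 : (2 : ℝ) ^ i ≤ x := by
          have h4 : (2 : ℝ) ^ i ≤ ((2 ^ i * N0 : ℕ) : ℝ) := by
            have h5 : 2 ^ i ≤ 2 ^ i * N0 := Nat.le_mul_of_pos_right _ (by omega)
            exact_mod_cast h5
          have h5 : x ^ (1 - ε) ≤ x := by
            have := hpw (1 - ε) 1 (by linarith)
            rwa [Real.rpow_one] at this
          linarith
        have h4 : (i : ℝ) * Real.log 2 ≤ L := by
          have := Real.log_le_log (by positivity) h3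
          rw [Real.log_pow] at this
          rw [hL]
          exact this
        have h5 := Real.log_two_gt_d9
        have h6 : (i : ℝ) < 2 * L := by nlinarith
        have h7 : (i : ℝ) < I := lt_of_lt_of_le h6 (by rw [hI]; exact Nat.le_ceil _)
        exact_mod_cast h7
      · rw [Finset.mem_filter, Finset.mem_Ioc]
        exact ⟨⟨hi1, hi2⟩, hdg⟩
    · left
      rw [Finset.mem_filter, Finset.mem_Icc, Nat.ceil_one, ← hN0]
      exact ⟨⟨hd1, h⟩, hdg⟩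
  -- part A
  have hA1 : ∑ a ∈ Ico A0 (A0 + H), ∑ d ∈ (Icc ⌈(1 : ℝ)⌉₊ ⌊x ^ ((1 : ℝ) / 4)⌋₊).filter
      (fun d : ℕ => Int.gcd a d = 1), |resErr (y d a) d a| ≤
      |C'| * (H * (x * (l2 / lH))) := by
    have h3 := hu x 1 (x ^ ((1 : ℝ) / 4)) A0 H y hx3 le_rfl hx14 (hpw _ _ (by norm_num)) hA hAH
      ?_ hy
    · refine h3.trans ?_
      rw [Real.rpow_one, ← hL]
      have h4 : (H : ℝ) * x / L ≤ H * (x * (l2 / lH)) := by
        have : (H : ℝ) * x / L = H * (x * (1 / L)) := by ring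
        rw [this]
        gcongr
      have h5 : 0 ≤ (H : ℝ) * x / L := by positivity
      calc C' * (H * x / L) ≤ |C'| * (H * x / L) := by
            gcongr
            exact le_abs_self _
        _ ≤ |C'| * (H * (x * (l2 / lH))) := by gcongr
    · rw [← hL]
      have h4 : min (x / 1) (min (x ^ ((1 : ℝ) / 3)) (1 + (x ^ ((1 : ℝ) / 4)) ^ 2 / x)) ≤ 2 := by
        refine (min_le_right _ _).trans ((min_le_right _ _).trans ?_)
        have h5 : (x ^ ((1 : ℝ) / 4)) ^ 2 ≤ x := by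
          rw [← Real.rpow_natCast, ← Real.rpow_mul hxpos.le]
          have := hpw ((1 : ℝ) / 4 * (2 : ℕ)) 1 (by norm_num)
          rwa [Real.rpow_one] at this
        have h6 : (x ^ ((1 : ℝ) / 4)) ^ 2 / x ≤ 1 := by
          rw [div_le_one hxpos]
          exact h5
        linarith
      calc L ^ C' * min (x / 1) (min (x ^ ((1 : ℝ) / 3)) (1 + (x ^ ((1 : ℝ) / 4)) ^ 2 / x))
          ≤ L ^ C' * 2 := by gcongr
        _ ≤ L ^ |C'| * L := by
            have h5 : L ^ C' ≤ L ^ |C'| := Real.rpow_le_rpow_of_exponent_le hL1 (le_abs_self _)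
            have h6 : (2 : ℝ) ≤ L := by linarith
            gcongr
        _ = L ^ (|C'| + 1) := by rw [Real.rpow_add hLpos, Real.rpow_one]
        _ ≤ L ^ (max B' (|C'| + 1)) := Real.rpow_le_rpow_of_exponent_le hL1 (le_max_right _ _)
        _ ≤ H := hHB
  -- part B
  have hB2 : ∀ i ∈ T, ∑ a ∈ Ico A0 (A0 + H), ∑ d ∈ (Ioc (2 ^ i * N0) (2 * (2 ^ i * N0))).filter
      (fun d : ℕ => Int.gcd a d = 1), |resErr (y d a) d a| ≤
      C * (H * (x / L * (l2 / lH))) := by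
    intro i hi
    rw [hT, Finset.mem_filter] at hi
    have h3 := hk x (2 ^ i * N0) H A0 y hxx0 ?_ hi.2 hA hAH ?_ ?_ hy
    · rw [← hL, ← hl2, ← hlH] at h3
      exact h3
    · refine hN0x.trans ?_
      have h5 : N0 ≤ 2 ^ i * N0 := Nat.le_mul_of_pos_left _ (by positivity)
      exact_mod_cast h5
    · rw [← hL]
      exact (Real.rpow_le_rpow_of_exponent_le hL1 (le_max_left _ _)).trans hHB
    · rw [← hL, ← hl2]
      exact hHe
  calc ∑ a ∈ Ico A0 (A0 + H), ∑ d ∈ (Icc 1 M).filter (fun d : ℕ => Int.gcd a d = 1),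
        |resErr (y d a) d a|
      ≤ ∑ a ∈ Ico A0 (A0 + H),
        (∑ d ∈ (Icc ⌈(1 : ℝ)⌉₊ ⌊x ^ ((1 : ℝ) / 4)⌋₊).filter (fun d : ℕ => Int.gcd a d = 1),
          |resErr (y d a) d a| +
        ∑ i ∈ T, ∑ d ∈ (Ioc (2 ^ i * N0) (2 * (2 ^ i * N0))).filter
          (fun d : ℕ => Int.gcd a d = 1), |resErr (y d a) d a|) :=
        Finset.sum_le_sum fun a _ => hcov a
    _ = ∑ a ∈ Ico A0 (A0 + H),
        ∑ d ∈ (Icc ⌈(1 : ℝ)⌉₊ ⌊x ^ ((1 : ℝ) / 4)⌋₊).filter (fun d : ℕ => Int.gcd a d = 1),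
          |resErr (y d a) d a| +
        ∑ i ∈ T, ∑ a ∈ Ico A0 (A0 + H), ∑ d ∈ (Ioc (2 ^ i * N0) (2 * (2 ^ i * N0))).filter
          (fun d : ℕ => Int.gcd a d = 1), |resErr (y d a) d a| := by
        rw [Finset.sum_add_distrib, Finset.sum_comm (s := Ico A0 (A0 + H)) (t := T)]
    _ ≤ |C'| * (H * (x * (l2 / lH))) + ∑ i ∈ T, C * (H * (x / L * (l2 / lH))) :=
        add_le_add hA1 (Finset.sum_le_sum hB2)
    _ = |C'| * (H * (x * (l2 / lH))) + T.card * (C * (H * (x / L * (l2 / lH)))) := by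
        rw [Finset.sum_const, nsmul_eq_mul]
    _ ≤ |C'| * (H * (x * (l2 / lH))) + (3 * L) * (C * (H * (x / L * (l2 / lH)))) := by
        have : 0 ≤ C * (H * (x / L * (l2 / lH))) := by positivity
        gcongr
    _ = (|C'| + 3 * C) * (H * (x * (l2 / lH))) := by
        field_simp

end Pool.Agent.Lib.TR
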