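import Pool.Agent.Lib.TR.AllA
import Pool.Agent.Lib.TR.Fbk
import Pool.Agent.Lib.TR.Fmi
import Pool.Agent.Lib.TR.Fin

/-!
MP_00e23e_nt, THEOREM T: last part of the assembly. Final theorem: aT : TStmt.
-/

set_option autoImplicit false

namespace Pool.Agent.Lib.TR

theorem aFbk : FbkStmt := tFbk aFgd aFbs aNap aNsz aBph aBad
theorem aFmi : FmiStmt := tFmi aFbk Pool.Agent.Lib.UI.aFiu

/-- **THEOREM T**, without hypotheses. -/
theorem aT : TStmt := tFin Pool.Agent.Lib.UI.aTrb aBtr aFmi aFct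

end Pool.Agent.Lib.TR
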