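import Pool.Agent.Lib.TR.SpecB

set_option autoImplicit false

/-!
MP_00e23e_nt, directory Lib/TR, module Bad: the contribution of the bad integers u.
-/

namespace Pool.Agent.Lib.TR

open Finset Pool.Agent.Lib.EH3 Pool.Agent.Results.MP_00e23e_nt

private theorem Bad_two (g : ℕ → ℝ) (hg : ∀ m, 0 ≤ g m) (T : Finset ℤ) (S : Finset ℕ)
    (hTS : ∀ u ∈ T, u.natAbs ∈ S) : ∑ u ∈ T, g u.natAbs ≤ 2 * ∑ m ∈ S, g m := by
  rw [← Finset.sum_fiberwise_of_maps_to hTS, Finset.mul_sum]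
  refine Finset.sum_le_sum fun m _ => ?_
  calc ∑ u ∈ T.filter (fun u => u.natAbs = m), g u.natAbs
      = ∑ _u ∈ T.filter (fun u => u.natAbs = m), g m :=
        Finset.sum_congr rfl fun u hu => by rw [(Finset.mem_filter.1 hu).2]
    _ = ((T.filter (fun u => u.natAbs = m)).card : ℝ) * g m := by rw [sum_const, nsmul_eq_mul]
    _ ≤ 2 * g m := by
        refine mul_le_mul_of_nonneg_right ?_ (hg m)
        have h : T.filter (fun u => u.natAbs = m) ⊆ {(m : ℤ), -(m : ℤ)} := by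
          intro u hu
          have := (mem_filter.1 hu).2
          rw [mem_insert, mem_singleton]
          omega
        have h2 := (card_le_card h).trans card_le_two
        exact_mod_cast h2

private theorem Bad_pt (C : ℝ) (hC : 1 ≤ C)
    (hA : ∀ (z : ℕ) (n : ℤ), 2 ≤ z → 0 ≤ nu z n ∧ nu z n ≤ C * Real.log z ∧
      |ff z n| ≤ 1 + 2 * C * Real.log z)
    (hB : ∀ (z : ℕ) (n : ℤ), 2 ≤ z → |ff z n| ≤ (if 1 ≤ n ∧ n.toNat.Prime then 1 else 0) +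
      Pool.Agent.Lib.UI.lci n * nu z n)
    (hN : ∀ (z : ℕ) (n : ℤ), n < 1 → ff z n = 0)
    (hD : ∀ (x : ℝ) (n : ℤ), 100 ≤ x → Real.sqrt x ≤ n →
      Pool.Agent.Lib.UI.lci n ≤ 3 / Real.log x)
    (z : ℕ) (x : ℝ) (n : ℤ) (hz : 2 ≤ z) (hx : 100 ≤ x) :
    |fc z ⌊x⌋ n| ≤ (if 1 ≤ n ∧ n.toNat.Prime then (1 : ℝ) else 0) + 3 / Real.log x * nu z n +
      (1 + 2 * C * Real.log z) * (if 1 ≤ n ∧ (n : ℝ) ≤ Real.sqrt x then (1 : ℝ) else 0) := by
  have hnu := (hA z n hz).1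
  have hlx : 0 ≤ 3 / Real.log x := div_nonneg (by norm_num) (Real.log_nonneg (by linarith))
  have hlz : 0 ≤ Real.log z := Real.log_nonneg (by exact_mod_cast (by omega : 1 ≤ z))
  have hc : 0 ≤ 1 + 2 * C * Real.log z := by positivity
  have h1 : (0 : ℝ) ≤ if 1 ≤ n ∧ n.toNat.Prime then (1 : ℝ) else 0 := by
    split_ifs
    · norm_num
    · exact le_refl _
  have h2 : (0 : ℝ) ≤ 3 / Real.log x * nu z n := mul_nonneg hlx hnu
  have h3 : (0 : ℝ) ≤ (1 + 2 * C * Real.log z) *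
      (if 1 ≤ n ∧ (n : ℝ) ≤ Real.sqrt x then (1 : ℝ) else 0) := by
    refine mul_nonneg hc ?_
    split_ifs
    · norm_num
    · exact le_refl _
  by_cases hn1 : n < 1
  · have : fc z ⌊x⌋ n = 0 := by
      unfold fc
      rw [hN z n hn1, ite_self]
    rw [this, abs_zero]
    positivity
  · push Not at hn1
    by_cases hnx : n ≤ ⌊x⌋
    · have h4 : fc z ⌊x⌋ n = ff z n := by
        unfold fc
        rw [if_pos hnx]
      rw [h4]
      by_cases hns : (n : ℝ) ≤ Real.sqrt x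
      · rw [if_pos (show 1 ≤ n ∧ (n : ℝ) ≤ Real.sqrt x from ⟨hn1, hns⟩), mul_one]
        have := (hA z n hz).2.2
        linarith
      · push Not at hns
        have h5 := hB z n hz
        have h6 := mul_le_mul_of_nonneg_right (hD x n hx hns.le) hnu
        linarith
    · have : fc z ⌊x⌋ n = 0 := by
        unfold fc
        rw [if_neg hnx]
      rw [this, abs_zero]
      positivity

private theorem Bad_ev (ε ζ D0 : ℝ) (hε : 0 < ε) : ∃ x0 : ℝ, 100 ≤ x0 ∧ ∀ x : ℝ, x0 ≤ x →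
    2 ≤ Real.log x ∧ (Real.log x) ^ (17 * ζ + 1) ≤ x ^ ε ∧ 2 * (Real.log x) ^ ζ ≤ x ∧
      D0 ≤ x ^ ε := by
  have h1 := (isLittleO_log_rpow_rpow_atTop (17 * ζ + 1) hε).bound (c := 1) one_pos
  have h2 := (isLittleO_log_rpow_rpow_atTop ζ (one_pos : (0 : ℝ) < 1)).bound (c := 1 / 2)
    (by norm_num)
  have h3 := (tendsto_rpow_atTop hε).eventually_ge_atTop D0
  have h4 := Real.tendsto_log_atTop.eventually_ge_atTop 2
  obtain ⟨x1, hx1⟩ := Filter.eventually_atTop.1 (h1.and (h2.and (h3.and h4)))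
  refine ⟨max 100 x1, le_max_left _ _, fun x hx => ?_⟩
  have hx100 : 100 ≤ x := le_trans (le_max_left _ _) hx
  obtain ⟨k1, k2, k3, k4⟩ := hx1 x (le_trans (le_max_right _ _) hx)
  have hx0 : 0 < x := by linarith
  have hl : 0 ≤ Real.log x := by linarith
  rw [one_mul, Real.norm_of_nonneg (Real.rpow_nonneg hl _),
    Real.norm_of_nonneg (Real.rpow_nonneg hx0.le _)] at k1
  rw [Real.norm_of_nonneg (Real.rpow_nonneg hl _),
    Real.norm_of_nonneg (Real.rpow_nonneg hx0.le _), Real.rpow_one] at k2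
  exact ⟨k4, k1, by linarith, k3⟩

private theorem Bad_sum (C1 C3 Cz r c W B5 : ℝ) (z D U U' P0 P1 : ℕ) (a : ℤ) (x : ℝ)
    (hC1 : 0 ≤ C1) (hC3 : 0 ≤ C3) (hCz : 0 ≤ Cz) (hr : 0 ≤ r) (hc : 0 ≤ c) (hz : 2 ≤ z)
    (hUU : U ≤ U') (hlD : 0 ≤ Real.log D)
    (hnu0 : ∀ n : ℤ, 0 ≤ nu z n ∧ nu z n ≤ Cz)
    (hpt : ∀ n : ℤ, |fc z ⌊x⌋ n| ≤ (if 1 ≤ n ∧ n.toNat.Prime then (1 : ℝ) else 0) +
      r * nu z n + c * (if 1 ≤ n ∧ (n : ℝ) ≤ Real.sqrt x then (1 : ℝ) else 0))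
    (h2a : ∀ u : ℤ, u ≠ 0 → Int.gcd a u = 1 →
      (((Ioc D (2 * D)).filter (fun d : ℕ => 1 ≤ a + d * u ∧ (a + d * u).toNat.Prime)).card : ℝ) ≤
      C1 * ((u.natAbs : ℝ) / (u.natAbs.totient : ℝ) * ((D : ℝ) / Real.log D)))
    (h2b : ∀ u : ℤ, u ≠ 0 → Int.gcd a u ≠ 1 →
      ((Ioc D (2 * D)).filter (fun d : ℕ => 1 ≤ a + d * u ∧ (a + d * u).toNat.Prime)).card ≤ 1)
    (h3a : ∀ u : ℤ, u ≠ 0 → Int.gcd a u = 1 → ∑ d ∈ Ioc D (2 * D), nu z (a + d * u) ≤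
      C3 * ((u.natAbs : ℝ) / (u.natAbs.totient : ℝ) * D + Real.log z * (z : ℝ) ^ 16))
    (h3b : ∀ (p : ℕ) (u d : ℤ), p.Prime → p ≤ z → (p : ℤ) ∣ a → (p : ℤ) ∣ u →
      nu z (a + d * u) = 0)
    (h4 : ∑ u ∈ (Icc 1 U').filter (fun u => ¬ Good P0 P1 u), (u : ℝ) / (u.totient : ℝ) ≤ W)
    (h5 : ∀ S : Finset ℤ, (∀ u ∈ S, u ∈ Icc (-(U : ℤ)) U ∧ u ≠ 0 ∧
      ∃ p : ℕ, p.Prime ∧ z < p ∧ (p : ℤ) ∣ a ∧ (p : ℤ) ∣ u) → (S.card : ℝ) ≤ B5)
    (h6 : ∑ d ∈ Ioc D (2 * D), (((Icc (-(U : ℤ)) U).filter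
      (fun u => 1 ≤ a + d * u ∧ ((a + d * u : ℤ) : ℝ) ≤ Real.sqrt x)).card : ℝ) ≤
      Real.sqrt x + D) :
    ∑ d ∈ Ioc D (2 * D), ∑ u ∈ (Icc (-(U : ℤ)) U).filter
      (fun u => u ≠ 0 ∧ ¬ Good P0 P1 u.natAbs), |fc z ⌊x⌋ (a + d * u)| ≤
      C1 * (2 * W * ((D : ℝ) / Real.log D)) + 2 * U +
      r * (C3 * (2 * W * D + 2 * U * (Real.log z * (z : ℝ) ^ 16)) + B5 * (D * Cz)) +
      c * (Real.sqrt x + D) := by
  classical
  obtain ⟨T, hT⟩ : ∃ T, T = (Icc (-(U : ℤ)) U).filter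
      (fun u => u ≠ 0 ∧ ¬ Good P0 P1 u.natAbs) := ⟨_, rfl⟩
  rw [← hT]
  have hTm : ∀ u ∈ T, u ∈ Icc (-(U : ℤ)) U ∧ u ≠ 0 ∧ ¬ Good P0 P1 u.natAbs := fun u hu => by
    rw [hT, mem_filter] at hu
    exact hu
  have hw0 : ∀ m : ℕ, 0 ≤ (m : ℝ) / (m.totient : ℝ) := fun m => by positivity
  have hDl : 0 ≤ (D : ℝ) / Real.log D := by positivity
  have hlz : 0 ≤ Real.log z := Real.log_nonneg (by exact_mod_cast (by omega : 1 ≤ z))
  have hw : ∑ u ∈ T, (u.natAbs : ℝ) / (u.natAbs.totient : ℝ) ≤ 2 * W := by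
    refine le_trans (Bad_two (fun m : ℕ => (m : ℝ) / (m.totient : ℝ)) hw0 T
      ((Icc 1 U').filter (fun u => ¬ Good P0 P1 u)) fun u hu => ?_)
      (mul_le_mul_of_nonneg_left h4 (by norm_num))
    obtain ⟨k1, k2, k3⟩ := hTm u hu
    rw [mem_Icc] at k1
    rw [mem_filter, mem_Icc]
    refine ⟨⟨?_, ?_⟩, k3⟩
    · omega
    · omega
  have hcard : (T.card : ℝ) ≤ 2 * U := by
    have h := Bad_two (fun _ : ℕ => (1 : ℝ)) (fun _ => by norm_num) T (Icc 1 U) fun u hu => by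
      obtain ⟨k1, k2, k3⟩ := hTm u hu
      rw [mem_Icc] at k1 ⊢
      omega
    rw [sum_const, sum_const, nsmul_eq_mul, nsmul_eq_mul, mul_one, mul_one, Nat.card_Icc,
      Nat.add_sub_cancel] at h
    exact h
  -- the primes
  have hA : ∑ d ∈ Ioc D (2 * D), ∑ u ∈ T,
      (if 1 ≤ a + (d : ℤ) * u ∧ (a + (d : ℤ) * u).toNat.Prime then (1 : ℝ) else 0) ≤
      C1 * (2 * W * ((D : ℝ) / Real.log D)) + 2 * U := by
    rw [sum_comm]
    have k : ∀ u ∈ T, ∑ d ∈ Ioc D (2 * D),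
        (if 1 ≤ a + (d : ℤ) * u ∧ (a + (d : ℤ) * u).toNat.Prime then (1 : ℝ) else 0) ≤
        C1 * ((u.natAbs : ℝ) / (u.natAbs.totient : ℝ) * ((D : ℝ) / Real.log D)) + 1 := by
      intro u hu
      obtain ⟨-, k2, -⟩ := hTm u hu
      have hnn : 0 ≤ C1 * ((u.natAbs : ℝ) / (u.natAbs.totient : ℝ) * ((D : ℝ) / Real.log D)) :=
        mul_nonneg hC1 (mul_nonneg (hw0 _) hDl)
      rw [← sum_filter, sum_const, nsmul_eq_mul, mul_one]
      by_cases hg : Int.gcd a u = 1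
      · have := h2a u k2 hg
        linarith
      · have : (((Ioc D (2 * D)).filter (fun d : ℕ => 1 ≤ a + d * u ∧
            (a + d * u).toNat.Prime)).card : ℝ) ≤ 1 := by exact_mod_cast h2b u k2 hg
        linarith
    refine (sum_le_sum k).trans ?_
    rw [sum_add_distrib, ← mul_sum, ← sum_mul, sum_const, nsmul_eq_mul, mul_one]
    have := mul_le_mul_of_nonneg_left (mul_le_mul_of_nonneg_right hw hDl) hC1
    linarith
  -- the model
  have hB : ∑ d ∈ Ioc D (2 * D), ∑ u ∈ T, nu z (a + (d : ℤ) * u) ≤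
      C3 * (2 * W * D + 2 * U * (Real.log z * (z : ℝ) ^ 16)) + B5 * (D * Cz) := by
    rw [sum_comm]
    have k : ∀ u ∈ T, ∑ d ∈ Ioc D (2 * D), nu z (a + (d : ℤ) * u) ≤
        C3 * ((u.natAbs : ℝ) / (u.natAbs.totient : ℝ) * D + Real.log z * (z : ℝ) ^ 16) +
        (if ∃ p : ℕ, p.Prime ∧ z < p ∧ (p : ℤ) ∣ a ∧ (p : ℤ) ∣ u then (D : ℝ) * Cz else 0) := by
      intro u hu
      obtain ⟨-, k2, -⟩ := hTm u hu
      have hnn : 0 ≤ C3 * ((u.natAbs : ℝ) / (u.natAbs.totient : ℝ) * D +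
          Real.log z * (z : ℝ) ^ 16) :=
        mul_nonneg hC3 (add_nonneg (mul_nonneg (hw0 _) (Nat.cast_nonneg _)) (by positivity))
      have hnn2 : (0 : ℝ) ≤ if ∃ p : ℕ, p.Prime ∧ z < p ∧ (p : ℤ) ∣ a ∧ (p : ℤ) ∣ u then
          (D : ℝ) * Cz else 0 := by
        split_ifs
        · positivity
        · exact le_refl _
      by_cases hg : Int.gcd a u = 1
      · have := h3a u k2 hg
        linarith
      · obtain ⟨p, hp, hpd⟩ := Nat.exists_prime_and_dvd hg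
        have hpa : (p : ℤ) ∣ a := dvd_trans (Int.natCast_dvd_natCast.2 hpd) (Int.gcd_dvd_left ..)
        have hpu : (p : ℤ) ∣ u := dvd_trans (Int.natCast_dvd_natCast.2 hpd) (Int.gcd_dvd_right ..)
        rcases Nat.lt_or_ge z p with hzp | hzp
        · rw [if_pos ⟨p, hp, hzp, hpa, hpu⟩]
          have : ∑ d ∈ Ioc D (2 * D), nu z (a + (d : ℤ) * u) ≤ (D : ℝ) * Cz := by
            refine (sum_le_sum (fun (d : ℕ) _ => (hnu0 (a + (d : ℤ) * u)).2)).trans ?_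
            rw [sum_const, nsmul_eq_mul, Nat.card_Ioc]
            have : 2 * D - D = D := by omega
            rw [this]
          linarith
        · have : ∑ d ∈ Ioc D (2 * D), nu z (a + (d : ℤ) * u) = 0 :=
            sum_eq_zero fun d _ => h3b p u d hp hzp hpa hpu
          rw [this]
          linarith
    refine (sum_le_sum k).trans ?_
    rw [sum_add_distrib, ← mul_sum, sum_add_distrib, ← sum_mul, sum_const, nsmul_eq_mul,
      ← sum_filter, sum_const, nsmul_eq_mul]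
    have k5 : (((T.filter (fun u => ∃ p : ℕ, p.Prime ∧ z < p ∧ (p : ℤ) ∣ a ∧
        (p : ℤ) ∣ u)).card : ℕ) : ℝ) ≤ B5 := by
      refine h5 _ fun u hu => ?_
      rw [mem_filter] at hu
      exact ⟨(hTm u hu.1).1, (hTm u hu.1).2.1, hu.2⟩
    have k6 := mul_le_mul_of_nonneg_right k5 (mul_nonneg (Nat.cast_nonneg D) hCz)
    have k7 : (∑ u ∈ T, (u.natAbs : ℝ) / (u.natAbs.totient : ℝ)) * D +
        (T.card : ℝ) * (Real.log z * (z : ℝ) ^ 16) ≤
        2 * W * D + 2 * U * (Real.log z * (z : ℝ) ^ 16) :=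
      add_le_add (mul_le_mul_of_nonneg_right hw (Nat.cast_nonneg _))
        (mul_le_mul_of_nonneg_right hcard (by positivity))
    have k8 := mul_le_mul_of_nonneg_left k7 hC3
    linarith
  -- the small values
  have hE : ∑ d ∈ Ioc D (2 * D), ∑ u ∈ T, (if 1 ≤ a + (d : ℤ) * u ∧
      ((a + (d : ℤ) * u : ℤ) : ℝ) ≤ Real.sqrt x then (1 : ℝ) else 0) ≤ Real.sqrt x + D := by
    refine le_trans (sum_le_sum fun d _ => ?_) h6
    rw [← sum_filter, sum_const, nsmul_eq_mul, mul_one]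
    have : T.filter (fun u => 1 ≤ a + (d : ℤ) * u ∧
        ((a + (d : ℤ) * u : ℤ) : ℝ) ≤ Real.sqrt x) ⊆ (Icc (-(U : ℤ)) U).filter
        (fun u => 1 ≤ a + d * u ∧ ((a + d * u : ℤ) : ℝ) ≤ Real.sqrt x) := by
      intro u hu
      rw [mem_filter] at hu ⊢
      exact ⟨(hTm u hu.1).1, hu.2⟩
    exact_mod_cast card_le_card this
  calc ∑ d ∈ Ioc D (2 * D), ∑ u ∈ T, |fc z ⌊x⌋ (a + d * u)|
      ≤ ∑ d ∈ Ioc D (2 * D), ∑ u ∈ T,
        ((if 1 ≤ a + (d : ℤ) * u ∧ (a + (d : ℤ) * u).toNat.Prime then (1 : ℝ) else 0) +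
          r * nu z (a + (d : ℤ) * u) + c * (if 1 ≤ a + (d : ℤ) * u ∧
            ((a + (d : ℤ) * u : ℤ) : ℝ) ≤ Real.sqrt x then (1 : ℝ) else 0)) :=
        sum_le_sum fun d _ => sum_le_sum fun u _ => hpt _
    _ = ∑ d ∈ Ioc D (2 * D), ∑ u ∈ T,
        (if 1 ≤ a + (d : ℤ) * u ∧ (a + (d : ℤ) * u).toNat.Prime then (1 : ℝ) else 0) +
        r * ∑ d ∈ Ioc D (2 * D), ∑ u ∈ T, nu z (a + (d : ℤ) * u) +
        c * ∑ d ∈ Ioc D (2 * D), ∑ u ∈ T, (if 1 ≤ a + (d : ℤ) * u ∧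
            ((a + (d : ℤ) * u : ℤ) : ℝ) ≤ Real.sqrt x then (1 : ℝ) else 0) := by
        simp only [sum_add_distrib, mul_sum]
    _ ≤ _ := add_le_add (add_le_add hA (mul_le_mul_of_nonneg_left hB hr))
        (mul_le_mul_of_nonneg_left hE hc)

/-- the numbers -/
private theorem Bad_num (ε ζ C C1 C3 C4 x D U U' z L ρ la lz lD y sx : ℝ)
    (hε : 0 < ε) (hζ : 1 ≤ ζ) (hC : 1 ≤ C) (hC1 : 0 < C1) (hC3 : 0 < C3) (hC4 : 0 < C4)
    (hx : 0 < x) (hD : 0 < D) (hU0 : 0 ≤ U) (hU'0 : 0 ≤ U') (hz : 0 < z) (hL : 2 ≤ L)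
    (hρ : 0 ≤ ρ) (hla0 : 0 ≤ la) (hla : la ≤ L) (hlz0 : 0 ≤ lz) (hlz : lz ≤ L)
    (hlD : ε * L ≤ lD) (hU : U ≤ 3 * x / D) (hU' : U' ≤ 3 * x / D) (hz1 : L ^ ζ ≤ z)
    (hz2 : z ≤ 2 * L ^ ζ) (hy0 : 0 ≤ y) (hy : x / D ≤ y) (hDy : D ≤ y) (hsx : sx ≤ y)
    (hyx : y * L ^ (17 * ζ + 1) ≤ x) :
    C1 * (2 * (C4 * (U' * ρ)) * (D / lD)) + 2 * U +
      3 / L * (C3 * (2 * (C4 * (U' * ρ)) * D + 2 * U * (lz * z ^ 16)) +
        4 * la * (U / z) * (D * (C * lz))) + (1 + 2 * C * lz) * (sx + D) ≤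
      (6 * C1 * C4 / ε + 18 * C3 * C4 + 6 + 1179648 * C3 + 42 * C) *
        (x / L * ρ + x * L ^ (2 - ζ)) := by
  have hL0 : 0 < L := by linarith
  have hL1 : 1 ≤ L := by linarith
  have hεL : 0 < ε * L := by positivity
  have hlD0 : 0 < lD := by linarith
  have hE0 : 0 ≤ x * L ^ (2 - ζ) := by positivity
  have hF0 : 0 ≤ x / L * ρ := by positivity
  have key : ∀ s : ℝ, s ≤ 16 * ζ + 3 → y * L ^ s ≤ x * L ^ (2 - ζ) := by
    intro s hs
    have h1 : L ^ s = L ^ (17 * ζ + 1) * L ^ (s - (17 * ζ + 1)) := by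
      rw [← Real.rpow_add hL0]
      congr 1
      ring
    rw [h1, ← mul_assoc]
    refine mul_le_mul hyx ?_ (by positivity) hx.le
    exact Real.rpow_le_rpow_of_exponent_le hL1 (by linarith)
  have k0 : y ≤ x * L ^ (2 - ζ) := by
    have := key 0 (by linarith)
    rwa [Real.rpow_zero, mul_one] at this
  have k1 : y * L ≤ x * L ^ (2 - ζ) := by
    have := key 1 (by linarith)
    rwa [Real.rpow_one] at this
  have k16 : y * (L ^ ζ) ^ 16 ≤ x * L ^ (2 - ζ) := by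
    have := key (ζ * (16 : ℕ)) (by push_cast; linarith)
    rwa [Real.rpow_mul_natCast hL0.le] at this
  have hxD : D * (x / D) = x := by field_simp
  have h3 : 3 * x / D = 3 * (x / D) := by ring
  rw [h3] at hU hU'
  have hxD0 : 0 ≤ x / D := by positivity
  -- (i)
  have t1 : C1 * (2 * (C4 * (U' * ρ)) * (D / lD)) ≤ 6 * C1 * C4 / ε * (x / L * ρ) := by
    have a1 : U' * ρ ≤ 3 * (x / D) * ρ := mul_le_mul_of_nonneg_right hU' hρ
    have a2 : D / lD ≤ D / (ε * L) := div_le_div_of_nonneg_left hD.le hεL hlD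
    calc C1 * (2 * (C4 * (U' * ρ)) * (D / lD))
        ≤ C1 * (2 * (C4 * (3 * (x / D) * ρ)) * (D / (ε * L))) := by gcongr
      _ = 6 * C1 * C4 / ε * (x / L * ρ) := by
          field_simp
          try ring
  -- (ii)
  have t2 : 2 * U ≤ 6 * (x * L ^ (2 - ζ)) := by linarith
  -- (iii)
  have t3 : 3 / L * (C3 * (2 * (C4 * (U' * ρ)) * D)) ≤ 18 * C3 * C4 * (x / L * ρ) := by
    have a1 : U' * ρ ≤ 3 * (x / D) * ρ := mul_le_mul_of_nonneg_right hU' hρ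
    calc 3 / L * (C3 * (2 * (C4 * (U' * ρ)) * D))
        ≤ 3 / L * (C3 * (2 * (C4 * (3 * (x / D) * ρ)) * D)) := by gcongr
      _ = 18 * C3 * C4 * (x / L * ρ) := by
          field_simp
          try ring
  -- (iv)
  have t4 : 3 / L * (C3 * (2 * U * (lz * z ^ 16))) ≤ 1179648 * C3 * (x * L ^ (2 - ζ)) := by
    have a1 : U ≤ 3 * y := by linarith
    have a2 : z ^ 16 ≤ (2 * L ^ ζ) ^ 16 := pow_le_pow_left₀ hz.le hz2 16
    calc 3 / L * (C3 * (2 * U * (lz * z ^ 16)))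
        ≤ 3 / L * (C3 * (2 * (3 * y) * (L * (2 * L ^ ζ) ^ 16))) := by gcongr
      _ = 1179648 * C3 * (y * (L ^ ζ) ^ 16) := by
          field_simp
          try ring
      _ ≤ _ := mul_le_mul_of_nonneg_left k16 (by positivity)
  -- (v)
  have t5 : 3 / L * (4 * la * (U / z) * (D * (C * lz))) ≤ 36 * C * (x * L ^ (2 - ζ)) := by
    have a3 : 0 < L ^ ζ := Real.rpow_pos_of_pos hL0 _
    have a1 : U / z ≤ 3 * (x / D) / L ^ ζ := div_le_div₀ (by positivity) hU a3 hz1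
    have a2 : 0 ≤ U / z := by positivity
    calc 3 / L * (4 * la * (U / z) * (D * (C * lz)))
        ≤ 3 / L * (4 * L * (3 * (x / D) / L ^ ζ) * (D * (C * L))) := by gcongr
      _ = 36 * C * (x * (L / L ^ ζ)) := by
          field_simp
          try ring
      _ ≤ 36 * C * (x * L ^ (2 - ζ)) := by
          refine mul_le_mul_of_nonneg_left (mul_le_mul_of_nonneg_left ?_ hx.le) (by linarith)
          have a4 : L / L ^ ζ = L ^ (1 - ζ) := by
            rw [Real.rpow_sub hL0, Real.rpow_one]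
          rw [a4]
          exact Real.rpow_le_rpow_of_exponent_le hL1 (by linarith)
  -- (vi)
  have t6 : (1 + 2 * C * lz) * (sx + D) ≤ 6 * C * (x * L ^ (2 - ζ)) := by
    have a1 : 1 + 2 * C * lz ≤ 3 * (C * L) := by
      have b1 : C * lz ≤ C * L := mul_le_mul_of_nonneg_left hlz (by linarith)
      have b2 : 1 ≤ C * L := by nlinarith
      linarith
    have a2 : 0 ≤ 1 + 2 * C * lz := by positivity
    calc (1 + 2 * C * lz) * (sx + D) ≤ (1 + 2 * C * lz) * (2 * y) :=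
          mul_le_mul_of_nonneg_left (by linarith) a2
      _ ≤ 3 * (C * L) * (2 * y) := mul_le_mul_of_nonneg_right a1 (by linarith)
      _ = 6 * C * (y * L) := by ring
      _ ≤ _ := mul_le_mul_of_nonneg_left k1 (by linarith)
  have hsplit : 3 / L * (C3 * (2 * (C4 * (U' * ρ)) * D + 2 * U * (lz * z ^ 16)) +
        4 * la * (U / z) * (D * (C * lz))) =
      3 / L * (C3 * (2 * (C4 * (U' * ρ)) * D)) + 3 / L * (C3 * (2 * U * (lz * z ^ 16))) +
        3 / L * (4 * la * (U / z) * (D * (C * lz))) := by ring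
  rw [hsplit]
  have g1 : 0 ≤ (6 * C1 * C4 / ε + 18 * C3 * C4) * (x * L ^ (2 - ζ)) := by positivity
  have g2 : 0 ≤ (6 + 1179648 * C3 + 42 * C) * (x / L * ρ) := by positivity
  linarith

theorem tBad (h1 : NszStmt) (h2 : BprStmt) (h3 : BnuStmt) (h4 : BwtStmt) (h5 : BcoStmt)
    (h6 : BsmStmt) : BadStmt := by
  obtain ⟨⟨C, hC, hA⟩, hB, hN, hDD⟩ := h1
  obtain ⟨⟨C1, D0, hC1, hD0, h2a⟩, h2b⟩ := h2
  obtain ⟨⟨C3, hC3, h3a⟩, h3b⟩ := h3
  obtain ⟨C4, hC4, h4⟩ := h4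
  intro ε ζ hε hε1 hζ
  obtain ⟨x0, hx0, hev⟩ := Bad_ev ε ζ D0 hε
  refine ⟨6 * C1 * C4 / ε + 18 * C3 * C4 + 6 + 1179648 * C3 + 42 * C, x0, by positivity,
    by linarith, ?_⟩
  intro x D P0 P1 H U A0 hx hD1 hD2 hP0 hP01 hP1 hA0 hA1 hU
  obtain ⟨e1, e2, e3, e4⟩ := hev x hx
  have hx100 : 100 ≤ x := by linarith
  have hxp : 0 < x := by linarith
  have hx1 : 1 ≤ x := by linarith
  have hL0 : 0 < Real.log x := by linarith
  have hL1 : 1 ≤ Real.log x := by linarith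
  have hxε : 1 ≤ x ^ ε := Real.one_le_rpow hx1 hε.le
  have hDp : (0 : ℝ) < D := by linarith
  have hD0' : D0 ≤ D := by exact_mod_cast (e4.trans hD1)
  have hD2' : 2 ≤ D := hD0.trans hD0'
  have hy : x ^ (1 - ε) = x / x ^ ε := by rw [Real.rpow_sub hxp, Real.rpow_one]
  have hxε0 : 0 < x ^ ε := by linarith
  -- the level z
  have hLζ1 : Real.log x ≤ (Real.log x) ^ ζ := by
    have := Real.rpow_le_rpow_of_exponent_le hL1 hζ
    rwa [Real.rpow_one] at this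
  have hz1 : (Real.log x) ^ ζ ≤ (zz ζ x : ℝ) := Nat.le_ceil _
  have hz2 : (zz ζ x : ℝ) ≤ 2 * (Real.log x) ^ ζ := by
    have := Nat.ceil_lt_add_one (Real.rpow_nonneg hL0.le ζ)
    have h7 : ((zz ζ x : ℕ) : ℝ) < (Real.log x) ^ ζ + 1 := this
    linarith
  have hz : 2 ≤ zz ζ x := by
    have : (2 : ℝ) ≤ (zz ζ x : ℝ) := by linarith
    exact_mod_cast this
  have hzp : (0 : ℝ) < (zz ζ x : ℝ) := by linarith
  have hlz0 : 0 ≤ Real.log (zz ζ x : ℝ) := Real.log_nonneg (by linarith)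
  have hlz : Real.log (zz ζ x : ℝ) ≤ Real.log x := Real.log_le_log hzp (by linarith)
  -- D
  have hlD : ε * Real.log x ≤ Real.log D := by
    rw [← Real.log_rpow hxp]
    exact Real.log_le_log hxε0 hD1
  have hlD0 : 0 ≤ Real.log D := le_trans (by positivity) hlD
  have hxD : x / D ≤ x / x ^ ε := div_le_div_of_nonneg_left hxp.le hxε0 hD1
  have hDy : (D : ℝ) ≤ x / x ^ ε := by rw [← hy]; exact hD2
  have hsx : Real.sqrt x ≤ x / x ^ ε := by
    rw [← hy, Real.sqrt_eq_rpow]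
    exact Real.rpow_le_rpow_of_exponent_le hx1 (by linarith)
  have hyx : x / x ^ ε * (Real.log x) ^ (17 * ζ + 1) ≤ x := by
    rw [div_mul_eq_mul_div, div_le_iff₀ hxε0]
    exact mul_le_mul_of_nonneg_left e2 hxp.le
  -- U'
  have h3x : 0 ≤ 3 * x / D := by positivity
  have hUU : U ≤ ⌊3 * x / (D : ℝ)⌋₊ := Nat.le_floor hU
  have hU' : ((⌊3 * x / (D : ℝ)⌋₊ : ℕ) : ℝ) ≤ 3 * x / D := Nat.floor_le h3x
  have hP4 : P1 ^ 4 ≤ ⌊3 * x / (D : ℝ)⌋₊ := by
    refine Nat.le_floor ?_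
    have a1 : (P1 : ℝ) ^ 4 ≤ (x ^ (ε / 8)) ^ 4 := pow_le_pow_left₀ (Nat.cast_nonneg _) hP1 4
    have a2 : (x ^ (ε / 8)) ^ 4 = x ^ (ε / 2) := by
      rw [← Real.rpow_mul_natCast hxp.le]
      congr 1
      push_cast
      ring
    have a3 : x ^ (ε / 2) ≤ x ^ ε := Real.rpow_le_rpow_of_exponent_le hx1 (by linarith)
    have a4 : x ^ ε ≤ x / D := by
      rw [le_div_iff₀ hDp]
      calc x ^ ε * D ≤ x ^ ε * (x / x ^ ε) := mul_le_mul_of_nonneg_left hDy hxε0.le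
        _ = x := by field_simp
    have a5 : x / D ≤ 3 * x / D := by
      rw [mul_div_assoc]
      have : 0 ≤ x / D := by positivity
      linarith
    push_cast
    linarith
  have hρ : 0 ≤ Real.log P0 / Real.log P1 := by
    refine div_nonneg (Real.log_nonneg ?_) (Real.log_nonneg ?_)
    · exact_mod_cast (by omega : 1 ≤ P0)
    · exact_mod_cast (by omega : 1 ≤ P1)
  -- one residue
  have hone : ∀ a ∈ Ico A0 (A0 + H),
      ∑ d ∈ (Ioc D (2 * D)).filter (fun d : ℕ => Int.gcd a d = 1),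
      ∑ u ∈ (Icc (-(U : ℤ)) U).filter (fun u => u ≠ 0 ∧ ¬ Good P0 P1 u.natAbs),
        |fc (zz ζ x) ⌊x⌋ (a + d * u)| ≤
      (6 * C1 * C4 / ε + 18 * C3 * C4 + 6 + 1179648 * C3 + 42 * C) *
        (x / Real.log x * (Real.log P0 / Real.log P1) + x * (Real.log x) ^ (2 - ζ)) := by
    intro a ha
    rw [mem_Ico] at ha
    by_cases ha0 : a = 0
    · have : (Ioc D (2 * D)).filter (fun d : ℕ => Int.gcd a d = 1) = ∅ := by
        rw [filter_eq_empty_iff]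
        intro d hd
        rw [mem_Ioc] at hd
        rw [ha0, Int.gcd_zero_left, Int.natAbs_natCast]
        omega
      rw [this, sum_empty]
      positivity
    · have hle : ∑ d ∈ (Ioc D (2 * D)).filter (fun d : ℕ => Int.gcd a d = 1),
          ∑ u ∈ (Icc (-(U : ℤ)) U).filter (fun u => u ≠ 0 ∧ ¬ Good P0 P1 u.natAbs),
            |fc (zz ζ x) ⌊x⌋ (a + d * u)| ≤ ∑ d ∈ Ioc D (2 * D),
          ∑ u ∈ (Icc (-(U : ℤ)) U).filter (fun u => u ≠ 0 ∧ ¬ Good P0 P1 u.natAbs),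
            |fc (zz ζ x) ⌊x⌋ (a + d * u)| :=
        sum_le_sum_of_subset_of_nonneg (filter_subset _ _) fun d _ _ =>
          sum_nonneg fun u _ => abs_nonneg _
      refine hle.trans ?_
      have hab : (a.natAbs : ℝ) ≤ x := by
        rw [Nat.cast_natAbs, Int.cast_abs, abs_le]
        have b1 : ((A0 : ℤ) : ℝ) ≤ (a : ℝ) := by exact_mod_cast ha.1
        have b2 : (a : ℝ) + 1 ≤ (A0 : ℝ) + H := by exact_mod_cast ha.2
        constructor <;> linarith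
      have hab1 : 1 ≤ a.natAbs := Int.natAbs_pos.2 ha0
      have hla : Real.log (a.natAbs : ℝ) ≤ Real.log x :=
        Real.log_le_log (by exact_mod_cast hab1) hab
      have hla0 : 0 ≤ Real.log (a.natAbs : ℝ) := Real.log_nonneg (by exact_mod_cast hab1)
      have hco : ∀ S : Finset ℤ, (∀ u ∈ S, u ∈ Icc (-(U : ℤ)) U ∧ u ≠ 0 ∧
          ∃ p : ℕ, p.Prime ∧ zz ζ x < p ∧ (p : ℤ) ∣ a ∧ (p : ℤ) ∣ u) →
          (S.card : ℝ) ≤ 4 * Real.log a.natAbs * (U / (zz ζ x : ℝ)) := by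
        intro S hS
        refine le_trans (Nat.cast_le.2 (card_le_card ?_)) (h5 (zz ζ x) U a (by omega) ha0)
        intro u hu
        simp only [mem_filter]
        exact ⟨(hS u hu).1, (hS u hu).2⟩
      have hs := Bad_sum C1 C3 (C * Real.log (zz ζ x : ℝ)) (3 / Real.log x)
        (1 + 2 * C * Real.log (zz ζ x : ℝ))
        (C4 * ((⌊3 * x / (D : ℝ)⌋₊ : ℕ) * (Real.log P0 / Real.log P1)))
        (4 * Real.log a.natAbs * (U / (zz ζ x : ℝ))) (zz ζ x) D U ⌊3 * x / (D : ℝ)⌋₊ P0 P1 a x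
        hC1.le hC3.le (by positivity) (by positivity) (by positivity) hz hUU hlD0
        (fun n => ⟨(hA _ n hz).1, (hA _ n hz).2.1⟩)
        (fun n => Bad_pt C hC hA hB hN hDD (zz ζ x) x n hz hx100)
        (fun u hu hg => h2a D a u hD0' hu hg) (fun u hu hg => h2b D a u hu hg)
        (fun u hu hg => h3a (zz ζ x) D a u hz hu hg)
        (fun p u d hp hpz hpa hpu => h3b (zz ζ x) p a u d hp hpz hpa hpu)
        (h4 P0 P1 _ hP0 hP01 hP4)
        hco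
        (h6 D U (Real.sqrt x) a (by omega) (Real.sqrt_nonneg _))
      refine hs.trans ?_
      exact Bad_num ε ζ C C1 C3 C4 x D U _ (zz ζ x : ℝ) (Real.log x) _ _ _ _ (x / x ^ ε) _
        hε hζ hC hC1 hC3 hC4 hxp hDp (Nat.cast_nonneg _) (Nat.cast_nonneg _) hzp e1 hρ hla0 hla
        hlz0 hlz hlD hU hU' hz1 hz2 (by positivity) hxD hDy hsx hyx
  refine (sum_le_sum hone).trans ?_
  rw [sum_const, nsmul_eq_mul, Int.card_Ico]
  have hc : (((A0 + (H : ℤ) - A0).toNat : ℕ) : ℝ) = (H : ℝ) := by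
    have : (A0 + (H : ℤ) - A0).toNat = H := by omega
    rw [this]
  rw [hc]
  apply le_of_eq
  ring

end Pool.Agent.Lib.TR
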