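import Pool.Agent.Lib.TR.SpecB
import Pool.Agent.Lib.EH.Basic

/-!
MP_00e23e_nt, directory Lib/TR, module Bco (helper12): the u with a large common prime factor with a.
-/

set_option autoImplicit false

namespace Pool.Agent.Lib.TR

open Finset Pool.Agent.Lib.EH3 Pool.Agent.Results.MP_00e23e_nt

private theorem Bco_sub (z U : ℕ) (a : ℤ) (ha : a ≠ 0) (S : Finset ℤ)
    (hS : ∀ u ∈ S, -(U : ℤ) ≤ u ∧ u ≤ U ∧ u ≠ 0 ∧ ∃ p : ℕ, p.Prime ∧ z < p ∧ (p : ℤ) ∣ a ∧ (p : ℤ) ∣ u) :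
    S ⊆ (a.natAbs.primeFactors.filter (fun p => z < p)).biUnion (fun p =>
      (Ioc 0 (U / p)).image (fun k : ℕ => (p : ℤ) * k) ∪ (Ioc 0 (U / p)).image (fun k : ℕ => -((p : ℤ) * k))) := by
  intro u hu
  obtain ⟨h1, h2, h3, p, hp, hz, hpa, k, hk⟩ := hS u hu
  rw [mem_biUnion]
  refine ⟨p, ?_, ?_⟩
  · rw [mem_filter, Nat.mem_primeFactors]
    exact ⟨⟨hp, Int.natCast_dvd.1 hpa, by simpa using ha⟩, hz⟩
  · have hp0 : (0 : ℤ) < p := by exact_mod_cast hp.pos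
    rw [mem_union, mem_image, mem_image]
    rcases lt_trichotomy k 0 with hk0 | hk0 | hk0
    · right
      refine ⟨k.natAbs, ?_, ?_⟩
      · rw [mem_Ioc]
        refine ⟨by omega, ?_⟩
        rw [Nat.le_div_iff_mul_le hp.pos]
        have : ((k.natAbs * p : ℕ) : ℤ) ≤ (U : ℤ) := by
          push_cast
          rw [abs_of_neg hk0]
          nlinarith
        exact_mod_cast this
      · rw [hk, Int.natCast_natAbs, abs_of_neg hk0]
        ring
    · exact absurd (by rw [hk, hk0, mul_zero]) h3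
    · left
      refine ⟨k.natAbs, ?_, ?_⟩
      · rw [mem_Ioc]
        refine ⟨by omega, ?_⟩
        rw [Nat.le_div_iff_mul_le hp.pos]
        have : ((k.natAbs * p : ℕ) : ℤ) ≤ (U : ℤ) := by
          push_cast
          rw [abs_of_pos hk0]
          nlinarith
        exact_mod_cast this
      · rw [hk, Int.natCast_natAbs, abs_of_pos hk0]

private theorem Bco_one (z U p : ℕ) (hz : 1 ≤ z) (hp : z < p) :
    ((((Ioc 0 (U / p)).image (fun k : ℕ => (p : ℤ) * k) ∪ (Ioc 0 (U / p)).image (fun k : ℕ => -((p : ℤ) * k))).card : ℕ) : ℝ) ≤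
      2 * ((U : ℝ) / z) := by
  have h1 : ((Ioc 0 (U / p)).image (fun k : ℕ => (p : ℤ) * k) ∪
      (Ioc 0 (U / p)).image (fun k : ℕ => -((p : ℤ) * k))).card ≤ U / p + U / p := by
    refine (card_union_le _ _).trans (Nat.add_le_add (card_image_le.trans (by simp)) (card_image_le.trans (by simp)))
  have h2 : ((U / p : ℕ) : ℝ) ≤ (U : ℝ) / z := by
    refine Nat.cast_div_le.trans ?_
    have hz0 : (0 : ℝ) < z := by exact_mod_cast hz
    exact div_le_div_of_nonneg_left (Nat.cast_nonneg U) hz0 (by exact_mod_cast hp.le)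
  calc ((((Ioc 0 (U / p)).image (fun k : ℕ => (p : ℤ) * k) ∪ (Ioc 0 (U / p)).image (fun k : ℕ => -((p : ℤ) * k))).card : ℕ) : ℝ)
      ≤ ((U / p + U / p : ℕ) : ℝ) := by exact_mod_cast h1
    _ = ((U / p : ℕ) : ℝ) + ((U / p : ℕ) : ℝ) := by push_cast; ring
    _ ≤ 2 * ((U : ℝ) / z) := by linarith

theorem tBco : BcoStmt := by
  classical
  intro z U a hz ha
  have hsub := Bco_sub z U a ha
    ((Icc (-(U : ℤ)) U).filter (fun u => u ≠ 0 ∧ ∃ p : ℕ, p.Prime ∧ z < p ∧ (p : ℤ) ∣ a ∧ (p : ℤ) ∣ u))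
    (by
      intro u hu
      rw [mem_filter, mem_Icc] at hu
      exact ⟨hu.1.1, hu.1.2, hu.2.1, hu.2.2⟩)
  have h1 := card_le_card hsub
  have h2 : ((((a.natAbs.primeFactors.filter (fun p => z < p)).biUnion (fun p =>
      (Ioc 0 (U / p)).image (fun k : ℕ => (p : ℤ) * k) ∪
        (Ioc 0 (U / p)).image (fun k : ℕ => -((p : ℤ) * k)))).card : ℕ) : ℝ) ≤
      ∑ p ∈ a.natAbs.primeFactors.filter (fun p => z < p), 2 * ((U : ℝ) / z) := by
    refine (Nat.cast_le.2 card_biUnion_le).trans ?_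
    rw [Nat.cast_sum]
    refine sum_le_sum fun p hp => Bco_one z U p hz (mem_filter.1 hp).2
  have h3 : ((a.natAbs.primeFactors.filter (fun p => z < p)).card : ℝ) ≤ 2 * Real.log a.natAbs := by
    refine le_trans ?_ (Pool.Agent.Lib.EH.card_primeFactors_le (Int.natAbs_pos.2 ha))
    exact_mod_cast card_filter_le _ _
  rw [sum_const, nsmul_eq_mul] at h2
  have h4 : (0 : ℝ) ≤ 2 * ((U : ℝ) / z) := by positivity
  have h5 := mul_le_mul_of_nonneg_right h3 h4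
  have h6 : ((((Icc (-(U : ℤ)) U).filter (fun u => u ≠ 0 ∧ ∃ p : ℕ, p.Prime ∧ z < p ∧ (p : ℤ) ∣ a ∧
      (p : ℤ) ∣ u)).card : ℕ) : ℝ) ≤ 2 * Real.log a.natAbs * (2 * ((U : ℝ) / z)) :=
    ((Nat.cast_le.2 h1).trans h2).trans h5
  refine h6.trans (le_of_eq ?_)
  ring

end Pool.Agent.Lib.TR
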