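import Pool.Agent.Lib.TR.SpecB

/-! MP_00e23e_nt, Lib/TR, module Bnu: the model for the variable d. -/

set_option autoImplicit false

namespace Pool.Agent.Lib.TR

open Finset Pool.Agent.Lib.EH3 Pool.Agent.Results.MP_00e23e_nt

/-- the values a + d u lie in an interval of length D |u| and in one residue class modulo |u| -/
private theorem Bnu_int (D : ℕ) (a u : ℤ) (hu : u ≠ 0) (hg : Int.gcd a u = 1) :
    ∃ l N N2 : ℕ, l.Coprime u.natAbs ∧ N ≤ N2 ∧ N2 ≤ N + D * u.natAbs ∧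
      ∀ d ∈ Ioc D (2 * D), 1 ≤ a + (d : ℤ) * u →
        (a + (d : ℤ) * u).toNat ∈ Ioc N N2 ∧ (a + (d : ℤ) * u).toNat ≡ l [MOD u.natAbs] := by
  have hq : 0 < u.natAbs := Int.natAbs_pos.2 hu
  have hqz : (0 : ℤ) < (u.natAbs : ℤ) := by exact_mod_cast hq
  have hl0 : 0 ≤ a % (u.natAbs : ℤ) := Int.emod_nonneg _ hqz.ne'
  have hlc : (a % (u.natAbs : ℤ)).toNat.Coprime u.natAbs := by
    have h1 : Int.gcd (a % (u.natAbs : ℤ)) (u.natAbs : ℤ) = 1 := by
      rw [Int.gcd_emod, ← hg, Int.gcd_def, Int.gcd_def, Int.natAbs_natCast]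
    rw [Int.gcd_def, Int.natAbs_natCast] at h1
    rw [Nat.coprime_iff_gcd_eq_one]
    have h2 : (a % (u.natAbs : ℤ)).natAbs = (a % (u.natAbs : ℤ)).toNat := by omega
    rw [h2] at h1
    exact h1
  have hmod : ∀ d : ℕ, 1 ≤ a + (d : ℤ) * u →
      (a + (d : ℤ) * u).toNat ≡ (a % (u.natAbs : ℤ)).toNat [MOD u.natAbs] := by
    intro d hd
    rw [← Int.natCast_modEq_iff, Int.toNat_of_nonneg (by omega), Int.toNat_of_nonneg hl0]
    have h1 : a % (u.natAbs : ℤ) ≡ a [ZMOD (u.natAbs : ℤ)] := Int.mod_modEq _ _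
    refine Int.ModEq.trans ?_ h1.symm
    have h2 : ((u.natAbs : ℤ)) ∣ (d : ℤ) * u := Dvd.dvd.mul_left (Int.natAbs_dvd.2 dvd_rfl) _
    have h3 : a + (d : ℤ) * u ≡ a + 0 [ZMOD (u.natAbs : ℤ)] :=
      Int.ModEq.add_left _ ((Int.modEq_zero_iff_dvd).2 h2)
    rw [add_zero] at h3
    exact h3
  rcases lt_or_gt_of_ne hu with hneg | hpos
  · refine ⟨(a % (u.natAbs : ℤ)).toNat, (a + 2 * (D : ℤ) * u - 1).toNat, (a + (D : ℤ) * u - 1).toNat,
      hlc, ?_, ?_, ?_⟩
    · have h1 : (D : ℤ) * u ≤ 0 := mul_nonpos_of_nonneg_of_nonpos (by positivity) hneg.le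
      have h2 : 2 * (D : ℤ) * u = (D : ℤ) * u + (D : ℤ) * u := by ring
      rw [h2]
      omega
    · have h0 : (u.natAbs : ℤ) = -u := by omega
      have h1 : ((D * u.natAbs : ℕ) : ℤ) = -((D : ℤ) * u) := by
        push_cast
        rw [← Int.natCast_natAbs, h0]
        ring
      have h2 : 2 * (D : ℤ) * u = (D : ℤ) * u + (D : ℤ) * u := by ring
      rw [h2]
      omega
    · intro d hd h1
      refine ⟨?_, hmod d h1⟩
      rw [Finset.mem_Ioc] at hd ⊢
      have h2 : (D : ℤ) + 1 ≤ (d : ℤ) := by exact_mod_cast hd.1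
      have h3 : (d : ℤ) ≤ 2 * (D : ℤ) := by exact_mod_cast hd.2
      have h4 : (d : ℤ) * u ≤ ((D : ℤ) + 1) * u := mul_le_mul_of_nonpos_right h2 hneg.le
      have h5 : 2 * (D : ℤ) * u ≤ (d : ℤ) * u := mul_le_mul_of_nonpos_right h3 hneg.le
      have h6 : ((D : ℤ) + 1) * u = (D : ℤ) * u + u := by ring
      rw [h6] at h4
      constructor
      · omega
      · omega
  · refine ⟨(a % (u.natAbs : ℤ)).toNat, (a + (D : ℤ) * u).toNat, (a + 2 * (D : ℤ) * u).toNat,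
      hlc, ?_, ?_, ?_⟩
    · have h1 : 0 ≤ (D : ℤ) * u := mul_nonneg (by positivity) hpos.le
      have h2 : 2 * (D : ℤ) * u = (D : ℤ) * u + (D : ℤ) * u := by ring
      rw [h2]
      omega
    · have h0 : (u.natAbs : ℤ) = u := by omega
      have h1 : ((D * u.natAbs : ℕ) : ℤ) = (D : ℤ) * u := by
        push_cast
        rw [← Int.natCast_natAbs, h0]
      have h2 : 2 * (D : ℤ) * u = (D : ℤ) * u + (D : ℤ) * u := by ring
      rw [h2]
      omega
    · intro d hd h1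
      refine ⟨?_, hmod d h1⟩
      rw [Finset.mem_Ioc] at hd ⊢
      have h2 : (D : ℤ) + 1 ≤ (d : ℤ) := by exact_mod_cast hd.1
      have h3 : (d : ℤ) ≤ 2 * (D : ℤ) := by exact_mod_cast hd.2
      have h4 : ((D : ℤ) + 1) * u ≤ (d : ℤ) * u := mul_le_mul_of_nonneg_right h2 hpos.le
      have h5 : (d : ℤ) * u ≤ 2 * (D : ℤ) * u := mul_le_mul_of_nonneg_right h3 hpos.le
      have h6 : ((D : ℤ) + 1) * u = (D : ℤ) * u + u := by ring
      rw [h6] at h4
      constructor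
      · omega
      · omega

private theorem Bnu_rr_nonneg (z n : ℕ) : 0 ≤ Pool.Agent.Lib.BV.rr z n := by
  unfold Pool.Agent.Lib.BV.rr
  split_ifs <;> norm_num

/-- the sum over d is a sum over a part of the residue class -/
private theorem Bnu_sum (D z l N N2 : ℕ) (a u : ℤ) (hu : u ≠ 0) (hn : 0 < nrm z)
    (h : ∀ d ∈ Ioc D (2 * D), 1 ≤ a + (d : ℤ) * u →
        (a + (d : ℤ) * u).toNat ∈ Ioc N N2 ∧ (a + (d : ℤ) * u).toNat ≡ l [MOD u.natAbs]) :
    ∑ d ∈ Ioc D (2 * D), nu z (a + d * u) ≤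
      (1 / nrm z) * ∑ n ∈ (Ioc N N2).filter (fun n => n ≡ l [MOD u.natAbs]), Pool.Agent.Lib.BV.rr z n := by
  classical
  have h1 : ∑ d ∈ Ioc D (2 * D), nu z (a + d * u) =
      (1 / nrm z) * ∑ d ∈ (Ioc D (2 * D)).filter (fun d : ℕ => 1 ≤ a + (d : ℤ) * u),
        Pool.Agent.Lib.BV.rr z (a + (d : ℤ) * u).toNat := by
    rw [Finset.sum_filter, Finset.mul_sum]
    refine Finset.sum_congr rfl fun d _ => ?_
    unfold nu
    split_ifs
    · ring
    · ring
  rw [h1]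
  refine mul_le_mul_of_nonneg_left ?_ (by positivity)
  have hinj : Set.InjOn (fun d : ℕ => (a + (d : ℤ) * u).toNat)
      ((Ioc D (2 * D)).filter (fun d : ℕ => 1 ≤ a + (d : ℤ) * u) : Finset ℕ) := by
    intro d hd e he hde
    rw [Finset.mem_coe, Finset.mem_filter] at hd he
    have h2 : a + (d : ℤ) * u = a + (e : ℤ) * u := by
      have h3 : (a + (d : ℤ) * u).toNat = (a + (e : ℤ) * u).toNat := hde
      have h4 := hd.2
      have h5 := he.2
      omega
    have h3 : (d : ℤ) * u = (e : ℤ) * u := by linarith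
    have h4 := mul_right_cancel₀ hu h3
    exact_mod_cast h4
  rw [← Finset.sum_image (g := fun d : ℕ => (a + (d : ℤ) * u).toNat)
    (f := fun n => Pool.Agent.Lib.BV.rr z n) hinj]
  refine Finset.sum_le_sum_of_subset_of_nonneg ?_ fun n _ _ => Bnu_rr_nonneg z n
  intro n hnm
  rw [Finset.mem_image] at hnm
  obtain ⟨d, hd, rfl⟩ := hnm
  rw [Finset.mem_filter] at hd
  obtain ⟨h2, h3⟩ := h d hd.1 hd.2
  exact Finset.mem_filter.2 ⟨h2, h3⟩

theorem tBnu (h1 : Pool.Agent.Lib.BV.UbStmt) (h2 : NnmStmt) : BnuStmt := by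
  constructor
  · obtain ⟨C1, hC1, hU⟩ := h1
    obtain ⟨C2, hC2, hN⟩ := h2
    refine ⟨C1 * C2 + C2, by positivity, ?_⟩
    intro z D a u hz hu hg
    obtain ⟨hn0, _, _, hninv⟩ := hN z hz
    have hq : 0 < u.natAbs := Int.natAbs_pos.2 hu
    have hqr : (0 : ℝ) < (u.natAbs : ℝ) := by exact_mod_cast hq
    have ht : (0 : ℝ) < (u.natAbs.totient : ℝ) := by exact_mod_cast Nat.totient_pos.2 hq
    have hzr : (2 : ℝ) ≤ (z : ℝ) := by exact_mod_cast hz
    have hL : 0 < Real.log (z : ℝ) := Real.log_pos (by linarith)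
    obtain ⟨l, N, N2, hl, hNN, hN2, hmem⟩ := Bnu_int D a u hu hg
    have hs := Bnu_sum D z l N N2 a u hu hn0 hmem
    have hb := hU z u.natAbs l N N2 hz hq hl hNN
    have hNr : (N2 : ℝ) - N ≤ (D : ℝ) * (u.natAbs : ℝ) := by
      have : (N2 : ℝ) ≤ (N : ℝ) + (D : ℝ) * (u.natAbs : ℝ) := by exact_mod_cast hN2
      linarith
    have h3 : ((N2 : ℝ) - N) / ((u.natAbs.totient : ℝ) * Real.log z) ≤
        ((D : ℝ) * (u.natAbs : ℝ)) / ((u.natAbs.totient : ℝ) * Real.log z) :=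
      div_le_div_of_nonneg_right hNr (by positivity)
    have h4 : ∑ n ∈ (Ioc N N2).filter (fun n => n ≡ l [MOD u.natAbs]), Pool.Agent.Lib.BV.rr z n ≤
        C1 * (((D : ℝ) * (u.natAbs : ℝ)) / ((u.natAbs.totient : ℝ) * Real.log z)) + (z : ℝ) ^ 16 := by
      have := mul_le_mul_of_nonneg_left h3 hC1.le
      linarith
    have h5 : (0 : ℝ) ≤ C1 * (((D : ℝ) * (u.natAbs : ℝ)) / ((u.natAbs.totient : ℝ) * Real.log z)) +
        (z : ℝ) ^ 16 := by positivity
    have h6 : (1 / nrm z) * ∑ n ∈ (Ioc N N2).filter (fun n => n ≡ l [MOD u.natAbs]),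
        Pool.Agent.Lib.BV.rr z n ≤ (C2 * Real.log z) *
        (C1 * (((D : ℝ) * (u.natAbs : ℝ)) / ((u.natAbs.totient : ℝ) * Real.log z)) + (z : ℝ) ^ 16) :=
      le_trans (mul_le_mul_of_nonneg_left h4 (by positivity))
        (mul_le_mul_of_nonneg_right hninv h5)
    have h7 : (C2 * Real.log z) *
        (C1 * (((D : ℝ) * (u.natAbs : ℝ)) / ((u.natAbs.totient : ℝ) * Real.log z)) + (z : ℝ) ^ 16) =
        C1 * C2 * ((u.natAbs : ℝ) / (u.natAbs.totient : ℝ) * D) + C2 * (Real.log z * (z : ℝ) ^ 16) := by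
      field_simp
    have h8 : (0 : ℝ) ≤ (u.natAbs : ℝ) / (u.natAbs.totient : ℝ) * D := by positivity
    have h9 : (0 : ℝ) ≤ Real.log z * (z : ℝ) ^ 16 := by positivity
    have h10 : 0 ≤ C1 * C2 * (Real.log z * (z : ℝ) ^ 16) := by positivity
    have h11 : 0 ≤ C2 * ((u.natAbs : ℝ) / (u.natAbs.totient : ℝ) * D) := by positivity
    calc ∑ d ∈ Ioc D (2 * D), nu z (a + d * u) ≤ _ := hs
      _ ≤ _ := h6
      _ = _ := h7
      _ ≤ (C1 * C2 + C2) * ((u.natAbs : ℝ) / (u.natAbs.totient : ℝ) * D +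
          Real.log z * (z : ℝ) ^ 16) := by linarith
  · intro z p a u d hp hpz ha hu
    unfold nu
    split_ifs with h3
    · have h4 : ¬ Pool.Agent.Lib.BV.Rough z (a + d * u).toNat := by
        intro hr
        have h5 : p ∣ (a + d * u).toNat := by
          rw [← Int.natCast_dvd_natCast, Int.toNat_of_nonneg (by omega)]
          exact dvd_add ha (Dvd.dvd.mul_left hu _)
        have h6 := hr p hp h5
        omega
      unfold Pool.Agent.Lib.BV.rr
      rw [if_neg h4, zero_div]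
    · rfl

end Pool.Agent.Lib.TR
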