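import Pool.Agent.Lib.TR.SpecB
import Pool.Agent.Lib.KF.Lph

/-!
MP_00e23e_nt, directory Lib/TR, module Bph: sums of 1/φ.
-/

set_option autoImplicit false

namespace Pool.Agent.Lib.TR

open Finset Pool.Agent.Lib.EH3 Pool.Agent.Results.MP_00e23e_nt

private lemma Bph_one (d : ℕ) (hd : 1 ≤ d) :
    1 / (d.totient : ℝ) ≤ ∑ m ∈ d.divisors, (1 / (m.totient : ℝ)) * (1 / (d : ℝ)) := by
  rw [← (Pool.Agent.Lib.KF.tLph).2 d hd, ← Finset.sum_mul, mul_comm]
  refine mul_le_mul_of_nonneg_right (Finset.sum_le_sum fun m _ => ?_) (by positivity)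
  refine div_le_div_of_nonneg_right ?_ (Nat.cast_nonneg _)
  have h : |((ArithmeticFunction.moebius m : ℤ) : ℝ)| ≤ 1 := by
    exact_mod_cast ArithmeticFunction.abs_moebius_le_one (n := m)
  rw [← sq_abs]
  exact pow_le_one₀ (abs_nonneg _) h

private lemma Bph_key (S : Finset ℕ) (B : ℕ) (hS : ∀ d ∈ S, 1 ≤ d ∧ d ≤ B) :
    ∑ d ∈ S, 1 / (d.totient : ℝ) ≤
      ∑ m ∈ Icc 1 B, (1 / (m.totient : ℝ)) * ∑ d ∈ S.filter (fun d => m ∣ d), 1 / (d : ℝ) := by
  have h1 : ∀ d ∈ S, 1 / (d.totient : ℝ) ≤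
      ∑ m ∈ Icc 1 B, (if m ∣ d then (1 / (m.totient : ℝ)) * (1 / (d : ℝ)) else 0) := by
    intro d hd
    obtain ⟨hd1, hd2⟩ := hS d hd
    refine (Bph_one d hd1).trans (le_of_eq ?_)
    rw [← Finset.sum_filter]
    refine Finset.sum_congr ?_ fun _ _ => rfl
    ext m
    simp only [Nat.mem_divisors, mem_filter, mem_Icc]
    constructor
    · rintro ⟨a, b⟩
      exact ⟨⟨Nat.pos_of_dvd_of_pos a hd1, (Nat.le_of_dvd hd1 a).trans hd2⟩, a⟩
    · rintro ⟨_, a⟩
      exact ⟨a, by omega⟩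
  refine (Finset.sum_le_sum h1).trans (le_of_eq ?_)
  rw [Finset.sum_comm]
  refine Finset.sum_congr rfl fun m _ => ?_
  rw [Finset.mul_sum, Finset.sum_filter]

private lemma Bph_har (D : ℕ) : ∑ a ∈ Icc 1 D, 1 / (a : ℝ) ≤ 1 + Real.log D := by
  have h2 := harmonic_le_one_add_log D
  rw [harmonic_eq_sum_Icc] at h2
  push_cast at h2
  refine le_trans (le_of_eq ?_) h2
  refine Finset.sum_congr rfl fun a _ => ?_
  rw [one_div]

private lemma Bph_mult (D m : ℕ) (hm : 1 ≤ m) :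
    ∑ d ∈ (Icc 1 D).filter (fun d => m ∣ d), 1 / (d : ℝ) ≤ (1 / (m : ℝ)) * ∑ k ∈ Icc 1 D, 1 / (k : ℝ) := by
  have hsub : (Icc 1 D).filter (fun d => m ∣ d) ⊆ (Icc 1 D).image (fun k => m * k) := by
    intro d hd
    rw [mem_filter, mem_Icc] at hd
    obtain ⟨⟨h1, h2⟩, k, rfl⟩ := hd
    rw [mem_image]
    refine ⟨k, mem_Icc.2 ⟨?_, ?_⟩, rfl⟩
    · rcases Nat.eq_zero_or_pos k with h | h
      · rw [h] at h1; simp at h1
      · exact h
    · exact (Nat.le_mul_of_pos_left k hm).trans h2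
  refine (Finset.sum_le_sum_of_subset_of_nonneg hsub fun _ _ _ => by positivity).trans (le_of_eq ?_)
  rw [Finset.sum_image]
  · rw [Finset.mul_sum]
    refine Finset.sum_congr rfl fun k _ => ?_
    push_cast
    rw [one_div_mul_one_div]
  · intro a _ b _ h
    exact Nat.eq_of_mul_eq_mul_left hm h

private lemma Bph_cnt (D m : ℕ) (hm : 1 ≤ m) :
    (((Ioc D (2 * D)).filter (fun d => m ∣ d)).card : ℝ) ≤ (D : ℝ) / m + 1 := by
  have h1 : ((Ioc 0 (2 * D)).filter (fun d => m ∣ d)).card =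
      ((Ioc 0 D).filter (fun d => m ∣ d)).card + ((Ioc D (2 * D)).filter (fun d => m ∣ d)).card := by
    have e : Ioc 0 (2 * D) = Ioc 0 D ∪ Ioc D (2 * D) := by
      ext k
      simp only [mem_Ioc, mem_union]
      omega
    rw [e, filter_union, card_union_of_disjoint]
    refine disjoint_filter_filter ?_
    rw [Finset.disjoint_left]
    intro k hk hk'
    rw [mem_Ioc] at hk hk'
    omega
  rw [Nat.Ioc_filter_dvd_card_eq_div, Nat.Ioc_filter_dvd_card_eq_div] at h1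
  have h2 : (((Ioc D (2 * D)).filter (fun d => m ∣ d)).card : ℝ) = ((2 * D / m : ℕ) : ℝ) - ((D / m : ℕ) : ℝ) := by
    rw [h1]; push_cast; ring
  have hm' : (0 : ℝ) < m := by exact_mod_cast hm
  have h3 : ((2 * D / m : ℕ) : ℝ) ≤ 2 * (D : ℝ) / m := by
    have := @Nat.cast_div_le ℝ _ _ _ (2 * D) m
    push_cast at this
    exact this
  have h4 : (D : ℝ) / m < ((D / m : ℕ) : ℝ) + 1 := by
    rw [div_lt_iff₀ hm']
    have h5 : D < (D / m + 1) * m := by
      rw [mul_comm]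
      exact Nat.lt_mul_div_succ D hm
    exact_mod_cast h5
  rw [h2]
  have h6 : 2 * (D : ℝ) / m = (D : ℝ) / m + (D : ℝ) / m := by ring
  linarith

theorem tBph (h1 : Pool.Agent.Lib.BV.TotStmt) : BphStmt := by
  have p1 : ∀ D : ℕ, 1 ≤ D → ∑ d ∈ Icc 1 D, 1 / (d.totient : ℝ) ≤ 4 * (1 + Real.log D) := by
    intro D hD
    have hlog : 0 ≤ Real.log D := Real.log_natCast_nonneg D
    refine (Bph_key (Icc 1 D) D fun d hd => mem_Icc.1 hd).trans ?_
    calc ∑ m ∈ Icc 1 D, (1 / (m.totient : ℝ)) * ∑ d ∈ (Icc 1 D).filter (fun d => m ∣ d), 1 / (d : ℝ)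
        ≤ ∑ m ∈ Icc 1 D, (1 / ((m : ℝ) * (m.totient : ℝ))) * (1 + Real.log D) := by
          refine Finset.sum_le_sum fun m hm => ?_
          rw [mem_Icc] at hm
          have h2 := (Bph_mult D m hm.1).trans
            (mul_le_mul_of_nonneg_left (Bph_har D) (by positivity))
          calc (1 / (m.totient : ℝ)) * ∑ d ∈ (Icc 1 D).filter (fun d => m ∣ d), 1 / (d : ℝ)
              ≤ (1 / (m.totient : ℝ)) * ((1 / (m : ℝ)) * (1 + Real.log D)) :=
                mul_le_mul_of_nonneg_left h2 (by positivity)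
            _ = (1 / ((m : ℝ) * (m.totient : ℝ))) * (1 + Real.log D) := by
                rw [← mul_assoc, one_div_mul_one_div, mul_comm (m.totient : ℝ)]
      _ = (∑ m ∈ Icc 1 D, 1 / ((m : ℝ) * (m.totient : ℝ))) * (1 + Real.log D) := by
          rw [Finset.sum_mul]
      _ ≤ 4 * (1 + Real.log D) := mul_le_mul_of_nonneg_right (h1.2 D) (by linarith)
  refine ⟨p1, ?_⟩
  intro D hD
  have hD0 : (0 : ℝ) < D := by exact_mod_cast hD
  refine (Bph_key (Ioc D (2 * D)) (2 * D) fun d hd => ?_).trans ?_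
  · rw [mem_Ioc] at hd
    omega
  have h3 : ∀ m ∈ Icc 1 (2 * D), (1 / (m.totient : ℝ)) *
      ∑ d ∈ (Ioc D (2 * D)).filter (fun d => m ∣ d), 1 / (d : ℝ) ≤
      1 / ((m : ℝ) * (m.totient : ℝ)) + (1 / (m.totient : ℝ)) * (1 / (D : ℝ)) := by
    intro m hm
    rw [mem_Icc] at hm
    have hm' : (0 : ℝ) < m := by exact_mod_cast hm.1
    have h4 : ∑ d ∈ (Ioc D (2 * D)).filter (fun d => m ∣ d), 1 / (d : ℝ) ≤
        ((D : ℝ) / m + 1) * (1 / (D : ℝ)) := by
      calc ∑ d ∈ (Ioc D (2 * D)).filter (fun d => m ∣ d), 1 / (d : ℝ)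
          ≤ ∑ d ∈ (Ioc D (2 * D)).filter (fun d => m ∣ d), 1 / (D : ℝ) := by
            refine Finset.sum_le_sum fun d hd => ?_
            rw [mem_filter, mem_Ioc] at hd
            exact one_div_le_one_div_of_le hD0 (by exact_mod_cast hd.1.1.le)
        _ = (((Ioc D (2 * D)).filter (fun d => m ∣ d)).card : ℝ) * (1 / (D : ℝ)) := by
            rw [Finset.sum_const, nsmul_eq_mul]
        _ ≤ ((D : ℝ) / m + 1) * (1 / (D : ℝ)) :=
            mul_le_mul_of_nonneg_right (Bph_cnt D m hm.1) (by positivity)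
    have h5 : ((D : ℝ) / m + 1) * (1 / (D : ℝ)) = 1 / (m : ℝ) + 1 / (D : ℝ) := by
      field_simp
    rw [h5] at h4
    calc _ ≤ (1 / (m.totient : ℝ)) * (1 / (m : ℝ) + 1 / (D : ℝ)) :=
          mul_le_mul_of_nonneg_left h4 (by positivity)
      _ = 1 / ((m : ℝ) * (m.totient : ℝ)) + (1 / (m.totient : ℝ)) * (1 / (D : ℝ)) := by
          rw [mul_add, one_div_mul_one_div, mul_comm (m.totient : ℝ)]
  refine (Finset.sum_le_sum h3).trans ?_
  rw [Finset.sum_add_distrib, ← Finset.sum_mul]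
  have h6 := h1.2 (2 * D)
  have h7 := p1 (2 * D) (by omega)
  have h8 : Real.log ((2 * D : ℕ) : ℝ) ≤ 2 * D - 1 := by
    have := Real.log_le_sub_one_of_pos (x := ((2 * D : ℕ) : ℝ)) (by positivity)
    push_cast at this ⊢
    exact this
  have h9 : (∑ m ∈ Icc 1 (2 * D), 1 / (m.totient : ℝ)) * (1 / (D : ℝ)) ≤ 8 := by
    calc (∑ m ∈ Icc 1 (2 * D), 1 / (m.totient : ℝ)) * (1 / (D : ℝ))
        ≤ (4 * (1 + (2 * D - 1))) * (1 / (D : ℝ)) :=
          mul_le_mul_of_nonneg_right (by linarith) (by positivity)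
      _ = 8 := by field_simp; ring
  linarith

end Pool.Agent.Lib.TR
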