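import Pool.Agent.Lib.TR.SpecB

/-!
MP_00e23e_nt, project TR, chapter B, module Bsm (helper77): small values of a + d u.
-/

set_option autoImplicit false

namespace Pool.Agent.Lib.TR

open Finset Pool.Agent.Lib.EH3 Pool.Agent.Results.MP_00e23e_nt

private lemma Bsm_one (D U d : ℕ) (Y : ℝ) (a : ℤ) (hD : 1 ≤ D) (hY : 0 ≤ Y) (hd : D < d) :
    (((Icc (-(U : ℤ)) U).filter (fun u => 1 ≤ a + d * u ∧ ((a + d * u : ℤ) : ℝ) ≤ Y)).card : ℝ) ≤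
      Y / D + 1 := by
  have hD0 : (0 : ℝ) < D := by exact_mod_cast hD
  have hDd : (D : ℝ) ≤ d := by exact_mod_cast hd.le
  have hd0 : (0 : ℝ) < d := lt_of_lt_of_le hD0 hDd
  have hYd : Y / d ≤ Y / D := div_le_div_of_nonneg_left hY hD0 hDd
  have hYD : 0 ≤ Y / D := div_nonneg hY hD0.le
  have hsub : (Icc (-(U : ℤ)) U).filter (fun u => 1 ≤ a + d * u ∧ ((a + d * u : ℤ) : ℝ) ≤ Y) ⊆
      Icc ⌈(1 - (a : ℝ)) / d⌉ ⌊(Y - (a : ℝ)) / d⌋ := by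
    intro u hu
    obtain ⟨_, h1, h2⟩ := mem_filter.1 hu
    have h1' : (1 : ℝ) ≤ (a : ℝ) + d * u := by exact_mod_cast h1
    have h2' : (a : ℝ) + d * u ≤ Y := by
      have h3 := h2
      push_cast at h3
      exact h3
    refine mem_Icc.2 ⟨Int.ceil_le.2 ?_, Int.le_floor.2 ?_⟩
    · rw [div_le_iff₀ hd0]
      linarith
    · rw [le_div_iff₀ hd0]
      linarith
  have hcard := card_le_card hsub
  rw [Int.card_Icc] at hcard
  have hc : (((Icc (-(U : ℤ)) U).filter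
      (fun u => 1 ≤ a + d * u ∧ ((a + d * u : ℤ) : ℝ) ≤ Y)).card : ℝ) ≤
      ((⌊(Y - (a : ℝ)) / d⌋ + 1 - ⌈(1 - (a : ℝ)) / d⌉).toNat : ℝ) := by exact_mod_cast hcard
  refine hc.trans ?_
  rcases le_total (⌊(Y - (a : ℝ)) / d⌋ + 1 - ⌈(1 - (a : ℝ)) / d⌉) 0 with h | h
  · rw [Int.toNat_of_nonpos h]
    simp only [Nat.cast_zero]
    linarith
  · have e1 : ((⌊(Y - (a : ℝ)) / d⌋ + 1 - ⌈(1 - (a : ℝ)) / d⌉).toNat : ℝ) =
        (⌊(Y - (a : ℝ)) / d⌋ : ℝ) + 1 - (⌈(1 - (a : ℝ)) / d⌉ : ℝ) := by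
      have e2 := Int.toNat_of_nonneg h
      have e3 : (((⌊(Y - (a : ℝ)) / d⌋ + 1 - ⌈(1 - (a : ℝ)) / d⌉).toNat : ℤ) : ℝ) =
          ((⌊(Y - (a : ℝ)) / d⌋ + 1 - ⌈(1 - (a : ℝ)) / d⌉ : ℤ) : ℝ) := by rw [e2]
      push_cast at e3
      exact e3
    rw [e1]
    have f1 := Int.floor_le ((Y - (a : ℝ)) / d)
    have f2 := Int.le_ceil ((1 - (a : ℝ)) / d)
    have f3 : (Y - (a : ℝ)) / d - (1 - (a : ℝ)) / d = Y / d - 1 / d := by ring
    have f4 : 0 ≤ 1 / (d : ℝ) := by positivity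
    linarith

/-- Uses: nothing. -/
theorem tBsm : BsmStmt := by
  intro D U Y a hD hY
  have hD0 : (0 : ℝ) < D := by exact_mod_cast hD
  calc ∑ d ∈ Ioc D (2 * D),
        (((Icc (-(U : ℤ)) U).filter (fun u => 1 ≤ a + d * u ∧ ((a + d * u : ℤ) : ℝ) ≤ Y)).card : ℝ)
      ≤ ∑ _d ∈ Ioc D (2 * D), (Y / D + 1) :=
        sum_le_sum fun d hd => Bsm_one D U d Y a hD hY (mem_Ioc.1 hd).1
    _ = (D : ℝ) * (Y / D + 1) := by
        rw [sum_const, Nat.card_Ioc, nsmul_eq_mul]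
        have : 2 * D - D = D := by omega
        rw [this]
    _ = Y + D := by
        field_simp

end Pool.Agent.Lib.TR
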