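import Pool.Agent.Lib.TR.SpecB

/-! Module Bsv (chapter B of Lib/TR): the number of integers without prime factor in (P0, P1]. -/

set_option autoImplicit false

namespace Pool.Agent.Lib.TR

open Finset Pool.Agent.Lib.EH3 Pool.Agent.Results.MP_00e23e_nt

/-- the bad integers up to K -/
private noncomputable def Bsv_S (P0 P1 K : ℕ) : Finset ℕ := (Icc 1 K).filter (fun k => ¬ Good P0 P1 k)

private theorem Bsv_mem {P0 P1 K k : ℕ} : k ∈ Bsv_S P0 P1 K ↔ (1 ≤ k ∧ k ≤ K) ∧ ¬ Good P0 P1 k := by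
  unfold Bsv_S
  rw [Finset.mem_filter, Finset.mem_Icc]

/-- the completely multiplicative function g(n)/n -/
private noncomputable def Bsv_f (P0 P1 : ℕ) : ℕ →* ℝ where
  toFun n := if Good P0 P1 n then 0 else (n : ℝ)⁻¹
  map_one' := by
    have h : ¬ Good P0 P1 1 := by
      rintro ⟨p, hp, hd⟩
      unfold PS at hp
      rw [Finset.mem_filter] at hp
      exact hp.2.one_lt.ne' (Nat.dvd_one.1 hd)
    rw [if_neg h]
    simp
  map_mul' m n := by
    by_cases hm : Good P0 P1 m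
    · have : Good P0 P1 (m * n) := by
        obtain ⟨p, hp, hd⟩ := hm
        exact ⟨p, hp, hd.mul_right n⟩
      rw [if_pos this, if_pos hm, zero_mul]
    · by_cases hn : Good P0 P1 n
      · have : Good P0 P1 (m * n) := by
          obtain ⟨p, hp, hd⟩ := hn
          exact ⟨p, hp, hd.mul_left m⟩
        rw [if_pos this, if_pos hn, mul_zero]
      · have : ¬ Good P0 P1 (m * n) := by
          rintro ⟨p, hp, hd⟩
          have hpp : p.Prime := by
            unfold PS at hp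
            rw [Finset.mem_filter] at hp
            exact hp.2
          rcases hpp.dvd_mul.1 hd with h | h
          · exact hm ⟨p, hp, h⟩
          · exact hn ⟨p, hp, h⟩
        rw [if_neg this, if_neg hm, if_neg hn, Nat.cast_mul, mul_inv]

private theorem Bsv_f_apply (P0 P1 n : ℕ) : Bsv_f P0 P1 n = if Good P0 P1 n then 0 else (n : ℝ)⁻¹ := rfl

private theorem Bsv_f_nonneg (P0 P1 n : ℕ) : 0 ≤ Bsv_f P0 P1 n := by
  rw [Bsv_f_apply]
  split_ifs
  · exact le_refl _
  · positivity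

private theorem Bsv_norm (P0 P1 : ℕ) {p : ℕ} (hp : p.Prime) : ‖Bsv_f P0 P1 p‖ < 1 := by
  rw [Bsv_f_apply]
  split_ifs
  · simp
  · rw [norm_inv, Real.norm_natCast]
    apply inv_lt_one_of_one_lt₀
    exact_mod_cast hp.one_lt

private theorem Bsv_sum (P0 P1 K : ℕ) :
    ∑ n ∈ Bsv_S P0 P1 K, (n : ℝ)⁻¹ ≤ ∏ p ∈ (K + 1).primesBelow, (1 - Bsv_f P0 P1 p)⁻¹ := by
  classical
  have h := (EulerProduct.summable_and_hasSum_smoothNumbers_prod_primesBelow_geometric
    (f := Bsv_f P0 P1) (fun {p} hp => Bsv_norm P0 P1 hp) (K + 1)).2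
  have h1 := sum_le_hasSum ((Icc 1 K).subtype (fun m => m ∈ Nat.smoothNumbers (K + 1)))
    (fun m _ => Bsv_f_nonneg P0 P1 (m : ℕ)) h
  have h2 : ∑ m ∈ (Icc 1 K).subtype (fun m => m ∈ Nat.smoothNumbers (K + 1)), Bsv_f P0 P1 (m : ℕ)
      = ∑ n ∈ Icc 1 K, Bsv_f P0 P1 n := by
    apply Finset.sum_subtype_of_mem
    intro n hn
    rw [Finset.mem_Icc] at hn
    rw [Nat.mem_smoothNumbers]
    refine ⟨by omega, fun p hp => ?_⟩
    have := Nat.le_of_mem_primeFactorsList hp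
    omega
  rw [h2] at h1
  have h3 : ∑ n ∈ Icc 1 K, Bsv_f P0 P1 n = ∑ n ∈ Bsv_S P0 P1 K, (n : ℝ)⁻¹ := by
    unfold Bsv_S
    rw [Finset.sum_filter]
    refine Finset.sum_congr rfl (fun n _ => ?_)
    rw [Bsv_f_apply]
    by_cases hg : Good P0 P1 n
    · rw [if_pos hg, if_neg (not_not.2 hg)]
    · rw [if_neg hg, if_pos hg]
  rw [h3] at h1
  exact h1

private theorem Bsv_prod (P0 P1 K : ℕ) (h1K : P1 ≤ K) :
    (∏ p ∈ (K + 1).primesBelow, (1 - Bsv_f P0 P1 p)⁻¹) * nrm K = Pool.Agent.Lib.SG.VV P0 P1 := by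
  classical
  have hs : (Icc 1 K).filter Nat.Prime = (K + 1).primesBelow := by
    ext p
    rw [Finset.mem_filter, Finset.mem_Icc, Nat.mem_primesBelow]
    constructor
    · rintro ⟨⟨h1, h2⟩, h3⟩; exact ⟨by omega, h3⟩
    · rintro ⟨h1, h2⟩; exact ⟨⟨h2.one_lt.le, by omega⟩, h2⟩
  unfold nrm
  rw [hs, ← Finset.prod_mul_distrib]
  unfold Pool.Agent.Lib.SG.VV
  have hsub : (Ioc P0 P1).filter Nat.Prime ⊆ (K + 1).primesBelow := by
    intro p hp
    rw [Finset.mem_filter, Finset.mem_Ioc] at hp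
    rw [Nat.mem_primesBelow]
    exact ⟨by omega, hp.2⟩
  rw [← Finset.prod_subset hsub]
  · refine Finset.prod_congr rfl (fun p hp => ?_)
    have hg : Good P0 P1 p := ⟨p, hp, dvd_refl p⟩
    rw [Bsv_f_apply, if_pos hg]
    simp
  · intro p hp hn
    rw [Nat.mem_primesBelow] at hp
    have hg : ¬ Good P0 P1 p := by
      rintro ⟨q, hq, hd⟩
      have hq2 := hq
      unfold PS at hq2
      rw [Finset.mem_filter] at hq2
      have : q = p := (Nat.prime_dvd_prime_iff_eq hq2.2 hp.2).1 hd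
      subst this
      exact hn hq
    rw [Bsv_f_apply, if_neg hg, one_div]
    have hp1 : (1 : ℝ) < p := by exact_mod_cast hp.2.one_lt
    have := inv_lt_one_of_one_lt₀ hp1
    have h0 : (1 - (p : ℝ)⁻¹) ≠ 0 := by linarith
    exact inv_mul_cancel₀ h0

private theorem Bsv_nrm (K : ℕ) (hK : 2 ≤ K) : nrm K = 1 / 2 * Pool.Agent.Lib.SG.VV 2 K := by
  unfold nrm Pool.Agent.Lib.SG.VV
  have h : (Icc 1 K).filter Nat.Prime = insert 2 ((Ioc 2 K).filter Nat.Prime) := by
    ext p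
    rw [Finset.mem_insert, Finset.mem_filter, Finset.mem_filter, Finset.mem_Icc, Finset.mem_Ioc]
    constructor
    · rintro ⟨⟨h1, h2⟩, h3⟩
      have := h3.two_le
      by_cases h : p = 2
      · left; exact h
      · right; exact ⟨⟨by omega, h2⟩, h3⟩
    · rintro (h | ⟨⟨h1, h2⟩, h3⟩)
      · subst h; exact ⟨⟨by omega, hK⟩, Nat.prime_two⟩
      · exact ⟨⟨by omega, h2⟩, h3⟩
  rw [h, Finset.prod_insert]
  · norm_num
  · rw [Finset.mem_filter, Finset.mem_Ioc]
    omega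

private theorem Bsv_lam (P0 P1 K : ℕ) :
    ∑ k ∈ Bsv_S P0 P1 K, Real.log k ≤
      ∑ m ∈ Bsv_S P0 P1 K, ∑ q ∈ Ioc 0 (K / m), ArithmeticFunction.vonMangoldt q := by
  classical
  have h1 : ∀ k ∈ Bsv_S P0 P1 K, Real.log k =
      ∑ x ∈ k.divisorsAntidiagonal, ArithmeticFunction.vonMangoldt x.2 := by
    intro k _
    rw [← ArithmeticFunction.vonMangoldt_sum]
    rw [← Nat.sum_divisorsAntidiagonal' (f := fun _ y => ArithmeticFunction.vonMangoldt y)]
  rw [Finset.sum_congr rfl h1, Finset.sum_sigma', Finset.sum_sigma']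
  set T := (Bsv_S P0 P1 K).sigma (fun k => k.divisorsAntidiagonal) with hT
  set j : (_ : ℕ) × (ℕ × ℕ) → (_ : ℕ) × ℕ := fun y => ⟨y.2.1, y.2.2⟩ with hj
  have hinj : Set.InjOn j (T : Set ((_ : ℕ) × (ℕ × ℕ))) := by
    rintro ⟨k, a, b⟩ hx ⟨k', a', b'⟩ hy he
    rw [Finset.mem_coe, hT, Finset.mem_sigma, Nat.mem_divisorsAntidiagonal] at hx hy
    simp only at hx hy
    have e1 : a = a' := congrArg Sigma.fst he
    subst e1
    have e2 : b = b' := eq_of_heq (Sigma.mk.inj he).2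
    subst e2
    have : k = k' := hx.2.1.symm.trans hy.2.1
    subst this
    rfl
  have e : ∑ x ∈ T, ArithmeticFunction.vonMangoldt x.2.2 =
      ∑ y ∈ T.image j, ArithmeticFunction.vonMangoldt y.2 := by
    rw [Finset.sum_image (fun x hx y hy h => hinj hx hy h)]
  rw [e]
  apply Finset.sum_le_sum_of_subset_of_nonneg
  · intro y hy
    rw [Finset.mem_image] at hy
    obtain ⟨⟨k, a, b⟩, hx, he⟩ := hy
    subst he
    rw [hT, Finset.mem_sigma, Nat.mem_divisorsAntidiagonal, Bsv_mem] at hx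
    simp only at hx
    obtain ⟨⟨⟨hk1, hkK⟩, hg⟩, hab, _⟩ := hx
    rw [Finset.mem_sigma, Bsv_mem, Finset.mem_Ioc]
    simp only [hj]
    have ha : 0 < a := Nat.pos_of_ne_zero (fun h => by subst h; omega)
    have hb : 0 < b := Nat.pos_of_ne_zero (fun h => by subst h; omega)
    have hak : a ≤ k := by rw [← hab]; exact Nat.le_mul_of_pos_right a hb
    refine ⟨⟨⟨ha, by omega⟩, ?_⟩, hb, ?_⟩
    · rintro ⟨p, hp, hd⟩
      exact hg ⟨p, hp, by rw [← hab]; exact hd.mul_right b⟩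
    · rw [Nat.le_div_iff_mul_le ha]
      calc b * a = k := by rw [mul_comm]; exact hab
        _ ≤ K := hkK
  · intro y _ _
    exact ArithmeticFunction.vonMangoldt_nonneg

private theorem Bsv_main (P0 P1 K : ℕ) (hK : 1 ≤ K) :
    ((Bsv_S P0 P1 K).card : ℝ) * Real.log K ≤
      (Real.log 4 + 5) * K * ∑ m ∈ Bsv_S P0 P1 K, (m : ℝ)⁻¹ := by
  have h1 := Bsv_lam P0 P1 K
  have h2 : ∑ m ∈ Bsv_S P0 P1 K, ∑ q ∈ Ioc 0 (K / m), ArithmeticFunction.vonMangoldt q ≤
      ∑ m ∈ Bsv_S P0 P1 K, (Real.log 4 + 4) * (K * (m : ℝ)⁻¹) := by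
    refine Finset.sum_le_sum (fun m hm => ?_)
    have := Chebyshev.psi_le_const_mul_self (x := (K : ℝ) / m) (by positivity)
    unfold Chebyshev.psi at this
    rw [Nat.floor_div_natCast, Nat.floor_natCast, div_eq_mul_inv] at this
    exact this
  have h3 : ∑ k ∈ Bsv_S P0 P1 K, (Real.log K - Real.log k) ≤
      ∑ k ∈ Bsv_S P0 P1 K, (K : ℝ) * (k : ℝ)⁻¹ := by
    refine Finset.sum_le_sum (fun k hk => ?_)
    rw [Bsv_mem] at hk
    have hk0 : (0 : ℝ) < k := by exact_mod_cast hk.1.1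
    have hK0 : (0 : ℝ) < K := by exact_mod_cast hK
    rw [← Real.log_div hK0.ne' hk0.ne', ← div_eq_mul_inv]
    have := Real.log_le_sub_one_of_pos (x := (K : ℝ) / k) (by positivity)
    linarith
  rw [Finset.sum_sub_distrib, Finset.sum_const, nsmul_eq_mul] at h3
  rw [← Finset.mul_sum, ← Finset.mul_sum] at h2
  rw [← Finset.mul_sum] at h3
  nlinarith [h1, h2, h3]

theorem tBsv (h1 : Pool.Agent.Lib.SG.VbdStmt) (_h2 : Pool.Agent.Lib.BV.MprStmt) : BsvStmt := by
  obtain ⟨c, C, hc, hC, hV⟩ := h1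
  have hl2 : 0 < Real.log 2 := Real.log_pos (by norm_num)
  have hl4 : 0 < Real.log 4 := Real.log_pos (by norm_num)
  refine ⟨(Real.log 4 + 5) * (2 * C / (c * Real.log 2)), by positivity, ?_⟩
  intro P0 P1 K h2 h01 h1K
  have hK2 : 2 ≤ K := by omega
  have hlK : 0 < Real.log K := Real.log_pos (by exact_mod_cast hK2)
  have hlP1 : 0 < Real.log P1 := Real.log_pos (by exact_mod_cast (by omega : 1 < P1))
  have hlP0 : 0 < Real.log P0 := Real.log_pos (by exact_mod_cast (by omega : 1 < P0))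
  have hK0 : (0 : ℝ) < K := by exact_mod_cast (by omega : 0 < K)
  have hm := Bsv_main P0 P1 K (by omega)
  have hs := Bsv_sum P0 P1 K
  have hp := Bsv_prod P0 P1 K h1K
  have hn := Bsv_nrm K hK2
  have hlow := (hV 2 K (le_refl 2) hK2).1
  have hup := (hV P0 P1 h2 h01).2
  set G := ∑ n ∈ Bsv_S P0 P1 K, (n : ℝ)⁻¹ with hG
  have hG0 : 0 ≤ G := Finset.sum_nonneg (fun _ _ => by positivity)
  have hnlow : c * Real.log 2 / (2 * Real.log K) ≤ nrm K := by
    rw [hn]
    have e : c * Real.log 2 / (2 * Real.log K) = 1 / 2 * (c * (Real.log ((2 : ℕ) : ℝ) / Real.log K)) := by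
      push_cast
      field_simp
    rw [e]
    exact mul_le_mul_of_nonneg_left hlow (by norm_num)
  have hnpos : 0 < nrm K := lt_of_lt_of_le (by positivity) hnlow
  have h3 : G * nrm K ≤ C * (Real.log P0 / Real.log P1) := by
    calc G * nrm K ≤ (∏ p ∈ (K + 1).primesBelow, (1 - Bsv_f P0 P1 p)⁻¹) * nrm K :=
          mul_le_mul_of_nonneg_right hs hnpos.le
      _ = Pool.Agent.Lib.SG.VV P0 P1 := hp
      _ ≤ _ := hup
  have h4 : G * (c * Real.log 2 / (2 * Real.log K)) ≤ C * (Real.log P0 / Real.log P1) :=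
    le_trans (mul_le_mul_of_nonneg_left hnlow hG0) h3
  have h5 : G ≤ 2 * C / (c * Real.log 2) * (Real.log P0 / Real.log P1) * Real.log K := by
    have e : G = G * (c * Real.log 2 / (2 * Real.log K)) * (2 * Real.log K / (c * Real.log 2)) := by
      field_simp
    rw [e]
    calc _ ≤ C * (Real.log P0 / Real.log P1) * (2 * Real.log K / (c * Real.log 2)) :=
          mul_le_mul_of_nonneg_right h4 (by positivity)
      _ = _ := by ring
  have h6 : ((Bsv_S P0 P1 K).card : ℝ) * Real.log K ≤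
      ((Real.log 4 + 5) * (2 * C / (c * Real.log 2)) * (K * (Real.log P0 / Real.log P1))) * Real.log K := by
    refine le_trans hm (le_trans (mul_le_mul_of_nonneg_left h5 (by positivity)) (le_of_eq ?_))
    ring
  exact le_of_mul_le_mul_right h6 hlK

end Pool.Agent.Lib.TR
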