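import Pool.Agent.Lib.TR.SpecB
import Pool.Agent.Lib.BV.Btt

/-!
MP_00e23e_nt, directory Lib/TR, chapter B, module Btr: the trivial bound for all moduli up to x^(1-ε).
-/

set_option autoImplicit false

namespace Pool.Agent.Lib.TR

open Finset Pool.Agent.Lib.EH3 Pool.Agent.Results.MP_00e23e_nt

private theorem Btr_res (z : ℝ) (d : ℕ) (a : ℤ) (hd : 1 ≤ d) (hg : Int.gcd a d = 1) :
    ∃ b : ℕ, b.Coprime d ∧ resCount z d a ≤ primeCount z d b := by
  have hd0 : (d : ℤ) ≠ 0 := by exact_mod_cast (by omega : d ≠ 0)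
  obtain ⟨b, hb⟩ := Int.eq_ofNat_of_zero_le (Int.emod_nonneg a hd0)
  refine ⟨b, ?_, ?_⟩
  · rw [← Nat.isCoprime_iff_coprime]
    have h1 : IsCoprime a (d : ℤ) := Int.isCoprime_iff_gcd_eq_one.2 hg
    have h2 : a = (b : ℤ) + (d : ℤ) * (a / d) := by
      have h3 := Int.emod_add_mul_ediv a (d : ℤ)
      have h4 : a % (d : ℤ) = (b : ℤ) := hb
      rw [h4] at h3
      exact h3.symm
    rw [h2] at h1
    exact (IsCoprime.add_mul_left_left_iff).1 h1
  · unfold resCount primeCount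
    refine Finset.card_le_card fun p hp => ?_
    rw [mem_filter, mem_Icc] at hp ⊢
    refine ⟨hp.1, hp.2.1, ?_⟩
    have h2 : (p : ℤ) ≡ a [ZMOD d] := (Int.modEq_iff_dvd.2 (by
      have := (dvd_neg (a := (d : ℤ))).2 hp.2.2
      rwa [neg_sub] at this))
    rw [← Int.natCast_modEq_iff]
    have h3 : ((b : ℕ) : ℤ) ≡ a [ZMOD d] := by
      have h4 : ((b : ℕ) : ℤ) = a % d := hb.symm
      rw [h4]
      exact Int.mod_modEq a d
    exact h2.trans h3.symm

private theorem Btr_term (C : ℝ) (hC : 0 < C)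
    (hU : ∀ z d l N N2 : ℕ, 2 ≤ z → 1 ≤ d → l.Coprime d → N ≤ N2 →
      ∑ n ∈ (Ioc N N2).filter (fun n => n ≡ l [MOD d]), Pool.Agent.Lib.BV.rr z n ≤
        C * (((N2 : ℝ) - N) / ((d.totient : ℝ) * Real.log z)) + (z : ℝ) ^ 16)
    (ε x y : ℝ) (d : ℕ) (a : ℤ) (hε : 0 < ε) (hx16 : 16 ≤ x) (hX : (2 : ℝ) ^ 128 ≤ x / d)
    (hXε : ε * Real.log x ≤ Real.log (x / d)) (hd : 1 ≤ d) (hy : 2 ≤ y) (hyx : y ≤ x)
    (hg : Int.gcd a d = 1) :
    |resErr y d a| ≤ ((128 * C + 8) / ε + 8) * (x / ((d.totient : ℝ) * Real.log x)) := by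
  have hxpos : 0 < x := by linarith
  have hL : 0 < Real.log x := Real.log_pos (by linarith)
  have ht : (0 : ℝ) < d.totient := by exact_mod_cast Nat.totient_pos.2 hd
  have htd : (d.totient : ℝ) ≤ d := by exact_mod_cast Nat.totient_le d
  have hdpos : (0 : ℝ) < d := by exact_mod_cast (by omega : 0 < d)
  obtain ⟨X, hXd⟩ : ∃ X : ℝ, X = x / d := ⟨_, rfl⟩
  rw [← hXd] at hX hXε
  have hXpos : 0 < X := lt_of_lt_of_le (by positivity) hX
  have hX1 : 1 ≤ X := le_trans (one_le_pow₀ (by norm_num)) hX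
  obtain ⟨b, hb, hab⟩ := Btr_res y d a hd hg
  obtain ⟨z, hz2, hzlog, hz16, hz⟩ := Pool.Agent.Lib.BV.Btt_z X hX
  have hzl' : ε * Real.log x / 128 ≤ Real.log (z : ℝ) := by linarith
  have hzl : 0 < Real.log (z : ℝ) := lt_of_lt_of_le (by positivity) hzl'
  have h1 := Pool.Agent.Lib.BV.Btt_count y d b z
  have h2 := hU z d b 0 ⌊y⌋₊ hz2 hd hb (Nat.zero_le _)
  have hfl : ((⌊y⌋₊ : ℕ) : ℝ) ≤ x := le_trans (Nat.floor_le (by linarith)) hyx
  obtain ⟨W, hW⟩ : ∃ W : ℝ, W = x / ((d.totient : ℝ) * Real.log x) := ⟨_, rfl⟩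
  rw [← hW]
  have hWpos : 0 < W := by rw [hW]; positivity
  have h3 : (((⌊y⌋₊ : ℕ) : ℝ) - ((0 : ℕ) : ℝ)) / ((d.totient : ℝ) * Real.log z) ≤ 128 / ε * W := by
    rw [Nat.cast_zero, sub_zero]
    have h4 : ((⌊y⌋₊ : ℕ) : ℝ) / ((d.totient : ℝ) * Real.log z)
        ≤ x / ((d.totient : ℝ) * (ε * Real.log x / 128)) := by
      apply div_le_div₀ hxpos.le hfl (by positivity)
      exact mul_le_mul_of_nonneg_left hzl' ht.le
    have h5 : x / ((d.totient : ℝ) * (ε * Real.log x / 128)) = 128 / ε * W := by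
      rw [hW]; field_simp
    rwa [h5] at h4
  have hq : 0 ≤ X ^ ((1 : ℝ) / 4) := Real.rpow_nonneg hXpos.le _
  have h6 : X ^ ((1 : ℝ) / 4) ≤ 4 / ε * W := by
    have hqpos : 0 < X ^ ((1 : ℝ) / 4) := Real.rpow_pos_of_pos hXpos _
    have hq1 : 1 ≤ X ^ ((1 : ℝ) / 4) := Real.one_le_rpow hX1 (by norm_num)
    have h7 : Real.log X ≤ 4 * X ^ ((1 : ℝ) / 4) := by
      have h8 := Real.log_le_sub_one_of_pos hqpos
      rw [Real.log_rpow hXpos] at h8
      linarith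
    have h9 : X = X ^ ((1 : ℝ) / 4) * X ^ ((1 : ℝ) / 4) * (X ^ ((1 : ℝ) / 4) * X ^ ((1 : ℝ) / 4)) := by
      rw [← Real.rpow_add hXpos, ← Real.rpow_add hXpos]; norm_num
    have h12 : X / Real.log x ≤ W := by
      rw [hW, hXd, div_div]
      exact div_le_div_of_nonneg_left hxpos.le (by positivity)
        (mul_le_mul_of_nonneg_right htd hL.le)
    have h13 : X ^ ((1 : ℝ) / 4) ≤ 4 / ε * (X / Real.log x) := by
      rw [← mul_div_assoc, le_div_iff₀ hL, div_mul_eq_mul_div, le_div_iff₀ hε]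
      have h14 : ε * Real.log x ≤ 4 * X ^ ((1 : ℝ) / 4) := hXε.trans h7
      have h15 := mul_le_mul_of_nonneg_left h14 hq
      have h16 : X ^ ((1 : ℝ) / 4) * X ^ ((1 : ℝ) / 4) ≤ X := by
        have h17 : 1 ≤ X ^ ((1 : ℝ) / 4) * X ^ ((1 : ℝ) / 4) := by nlinarith
        calc X ^ ((1 : ℝ) / 4) * X ^ ((1 : ℝ) / 4)
            = X ^ ((1 : ℝ) / 4) * X ^ ((1 : ℝ) / 4) * 1 := by ring
          _ ≤ X ^ ((1 : ℝ) / 4) * X ^ ((1 : ℝ) / 4) * (X ^ ((1 : ℝ) / 4) * X ^ ((1 : ℝ) / 4)) :=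
              mul_le_mul_of_nonneg_left h17 (by positivity)
          _ = X := h9.symm
      calc X ^ ((1 : ℝ) / 4) * Real.log x * ε = X ^ ((1 : ℝ) / 4) * (ε * Real.log x) := by ring
        _ ≤ X ^ ((1 : ℝ) / 4) * (4 * X ^ ((1 : ℝ) / 4)) := h15
        _ = 4 * (X ^ ((1 : ℝ) / 4) * X ^ ((1 : ℝ) / 4)) := by ring
        _ ≤ 4 * X := by linarith
    exact h13.trans (mul_le_mul_of_nonneg_left h12 (by positivity))
  have h7 := mul_le_mul_of_nonneg_left h3 hC.le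
  have hK : (128 * C + 8) / ε * W = C * (128 / ε * W) + 2 * (4 / ε * W) := by ring
  have h8' : (primeCount y d b : ℝ) ≤ (128 * C + 8) / ε * W := by
    rw [hK]
    linarith
  have h8 : (resCount y d a : ℝ) ≤ (128 * C + 8) / ε * W :=
    le_trans (by exact_mod_cast hab) h8'
  have h9 : li y / (d.totient : ℝ) ≤ 8 * W := by
    have h10 := div_le_div_of_nonneg_right (Pool.Agent.Lib.BV.Btt_li x y hx16 hy hyx) ht.le
    have h11 : 8 * (x / Real.log x) / (d.totient : ℝ) = 8 * W := by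
      rw [hW]; field_simp
    rwa [h11] at h10
  have h10 : 0 ≤ li y / (d.totient : ℝ) :=
    div_nonneg (Pool.Agent.Lib.EH.li_nonneg hy) ht.le
  have h11 : (0 : ℝ) ≤ (resCount y d a : ℝ) := Nat.cast_nonneg _
  have h12 : 0 < (128 * C + 8) / ε * W := by positivity
  unfold resErr
  rw [add_mul, abs_le]
  constructor
  · linarith
  · linarith

theorem tBtr (h1 : Pool.Agent.Lib.BV.UbStmt) (h2 : BphStmt) : BtrStmt := by
  obtain ⟨C, hC, hU⟩ := h1
  intro ε hε hε1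
  obtain ⟨K, hK⟩ : ∃ K : ℝ, K = (128 * C + 8) / ε + 8 := ⟨_, rfl⟩
  have hKpos : 0 < K := by rw [hK]; positivity
  refine ⟨8 * K, ((2 : ℝ) ^ 128) ^ (1 / ε), by positivity, ?_, ?_⟩
  · have h3 : (2 : ℝ) ^ 128 ≤ ((2 : ℝ) ^ 128) ^ (1 / ε) := by
      have h4 : ((2 : ℝ) ^ 128) ^ (1 : ℝ) ≤ ((2 : ℝ) ^ 128) ^ (1 / ε) :=
        Real.rpow_le_rpow_of_exponent_le (one_le_pow₀ (by norm_num)) (by
          rw [le_div_iff₀ hε]; linarith)
      rwa [Real.rpow_one] at h4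
    exact le_trans (by norm_num) h3
  · intro x a y hx hy
    have hx128 : (2 : ℝ) ^ 128 ≤ x := by
      have h4 : ((2 : ℝ) ^ 128) ^ (1 : ℝ) ≤ ((2 : ℝ) ^ 128) ^ (1 / ε) :=
        Real.rpow_le_rpow_of_exponent_le (one_le_pow₀ (by norm_num)) (by
          rw [le_div_iff₀ hε]; linarith)
      rw [Real.rpow_one] at h4
      exact h4.trans hx
    have hx16 : 16 ≤ x := le_trans (by norm_num) hx128
    have hxpos : 0 < x := by linarith
    have hxε : (2 : ℝ) ^ 128 ≤ x ^ ε := by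
      have h4 := Real.rpow_le_rpow (by positivity) hx hε.le
      rw [← Real.rpow_mul (by positivity), one_div, inv_mul_cancel₀ hε.ne', Real.rpow_one] at h4
      exact h4
    have hL1 : 1 ≤ Real.log x := by
      rw [Real.le_log_iff_exp_le hxpos]
      have := Real.exp_one_lt_d9
      linarith
    have hL : 0 < Real.log x := by linarith
    have hpow1 : 1 ≤ x ^ (1 - ε) := Real.one_le_rpow (by linarith) (by linarith)
    have hD1 : 1 ≤ ⌊x ^ (1 - ε)⌋₊ := Nat.le_floor (by push_cast; exact hpow1)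
    have hDle : (⌊x ^ (1 - ε)⌋₊ : ℝ) ≤ x ^ (1 - ε) := Nat.floor_le (by linarith)
    have hterm : ∀ d ∈ (Icc 1 ⌊x ^ (1 - ε)⌋₊).filter (fun d : ℕ => Int.gcd a d = 1),
        |resErr (y d) d a| ≤ K * (x / Real.log x) * (1 / (d.totient : ℝ)) := by
      intro d hd
      rw [mem_filter, mem_Icc] at hd
      have hd1 : 1 ≤ d := hd.1.1
      have hdpos : (0 : ℝ) < d := by exact_mod_cast (by omega : 0 < d)
      have hdD : (d : ℝ) ≤ x ^ (1 - ε) := (Nat.cast_le.2 hd.1.2).trans hDle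
      have hXε : x ^ ε ≤ x / d := by
        rw [le_div_iff₀ hdpos]
        calc x ^ ε * d ≤ x ^ ε * x ^ (1 - ε) :=
              mul_le_mul_of_nonneg_left hdD (Real.rpow_nonneg hxpos.le _)
          _ = x := by rw [← Real.rpow_add hxpos]; simp
      have hlog : ε * Real.log x ≤ Real.log (x / d) := by
        rw [← Real.log_rpow hxpos]
        exact Real.log_le_log (Real.rpow_pos_of_pos hxpos _) hXε
      have h5 := Btr_term C hC hU ε x (y d) d a hε hx16 (hxε.trans hXε) hlog hd1 (hy d).1 (hy d).2 hd.2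
      rw [← hK] at h5
      refine h5.trans (le_of_eq ?_)
      have ht : (0 : ℝ) < d.totient := by exact_mod_cast Nat.totient_pos.2 hd1
      field_simp
    have hKx : 0 ≤ K * (x / Real.log x) := by positivity
    have hlogD : Real.log (⌊x ^ (1 - ε)⌋₊ : ℝ) ≤ Real.log x := by
      refine Real.log_le_log (by exact_mod_cast hD1) (hDle.trans ?_)
      calc x ^ (1 - ε) ≤ x ^ (1 : ℝ) :=
            Real.rpow_le_rpow_of_exponent_le (by linarith) (by linarith)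
        _ = x := Real.rpow_one x
    calc ∑ d ∈ (Icc 1 ⌊x ^ (1 - ε)⌋₊).filter (fun d : ℕ => Int.gcd a d = 1), |resErr (y d) d a|
        ≤ ∑ d ∈ (Icc 1 ⌊x ^ (1 - ε)⌋₊).filter (fun d : ℕ => Int.gcd a d = 1),
            K * (x / Real.log x) * (1 / (d.totient : ℝ)) := Finset.sum_le_sum hterm
      _ ≤ ∑ d ∈ Icc 1 ⌊x ^ (1 - ε)⌋₊, K * (x / Real.log x) * (1 / (d.totient : ℝ)) := by
          refine Finset.sum_le_sum_of_subset_of_nonneg (Finset.filter_subset _ _) ?_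
          intro d _ _
          positivity
      _ = K * (x / Real.log x) * ∑ d ∈ Icc 1 ⌊x ^ (1 - ε)⌋₊, (1 / (d.totient : ℝ)) := by
          rw [Finset.mul_sum]
      _ ≤ K * (x / Real.log x) * (4 * (1 + Real.log (⌊x ^ (1 - ε)⌋₊ : ℝ))) :=
          mul_le_mul_of_nonneg_left (h2.1 _ hD1) hKx
      _ ≤ K * (x / Real.log x) * (8 * Real.log x) :=
          mul_le_mul_of_nonneg_left (by linarith) hKx
      _ = 8 * K * x := by field_simp

end Pool.Agent.Lib.TR
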