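import Pool.Agent.Lib.TR.SpecB
import Pool.Agent.Lib.KF.Lph
import Pool.Agent.Lib.EH.Basic

/-!
MP_00e23e_nt, directory Lib/TR, module Bwt: bad integers with the weight u/φ(u).
-/

set_option autoImplicit false

namespace Pool.Agent.Lib.TR

open Finset Pool.Agent.Lib.EH3 Pool.Agent.Results.MP_00e23e_nt

private lemma Bwt_one (u : ℕ) (hu : 1 ≤ u) :
    (u : ℝ) / (u.totient : ℝ) ≤ ∑ m ∈ u.divisors, 1 / (m.totient : ℝ) := by
  have hu' : (0 : ℝ) < u := by exact_mod_cast hu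
  have e : (u : ℝ) / (u.totient : ℝ) = u * (1 / (u.totient : ℝ)) := by ring
  rw [e, ← (Pool.Agent.Lib.KF.tLph).2 u hu, ← mul_assoc, mul_one_div_cancel hu'.ne', one_mul]
  refine Finset.sum_le_sum fun m _ => ?_
  refine div_le_div_of_nonneg_right ?_ (Nat.cast_nonneg _)
  have h : |((ArithmeticFunction.moebius m : ℤ) : ℝ)| ≤ 1 := by
    exact_mod_cast ArithmeticFunction.abs_moebius_le_one (n := m)
  rw [← sq_abs]
  exact pow_le_one₀ (abs_nonneg _) h

private lemma Bwt_key (S : Finset ℕ) (B : ℕ) (hS : ∀ d ∈ S, 1 ≤ d ∧ d ≤ B) :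
    ∑ d ∈ S, (d : ℝ) / (d.totient : ℝ) ≤
      ∑ m ∈ Icc 1 B, (1 / (m.totient : ℝ)) * ((S.filter (fun d => m ∣ d)).card : ℝ) := by
  have h1 : ∀ d ∈ S, (d : ℝ) / (d.totient : ℝ) ≤
      ∑ m ∈ Icc 1 B, (if m ∣ d then (1 / (m.totient : ℝ)) else 0) := by
    intro d hd
    obtain ⟨hd1, hd2⟩ := hS d hd
    refine (Bwt_one d hd1).trans (le_of_eq ?_)
    rw [← Finset.sum_filter]
    refine Finset.sum_congr ?_ fun _ _ => rfl
    ext m
    simp only [Nat.mem_divisors, mem_filter, mem_Icc]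
    constructor
    · rintro ⟨a, b⟩
      exact ⟨⟨Nat.pos_of_dvd_of_pos a hd1, (Nat.le_of_dvd hd1 a).trans hd2⟩, a⟩
    · rintro ⟨_, a⟩
      exact ⟨a, by omega⟩
  refine (Finset.sum_le_sum h1).trans (le_of_eq ?_)
  rw [Finset.sum_comm]
  refine Finset.sum_congr rfl fun m _ => ?_
  rw [← Finset.sum_filter, Finset.sum_const, nsmul_eq_mul, mul_comm]

private lemma Bwt_cnt (P0 P1 U m : ℕ) (hm : 1 ≤ m) :
    (((Icc 1 U).filter (fun u => ¬ Good P0 P1 u)).filter (fun d => m ∣ d)).card ≤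
      ((Icc 1 (U / m)).filter (fun u => ¬ Good P0 P1 u)).card := by
  have hsub : ((Icc 1 U).filter (fun u => ¬ Good P0 P1 u)).filter (fun d => m ∣ d) ⊆
      ((Icc 1 (U / m)).filter (fun u => ¬ Good P0 P1 u)).image (fun k => m * k) := by
    intro d hd
    rw [mem_filter, mem_filter, mem_Icc] at hd
    obtain ⟨⟨⟨h1, h2⟩, h3⟩, k, rfl⟩ := hd
    rw [mem_image]
    refine ⟨k, ?_, rfl⟩
    rw [mem_filter, mem_Icc]
    refine ⟨⟨?_, ?_⟩, ?_⟩
    · rcases Nat.eq_zero_or_pos k with h | h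
      · rw [h] at h1; simp at h1
      · exact h
    · rw [Nat.le_div_iff_mul_le hm, mul_comm]
      exact h2
    · rintro ⟨p, hp, hpk⟩
      exact h3 ⟨p, hp, hpk.mul_left m⟩
  exact (Finset.card_le_card hsub).trans Finset.card_image_le

private lemma Bwt_inv (m : ℕ) (hm : 1 ≤ m) :
    1 / ((m : ℝ) * (m.totient : ℝ)) ≤ 4 * (1 / ((m : ℝ) * Real.sqrt m)) := by
  have hm' : (0 : ℝ) < m := by exact_mod_cast hm
  have hm1 : (1 : ℝ) ≤ m := by exact_mod_cast hm
  have hφ : (0 : ℝ) < m.totient := by exact_mod_cast Nat.totient_pos.2 hm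
  have hs : 0 < Real.sqrt m := Real.sqrt_pos.2 hm'
  have hs1 : 1 ≤ Real.sqrt m := Real.one_le_sqrt.2 hm1
  have h1 := Pool.Agent.Lib.EH.le_totient m
  have h2 := Pool.Agent.Lib.EH.card_primeFactors_le hm
  have h3 : Real.log m ≤ 2 * (Real.sqrt m - 1) := by
    have e : Real.log m = 2 * Real.log (Real.sqrt m) := by
      rw [Real.log_sqrt hm'.le]; ring
    rw [e]
    have := Real.log_le_sub_one_of_pos hs
    linarith
  have h4 : (m : ℝ) ≤ 4 * Real.sqrt m * m.totient :=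
    h1.trans (mul_le_mul_of_nonneg_right (by linarith) hφ.le)
  have h5 : Real.sqrt m * Real.sqrt m = m := Real.mul_self_sqrt hm'.le
  have h6 : Real.sqrt m ≤ 4 * m.totient := by
    have h7 : Real.sqrt m * Real.sqrt m ≤ Real.sqrt m * (4 * m.totient) := by
      rw [h5]; linarith
    exact le_of_mul_le_mul_left h7 hs
  rw [mul_one_div, div_le_div_iff₀ (by positivity) (by positivity), one_mul]
  calc (m : ℝ) * Real.sqrt m ≤ m * (4 * m.totient) := mul_le_mul_of_nonneg_left h6 hm'.le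
    _ = 4 * (m * m.totient) := by ring

private lemma Bwt_step (n : ℕ) (hn : 1 ≤ n) :
    1 / (((n + 1 : ℕ) : ℝ) * Real.sqrt ((n + 1 : ℕ) : ℝ)) ≤
      2 / Real.sqrt n - 2 / Real.sqrt ((n + 1 : ℕ) : ℝ) := by
  have hn' : (0 : ℝ) < n := by exact_mod_cast hn
  have ha : 0 < Real.sqrt n := Real.sqrt_pos.2 hn'
  have hb : 0 < Real.sqrt ((n + 1 : ℕ) : ℝ) := Real.sqrt_pos.2 (by positivity)
  have hab : Real.sqrt n ≤ Real.sqrt ((n + 1 : ℕ) : ℝ) := Real.sqrt_le_sqrt (by push_cast; linarith)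
  have ea : Real.sqrt n * Real.sqrt n = n := Real.mul_self_sqrt hn'.le
  have eb : Real.sqrt ((n + 1 : ℕ) : ℝ) * Real.sqrt ((n + 1 : ℕ) : ℝ) = ((n + 1 : ℕ) : ℝ) :=
    Real.mul_self_sqrt (by positivity)
  generalize Real.sqrt n = a at *
  generalize hB : Real.sqrt ((n + 1 : ℕ) : ℝ) = b at *
  rw [← eb]
  have h1 : b * b - a * a = 1 := by rw [ea, eb]; push_cast; ring
  rw [div_sub_div _ _ ha.ne' hb.ne', div_le_div_iff₀ (by positivity) (by positivity)]
  have h2 : (b - a) * (b + a) = 1 := by linarith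
  have h3 : (b - a) * (2 * b) ≥ 1 := by
    have : 0 ≤ (b - a) * (b - a) := mul_self_nonneg _
    nlinarith
  have h4 : 0 ≤ b - a := by linarith
  have h5 : a * b ≤ b * b := mul_le_mul_of_nonneg_right hab hb.le
  calc 1 * (a * b) ≤ 1 * (b * b) := by linarith
    _ ≤ ((b - a) * (2 * b)) * (b * b) := mul_le_mul_of_nonneg_right h3 (by positivity)
    _ = (2 * b - a * 2) * (b * b * b) := by ring

private lemma Bwt_tail (M N : ℕ) (hM : 1 ≤ M) (hN : M ≤ N) :
    ∑ m ∈ Ioc M N, 1 / ((m : ℝ) * Real.sqrt m) ≤ 2 / Real.sqrt M - 2 / Real.sqrt N := by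
  induction N, hN using Nat.le_induction with
  | base => simp
  | succ n hn ih =>
    rw [← Finset.insert_Ioc_right_eq_Ioc_add_one hn, Finset.sum_insert (by simp)]
    have := Bwt_step n (hM.trans hn)
    linarith

theorem tBwt (h1 : BsvStmt) (h2 : Pool.Agent.Lib.BV.TotStmt) : BwtStmt := by
  obtain ⟨C0, hC0, hB⟩ := h1
  refine ⟨4 * C0 + 16, by linarith, ?_⟩
  intro P0 P1 U hP0 hP01 hU
  have hP1 : 2 ≤ P1 := hP0.trans hP01
  have hl2 := Real.log_two_gt_d9
  have hlP0 : Real.log 2 ≤ Real.log P0 := Real.log_le_log (by norm_num) (by exact_mod_cast hP0)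
  have hlP1 : Real.log 2 ≤ Real.log P1 := Real.log_le_log (by norm_num) (by exact_mod_cast hP1)
  have hlP1pos : 0 < Real.log P1 := by linarith
  set r : ℝ := Real.log P0 / Real.log P1 with hr
  have hr0 : 0 ≤ r := div_nonneg (by linarith) hlP1pos.le
  have hU0 : (0 : ℝ) ≤ U := Nat.cast_nonneg _
  have hr1 : 1 / Real.log P1 ≤ 2 * r := by
    rw [hr, mul_div_assoc', div_le_div_iff_of_pos_right hlP1pos]
    linarith
  refine (Bwt_key ((Icc 1 U).filter (fun u => ¬ Good P0 P1 u)) U fun d hd => ?_).trans ?_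
  · exact mem_Icc.1 (mem_filter.1 hd).1
  have hterm : ∀ m ∈ Icc 1 U, (1 / (m.totient : ℝ)) *
      ((((Icc 1 U).filter (fun u => ¬ Good P0 P1 u)).filter (fun d => m ∣ d)).card : ℝ) ≤
      C0 * (U * r) * (1 / ((m : ℝ) * (m.totient : ℝ))) +
        (if P1 ^ 3 < m then U * (4 * (1 / ((m : ℝ) * Real.sqrt m))) else 0) := by
    intro m hm
    rw [mem_Icc] at hm
    have hm' : (0 : ℝ) < m := by exact_mod_cast hm.1
    have hφ : (0 : ℝ) < m.totient := by exact_mod_cast Nat.totient_pos.2 hm.1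
    have hc : ((((Icc 1 U).filter (fun u => ¬ Good P0 P1 u)).filter (fun d => m ∣ d)).card : ℝ) ≤
        (((Icc 1 (U / m)).filter (fun u => ¬ Good P0 P1 u)).card : ℝ) := by
      exact_mod_cast Bwt_cnt P0 P1 U m hm.1
    have hdiv : ((U / m : ℕ) : ℝ) ≤ (U : ℝ) / m := Nat.cast_div_le
    have hfirst : 0 ≤ C0 * (U * r) * (1 / ((m : ℝ) * (m.totient : ℝ))) := by positivity
    have hsecond : 0 ≤ (if P1 ^ 3 < m then U * (4 * (1 / ((m : ℝ) * Real.sqrt m))) else (0 : ℝ)) := by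
      split_ifs
      · positivity
      · exact le_refl _
    by_cases hcase : P1 ≤ U / m
    · have h3 := hB P0 P1 (U / m) hP0 hP01 hcase
      have h4 : (((Icc 1 (U / m)).filter (fun u => ¬ Good P0 P1 u)).card : ℝ) ≤ C0 * (((U : ℝ) / m) * r) :=
        h3.trans (mul_le_mul_of_nonneg_left (mul_le_mul_of_nonneg_right hdiv hr0) hC0.le)
      have h5 : (1 / (m.totient : ℝ)) *
          ((((Icc 1 U).filter (fun u => ¬ Good P0 P1 u)).filter (fun d => m ∣ d)).card : ℝ) ≤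
          C0 * (U * r) * (1 / ((m : ℝ) * (m.totient : ℝ))) := by
        refine (mul_le_mul_of_nonneg_left (hc.trans h4) (by positivity)).trans (le_of_eq ?_)
        field_simp
      linarith
    · have hlt : P1 ^ 3 < m := by
        by_contra hcon
        push Not at hcon
        apply hcase
        rw [Nat.le_div_iff_mul_le hm.1]
        calc P1 * m ≤ P1 * P1 ^ 3 := Nat.mul_le_mul_left _ hcon
          _ = P1 ^ 4 := by ring
          _ ≤ U := hU
      rw [if_pos hlt]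
      have h6 : (((Icc 1 (U / m)).filter (fun u => ¬ Good P0 P1 u)).card : ℝ) ≤ (U : ℝ) / m := by
        have h7 : ((Icc 1 (U / m)).filter (fun u => ¬ Good P0 P1 u)).card ≤ U / m := by
          refine (Finset.card_filter_le _ _).trans ?_
          simp
        have h8 : (((Icc 1 (U / m)).filter (fun u => ¬ Good P0 P1 u)).card : ℝ) ≤ ((U / m : ℕ) : ℝ) := by
          exact_mod_cast h7
        exact h8.trans hdiv
      have h9 : (1 / (m.totient : ℝ)) *
          ((((Icc 1 U).filter (fun u => ¬ Good P0 P1 u)).filter (fun d => m ∣ d)).card : ℝ) ≤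
          U * (1 / ((m : ℝ) * (m.totient : ℝ))) := by
        refine (mul_le_mul_of_nonneg_left (hc.trans h6) (by positivity)).trans (le_of_eq ?_)
        field_simp
      have h10 := mul_le_mul_of_nonneg_left (Bwt_inv m hm.1) hU0
      linarith
  refine (Finset.sum_le_sum hterm).trans ?_
  rw [Finset.sum_add_distrib, ← Finset.mul_sum, ← Finset.sum_filter, ← Finset.mul_sum, ← Finset.mul_sum]
  have hA := h2.2 U
  have hsub : (Icc 1 U).filter (fun m => P1 ^ 3 < m) ⊆ Ioc (P1 ^ 3) U := by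
    intro m hm
    rw [mem_filter, mem_Icc] at hm
    rw [mem_Ioc]
    exact ⟨hm.2, hm.1.2⟩
  have hP3 : 1 ≤ P1 ^ 3 := Nat.one_le_pow _ _ (by omega)
  have hP34 : P1 ^ 3 ≤ U := by
    refine le_trans ?_ hU
    exact Nat.pow_le_pow_right (by omega) (by norm_num)
  have hBt : ∑ m ∈ (Icc 1 U).filter (fun m => P1 ^ 3 < m), 1 / ((m : ℝ) * Real.sqrt m) ≤ 2 / Real.sqrt ((P1 ^ 3 : ℕ) : ℝ) := by
    refine (Finset.sum_le_sum_of_subset_of_nonneg hsub fun _ _ _ => by positivity).trans ?_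
    refine (Bwt_tail _ _ hP3 hP34).trans ?_
    have : 0 ≤ 2 / Real.sqrt (U : ℝ) := by positivity
    linarith
  have hsq : Real.log P1 ≤ Real.sqrt ((P1 ^ 3 : ℕ) : ℝ) := by
    have h11 : Real.log P1 ≤ P1 - 1 := Real.log_le_sub_one_of_pos (by positivity)
    have h12 : (P1 : ℝ) ≤ Real.sqrt ((P1 ^ 3 : ℕ) : ℝ) := by
      apply Real.le_sqrt_of_sq_le
      have : P1 ^ 2 ≤ P1 ^ 3 := Nat.pow_le_pow_right (by omega) (by norm_num)
      exact_mod_cast this
    linarith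
  have hBt2 : ∑ m ∈ (Icc 1 U).filter (fun m => P1 ^ 3 < m), 1 / ((m : ℝ) * Real.sqrt m) ≤ 4 * r := by
    refine hBt.trans ?_
    have h13 : 2 / Real.sqrt ((P1 ^ 3 : ℕ) : ℝ) ≤ 2 / Real.log P1 :=
      div_le_div_of_nonneg_left (by norm_num) hlP1pos hsq
    have h14 : 2 / Real.log P1 = 2 * (1 / Real.log P1) := by ring
    linarith
  have hUr : 0 ≤ C0 * (U * r) := by positivity
  have h15 := mul_le_mul_of_nonneg_left hA hUr
  have h16 := mul_le_mul_of_nonneg_left hBt2 (show (0 : ℝ) ≤ U * 4 by positivity)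
  calc C0 * (U * r) * ∑ m ∈ Icc 1 U, 1 / ((m : ℝ) * (m.totient : ℝ)) +
        U * (4 * ∑ m ∈ (Icc 1 U).filter (fun m => P1 ^ 3 < m), 1 / ((m : ℝ) * Real.sqrt m))
      ≤ C0 * (U * r) * 4 + (U * 4) * (4 * r) := by linarith
    _ = (4 * C0 + 16) * (U * r) := by ring

end Pool.Agent.Lib.TR
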