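import Pool.Agent.Lib.TR.SpecD

/-!
MP_00e23e_nt, Lib/TR, chapter D, module Dex: the number of the exceptional m (moments of the Dirichlet polynomial over primes).
-/

set_option autoImplicit false

namespace Pool.Agent.Lib.TR

open Finset Pool.Agent.Lib.EH3 Pool.Agent.Results.MP_00e23e_nt

private lemma Dex_mul (m : ℤ) {a b : ℕ} (ha : a ≠ 0) (hb : b ≠ 0) : lp m (a * b) = lp m a * lp m b := by
  have ha' : (a : ℝ) ≠ 0 := by exact_mod_cast ha
  have hb' : (b : ℝ) ≠ 0 := by exact_mod_cast hb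
  unfold lp
  rw [← ee_add]
  congr 1
  rw [Nat.cast_mul, Real.log_mul ha' hb']
  ring

private lemma Dex_one (m : ℤ) : lp m 1 = 1 := by
  unfold lp
  rw [Nat.cast_one, Real.log_one, mul_zero, zero_div, neg_zero, ee_zero]

private lemma Dex_prod (m : ℤ) : ∀ (k : ℕ) (f : Fin k → ℕ), (∀ i, f i ≠ 0) → ∏ i, lp m (f i) = lp m (∏ i, f i) := by
  intro k
  induction k with
  | zero =>
    intro f _
    rw [Fin.prod_univ_zero, Fin.prod_univ_zero, Dex_one]
  | succ k ih =>
    intro f hf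
    rw [Fin.prod_univ_succ, Fin.prod_univ_succ, ih (fun i => f i.succ) (fun i => hf _),
      Dex_mul m (hf _) (Finset.prod_ne_zero_iff.2 fun i _ => hf _)]

open Classical in
/-- the number of the k-tuples with product n -/
private noncomputable def Dex_a (k : ℕ) (S : Finset ℕ) (n : ℕ) : ℕ :=
  ((Fintype.piFinset (fun _ : Fin k => S)).filter (fun f => ∏ i, f i = n)).card

private lemma Dex_card {k : ℕ} {S : Finset ℕ} (hS : ∀ p ∈ S, p.Prime) (n : ℕ) : Dex_a k S n ≤ k.factorial := by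
  classical
  unfold Dex_a
  rcases Finset.eq_empty_or_nonempty
    ((Fintype.piFinset (fun _ : Fin k => S)).filter (fun f => ∏ i, f i = n)) with h0 | ⟨f0, hf0⟩
  · rw [h0, card_empty]
    exact Nat.zero_le _
  · have perm : ∀ f ∈ (Fintype.piFinset (fun _ : Fin k => S)).filter (fun f => ∏ i, f i = n),
        (List.ofFn f).Perm n.primeFactorsList := by
      intro f hf
      rw [mem_filter, Fintype.mem_piFinset] at hf
      refine Nat.primeFactorsList_unique ?_ ?_
      · rw [List.prod_ofFn]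
        exact hf.2
      · intro p hp
        rw [List.mem_ofFn'] at hp
        obtain ⟨i, rfl⟩ := hp
        exact hS _ (hf.1 i)
    have hlen : n.primeFactorsList.length = k := by
      have h1 := (perm f0 hf0).length_eq
      rw [List.length_ofFn] at h1
      exact h1.symm
    calc ((Fintype.piFinset (fun _ : Fin k => S)).filter (fun f => ∏ i, f i = n)).card ≤
        (n.primeFactorsList.permutations.toFinset).card := by
          refine card_le_card_of_injOn (fun f => List.ofFn f) (fun f hf => ?_) (List.ofFn_injective.injOn)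
          rw [mem_coe, List.mem_toFinset, List.mem_permutations]
          exact perm f hf
      _ ≤ n.primeFactorsList.permutations.length := List.toFinset_card_le _
      _ = k.factorial := by rw [List.length_permutations, hlen]

private lemma Dex_maps {P k : ℕ} {S : Finset ℕ} (hS : ∀ p ∈ S, p.Prime ∧ P < p ∧ p ≤ 2 * P) :
    ∀ f ∈ Fintype.piFinset (fun _ : Fin k => S), ∏ i, f i ∈ Icc 1 ((2 * P) ^ k) := by
  intro f hf
  rw [Fintype.mem_piFinset] at hf
  rw [mem_Icc]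
  constructor
  · exact Finset.one_le_prod' fun i _ => (hS _ (hf i)).1.one_lt.le
  · calc ∏ i, f i ≤ ∏ _i : Fin k, (2 * P) := Finset.prod_le_prod' fun i _ => (hS _ (hf i)).2.2
      _ = (2 * P) ^ k := by rw [Finset.prod_const, Finset.card_univ, Fintype.card_fin]

private lemma Dex_pow {P k : ℕ} {S : Finset ℕ} (hS : ∀ p ∈ S, p.Prime ∧ P < p ∧ p ≤ 2 * P) (m : ℤ) :
    (∑ p ∈ S, lp m p) ^ k = ∑ n ∈ Icc 1 ((2 * P) ^ k), (Dex_a k S n : ℂ) * lp m n := by
  classical
  rw [Finset.sum_pow', ← Finset.sum_fiberwise_of_maps_to (Dex_maps hS)]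
  refine sum_congr rfl fun n _ => ?_
  unfold Dex_a
  rw [← nsmul_eq_mul, ← Finset.sum_const]
  refine sum_congr rfl fun f hf => ?_
  obtain ⟨h1, h2⟩ := mem_filter.1 hf
  rw [Fintype.mem_piFinset] at h1
  rw [Dex_prod m k f (fun i => (hS _ (h1 i)).1.ne_zero), h2]

private lemma Dex_sum {P k : ℕ} {S : Finset ℕ} (hS : ∀ p ∈ S, p.Prime ∧ P < p ∧ p ≤ 2 * P) :
    ∑ n ∈ Icc 1 ((2 * P) ^ k), Dex_a k S n ≤ P ^ k := by
  classical
  unfold Dex_a
  rw [← Finset.card_eq_sum_card_fiberwise (fun f hf => Dex_maps hS f hf), Fintype.card_piFinset_const]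
  refine Nat.pow_le_pow_left ?_ k
  calc S.card ≤ (Ioc P (2 * P)).card := card_le_card fun p hp => mem_Ioc.2 (hS p hp).2
    _ = P := by
      rw [Nat.card_Ioc]
      omega

theorem tDex (h1 : DmvStmt) : DexStmt := by
  intro P T k S γ hP hT hk hγ hS
  have hP' : (1 : ℝ) ≤ P := by exact_mod_cast hP
  have hN : 1 ≤ (2 * P) ^ k := Nat.one_le_pow _ _ (by omega)
  have hN' : (((2 * P) ^ k : ℕ) : ℝ) = (2 * (P : ℝ)) ^ k := by
    push_cast
    ring
  have key := h1 ((2 * P) ^ k) T (fun n => (Dex_a k S n : ℂ)) hN hT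
  have hlow : (((Icc (-(T : ℤ)) T).filter (fun m : ℤ => γ * P ≤ ‖∑ p ∈ S, lp m p‖)).card : ℝ) * (γ * P) ^ (2 * k) ≤
      ∑ m ∈ Icc (-(T : ℤ)) T, ‖∑ n ∈ Icc 1 ((2 * P) ^ k), (Dex_a k S n : ℂ) * lp m n‖ ^ 2 := by
    rw [← nsmul_eq_mul, ← Finset.sum_const]
    calc ∑ _m ∈ (Icc (-(T : ℤ)) T).filter (fun m : ℤ => γ * P ≤ ‖∑ p ∈ S, lp m p‖), (γ * P) ^ (2 * k) ≤
        ∑ m ∈ (Icc (-(T : ℤ)) T).filter (fun m : ℤ => γ * P ≤ ‖∑ p ∈ S, lp m p‖),
          ‖∑ n ∈ Icc 1 ((2 * P) ^ k), (Dex_a k S n : ℂ) * lp m n‖ ^ 2 := by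
          refine sum_le_sum fun m hm => ?_
          have h2 := (mem_filter.1 hm).2
          rw [← Dex_pow hS m, norm_pow, ← pow_mul, mul_comm k 2]
          exact pow_le_pow_left₀ (by positivity) h2 _
      _ ≤ _ := sum_le_sum_of_subset_of_nonneg (filter_subset _ _) fun _ _ _ => by positivity
  have hsq : ∑ n ∈ Icc 1 ((2 * P) ^ k), ‖(Dex_a k S n : ℂ)‖ ^ 2 ≤ k.factorial * (P : ℝ) ^ k := by
    calc ∑ n ∈ Icc 1 ((2 * P) ^ k), ‖(Dex_a k S n : ℂ)‖ ^ 2 ≤
        ∑ n ∈ Icc 1 ((2 * P) ^ k), (k.factorial : ℝ) * (Dex_a k S n : ℝ) := by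
          refine sum_le_sum fun n _ => ?_
          rw [Complex.norm_natCast, pow_two]
          have h2 : (Dex_a k S n : ℝ) ≤ (k.factorial : ℝ) := by
            exact_mod_cast Dex_card (fun p hp => (hS p hp).1) n
          exact mul_le_mul_of_nonneg_right h2 (Nat.cast_nonneg _)
      _ = (k.factorial : ℝ) * ((∑ n ∈ Icc 1 ((2 * P) ^ k), Dex_a k S n : ℕ) : ℝ) := by
          rw [← mul_sum]
          push_cast
          rfl
      _ ≤ k.factorial * (P : ℝ) ^ k := by
          refine mul_le_mul_of_nonneg_left ?_ (Nat.cast_nonneg _)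
          exact_mod_cast Dex_sum hS
  have hlog : Real.log (((2 * P) ^ k : ℕ) : ℝ) = k * Real.log (2 * P) := by
    rw [hN', Real.log_pow]
  have hl0 : 0 ≤ Real.log (2 * (P : ℝ)) := Real.log_nonneg (by linarith)
  refine hlow.trans (key.trans ?_)
  rw [hlog, hN']
  have h3 : 0 ≤ 200 * (1 + (k : ℝ) * Real.log (2 * P)) * ((T : ℝ) + (2 * (P : ℝ)) ^ k) := by positivity
  exact mul_le_mul_of_nonneg_left hsq h3

end Pool.Agent.Lib.TR
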