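import Pool.Agent.Lib.TR.SpecD

/-!
MP_00e23e_nt, directory Lib/TR, chapter D, module Dfa: factorization and sizes.
-/

set_option autoImplicit false
set_option linter.unusedVariables false

namespace Pool.Agent.Lib.TR

open Finset Pool.Agent.Lib.EH3 Pool.Agent.Results.MP_00e23e_nt

private lemma Dfa_ee_add (s t : ℝ) : ee (s + t) = ee s * ee t := by
  unfold ee
  rw [← Complex.exp_add]
  congr 1
  push_cast
  ring

private lemma Dfa_lp_mul (m : ℤ) (a b : ℕ) (ha : a ≠ 0) (hb : b ≠ 0) :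
    lp m (a * b) = lp m a * lp m b := by
  unfold lp
  rw [← Dfa_ee_add]
  congr 1
  have h : Real.log ((a * b : ℕ) : ℝ) = Real.log a + Real.log b := by
    push_cast
    exact Real.log_mul (by exact_mod_cast ha) (by exact_mod_cast hb)
  rw [h]
  ring

private lemma Dfa_fact (D P V : ℕ) (S : Finset ℕ) (c w : ℕ → ℂ)
    (hD : 1 ≤ D) (hV : 1 ≤ V) (hS : ∀ p ∈ S, P < p ∧ p ≤ 2 * P) (m : ℤ) :
    GD (8 * (D * P * V)) (gg D V S c w) m =
      (∑ d ∈ Ioc D (2 * D), c d * lp m d) * (∑ p ∈ S, lp m p) *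
        (∑ v ∈ Ico V (2 * V), w v * lp m v) := by
  have hrhs : (∑ d ∈ Ioc D (2 * D), c d * lp m d) * (∑ p ∈ S, lp m p) *
        (∑ v ∈ Ico V (2 * V), w v * lp m v) =
      ∑ d ∈ Ioc D (2 * D), ∑ p ∈ S, ∑ v ∈ Ico V (2 * V),
        (c d * lp m d) * lp m p * (w v * lp m v) := by
    rw [Finset.sum_mul_sum, Finset.sum_mul]
    refine Finset.sum_congr rfl fun d _ => ?_
    rw [Finset.sum_mul]
    refine Finset.sum_congr rfl fun p _ => ?_
    rw [Finset.mul_sum]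
  rw [hrhs]
  unfold GD gg
  have h1 : ∀ n ∈ Icc 1 (8 * (D * P * V)),
      (∑ d ∈ Ioc D (2 * D), ∑ p ∈ S, ∑ v ∈ Ico V (2 * V),
        (if ((d * p * v : ℕ) : ℤ) = ((n : ℕ) : ℤ) then c d * w v else 0)) * lp m n =
      ∑ d ∈ Ioc D (2 * D), ∑ p ∈ S, ∑ v ∈ Ico V (2 * V),
        (if d * p * v = n then c d * w v * lp m n else 0) := by
    intro n _
    rw [Finset.sum_mul]
    refine Finset.sum_congr rfl fun d _ => ?_
    rw [Finset.sum_mul]
    refine Finset.sum_congr rfl fun p _ => ?_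
    rw [Finset.sum_mul]
    refine Finset.sum_congr rfl fun v _ => ?_
    by_cases h : d * p * v = n
    · have h' : ((d * p * v : ℕ) : ℤ) = ((n : ℕ) : ℤ) := by exact_mod_cast h
      rw [if_pos h', if_pos h]
    · have h' : ¬ (((d * p * v : ℕ) : ℤ) = ((n : ℕ) : ℤ)) := fun hh => h (by exact_mod_cast hh)
      rw [if_neg h', if_neg h, zero_mul]
  rw [Finset.sum_congr rfl h1, Finset.sum_comm]
  refine Finset.sum_congr rfl fun d hd => ?_
  rw [Finset.sum_comm]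
  refine Finset.sum_congr rfl fun p hp => ?_
  rw [Finset.sum_comm]
  refine Finset.sum_congr rfl fun v hv => ?_
  rw [Finset.mem_Ioc] at hd
  rw [Finset.mem_Ico] at hv
  have hp1 := hS p hp
  have hd0 : d ≠ 0 := by omega
  have hv0 : v ≠ 0 := by omega
  have hp0 : p ≠ 0 := by omega
  have hmem : d * p * v ∈ Icc 1 (8 * (D * P * V)) := by
    rw [Finset.mem_Icc]
    constructor
    · exact Nat.succ_le_of_lt (Nat.mul_pos (Nat.mul_pos (Nat.pos_of_ne_zero hd0)
        (Nat.pos_of_ne_zero hp0)) (Nat.pos_of_ne_zero hv0))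
    · calc d * p * v ≤ (2 * D) * (2 * P) * (2 * V) :=
            Nat.mul_le_mul (Nat.mul_le_mul hd.2 hp1.2) (by omega)
        _ = 8 * (D * P * V) := by ring
  rw [Finset.sum_eq_single (d * p * v)]
  · rw [if_pos rfl, Dfa_lp_mul m (d * p) v (Nat.mul_ne_zero hd0 hp0) hv0,
      Dfa_lp_mul m d p hd0 hp0]
    ring
  · intro n _ hne
    rw [if_neg (fun h => hne h.symm)]
  · intro h
    exact absurd hmem h

private lemma Dfa_tau_mono (v n : ℕ) (hn : n ≠ 0) (h : v ∣ n) :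
    (v.divisors.card : ℝ) ≤ (n.divisors.card : ℝ) := by
  exact_mod_cast Finset.card_le_card (Nat.divisors_subset_of_dvd hn h)

private lemma Dfa_cw (c w : ℕ → ℂ) (hc : ∀ d, ‖c d‖ ≤ 1)
    (hw : ∀ v, ‖w v‖ ≤ (v.divisors.card : ℝ)) (d v n : ℕ) (hn : n ≠ 0) (h : v ∣ n) :
    ‖c d * w v‖ ≤ (n.divisors.card : ℝ) := by
  rw [norm_mul]
  calc ‖c d‖ * ‖w v‖ ≤ 1 * (v.divisors.card : ℝ) :=
        mul_le_mul (hc d) (hw v) (norm_nonneg _) zero_le_one
    _ = (v.divisors.card : ℝ) := one_mul _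
    _ ≤ _ := Dfa_tau_mono v n hn h

private lemma Dfa_inner (S : Finset ℕ) (c w : ℕ → ℂ) (hc : ∀ d, ‖c d‖ ≤ 1)
    (hw : ∀ v, ‖w v‖ ≤ (v.divisors.card : ℝ)) (d v n : ℕ) (hd : d ≠ 0) (hv : v ≠ 0)
    (hn : n ≠ 0) :
    ∑ p ∈ S, ‖(if ((d * p * v : ℕ) : ℤ) = ((n : ℕ) : ℤ) then c d * w v else 0)‖ ≤
      if d ∣ n ∧ v ∣ n then (n.divisors.card : ℝ) else 0 := by
  by_cases hex : ∃ p ∈ S, d * p * v = n
  · obtain ⟨p0, hp0, he⟩ := hex
    have hdn : d ∣ n := ⟨p0 * v, by rw [← he]; ring⟩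
    have hvn : v ∣ n := ⟨d * p0, by rw [← he]; ring⟩
    rw [if_pos ⟨hdn, hvn⟩]
    rw [Finset.sum_eq_single p0]
    · rw [if_pos (by exact_mod_cast he)]
      exact Dfa_cw c w hc hw d v n hn hvn
    · intro p _ hne
      rw [if_neg, norm_zero]
      intro h
      have h' : d * p * v = n := by exact_mod_cast h
      apply hne
      have h2 : d * p * v = d * p0 * v := by rw [h', he]
      have h3 : d * p = d * p0 := Nat.eq_of_mul_eq_mul_right (Nat.pos_of_ne_zero hv) h2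
      exact Nat.eq_of_mul_eq_mul_left (Nat.pos_of_ne_zero hd) h3
    · intro h
      exact absurd hp0 h
  · have h0 : ∑ p ∈ S, ‖(if ((d * p * v : ℕ) : ℤ) = ((n : ℕ) : ℤ) then c d * w v else 0)‖ = 0 := by
      refine Finset.sum_eq_zero fun p hp => ?_
      rw [if_neg, norm_zero]
      intro h
      exact hex ⟨p, hp, by exact_mod_cast h⟩
    rw [h0]
    split_ifs
    · exact Nat.cast_nonneg _
    · exact le_refl _

private lemma Dfa_count (A : Finset ℕ) (n : ℕ) (hn : n ≠ 0) (t : ℝ) (ht : 0 ≤ t) :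
    ∑ d ∈ A, (if d ∣ n then t else 0) ≤ (n.divisors.card : ℝ) * t := by
  rw [← Finset.sum_filter, Finset.sum_const, nsmul_eq_mul]
  refine mul_le_mul_of_nonneg_right ?_ ht
  refine Nat.cast_le.mpr (Finset.card_le_card ?_)
  intro d hd
  rw [Finset.mem_filter] at hd
  exact Nat.mem_divisors.mpr ⟨hd.2, hn⟩

private lemma Dfa_gg_le (D V : ℕ) (S : Finset ℕ) (c w : ℕ → ℂ)
    (hD : 1 ≤ D) (hV : 1 ≤ V) (hc : ∀ d, ‖c d‖ ≤ 1)
    (hw : ∀ v, ‖w v‖ ≤ (v.divisors.card : ℝ)) (n : ℕ) (hn : n ≠ 0) :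
    ‖gg D V S c w (n : ℤ)‖ ≤ (n.divisors.card : ℝ) ^ 3 := by
  have ht : (0 : ℝ) ≤ (n.divisors.card : ℝ) := Nat.cast_nonneg _
  have h1 : ‖gg D V S c w (n : ℤ)‖ ≤ ∑ d ∈ Ioc D (2 * D), ∑ v ∈ Ico V (2 * V), ∑ p ∈ S,
      ‖(if ((d * p * v : ℕ) : ℤ) = ((n : ℕ) : ℤ) then c d * w v else 0)‖ := by
    unfold gg
    refine (norm_sum_le _ _).trans (Finset.sum_le_sum fun d _ => ?_)
    rw [Finset.sum_comm]
    refine (norm_sum_le _ _).trans (Finset.sum_le_sum fun v _ => ?_)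
    exact norm_sum_le _ _
  refine h1.trans ?_
  have h2 : ∀ d ∈ Ioc D (2 * D), ∑ v ∈ Ico V (2 * V), ∑ p ∈ S,
      ‖(if ((d * p * v : ℕ) : ℤ) = ((n : ℕ) : ℤ) then c d * w v else 0)‖ ≤
      (if d ∣ n then (n.divisors.card : ℝ) * (n.divisors.card : ℝ) else 0) := by
    intro d hd
    rw [Finset.mem_Ioc] at hd
    by_cases hdn : d ∣ n
    · rw [if_pos hdn]
      refine le_trans (Finset.sum_le_sum fun v hv => ?_) (Dfa_count (Ico V (2 * V)) n hn _ ht)
      rw [Finset.mem_Ico] at hv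
      refine (Dfa_inner S c w hc hw d v n (by omega) (by omega) hn).trans ?_
      by_cases hvn : v ∣ n
      · rw [if_pos ⟨hdn, hvn⟩, if_pos hvn]
      · rw [if_neg (fun h => hvn h.2), if_neg hvn]
    · rw [if_neg hdn]
      refine Finset.sum_nonpos fun v hv => ?_
      rw [Finset.mem_Ico] at hv
      refine (Dfa_inner S c w hc hw d v n (by omega) (by omega) hn).trans ?_
      rw [if_neg (fun h => hdn h.1)]
  refine (Finset.sum_le_sum h2).trans ?_
  refine (Dfa_count (Ioc D (2 * D)) n hn _ (mul_nonneg ht ht)).trans ?_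
  apply le_of_eq
  ring

private lemma Dfa_b_le (D V : ℕ) (c w : ℕ → ℂ)
    (hD : 1 ≤ D) (hc : ∀ d, ‖c d‖ ≤ 1)
    (hw : ∀ v, ‖w v‖ ≤ (v.divisors.card : ℝ)) (n : ℕ) (hn : n ≠ 0) :
    ‖∑ d ∈ Ioc D (2 * D), ∑ v ∈ Ico V (2 * V), (if d * v = n then c d * w v else 0)‖ ≤
      (n.divisors.card : ℝ) ^ 2 := by
  have ht : (0 : ℝ) ≤ (n.divisors.card : ℝ) := Nat.cast_nonneg _
  refine (norm_sum_le _ _).trans ?_
  have h2 : ∀ d ∈ Ioc D (2 * D), ‖∑ v ∈ Ico V (2 * V), (if d * v = n then c d * w v else 0)‖ ≤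
      (if d ∣ n then (n.divisors.card : ℝ) else 0) := by
    intro d hd
    rw [Finset.mem_Ioc] at hd
    by_cases hex : ∃ v ∈ Ico V (2 * V), d * v = n
    · obtain ⟨v0, hv0, he⟩ := hex
      rw [if_pos ⟨v0, he.symm⟩]
      rw [Finset.sum_eq_single v0]
      · rw [if_pos he]
        exact Dfa_cw c w hc hw d v0 n hn ⟨d, by rw [← he]; ring⟩
      · intro v _ hne
        rw [if_neg]
        intro h
        apply hne
        have h2 : d * v = d * v0 := by rw [h, he]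
        exact Nat.eq_of_mul_eq_mul_left (by omega) h2
      · intro h
        exact absurd hv0 h
    · have h0 : ∑ v ∈ Ico V (2 * V), (if d * v = n then c d * w v else 0) = 0 := by
        refine Finset.sum_eq_zero fun v hv => ?_
        rw [if_neg]
        intro h
        exact hex ⟨v, hv, h⟩
      rw [h0, norm_zero]
      split_ifs
      · exact ht
      · exact le_refl _
  refine (Finset.sum_le_sum h2).trans ?_
  refine (Dfa_count (Ioc D (2 * D)) n hn _ ht).trans ?_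
  apply le_of_eq
  ring

private lemma Dfa_supp (D P V : ℕ) (S : Finset ℕ) (c w : ℕ → ℂ)
    (hD : 1 ≤ D) (hP : 1 ≤ P) (hV : 1 ≤ V) (hS : ∀ p ∈ S, P < p ∧ p ≤ 2 * P) (n : ℤ)
    (h : n ≤ (D * P * V : ℕ) ∨ (8 * (D * P * V) : ℕ) < n) : gg D V S c w n = 0 := by
  unfold gg
  refine Finset.sum_eq_zero fun d hd => Finset.sum_eq_zero fun p hp =>
    Finset.sum_eq_zero fun v hv => ?_
  rw [Finset.mem_Ioc] at hd
  rw [Finset.mem_Ico] at hv
  have hp1 := hS p hp
  have h1 : D * P * V < d * p * v := by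
    have ha : D * P < d * p := by
      calc D * P < d * P := Nat.mul_lt_mul_of_pos_right hd.1 (by omega)
        _ ≤ d * p := Nat.mul_le_mul_left d hp1.1.le
    calc D * P * V < d * p * V := Nat.mul_lt_mul_of_pos_right ha (by omega)
      _ ≤ d * p * v := Nat.mul_le_mul_left _ hv.1
  have h2 : d * p * v ≤ 8 * (D * P * V) := by
    calc d * p * v ≤ (2 * D) * (2 * P) * (2 * V) :=
          Nat.mul_le_mul (Nat.mul_le_mul hd.2 hp1.2) (by omega)
      _ = 8 * (D * P * V) := by ring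
  rw [if_neg]
  intro he
  rcases h with h | h
  · rw [← he] at h
    have h' : d * p * v ≤ D * P * V := by exact_mod_cast h
    omega
  · rw [← he] at h
    have h' : 8 * (D * P * V) < d * p * v := by exact_mod_cast h
    omega

theorem tDfa (h1 : TauStmt) : DfaStmt := by
  intro D P V S c w hD hP hV hS hc hw
  have hX : 1 ≤ D * P * V := Nat.succ_le_of_lt (Nat.mul_pos (Nat.mul_pos hD hP) hV)
  have hY : 1 ≤ D * V := Nat.succ_le_of_lt (Nat.mul_pos hD hV)
  refine ⟨fun m => Dfa_fact D P V S c w hD hV hS m, ?_, ?_, fun n hn =>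
    Dfa_supp D P V S c w hD hP hV hS n hn⟩
  · have ht := h1 6 (8 * (D * P * V)) (by omega)
    have hs : ∑ n ∈ Icc 1 (8 * (D * P * V)), ‖gg D V S c w n‖ ^ 2 ≤
        ∑ n ∈ Icc 1 (8 * (D * P * V)), (n.divisors.card : ℝ) ^ 6 := by
      refine Finset.sum_le_sum fun n hn => ?_
      rw [Finset.mem_Icc] at hn
      have hb := Dfa_gg_le D V S c w hD hV hc hw n (by omega)
      calc ‖gg D V S c w n‖ ^ 2 ≤ ((n.divisors.card : ℝ) ^ 3) ^ 2 :=
            pow_le_pow_left₀ (norm_nonneg _) hb 2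
        _ = (n.divisors.card : ℝ) ^ 6 := by ring
    refine hs.trans (ht.trans (le_of_eq ?_))
    push_cast
    norm_num
  · have ht := h1 4 (4 * (D * V)) (by omega)
    have hs : ∑ e ∈ Icc 1 (4 * (D * V)),
        ‖∑ d ∈ Ioc D (2 * D), ∑ v ∈ Ico V (2 * V), (if d * v = e then c d * w v else 0)‖ ^ 2 ≤
        ∑ n ∈ Icc 1 (4 * (D * V)), (n.divisors.card : ℝ) ^ 4 := by
      refine Finset.sum_le_sum fun n hn => ?_
      rw [Finset.mem_Icc] at hn
      have hb := Dfa_b_le D V c w hD hc hw n (by omega)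
      calc ‖∑ d ∈ Ioc D (2 * D), ∑ v ∈ Ico V (2 * V), (if d * v = n then c d * w v else 0)‖ ^ 2
          ≤ ((n.divisors.card : ℝ) ^ 2) ^ 2 := pow_le_pow_left₀ (norm_nonneg _) hb 2
        _ = (n.divisors.card : ℝ) ^ 4 := by ring
    refine hs.trans (ht.trans (le_of_eq ?_))
    push_cast
    norm_num

end Pool.Agent.Lib.TR
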