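import Pool.Agent.Lib.TR.SpecD

/-!
MP_00e23e_nt, directory Lib/TR, chapter D, module Dmn: the result of chapter D (parameters).
-/

set_option autoImplicit false

namespace Pool.Agent.Lib.TR

open Finset Pool.Agent.Lib.EH3 Pool.Agent.Results.MP_00e23e_nt

private lemma Dmn_lp (m : ℤ) (n : ℕ) : ‖lp m n‖ = 1 := norm_ee _

private lemma Dmn_ev (r s c : ℝ) (hs : 0 < s) :
    ∃ x0 : ℝ, 1 ≤ x0 ∧ ∀ x : ℝ, x0 ≤ x → c * Real.log x ^ r ≤ x ^ s := by
  have h := (isLittleO_log_rpow_rpow_atTop r hs).def (c := 1 / (|c| + 1)) (by positivity)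
  obtain ⟨x1, h1⟩ := Filter.eventually_atTop.1 h
  refine ⟨max x1 1, le_max_right _ _, fun x hx => ?_⟩
  have hx1 := h1 x ((le_max_left _ _).trans hx)
  have hx2 : 1 ≤ x := (le_max_right _ _).trans hx
  rw [Real.norm_of_nonneg (Real.rpow_nonneg (Real.log_nonneg hx2) _),
    Real.norm_of_nonneg (Real.rpow_nonneg (by linarith) _)] at hx1
  have h0 := Real.rpow_nonneg (Real.log_nonneg hx2) r
  have h3 : (|c| + 1) * Real.log x ^ r ≤ x ^ s := by
    rw [one_div, inv_mul_eq_div, le_div_iff₀ (by positivity)] at hx1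
    linarith
  have : c * Real.log x ^ r ≤ (|c| + 1) * Real.log x ^ r :=
    mul_le_mul_of_nonneg_right (by linarith [le_abs_self c]) h0
  linarith

private lemma Dmn_inv (T : ℕ) (y : ℝ) (hy : 1 ≤ y) :
    ∑ m ∈ (Icc (-(T : ℤ)) T).filter (fun m : ℤ => y < |(m : ℝ)|), 1 / |(m : ℝ)| ^ 2 ≤ 4 / y := by
  classical
  set N := ⌊y⌋₊ with hN
  have hN1 : 1 ≤ N := Nat.le_floor (by simpa using hy)
  have hNr : (1 : ℝ) ≤ N := by exact_mod_cast hN1
  have hNy : y < N + 1 := Nat.lt_floor_add_one y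
  set f : ℕ → ℝ := fun n => ((n : ℝ) ^ 2)⁻¹ with hf
  have hsum : ∑ n ∈ Ioc N (max N T), f n ≤ 2 / y := by
    have h := sum_Ioc_inv_sq_le_sub (α := ℝ) (k := N) (n := max N T) (by omega) (le_max_left _ _)
    have h2 : (N : ℝ)⁻¹ ≤ 2 / y := by
      rw [inv_eq_one_div, div_le_div_iff₀ (by linarith) (by linarith)]
      linarith
    have h3 : (0 : ℝ) ≤ ((max N T : ℕ) : ℝ)⁻¹ := by positivity
    linarith
  set U1 : Finset ℤ := (Ioc N (max N T)).image (fun n : ℕ => (n : ℤ)) with hU1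
  set U2 : Finset ℤ := (Ioc N (max N T)).image (fun n : ℕ => -(n : ℤ)) with hU2
  have hsub : (Icc (-(T : ℤ)) T).filter (fun m : ℤ => y < |(m : ℝ)|) ⊆ U1 ∪ U2 := by
    intro m hm
    rw [mem_filter, mem_Icc] at hm
    obtain ⟨⟨h1, h2⟩, h3⟩ := hm
    have h4 : N < m.natAbs := by
      have e : (m.natAbs : ℝ) = |(m : ℝ)| := by
        rw [Nat.cast_natAbs, Int.cast_abs]
      have : ((N : ℕ) : ℝ) < (m.natAbs : ℝ) := by
        rw [e]
        exact lt_of_le_of_lt (Nat.floor_le (by linarith)) h3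
      exact_mod_cast this
    have h5 : m.natAbs ≤ T := by omega
    rw [mem_union, hU1, hU2, mem_image, mem_image]
    rcases le_total 0 m with h | h
    · left
      exact ⟨m.natAbs, mem_Ioc.2 ⟨h4, h5.trans (le_max_right _ _)⟩, by omega⟩
    · right
      exact ⟨m.natAbs, mem_Ioc.2 ⟨h4, h5.trans (le_max_right _ _)⟩, by omega⟩
  have e1 : ∑ m ∈ U1, 1 / |(m : ℝ)| ^ 2 = ∑ n ∈ Ioc N (max N T), f n := by
    rw [hU1, sum_image (by intro a _ b _ h; simpa using h)]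
    refine sum_congr rfl fun n _ => ?_
    simp [hf]
  have e2 : ∑ m ∈ U2, 1 / |(m : ℝ)| ^ 2 = ∑ n ∈ Ioc N (max N T), f n := by
    rw [hU2, sum_image (by intro a _ b _ h; simpa using h)]
    refine sum_congr rfl fun n _ => ?_
    simp [hf]
  have e3 : ∑ m ∈ U1 ∪ U2, 1 / |(m : ℝ)| ^ 2 ≤ ∑ m ∈ U1, 1 / |(m : ℝ)| ^ 2 + ∑ m ∈ U2, 1 / |(m : ℝ)| ^ 2 := by
    rw [← sum_union_inter]
    have : 0 ≤ ∑ m ∈ U1 ∩ U2, 1 / |(m : ℝ)| ^ 2 := sum_nonneg fun _ _ => by positivity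
    linarith
  have e4 : ∑ m ∈ (Icc (-(T : ℤ)) T).filter (fun m : ℤ => y < |(m : ℝ)|), 1 / |(m : ℝ)| ^ 2 ≤
      ∑ m ∈ U1 ∪ U2, 1 / |(m : ℝ)| ^ 2 := sum_le_sum_of_subset_of_nonneg hsub fun _ _ _ => by positivity
  have e5 : (4 : ℝ) / y = 2 / y + 2 / y := by ring
  rw [e1, e2] at e3
  linarith

private lemma Dmn_card (x α B0 c : ℝ) (P T1 : ℕ) (hL : 400 ≤ Real.log x) (hx : 1 ≤ x) (hα : 0 < α)
    (hB0 : 32 ≤ B0) (hP : Real.log x ^ B0 ≤ P) (hPx : 2 * (P : ℝ) ≤ x) (hT : 1 ≤ T1)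
    (hPT : (P : ℝ) * T1 ≤ x ^ ((6 : ℝ) / 5))
    (hc : ∀ k : ℕ, 1 ≤ k → c * ((P : ℝ) ^ (-α) * P) ^ (2 * k) ≤
      200 * (1 + k * Real.log (2 * P)) * ((T1 : ℝ) + (2 * P) ^ k) * (k.factorial * (P : ℝ) ^ k)) :
    c ≤ Real.log x ^ 4 * x ^ (3 * α + 2 / B0) := by
  set L := Real.log x with hLd
  have hx0 : 0 < x := by linarith
  have hL0 : 0 < L := by linarith
  set p : ℝ := (P : ℝ) with hp
  have hℓ : 1 ≤ Real.log L := by
    rw [Real.le_log_iff_exp_le hL0]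
    have := Real.exp_one_lt_d9
    linarith
  have hpL : L ≤ p := by
    have h1 : L ^ (1 : ℝ) ≤ L ^ B0 := Real.rpow_le_rpow_of_exponent_le (by linarith) (by linarith)
    rw [Real.rpow_one] at h1
    exact h1.trans hP
  have hp1 : 1 ≤ p := by linarith
  have hp0 : 0 < p := by linarith
  have hlogp : B0 * Real.log L ≤ Real.log p := by
    rw [← Real.log_rpow hL0]
    exact Real.log_le_log (Real.rpow_pos_of_pos hL0 _) hP
  have hBℓ : 32 ≤ B0 * Real.log L := by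
    have h1 : B0 * 1 ≤ B0 * Real.log L := mul_le_mul_of_nonneg_left hℓ (by linarith)
    linarith
  have hlogp0 : 0 < Real.log p := by linarith
  have hT0 : (1 : ℝ) ≤ T1 := by exact_mod_cast hT
  have hlogT : 0 ≤ Real.log T1 := Real.log_nonneg hT0
  set u : ℝ := Real.log T1 / Real.log p with hu
  have hu0 : 0 ≤ u := div_nonneg hlogT hlogp0.le
  have hulog : u * Real.log p = Real.log T1 := div_mul_cancel₀ _ hlogp0.ne'
  set k : ℕ := max 1 ⌈u⌉₊ with hk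
  have hk1 : 1 ≤ k := le_max_left _ _
  have hku : u ≤ k := (Nat.le_ceil u).trans (by exact_mod_cast le_max_right 1 ⌈u⌉₊)
  have hku' : (k : ℝ) ≤ 1 + u := by
    rw [hk, Nat.cast_max]
    refine max_le ?_ ?_
    · rw [Nat.cast_one]
      linarith
    · have := Nat.ceil_lt_add_one hu0
      linarith
  have hpk0 : 0 < p ^ k := pow_pos hp0 _
  have hTk : (T1 : ℝ) ≤ p ^ k := by
    refine (Real.log_le_log_iff (by linarith) hpk0).1 ?_
    rw [Real.log_pow, ← hulog]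
    exact mul_le_mul_of_nonneg_right hku hlogp0.le
  have hkT : p ^ k ≤ p * T1 := by
    refine (Real.log_le_log_iff hpk0 (by positivity)).1 ?_
    rw [Real.log_pow, Real.log_mul hp0.ne' (by linarith), ← hulog]
    have := mul_le_mul_of_nonneg_right hku' hlogp0.le
    linarith
  have hpx : p ^ k ≤ x ^ ((6 : ℝ) / 5) := hkT.trans hPT
  have hlogT2 : Real.log T1 ≤ 6 / 5 * L := by
    have h1 : (T1 : ℝ) ≤ x ^ ((6 : ℝ) / 5) := by
      exact (le_mul_of_one_le_left (by linarith) hp1).trans hPT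
    have h2 := Real.log_le_log (by linarith) h1
    rwa [Real.log_rpow hx0] at h2
  have huL : u ≤ 6 / 5 * L / (B0 * Real.log L) := by
    rw [hu]
    exact div_le_div₀ (by positivity) hlogT2 (by linarith) hlogp
  have h2k : 2 * (k : ℝ) ≤ L := by
    have h1 : 6 / 5 * L / (B0 * Real.log L) ≤ 6 / 5 * L / 32 :=
      div_le_div_of_nonneg_left (by positivity) (by norm_num) hBℓ
    linarith
  have hLk : L ^ (k : ℝ) ≤ L * x ^ (2 / B0) := by
    have h1 : L ^ (k : ℝ) ≤ L ^ (1 + 6 / 5 * L / (B0 * Real.log L)) :=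
      Real.rpow_le_rpow_of_exponent_le (by linarith) (by linarith)
    rw [Real.rpow_add hL0, Real.rpow_one] at h1
    refine h1.trans (mul_le_mul_of_nonneg_left ?_ hL0.le)
    rw [Real.rpow_def_of_pos hL0, Real.rpow_def_of_pos hx0, Real.exp_le_exp, ← hLd]
    have e : Real.log L * (6 / 5 * L / (B0 * Real.log L)) = L * (6 / 5 / B0) := by
      field_simp
    rw [e]
    refine mul_le_mul_of_nonneg_left ?_ hL0.le
    exact div_le_div_of_nonneg_right (by norm_num) (by linarith)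
  have h2kk : (2 : ℝ) ^ k * (k.factorial : ℝ) ≤ L ^ (k : ℝ) := by
    have h1 : (k.factorial : ℝ) ≤ (k : ℝ) ^ k := by exact_mod_cast Nat.factorial_le_pow k
    calc (2 : ℝ) ^ k * (k.factorial : ℝ) ≤ 2 ^ k * (k : ℝ) ^ k :=
          mul_le_mul_of_nonneg_left h1 (by positivity)
      _ = (2 * (k : ℝ)) ^ k := by rw [mul_pow]
      _ ≤ L ^ k := pow_le_pow_left₀ (by positivity) h2k k
      _ = L ^ (k : ℝ) := (Real.rpow_natCast L k).symm
  have hlog2 : Real.log (2 * p) ≤ L := Real.log_le_log (by linarith) hPx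
  have hlog20 : 0 ≤ Real.log (2 * p) := Real.log_nonneg (by linarith)
  have h1k : 1 + (k : ℝ) * Real.log (2 * p) ≤ L ^ 2 := by
    have h1 : (k : ℝ) * Real.log (2 * p) ≤ L / 2 * L :=
      mul_le_mul (by linarith) hlog2 hlog20 (by linarith)
    have h2 : 400 * L ≤ L * L := mul_le_mul_of_nonneg_right hL hL0.le
    rw [pow_two]
    linarith
  have hmain := hc k hk1
  have hR : 200 * (1 + k * Real.log (2 * p)) * ((T1 : ℝ) + (2 * p) ^ k) * (k.factorial * p ^ k) ≤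
      400 * L ^ 2 * ((2 : ℝ) ^ k * k.factorial) * (p ^ k * p ^ k) := by
    have h1 : (T1 : ℝ) + (2 * p) ^ k ≤ 2 * (2 ^ k * p ^ k) := by
      rw [mul_pow]
      have h2 : (1 : ℝ) ≤ 2 ^ k := one_le_pow₀ (by norm_num)
      have h3 : p ^ k ≤ 2 ^ k * p ^ k := le_mul_of_one_le_left hpk0.le h2
      linarith
    calc 200 * (1 + k * Real.log (2 * p)) * ((T1 : ℝ) + (2 * p) ^ k) * (k.factorial * p ^ k) ≤
          200 * L ^ 2 * (2 * (2 ^ k * p ^ k)) * (k.factorial * p ^ k) := by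
          refine mul_le_mul_of_nonneg_right ?_ (by positivity)
          refine mul_le_mul ?_ h1 (by positivity) (by positivity)
          linarith
      _ = 400 * L ^ 2 * ((2 : ℝ) ^ k * k.factorial) * (p ^ k * p ^ k) := by ring
  have hLHS : (p ^ (-α) * p) ^ (2 * k) = (p ^ (-α)) ^ (2 * k) * (p ^ k * p ^ k) := by
    rw [mul_pow]
    congr 1
    rw [two_mul, pow_add]
  rw [hLHS, ← mul_assoc] at hmain
  have h5 : c * (p ^ (-α)) ^ (2 * k) ≤ 400 * L ^ 2 * ((2 : ℝ) ^ k * k.factorial) :=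
    le_of_mul_le_mul_right (hmain.trans hR) (by positivity)
  have h6 : (p ^ (-α)) ^ (2 * k) * (p ^ k) ^ (2 * α) = 1 := by
    rw [← Real.rpow_natCast (p ^ (-α)) (2 * k), ← Real.rpow_mul hp0.le, ← Real.rpow_natCast p k,
      ← Real.rpow_mul hp0.le, ← Real.rpow_add hp0]
    have : -α * ((2 * k : ℕ) : ℝ) + (k : ℝ) * (2 * α) = 0 := by
      push_cast
      ring
    rw [this, Real.rpow_zero]
  have h7 : (p ^ k) ^ (2 * α) ≤ x ^ (3 * α) := by
    calc (p ^ k) ^ (2 * α) ≤ (x ^ ((6 : ℝ) / 5)) ^ (2 * α) :=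
          Real.rpow_le_rpow hpk0.le hpx (by linarith)
      _ = x ^ ((6 : ℝ) / 5 * (2 * α)) := (Real.rpow_mul hx0.le _ _).symm
      _ ≤ x ^ (3 * α) := Real.rpow_le_rpow_of_exponent_le hx (by linarith)
  calc c = c * (p ^ (-α)) ^ (2 * k) * (p ^ k) ^ (2 * α) := by rw [mul_assoc, h6, mul_one]
    _ ≤ 400 * L ^ 2 * ((2 : ℝ) ^ k * k.factorial) * (p ^ k) ^ (2 * α) :=
        mul_le_mul_of_nonneg_right h5 (Real.rpow_nonneg hpk0.le _)
    _ ≤ 400 * L ^ 2 * (L * x ^ (2 / B0)) * x ^ (3 * α) := by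
        refine mul_le_mul ?_ h7 (Real.rpow_nonneg hpk0.le _) (by positivity)
        exact mul_le_mul_of_nonneg_left (h2kk.trans hLk) (by positivity)
    _ = 400 * L ^ 3 * (x ^ (3 * α) * x ^ (2 / B0)) := by ring
    _ = 400 * L ^ 3 * x ^ (3 * α + 2 / B0) := by rw [← Real.rpow_add hx0]
    _ ≤ L ^ 4 * x ^ (3 * α + 2 / B0) := by
        refine mul_le_mul_of_nonneg_right ?_ (Real.rpow_nonneg hx0.le _)
        have : L ^ 4 = L * L ^ 3 := by ring
        rw [this]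
        exact mul_le_mul_of_nonneg_right hL (by positivity)

private lemma Dmn_wt (ρ : ℕ → ℝ) (Z v : ℕ) (hρ : ∀ l, |ρ l| ≤ 1) (hv : v ≠ 0) :
    |wt ρ Z v| ≤ (v.divisors.card : ℝ) := by
  unfold wt
  refine (abs_sum_le_sum_abs _ _).trans ?_
  refine (sum_le_sum fun l _ => hρ l).trans ?_
  rw [sum_const, nsmul_eq_mul, mul_one]
  have : (Icc 1 Z).filter (fun l => l ∣ v) ⊆ v.divisors := by
    intro l hl
    rw [mem_filter] at hl
    exact Nat.mem_divisors.2 ⟨hl.2, hv⟩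
  exact_mod_cast card_le_card this

/-- the part of the typical m: numbers -/
private lemma Dmn_typ (L A α B0 X G : ℝ) (hL : 400 ≤ L) (hα : 0 < α) (hB0 : A + 30 ≤ 2 * α * B0)
    (P : ℝ) (hP : L ^ B0 ≤ P) (Y : ℝ) (hY0 : 0 ≤ Y) (hY : Y ≤ 2 * L)
    (hG : G ≤ (P ^ (-α) * P) ^ 2 * (200 * Y * (5 * X) * (4 * X * Y ^ 16))) :
    G ≤ (P * X) ^ 2 * (L ^ (-A) / 2) := by
  have hL0 : 0 < L := by linarith
  have hP0 : 0 < P := lt_of_lt_of_le (Real.rpow_pos_of_pos hL0 _) hP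
  have h1 : (P ^ (-α)) ^ 2 ≤ L ^ (-(A + 30)) := by
    have h2 : P ^ (-α) ≤ (L ^ B0) ^ (-α) :=
      Real.rpow_le_rpow_of_nonpos (Real.rpow_pos_of_pos hL0 _) hP (by linarith)
    calc (P ^ (-α)) ^ 2 ≤ ((L ^ B0) ^ (-α)) ^ 2 :=
          pow_le_pow_left₀ (Real.rpow_nonneg hP0.le _) h2 2
      _ = L ^ (-(2 * α * B0)) := by
          rw [← Real.rpow_mul hL0.le, ← Real.rpow_natCast, ← Real.rpow_mul hL0.le]
          congr 1
          push_cast
          ring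
      _ ≤ L ^ (-(A + 30)) := Real.rpow_le_rpow_of_exponent_le (by linarith) (by linarith)
  have h3 : Y ^ 17 ≤ (2 * L) ^ 17 := pow_le_pow_left₀ hY0 hY 17
  have h4 : L ^ (-(A + 30)) = L ^ (-A) * (L ^ 30)⁻¹ := by
    rw [neg_add, Real.rpow_add hL0, Real.rpow_neg hL0.le 30]
    congr 2
    exact_mod_cast Real.rpow_natCast L 30
  have hA0 : 0 < L ^ (-A) := Real.rpow_pos_of_pos hL0 _
  calc G ≤ (P ^ (-α) * P) ^ 2 * (200 * Y * (5 * X) * (4 * X * Y ^ 16)) := hG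
    _ = (P ^ (-α)) ^ 2 * Y ^ 17 * (4000 * (P * X) ^ 2) := by ring
    _ ≤ L ^ (-(A + 30)) * (2 * L) ^ 17 * (4000 * (P * X) ^ 2) := by
        refine mul_le_mul_of_nonneg_right ?_ (by positivity)
        exact mul_le_mul h1 h3 (by positivity) (Real.rpow_nonneg hL0.le _)
    _ = L ^ (-A) * ((P * X) ^ 2 * (4000 * 2 ^ 17 * ((L ^ 30)⁻¹ * L ^ 17))) := by
        rw [h4, mul_pow]
        ring
    _ ≤ L ^ (-A) * ((P * X) ^ 2 * (1 / 2)) := by
        refine mul_le_mul_of_nonneg_left ?_ hA0.le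
        refine mul_le_mul_of_nonneg_left ?_ (by positivity)
        have h5 : (L ^ 30)⁻¹ * L ^ 17 = (L ^ 13)⁻¹ := by
          have : L ^ 30 = L ^ 13 * L ^ 17 := by rw [← pow_add]
          rw [this, mul_inv, mul_assoc, inv_mul_cancel₀ (by positivity), mul_one]
        have h6 : (400 : ℝ) ^ 13 ≤ L ^ 13 := pow_le_pow_left₀ (by norm_num) hL 13
        have h7 : (L ^ 13)⁻¹ ≤ ((400 : ℝ) ^ 13)⁻¹ := inv_anti₀ (by norm_num) h6
        rw [h5]
        refine (mul_le_mul_of_nonneg_left h7 (by norm_num)).trans ?_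
        norm_num
    _ = (P * X) ^ 2 * (L ^ (-A) / 2) := by ring

/-- the part of the exceptional m: numbers -/
private lemma Dmn_exc (x A C σ ε α B0 X E : ℝ) (hx : 1 ≤ x) (hL : 400 ≤ Real.log x) (hC : 0 < C)
    (hL6 : 128 * C ^ 2 ≤ Real.log x) (hB : 2 / B0 ≤ ε * σ / 16) (hα : α = ε * σ / 48)
    (h7 : 32 * C ^ 2 * Real.log x ^ (A + 6) ≤ x ^ (3 * ε * σ / 8))
    (hE : E ≤ Real.log x ^ 4 * x ^ (3 * α + 2 / B0)) :
    8 * C ^ 2 * Real.log x ^ 2 * X ^ 2 * (4 / Real.log x ^ (A + 8) + E * x ^ (-(ε * σ / 2))) ≤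
      X ^ 2 * (Real.log x ^ (-A) / 2) := by
  set L := Real.log x with hLd
  have hL0 : 0 < L := by linarith
  have hx0 : 0 < x := by linarith
  have hA0 : 0 < L ^ (-A) := Real.rpow_pos_of_pos hL0 _
  have h1 : L ^ 2 * (4 / L ^ (A + 8)) = 4 * (L ^ (-A) * (L ^ 6)⁻¹) := by
    have e : L ^ (A + 8) = L ^ A * L ^ 8 := by
      rw [Real.rpow_add hL0]
      congr 1
      exact_mod_cast Real.rpow_natCast L 8
    have e2 : L ^ 8 = L ^ 2 * L ^ 6 := by rw [← pow_add]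
    rw [e, e2, Real.rpow_neg hL0.le]
    have := (Real.rpow_pos_of_pos hL0 A).ne'
    field_simp
  have h2 : 8 * C ^ 2 * (L ^ 2 * (4 / L ^ (A + 8))) ≤ L ^ (-A) / 4 := by
    rw [h1]
    have h3 : L ≤ L ^ 6 := by
      calc L = L ^ 1 := (pow_one L).symm
        _ ≤ L ^ 6 := pow_le_pow_right₀ (by linarith) (by norm_num)
    have h4 : 32 * C ^ 2 * (L ^ 6)⁻¹ ≤ 1 / 4 := by
      rw [← div_eq_mul_inv, div_le_iff₀ (by positivity)]
      linarith
    calc 8 * C ^ 2 * (4 * (L ^ (-A) * (L ^ 6)⁻¹)) = L ^ (-A) * (32 * C ^ 2 * (L ^ 6)⁻¹) := by ring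
      _ ≤ L ^ (-A) * (1 / 4) := mul_le_mul_of_nonneg_left h4 hA0.le
      _ = L ^ (-A) / 4 := by ring
  have h5 : E * x ^ (-(ε * σ / 2)) ≤ L ^ 4 * x ^ (-(3 * ε * σ / 8)) := by
    calc E * x ^ (-(ε * σ / 2)) ≤ L ^ 4 * x ^ (3 * α + 2 / B0) * x ^ (-(ε * σ / 2)) :=
          mul_le_mul_of_nonneg_right hE (Real.rpow_nonneg hx0.le _)
      _ = L ^ 4 * x ^ (3 * α + 2 / B0 + -(ε * σ / 2)) := by rw [mul_assoc, ← Real.rpow_add hx0]
      _ ≤ L ^ 4 * x ^ (-(3 * ε * σ / 8)) := by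
          refine mul_le_mul_of_nonneg_left ?_ (by positivity)
          refine Real.rpow_le_rpow_of_exponent_le hx ?_
          rw [hα]
          linarith
  have h6 : 8 * C ^ 2 * (L ^ 2 * (E * x ^ (-(ε * σ / 2)))) ≤ L ^ (-A) / 4 := by
    have e1 : L ^ (A + 6) = L ^ A * L ^ 6 := by
      rw [Real.rpow_add hL0]
      congr 1
      exact_mod_cast Real.rpow_natCast L 6
    have hxp : 0 < x ^ (3 * ε * σ / 8) := Real.rpow_pos_of_pos hx0 _
    have hAp : 0 < L ^ A := Real.rpow_pos_of_pos hL0 _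
    calc 8 * C ^ 2 * (L ^ 2 * (E * x ^ (-(ε * σ / 2)))) ≤
          8 * C ^ 2 * (L ^ 2 * (L ^ 4 * x ^ (-(3 * ε * σ / 8)))) := by
          refine mul_le_mul_of_nonneg_left ?_ (by positivity)
          exact mul_le_mul_of_nonneg_left h5 (by positivity)
      _ = 8 * C ^ 2 * L ^ 6 / x ^ (3 * ε * σ / 8) := by
          rw [Real.rpow_neg hx0.le]
          ring
      _ ≤ L ^ (-A) / 4 := by
          rw [div_le_iff₀ hxp, Real.rpow_neg hL0.le]
          rw [e1] at h7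
          have h8 : 8 * C ^ 2 * L ^ 6 = (L ^ A)⁻¹ / 4 * (32 * C ^ 2 * (L ^ A * L ^ 6)) := by
            field_simp
            norm_num
          rw [h8]
          exact mul_le_mul_of_nonneg_left h7 (by positivity)
  calc 8 * C ^ 2 * L ^ 2 * X ^ 2 * (4 / L ^ (A + 8) + E * x ^ (-(ε * σ / 2))) =
        X ^ 2 * (8 * C ^ 2 * (L ^ 2 * (4 / L ^ (A + 8))) + 8 * C ^ 2 * (L ^ 2 * (E * x ^ (-(ε * σ / 2))))) := by
        ring
    _ ≤ X ^ 2 * (L ^ (-A) / 4 + L ^ (-A) / 4) :=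
        mul_le_mul_of_nonneg_left (add_le_add h2 h6) (by positivity)
    _ = X ^ 2 * (L ^ (-A) / 2) := by ring

/-- sizes -/
private lemma Dmn_siz (x ε B0 : ℝ) (D P V Z T1 : ℕ) (hx : 1 ≤ x) (hε : 0 < ε) (hL : 400 ≤ Real.log x) (hB0 : 1 ≤ B0)
    (h16 : 16 ≤ x ^ ((1 : ℝ) / 5)) (hD1 : 1 ≤ D) (hZ1 : 1 ≤ Z) (hX4 : (D : ℝ) * P * V ≤ 4 * x)
    (hVZ : x ^ (ε / 2) * Z ≤ V) (hPL : Real.log x ^ B0 ≤ P) (hP10 : (P : ℝ) ≤ x ^ ((1 : ℝ) / 10))
    (hT1V : (T1 : ℝ) ≤ (D : ℝ) * V) :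
    1 ≤ P ∧ 1 ≤ V ∧ 1 ≤ 4 * ((D * V : ℕ) : ℝ) ∧ 1 + Real.log (4 * (D * V : ℕ)) ≤ 2 * Real.log x ∧
      1 + Real.log Z ≤ 2 * Real.log x ∧ 2 * (P : ℝ) ≤ x ∧ (P : ℝ) * T1 ≤ x ^ ((6 : ℝ) / 5) ∧ (D : ℝ) * V ≤ x := by
  have hx0 : 0 < x := by linarith
  have hPL1 : Real.log x ≤ (P : ℝ) := by
    have h : Real.log x ^ (1 : ℝ) ≤ Real.log x ^ B0 := Real.rpow_le_rpow_of_exponent_le (by linarith) hB0
    rw [Real.rpow_one] at h
    exact h.trans hPL
  have hP1r : (1 : ℝ) ≤ P := by linarith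
  have hP0r : (0 : ℝ) < P := by linarith
  have hD1r : (1 : ℝ) ≤ D := by exact_mod_cast hD1
  have hZ1r : (1 : ℝ) ≤ Z := by exact_mod_cast hZ1
  have hxε : 1 ≤ x ^ (ε / 2) := Real.one_le_rpow hx (by positivity)
  have hZV : (Z : ℝ) ≤ V := (le_mul_of_one_le_left (by linarith) hxε).trans hVZ
  have hV1r : (1 : ℝ) ≤ V := hZ1r.trans hZV
  have hDV1 : 1 ≤ (D : ℝ) * V := one_le_mul_of_one_le_of_one_le hD1r hV1r
  have hPDV : (P : ℝ) * (D * V) ≤ 4 * x := by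
    have : (P : ℝ) * (D * V) = (D : ℝ) * P * V := by ring
    rw [this]
    exact hX4
  have h4x : 4 * x ≤ x ^ ((6 : ℝ) / 5) := by
    have h : x ^ ((6 : ℝ) / 5) = x * x ^ ((1 : ℝ) / 5) := by
      rw [← Real.rpow_one_add' hx0.le (by norm_num)]
      norm_num
    rw [h]
    calc 4 * x = x * 4 := by ring
      _ ≤ x * x ^ ((1 : ℝ) / 5) := mul_le_mul_of_nonneg_left (by linarith) hx0.le
  have hDVx : (D : ℝ) * V ≤ x := by
    have h : 4 * ((D : ℝ) * V) ≤ (P : ℝ) * (D * V) :=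
      mul_le_mul_of_nonneg_right (by linarith) (by linarith)
    linarith
  have hVx : (V : ℝ) ≤ x := (le_mul_of_one_le_left (by linarith) hD1r).trans hDVx
  have h4DV : 1 ≤ 4 * ((D * V : ℕ) : ℝ) := by
    push_cast
    linarith
  refine ⟨by exact_mod_cast hP1r, by exact_mod_cast hV1r, h4DV, ?_, ?_, ?_, ?_, hDVx⟩
  · have hh : 4 * ((D * V : ℕ) : ℝ) ≤ x ^ ((6 : ℝ) / 5) := by
      push_cast
      linarith
    have h7 := Real.log_le_log (by linarith) hh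
    rw [Real.log_rpow hx0] at h7
    linarith
  · have := Real.log_le_log (by linarith) (hZV.trans hVx)
    linarith
  · have h : x ^ ((1 : ℝ) / 10) * x ^ ((1 : ℝ) / 5) ≤ x := by
      rw [← Real.rpow_add hx0]
      calc x ^ ((1 : ℝ) / 10 + 1 / 5) ≤ x ^ (1 : ℝ) := Real.rpow_le_rpow_of_exponent_le hx (by norm_num)
        _ = x := Real.rpow_one x
    calc 2 * (P : ℝ) ≤ x ^ ((1 : ℝ) / 5) * x ^ ((1 : ℝ) / 10) :=
          mul_le_mul (by linarith) hP10 hP0r.le (by linarith)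
      _ ≤ x := by rw [mul_comm]; exact h
  · have : (P : ℝ) * T1 ≤ P * (D * V) := mul_le_mul_of_nonneg_left hT1V hP0r.le
    linarith

/-- the bound of one exceptional term -/
private lemma Dmn_sq (C L a b X Y : ℝ) (hY0 : 0 ≤ Y) (hY : Y ≤ X * (C * (2 * L)) * (1 / a + b)) :
    Y ^ 2 ≤ 8 * C ^ 2 * L ^ 2 * X ^ 2 * (1 / a ^ 2 + b ^ 2) := by
  have h1 : (1 / a + b) ^ 2 ≤ 2 * ((1 / a) ^ 2 + b ^ 2) := add_sq_le
  have h2 : (1 / a) ^ 2 = 1 / a ^ 2 := by rw [div_pow, one_pow]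
  rw [h2] at h1
  calc Y ^ 2 ≤ (X * (C * (2 * L)) * (1 / a + b)) ^ 2 := pow_le_pow_left₀ hY0 hY 2
    _ = 4 * C ^ 2 * L ^ 2 * X ^ 2 * (1 / a + b) ^ 2 := by ring
    _ ≤ 4 * C ^ 2 * L ^ 2 * X ^ 2 * (2 * (1 / a ^ 2 + b ^ 2)) := mul_le_mul_of_nonneg_left h1 (by positivity)
    _ = 8 * C ^ 2 * L ^ 2 * X ^ 2 * (1 / a ^ 2 + b ^ 2) := by ring

private lemma Dmn_sum (s : Finset ℕ) (c : ℕ → ℂ) (m : ℤ) (hc : ∀ d, ‖c d‖ ≤ 1) : ‖∑ d ∈ s, c d * lp m d‖ ≤ s.card := by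
  refine (norm_sum_le _ _).trans ?_
  refine (sum_le_sum (g := fun _ => (1 : ℝ)) fun d _ => ?_).trans ?_
  · rw [norm_mul, Dmn_lp, mul_one]
    exact hc d
  · rw [sum_const, nsmul_eq_mul, mul_one]

/-- the size of m -/
private lemma Dmn_mR (x ε : ℝ) (R : ℕ) (y : ℝ) (hx : 1 ≤ x) (hε : 0 < ε) (hR : 8 / ε ≤ R) (hy : y ≤ x) :
    y ≤ (x ^ (ε / 4)) ^ R := by
  have hx0 : 0 < x := by linarith
  have h5 : x ^ (1 : ℝ) ≤ (x ^ (ε / 4)) ^ R := by
    rw [← Real.rpow_natCast, ← Real.rpow_mul hx0.le]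
    refine Real.rpow_le_rpow_of_exponent_le hx ?_
    calc (1 : ℝ) ≤ 2 := by norm_num
      _ = ε / 4 * (8 / ε) := by field_simp; norm_num
      _ ≤ ε / 4 * R := mul_le_mul_of_nonneg_left hR (by positivity)
  rw [Real.rpow_one] at h5
  exact hy.trans h5

/-- Module Dmn. -/
theorem tDmn (h1 : DfaStmt) (h2 : DexStmt) (h3 : DpwStmt) (h4 : DtyStmt) : DmnStmt := by
  classical
  intro ε A β hε hε1 hA hβ
  set R : ℕ := ⌈8 / ε⌉₊ with hR
  have hR8 : 8 / ε ≤ R := Nat.le_ceil _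
  obtain ⟨C, σ, hC, hσ, hσ1, hD⟩ := h3 R
  have hεσ : 0 < ε * σ := mul_pos hε hσ
  have hεσ1 : ε * σ ≤ 1 / 10 := by
    calc ε * σ ≤ 1 / 10 * 1 := mul_le_mul hε1 hσ1 hσ.le (by norm_num)
      _ = 1 / 10 := by norm_num
  set α : ℝ := ε * σ / 48 with hα
  have hα0 : 0 < α := by positivity
  set B0 : ℝ := max β (max ((A + 30) / (2 * α)) (32 / (ε * σ))) with hB0
  have hB1 : β ≤ B0 := le_max_left _ _
  have hB2 : A + 30 ≤ 2 * α * B0 := by
    have h : (A + 30) / (2 * α) ≤ B0 := (le_max_left _ _).trans (le_max_right _ _)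
    rw [div_le_iff₀ (by positivity)] at h
    linarith
  have hB3 : 32 / (ε * σ) ≤ B0 := (le_max_right _ _).trans (le_max_right _ _)
  have hB32 : 32 ≤ B0 := by
    refine le_trans ?_ hB3
    rw [le_div_iff₀ hεσ]
    linarith
  have hB0p : 0 < B0 := by linarith
  have hB4 : 2 / B0 ≤ ε * σ / 16 := by
    rw [div_le_iff₀ hεσ] at hB3
    rw [div_le_iff₀ hB0p]
    linarith
  obtain ⟨x1, hx1, e1⟩ := Dmn_ev 0 (ε / 4) 2 (by positivity)
  obtain ⟨x2, hx2, e2⟩ := Dmn_ev β (ε / 4) 1 (by positivity)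
  obtain ⟨x3, hx3, e3⟩ := Dmn_ev 0 (1 / 5) 16 (by norm_num)
  obtain ⟨x4, hx4, e4⟩ := Dmn_ev (A + 6) (3 * ε * σ / 8) (32 * C ^ 2) (by positivity)
  have hB01 : 1 ≤ B0 := hβ.trans hB1
  refine ⟨B0, A + 8, max (Real.exp (400 + 128 * C ^ 2)) (max x1 (max x2 (max x3 (max x4 3)))), hB01,
    hB1, by linarith, ?_, ?_⟩
  · exact (le_max_right _ _).trans ((le_max_right _ _).trans ((le_max_right _ _).trans
      ((le_max_right _ _).trans (le_max_right _ _))))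
  intro x D P V Z T1 q κ S c ρ hx hD1 hZ1 hT1 hX4 hVZ hPL hP10 hT1V hq1 hqL hS hc hρ hρp
  have hxe : Real.exp (400 + 128 * C ^ 2) ≤ x := (le_max_left _ _).trans hx
  have hxr := (le_max_right _ _).trans hx
  have f1 := e1 x ((le_max_left _ _).trans hxr)
  have hxr2 := (le_max_right _ _).trans hxr
  have f2 := e2 x ((le_max_left _ _).trans hxr2)
  have hxr3 := (le_max_right _ _).trans hxr2
  have f3 := e3 x ((le_max_left _ _).trans hxr3)
  have hxr4 := (le_max_right _ _).trans hxr3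
  have f4 := e4 x ((le_max_left _ _).trans hxr4)
  have hx3' : (3 : ℝ) ≤ x := (le_max_right _ _).trans hxr4
  have hx0 : 0 < x := lt_of_lt_of_le (by norm_num) hx3'
  have hx1' : 1 ≤ x := le_trans (by norm_num) hx3'
  clear e1 e2 e3 e4 hx hxr hxr2 hxr3 hxr4 hx1 hx2 hx3 hx4 hx3'
  set L := Real.log x with hLd
  have hL' : 400 + 128 * C ^ 2 ≤ L := by
    rw [hLd, Real.le_log_iff_exp_le hx0]
    exact hxe
  have hC2 : 0 < C ^ 2 := pow_pos hC 2
  have hL : 400 ≤ L := (le_add_of_nonneg_right (by positivity)).trans hL'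
  have hLC : 128 * C ^ 2 ≤ L := (le_add_of_nonneg_left (by norm_num)).trans hL'
  have hL0 : 0 < L := lt_of_lt_of_le (by norm_num) hL
  rw [Real.rpow_zero, mul_one] at f1 f3
  rw [one_mul] at f2
  obtain ⟨hP1, hV1, h4DV, hYL, hlogZ, h2P, hPT, hDVx⟩ :=
    Dmn_siz x ε B0 D P V Z T1 hx1' hε hL hB01 f3 hD1 hZ1 hX4 hVZ hPL hP10 hT1V
  have hP0r : (0 : ℝ) < P := by exact_mod_cast hP1
  -- the weight at v = 0
  set w0 : ℕ → ℂ := fun v => if v % q = κ then ((wt ρ Z v : ℝ) : ℂ) else 0 with hw0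
  set w : ℕ → ℂ := fun v => if v = 0 then 0 else w0 v with hw
  have hww : ∀ v ∈ Ico V (2 * V), w0 v = w v := by
    intro v hv
    have hv0 : v ≠ 0 := Nat.one_le_iff_ne_zero.1 (hV1.trans (mem_Ico.1 hv).1)
    simp only [hw, if_neg hv0]
  have hwb : ∀ v, ‖w v‖ ≤ (v.divisors.card : ℝ) := by
    intro v
    simp only [hw]
    split_ifs with h
    · rw [norm_zero]
      exact Nat.cast_nonneg _
    · simp only [hw0]
      split_ifs
      · rw [Complex.norm_real]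
        exact Dmn_wt ρ Z v hρ h
      · rw [norm_zero]
        exact Nat.cast_nonneg _
  have hgg : gg D V S c w0 = gg D V S c w := by
    funext m
    unfold gg
    refine sum_congr rfl fun d _ => sum_congr rfl fun p _ => sum_congr rfl fun v hv => ?_
    rw [hww v hv]
  rw [hgg]
  set g : ℤ → ℝ := fun m => ‖GD (8 * (D * P * V)) (gg D V S c w) m‖ ^ 2 with hg
  have hg0 : ∀ m, 0 ≤ g m := fun m => pow_nonneg (norm_nonneg _) 2
  set γ : ℝ := (P : ℝ) ^ (-α) with hγ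
  have hγ0 : 0 < γ := Real.rpow_pos_of_pos hP0r _
  set F : Finset ℤ := (Icc (-(T1 : ℤ)) T1).filter (fun m : ℤ => L ^ (A + 8) < |(m : ℝ)|) with hF
  have hSb : ∀ p ∈ S, P < p ∧ p ≤ 2 * P := fun p hp => (hS p hp).2
  -- typical m
  have hT : ∑ m ∈ F.filter (fun m : ℤ => ‖∑ p ∈ S, lp m p‖ < γ * P), g m ≤
      ((P : ℝ) * (D * V)) ^ 2 * (L ^ (-A) / 2) := by
    have h5 := h4 D P V T1 S c w γ hD1 hP1 hV1 hT1 hγ0.le hSb hc hwb
    have h6 : ∑ m ∈ F.filter (fun m : ℤ => ‖∑ p ∈ S, lp m p‖ < γ * P), g m ≤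
        ∑ m ∈ (Icc (-(T1 : ℤ)) T1).filter (fun m : ℤ => ‖∑ p ∈ S, lp m p‖ < γ * P), g m :=
      sum_le_sum_of_subset_of_nonneg (filter_subset_filter _ (filter_subset _ _)) fun m _ _ => hg0 m
    have hY0 : 0 ≤ 1 + Real.log (4 * (D * V : ℕ)) := add_nonneg zero_le_one (Real.log_nonneg h4DV)
    refine Dmn_typ L A α B0 ((D : ℝ) * V) _ hL hα0 hB2 P hPL (1 + Real.log (4 * (D * V : ℕ))) hY0 hYL
      (h6.trans (h5.trans ?_))
    refine mul_le_mul_of_nonneg_left ?_ (pow_nonneg (mul_nonneg hγ0.le hP0r.le) 2)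
    generalize 1 + Real.log (4 * (D * V : ℕ)) = Y at hY0
    have h8 : (T1 : ℝ) + 4 * (D * V : ℕ) ≤ 5 * ((D : ℝ) * V) := by
      rw [Nat.cast_mul]
      calc (T1 : ℝ) + 4 * ((D : ℝ) * V) ≤ (D : ℝ) * V + 4 * ((D : ℝ) * V) := add_le_add_left hT1V _
        _ = 5 * ((D : ℝ) * V) := by ring
    calc 200 * Y * ((T1 : ℝ) + 4 * (D * V : ℕ)) * (4 * (D * V : ℕ) * Y ^ 16) ≤
          200 * Y * (5 * ((D : ℝ) * V)) * (4 * (D * V : ℕ) * Y ^ 16) := by
          refine mul_le_mul_of_nonneg_right ?_ (by positivity)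
          exact mul_le_mul_of_nonneg_left h8 (by positivity)
      _ = _ := by rw [Nat.cast_mul]
  -- exceptional m
  have hpt : ∀ m ∈ F.filter (fun m : ℤ => ¬ ‖∑ p ∈ S, lp m p‖ < γ * P),
      g m ≤ 8 * C ^ 2 * L ^ 2 * ((P : ℝ) * (D * V)) ^ 2 * (1 / |(m : ℝ)| ^ 2 + x ^ (-(ε * σ / 2))) := by
    intro m hm
    have hm1 := (mem_filter.1 ((mem_filter.1 hm).1))
    have hm2 := mem_Icc.1 hm1.1
    have hm3 : L ^ (A + 8) < |(m : ℝ)| := hm1.2
    have hm0 : m ≠ 0 := by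
      intro h
      rw [h, Int.cast_zero, abs_zero] at hm3
      exact absurd hm3 (not_lt.2 (Real.rpow_nonneg hL0.le _))
    have hmT : |(m : ℝ)| ≤ T1 := by
      rw [abs_le]
      constructor
      · exact_mod_cast hm2.1
      · exact_mod_cast hm2.2
    have hK0R : |(m : ℝ)| ≤ (x ^ (ε / 4)) ^ R := Dmn_mR x ε R _ hx1' hε hR8 (hmT.trans (hT1V.trans hDVx))
    have hKq : x ^ (ε / 4) * q * Z ≤ V := by
      refine le_trans ?_ hVZ
      refine mul_le_mul_of_nonneg_right ?_ (Nat.cast_nonneg _)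
      have h6 : x ^ (ε / 2) = x ^ (ε / 4) * x ^ (ε / 4) := by
        rw [← Real.rpow_add hx0]
        congr 1
        ring
      rw [h6]
      exact mul_le_mul_of_nonneg_left (hqL.trans f2) (Real.rpow_nonneg hx0.le _)
    have hcop : ∀ l, ρ l ≠ 0 → l.Coprime q := by
      intro l hl
      refine Nat.Coprime.symm (Nat.coprime_of_dvd fun p hp hpq hpl => ?_)
      have h6 := hρp l hl p hp hpl
      have h7 : (p : ℝ) ≤ q := by exact_mod_cast Nat.le_of_dvd hq1 hpq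
      exact absurd (h7.trans hqL) (not_le.2 h6)
    have hW := hD V Z q κ m ρ (x ^ (ε / 4)) f1 hZ1 hq1 hKq hm0 hK0R hρ hcop
    have hW2 : ‖∑ v ∈ Ico V (2 * V), w v * lp m v‖ ≤
        C * (2 * L) * V * (1 / |(m : ℝ)| + x ^ (-(ε * σ / 4))) := by
      have e5 : ∑ v ∈ Ico V (2 * V), w v * lp m v =
          ∑ v ∈ Ico V (2 * V), (if v % q = κ then ((wt ρ Z v : ℝ) : ℂ) else 0) * lp m v :=
        sum_congr rfl fun v hv => by rw [← hww v hv]
      have e6 : (x ^ (ε / 4)) ^ (-σ) = x ^ (-(ε * σ / 4)) := by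
        rw [← Real.rpow_mul hx0.le]
        congr 1
        ring
      rw [e5]
      refine hW.trans ?_
      rw [e6]
      refine mul_le_mul_of_nonneg_right ?_ (add_nonneg (by positivity) (Real.rpow_nonneg hx0.le _))
      refine mul_le_mul_of_nonneg_right ?_ (Nat.cast_nonneg _)
      exact mul_le_mul_of_nonneg_left hlogZ hC.le
    have hCm : ‖∑ d ∈ Ioc D (2 * D), c d * lp m d‖ ≤ D := by
      refine (Dmn_sum _ c m hc).trans ?_
      rw [Nat.card_Ioc]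
      have : 2 * D - D = D := by omega
      rw [this]
    have hPm : ‖∑ p ∈ S, lp m p‖ ≤ P := by
      have h5 := Dmn_sum S (fun _ => 1) m (fun _ => by rw [norm_one])
      simp only [one_mul] at h5
      refine h5.trans ?_
      have h6 : S ⊆ Ioc P (2 * P) := fun p hp => mem_Ioc.2 (hSb p hp)
      have h7 := card_le_card h6
      rw [Nat.card_Ioc] at h7
      have : 2 * P - P = P := by omega
      rw [this] at h7
      exact_mod_cast h7
    have hfac := (h1 D P V S c w hD1 hP1 hV1 hSb hc hwb).1 m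
    have hg1 : ‖GD (8 * (D * P * V)) (gg D V S c w) m‖ ≤
        ((P : ℝ) * (D * V)) * (C * (2 * L)) * (1 / |(m : ℝ)| + x ^ (-(ε * σ / 4))) := by
      rw [hfac, norm_mul, norm_mul]
      refine (mul_le_mul (mul_le_mul hCm hPm (norm_nonneg _) (Nat.cast_nonneg _)) hW2 (norm_nonneg _)
        (mul_nonneg (Nat.cast_nonneg _) (Nat.cast_nonneg _))).trans (le_of_eq ?_)
      ring
    have e7 : x ^ (-(ε * σ / 2)) = (x ^ (-(ε * σ / 4))) ^ 2 := by
      rw [← Real.rpow_natCast, ← Real.rpow_mul hx0.le]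
      congr 1
      push_cast
      ring
    rw [e7]
    exact Dmn_sq C L _ _ _ _ (norm_nonneg _) hg1
  have hEx : ∑ m ∈ F.filter (fun m : ℤ => ¬ ‖∑ p ∈ S, lp m p‖ < γ * P), g m ≤
      ((P : ℝ) * (D * V)) ^ 2 * (L ^ (-A) / 2) := by
    have hL8 : 1 ≤ L ^ (A + 8) := Real.one_le_rpow (le_trans (by norm_num) hL) (add_nonneg hA.le (by norm_num))
    set E : ℝ := ((F.filter (fun m : ℤ => ¬ ‖∑ p ∈ S, lp m p‖ < γ * P)).card : ℝ) with hE
    have hEb : E ≤ L ^ 4 * x ^ (3 * α + 2 / B0) := by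
      refine Dmn_card x α B0 E P T1 hL hx1' hα0 hB32 hPL h2P hT1 hPT fun k hk => ?_
      have h5 := h2 P T1 k S γ hP1 hT1 hk hγ0 hS
      have h6 : E ≤ (((Icc (-(T1 : ℤ)) T1).filter (fun m : ℤ => γ * P ≤ ‖∑ p ∈ S, lp m p‖)).card : ℝ) := by
        rw [hE]
        have h7 : F.filter (fun m : ℤ => ¬ ‖∑ p ∈ S, lp m p‖ < γ * P) ⊆
            (Icc (-(T1 : ℤ)) T1).filter (fun m : ℤ => γ * P ≤ ‖∑ p ∈ S, lp m p‖) := by
          intro m hm
          rw [mem_filter] at hm ⊢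
          exact ⟨(mem_filter.1 hm.1).1, not_lt.1 hm.2⟩
        exact_mod_cast card_le_card h7
      exact (mul_le_mul_of_nonneg_right h6 (pow_nonneg (mul_nonneg hγ0.le hP0r.le) _)).trans h5
    have hinv2 : ∑ m ∈ F.filter (fun m : ℤ => ¬ ‖∑ p ∈ S, lp m p‖ < γ * P), 1 / |(m : ℝ)| ^ 2 ≤
        4 / L ^ (A + 8) :=
      (sum_le_sum_of_subset_of_nonneg (filter_subset _ _) fun m _ _ => by positivity).trans
        (Dmn_inv T1 (L ^ (A + 8)) hL8)
    have hK0 : 0 ≤ 8 * C ^ 2 * L ^ 2 * ((P : ℝ) * (D * V)) ^ 2 := by positivity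
    refine le_trans ?_ (Dmn_exc x A C σ ε α B0 ((P : ℝ) * (D * V)) E hx1' hL hC hLC hB4 hα f4 hEb)
    refine (sum_le_sum hpt).trans ?_
    rw [← mul_sum, sum_add_distrib, sum_const, nsmul_eq_mul]
    exact mul_le_mul_of_nonneg_left (add_le_add_left hinv2 _) hK0
  calc ∑ m ∈ F, g m = ∑ m ∈ F.filter (fun m : ℤ => ‖∑ p ∈ S, lp m p‖ < γ * P), g m +
        ∑ m ∈ F.filter (fun m : ℤ => ¬ ‖∑ p ∈ S, lp m p‖ < γ * P), g m :=
        (sum_filter_add_sum_filter_not _ _ _).symm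
    _ ≤ ((P : ℝ) * (D * V)) ^ 2 * (L ^ (-A) / 2) + ((P : ℝ) * (D * V)) ^ 2 * (L ^ (-A) / 2) := add_le_add hT hEx
    _ = ((D : ℝ) * P * V) ^ 2 * L ^ (-A) := by ring

end Pool.Agent.Lib.TR
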