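import Pool.Agent.Lib.TR.SpecD
import Pool.Agent.Lib.EH3.LS1

/-!
MP_00e23e_nt, directory Lib/TR, module Dmv: mean value theorem for Dirichlet polynomials at the points m/4.
-/

set_option autoImplicit false

namespace Pool.Agent.Lib.TR

open Finset Pool.Agent.Lib.EH3 Pool.Agent.Results.MP_00e23e_nt

/-- the block of n -/
private noncomputable def Dmv_b (n : ℕ) : ℕ := ⌊Real.log n / 2⌋₊

private lemma Dmv_lt (n m : ℕ) (hn : 1 ≤ n) (hm : 1 ≤ m) (h : Dmv_b n = Dmv_b m) :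
    |Real.log n - Real.log m| < 2 := by
  have hn0 : 0 ≤ Real.log n := Real.log_nonneg (by exact_mod_cast hn)
  have hm0 : 0 ≤ Real.log m := Real.log_nonneg (by exact_mod_cast hm)
  have a1 := Nat.floor_le (by positivity : 0 ≤ Real.log n / 2)
  have a2 := Nat.lt_floor_add_one (Real.log n / 2)
  have b1 := Nat.floor_le (by positivity : 0 ≤ Real.log m / 2)
  have b2 := Nat.lt_floor_add_one (Real.log m / 2)
  unfold Dmv_b at h
  rw [h] at a1 a2
  rw [abs_lt]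
  constructor <;> linarith

private lemma Dmv_gap0 (N n m : ℕ) (hn : 1 ≤ n) (hm : m ≤ N) (h : n < m) :
    1 / (N : ℝ) ≤ Real.log m - Real.log n := by
  have hm1 : 1 ≤ m := by omega
  have hn' : (0 : ℝ) < n := by exact_mod_cast hn
  have hm' : (0 : ℝ) < m := by exact_mod_cast hm1
  have hN' : (0 : ℝ) < N := by exact_mod_cast (by omega : 0 < N)
  have h1 : (n : ℝ) + 1 ≤ m := by exact_mod_cast h
  have h2 : (m : ℝ) ≤ N := by exact_mod_cast hm
  have h3 := Real.one_sub_inv_le_log_of_pos (div_pos hm' hn')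
  rw [Real.log_div hm'.ne' hn'.ne'] at h3
  have h4 : ((m : ℝ) / n)⁻¹ = n / m := by rw [inv_div]
  rw [h4] at h3
  have h5 : 1 / (m : ℝ) ≤ 1 - (n : ℝ) / m := by
    rw [le_sub_iff_add_le, ← add_div, div_le_one hm']
    linarith
  have h6 : 1 / (N : ℝ) ≤ 1 / (m : ℝ) := one_div_le_one_div_of_le hm' h2
  linarith

private lemma Dmv_gap (N n m : ℕ) (hn : 1 ≤ n) (hm : 1 ≤ m) (hnN : n ≤ N) (hmN : m ≤ N) (h : n ≠ m) :
    1 / (N : ℝ) ≤ |Real.log n - Real.log m| := by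
  rcases lt_or_gt_of_ne h with h' | h'
  · have := Dmv_gap0 N n m hn hmN h'
    rw [abs_sub_comm]
    exact this.trans (le_abs_self _)
  · have := Dmv_gap0 N m n hm hnN h'
    exact this.trans (le_abs_self _)

private lemma Dmv_block (N T : ℕ) (a : ℕ → ℂ) (hN : 1 ≤ N) (hT : 1 ≤ T) (J : Finset ℕ)
    (hJ : ∀ n ∈ J, 1 ≤ n ∧ n ≤ N) (i : ℕ) (hi : ∀ n ∈ J, Dmv_b n = i) :
    ∑ m ∈ Icc (-(T : ℤ)) T, ‖∑ n ∈ J, a n * lp m n‖ ^ 2 ≤ 100 * ((T : ℝ) + N) * ∑ n ∈ J, ‖a n‖ ^ 2 := by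
  classical
  have hNr : (1 : ℝ) ≤ N := by exact_mod_cast hN
  have hTr : (1 : ℝ) ≤ T := by exact_mod_cast hT
  have key := dual_ls J (fun n => -(Real.log n / 4)) (δ := 1 / (4 * (N : ℝ))) (by positivity)
    (by
      intro n hn m hm hnm
      have h1 := Dmv_lt n m (hJ n hn).1 (hJ m hm).1 ((hi n hn).trans (hi m hm).symm)
      have h2 := Dmv_gap N n m (hJ n hn).1 (hJ m hm).1 (hJ n hn).2 (hJ m hm).2 hnm
      have e1 : -(Real.log n / 4) - -(Real.log m / 4) = -((Real.log n - Real.log m) / 4) := by ring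
      have h3 : round (-(Real.log n / 4) - -(Real.log m / 4)) = 0 := by
        rw [round_eq_zero_iff, e1]
        rw [abs_lt] at h1
        constructor <;> linarith
      show 1 / (4 * (N : ℝ)) ≤ |(-(Real.log n / 4) - -(Real.log m / 4)) -
        ((round (-(Real.log n / 4) - -(Real.log m / 4)) : ℤ) : ℝ)|
      rw [h3, e1, Int.cast_zero, sub_zero, abs_neg, abs_div, abs_of_pos (by norm_num : (0 : ℝ) < 4)]
      have e2 : 1 / (4 * (N : ℝ)) = 1 / (N : ℝ) / 4 := by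
        field_simp
      rw [e2]
      linarith)
    (T + 4 * N + 1) (by omega)
    (by
      have h4N : (0 : ℝ) < 4 * N := by positivity
      rw [mul_one_div, le_div_iff₀ h4N]
      push_cast
      linarith)
    (fun n => a n * ee ((T : ℝ) * (Real.log n / 4)))
  have hle : ∑ m ∈ Icc (-(T : ℤ)) T, ‖∑ n ∈ J, a n * lp m n‖ ^ 2 ≤
      ∑ k ∈ range (2 * (T + 4 * N + 1)), ‖∑ j ∈ J, (a j * ee ((T : ℝ) * (Real.log j / 4))) *
        ee ((k : ℝ) * -(Real.log j / 4))‖ ^ 2 := by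
    have hinj : Set.InjOn (fun m : ℤ => (m + T).toNat) (Icc (-(T : ℤ)) T : Finset ℤ) := by
      intro x hx y hy hxy
      rw [Finset.mem_coe, mem_Icc] at hx hy
      simp only at hxy
      omega
    have h1 : ∑ m ∈ Icc (-(T : ℤ)) T, ‖∑ n ∈ J, a n * lp m n‖ ^ 2 =
        ∑ m ∈ Icc (-(T : ℤ)) T, ‖∑ j ∈ J, (a j * ee ((T : ℝ) * (Real.log j / 4))) *
          ee ((((m + T).toNat : ℕ) : ℝ) * -(Real.log j / 4))‖ ^ 2 := by
      refine Finset.sum_congr rfl fun m hm => ?_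
      rw [mem_Icc] at hm
      have hc : (((m + T).toNat : ℕ) : ℝ) = (m : ℝ) + T := by
        have : (((m + T).toNat : ℕ) : ℤ) = m + T := Int.toNat_of_nonneg (by omega)
        exact_mod_cast this
      rw [hc]
      refine congrArg (fun z : ℂ => ‖z‖ ^ 2) (Finset.sum_congr rfl fun n _ => ?_)
      rw [mul_assoc, ← ee_add]
      unfold lp
      congr 2
      ring
    rw [h1, ← Finset.sum_image (f := fun k : ℕ => ‖∑ j ∈ J, (a j * ee ((T : ℝ) * (Real.log j / 4))) *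
          ee ((k : ℝ) * -(Real.log j / 4))‖ ^ 2) (g := fun m : ℤ => (m + T).toNat) hinj]
    refine Finset.sum_le_sum_of_subset_of_nonneg ?_ (fun _ _ _ => by positivity)
    intro k hk
    rw [mem_image] at hk
    obtain ⟨m, hm, rfl⟩ := hk
    rw [mem_Icc] at hm
    rw [mem_range]
    omega
  refine hle.trans (key.trans ?_)
  have hn : ∑ j ∈ J, ‖a j * ee ((T : ℝ) * (Real.log j / 4))‖ ^ 2 = ∑ j ∈ J, ‖a j‖ ^ 2 := by
    refine Finset.sum_congr rfl fun j _ => ?_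
    rw [norm_mul, norm_ee, mul_one]
  rw [hn]
  refine mul_le_mul_of_nonneg_right ?_ (Finset.sum_nonneg fun _ _ => by positivity)
  push_cast
  linarith

theorem tDmv : DmvStmt := by
  classical
  intro N T a hN hT
  have hNr : (1 : ℝ) ≤ N := by exact_mod_cast hN
  have hTr : (1 : ℝ) ≤ T := by exact_mod_cast hT
  have hlog : 0 ≤ Real.log N := Real.log_nonneg hNr
  set I : ℕ := ⌊Real.log N / 2⌋₊ + 1 with hI
  have hIle : (I : ℝ) ≤ 1 + Real.log N := by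
    have := Nat.floor_le (by positivity : 0 ≤ Real.log N / 2)
    rw [hI]
    push_cast
    linarith
  have hmem : ∀ n ∈ Icc 1 N, Dmv_b n ∈ range I := by
    intro n hn
    rw [mem_Icc] at hn
    rw [mem_range, hI]
    unfold Dmv_b
    have hn' : (0 : ℝ) < n := by exact_mod_cast hn.1
    have h2 : (n : ℝ) ≤ N := by exact_mod_cast hn.2
    have := Nat.floor_mono (show Real.log n / 2 ≤ Real.log N / 2 by
      have := Real.log_le_log hn' h2
      linarith)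
    omega
  set S : ℤ → ℕ → ℂ := fun m i => ∑ n ∈ (Icc 1 N).filter (fun n => Dmv_b n = i), a n * lp m n with hS
  have hsplit : ∀ m : ℤ, ∑ n ∈ Icc 1 N, a n * lp m n = ∑ i ∈ range I, S m i := by
    intro m
    exact (Finset.sum_fiberwise_of_maps_to hmem _).symm
  have hcs : ∀ m : ℤ, ‖∑ n ∈ Icc 1 N, a n * lp m n‖ ^ 2 ≤ (I : ℝ) * ∑ i ∈ range I, ‖S m i‖ ^ 2 := by
    intro m
    rw [hsplit m]
    have h1 : ‖∑ i ∈ range I, S m i‖ ≤ ∑ i ∈ range I, ‖S m i‖ := norm_sum_le _ _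
    have h2 := sq_sum_le_card_mul_sum_sq (s := range I) (f := fun i => ‖S m i‖)
    rw [card_range] at h2
    refine le_trans ?_ h2
    exact pow_le_pow_left₀ (norm_nonneg _) h1 2
  have hfib : ∑ i ∈ range I, ∑ n ∈ (Icc 1 N).filter (fun n => Dmv_b n = i), ‖a n‖ ^ 2 =
      ∑ n ∈ Icc 1 N, ‖a n‖ ^ 2 := Finset.sum_fiberwise_of_maps_to hmem _
  have hA : 0 ≤ ∑ n ∈ Icc 1 N, ‖a n‖ ^ 2 := Finset.sum_nonneg fun _ _ => by positivity
  calc ∑ m ∈ Icc (-(T : ℤ)) T, ‖∑ n ∈ Icc 1 N, a n * lp m n‖ ^ 2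
      ≤ ∑ m ∈ Icc (-(T : ℤ)) T, (I : ℝ) * ∑ i ∈ range I, ‖S m i‖ ^ 2 := Finset.sum_le_sum fun m _ => hcs m
    _ = (I : ℝ) * ∑ i ∈ range I, ∑ m ∈ Icc (-(T : ℤ)) T, ‖S m i‖ ^ 2 := by
        rw [← Finset.mul_sum, Finset.sum_comm]
    _ ≤ (I : ℝ) * ∑ i ∈ range I, (100 * ((T : ℝ) + N) *
          ∑ n ∈ (Icc 1 N).filter (fun n => Dmv_b n = i), ‖a n‖ ^ 2) := by
        refine mul_le_mul_of_nonneg_left (Finset.sum_le_sum fun i _ => ?_) (Nat.cast_nonneg _)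
        refine Dmv_block N T a hN hT _ (fun n hn => ?_) i (fun n hn => ?_)
        · exact mem_Icc.1 (mem_filter.1 hn).1
        · exact (mem_filter.1 hn).2
    _ = (I : ℝ) * (100 * ((T : ℝ) + N) * ∑ n ∈ Icc 1 N, ‖a n‖ ^ 2) := by
        rw [← Finset.mul_sum, hfib]
    _ ≤ (1 + Real.log N) * (100 * ((T : ℝ) + N) * ∑ n ∈ Icc 1 N, ‖a n‖ ^ 2) := by
        refine mul_le_mul_of_nonneg_right hIle (by positivity)
    _ ≤ 200 * (1 + Real.log N) * ((T : ℝ) + N) * ∑ n ∈ Icc 1 N, ‖a n‖ ^ 2 := by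
        have : 0 ≤ (1 + Real.log N) * (((T : ℝ) + N) * ∑ n ∈ Icc 1 N, ‖a n‖ ^ 2) := by positivity
        nlinarith

end Pool.Agent.Lib.TR
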