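import Pool.Agent.Lib.TR.SpecD

/-!
MP_00e23e_nt, directory Lib/TR, chapter D: module Dpw (pointwise bound for the smooth variable), helper95.
-/

set_option autoImplicit false

namespace Pool.Agent.Lib.TR

open Finset Pool.Agent.Lib.EH3 Pool.Agent.Results.MP_00e23e_nt

private lemma Dpw_norm (y : ℝ) : ‖ee y‖ = 1 := by
  unfold ee
  rw [mul_comm, Complex.norm_exp_ofReal_mul_I]

private lemma Dpw_neg (S : Finset ℕ) (t : ℝ) :
    ‖∑ k ∈ S, ee (t * Real.log k)‖ = ‖∑ k ∈ S, ee (|t| * Real.log k)‖ := by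
  rcases le_total 0 t with h | h
  · rw [abs_of_nonneg h]
  · rw [abs_of_nonpos h]
    have h1 : (starRingEnd ℂ) (∑ k ∈ S, ee (t * Real.log k)) = ∑ k ∈ S, ee (-t * Real.log k) := by
      rw [map_sum]
      refine Finset.sum_congr rfl fun k _ => ?_
      rw [conj_ee, neg_mul]
    rw [← h1, RCLike.norm_conj]

private lemma Dpw_triv (S : Finset ℕ) (t : ℝ) : ‖∑ k ∈ S, ee (t * Real.log k)‖ ≤ S.card := by
  refine (norm_sum_le _ _).trans ?_
  rw [Finset.sum_congr rfl fun k _ => Dpw_norm _, sum_const, nsmul_eq_mul, mul_one]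

private lemma Dpw_lp (m : ℤ) (l k : ℕ) (hl : 1 ≤ l) (hk : 1 ≤ k) : lp m (l * k) = lp m l * lp m k := by
  unfold lp
  rw [← ee_add]
  congr 1
  have h1 : (l : ℝ) ≠ 0 := by positivity
  have h2 : (k : ℝ) ≠ 0 := by positivity
  rw [Nat.cast_mul, Real.log_mul h1 h2]
  ring

/-- the bound for a sum over a residue class -/
private lemma Dpw_cls (h1 : Pool.Agent.Lib.UI.SZk) (h3 : Pool.Agent.Lib.UI.SZq) {R : ℕ} {C1 σ : ℝ} (hσ : 0 < σ)
    (hσ1 : σ ≤ 1) (hC1 : 0 < C1)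
    (hp : ∀ (t c M : ℝ) (a b : ℕ), 1 ≤ M →
      M ^ (3 / 4 : ℝ) ≤ t → t ≤ M ^ ((R + 1 : ℕ) : ℝ) → 0 ≤ c → a ≤ b →
      (∀ n, a ≤ n → n < b → M < (n : ℝ) + c ∧ (n : ℝ) + c ≤ 2 * M) →
      ‖Pool.Agent.Lib.UI.Sx (Pool.Agent.Lib.UI.lg t c) a b‖ ≤ C1 * M ^ (1 - σ))
    (K K2 q b : ℕ) (t K0 : ℝ) (hK1 : 1 ≤ K) (hKK : K ≤ K2) (hK2 : K2 ≤ 2 * K) (hq : 1 ≤ q) (hK0 : 2 ≤ K0)
    (hM : K0 / 2 ≤ (K : ℝ) / q) (ht : 0 < t) (htR : t ≤ K0 ^ R) :
    ‖∑ k ∈ (Ioc K K2).filter (fun k => k ≡ b [MOD q]), ee (t * Real.log k)‖ ≤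
      K * (6 / t + (2 * C1 + 2 * max 16 (2 ^ R)) * K0 ^ (-σ)) := by
  have hq0 : (0 : ℝ) < q := by exact_mod_cast hq
  have hK0' : (0 : ℝ) < K0 := by linarith
  have hKr : (0 : ℝ) < K := by exact_mod_cast hK1
  have hM1 : 1 ≤ (K : ℝ) / q := by linarith
  have hM0 : 0 < (K : ℝ) / q := by linarith
  have hMK : (K : ℝ) / q ≤ K := by
    rw [div_le_iff₀ hq0]
    have h5 : (1 : ℝ) ≤ q := by exact_mod_cast hq
    nlinarith
  have hmax : (0 : ℝ) < max 16 (2 ^ R) := lt_of_lt_of_le (by norm_num) (le_max_left _ _)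
  have hKs : 0 < K0 ^ (-σ) := Real.rpow_pos_of_pos hK0' _
  rcases lt_or_ge ((K : ℝ) / q) (max 16 (2 ^ R)) with hsm | hlg
  · -- trivial bound
    have e1 : ‖∑ k ∈ (Ioc K K2).filter (fun k => k ≡ b [MOD q]), ee (t * Real.log k)‖ ≤ K := by
      refine (Dpw_triv _ _).trans ?_
      have h2 : ((Ioc K K2).filter (fun k => k ≡ b [MOD q])).card ≤ K := by
        refine (card_filter_le _ _).trans ?_
        rw [Nat.card_Ioc]
        omega
      exact_mod_cast h2
    have e2 : 1 ≤ 2 * max 16 (2 ^ R) * K0 ^ (-σ) := by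
      rw [Real.rpow_neg hK0'.le, ← div_eq_mul_inv, le_div_iff₀ (Real.rpow_pos_of_pos hK0' _), one_mul]
      have h4 : K0 ^ σ ≤ K0 ^ (1 : ℝ) := Real.rpow_le_rpow_of_exponent_le (by linarith) hσ1
      rw [Real.rpow_one] at h4
      linarith
    have e3 : 0 ≤ 6 / t := by positivity
    have e4 : 0 ≤ 2 * C1 * K0 ^ (-σ) := by positivity
    calc _ ≤ (K : ℝ) * 1 := by rw [mul_one]; exact e1
      _ ≤ K * (6 / t + (2 * C1 + 2 * max 16 (2 ^ R)) * K0 ^ (-σ)) := by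
          apply mul_le_mul_of_nonneg_left _ hKr.le
          linarith
  · obtain ⟨c, a', b', hc, hab, hn, heq⟩ := h3 t K K2 q b hq hK1 hKK hK2
    rw [heq]
    have hM16 : 16 ≤ (K : ℝ) / q := le_trans (le_max_left _ _) hlg
    have hM2 : (2 : ℝ) ^ R ≤ (K : ℝ) / q := le_trans (le_max_right _ _) hlg
    have e6 : 0 ≤ (K : ℝ) * (6 / t) := by positivity
    have e7 : 0 ≤ (K : ℝ) * ((2 * C1 + 2 * max 16 (2 ^ R)) * K0 ^ (-σ)) := by positivity
    rcases le_or_gt t ((K : ℝ) / q / 2) with hcase | hcase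
    · refine (h1 t c _ a' b' hM1 ht hcase hc hab hn).trans ?_
      have h5 : 6 * ((K : ℝ) / q) / t ≤ (K : ℝ) * (6 / t) := by
        have e8 : (K : ℝ) * (6 / t) = 6 * K / t := by ring
        rw [e8]
        exact div_le_div_of_nonneg_right (by linarith) ht.le
      rw [mul_add]
      linarith
    · have h34 : ((K : ℝ) / q) ^ (3 / 4 : ℝ) ≤ t := by
        have h5 : ((K : ℝ) / q) ^ (3 / 4 : ℝ) * ((K : ℝ) / q) ^ (1 / 4 : ℝ) = (K : ℝ) / q := by
          rw [← Real.rpow_add hM0]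
          norm_num
        have h6 : (2 : ℝ) ≤ ((K : ℝ) / q) ^ (1 / 4 : ℝ) := by
          have h7 : (16 : ℝ) ^ (1 / 4 : ℝ) = 2 := by
            rw [show (16 : ℝ) = 2 ^ (4 : ℝ) by norm_num, ← Real.rpow_mul (by norm_num)]
            norm_num
          rw [← h7]
          exact Real.rpow_le_rpow (by norm_num) hM16 (by norm_num)
        have h8 : 0 < ((K : ℝ) / q) ^ (3 / 4 : ℝ) := Real.rpow_pos_of_pos hM0 _
        nlinarith
      have hR : t ≤ ((K : ℝ) / q) ^ ((R + 1 : ℕ) : ℝ) := by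
        rw [Real.rpow_natCast]
        refine htR.trans ?_
        have h5 : K0 ^ R ≤ (2 * ((K : ℝ) / q)) ^ R := pow_le_pow_left₀ hK0'.le (by linarith) R
        refine h5.trans ?_
        rw [mul_pow, pow_succ, mul_comm]
        exact mul_le_mul_of_nonneg_left hM2 (by positivity)
      refine (hp t c _ a' b' hM1 h34 hR hc hab hn).trans ?_
      have h5 : ((K : ℝ) / q) ^ (1 - σ) = (K : ℝ) / q * ((K : ℝ) / q) ^ (-σ) := by
        rw [sub_eq_add_neg, Real.rpow_add hM0, Real.rpow_one]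
      have h6 : ((K : ℝ) / q) ^ (-σ) ≤ (K0 / 2) ^ (-σ) :=
        Real.rpow_le_rpow_of_nonpos (by positivity) hM (by linarith)
      have h7 : (K0 / 2) ^ (-σ) ≤ 2 * K0 ^ (-σ) := by
        rw [Real.div_rpow hK0'.le (by norm_num), div_eq_mul_inv, mul_comm, ← Real.rpow_neg (by norm_num), neg_neg]
        apply mul_le_mul_of_nonneg_right _ hKs.le
        have h8 : (2 : ℝ) ^ σ ≤ 2 ^ (1 : ℝ) := Real.rpow_le_rpow_of_exponent_le (by norm_num) hσ1
        rwa [Real.rpow_one] at h8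
      have h9 : ((K : ℝ) / q) ^ (1 - σ) ≤ K * (2 * K0 ^ (-σ)) := by
        rw [h5]
        exact mul_le_mul hMK (h6.trans h7) (Real.rpow_nonneg hM0.le _) hKr.le
      have h10 := mul_le_mul_of_nonneg_left h9 hC1.le
      have h11 : 0 ≤ (K : ℝ) * (2 * max 16 (2 ^ R) * K0 ^ (-σ)) := by positivity
      calc C1 * ((K : ℝ) / q) ^ (1 - σ) ≤ C1 * (K * (2 * K0 ^ (-σ))) := h10
        _ ≤ C1 * (K * (2 * K0 ^ (-σ))) + (K : ℝ) * (6 / t) + (K : ℝ) * (2 * max 16 (2 ^ R) * K0 ^ (-σ)) := by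
            linarith
        _ = _ := by ring

/-- the sum over the multiples of l -/
private lemma Dpw_mult (h1 : Pool.Agent.Lib.UI.SZk) (h3 : Pool.Agent.Lib.UI.SZq) {R : ℕ} {C1 σ : ℝ} (hσ : 0 < σ)
    (hσ1 : σ ≤ 1) (hC1 : 0 < C1)
    (hp : ∀ (t c M : ℝ) (a b : ℕ), 1 ≤ M →
      M ^ (3 / 4 : ℝ) ≤ t → t ≤ M ^ ((R + 1 : ℕ) : ℝ) → 0 ≤ c → a ≤ b →
      (∀ n, a ≤ n → n < b → M < (n : ℝ) + c ∧ (n : ℝ) + c ≤ 2 * M) →
      ‖Pool.Agent.Lib.UI.Sx (Pool.Agent.Lib.UI.lg t c) a b‖ ≤ C1 * M ^ (1 - σ))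
    (V q κ l : ℕ) (m : ℤ) (K0 : ℝ) (hK0 : 2 ≤ K0) (hq : 1 ≤ q) (hl : 1 ≤ l) (hlq : l.Coprime q)
    (hV : K0 * q * l ≤ V) (hm : m ≠ 0) (hmR : |(m : ℝ)| ≤ K0 ^ R) :
    ‖∑ v ∈ (Ico V (2 * V)).filter (fun v => l ∣ v ∧ v % q = κ), lp m v‖ ≤
      (24 + (2 * C1 + 2 * max 16 (2 ^ R) + 1)) * (V / l) * (1 / |(m : ℝ)| + K0 ^ (-σ)) := by
  have hq0 : (0 : ℝ) < q := by exact_mod_cast hq
  have hq1 : (1 : ℝ) ≤ q := by exact_mod_cast hq
  have hl0 : (0 : ℝ) < l := by exact_mod_cast hl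
  have hl1 : (1 : ℝ) ≤ l := by exact_mod_cast hl
  have hK0' : (0 : ℝ) < K0 := by linarith
  have hm0 : 0 < |(m : ℝ)| := abs_pos.2 (by exact_mod_cast hm)
  have hKs : 0 < K0 ^ (-σ) := Real.rpow_pos_of_pos hK0' _
  have hmax : (0 : ℝ) < max 16 (2 ^ R) := lt_of_lt_of_le (by norm_num) (le_max_left _ _)
  have hVl : K0 * q ≤ (V : ℝ) / l := by rw [le_div_iff₀ hl0]; exact hV
  have hVl0 : K0 ≤ (V : ℝ) / l := le_trans (by nlinarith) hVl
  have h2l : 2 * l ≤ V := by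
    have : (2 : ℝ) * l ≤ V := by
      have : (2 : ℝ) * l ≤ K0 * q * l := by
        apply mul_le_mul_of_nonneg_right _ hl0.le
        nlinarith
      linarith
    exact_mod_cast this
  set S := (Ico V (2 * V)).filter (fun v => l ∣ v ∧ v % q = κ) with hS
  have hrhs : 0 ≤ (24 + (2 * C1 + 2 * max 16 (2 ^ R) + 1)) * ((V : ℝ) / l) * (1 / |(m : ℝ)| + K0 ^ (-σ)) := by
    have : 0 ≤ (V : ℝ) / l := by positivity
    positivity
  rcases S.eq_empty_or_nonempty with h0 | ⟨v0, hv0⟩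
  · rw [h0, sum_empty, norm_zero]; exact hrhs
  · rw [hS, mem_filter] at hv0
    obtain ⟨k0, hk0⟩ := hv0.2.1
    set K := (V - 1) / l with hK
    set K2 := (2 * V - 1) / l with hK2
    set K2' := min K2 (2 * K) with hK2'
    have hKl : l * K ≤ V - 1 := Nat.mul_div_le _ _
    have hKu : V - 1 < l * (K + 1) := Nat.lt_mul_div_succ _ (by omega)
    have hK2l : l * K2 ≤ 2 * V - 1 := Nat.mul_div_le _ _
    have hK1 : 1 ≤ K := by
      rw [hK, Nat.le_div_iff_mul_le (by omega)]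
      omega
    have hK2le : K2 ≤ 2 * K + 1 := by
      by_contra hc
      push Not at hc
      have h5 : l * (2 * K + 2) ≤ l * K2 := Nat.mul_le_mul_left _ (by omega)
      have h6 : l * (2 * K + 2) = 2 * (l * (K + 1)) := by ring
      omega
    -- the set as an image
    have himg : S = ((Ioc K K2).filter (fun k => k ≡ k0 [MOD q])).image (fun k => l * k) := by
      ext v
      rw [hS, mem_filter, mem_image]
      constructor
      · rintro ⟨hv, ⟨k, rfl⟩, hvq⟩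
        refine ⟨k, ?_, rfl⟩
        rw [mem_Ico] at hv
        rw [mem_filter, mem_Ioc]
        refine ⟨⟨?_, ?_⟩, ?_⟩
        · by_contra hc
          push Not at hc
          have := Nat.mul_le_mul_left l hc
          omega
        · rw [hK2, Nat.le_div_iff_mul_le (by omega), mul_comm]
          omega
        · have h5 : l * k ≡ l * k0 [MOD q] := by
            unfold Nat.ModEq
            rw [hvq, ← hk0, hv0.2.2]
          exact Nat.ModEq.cancel_left_of_coprime (by rw [Nat.gcd_comm]; exact hlq) h5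
      · rintro ⟨k, hk, rfl⟩
        rw [mem_filter, mem_Ioc] at hk
        refine ⟨?_, Dvd.intro _ rfl, ?_⟩
        · rw [mem_Ico]
          constructor
          · have h5 : l * (K + 1) ≤ l * k := Nat.mul_le_mul_left _ (by omega)
            omega
          · have h5 : l * k ≤ l * K2 := Nat.mul_le_mul_left _ hk.1.2
            omega
        · have h5 : l * k ≡ l * k0 [MOD q] := Nat.ModEq.mul_left l hk.2
          have h6 : (l * k) % q = (l * k0) % q := h5
          rw [h6, ← hk0]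
          exact hv0.2.2
    have hinj : ∀ x ∈ (Ioc K K2).filter (fun k => k ≡ k0 [MOD q]),
        ∀ y ∈ (Ioc K K2).filter (fun k => k ≡ k0 [MOD q]), l * x = l * y → x = y := by
      intro x _ y _ hxy
      exact Nat.eq_of_mul_eq_mul_left (by omega) hxy
    have hsum : ∑ v ∈ S, lp m v = lp m l * ∑ k ∈ (Ioc K K2).filter (fun k => k ≡ k0 [MOD q]), lp m k := by
      rw [himg, sum_image hinj, mul_sum]
      refine sum_congr rfl fun k hk => ?_
      rw [mem_filter, mem_Ioc] at hk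
      exact Dpw_lp m l k hl (by omega)
    have hlpn : ‖lp m l‖ = 1 := Dpw_norm _
    rw [hsum, norm_mul, hlpn, one_mul]
    have hform : ∀ k : ℕ, lp m k = ee (-(m : ℝ) / 4 * Real.log k) := by
      intro k
      unfold lp
      congr 1
      ring
    have habs : |-(m : ℝ) / 4| = |(m : ℝ)| / 4 := by
      rw [abs_div, abs_neg]
      norm_num
    -- cut the last term
    have hcut : ‖∑ k ∈ (Ioc K K2).filter (fun k => k ≡ k0 [MOD q]), lp m k‖ ≤
        ‖∑ k ∈ (Ioc K K2').filter (fun k => k ≡ k0 [MOD q]), lp m k‖ + 1 := by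
      rcases le_or_gt K2 (2 * K) with hc | hc
      · rw [hK2', min_eq_left hc]
        linarith
      · have e5 : K2 = 2 * K + 1 := by omega
        have e6 : K2' = 2 * K := by rw [hK2']; exact min_eq_right hc.le
        have e7 : Ioc K K2 = insert (2 * K + 1) (Ioc K (2 * K)) := by
          ext x
          rw [mem_insert, mem_Ioc, mem_Ioc]
          omega
        rw [e6, e7, filter_insert]
        split_ifs
        · rw [sum_insert (by simp)]
          refine (norm_add_le _ _).trans ?_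
          have e8 : ‖lp m (2 * K + 1)‖ = 1 := Dpw_norm _
          rw [e8]
          linarith
        · linarith
    have hKV : (K : ℝ) ≤ (V : ℝ) / l := by
      rw [le_div_iff₀ hl0]
      have : K * l ≤ V := by
        have := hKl
        rw [mul_comm] at this
        omega
      exact_mod_cast this
    have hKlow : (V : ℝ) / l / 2 ≤ K := by
      have h5 : (V : ℝ) ≤ l * (K + 1) := by
        have : V ≤ l * (K + 1) := by omega
        exact_mod_cast this
      have h6 : (V : ℝ) / l ≤ K + 1 := by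
        rw [div_le_iff₀ hl0]
        linarith
      linarith
    have hM : K0 / 2 ≤ (K : ℝ) / q := by
      rw [le_div_iff₀ hq0]
      linarith
    have htR : |(m : ℝ)| / 4 ≤ K0 ^ R := by linarith
    have hmain := Dpw_cls h1 h3 hσ hσ1 hC1 hp K K2' q k0 (|(m : ℝ)| / 4) K0 hK1
      (by
        rw [hK2']
        refine le_min ?_ (by omega)
        rw [hK2, hK]
        exact Nat.div_le_div_right (by omega))
      (by rw [hK2']; exact min_le_right _ _) hq hK0 hM (by positivity) htR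
    rw [sum_congr rfl fun k _ => hform k] at hcut
    rw [sum_congr rfl fun k _ => hform k] at hcut ⊢
    rw [Dpw_neg _ (-(m : ℝ) / 4), habs] at hcut ⊢
    rw [Dpw_neg ((Ioc K K2').filter (fun k => k ≡ k0 [MOD q])) (-(m : ℝ) / 4), habs] at hcut
    refine hcut.trans ?_
    have h1e : (1 : ℝ) ≤ (V : ℝ) / l * K0 ^ (-σ) := by
      have h5 : K0 * K0 ^ (-σ) ≤ (V : ℝ) / l * K0 ^ (-σ) := mul_le_mul_of_nonneg_right hVl0 hKs.le
      have h6 : K0 * K0 ^ (-σ) = K0 ^ (1 - σ) := by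
        rw [sub_eq_add_neg, Real.rpow_add hK0', Real.rpow_one]
      have h7 : (1 : ℝ) ≤ K0 ^ (1 - σ) := Real.one_le_rpow (by linarith) (by linarith)
      linarith
    have h24 : 6 / (|(m : ℝ)| / 4) = 24 / |(m : ℝ)| := by
      field_simp
      norm_num
    rw [h24] at hmain
    have hV0 : 0 < (V : ℝ) / l := by linarith
    have h8 : (K : ℝ) * (24 / |(m : ℝ)| + (2 * C1 + 2 * max 16 (2 ^ R)) * K0 ^ (-σ)) ≤
        (V : ℝ) / l * (24 / |(m : ℝ)| + (2 * C1 + 2 * max 16 (2 ^ R)) * K0 ^ (-σ)) :=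
      mul_le_mul_of_nonneg_right hKV (by positivity)
    have h9 : 0 ≤ (2 * C1 + 2 * max 16 (2 ^ R) + 1) * ((V : ℝ) / l) * (1 / |(m : ℝ)|) := by positivity
    have h10 : 0 ≤ 24 * ((V : ℝ) / l) * K0 ^ (-σ) := by positivity
    calc _ ≤ (V : ℝ) / l * (24 / |(m : ℝ)| + (2 * C1 + 2 * max 16 (2 ^ R)) * K0 ^ (-σ)) + (V : ℝ) / l * K0 ^ (-σ) := by
          linarith
      _ ≤ (V : ℝ) / l * (24 / |(m : ℝ)| + (2 * C1 + 2 * max 16 (2 ^ R)) * K0 ^ (-σ)) + (V : ℝ) / l * K0 ^ (-σ) +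
          (2 * C1 + 2 * max 16 (2 ^ R) + 1) * ((V : ℝ) / l) * (1 / |(m : ℝ)|) + 24 * ((V : ℝ) / l) * K0 ^ (-σ) := by
          linarith
      _ = _ := by ring

theorem tDpw (h1 : Pool.Agent.Lib.UI.SZk) (h2 : Pool.Agent.Lib.UI.SZp) (h3 : Pool.Agent.Lib.UI.SZq) : DpwStmt := by
  intro R
  obtain ⟨C1, σ, hC1, hσ, hσ1, hp⟩ := h2 (R + 1)
  refine ⟨24 + (2 * C1 + 2 * max 16 (2 ^ R) + 1), σ, ?_, hσ, hσ1, ?_⟩
  · have hmax : (0 : ℝ) < max 16 (2 ^ R) := lt_of_lt_of_le (by norm_num) (le_max_left _ _)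
    positivity
  intro V Z q κ m ρ K0 hK0 hZ hq hV hm hmR hρ hρq
  set C := 24 + (2 * C1 + 2 * max 16 (2 ^ R) + 1) with hC
  have hC0 : 0 < C := by
    have hmax : (0 : ℝ) < max 16 (2 ^ R) := lt_of_lt_of_le (by norm_num) (le_max_left _ _)
    rw [hC]
    positivity
  have hK0' : (0 : ℝ) < K0 := by linarith
  have hKs : 0 < K0 ^ (-σ) := Real.rpow_pos_of_pos hK0' _
  have hex : ∑ v ∈ Ico V (2 * V), (if v % q = κ then ((wt ρ Z v : ℝ) : ℂ) else 0) * lp m v =
      ∑ l ∈ Icc 1 Z, (ρ l : ℂ) * ∑ v ∈ (Ico V (2 * V)).filter (fun v => l ∣ v ∧ v % q = κ), lp m v := by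
    have e1 : ∀ v, (if v % q = κ then ((wt ρ Z v : ℝ) : ℂ) else 0) * lp m v =
        ∑ l ∈ Icc 1 Z, (ρ l : ℂ) * (if l ∣ v ∧ v % q = κ then lp m v else 0) := by
      intro v
      unfold wt
      by_cases hv : v % q = κ
      · rw [if_pos hv, sum_filter]
        push_cast
        rw [sum_mul]
        refine sum_congr rfl fun l _ => ?_
        by_cases hlv : l ∣ v
        · rw [if_pos hlv, if_pos ⟨hlv, hv⟩]
        · rw [if_neg hlv, if_neg (fun h => hlv h.1)]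
          simp
      · rw [if_neg hv, zero_mul]
        symm
        apply sum_eq_zero
        intro l _
        rw [if_neg (fun h => hv h.2), mul_zero]
    rw [sum_congr rfl fun v _ => e1 v, sum_comm]
    refine sum_congr rfl fun l _ => ?_
    rw [← mul_sum, sum_filter]
  rw [hex]
  refine (norm_sum_le _ _).trans ?_
  have hterm : ∀ l ∈ Icc 1 Z, ‖(ρ l : ℂ) * ∑ v ∈ (Ico V (2 * V)).filter (fun v => l ∣ v ∧ v % q = κ), lp m v‖ ≤
      C * V * (1 / |(m : ℝ)| + K0 ^ (-σ)) * (1 / (l : ℝ)) := by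
    intro l hl
    rw [mem_Icc] at hl
    rw [norm_mul]
    have hm0 : 0 < |(m : ℝ)| := abs_pos.2 (by exact_mod_cast hm)
    have hnn : 0 ≤ C * V * (1 / |(m : ℝ)| + K0 ^ (-σ)) * (1 / (l : ℝ)) := by positivity
    by_cases hr : ρ l = 0
    · rw [hr]
      simpa using hnn
    · have hr1 : ‖(ρ l : ℂ)‖ ≤ 1 := by
        rw [Complex.norm_real, Real.norm_eq_abs]
        exact hρ l
      have hVl : K0 * q * l ≤ V := by
        refine le_trans ?_ hV
        apply mul_le_mul_of_nonneg_left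
        · exact_mod_cast hl.2
        · positivity
      have h5 := Dpw_mult h1 h3 hσ hσ1 hC1 hp V q κ l m K0 hK0 hq hl.1 (hρq l hr) hVl hm hmR
      calc _ ≤ 1 * (C * (V / l) * (1 / |(m : ℝ)| + K0 ^ (-σ))) :=
            mul_le_mul hr1 h5 (norm_nonneg _) zero_le_one
        _ = _ := by ring
  refine (sum_le_sum hterm).trans ?_
  rw [← mul_sum]
  have hharm : ∑ l ∈ Icc 1 Z, 1 / (l : ℝ) ≤ 1 + Real.log Z := by
    have h5 := harmonic_le_one_add_log Z
    rw [harmonic_eq_sum_Icc] at h5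
    push_cast at h5
    simpa [one_div] using h5
  have hm0 : 0 < |(m : ℝ)| := abs_pos.2 (by exact_mod_cast hm)
  have h6 : 0 ≤ C * V * (1 / |(m : ℝ)| + K0 ^ (-σ)) := by positivity
  calc _ ≤ C * V * (1 / |(m : ℝ)| + K0 ^ (-σ)) * (1 + Real.log Z) := mul_le_mul_of_nonneg_left hharm h6
    _ = _ := by ring

end Pool.Agent.Lib.TR
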