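import Pool.Agent.Lib.TR.SpecD

/-!
MP_00e23e_nt, directory Lib/TR, module Dty: the typical m.
-/

set_option autoImplicit false

namespace Pool.Agent.Lib.TR

open Finset Pool.Agent.Lib.EH3 Pool.Agent.Results.MP_00e23e_nt

private lemma Dty_mul (m : ℤ) {a b : ℕ} (ha : a ≠ 0) (hb : b ≠ 0) : lp m (a * b) = lp m a * lp m b := by
  unfold lp
  rw [← ee_add]
  congr 1
  have ha' : (a : ℝ) ≠ 0 := Nat.cast_ne_zero.mpr ha
  have hb' : (b : ℝ) ≠ 0 := Nat.cast_ne_zero.mpr hb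
  rw [Nat.cast_mul, Real.log_mul ha' hb']
  ring

/-- the coefficients of the product of the sums over d and v -/
private noncomputable def Dty_b (D V : ℕ) (c w : ℕ → ℂ) (e : ℕ) : ℂ :=
  ∑ d ∈ Ioc D (2 * D), ∑ v ∈ Ico V (2 * V), (if d * v = e then c d * w v else 0)

private lemma Dty_prod (D V : ℕ) (c w : ℕ → ℂ) (hV : 1 ≤ V) (m : ℤ) :
    (∑ d ∈ Ioc D (2 * D), c d * lp m d) * (∑ v ∈ Ico V (2 * V), w v * lp m v) =
      ∑ e ∈ Icc 1 (4 * (D * V)), Dty_b D V c w e * lp m e := by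
  have h1 : ∀ e ∈ Icc 1 (4 * (D * V)), Dty_b D V c w e * lp m e =
      ∑ d ∈ Ioc D (2 * D), ∑ v ∈ Ico V (2 * V), (if d * v = e then c d * w v * lp m e else 0) := by
    intro e _
    unfold Dty_b
    rw [Finset.sum_mul]
    refine Finset.sum_congr rfl fun d _ => ?_
    rw [Finset.sum_mul]
    refine Finset.sum_congr rfl fun v _ => ?_
    rw [ite_mul, zero_mul]
  rw [Finset.sum_congr rfl h1, Finset.sum_comm, Finset.sum_mul]
  refine Finset.sum_congr rfl fun d hd => ?_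
  rw [Finset.sum_comm, Finset.mul_sum]
  refine Finset.sum_congr rfl fun v hv => ?_
  rw [Finset.mem_Ioc] at hd
  rw [Finset.mem_Ico] at hv
  have hd0 : 1 ≤ d := by omega
  have hv0 : 1 ≤ v := by omega
  have hmem : d * v ∈ Icc 1 (4 * (D * V)) := by
    rw [Finset.mem_Icc]
    refine ⟨Nat.mul_pos hd0 hv0, ?_⟩
    calc d * v ≤ (2 * D) * (2 * V) := Nat.mul_le_mul hd.2 hv.2.le
      _ = 4 * (D * V) := by ring
  rw [Finset.sum_ite_eq (Icc 1 (4 * (D * V))) (d * v) (fun e => c d * w v * lp m e), if_pos hmem,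
    Dty_mul m (by omega) (by omega)]
  ring

/-- **Dty**. -/
theorem tDty (h1 : DmvStmt) (h2 : DfaStmt) : DtyStmt := by
  intro D P V T1 S c w γ hD hP hV hT hγ hS hc hw
  obtain ⟨f1, -, f3, -⟩ := h2 D P V S c w hD hP hV hS hc hw
  have hDV : 1 ≤ 4 * (D * V) := by
    have := Nat.mul_pos hD hV
    omega
  have hm := h1 (4 * (D * V)) T1 (Dty_b D V c w) hDV hT
  have hcast : ((4 * (D * V) : ℕ) : ℝ) = 4 * ((D * V : ℕ) : ℝ) := by push_cast; ring
  rw [hcast] at hm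
  have hγP : 0 ≤ γ * P := mul_nonneg hγ (Nat.cast_nonneg P)
  have hpt : ∀ m ∈ (Icc (-(T1 : ℤ)) T1).filter (fun m : ℤ => ‖∑ p ∈ S, lp m p‖ < γ * P),
      ‖GD (8 * (D * P * V)) (gg D V S c w) m‖ ^ 2 ≤
        (γ * P) ^ 2 * ‖∑ e ∈ Icc 1 (4 * (D * V)), Dty_b D V c w e * lp m e‖ ^ 2 := by
    intro m hmm
    rw [Finset.mem_filter] at hmm
    rw [f1 m, ← Dty_prod D V c w hV m]
    have e1 : (∑ d ∈ Ioc D (2 * D), c d * lp m d) * (∑ p ∈ S, lp m p) * (∑ v ∈ Ico V (2 * V), w v * lp m v) =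
        (∑ p ∈ S, lp m p) * ((∑ d ∈ Ioc D (2 * D), c d * lp m d) * (∑ v ∈ Ico V (2 * V), w v * lp m v)) := by
      ring
    rw [e1, norm_mul (∑ p ∈ S, lp m p), mul_pow]
    exact mul_le_mul_of_nonneg_right (pow_le_pow_left₀ (norm_nonneg _) hmm.2.le 2) (by positivity)
  have hA : ∑ m ∈ (Icc (-(T1 : ℤ)) T1).filter (fun m : ℤ => ‖∑ p ∈ S, lp m p‖ < γ * P),
      ‖GD (8 * (D * P * V)) (gg D V S c w) m‖ ^ 2 ≤
      (γ * P) ^ 2 * ∑ m ∈ Icc (-(T1 : ℤ)) T1, ‖∑ e ∈ Icc 1 (4 * (D * V)), Dty_b D V c w e * lp m e‖ ^ 2 := by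
    refine (Finset.sum_le_sum hpt).trans ?_
    rw [← Finset.mul_sum]
    refine mul_le_mul_of_nonneg_left ?_ (by positivity)
    exact Finset.sum_le_sum_of_subset_of_nonneg (Finset.filter_subset _ _) fun _ _ _ => by positivity
  refine hA.trans (mul_le_mul_of_nonneg_left ?_ (by positivity))
  refine hm.trans ?_
  have hlog : 0 ≤ Real.log (4 * ((D * V : ℕ) : ℝ)) := by
    apply Real.log_nonneg
    have : (1 : ℝ) ≤ ((4 * (D * V) : ℕ) : ℝ) := by exact_mod_cast hDV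
    rwa [hcast] at this
  exact mul_le_mul_of_nonneg_left f3 (by positivity)

end Pool.Agent.Lib.TR
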