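import Pool.Agent.Lib.TR.SpecF

/-!
MP_00e23e_nt, directory Lib/TR, module Fbs: splitting of the error.
-/

set_option autoImplicit false

namespace Pool.Agent.Lib.TR

open Finset Pool.Agent.Lib.EH3 Pool.Agent.Results.MP_00e23e_nt

private theorem Fbs_split (S : Finset ℤ) (h0 : (0 : ℤ) ∈ S) (Q : ℤ → Prop) [DecidablePred Q]
    (F : ℤ → ℝ) : ∑ u ∈ S, F u = F 0 + ∑ u ∈ S.filter (fun u => u ≠ 0 ∧ Q u), F u +
      ∑ u ∈ S.filter (fun u => u ≠ 0 ∧ ¬ Q u), F u := by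
  have h1 : ∑ u ∈ S, F u = F 0 + ∑ u ∈ S.filter (fun u => u ≠ 0), F u := by
    rw [← Finset.add_sum_erase S F h0]
    congr 1
    apply Finset.sum_congr _ (fun _ _ => rfl)
    ext u
    simp only [Finset.mem_erase, Finset.mem_filter]
    tauto
  rw [h1, add_assoc]
  congr 1
  rw [← Finset.sum_filter_add_sum_filter_not (S.filter (fun u => u ≠ 0)) Q F,
    Finset.filter_filter, Finset.filter_filter]

private theorem Fbs_fc_le (z : ℕ) (y n : ℤ) (M : ℝ) (hM : 0 ≤ M) (h : ∀ n, |ff z n| ≤ M) :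
    |fc z y n| ≤ M := by
  unfold fc
  split_ifs
  · exact h n
  · simpa using hM

private theorem Fbs_fc_mono (z : ℕ) (y y' n : ℤ) (h : y ≤ y') : |fc z y n| ≤ |fc z y' n| := by
  unfold fc
  by_cases h1 : n ≤ y
  · rw [if_pos h1, if_pos (h1.trans h)]
  · rw [if_neg h1, abs_zero]
    exact abs_nonneg _

theorem tFbs (h1 : FgrStmt) (h2 : FidStmt) : FbsStmt := by
  intro z D d U G P0 P1 a x y M hD hd hG hy hyx ha hU hM hff
  have hx : 0 < x := by linarith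
  have e1 := h2 z D d U a x y hD hd hy hyx ha hU
  have e2 := Fbs_split (Icc (-(U : ℤ)) U) (by simp) (fun u => Good P0 P1 u.natAbs)
    (fun u => fc z ⌊y⌋ (a + d * u))
  have e3 := h1 z D d G a ((Icc (-(U : ℤ)) U).filter (fun u => u ≠ 0 ∧ Good P0 P1 u.natAbs)) x y M
    hD hd hG hx (by linarith) hyx hM hff
  have e4 : |fc z ⌊y⌋ (a + d * 0)| ≤ M := Fbs_fc_le z _ _ M hM hff
  have e5 : |∑ u ∈ (Icc (-(U : ℤ)) U).filter (fun u => u ≠ 0 ∧ ¬ Good P0 P1 u.natAbs),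
      fc z ⌊y⌋ (a + d * u)| ≤
      ∑ u ∈ (Icc (-(U : ℤ)) U).filter (fun u => u ≠ 0 ∧ ¬ Good P0 P1 u.natAbs),
        |fc z ⌊x⌋ (a + d * u)| := by
    refine (Finset.abs_sum_le_sum_abs _ _).trans (Finset.sum_le_sum fun u _ => ?_)
    exact Fbs_fc_mono z _ _ _ (Int.floor_le_floor hyx)
  rw [e1, e2]
  refine (abs_add_le _ _).trans ?_
  have e6 := abs_add_le (fc z ⌊y⌋ (a + d * 0) +
    ∑ u ∈ (Icc (-(U : ℤ)) U).filter (fun u => u ≠ 0 ∧ Good P0 P1 u.natAbs),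
      fc z ⌊y⌋ (a + d * u))
    (∑ u ∈ (Icc (-(U : ℤ)) U).filter (fun u => u ≠ 0 ∧ ¬ Good P0 P1 u.natAbs),
      fc z ⌊y⌋ (a + d * u))
  have e7 := abs_add_le (fc z ⌊y⌋ (a + d * 0))
    (∑ u ∈ (Icc (-(U : ℤ)) U).filter (fun u => u ≠ 0 ∧ Good P0 P1 u.natAbs),
      fc z ⌊y⌋ (a + d * u))
  have e8 : M * (x / (G * D) + 2) = M + M * (x / (G * D) + 1) := by ring
  rw [e8]
  linarith

end Pool.Agent.Lib.TR
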