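import Pool.Agent.Lib.TR.SpecF

/-!
MP_00e23e_nt, directory Lib/TR, chapter F, module Fct: cutting an interval (strong induction on its length).
-/

set_option autoImplicit false

namespace Pool.Agent.Lib.TR

open Finset Pool.Agent.Lib.EH3 Pool.Agent.Results.MP_00e23e_nt

private lemma Fct_main (F : ℤ → ℝ) (H1 : ℕ) (κ : ℝ) (h1 : 1 ≤ H1) : ∀ (H : ℕ) (A : ℤ), H1 ≤ H →
    (∀ (A' : ℤ) (H' : ℕ), A ≤ A' → A' + H' ≤ A + H → H1 ≤ H' → H' ≤ 2 * H1 →
      ∑ a ∈ Ico A' (A' + H'), F a ≤ κ * H') →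
    ∑ a ∈ Ico A (A + H), F a ≤ κ * H := by
  intro H
  induction H using Nat.strong_induction_on with
  | _ H ih =>
    intro A hH hyp
    by_cases h2 : H ≤ 2 * H1
    · exact hyp A H le_rfl le_rfl hH h2
    · push Not at h2
      have hA : ∑ a ∈ Ico A (A + (H1 : ℕ)), F a ≤ κ * (H1 : ℕ) :=
        hyp A H1 le_rfl (by omega) le_rfl (by omega)
      have hB : ∑ a ∈ Ico (A + (H1 : ℕ)) (A + (H1 : ℕ) + ((H - H1 : ℕ) : ℤ)), F a ≤ κ * ((H - H1 : ℕ) : ℝ) := by
        refine ih (H - H1) (by omega) (A + (H1 : ℕ)) (by omega) ?_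
        intro A' H' hA1 hA2 hA3 hA4
        exact hyp A' H' (by omega) (by omega) hA3 hA4
      have hE : A + (H1 : ℕ) + ((H - H1 : ℕ) : ℤ) = A + (H : ℕ) := by omega
      rw [hE] at hB
      have hS : ∑ a ∈ Ico A (A + (H : ℕ)), F a =
          ∑ a ∈ Ico A (A + (H1 : ℕ)), F a + ∑ a ∈ Ico (A + (H1 : ℕ)) (A + (H : ℕ)), F a := by
        rw [← Finset.sum_union (Finset.Ico_disjoint_Ico_consecutive _ _ _),
          Finset.Ico_union_Ico_eq_Ico (by omega) (by omega)]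
      have hC : ((H - H1 : ℕ) : ℝ) = (H : ℝ) - (H1 : ℝ) := by
        rw [Nat.cast_sub hH]
      rw [hS]
      rw [hC] at hB
      nlinarith [hA, hB]

/-- Cutting an interval into pieces of length between H1 and 2 H1. -/
theorem tFct : FctStmt := by
  intro F A H H1 κ h1 hH hyp
  exact Fct_main F H1 κ h1 H A hH hyp

end Pool.Agent.Lib.TR
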