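import Pool.Agent.Lib.TR.SpecF

/-!
MP_00e23e_nt, directory Lib/TR, chapter F, module Fgd (helper78): the good u, primes minus model, one y.
-/

set_option autoImplicit false

namespace Pool.Agent.Lib.TR

open Finset Pool.Agent.Lib.EH3 Pool.Agent.Results.MP_00e23e_nt

/-- sizes -/
private lemma Fgd_size (C2 ζ L : ℝ) (hC : 1 ≤ C2) (hζ : 6 ≤ ζ) (hL2 : 2 ≤ L)
    (hL : (1 + 4 * C2 * (ζ + 1)) ^ 2 ≤ L) :
    2 ≤ ⌈L ^ ζ⌉₊ ∧ 1 + 2 * C2 * Real.log (⌈L ^ ζ⌉₊ : ℝ) ≤ L := by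
  have hL0 : 0 < L := by linarith
  have hL1 : 1 ≤ L := by linarith
  have hζ0 : 0 < ζ := by linarith
  have h1 : 1 < L ^ ζ := Real.one_lt_rpow (by linarith) hζ0
  have h2 : 2 ≤ ⌈L ^ ζ⌉₊ := by
    have h3 : 1 < ⌈L ^ ζ⌉₊ := by
      rw [Nat.lt_ceil]
      exact_mod_cast h1
    omega
  refine ⟨h2, ?_⟩
  have h3 : (⌈L ^ ζ⌉₊ : ℝ) < L ^ ζ + 1 := Nat.ceil_lt_add_one (by linarith)
  have h4 : (⌈L ^ ζ⌉₊ : ℝ) ≤ L ^ (ζ + 1) := by
    rw [Real.rpow_add hL0, Real.rpow_one]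
    nlinarith
  have h5 : Real.log (⌈L ^ ζ⌉₊ : ℝ) ≤ (ζ + 1) * Real.log L := by
    rw [← Real.log_rpow hL0]
    refine Real.log_le_log ?_ h4
    have : (2 : ℝ) ≤ (⌈L ^ ζ⌉₊ : ℝ) := by exact_mod_cast h2
    linarith
  have hs0 : 0 ≤ Real.sqrt L := Real.sqrt_nonneg L
  have h6 : Real.log L ≤ 2 * Real.sqrt L := by
    have h7 : Real.log L = 2 * Real.log (Real.sqrt L) := by
      rw [Real.log_sqrt hL0.le]
      ring
    rw [h7]
    have h8 := Real.log_le_sub_one_of_pos (Real.sqrt_pos.2 hL0)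
    linarith
  have h7 : 1 + 4 * C2 * (ζ + 1) ≤ Real.sqrt L := by
    apply Real.le_sqrt_of_sq_le
    exact hL
  have h8 : 1 ≤ Real.sqrt L := by
    apply Real.le_sqrt_of_sq_le
    linarith
  have h9 : Real.sqrt L * Real.sqrt L = L := Real.mul_self_sqrt hL0.le
  have hCz : 0 ≤ C2 * (ζ + 1) := by positivity
  calc 1 + 2 * C2 * Real.log (⌈L ^ ζ⌉₊ : ℝ) ≤ 1 + 2 * C2 * ((ζ + 1) * (2 * Real.sqrt L)) := by
        have h10 : Real.log (⌈L ^ ζ⌉₊ : ℝ) ≤ (ζ + 1) * (2 * Real.sqrt L) :=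
          h5.trans (mul_le_mul_of_nonneg_left h6 (by linarith))
        have h11 : 0 ≤ 2 * C2 := by linarith
        have h12 := mul_le_mul_of_nonneg_left h10 h11
        linarith
    _ ≤ (1 + 4 * C2 * (ζ + 1)) * Real.sqrt L := by nlinarith
    _ ≤ Real.sqrt L * Real.sqrt L := mul_le_mul_of_nonneg_right h7 hs0
    _ = L := h9

theorem tFgd (h1 : FpoStmt) (h2 : FrfStmt) (h3 : NswStmt) (h4 : NszStmt) : FgdStmt := by
  intro ε A hε hε1 hA
  obtain ⟨B0, B1, β, A2, c0, x1, hB0, hB1, hβ, hA2, hc0, hc01, hx1, hF⟩ :=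
    h1 ε (A + 1) hε hε1 (by linarith)
  obtain ⟨hR1, hR2⟩ := h2
  obtain ⟨⟨C2, hC2, hZ⟩, -, hZ0, -⟩ := h4
  set ζ : ℝ := max β 6 with hζ
  have hζ6 : 6 ≤ ζ := le_max_right _ _
  have hζβ : β ≤ ζ := le_max_left _ _
  obtain ⟨C1, x2, hC1, hx2, hN⟩ := h3 (A2 + 1) ζ (by linarith) (by linarith)
  set Λ : ℝ := max (max C1 2) ((1 + 4 * C2 * (ζ + 1)) ^ 2) with hΛ
  refine ⟨B0, B1, ζ, c0, max (max x1 x2) (Real.exp Λ), hB0, hB1, hζ6, hc0, hc01,
    hx1.trans ((le_max_left _ _).trans (le_max_left _ _)), ?_⟩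
  intro x y D U P0 P1 H A0 hx hy2 hyx hD hDx hDU hU hP0 hP01 hP1 hH hA0
  have hxx1 : x1 ≤ x := (le_max_left _ _).trans ((le_max_left _ _).trans hx)
  have hxx2 : x2 ≤ x := (le_max_right _ _).trans ((le_max_left _ _).trans hx)
  have hx0 : 0 < x := by linarith
  have hΛL : Λ ≤ Real.log x := by
    rw [Real.le_log_iff_exp_le hx0]
    exact (le_max_right _ _).trans hx
  set L : ℝ := Real.log x with hL
  have hLC1 : C1 ≤ L := (le_max_left _ _).trans ((le_max_left _ _).trans hΛL)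
  have hL2 : 2 ≤ L := (le_max_right _ _).trans ((le_max_left _ _).trans hΛL)
  have hLk : (1 + 4 * C2 * (ζ + 1)) ^ 2 ≤ L := (le_max_right _ _).trans hΛL
  have hL0 : 0 < L := by linarith
  have hL1 : 1 ≤ L := by linarith
  obtain ⟨hz2, hzL⟩ := Fgd_size C2 ζ L hC2 hζ6 hL2 hLk
  have hzz : zz ζ x = ⌈L ^ ζ⌉₊ := rfl
  set z : ℕ := zz ζ x with hz
  rw [← hzz] at hz2 hzL
  have hff : ∀ n : ℤ, |ff z n| ≤ L := fun n => ((hZ z n hz2).2.2).trans hzL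
  have hfc : ∀ n : ℤ, |fc z ⌊y⌋ n| ≤ L := by
    intro n
    unfold fc
    split_ifs
    · exact hff n
    · rw [abs_zero]
      exact hL0.le
  set f : ℤ → ℂ := fun n => ((fc z ⌊y⌋ n : ℝ) : ℂ) with hf
  have hAdm : Adm x β A2 f := by
    refine ⟨?_, ?_, ?_⟩
    · intro n
      change ‖((fc z ⌊y⌋ n : ℝ) : ℂ)‖ ≤ L
      rw [Complex.norm_real, Real.norm_eq_abs]
      exact hfc n
    · intro n hn
      change ((fc z ⌊y⌋ n : ℝ) : ℂ) = 0
      have h5 : fc z ⌊y⌋ n = 0 := by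
        unfold fc
        rcases lt_abs.1 hn with h | h
        · rw [if_neg]
          intro h6
          have h7 : (n : ℝ) ≤ (⌊y⌋ : ℝ) := by exact_mod_cast h6
          have h8 := Int.floor_le y
          linarith
        · have h6 : n < 1 := by
            have h7 : (n : ℝ) < 1 := by linarith
            exact_mod_cast h7
          rw [hZ0 z n h6, ite_self]
      rw [h5, Complex.ofReal_zero]
    · intro q b u v hq hqL
      have h5 : ∑ n ∈ (Ico u v).filter (fun n => (q : ℤ) ∣ n - b), f n =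
          ((∑ n ∈ (Ico u v).filter (fun n => (q : ℤ) ∣ n - b), fc z ⌊y⌋ n : ℝ) : ℂ) := by
        rw [Complex.ofReal_sum]
      rw [h5, Complex.norm_real, Real.norm_eq_abs]
      have h6 : (q : ℝ) ≤ L ^ ζ := hqL.trans (Real.rpow_le_rpow_of_exponent_le hL1 hζβ)
      refine (hN x y q b u v hxx2 hy2 hyx hq h6).trans ?_
      have h7 : L ^ (-(A2 + 1)) = L ^ (-A2) / L := by
        rw [show -(A2 + 1) = -A2 - 1 by ring, Real.rpow_sub hL0, Real.rpow_one]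
      change C1 * (x * L ^ (-(A2 + 1))) ≤ x * L ^ (-A2)
      rw [h7]
      have h8 : 0 < L ^ (-A2) := Real.rpow_pos_of_pos hL0 _
      have h9 : C1 * (x * (L ^ (-A2) / L)) = (C1 / L) * (x * L ^ (-A2)) := by ring
      rw [h9]
      have h10 : C1 / L ≤ 1 := (div_le_one hL0).2 hLC1
      have h11 : 0 < x * L ^ (-A2) := mul_pos hx0 h8
      nlinarith
  have hAdm' : Adm x β A2 (fun n => f (-n)) := hR1 x β A2 f hAdm
  set S : ℤ → ℕ → ℝ := fun a d =>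
    ∑ u ∈ (Icc (-(U : ℤ)) U).filter (fun u => u ≠ 0 ∧ Good P0 P1 u.natAbs), fc z ⌊y⌋ (a + d * u)
    with hS
  set c : ℤ → ℕ → ℂ := fun a d =>
    if Int.gcd a d = 1 then (if 0 ≤ S a d then (1 : ℂ) else -1) else 0 with hc
  have hc1 : ∀ a d, ‖c a d‖ ≤ 1 := by
    intro a d
    change ‖if Int.gcd a d = 1 then (if 0 ≤ S a d then (1 : ℂ) else -1) else 0‖ ≤ 1
    split_ifs
    · rw [norm_one]
    · rw [norm_neg, norm_one]
    · rw [norm_zero]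
      exact zero_le_one
  have hkey : ((∑ a ∈ Ico A0 (A0 + H), ∑ d ∈ (Ioc D (2 * D)).filter (fun d : ℕ => Int.gcd a d = 1),
      |S a d| : ℝ) : ℂ) = ∑ a ∈ Ico A0 (A0 + H), ∑ d ∈ Ioc D (2 * D),
      ∑ u ∈ (Icc (-(U : ℤ)) U).filter (fun u => u ≠ 0 ∧ Good P0 P1 u.natAbs), c a d * f (a + d * u) := by
    rw [Complex.ofReal_sum]
    refine sum_congr rfl fun a _ => ?_
    rw [Complex.ofReal_sum, sum_filter]
    refine sum_congr rfl fun d _ => ?_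
    rw [← mul_sum]
    have h5 : ∑ u ∈ (Icc (-(U : ℤ)) U).filter (fun u => u ≠ 0 ∧ Good P0 P1 u.natAbs),
        f (a + d * u) = ((S a d : ℝ) : ℂ) := by
      change _ = ((∑ u ∈ (Icc (-(U : ℤ)) U).filter (fun u => u ≠ 0 ∧ Good P0 P1 u.natAbs),
        fc z ⌊y⌋ (a + d * u) : ℝ) : ℂ)
      rw [Complex.ofReal_sum]
    rw [h5]
    change (if Int.gcd a d = 1 then ((|S a d| : ℝ) : ℂ) else 0) =
      (if Int.gcd a d = 1 then (if 0 ≤ S a d then (1 : ℂ) else -1) else 0) * ((S a d : ℝ) : ℂ)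
    split_ifs with h6 h7
    · rw [abs_of_nonneg h7, one_mul]
    · rw [abs_of_neg (not_le.1 h7), Complex.ofReal_neg]
      ring
    · rw [zero_mul]
  have hA0' : ∀ a ∈ Ico (1 - A0 - (H : ℤ)) (1 - A0 - (H : ℤ) + H), |(a : ℝ)| ≤ x := by
    intro a ha
    rw [mem_Ico] at ha
    have h5 := hA0 (-a) (by rw [mem_Ico]; omega)
    rwa [Int.cast_neg, abs_neg] at h5
  have hT1 := hF x D U P0 P1 H A0 c f hxx1 hD hDx hDU hU hP0 hP01 hP1 hH hA0 hc1 hAdm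
  have hT2 := hF x D U P0 P1 H (1 - A0 - (H : ℤ)) (fun a d => c (-a) d) (fun n => f (-n)) hxx1 hD hDx
    hDU hU hP0 hP01 hP1 hH hA0' (fun a d => hc1 (-a) d) hAdm'
  have hB : ‖((∑ a ∈ Ico A0 (A0 + H), ∑ d ∈ (Ioc D (2 * D)).filter (fun d : ℕ => Int.gcd a d = 1),
      |S a d| : ℝ) : ℂ)‖ ≤ H * (x * L ^ (-(A + 1))) + H * (x * L ^ (-(A + 1))) := by
    rw [hkey, hR2 A0 H D U P0 P1 c f]
    exact (norm_add_le _ _).trans (add_le_add hT1 hT2)
  rw [Complex.norm_real, Real.norm_eq_abs] at hB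
  have hfin : (H : ℝ) * (x * L ^ (-(A + 1))) + H * (x * L ^ (-(A + 1))) ≤ H * (x * L ^ (-A)) := by
    have h7 : L ^ (-(A + 1)) = L ^ (-A) / L := by
      rw [show -(A + 1) = -A - 1 by ring, Real.rpow_sub hL0, Real.rpow_one]
    rw [h7]
    have h8 : 0 < L ^ (-A) := Real.rpow_pos_of_pos hL0 _
    have h9 : (H : ℝ) * (x * (L ^ (-A) / L)) + H * (x * (L ^ (-A) / L)) =
        (2 / L) * (H * (x * L ^ (-A))) := by ring
    rw [h9]
    have h10 : 2 / L ≤ 1 := (div_le_one hL0).2 hL2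
    have h11 : 0 ≤ (H : ℝ) * (x * L ^ (-A)) := by positivity
    nlinarith
  exact ((le_abs_self _).trans hB).trans hfin

end Pool.Agent.Lib.TR
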