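import Pool.Agent.Lib.TR.SpecF

/-!
MP_00e23e_nt, directory Lib/TR, module Fgr: the grid in y.
-/

set_option autoImplicit false

namespace Pool.Agent.Lib.TR

open Finset Pool.Agent.Lib.EH3 Pool.Agent.Results.MP_00e23e_nt

private theorem Fgr_card (d : ℕ) (a : ℤ) (T : Finset ℤ) (α β w : ℝ) (hd : 0 < d) (hw : 0 ≤ w)
    (hβ : β ≤ α + w) (hT : ∀ u ∈ T, α < ((a + d * u : ℤ) : ℝ) ∧ ((a + d * u : ℤ) : ℝ) ≤ β) :
    (T.card : ℝ) ≤ w / d + 1 := by
  have hd' : (0 : ℝ) < d := by exact_mod_cast hd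
  rcases T.eq_empty_or_nonempty with h | h
  · rw [h]; simp only [Finset.card_empty, Nat.cast_zero]; positivity
  · set u0 := T.min' h
    set u1 := T.max' h
    have h0 : u0 ∈ T := T.min'_mem h
    have h1 : u1 ∈ T := T.max'_mem h
    have h01 : u0 ≤ u1 := T.min'_le _ h1
    have hsub : T ⊆ Icc u0 u1 := by
      intro u hu
      rw [mem_Icc]
      exact ⟨T.min'_le _ hu, T.le_max' _ hu⟩
    have hc := Finset.card_le_card hsub
    rw [Int.card_Icc] at hc
    have hc2 : (T.card : ℤ) ≤ u1 - u0 + 1 := by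
      have : ((u1 + 1 - u0).toNat : ℤ) = u1 + 1 - u0 := Int.toNat_of_nonneg (by linarith)
      have h3 : (T.card : ℤ) ≤ ((u1 + 1 - u0).toNat : ℤ) := by exact_mod_cast hc
      linarith
    have hc3 : (T.card : ℝ) ≤ (u1 : ℝ) - u0 + 1 := by exact_mod_cast hc2
    have e0 := (hT u0 h0).1
    have e1 := (hT u1 h1).2
    push_cast at e0 e1
    have h4 : (d : ℝ) * ((u1 : ℝ) - u0) ≤ w := by nlinarith
    have h5 : (u1 : ℝ) - u0 ≤ w / d := by
      rw [le_div_iff₀ hd']
      linarith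
    linarith

theorem tFgr : FgrStmt := by
  intro z D d G a S x y M hD hDd hG hx hy0 hyx hM hff
  have hG' : (0 : ℝ) < G := by exact_mod_cast hG
  have hD' : (0 : ℝ) < D := by exact_mod_cast hD
  have hdD : (D : ℝ) ≤ d := by exact_mod_cast hDd.le
  have hd0 : 0 < d := by omega
  set g := ⌊y * G / x⌋₊ with hg
  have hgle : (g : ℝ) ≤ y * G / x := Nat.floor_le (by positivity)
  have hglt : y * G / x < g + 1 := Nat.lt_floor_add_one _
  have h1 : (g : ℝ) * x / G ≤ y := by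
    rw [div_le_iff₀ hG']
    rwa [le_div_iff₀ hx] at hgle
  have h2 : y < (g + 1) * x / G := by
    rw [lt_div_iff₀ hG']
    rwa [div_lt_iff₀ hx] at hglt
  have hgG : g ≤ G := by
    have : (g : ℝ) ≤ G := by
      refine hgle.trans ?_
      rw [div_le_iff₀ hx]
      nlinarith
    exact_mod_cast this
  set t : ℝ := (g : ℝ) * x / G with ht
  have hty : ⌊t⌋ ≤ ⌊y⌋ := Int.floor_le_floor h1
  have hyt : y ≤ t + x / G := by
    have e : ((g : ℝ) + 1) * x / G = t + x / G := by rw [ht]; ring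
    linarith
  -- pointwise
  have hpt : ∀ n : ℤ, |fc z ⌊y⌋ n - fc z ⌊t⌋ n| ≤ if ⌊t⌋ < n ∧ n ≤ ⌊y⌋ then M else 0 := by
    intro n
    unfold fc
    by_cases hn1 : n ≤ ⌊t⌋
    · rw [if_pos hn1, if_pos (hn1.trans hty), sub_self, abs_zero]
      split_ifs
      · exact hM
      · exact le_rfl
    · rw [if_neg hn1]
      by_cases hn2 : n ≤ ⌊y⌋
      · rw [if_pos hn2, if_pos ⟨not_le.1 hn1, hn2⟩, sub_zero]
        exact hff n
      · rw [if_neg hn2, sub_zero, abs_zero]
        split_ifs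
        · exact hM
        · exact le_rfl
  have hdiff : |∑ u ∈ S, fc z ⌊y⌋ (a + d * u)| ≤ |∑ u ∈ S, fc z ⌊t⌋ (a + d * u)| +
      M * (x / (G * D) + 1) := by
    have e1 : ∑ u ∈ S, fc z ⌊y⌋ (a + d * u) = ∑ u ∈ S, fc z ⌊t⌋ (a + d * u) +
        ∑ u ∈ S, (fc z ⌊y⌋ (a + d * u) - fc z ⌊t⌋ (a + d * u)) := by
      rw [Finset.sum_sub_distrib]; ring
    have e2 : |∑ u ∈ S, (fc z ⌊y⌋ (a + d * u) - fc z ⌊t⌋ (a + d * u))| ≤ M * (x / (G * D) + 1) := by
      refine (Finset.abs_sum_le_sum_abs _ _).trans ?_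
      refine (Finset.sum_le_sum (fun u _ => hpt (a + d * u))).trans ?_
      rw [← Finset.sum_filter, Finset.sum_const, nsmul_eq_mul, mul_comm]
      apply mul_le_mul_of_nonneg_left _ hM
      have hc := Fgr_card d a (S.filter (fun u => ⌊t⌋ < a + d * u ∧ a + d * u ≤ ⌊y⌋)) t y (x / G) hd0
        (by positivity) hyt ?_
      · refine hc.trans ?_
        have : x / G / d ≤ x / (G * D) := by
          rw [div_div]
          apply div_le_div_of_nonneg_left hx.le (by positivity)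
          exact mul_le_mul_of_nonneg_left hdD hG'.le
        linarith
      · intro u hu
        rw [mem_filter] at hu
        exact ⟨Int.floor_lt.1 hu.2.1, Int.le_floor.1 hu.2.2⟩
    rw [e1]
    refine (abs_add_le _ _).trans ?_
    linarith
  refine hdiff.trans ?_
  have hmain : |∑ u ∈ S, fc z ⌊t⌋ (a + d * u)| ≤
      ∑ g ∈ Icc 1 G, |∑ u ∈ S, fc z ⌊(g : ℝ) * x / G⌋ (a + d * u)| := by
    rcases Nat.eq_zero_or_pos g with h0 | h0
    · have ht0 : t = 0 := by rw [ht, h0]; simp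
      have hz : ∑ u ∈ S, fc z ⌊t⌋ (a + d * u) = 0 := by
        apply Finset.sum_eq_zero
        intro u _
        rw [ht0, Int.floor_zero]
        unfold fc ff
        by_cases hn : (a + d * u : ℤ) ≤ 0
        · rw [if_pos hn, if_neg (by linarith)]
        · rw [if_neg hn]
      rw [hz, abs_zero]
      exact Finset.sum_nonneg (fun _ _ => abs_nonneg _)
    · exact Finset.single_le_sum (f := fun g : ℕ => |∑ u ∈ S, fc z ⌊(g : ℝ) * x / G⌋ (a + d * u)|)
        (fun _ _ => abs_nonneg _) (mem_Icc.2 ⟨h0, hgG⟩)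
  linarith

end Pool.Agent.Lib.TR
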