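import Pool.Agent.Lib.TR.SpecF

/-! MP_00e23e_nt, Lib/TR, module Fid: the identity for the error (after Lib/UI/Blu.lean). -/

set_option autoImplicit false

namespace Pool.Agent.Lib.TR

open Finset Pool.Agent.Lib.EH3 Pool.Agent.Results.MP_00e23e_nt

/-- the sum over the progression -/
private lemma Fid_reidx {z D d U : ℕ} {a : ℤ} {x y : ℝ} (hD : 1 ≤ D) (hDd : D < d) (hyx : y ≤ x)
    (ha : |(a : ℝ)| ≤ x) (hU : 2 * x ≤ (D : ℝ) * U) :
    ∑ u ∈ Icc (-(U : ℤ)) U, fc z ⌊y⌋ (a + d * u) =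
      ∑ n ∈ (Icc (1 : ℤ) ⌊y⌋).filter (fun n => (d : ℤ) ∣ n - a), fc z ⌊y⌋ n := by
  have hd0 : (0 : ℤ) < d := by
    have : 0 < d := by omega
    exact_mod_cast this
  rw [← Finset.sum_filter_of_ne (s := Icc (-(U : ℤ)) U) (p := fun k => 1 ≤ a + d * k ∧ a + d * k ≤ ⌊y⌋)]
  · refine Finset.sum_nbij' (fun k => a + d * k) (fun n => (n - a) / d) ?_ ?_ ?_ ?_ ?_
    · intro k hk
      rw [mem_filter] at hk
      rw [mem_filter, mem_Icc]
      refine ⟨hk.2, ?_⟩
      rw [add_sub_cancel_left]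
      exact dvd_mul_right _ _
    · intro n hn
      rw [mem_filter, mem_Icc] at hn
      obtain ⟨⟨h1, h2⟩, h3⟩ := hn
      obtain ⟨k, hk⟩ := h3
      have hk2 : (n - a) / d = k := by
        rw [hk]
        exact Int.mul_ediv_cancel_left _ hd0.ne'
      have hn' : n = a + d * k := by linarith
      rw [hk2, mem_filter, mem_Icc]
      refine ⟨?_, by rw [← hn']; exact ⟨h1, h2⟩⟩
      rw [← abs_le]
      have hD0 : (0 : ℝ) < D := by exact_mod_cast hD
      have h4 : |(k : ℝ)| * D ≤ U * D := by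
        have h5 : |(k : ℝ)| * d = |(n : ℝ) - a| := by
          have e : (n : ℝ) - a = d * k := by exact_mod_cast hk
          rw [e, abs_mul, Nat.abs_cast, mul_comm]
        have h6 : |(n : ℝ) - a| ≤ 2 * x := by
          have e1 := abs_le.1 ha
          have e2 : (n : ℝ) ≤ y := (Int.cast_le.2 h2).trans (Int.floor_le y)
          have e3 : (1 : ℝ) ≤ n := by exact_mod_cast h1
          rw [abs_le]
          constructor <;> linarith
        have h7 : (D : ℝ) ≤ d := by exact_mod_cast hDd.le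
        have h8 : |(k : ℝ)| * D ≤ |(k : ℝ)| * d := mul_le_mul_of_nonneg_left h7 (abs_nonneg _)
        linarith
      have h9 : |(k : ℝ)| ≤ U := le_of_mul_le_mul_right h4 hD0
      have h10 : ((|k| : ℤ) : ℝ) ≤ ((U : ℤ) : ℝ) := by
        push_cast
        exact h9
      exact_mod_cast h10
    · intro k _
      rw [add_sub_cancel_left]
      exact Int.mul_ediv_cancel_left _ hd0.ne'
    · intro n hn
      rw [mem_filter] at hn
      obtain ⟨k, hk⟩ := hn.2
      rw [hk, Int.mul_ediv_cancel_left _ hd0.ne', ← hk]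
      ring
    · intro k _
      rfl
  · intro k _ hne
    by_contra hcon
    apply hne
    unfold fc ff
    by_cases h1 : a + d * k ≤ ⌊y⌋
    · rw [if_pos h1]
      have h2 : ¬ 1 ≤ a + d * k := fun h => hcon ⟨h, h1⟩
      rw [if_neg h2]
    · rw [if_neg h1]

/-- the primes in the progression -/
private lemma Fid_count {d : ℕ} {a : ℤ} {y : ℝ} (hy : 0 ≤ y) :
    (resCount y d a : ℝ) = ∑ n ∈ (Icc (1 : ℤ) ⌊y⌋).filter (fun n => (d : ℤ) ∣ n - a),
      (if n.toNat.Prime then (1 : ℝ) else 0) := by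
  unfold resCount
  rw [← Finset.sum_filter, Finset.filter_filter]
  rw [Finset.sum_const, nsmul_eq_mul, mul_one]
  norm_cast
  refine Finset.card_nbij' (fun p : ℕ => (p : ℤ)) (fun n : ℤ => n.toNat) ?_ ?_ ?_ ?_
  · intro p hp
    rw [mem_coe, mem_filter, mem_Icc] at hp
    obtain ⟨⟨h1, h2⟩, h3, h4⟩ := hp
    have h5 : (p : ℤ) ≤ ⌊y⌋ := by
      rw [← Int.natCast_floor_eq_floor hy]
      exact_mod_cast h2
    have h6 : (1 : ℤ) ≤ p := by exact_mod_cast h1
    beta_reduce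
    rw [mem_coe, mem_filter, mem_Icc]
    exact ⟨⟨h6, h5⟩, h4, by simpa using h3⟩
  · intro n hn
    rw [mem_coe, mem_filter, mem_Icc] at hn
    obtain ⟨⟨h1, h2⟩, h3, h4⟩ := hn
    have h5 : ((n.toNat : ℕ) : ℤ) = n := Int.toNat_of_nonneg (by linarith)
    rw [← Int.natCast_floor_eq_floor hy] at h2
    beta_reduce
    rw [mem_coe, mem_filter, mem_Icc]
    have h6 : 1 ≤ n.toNat := by omega
    have h7 : n.toNat ≤ ⌊y⌋₊ := by omega
    exact ⟨⟨h6, h7⟩, h4, by rw [h5]; exact h3⟩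
  · intro p _
    simp
  · intro n hn
    rw [mem_coe, mem_filter, mem_Icc] at hn
    exact Int.toNat_of_nonneg (by linarith [hn.1.1])

private lemma Fid_split {z d : ℕ} {a : ℤ} {y : ℝ} (hy : 0 ≤ y) :
    (resCount y d a : ℝ) = (∑ n ∈ (Icc (1 : ℤ) ⌊y⌋).filter (fun n => (d : ℤ) ∣ n - a), fc z ⌊y⌋ n) +
      ∑ n ∈ (Icc (1 : ℤ) ⌊y⌋).filter (fun n => (d : ℤ) ∣ n - a), Pool.Agent.Lib.UI.lci n * nu z n := by
  rw [Fid_count hy, ← Finset.sum_add_distrib]
  apply Finset.sum_congr rfl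
  intro n hn
  rw [mem_filter, mem_Icc] at hn
  unfold fc ff
  rw [if_pos hn.1.2, if_pos hn.1.1]
  ring

theorem tFid : FidStmt := by
  intro z D d U a x y hD hDd hy hyx ha hU
  rw [Fid_reidx hD hDd hyx ha hU]
  unfold resErr
  rw [Fid_split (z := z) (d := d) (a := a) (y := y) (by linarith)]
  ring

end Pool.Agent.Lib.TR
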