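import Pool.Agent.Lib.TR.SpecF

/-!
MP_00e23e_nt, directory Lib/TR, chapter F, module Fko: one sum KS, all sizes of P and V.
-/

set_option autoImplicit false

namespace Pool.Agent.Lib.TR

open Finset Pool.Agent.Lib.EH3 Pool.Agent.Results.MP_00e23e_nt

private lemma Fko_rho_le (P0 P1 l : ℕ) : |rho P0 P1 l| ≤ 1 := by
  unfold rho
  split_ifs
  · rw [abs_div, abs_pow, abs_neg, abs_one, one_pow]
    have h : (0 : ℝ) ≤ (l.primeFactors.card : ℝ) := by positivity
    rw [abs_of_pos (by linarith), div_le_one (by linarith)]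
    linarith
  · simp

private lemma Fko_rho_ne {P0 P1 l : ℕ} (h : rho P0 P1 l ≠ 0) : SqP P0 P1 l := by
  by_contra hn
  apply h
  unfold rho
  rw [if_neg hn]

theorem tFko (hK : KeyStmt) (hF : FksStmt) : FkoStmt := by
  intro ε A hε hε1 hA
  obtain ⟨B0, B1, β, A2, x1, hB0, hB1, hβ, hβB, hA2, hx1, hKey⟩ := hK ε A hε hε1 hA
  have hev := (isLittleO_log_rpow_rpow_atTop (A + 5) (by positivity : (0 : ℝ) < ε / 4)).bound one_pos
  obtain ⟨x2, hx2⟩ := Filter.eventually_atTop.mp hev
  refine ⟨B0, B1, β, A2, max x1 (max (Real.exp 6) x2), hB0, hB1, hβ, hA2, hx1.trans (le_max_left _ _), ?_⟩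
  intro x D P V Z P0 P1 H A0 c f hx hD hDx hV hZ hZx hP0 hP0P hP1H hHx ha hc hf
  obtain ⟨hf1, hf2, hf3⟩ := hf
  have hxx1 : x1 ≤ x := (le_max_left _ _).trans hx
  have hxe : Real.exp 6 ≤ x := ((le_max_left _ _).trans (le_max_right _ _)).trans hx
  have hxx2 : x2 ≤ x := ((le_max_right _ _).trans (le_max_right _ _)).trans hx
  have hx3 : 3 ≤ x := hx1.trans hxx1
  have hxpos : 0 < x := by linarith
  have hx1' : 1 ≤ x := by linarith
  set L := Real.log x with hL
  have hL6 : 6 ≤ L := by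
    rw [hL, ← Real.log_exp 6]
    exact Real.log_le_log (Real.exp_pos _) hxe
  have hLpos : 0 < L := by linarith
  have hL1 : 1 ≤ L := by linarith
  have hlog : L ^ (A + 5) ≤ x ^ (ε / 4) := by
    have h := hx2 x hxx2
    rw [one_mul, Real.norm_of_nonneg (by positivity), Real.norm_of_nonneg (by positivity)] at h
    exact h
  have hR0 : 0 ≤ (H : ℝ) * (x * L ^ (-A)) := by positivity
  have hDr : (1 : ℝ) ≤ D := by exact_mod_cast hD
  have hVr : (1 : ℝ) ≤ V := by exact_mod_cast hV
  have hPB : L ^ B0 ≤ (P : ℝ) := hP0.trans (by exact_mod_cast hP0P)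
  have hPr : (1 : ℝ) ≤ P := (Real.one_le_rpow hL1 (by linarith)).trans hPB
  set S := PS P0 P1 ∩ Ioc P (2 * P) with hS
  have hSP : ∀ p ∈ S, P < p ∧ p ≤ 2 * P := by
    intro p hp
    rw [hS, mem_inter, mem_Ioc] at hp
    exact hp.2
  rcases S.eq_empty_or_nonempty with hSe | ⟨p0, hp0⟩
  · have : KS A0 H D V S c (fun v => ((wt (rho P0 P1) Z v : ℝ) : ℂ)) f = 0 := by
      unfold KS
      rw [hSe]
      simp
    rw [this, norm_zero]
    exact hR0
  have hPP1 : (P : ℝ) ≤ P1 := by
    have h1 := (hSP p0 hp0).1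
    rw [hS, mem_inter] at hp0
    have h2 := hp0.1
    unfold PS at h2
    rw [mem_filter, mem_Ioc] at h2
    have : P ≤ P1 := by omega
    exact_mod_cast this
  have hLB1 : 1 ≤ L ^ B1 := Real.one_le_rpow hL1 (by linarith)
  have hPB1H : (P : ℝ) * L ^ B1 ≤ H :=
    (mul_le_mul_of_nonneg_right hPP1 (by positivity)).trans hP1H
  have hPH : (P : ℝ) ≤ H := by
    have : (P : ℝ) * 1 ≤ P * L ^ B1 := mul_le_mul_of_nonneg_left hLB1 (by positivity)
    linarith
  rcases le_or_gt (2 * x) ((D : ℝ) * P * V) with ha1 | ha1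
  · rw [hF.1 A0 H D P V S x c _ f hV (fun p hp => (hSP p hp).1) hf2 ha ha1, norm_zero]
    exact hR0
  rcases lt_or_ge ((D : ℝ) * P * V) (x * L ^ (-(A + 5))) with hb1 | hb1
  · refine (hF.2 A0 H D P V Z P0 P1 S L c f hV hLpos.le hSP hc hf1).trans ?_
    have hinv : L ^ (-(A + 5)) ≤ 1 := Real.rpow_le_one_of_one_le_of_nonpos hL1 (by linarith)
    have hVx : (V : ℝ) ≤ x := by
      have h1 : (V : ℝ) ≤ (D : ℝ) * P * V := by
        have : (1 : ℝ) ≤ (D : ℝ) * P := by nlinarith
        nlinarith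
      have h2 : x * L ^ (-(A + 5)) ≤ x * 1 := mul_le_mul_of_nonneg_left hinv hxpos.le
      linarith
    have hlog2 : Real.log (2 * V) ≤ 1 + L := by
      have h1 : Real.log (2 * V) ≤ Real.log (2 * x) := by
        apply Real.log_le_log (by positivity)
        linarith
      rw [Real.log_mul (by norm_num) hxpos.ne'] at h1
      have h2 : Real.log 2 ≤ 1 := by
        have := Real.log_two_lt_d9
        linarith
      linarith
    have h3 : 1 + Real.log (2 * V) ≤ 3 * L := by linarith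
    have hrp : L ^ (-(A + 5)) = L ^ (-A) * (L ^ (5 : ℕ))⁻¹ := by
      rw [show -(A + 5) = -A + -((5 : ℕ) : ℝ) by push_cast; ring, Real.rpow_add hLpos, Real.rpow_neg hLpos.le,
        Real.rpow_neg hLpos.le, Real.rpow_natCast]
    calc (H : ℝ) * D * P * L * (2 * V * (1 + Real.log (2 * V)))
        ≤ (H : ℝ) * D * P * L * (2 * V * (3 * L)) := by gcongr
      _ = (H : ℝ) * ((D : ℝ) * P * V) * (6 * L ^ 2) := by ring
      _ ≤ (H : ℝ) * (x * L ^ (-(A + 5))) * (6 * L ^ 2) := by gcongr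
      _ = (H : ℝ) * (x * L ^ (-A)) * (6 * L ^ 2 * (L ^ 5)⁻¹) := by rw [hrp]; ring
      _ ≤ (H : ℝ) * (x * L ^ (-A)) * 1 := by
          apply mul_le_mul_of_nonneg_left _ hR0
          rw [← div_eq_mul_inv, div_le_one (by positivity)]
          have h4 : (6 : ℝ) ≤ L ^ 3 := by nlinarith [sq_nonneg L, mul_pos hLpos hLpos]
          have h5 : L ^ 5 = L ^ 2 * L ^ 3 := by ring
          rw [h5]
          nlinarith [sq_nonneg L]
      _ = (H : ℝ) * (x * L ^ (-A)) := by ring
  · have hDP : 0 < (D : ℝ) * P := by positivity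
    have hHx2 : (H : ℝ) ≤ x ^ ((1 : ℝ) / 10) :=
      hHx.trans (Real.rpow_le_rpow_of_exponent_le hx1' (by linarith))
    have hVbig : x ^ (5 * ε / 8) ≤ V := by
      have h1 : (D : ℝ) * P ≤ x ^ (1 - 7 * ε / 8) := by
        calc (D : ℝ) * P ≤ x ^ (1 - ε) * x ^ (ε / 8) :=
              mul_le_mul hDx (hPH.trans hHx) (by positivity) (by positivity)
          _ = x ^ (1 - 7 * ε / 8) := by
              rw [← Real.rpow_add hxpos]
              congr 1
              ring
      have h2 : x ^ (1 - ε / 4) ≤ x * L ^ (-(A + 5)) := by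
        rw [Real.rpow_neg hLpos.le, ← div_eq_mul_inv, le_div_iff₀ (by positivity)]
        calc x ^ (1 - ε / 4) * L ^ (A + 5) ≤ x ^ (1 - ε / 4) * x ^ (ε / 4) :=
              mul_le_mul_of_nonneg_left hlog (by positivity)
          _ = x := by
              rw [← Real.rpow_add hxpos]
              rw [show 1 - ε / 4 + ε / 4 = 1 by ring, Real.rpow_one]
      have h3 : x ^ (5 * ε / 8) * ((D : ℝ) * P) ≤ V * ((D : ℝ) * P) := by
        calc x ^ (5 * ε / 8) * ((D : ℝ) * P) ≤ x ^ (5 * ε / 8) * x ^ (1 - 7 * ε / 8) :=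
              mul_le_mul_of_nonneg_left h1 (by positivity)
          _ = x ^ (1 - ε / 4) := by
              rw [← Real.rpow_add hxpos]
              congr 1
              ring
          _ ≤ x * L ^ (-(A + 5)) := h2
          _ ≤ (D : ℝ) * P * V := hb1
          _ = V * ((D : ℝ) * P) := by ring
      exact le_of_mul_le_mul_right h3 hDP
    have hZV : x ^ (ε / 2) * Z ≤ V := by
      calc x ^ (ε / 2) * Z ≤ x ^ (ε / 2) * x ^ (ε / 8) := mul_le_mul_of_nonneg_left hZx (by positivity)
        _ = x ^ (5 * ε / 8) := by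
            rw [← Real.rpow_add hxpos]
            congr 1
            ring
        _ ≤ V := hVbig
    apply hKey x D P V Z H S A0 c (rho P0 P1) f hxx1 hD hZ hb1 (by linarith) hZV hPB hPB1H hHx2
    · intro p hp
      refine ⟨?_, hSP p hp⟩
      rw [hS, mem_inter] at hp
      have h2 := hp.1
      unfold PS at h2
      exact (mem_filter.mp h2).2
    · exact hc
    · exact Fko_rho_le P0 P1
    · intro l hl p hp hpl
      have h1 := (Fko_rho_ne hl).2 p hp hpl
      unfold PS at h1
      rw [mem_filter, mem_Ioc] at h1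
      have h2 : (P0 : ℝ) < p := by exact_mod_cast h1.1.1
      have h3 : L ^ β ≤ L ^ B0 := Real.rpow_le_rpow_of_exponent_le hL1 hβB
      linarith
    · exact hf1
    · exact hf2
    · exact hf3

end Pool.Agent.Lib.TR
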