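import Pool.Agent.Lib.TR.SpecF

/-!
MP_00e23e_nt, directory Lib/TR, module Fks: vanishing and trivial bound of one sum KS.
-/

set_option autoImplicit false

namespace Pool.Agent.Lib.TR

open Finset Pool.Agent.Lib.EH3 Pool.Agent.Results.MP_00e23e_nt

private lemma Fks_tau (N : ℕ) (hN : 1 ≤ N) :
    ∑ v ∈ Icc 1 N, (v.divisors.card : ℝ) ≤ N * (1 + Real.log N) := by
  have h0 : ∀ v ∈ Icc 1 N, (v.divisors.card : ℝ) = ∑ m ∈ Icc 1 N, (if m ∣ v then (1 : ℝ) else 0) := by
    intro v hv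
    rw [mem_Icc] at hv
    rw [Finset.sum_boole]
    refine congrArg (fun k : ℕ => (k : ℝ)) (congrArg Finset.card ?_)
    ext m
    rw [Nat.mem_divisors, mem_filter, mem_Icc]
    constructor
    · rintro ⟨h1, h2⟩
      exact ⟨⟨Nat.pos_of_dvd_of_pos h1 (by omega), (Nat.le_of_dvd (by omega) h1).trans hv.2⟩, h1⟩
    · rintro ⟨_, h2⟩
      exact ⟨h2, by omega⟩
  rw [Finset.sum_congr rfl h0, Finset.sum_comm]
  have h1 : ∀ m ∈ Icc 1 N, ∑ v ∈ Icc 1 N, (if m ∣ v then (1 : ℝ) else 0) ≤ (N : ℝ) * ((m : ℝ))⁻¹ := by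
    intro m hm
    rw [Finset.sum_boole]
    have h2 : ((Icc 1 N).filter (fun v => m ∣ v)) = (Ioc 0 N).filter (fun v => m ∣ v) := by
      ext v
      rw [mem_filter, mem_filter, mem_Icc, mem_Ioc]
      constructor <;> rintro ⟨⟨a, b⟩, c⟩ <;> exact ⟨⟨by omega, b⟩, c⟩
    rw [h2, Nat.Ioc_filter_dvd_card_eq_div]
    rw [← div_eq_mul_inv]
    exact Nat.cast_div_le
  refine (Finset.sum_le_sum h1).trans ?_
  rw [← Finset.mul_sum]
  refine mul_le_mul_of_nonneg_left ?_ (Nat.cast_nonneg _)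
  have h3 := harmonic_le_one_add_log N
  have h4 : ((harmonic N : ℚ) : ℝ) = ∑ m ∈ Icc 1 N, ((m : ℝ))⁻¹ := by
    rw [harmonic_eq_sum_Icc]
    push_cast
    rfl
  rw [← h4]
  exact h3

private lemma Fks_tau2 (V : ℕ) (hV : 1 ≤ V) :
    ∑ v ∈ Ico V (2 * V), (v.divisors.card : ℝ) ≤ 2 * V * (1 + Real.log (2 * V)) := by
  have h1 := Fks_tau (2 * V) (by omega)
  push_cast at h1
  refine le_trans ?_ h1
  refine Finset.sum_le_sum_of_subset_of_nonneg ?_ (fun _ _ _ => Nat.cast_nonneg _)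
  intro v hv
  rw [mem_Ico] at hv
  rw [mem_Icc]
  omega

theorem tFks (h1 : RtrStmt) : FksStmt := by
  refine ⟨?_, ?_⟩
  · intro A0 H D P V S X c w f hV hS hf hA hX
    unfold KS
    refine Finset.sum_eq_zero fun a ha => Finset.sum_eq_zero fun d hd => Finset.sum_eq_zero fun p hp =>
      Finset.sum_eq_zero fun v hv => ?_
    have hd' := mem_Ioc.1 hd
    have hp' := hS p hp
    have hv' := mem_Ico.1 hv
    have ha' := abs_le.1 (hA a ha)
    have hnat : D * P * V < d * p * v := by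
      have e1 : (D + 1) * (P + 1) ≤ d * p := Nat.mul_le_mul hd'.1 hp'
      have e2 : (D + 1) * (P + 1) * V ≤ d * p * v := Nat.mul_le_mul e1 hv'.1
      have e3 : D * P * V < (D + 1) * (P + 1) * V := by
        have : D * P < (D + 1) * (P + 1) := by nlinarith
        exact Nat.mul_lt_mul_of_pos_right this (by omega)
      omega
    have hr : (D : ℝ) * P * V < (d : ℝ) * p * v := by exact_mod_cast hnat
    have hz : X < |((a + (d : ℤ) * p * v : ℤ) : ℝ)| := by
      refine lt_of_lt_of_le ?_ (le_abs_self _)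
      push_cast
      linarith
    rw [hf _ hz, mul_zero]
  · intro A0 H D P V Z P0 P1 S M c f hV hM hS hc hf
    unfold KS
    have hcard : (S.card : ℝ) ≤ P := by
      have e1 : S ⊆ Ioc P (2 * P) := fun p hp => mem_Ioc.2 (hS p hp)
      have e2 := Finset.card_le_card e1
      rw [Nat.card_Ioc] at e2
      exact_mod_cast (by omega : S.card ≤ P)
    set B : ℝ := 2 * V * (1 + Real.log (2 * V)) with hB
    have hB0 : 0 ≤ B := le_trans (Finset.sum_nonneg fun _ _ => Nat.cast_nonneg _) (Fks_tau2 V hV)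
    have hin : ∀ a d p, ‖∑ v ∈ Ico V (2 * V), c a d * ((wt (rho P0 P1) Z v : ℝ) : ℂ) * f (a + (d : ℤ) * (p : ℕ) * v)‖ ≤
        M * B := by
      intro a d p
      refine (norm_sum_le _ _).trans ?_
      have e1 : ∀ v ∈ Ico V (2 * V), ‖c a d * ((wt (rho P0 P1) Z v : ℝ) : ℂ) * f (a + (d : ℤ) * (p : ℕ) * v)‖ ≤
          M * (v.divisors.card : ℝ) := by
        intro v hv
        have hv' := mem_Ico.1 hv
        rw [norm_mul, norm_mul, Complex.norm_real, Real.norm_eq_abs]
        have e2 := (h1 P0 P1 Z v (by omega)).2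
        have e3 := hc a d
        have e4 := hf (a + (d : ℤ) * (p : ℕ) * v)
        have e5 : ‖c a d‖ * |wt (rho P0 P1) Z v| ≤ 1 * (v.divisors.card : ℝ) :=
          mul_le_mul e3 e2 (abs_nonneg _) zero_le_one
        have e6 := mul_le_mul e5 e4 (norm_nonneg _) (by positivity)
        linarith
      refine (Finset.sum_le_sum e1).trans ?_
      rw [← Finset.mul_sum]
      exact mul_le_mul_of_nonneg_left (Fks_tau2 V hV) hM
    have hMB : 0 ≤ M * B := mul_nonneg hM hB0
    have hp : ∀ a d, ‖∑ p ∈ S, ∑ v ∈ Ico V (2 * V), c a d * ((wt (rho P0 P1) Z v : ℝ) : ℂ) * f (a + (d : ℤ) * p * v)‖ ≤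
        P * (M * B) := by
      intro a d
      refine (norm_sum_le _ _).trans ?_
      refine (Finset.sum_le_sum fun p _ => hin a d p).trans ?_
      rw [Finset.sum_const, nsmul_eq_mul]
      exact mul_le_mul_of_nonneg_right hcard hMB
    have hd : ∀ a, ‖∑ d ∈ Ioc D (2 * D), ∑ p ∈ S, ∑ v ∈ Ico V (2 * V),
        c a d * ((wt (rho P0 P1) Z v : ℝ) : ℂ) * f (a + (d : ℤ) * p * v)‖ ≤ D * (P * (M * B)) := by
      intro a
      refine (norm_sum_le _ _).trans ?_
      refine (Finset.sum_le_sum fun d _ => hp a d).trans ?_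
      rw [Finset.sum_const, nsmul_eq_mul, Nat.card_Ioc]
      have : 2 * D - D = D := by omega
      rw [this]
    refine (norm_sum_le _ _).trans ?_
    refine (Finset.sum_le_sum fun a _ => hd a).trans ?_
    rw [Finset.sum_const, nsmul_eq_mul, Int.card_Ico]
    have : (A0 + (H : ℤ) - A0).toNat = H := by omega
    rw [this]
    apply le_of_eq
    ring

end Pool.Agent.Lib.TR
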