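import Pool.Agent.Lib.TR.SpecF

/-!
MP_00e23e_nt, directory Lib/TR, chapter F, module Fpo (helper10): the good u > 0.
-/

set_option autoImplicit false

namespace Pool.Agent.Lib.TR

open Finset Pool.Agent.Lib.EH3 Pool.Agent.Results.MP_00e23e_nt

private lemma Fpo_J {x : ℝ} (hx : 0 < x) (hL : 18 ≤ Real.log x) :
    ((⌈2 * Real.log x⌉₊ : ℕ) : ℝ) ≤ 3 * Real.log x ∧ 3 * x < (2 : ℝ) ^ ⌈2 * Real.log x⌉₊ := by
  have hxe : x = Real.exp (Real.log x) := (Real.exp_log hx).symm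
  generalize Real.log x = L at *
  have h0 : (0 : ℝ) ≤ 2 * L := by linarith
  refine ⟨?_, ?_⟩
  · have := Nat.ceil_lt_add_one h0
    linarith
  · have h1 : 2 * L ≤ (⌈2 * L⌉₊ : ℝ) := Nat.le_ceil _
    have h2 : (2 : ℝ) ^ ⌈2 * L⌉₊ = Real.exp (Real.log 2 * (⌈2 * L⌉₊ : ℝ)) := by
      rw [← Real.rpow_natCast, Real.rpow_def_of_pos (by norm_num)]
    have h3 : Real.exp (13 / 10 * L) ≤ Real.exp (Real.log 2 * (⌈2 * L⌉₊ : ℝ)) := by
      apply Real.exp_le_exp.2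
      have := Real.log_two_gt_d9
      nlinarith
    have h4 : Real.exp (13 / 10 * L) = Real.exp (3 / 10 * L) * Real.exp L := by
      rw [← Real.exp_add]
      congr 1
      ring
    have h5 : 3 / 10 * L + 1 ≤ Real.exp (3 / 10 * L) := Real.add_one_le_exp _
    rw [h2, hxe]
    refine lt_of_lt_of_le ?_ h3
    rw [h4]
    have h6 := Real.exp_pos L
    nlinarith

private lemma Fpo_Z {x ε : ℝ} (hx : 0 < x) (hε : 0 < ε) (hL : 16 / ε ≤ Real.log x) :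
    1 ≤ ⌊x ^ (ε / 8)⌋₊ ∧ ((⌊x ^ (ε / 8)⌋₊ : ℕ) : ℝ) ≤ x ^ (ε / 8) ∧
      ε / 16 * Real.log x ≤ Real.log ((⌊x ^ (ε / 8)⌋₊ : ℕ) : ℝ) := by
  have h0 : (0 : ℝ) ≤ x ^ (ε / 8) := Real.rpow_nonneg hx.le _
  have ht : x ^ (ε / 16) = Real.exp (ε / 16 * Real.log x) := by
    rw [Real.rpow_def_of_pos hx]
    congr 1
    ring
  have ht2 : (2 : ℝ) ≤ x ^ (ε / 16) := by
    rw [ht]
    have h1 : ε / 16 * Real.log x + 1 ≤ Real.exp (ε / 16 * Real.log x) := Real.add_one_le_exp _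
    have h2 : 1 ≤ ε / 16 * Real.log x := by
      have h3 : 16 ≤ Real.log x * ε := (div_le_iff₀ hε).1 hL
      linarith
    linarith
  have hsq : x ^ (ε / 8) = x ^ (ε / 16) * x ^ (ε / 16) := by
    rw [← Real.rpow_add hx]
    congr 1
    ring
  have h3 : x ^ (ε / 16) ≤ ((⌊x ^ (ε / 8)⌋₊ : ℕ) : ℝ) := by
    have := Nat.lt_floor_add_one (x ^ (ε / 8))
    nlinarith
  refine ⟨?_, Nat.floor_le h0, ?_⟩
  · have : (1 : ℝ) ≤ ((⌊x ^ (ε / 8)⌋₊ : ℕ) : ℝ) := by linarith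
    exact_mod_cast this
  · have h4 := Real.log_le_log (by linarith) h3
    rw [Real.log_rpow hx] at h4
    exact h4

private lemma Fpo_err {L l2 A ε B0 C lP lZ x H D U P0 : ℝ} (hL : 18 ≤ L) (hl : l2 = Real.log L) (hl2 : 1 ≤ l2)
    (hA : 0 < A) (hε : 0 < ε) (hB0 : A + 3 ≤ B0) (hC : 0 < C) (hLC : 12 * C ≤ L) (hx : 0 < x) (hH : 0 ≤ H) (hD : 0 < D)
    (hU : 0 ≤ U) (hDU : D * U ≤ 3 * x) (hP0 : L ^ B0 ≤ P0) (hlP : 0 < lP) (hlP2 : lP ≤ ε / (16 * (A + 7)) * (L / l2))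
    (hε1 : ε ≤ 1 / 10) (hlZ : ε / 16 * L ≤ lZ) :
    H * D * L * (C * (U * (1 / P0 + Real.exp (-(lZ / lP)) * lP ^ 4))) ≤ 1 / 2 * (H * (x * L ^ (-A))) := by
  have hL0 : 0 < L := by linarith
  have hL1 : 1 ≤ L := by linarith
  have h1 : 1 / P0 ≤ L ^ (-(A + 3)) := by
    have h2 : L ^ (A + 3) ≤ P0 := (Real.rpow_le_rpow_of_exponent_le hL1 hB0).trans hP0
    rw [Real.rpow_neg hL0.le, ← one_div]
    exact one_div_le_one_div_of_le (Real.rpow_pos_of_pos hL0 _) h2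
  have h2 : (A + 7) * l2 ≤ lZ / lP := by
    rw [le_div_iff₀ hlP]
    have h3 : (A + 7) * l2 * lP ≤ (A + 7) * l2 * (ε / (16 * (A + 7)) * (L / l2)) :=
      mul_le_mul_of_nonneg_left hlP2 (by positivity)
    have h4 : (A + 7) * l2 * (ε / (16 * (A + 7)) * (L / l2)) = ε / 16 * L := by
      field_simp
    linarith
  have h3 : Real.exp (-(lZ / lP)) ≤ L ^ (-(A + 7)) := by
    rw [Real.rpow_def_of_pos hL0]
    apply Real.exp_le_exp.2
    rw [← hl]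
    linarith
  have h4 : lP ≤ L := by
    refine hlP2.trans ?_
    have h5 : ε / (16 * (A + 7)) ≤ 1 := by
      rw [div_le_one (by positivity)]
      nlinarith
    have h6 : L / l2 ≤ L := div_le_self hL0.le hl2
    calc ε / (16 * (A + 7)) * (L / l2) ≤ 1 * L := mul_le_mul h5 h6 (by positivity) (by norm_num)
      _ = L := one_mul _
  have h5 : lP ^ 4 ≤ L ^ (4 : ℝ) := by
    have : L ^ (4 : ℝ) = L ^ (4 : ℕ) := by
      rw [← Real.rpow_natCast]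
      norm_num
    rw [this]
    exact pow_le_pow_left₀ hlP.le h4 4
  have h6 : Real.exp (-(lZ / lP)) * lP ^ 4 ≤ L ^ (-(A + 3)) := by
    calc Real.exp (-(lZ / lP)) * lP ^ 4 ≤ L ^ (-(A + 7)) * L ^ (4 : ℝ) :=
          mul_le_mul h3 h5 (by positivity) (Real.rpow_nonneg hL0.le _)
      _ = L ^ (-(A + 3)) := by
          rw [← Real.rpow_add hL0]
          congr 1
          ring
  have h7 : L ^ (-(A + 3)) = L ^ (-A) * L⁻¹ * L⁻¹ * L⁻¹ := by
    have : L ^ (-(A + 3)) = L ^ (-A) * L ^ (-(3 : ℝ)) := by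
      rw [← Real.rpow_add hL0]
      congr 1
      ring
    rw [this, Real.rpow_neg hL0.le (3 : ℝ)]
    have h8 : L ^ (3 : ℝ) = L ^ (3 : ℕ) := by
      rw [← Real.rpow_natCast]
      norm_num
    rw [h8]
    field_simp
  have hE : 0 < L ^ (-A) := Real.rpow_pos_of_pos hL0 _
  calc H * D * L * (C * (U * (1 / P0 + Real.exp (-(lZ / lP)) * lP ^ 4)))
      ≤ H * D * L * (C * (U * (L ^ (-(A + 3)) + L ^ (-(A + 3))))) := by
        gcongr
    _ = H * L * C * (D * U) * (2 * L ^ (-(A + 3))) := by ring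
    _ ≤ H * L * C * (3 * x) * (2 * L ^ (-(A + 3))) := by
        gcongr
    _ = (6 * C * L⁻¹) * (H * (x * L ^ (-A))) * (L * L⁻¹ * L⁻¹) := by
        rw [h7]
        ring
    _ ≤ (1 / 2) * (H * (x * L ^ (-A))) * 1 := by
        have h8 : 6 * C * L⁻¹ ≤ 1 / 2 := by
          rw [← div_eq_mul_inv, div_le_iff₀ hL0]
          linarith
        have h9 : L * L⁻¹ * L⁻¹ ≤ 1 := by
          rw [mul_inv_cancel₀ hL0.ne', one_mul]
          exact inv_le_one_of_one_le₀ hL1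
        gcongr
    _ = 1 / 2 * (H * (x * L ^ (-A))) := by ring

private lemma Fpo_main {L A x H : ℝ} {J : ℕ} (hL : 18 ≤ L) (hx : 0 < x) (hH : 0 ≤ H) (hJ : (J : ℝ) ≤ 3 * L) :
    (J : ℝ) * (J * (H * (x * L ^ (-(A + 3))))) ≤ 1 / 2 * (H * (x * L ^ (-A))) := by
  have hL0 : 0 < L := by linarith
  have h7 : L ^ (-(A + 3)) = L ^ (-A) * (L⁻¹ * L⁻¹ * L⁻¹) := by
    have : L ^ (-(A + 3)) = L ^ (-A) * L ^ (-(3 : ℝ)) := by
      rw [← Real.rpow_add hL0]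
      congr 1
      ring
    rw [this, Real.rpow_neg hL0.le (3 : ℝ)]
    have h8 : L ^ (3 : ℝ) = L ^ (3 : ℕ) := by
      rw [← Real.rpow_natCast]
      norm_num
    rw [h8]
    field_simp
  have hE : 0 < L ^ (-A) := Real.rpow_pos_of_pos hL0 _
  have hJ0 : (0 : ℝ) ≤ J := Nat.cast_nonneg _
  calc (J : ℝ) * (J * (H * (x * L ^ (-(A + 3))))) ≤ (3 * L) * ((3 * L) * (H * (x * L ^ (-(A + 3))))) := by
        have : 0 ≤ L ^ (-(A + 3)) := Real.rpow_nonneg hL0.le _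
        gcongr
    _ = (9 * L⁻¹) * (H * (x * L ^ (-A))) * ((L * L⁻¹) * (L * L⁻¹)) := by
        rw [h7]
        ring
    _ = (9 * L⁻¹) * (H * (x * L ^ (-A))) := by
        rw [mul_inv_cancel₀ hL0.ne']
        ring
    _ ≤ 1 / 2 * (H * (x * L ^ (-A))) := by
        have h8 : 9 * L⁻¹ ≤ 1 / 2 := by
          rw [← div_eq_mul_inv, div_le_iff₀ hL0]
          linarith
        gcongr

theorem tFpo (h1 : FkoStmt) (h2 : RedStmt) (h3 : RerStmt) : FpoStmt := by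
  intro ε A hε hε1 hA
  obtain ⟨B0', B1, β, A2, x1, hB0', hB1, hβ, hA2, hx1, hK⟩ := h1 ε (A + 3) hε hε1 (by linarith)
  obtain ⟨C, hC, hR⟩ := h3
  have hA7 : 0 < 16 * (A + 7) := by linarith
  have hc0 : 0 < ε / (16 * (A + 7)) := div_pos hε hA7
  have hc1 : ε / (16 * (A + 7)) ≤ 1 := by
    rw [div_le_one hA7]
    nlinarith
  have hc8 : ε / (16 * (A + 7)) ≤ ε / 8 := by
    rw [div_le_div_iff₀ hA7 (by norm_num)]
    nlinarith
  refine ⟨max B0' (A + 3), B1, β, A2, ε / (16 * (A + 7)), max x1 (Real.exp (18 + 12 * C + 16 / ε)),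
    hB0'.trans (le_max_left _ _), hB1, hβ, hA2, hc0, hc1, hx1.trans (le_max_left _ _), ?_⟩
  intro x D U P0 P1 H A0 c f hx hD hDx hDU hU hP0 hP01 hPH hH ha hc hf
  have hxx1 : x1 ≤ x := (le_max_left _ _).trans hx
  have hx0 : 0 < x := by linarith
  have hLK : 18 + 12 * C + 16 / ε ≤ Real.log x := by
    rw [Real.le_log_iff_exp_le hx0]
    exact (le_max_right _ _).trans hx
  have h16 : 0 < 16 / ε := by positivity
  have hL : 18 ≤ Real.log x := by linarith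
  have hLC : 12 * C ≤ Real.log x := by linarith
  have hLe : 16 / ε ≤ Real.log x := by linarith
  have hL0 : 0 < Real.log x := by linarith
  have hL1 : 1 ≤ Real.log x := by linarith
  have hl2 : 1 ≤ Real.log (Real.log x) := by
    rw [Real.le_log_iff_exp_le hL0]
    have := Real.exp_one_lt_d9
    linarith
  obtain ⟨hJ1, hJ2⟩ := Fpo_J hx0 hL
  obtain ⟨hZ1, hZ2, hZ3⟩ := Fpo_Z hx0 hε hLe
  obtain ⟨J, hJdef⟩ : ∃ J : ℕ, J = ⌈2 * Real.log x⌉₊ := ⟨_, rfl⟩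
  obtain ⟨Z, hZdef⟩ : ∃ Z : ℕ, Z = ⌊x ^ (ε / 8)⌋₊ := ⟨_, rfl⟩
  rw [← hJdef] at hJ1 hJ2
  rw [← hZdef] at hZ1 hZ2 hZ3
  have hf1 := hf.1
  have hf2 := hf.2.1
  have hDr : (1 : ℝ) ≤ D := by exact_mod_cast hD
  have hD0 : (0 : ℝ) < D := by linarith
  have hdiv : Real.log x / Real.log (Real.log x) ≤ Real.log x := div_le_self hL0.le hl2
  have hdiv0 : 0 ≤ Real.log x / Real.log (Real.log x) := div_nonneg hL0.le (by linarith)
  -- H ≤ x^(ε/8), H ≤ x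
  have hHe : (H : ℝ) ≤ x ^ (ε / 8) := by
    refine hH.trans ?_
    rw [Real.rpow_def_of_pos hx0]
    apply Real.exp_le_exp.2
    calc ε / (16 * (A + 7)) * (Real.log x / Real.log (Real.log x)) ≤ ε / 8 * Real.log x :=
          mul_le_mul hc8 hdiv hdiv0 (by positivity)
      _ = Real.log x * (ε / 8) := mul_comm _ _
  have hHx : (H : ℝ) ≤ x := by
    refine hHe.trans ?_
    calc x ^ (ε / 8) ≤ x ^ (1 : ℝ) := Real.rpow_le_rpow_of_exponent_le (by linarith) (by linarith)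
      _ = x := Real.rpow_one x
  have hP0b : (Real.log x) ^ B0' ≤ P0 :=
    (Real.rpow_le_rpow_of_exponent_le hL1 (le_max_left _ _)).trans hP0
  have hP0L : Real.log x ≤ P0 := by
    refine le_trans ?_ hP0b
    calc Real.log x = (Real.log x) ^ (1 : ℝ) := (Real.rpow_one _).symm
      _ ≤ _ := Real.rpow_le_rpow_of_exponent_le hL1 hB0'
  have hP02 : 2 ≤ P0 := by
    have : (2 : ℝ) ≤ P0 := by linarith
    exact_mod_cast this
  have hLB1 : 1 ≤ (Real.log x) ^ B1 := Real.one_le_rpow hL1 (by linarith)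
  have hP1H : (P1 : ℝ) ≤ H := by
    refine le_trans ?_ hPH
    exact le_mul_of_one_le_right (Nat.cast_nonneg _) hLB1
  have hUx : (U : ℝ) ≤ 3 * x := hU.trans (div_le_self (by linarith) hDr)
  have hU2 : U < 2 ^ J := by
    have : (U : ℝ) < (2 : ℝ) ^ J := lt_of_le_of_lt hUx hJ2
    exact_mod_cast this
  have hP12 : P1 ≤ P0 * 2 ^ J := by
    have h5 : (P1 : ℝ) ≤ (2 : ℝ) ^ J := by linarith
    have h6 : P1 ≤ 2 ^ J := by exact_mod_cast h5
    calc P1 ≤ 2 ^ J := h6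
      _ ≤ P0 * 2 ^ J := Nat.le_mul_of_pos_left _ (by omega)
  -- reduction
  have hred := h2 A0 H D U P0 P1 Z J x (Real.log x) c f hD (by omega) hP12 hU2 hL0.le hc hf1 hf2 ha hDU
  have hrer := hR P0 P1 Z U hP02 hP01 hZ1
  have hP1r : (2 : ℝ) ≤ P1 := by exact_mod_cast hP02.trans hP01
  have hlP : 0 < Real.log P1 := Real.log_pos (by linarith)
  have hlP2 : Real.log P1 ≤ ε / (16 * (A + 7)) * (Real.log x / Real.log (Real.log x)) := by
    rw [Real.log_le_iff_le_exp (by linarith)]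
    exact hP1H.trans hH
  have hDUx : (D : ℝ) * U ≤ 3 * x := by
    have := mul_le_mul_of_nonneg_left hU hD0.le
    rwa [mul_div_cancel₀ _ hD0.ne'] at this
  have herr := Fpo_err (L := Real.log x) (l2 := Real.log (Real.log x)) (A := A) (ε := ε) (B0 := max B0' (A + 3)) (C := C)
    (lP := Real.log P1) (lZ := Real.log Z) (x := x) (H := H) (D := D) (U := U) (P0 := P0) hL rfl hl2 hA hε
    (le_max_right _ _) hC hLC hx0 (Nat.cast_nonneg _) hD0 (Nat.cast_nonneg _) hDUx hP0 hlP hlP2 hε1 hZ3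
  have herr2 : (H : ℝ) * D * Real.log x * (∑ u ∈ Icc 1 U, (((PS P0 P1).filter (fun p => p ^ 2 ∣ u)).card : ℝ) +
      ∑ p ∈ PS P0 P1, ∑ v ∈ Icc 1 (U / p), tl P0 P1 Z v) ≤ 1 / 2 * (H * (x * (Real.log x) ^ (-A))) :=
    le_trans (mul_le_mul_of_nonneg_left hrer (by positivity)) herr
  -- main part
  have hmain : ‖∑ i ∈ range J, ∑ j ∈ range J, KS A0 H D (2 ^ j) (PS P0 P1 ∩ Ioc (2 ^ i * P0) (2 * (2 ^ i * P0))) c
      (fun v => ((wt (rho P0 P1) Z v : ℝ) : ℂ)) f‖ ≤ 1 / 2 * (H * (x * (Real.log x) ^ (-A))) := by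
    have hone : ∀ i j : ℕ, ‖KS A0 H D (2 ^ j) (PS P0 P1 ∩ Ioc (2 ^ i * P0) (2 * (2 ^ i * P0))) c
        (fun v => ((wt (rho P0 P1) Z v : ℝ) : ℂ)) f‖ ≤ H * (x * (Real.log x) ^ (-(A + 3))) := fun i j =>
      hK x D (2 ^ i * P0) (2 ^ j) Z P0 P1 H A0 c f hxx1 hD hDx (Nat.one_le_two_pow) hZ1 hZ2 hP0b
        (Nat.le_mul_of_pos_left _ (by positivity)) hPH hHe ha hc hf
    refine le_trans ?_ (Fpo_main (A := A) (J := J) hL hx0 (Nat.cast_nonneg H) hJ1)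
    refine (norm_sum_le _ _).trans ?_
    refine (Finset.sum_le_sum fun i _ => (norm_sum_le _ _).trans (Finset.sum_le_sum fun j _ => hone i j)).trans ?_
    rw [Finset.sum_const, Finset.sum_const, card_range, nsmul_eq_mul, nsmul_eq_mul]
  calc ‖∑ a ∈ Ico A0 (A0 + H), ∑ d ∈ Ioc D (2 * D), ∑ u ∈ (Icc 1 U).filter (fun u => Good P0 P1 u), c a d * f (a + d * u)‖
      = ‖(∑ a ∈ Ico A0 (A0 + H), ∑ d ∈ Ioc D (2 * D), ∑ u ∈ (Icc 1 U).filter (fun u => Good P0 P1 u), c a d * f (a + d * u) -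
          ∑ i ∈ range J, ∑ j ∈ range J, KS A0 H D (2 ^ j) (PS P0 P1 ∩ Ioc (2 ^ i * P0) (2 * (2 ^ i * P0))) c
            (fun v => ((wt (rho P0 P1) Z v : ℝ) : ℂ)) f) +
          ∑ i ∈ range J, ∑ j ∈ range J, KS A0 H D (2 ^ j) (PS P0 P1 ∩ Ioc (2 ^ i * P0) (2 * (2 ^ i * P0))) c
            (fun v => ((wt (rho P0 P1) Z v : ℝ) : ℂ)) f‖ := by
        rw [sub_add_cancel]
    _ ≤ 1 / 2 * (H * (x * (Real.log x) ^ (-A))) + 1 / 2 * (H * (x * (Real.log x) ^ (-A))) :=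
        (norm_add_le _ _).trans (add_le_add (hred.trans herr2) hmain)
    _ = H * (x * (Real.log x) ^ (-A)) := by ring

end Pool.Agent.Lib.TR
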