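import Pool.Agent.Lib.TR.SpecK

/-!
MP_00e23e_nt, directory Lib/TR, module Kca: Cauchy-Schwarz over (a, e), e = d v.
-/

set_option autoImplicit false

namespace Pool.Agent.Lib.TR

open Finset Pool.Agent.Lib.EH3 Pool.Agent.Results.MP_00e23e_nt

private theorem Kca_cs {ι : Type*} (s : Finset ι) (b g : ι → ℂ) :
    ‖∑ i ∈ s, b i * g i‖ ^ 2 ≤ (∑ i ∈ s, ‖b i‖ ^ 2) * ∑ i ∈ s, ‖g i‖ ^ 2 := by
  have h1 : ‖∑ i ∈ s, b i * g i‖ ≤ ∑ i ∈ s, ‖b i‖ * ‖g i‖ := by
    refine (norm_sum_le _ _).trans (le_of_eq ?_)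
    exact Finset.sum_congr rfl fun i _ => norm_mul _ _
  have h2 := Finset.sum_mul_sq_le_sq_mul_sq s (fun i => ‖b i‖) (fun i => ‖g i‖)
  exact (pow_le_pow_left₀ (norm_nonneg _) h1 2).trans h2

private theorem Kca_one (D V : ℕ) (S : Finset ℕ) (c w : ℕ → ℂ) (F : ℤ → ℂ) (a : ℤ) (hV : 1 ≤ V) :
    ∑ d ∈ Ioc D (2 * D), ∑ p ∈ S, ∑ v ∈ Ico V (2 * V), c d * w v * F (a + d * p * v) =
      ∑ e ∈ Icc 1 (4 * (D * V)),
        (∑ d ∈ Ioc D (2 * D), ∑ v ∈ Ico V (2 * V), (if d * v = e then c d * w v else 0)) *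
        ∑ p ∈ S, F (a + (p : ℤ) * ((e : ℕ) : ℤ)) := by
  symm
  calc _ = ∑ e ∈ Icc 1 (4 * (D * V)), ∑ d ∈ Ioc D (2 * D), ∑ v ∈ Ico V (2 * V),
        (if d * v = e then c d * w v else 0) * ∑ p ∈ S, F (a + (p : ℤ) * ((e : ℕ) : ℤ)) := by
        apply Finset.sum_congr rfl
        intro e _
        rw [Finset.sum_mul]
        apply Finset.sum_congr rfl
        intro d _
        rw [Finset.sum_mul]
    _ = ∑ d ∈ Ioc D (2 * D), ∑ v ∈ Ico V (2 * V), ∑ e ∈ Icc 1 (4 * (D * V)),
        (if d * v = e then c d * w v else 0) * ∑ p ∈ S, F (a + (p : ℤ) * ((e : ℕ) : ℤ)) := by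
        rw [Finset.sum_comm]
        apply Finset.sum_congr rfl
        intro d _
        rw [Finset.sum_comm]
    _ = ∑ d ∈ Ioc D (2 * D), ∑ v ∈ Ico V (2 * V), ∑ p ∈ S, c d * w v * F (a + d * p * v) := by
        apply Finset.sum_congr rfl
        intro d hd
        apply Finset.sum_congr rfl
        intro v hv
        rw [Finset.mem_Ioc] at hd
        rw [Finset.mem_Ico] at hv
        rw [Finset.sum_eq_single (d * v)]
        · rw [if_pos rfl, Finset.mul_sum]
          apply Finset.sum_congr rfl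
          intro p _
          have e1 : a + (p : ℤ) * ((d * v : ℕ) : ℤ) = a + d * p * v := by
            push_cast
            ring
          rw [e1]
        · intro e _ hne
          rw [if_neg (fun h => hne h.symm), zero_mul]
        · intro hnot
          exfalso
          apply hnot
          rw [Finset.mem_Icc]
          constructor
          · exact Nat.mul_pos (by omega) (by omega)
          · calc d * v ≤ (2 * D) * (2 * V) := Nat.mul_le_mul hd.2 hv.2.le
              _ = 4 * (D * V) := by ring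
    _ = _ := by
        apply Finset.sum_congr rfl
        intro d _
        exact Finset.sum_comm

theorem tKca (h1 : DfaStmt) : KcaStmt := by
  intro A0 H D P V S c w F hD hP hV hS hc hw
  obtain ⟨b, hb⟩ : ∃ b : ℤ → ℕ → ℂ, ∀ a e, b a e =
      ∑ d ∈ Ioc D (2 * D), ∑ v ∈ Ico V (2 * V), (if d * v = e then c a d * w v else 0) :=
    ⟨_, fun _ _ => rfl⟩
  obtain ⟨G, hG⟩ : ∃ G : ℤ → ℕ → ℂ, ∀ a e, G a e = ∑ p ∈ S, F (a + (p : ℤ) * ((e : ℕ) : ℤ)) :=
    ⟨_, fun _ _ => rfl⟩
  have hKS : KS A0 H D V S c w F =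
      ∑ x ∈ Ico A0 (A0 + H) ×ˢ Icc 1 (4 * (D * V)), b x.1 x.2 * G x.1 x.2 := by
    rw [Finset.sum_product' (f := fun a e => b a e * G a e)]
    unfold KS
    apply Finset.sum_congr rfl
    intro a _
    rw [Kca_one D V S (c a) w F a hV]
    apply Finset.sum_congr rfl
    intro e _
    rw [hb, hG]
  rw [hKS]
  refine (Kca_cs _ _ _).trans ?_
  have hB : ∑ x ∈ Ico A0 (A0 + H) ×ˢ Icc 1 (4 * (D * V)), ‖b x.1 x.2‖ ^ 2 ≤
      (H : ℝ) * (4 * ((D : ℝ) * V) * (1 + Real.log (4 * ((D : ℝ) * V))) ^ 16) := by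
    rw [Finset.sum_product' (f := fun a e => ‖b a e‖ ^ 2)]
    have h2 : ∀ a ∈ Ico A0 (A0 + (H : ℤ)), ∑ e ∈ Icc 1 (4 * (D * V)), ‖b a e‖ ^ 2 ≤
        4 * ((D : ℝ) * V) * (1 + Real.log (4 * ((D : ℝ) * V))) ^ 16 := by
      intro a _
      have h := (h1 D P V S (c a) (fun v => if v = 0 then 0 else w v) hD hP hV hS (hc a) (by
        intro v
        by_cases hv : v = 0
        · simp [hv]
        · simp only [hv, if_false]
          exact hw v (by omega))).2.2.1
      have e1 : ∑ e ∈ Icc 1 (4 * (D * V)), ‖b a e‖ ^ 2 =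
          ∑ e ∈ Icc 1 (4 * (D * V)), ‖∑ d ∈ Ioc D (2 * D), ∑ v ∈ Ico V (2 * V),
            (if d * v = e then c a d * (if v = 0 then 0 else w v) else 0)‖ ^ 2 := by
        apply Finset.sum_congr rfl
        intro e _
        rw [hb]
        congr 2
        apply Finset.sum_congr rfl
        intro d _
        apply Finset.sum_congr rfl
        intro v hv
        rw [Finset.mem_Ico] at hv
        have hv0 : v ≠ 0 := by omega
        rw [if_neg hv0]
      rw [e1]
      refine h.trans (le_of_eq ?_)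
      push_cast
      ring
    refine (Finset.sum_le_sum h2).trans (le_of_eq ?_)
    rw [Finset.sum_const, nsmul_eq_mul, Int.card_Ico]
    congr 2
    omega
  have hGG : ∑ x ∈ Ico A0 (A0 + H) ×ˢ Icc 1 (4 * (D * V)), ‖G x.1 x.2‖ ^ 2 ≤
      ∑ a ∈ Ico A0 (A0 + H), ∑ e ∈ Icc (-((4 * (D * V) : ℕ) : ℤ)) ((4 * (D * V) : ℕ) : ℤ),
        ‖∑ p ∈ S, F (a + p * e)‖ ^ 2 := by
    rw [Finset.sum_product' (f := fun a e => ‖G a e‖ ^ 2)]
    apply Finset.sum_le_sum
    intro a _
    calc ∑ e ∈ Icc 1 (4 * (D * V)), ‖G a e‖ ^ 2 =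
        ∑ e ∈ (Icc 1 (4 * (D * V))).image (fun e : ℕ => (e : ℤ)), ‖∑ p ∈ S, F (a + p * e)‖ ^ 2 := by
          rw [Finset.sum_image (by
            intro x _ y _ h
            have h5 : (x : ℤ) = (y : ℤ) := h
            exact_mod_cast h5)]
          apply Finset.sum_congr rfl
          intro e _
          rw [hG]
      _ ≤ _ := by
          apply Finset.sum_le_sum_of_subset_of_nonneg
          · intro e he
            obtain ⟨k, hk, rfl⟩ := Finset.mem_image.mp he
            rw [Finset.mem_Icc] at hk ⊢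
            constructor
            · omega
            · exact_mod_cast hk.2
          · intro i _ _
            positivity
  refine mul_le_mul hB hGG (Finset.sum_nonneg fun _ _ => by positivity) ?_
  exact le_trans (Finset.sum_nonneg fun _ _ => by positivity) hB

end Pool.Agent.Lib.TR
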