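import Pool.Agent.Lib.TR.SpecK

/-!
MP_00e23e_nt, directory Lib/TR, module Kcl (helper28): splitting of the convolution into residue classes modulo q.
-/

set_option autoImplicit false

namespace Pool.Agent.Lib.TR

open Finset Pool.Agent.Lib.EH3 Pool.Agent.Results.MP_00e23e_nt

private lemma Kcl_ee (d p v q r : ℕ) (hq : 1 ≤ q) :
    ee (-((((d * p * v : ℕ) : ℤ) : ℝ) * ((r : ℝ) / (q : ℝ)))) =
      ee (-((((d % q) * (p % q) * (v % q) : ℕ) : ℝ) * ((r : ℝ) / (q : ℝ)))) := by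
  have h1 : (q : ℤ) ∣ ((d * p * v : ℕ) : ℤ) - (((d % q) * (p % q) * (v % q) : ℕ) : ℤ) :=
    Nat.modEq_iff_dvd.1 (((Nat.mod_modEq d q).mul (Nat.mod_modEq p q)).mul (Nat.mod_modEq v q))
  obtain ⟨e, he⟩ : ∃ e : ℕ, e = (d % q) * (p % q) * (v % q) := ⟨_, rfl⟩
  obtain ⟨f, hf⟩ : ∃ f : ℕ, f = d * p * v := ⟨_, rfl⟩
  rw [← he, ← hf] at h1 ⊢
  obtain ⟨k, hk⟩ := h1
  have hq0 : (q : ℝ) ≠ 0 := by
    have : (0 : ℝ) < q := by exact_mod_cast hq
    exact this.ne'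
  have h3 : ((f : ℤ) : ℝ) = (e : ℝ) + (q : ℝ) * k := by
    have h4 : (f : ℤ) = (e : ℤ) + (q : ℤ) * k := by linarith
    rw [h4]
    push_cast
    ring
  have h5 : -(((f : ℤ) : ℝ) * ((r : ℝ) / (q : ℝ))) =
      -((e : ℝ) * ((r : ℝ) / (q : ℝ))) + ((-(k * (r : ℤ)) : ℤ) : ℝ) := by
    rw [h3]
    push_cast
    field_simp
    ring
  rw [h5, ee_add, ee_int, mul_one]

/-- the index set of the classes -/
private def Kcl_K (q : ℕ) : Finset (ℕ × ℕ × ℕ) := range q ×ˢ (range q ×ˢ range q)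

/-- the part of one triple of classes -/
private noncomputable def Kcl_g (D V q : ℕ) (S : Finset ℕ) (c w : ℕ → ℂ) (k : ℕ × ℕ × ℕ) (m : ℤ) : ℂ :=
  gg D V (S.filter (fun p => p % q = k.2.1)) (fun d => if d % q = k.1 then c d else 0)
    (fun v => if v % q = k.2.2 then w v else 0) m

/-- the phase of one triple of classes -/
private noncomputable def Kcl_e (q r : ℕ) (k : ℕ × ℕ × ℕ) : ℂ := ee (-(((k.1 * k.2.1 * k.2.2 : ℕ) : ℝ) * ((r : ℝ) / (q : ℝ))))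

private lemma Kcl_split (D V q r : ℕ) (S : Finset ℕ) (c w : ℕ → ℂ) (hq : 1 ≤ q) (m : ℤ) :
    gg D V S c w m * ee (-((m : ℝ) * ((r : ℝ) / (q : ℝ)))) = ∑ k ∈ Kcl_K q, Kcl_e q r k * Kcl_g D V q S c w k m := by
  unfold Kcl_g gg
  have h1 : ∀ k ∈ Kcl_K q, Kcl_e q r k * ∑ d ∈ Ioc D (2 * D), ∑ p ∈ S.filter (fun p => p % q = k.2.1), ∑ v ∈ Ico V (2 * V),
      (if ((d * p * v : ℕ) : ℤ) = m then (if d % q = k.1 then c d else 0) * (if v % q = k.2.2 then w v else 0) else 0) =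
      ∑ d ∈ Ioc D (2 * D), ∑ p ∈ S, ∑ v ∈ Ico V (2 * V), (if k = (d % q, p % q, v % q) then
        (if ((d * p * v : ℕ) : ℤ) = m then Kcl_e q r k * (c d * w v) else 0) else 0) := by
    intro k hk
    rw [mul_sum]
    refine sum_congr rfl fun d _ => ?_
    rw [mul_sum, sum_filter]
    refine sum_congr rfl fun p _ => ?_
    obtain ⟨k1, k2, k3⟩ := k
    by_cases hp : p % q = k2
    · rw [if_pos hp, mul_sum]
      refine sum_congr rfl fun v _ => ?_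
      by_cases hm : ((d * p * v : ℕ) : ℤ) = m
      · by_cases hd : d % q = k1
        · by_cases hv : v % q = k3
          · simp [hm, hd, hv, hp]
          · have : ¬ ((k1, k2, k3) = (d % q, p % q, v % q)) := by
              intro h
              simp only [Prod.mk.injEq] at h
              exact hv h.2.2.symm
            rw [if_neg this]
            simp [hv]
        · have : ¬ ((k1, k2, k3) = (d % q, p % q, v % q)) := by
            intro h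
            simp only [Prod.mk.injEq] at h
            exact hd h.1.symm
          rw [if_neg this]
          simp [hd]
      · rw [if_neg hm, if_neg hm, mul_zero, ite_self]
    · rw [if_neg hp]
      symm
      refine sum_eq_zero fun v _ => ?_
      have : ¬ ((k1, k2, k3) = (d % q, p % q, v % q)) := by
        intro h
        simp only [Prod.mk.injEq] at h
        exact hp h.2.1.symm
      rw [if_neg this]
  symm
  rw [sum_congr rfl h1, sum_comm, sum_mul]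
  refine sum_congr rfl fun d _ => ?_
  rw [sum_comm, sum_mul]
  refine sum_congr rfl fun p _ => ?_
  rw [sum_comm, sum_mul]
  refine sum_congr rfl fun v _ => ?_
  have hmem : (d % q, p % q, v % q) ∈ Kcl_K q := by
    simp only [Kcl_K, mem_product, mem_range]
    exact ⟨Nat.mod_lt _ hq, Nat.mod_lt _ hq, Nat.mod_lt _ hq⟩
  rw [sum_ite_eq' (Kcl_K q) (d % q, p % q, v % q), if_pos hmem]
  by_cases hm : ((d * p * v : ℕ) : ℤ) = m
  · rw [if_pos hm, if_pos hm, ← hm, Kcl_ee d p v q r hq]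
    unfold Kcl_e
    ring
  · rw [if_neg hm, if_neg hm, zero_mul]

private lemma Kcl_kg (h h0 : ℕ) (K : Finset (ℕ × ℕ × ℕ)) (E : ℕ × ℕ × ℕ → ℂ) (G : ℕ × ℕ × ℕ → ℤ → ℂ) (n : ℤ) :
    kg h h0 (fun m => ∑ k ∈ K, E k * G k m) n = ∑ k ∈ K, E k * kg h h0 (G k) n := by
  unfold kg
  have h1 : ∀ H : ℕ, ∑ j ∈ range H, ∑ k ∈ K, E k * G k (n - j) = ∑ k ∈ K, E k * ∑ j ∈ range H, G k (n - j) := by
    intro H
    rw [sum_comm]
    exact sum_congr rfl fun k _ => by rw [mul_sum]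
  rw [h1, h1, mul_sum, mul_sum, ← sum_sub_distrib]
  exact sum_congr rfl fun k _ => by ring

/-- Module Kcl. -/
theorem tKcl : KclStmt := by
  intro D V h h0 q N' r S c w B hq hB hyp
  have h1 : (fun m : ℤ => gg D V S c w m * ee (-((m : ℝ) * ((r : ℝ) / (q : ℝ))))) =
      fun m : ℤ => ∑ k ∈ Kcl_K q, Kcl_e q r k * Kcl_g D V q S c w k m := by
    funext m
    exact Kcl_split D V q r S c w hq m
  rw [h1]
  have hcard : ((Kcl_K q).card : ℝ) = (q : ℝ) ^ 3 := by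
    simp only [Kcl_K, card_product, card_range]
    push_cast
    ring
  have h2 : ∀ n : ℤ, ‖kg h h0 (fun m : ℤ => ∑ k ∈ Kcl_K q, Kcl_e q r k * Kcl_g D V q S c w k m) n‖ ^ 2 ≤
      (q : ℝ) ^ 3 * ∑ k ∈ Kcl_K q, ‖kg h h0 (Kcl_g D V q S c w k) n‖ ^ 2 := by
    intro n
    rw [Kcl_kg]
    have h3 : ‖∑ k ∈ Kcl_K q, Kcl_e q r k * kg h h0 (Kcl_g D V q S c w k) n‖ ≤
        ∑ k ∈ Kcl_K q, ‖kg h h0 (Kcl_g D V q S c w k) n‖ := by
      refine (norm_sum_le _ _).trans (sum_le_sum fun k _ => ?_)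
      rw [norm_mul]
      unfold Kcl_e
      rw [norm_ee, one_mul]
    calc ‖∑ k ∈ Kcl_K q, Kcl_e q r k * kg h h0 (Kcl_g D V q S c w k) n‖ ^ 2
        ≤ (∑ k ∈ Kcl_K q, ‖kg h h0 (Kcl_g D V q S c w k) n‖) ^ 2 := by
          exact pow_le_pow_left₀ (norm_nonneg _) h3 2
      _ ≤ ((Kcl_K q).card : ℝ) * ∑ k ∈ Kcl_K q, ‖kg h h0 (Kcl_g D V q S c w k) n‖ ^ 2 := sq_sum_le_card_mul_sum_sq
      _ = (q : ℝ) ^ 3 * ∑ k ∈ Kcl_K q, ‖kg h h0 (Kcl_g D V q S c w k) n‖ ^ 2 := by rw [hcard]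
  calc ∑ n ∈ Icc (1 : ℤ) N', ‖kg h h0 (fun m : ℤ => ∑ k ∈ Kcl_K q, Kcl_e q r k * Kcl_g D V q S c w k m) n‖ ^ 2
      ≤ ∑ n ∈ Icc (1 : ℤ) N', (q : ℝ) ^ 3 * ∑ k ∈ Kcl_K q, ‖kg h h0 (Kcl_g D V q S c w k) n‖ ^ 2 :=
        sum_le_sum fun n _ => h2 n
    _ = (q : ℝ) ^ 3 * ∑ k ∈ Kcl_K q, ∑ n ∈ Icc (1 : ℤ) N', ‖kg h h0 (Kcl_g D V q S c w k) n‖ ^ 2 := by
        rw [← mul_sum, sum_comm]
    _ ≤ (q : ℝ) ^ 3 * ∑ _k ∈ Kcl_K q, B := by
        refine mul_le_mul_of_nonneg_left (sum_le_sum fun k hk => ?_) (by positivity)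
        simp only [Kcl_K, mem_product, mem_range] at hk
        exact hyp k.1 k.2.1 k.2.2 hk.1 hk.2.1 hk.2.2
    _ = (q : ℝ) ^ 6 * B := by
        rw [sum_const, nsmul_eq_mul, hcard]
        ring

end Pool.Agent.Lib.TR
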