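import Pool.Agent.Lib.TR.SpecK

/-!
MP_00e23e_nt, directory Lib/TR, module Kdu: duality for one a.
-/

set_option autoImplicit false

namespace Pool.Agent.Lib.TR

open Finset Pool.Agent.Lib.EH3 Pool.Agent.Results.MP_00e23e_nt

/-- one shift -/
private lemma Kdu_shift (f g : ℤ → ℂ) (X' N j : ℕ) (a : ℤ) (t : ℝ)
    (hg : ∀ m : ℤ, (m < 1 ∨ (X' : ℤ) < m) → g m = 0) (hN : X' + j ≤ N) :
    ∑ m ∈ Icc (1 : ℤ) X', g m * (ee ((j : ℝ) * t) * f (a + m + j)) =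
      ∑ n ∈ Icc (1 : ℤ) (N : ℤ), f (a + n) * ee ((n : ℝ) * t) *
        (g (n - j) * ee (-(((n - j : ℤ) : ℝ) * t))) := by
  have h1 : ∑ m ∈ Icc (1 : ℤ) X', g m * (ee ((j : ℝ) * t) * f (a + m + j)) =
      ∑ n ∈ Icc ((1 : ℤ) + j) ((X' : ℤ) + j), f (a + n) * ee ((n : ℝ) * t) *
        (g (n - j) * ee (-(((n - j : ℤ) : ℝ) * t))) := by
    apply Finset.sum_nbij' (fun m => m + (j : ℤ)) (fun n => n - (j : ℤ))
    · intro m hm
      rw [Finset.mem_Icc] at hm ⊢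
      omega
    · intro n hn
      rw [Finset.mem_Icc] at hn ⊢
      omega
    · intro m _
      simp
    · intro n _
      simp
    · intro m _
      have e1 : m + (j : ℤ) - (j : ℤ) = m := by ring
      have e2 : a + (m + (j : ℤ)) = a + m + j := by ring
      have e3 : ee ((j : ℝ) * t) = ee (((m + (j : ℤ) : ℤ) : ℝ) * t) * ee (-((m : ℝ) * t)) := by
        rw [← ee_add]
        congr 1
        push_cast
        ring
      simp only [e1, e2]
      rw [e3]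
      ring
  rw [h1]
  apply Finset.sum_subset
  · intro n hn
    rw [Finset.mem_Icc] at hn ⊢
    omega
  · intro n hn hn'
    rw [Finset.mem_Icc] at hn hn'
    have : g (n - j) = 0 := by
      apply hg
      by_contra hc
      push Not at hc
      apply hn'
      omega
    rw [this]
    ring

/-- one window -/
private lemma Kdu_win (f g : ℤ → ℂ) (X' N h : ℕ) (a : ℤ) (t : ℝ)
    (hg : ∀ m : ℤ, (m < 1 ∨ (X' : ℤ) < m) → g m = 0) (hN : X' + h ≤ N) :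
    ∑ m ∈ Icc (1 : ℤ) X', g m * ((1 / (h : ℂ)) * ∑ j ∈ range h, ee ((j : ℝ) * t) * f (a + m + j)) =
      ∑ n ∈ Icc (1 : ℤ) (N : ℤ), f (a + n) * ee ((n : ℝ) * t) *
        ((1 / (h : ℂ)) * ∑ j ∈ range h, g (n - j) * ee (-(((n - j : ℤ) : ℝ) * t))) := by
  have e1 : ∀ m : ℤ, g m * ((1 / (h : ℂ)) * ∑ j ∈ range h, ee ((j : ℝ) * t) * f (a + m + j)) =
      ∑ j ∈ range h, (1 / (h : ℂ)) * (g m * (ee ((j : ℝ) * t) * f (a + m + j))) := by
    intro m
    rw [Finset.mul_sum, Finset.mul_sum]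
    apply Finset.sum_congr rfl
    intro j _
    ring
  have e2 : ∀ n : ℤ, f (a + n) * ee ((n : ℝ) * t) *
      ((1 / (h : ℂ)) * ∑ j ∈ range h, g (n - j) * ee (-(((n - j : ℤ) : ℝ) * t))) =
      ∑ j ∈ range h, (1 / (h : ℂ)) * (f (a + n) * ee ((n : ℝ) * t) *
        (g (n - j) * ee (-(((n - j : ℤ) : ℝ) * t)))) := by
    intro n
    rw [Finset.mul_sum, Finset.mul_sum]
    apply Finset.sum_congr rfl
    intro j _
    ring
  rw [Finset.sum_congr rfl (fun m _ => e1 m), Finset.sum_congr rfl (fun n _ => e2 n),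
    Finset.sum_comm, Finset.sum_comm (s := Icc (1 : ℤ) (N : ℤ))]
  apply Finset.sum_congr rfl
  intro j hj
  rw [Finset.mem_range] at hj
  rw [← Finset.mul_sum, ← Finset.mul_sum, Kdu_shift f g X' N j a t hg (by omega)]

/-- the identity for one fraction -/
private lemma Kdu_id (f g : ℤ → ℂ) (X' h h0 : ℕ) (a : ℤ) (t : ℝ)
    (hg : ∀ m : ℤ, (m < 1 ∨ (X' : ℤ) < m) → g m = 0) :
    ∑ m ∈ Icc (1 : ℤ) X', g m * ((1 / (h : ℂ)) * ∑ j ∈ range h, ee ((j : ℝ) * t) * f (a + m + j) -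
        (1 / (h0 : ℂ)) * ∑ j ∈ range h0, ee ((j : ℝ) * t) * f (a + m + j)) =
      ∑ n ∈ Icc (1 : ℤ) ((X' + h + h0 : ℕ) : ℤ), f (a + n) * ee ((n : ℝ) * t) *
        kg h h0 (fun m => g m * ee (-((m : ℝ) * t))) n := by
  have w1 := Kdu_win f g X' (X' + h + h0) h a t hg (by omega)
  have w2 := Kdu_win f g X' (X' + h + h0) h0 a t hg (by omega)
  simp only [mul_sub, Finset.sum_sub_distrib, kg]
  rw [w1, w2]

/-- the square sum -/
private lemma Kdu_sq (f : ℤ → ℂ) (K N : ℕ) (a : ℤ) (t : ℝ) (hf : ∀ n : ℤ, (K : ℤ) < |n| → f n = 0) :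
    ∑ n ∈ Icc (1 : ℤ) (N : ℤ), ‖f (a + n) * ee ((n : ℝ) * t)‖ ^ 2 ≤ sq K f := by
  have e1 : ∀ n : ℤ, ‖f (a + n) * ee ((n : ℝ) * t)‖ ^ 2 = ‖f (a + n)‖ ^ 2 := by
    intro n
    rw [norm_mul, norm_ee, mul_one]
  rw [Finset.sum_congr rfl (fun n _ => e1 n)]
  have e2 : ∑ n ∈ Icc (1 : ℤ) (N : ℤ), ‖f (a + n)‖ ^ 2 =
      ∑ n ∈ Icc (a + 1 : ℤ) (a + (N : ℤ)), ‖f n‖ ^ 2 := by
    apply Finset.sum_nbij' (fun m => a + m) (fun n => n - a)
    · intro m hm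
      rw [Finset.mem_Icc] at hm ⊢
      omega
    · intro n hn
      rw [Finset.mem_Icc] at hn ⊢
      omega
    · intro m _
      simp
    · intro n _
      simp
    · intro m _
      rfl
  rw [e2]
  unfold sq
  have e3 : ∑ n ∈ Icc (a + 1 : ℤ) (a + (N : ℤ)), ‖f n‖ ^ 2 =
      ∑ n ∈ (Icc (a + 1 : ℤ) (a + (N : ℤ))).filter (fun n => n ∈ Icc (-(K : ℤ)) K), ‖f n‖ ^ 2 := by
    rw [Finset.sum_filter]
    apply Finset.sum_congr rfl
    intro n _
    split_ifs with h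
    · rfl
    · rw [Finset.mem_Icc] at h
      have : f n = 0 := by
        apply hf
        by_contra hc
        push Not at hc
        exact h (abs_le.mp hc)
      rw [this]
      simp
  rw [e3]
  apply Finset.sum_le_sum_of_subset_of_nonneg
  · intro n hn
    exact (Finset.mem_filter.mp hn).2
  · intro n _ _
    positivity

/-- the bound for one fraction -/
private lemma Kdu_one (f g : ℤ → ℂ) (K X' h h0 : ℕ) (a : ℤ) (t : ℝ)
    (hf : ∀ n : ℤ, (K : ℤ) < |n| → f n = 0)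
    (hg : ∀ m : ℤ, (m < 1 ∨ (X' : ℤ) < m) → g m = 0) :
    ‖∑ m ∈ Icc (1 : ℤ) X', g m * ((1 / (h : ℂ)) * ∑ j ∈ range h, ee ((j : ℝ) * t) * f (a + m + j) -
        (1 / (h0 : ℂ)) * ∑ j ∈ range h0, ee ((j : ℝ) * t) * f (a + m + j))‖ ≤
      Real.sqrt (sq K f) * Real.sqrt (∑ n ∈ Icc (1 : ℤ) ((X' + h + h0 : ℕ) : ℤ),
        ‖kg h h0 (fun m => g m * ee (-((m : ℝ) * t))) n‖ ^ 2) := by
  rw [Kdu_id f g X' h h0 a t hg]
  have c1 := norm_sum_le (Icc (1 : ℤ) ((X' + h + h0 : ℕ) : ℤ))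
    (fun n : ℤ => f (a + n) * ee ((n : ℝ) * t) * kg h h0 (fun m => g m * ee (-((m : ℝ) * t))) n)
  simp only [norm_mul (f _ * ee _)] at c1
  refine c1.trans ?_
  refine (Real.sum_mul_le_sqrt_mul_sqrt _ _ _).trans ?_
  apply mul_le_mul_of_nonneg_right _ (Real.sqrt_nonneg _)
  exact Real.sqrt_le_sqrt (Kdu_sq f K (X' + h + h0) a t hf)

/-- the local average as a sum over the fractions -/
private lemma Kdu_ch (Q h : ℕ) (f : ℤ → ℂ) (n : ℤ) :
    Ch Q h f n = ∑ q ∈ Icc 1 Q, Pool.Agent.Lib.UI.redc q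
      (fun t => (1 / (h : ℂ)) * ∑ j ∈ range h, ee ((j : ℝ) * t) * f (n + j)) := by
  unfold Ch Rq Pool.Agent.Lib.UI.redc
  have e1 : ∀ j : ℕ, (∑ q ∈ Icc 1 Q, ∑ r ∈ (range q).filter (fun r => r.Coprime q),
      ee ((((j : ℕ) : ℤ) : ℝ) * ((r : ℝ) / (q : ℝ)))) * f (n + j) =
      ∑ q ∈ Icc 1 Q, ∑ r ∈ (range q).filter (fun r => r.Coprime q),
        ee ((j : ℝ) * ((r : ℝ) / (q : ℝ))) * f (n + j) := by
    intro j
    rw [Finset.sum_mul]
    apply Finset.sum_congr rfl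
    intro q _
    rw [Finset.sum_mul]
    apply Finset.sum_congr rfl
    intro r _
    rw [Int.cast_natCast]
  rw [Finset.sum_congr rfl (fun j _ => e1 j), Finset.sum_comm, Finset.mul_sum]
  apply Finset.sum_congr rfl
  intro q _
  rw [Finset.sum_comm, Finset.mul_sum]

/-- **Kdu** (duality for one a) -/
theorem tKdu : KduStmt := by
  intro f g K X' Q h h0 a _ _ hf hg
  have e1 : ∑ m ∈ Icc (1 : ℤ) X', g m * (Ch Q h f (a + m) - Ch Q h0 f (a + m)) =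
      ∑ q ∈ Icc 1 Q, ∑ r ∈ (range q).filter (fun r => r.Coprime q),
        ∑ m ∈ Icc (1 : ℤ) X', g m *
          ((1 / (h : ℂ)) * ∑ j ∈ range h, ee ((j : ℝ) * ((r : ℝ) / (q : ℝ))) * f (a + m + j) -
          (1 / (h0 : ℂ)) * ∑ j ∈ range h0, ee ((j : ℝ) * ((r : ℝ) / (q : ℝ))) * f (a + m + j)) := by
    have s1 : ∀ m : ℤ, g m * (Ch Q h f (a + m) - Ch Q h0 f (a + m)) =
        ∑ q ∈ Icc 1 Q, ∑ r ∈ (range q).filter (fun r => r.Coprime q), g m *
          ((1 / (h : ℂ)) * ∑ j ∈ range h, ee ((j : ℝ) * ((r : ℝ) / (q : ℝ))) * f (a + m + j) -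
          (1 / (h0 : ℂ)) * ∑ j ∈ range h0, ee ((j : ℝ) * ((r : ℝ) / (q : ℝ))) * f (a + m + j)) := by
      intro m
      rw [Kdu_ch, Kdu_ch, ← Finset.sum_sub_distrib, Finset.mul_sum]
      apply Finset.sum_congr rfl
      intro q _
      unfold Pool.Agent.Lib.UI.redc
      rw [← Finset.sum_sub_distrib, Finset.mul_sum]
    rw [Finset.sum_congr rfl (fun m _ => s1 m), Finset.sum_comm]
    apply Finset.sum_congr rfl
    intro q _
    rw [Finset.sum_comm]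
  rw [e1, Finset.mul_sum]
  refine (norm_sum_le _ _).trans (Finset.sum_le_sum fun q _ => ?_)
  unfold Pool.Agent.Lib.UI.red
  rw [Finset.mul_sum]
  refine (norm_sum_le _ _).trans (Finset.sum_le_sum fun r _ => ?_)
  exact Kdu_one f g K X' h h0 a ((r : ℝ) / (q : ℝ)) hf hg

end Pool.Agent.Lib.TR
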