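import Pool.Agent.Lib.TR.SpecK

/-!
MP_00e23e_nt, directory Lib/TR, chapter K, module Key (helper10): the main proposition KeyStmt.
-/

set_option autoImplicit false

namespace Pool.Agent.Lib.TR

open Finset Pool.Agent.Lib.EH3 Pool.Agent.Results.MP_00e23e_nt

private lemma Key_wt {ρ : ℕ → ℝ} (hρ : ∀ l, |ρ l| ≤ 1) (Z v : ℕ) (hv : 1 ≤ v) :
    ‖((wt ρ Z v : ℝ) : ℂ)‖ ≤ (v.divisors.card : ℝ) := by
  rw [Complex.norm_real, Real.norm_eq_abs]
  unfold wt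
  refine (Finset.abs_sum_le_sum_abs _ _).trans ?_
  refine (Finset.sum_le_sum fun l _ => hρ l).trans ?_
  rw [Finset.sum_const, nsmul_eq_mul, mul_one]
  have h1 : (Icc 1 Z).filter (fun l => l ∣ v) ⊆ v.divisors := by
    intro l hl
    rw [Finset.mem_filter] at hl
    rw [Nat.mem_divisors]
    exact ⟨hl.2, by omega⟩
  exact_mod_cast Finset.card_le_card h1

private lemma Key_add (A0 : ℤ) (H D V : ℕ) (S : Finset ℕ) (c : ℤ → ℕ → ℂ) (w : ℕ → ℂ) (f F G : ℤ → ℂ) :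
    KS A0 H D V S c w f = KS A0 H D V S c w (fun n => f n - F n) + KS A0 H D V S c w (fun n => F n - G n) +
      KS A0 H D V S c w G := by
  unfold KS
  rw [← Finset.sum_add_distrib, ← Finset.sum_add_distrib]
  refine Finset.sum_congr rfl fun a _ => ?_
  rw [← Finset.sum_add_distrib, ← Finset.sum_add_distrib]
  refine Finset.sum_congr rfl fun d _ => ?_
  rw [← Finset.sum_add_distrib, ← Finset.sum_add_distrib]
  refine Finset.sum_congr rfl fun p _ => ?_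
  rw [← Finset.sum_add_distrib, ← Finset.sum_add_distrib]
  refine Finset.sum_congr rfl fun v _ => ?_
  ring

private lemma Key_sq (x : ℝ) (hx : 1 ≤ x) (f : ℤ → ℂ) (hf : ∀ n, ‖f n‖ ≤ Real.log x) :
    sq ⌊x⌋₊ f ≤ 3 * x * (Real.log x) ^ (2 : ℕ) := by
  unfold sq
  have h1 : ∀ n ∈ Icc (-((⌊x⌋₊ : ℕ) : ℤ)) (⌊x⌋₊ : ℕ), ‖f n‖ ^ 2 ≤ (Real.log x) ^ (2 : ℕ) :=
    fun n _ => pow_le_pow_left₀ (norm_nonneg _) (hf n) 2
  refine (Finset.sum_le_sum h1).trans ?_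
  rw [Finset.sum_const, nsmul_eq_mul, Int.card_Icc]
  have h2 : ((((⌊x⌋₊ : ℕ) : ℤ) + 1 - (-((⌊x⌋₊ : ℕ) : ℤ))).toNat : ℝ) = 2 * (⌊x⌋₊ : ℝ) + 1 := by
    have h3 : (((⌊x⌋₊ : ℕ) : ℤ) + 1 - (-((⌊x⌋₊ : ℕ) : ℤ))).toNat = 2 * ⌊x⌋₊ + 1 := by omega
    rw [h3]
    push_cast
    ring
  rw [h2]
  have h4 := Nat.floor_le (show 0 ≤ x by linarith)
  exact mul_le_mul_of_nonneg_right (by linarith) (by positivity)

private lemma Key_ev (A : ℝ) : ∃ x3 : ℝ, ∀ x : ℝ, x3 ≤ x → x ^ ((1 : ℝ) / 2) ≤ x * (Real.log x) ^ (-(A + 5)) := by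
  have h1 := (isLittleO_log_rpow_rpow_atTop (A + 5) (show (0 : ℝ) < 1 / 2 by norm_num)).bound
    (show (0 : ℝ) < 1 by norm_num)
  obtain ⟨X, hX⟩ := Filter.eventually_atTop.1 h1
  refine ⟨max X 3, fun x hx => ?_⟩
  have hx3 : 3 ≤ x := (le_max_right _ _).trans hx
  have hl : 0 < Real.log x := Real.log_pos (by linarith)
  have h2 := hX x ((le_max_left _ _).trans hx)
  rw [Real.norm_of_nonneg (by positivity), Real.norm_of_nonneg (by positivity), one_mul] at h2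
  have h3 : x = x ^ ((1 : ℝ) / 2) * x ^ ((1 : ℝ) / 2) := by
    rw [← Real.rpow_add (by linarith)]
    norm_num
  rw [Real.rpow_neg hl.le, ← div_eq_mul_inv, le_div_iff₀ (by positivity)]
  calc x ^ ((1 : ℝ) / 2) * Real.log x ^ (A + 5) ≤ x ^ ((1 : ℝ) / 2) * x ^ ((1 : ℝ) / 2) :=
        mul_le_mul_of_nonneg_left h2 (by positivity)
    _ = x := h3.symm

/-- the main proposition -/
theorem tKey (h1 : VarStmt) (h2 : MsuStmt) (h3 : KlgStmt) (h4 : KmcStmt) (h5 : KmbStmt) (h6 : KmaStmt)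
    (h7 : KpaStmt) (h8 : KnaStmt) (h9 : KnbStmt) (h10 : KncStmt) : KeyStmt := by
  intro ε A hε hε1 hA
  have hβ : 1 ≤ kb A := by
    unfold kb
    linarith
  obtain ⟨B0', B, b0, x1, hB0', hβB, hB, hb0, hx1, HV⟩ := h1 ε (2 * A + 10 * kb A + 20) (kb A) hε hε1
    (by linarith) hβ
  obtain ⟨x2, hx2, HP⟩ := h7 A (max B0' (2 * kb A + 2)) B b0 hA (le_max_right _ _) hB hb0
  obtain ⟨x3, hx3⟩ := Key_ev A
  refine ⟨max B0' (2 * kb A + 2), k1 A B, kb A, A + b0 + 3 * kb A + 20, max x1 (max x2 x3), ?_, ?_, hβ, ?_, ?_, ?_, ?_⟩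
  · exact hB0'.trans (le_max_left _ _)
  · unfold k1
    linarith
  · exact hβB.trans (le_max_left _ _)
  · linarith
  · exact hx1.trans (le_max_left _ _)
  intro x D P V Z H S A0 c ρ f hx hD hZ hX1 hX2 hV hP hH hH1 hS hc hρ hρ2 hf hf2 hf3
  have hxx1 : x1 ≤ x := (le_max_left _ _).trans hx
  have hxx2 : x2 ≤ x := ((le_max_left _ _).trans (le_max_right _ _)).trans hx
  have hxx3 : x3 ≤ x := ((le_max_right _ _).trans (le_max_right _ _)).trans hx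
  have hx0 : 3 ≤ x := hx1.trans hxx1
  have hlog : 0 < Real.log x := Real.log_pos (by linarith)
  obtain ⟨Q, h, h0, L0, δ, hp⟩ := HP x D P V H hxx2 hD hX1 hX2 hP hH hH1
  obtain ⟨n1, n2, n3, n4, n5, n6, n7⟩ := h8 A (max B0' (2 * kb A + 2)) B b0 x D P V H Q h h0 L0 δ hp
  have m1 := h9 A (max B0' (2 * kb A + 2)) B b0 x D P V H Q h h0 L0 δ hp
  obtain ⟨m2, m3⟩ := h10 A (max B0' (2 * kb A + 2)) B b0 x D P V H Q h h0 L0 δ hp
  have hP1 := hp.pP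
  have hV1 := hp.pV
  have hQ1 := hp.pQ
  have hh1 := hp.ph
  have hg1 := hp.pg
  have hl1 := hp.pl
  have hSS : ∀ p ∈ S, P < p ∧ p ≤ 2 * P := fun p hpS => (hS p hpS).2
  have hw : ∀ v, 1 ≤ v → ‖((fun v : ℕ => ((wt ρ Z v : ℝ) : ℂ)) v)‖ ≤ (v.divisors.card : ℝ) :=
    fun v hv => Key_wt hρ Z v hv
  have hK : ∀ n : ℤ, ((⌊x⌋₊ : ℕ) : ℤ) < |n| → f n = 0 := by
    intro n hn
    apply hf2
    have e1 : ((⌊x⌋₊ : ℕ) : ℤ) + 1 ≤ |n| := hn
    have e2 : (((⌊x⌋₊ : ℕ) : ℤ) : ℝ) + 1 ≤ ((|n| : ℤ) : ℝ) := by exact_mod_cast e1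
    rw [Int.cast_abs] at e2
    have e3 := Nat.lt_floor_add_one x
    have e4 : (((⌊x⌋₊ : ℕ) : ℤ) : ℝ) = ((⌊x⌋₊ : ℕ) : ℝ) := by push_cast; rfl
    rw [e4] at e2
    linarith
  have hsq := Key_sq x (by linarith) f hf
  have hsq0 : 0 ≤ sq ⌊x⌋₊ f := by
    unfold sq
    exact Finset.sum_nonneg fun n _ => by positivity
  rw [Key_add A0 H D V S c (fun v => ((wt ρ Z v : ℝ) : ℂ)) f (Ch Q h f) (Ch Q h0 f)]
  have hxA : 0 ≤ H * (x * (Real.log x) ^ (-A)) / 3 := by positivity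
  -- first part
  have p1 : ‖KS A0 H D V S c (fun v => ((wt ρ Z v : ℝ) : ℂ)) (fun n => f n - Ch Q h f n)‖ ≤
      H * (x * (Real.log x) ^ (-A)) / 3 := by
    have q1 := h6 A0 H D P V ⌊x⌋₊ Q h L0 S c (fun v => ((wt ρ Z v : ℝ) : ℂ)) f
      (P * (Real.log x) ^ (-(4 * A + 60))) hD hP1 hV1 n4 hl1 hQ1 n1 (by positivity) hSS hc hw hK
      (fun α => (h2 P L0 Q h δ α hP1 hl1 hQ1 n1 n2 n3).trans n7)
    refine abs_le_of_sq_le_sq' ?_ hxA |>.2
    refine q1.trans (le_trans ?_ m1)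
    have q2 : 0 ≤ Real.log (4 * ((D : ℝ) * V)) := by
      apply Real.log_nonneg
      have e1 : (1 : ℝ) ≤ D := by exact_mod_cast hD
      have e2 : (1 : ℝ) ≤ V := by exact_mod_cast hV1
      nlinarith
    refine mul_le_mul_of_nonneg_left ?_ (by positivity)
    exact mul_le_mul_of_nonneg_left hsq (by positivity)
  -- second part
  have p2 : ‖KS A0 H D V S c (fun v => ((wt ρ Z v : ℝ) : ℂ)) (fun n => Ch Q h f n - Ch Q h0 f n)‖ ≤
      H * (x * (Real.log x) ^ (-A)) / 3 := by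
    have q1 := h5 A0 H D P V ⌊x⌋₊ Q h h0 S c (fun v => ((wt ρ Z v : ℝ) : ℂ)) f
      ((D : ℝ) * P * V * (Real.log x) ^ (-(2 * A + 10 * kb A + 20))) hD hP1 hV1 hh1 hg1 (by positivity) hSS hK ?_
    · refine q1.trans (le_trans ?_ m2)
      refine mul_le_mul_of_nonneg_left ?_ (by positivity)
      exact mul_le_mul_of_nonneg_right (Real.sqrt_le_sqrt hsq) (by positivity)
    · intro a q κ1 κ2 κ3 N' e1 e2 e3 e4 e5
      have e6 : (q : ℝ) ≤ (Real.log x) ^ (kb A) := le_trans (by exact_mod_cast e2) hp.pQ1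
      exact HV x D P V Z h h0 q κ3 N' (S.filter (fun p => p % q = κ2)) (fun d => if d % q = κ1 then c a d else 0) ρ
        hxx1 hD hZ ((hx3 x hxx3).trans hX1) hX2 hV
        (le_trans (Real.rpow_le_rpow_of_exponent_le (by linarith [hp.pL]) (le_max_left _ _)) hP) n5 n6 hp.pg1 hp.pg2 e1 e6 e5
        (fun p hpS => hS p (Finset.mem_filter.1 hpS).1)
        (fun d => by
          by_cases hd : d % q = κ1
          · simp only [hd, if_true]
            exact hc a d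
          · simp only [hd, if_false, norm_zero]
            norm_num) hρ hρ2
  -- third part
  have p3 : ‖KS A0 H D V S c (fun v => ((wt ρ Z v : ℝ) : ℂ)) (Ch Q h0 f)‖ ≤
      H * (x * (Real.log x) ^ (-A)) / 3 := by
    have q1 := h3 f Q h0 (x * (Real.log x) ^ (-(A + b0 + 3 * kb A + 20))) hg1 (by positivity)
      (fun q b u v e1 e2 => hf3 q b u v e1 (le_trans (by exact_mod_cast e2) hp.pQ1))
    exact (h4 A0 H D P V S c (fun v => ((wt ρ Z v : ℝ) : ℂ)) (Ch Q h0 f)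
      ((Q : ℝ) ^ 3 * (x * (Real.log x) ^ (-(A + b0 + 3 * kb A + 20))) / h0) hD hP1 hV1 (by positivity) hSS hc hw q1).trans m3
  calc ‖KS A0 H D V S c (fun v => ((wt ρ Z v : ℝ) : ℂ)) (fun n => f n - Ch Q h f n) +
        KS A0 H D V S c (fun v => ((wt ρ Z v : ℝ) : ℂ)) (fun n => Ch Q h f n - Ch Q h0 f n) +
        KS A0 H D V S c (fun v => ((wt ρ Z v : ℝ) : ℂ)) (Ch Q h0 f)‖
      ≤ H * (x * (Real.log x) ^ (-A)) / 3 + H * (x * (Real.log x) ^ (-A)) / 3 + H * (x * (Real.log x) ^ (-A)) / 3 :=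
        (norm_add_le _ _).trans (add_le_add ((norm_add_le _ _).trans (add_le_add p1 p2)) p3)
    _ = H * (x * (Real.log x) ^ (-A)) := by ring

end Pool.Agent.Lib.TR
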