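import Pool.Agent.Lib.TR.SpecK

/-!
MP_00e23e_nt, directory Lib/TR, chapter K, module Klg: long averages.
-/

set_option autoImplicit false

namespace Pool.Agent.Lib.TR

open Finset Pool.Agent.Lib.EH3 Pool.Agent.Results.MP_00e23e_nt

private noncomputable def Klg_c (q : ℕ) (j : ℤ) : ℂ := Pool.Agent.Lib.UI.redc q (fun t => ee ((j : ℝ) * t))

private lemma Klg_norm (q : ℕ) (j : ℤ) : ‖Klg_c q j‖ ≤ (q : ℝ) := by
  unfold Klg_c Pool.Agent.Lib.UI.redc
  refine (norm_sum_le _ _).trans ?_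
  have h1 : ∑ r ∈ (range q).filter (fun r => r.Coprime q), ‖ee ((j : ℝ) * ((r : ℝ) / (q : ℝ)))‖ =
      (((range q).filter (fun r => r.Coprime q)).card : ℝ) := by
    rw [Finset.sum_congr rfl fun r _ => norm_ee _, Finset.sum_const, nsmul_eq_mul, mul_one]
  rw [h1]
  have h2 : ((range q).filter (fun r => r.Coprime q)).card ≤ q := by
    refine (Finset.card_filter_le _ _).trans ?_
    rw [card_range]
  exact_mod_cast h2

private lemma Klg_shift (q r : ℕ) (hq : 1 ≤ q) (c d : ℤ) :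
    ee (((c + (q : ℤ) * d : ℤ) : ℝ) * ((r : ℝ) / (q : ℝ))) = ee ((c : ℝ) * ((r : ℝ) / (q : ℝ))) := by
  have hq0 : (q : ℝ) ≠ 0 := by
    have : (1 : ℝ) ≤ q := by exact_mod_cast hq
    linarith
  have h2 : ((c + (q : ℤ) * d : ℤ) : ℝ) * ((r : ℝ) / (q : ℝ)) =
      (c : ℝ) * ((r : ℝ) / (q : ℝ)) + ((d * (r : ℤ) : ℤ) : ℝ) := by
    push_cast
    field_simp
  rw [h2, ee_add, ee_int, mul_one]

private lemma Klg_mod (q : ℕ) (hq : 1 ≤ q) (j : ℕ) : Klg_c q (j : ℤ) = Klg_c q ((j % q : ℕ) : ℤ) := by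
  have h1 : (j : ℤ) = ((j % q : ℕ) : ℤ) + (q : ℤ) * ((j / q : ℕ) : ℤ) := by
    have := Nat.mod_add_div j q
    exact_mod_cast this.symm
  generalize ((j % q : ℕ) : ℤ) = c at h1 ⊢
  generalize ((j / q : ℕ) : ℤ) = d at h1
  rw [h1]
  unfold Klg_c Pool.Agent.Lib.UI.redc
  exact Finset.sum_congr rfl fun r _ => Klg_shift q r hq c d

private lemma Klg_inner (f : ℤ → ℂ) (q h b : ℕ) (n : ℤ) (hb : b < q) :
    ∑ j ∈ (range h).filter (fun j => j % q = b), f (n + j) =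
      ∑ m ∈ (Ico n (n + h)).filter (fun m => (q : ℤ) ∣ m - (n + b)), f m := by
  refine Finset.sum_bij' (fun j _ => n + (j : ℤ)) (fun m _ => (m - n).toNat) ?_ ?_ ?_ ?_ ?_
  · intro j hj
    rw [mem_filter, mem_range] at hj
    rw [mem_filter, mem_Ico]
    refine ⟨⟨by omega, by omega⟩, ?_⟩
    have h1 : ((j : ℤ)) = ((j % q : ℕ) : ℤ) + (q : ℤ) * ((j / q : ℕ) : ℤ) := by
      have := Nat.mod_add_div j q
      exact_mod_cast this.symm
    refine ⟨((j / q : ℕ) : ℤ), ?_⟩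
    rw [hj.2] at h1
    linarith
  · intro m hm
    rw [mem_filter, mem_Ico] at hm
    rw [mem_filter, mem_range]
    refine ⟨by omega, ?_⟩
    obtain ⟨c, hc⟩ := hm.2
    have h2 : ((m - n).toNat : ℤ) = m - n := Int.toNat_of_nonneg (by omega)
    have h3 : (((m - n).toNat % q : ℕ) : ℤ) = (b : ℤ) := by
      rw [Int.natCast_mod, h2]
      have h4 : m - n = (b : ℤ) + (q : ℤ) * c := by linarith
      rw [h4, Int.add_mul_emod_self_left]
      exact Int.emod_eq_of_lt (by omega) (by omega)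
    exact_mod_cast h3
  · intro j hj
    simp
  · intro m hm
    rw [mem_filter, mem_Ico] at hm
    have h2 : ((m - n).toNat : ℤ) = m - n := Int.toNat_of_nonneg (by omega)
    change n + ((m - n).toNat : ℤ) = m
    rw [h2]
    ring
  · intro j hj
    rfl

private lemma Klg_one (f : ℤ → ℂ) (q h : ℕ) (n : ℤ) (hq : 1 ≤ q) (T : ℝ)
    (hT : ∀ b u v : ℤ, ‖∑ n ∈ (Ico u v).filter (fun n => (q : ℤ) ∣ n - b), f n‖ ≤ T) :
    ‖∑ j ∈ range h, Klg_c q (j : ℤ) * f (n + j)‖ ≤ (q : ℝ) * ((q : ℝ) * T) := by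
  have h1 : ∑ j ∈ range h, Klg_c q (j : ℤ) * f (n + j) =
      ∑ b ∈ range q, Klg_c q (b : ℤ) * ∑ j ∈ (range h).filter (fun j => j % q = b), f (n + j) := by
    rw [← Finset.sum_fiberwise_of_maps_to (s := range h) (t := range q) (g := fun j => j % q)
      (fun j _ => mem_range.mpr (Nat.mod_lt _ hq))]
    refine Finset.sum_congr rfl fun b _ => ?_
    rw [Finset.mul_sum]
    refine Finset.sum_congr rfl fun j hj => ?_
    rw [mem_filter] at hj
    rw [Klg_mod q hq j, hj.2]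
  rw [h1]
  refine (norm_sum_le _ _).trans ?_
  have h2 : ∀ b ∈ range q, ‖Klg_c q (b : ℤ) * ∑ j ∈ (range h).filter (fun j => j % q = b), f (n + j)‖ ≤
      (q : ℝ) * T := by
    intro b hb
    rw [norm_mul, Klg_inner f q h b n (mem_range.mp hb)]
    exact mul_le_mul (Klg_norm q b) (hT _ _ _) (norm_nonneg _) (by positivity)
  refine (Finset.sum_le_sum h2).trans ?_
  rw [Finset.sum_const, card_range, nsmul_eq_mul]

theorem tKlg : KlgStmt := by
  intro f Q h T hh hT0 hT n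
  have hh0 : (0 : ℝ) < h := by exact_mod_cast hh
  unfold Ch
  rw [norm_mul]
  have h1 : ∑ j ∈ range h, Rq Q (j : ℤ) * f (n + j) =
      ∑ q ∈ Icc 1 Q, ∑ j ∈ range h, Klg_c q (j : ℤ) * f (n + j) := by
    rw [Finset.sum_comm]
    refine Finset.sum_congr rfl fun j _ => ?_
    rw [← Finset.sum_mul]
    rfl
  have h2 : ‖∑ q ∈ Icc 1 Q, ∑ j ∈ range h, Klg_c q (j : ℤ) * f (n + j)‖ ≤ (Q : ℝ) ^ 3 * T := by
    refine (norm_sum_le _ _).trans ?_
    have h3 : ∀ q ∈ Icc 1 Q, ‖∑ j ∈ range h, Klg_c q (j : ℤ) * f (n + j)‖ ≤ (Q : ℝ) * ((Q : ℝ) * T) := by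
      intro q hq
      rw [mem_Icc] at hq
      refine (Klg_one f q h n hq.1 T (fun b u v => hT q b u v hq.1 hq.2)).trans ?_
      have h4 : (q : ℝ) ≤ Q := by exact_mod_cast hq.2
      have h5 : (0 : ℝ) ≤ q := by positivity
      exact mul_le_mul h4 (mul_le_mul_of_nonneg_right h4 hT0) (by positivity) (by positivity)
    refine (Finset.sum_le_sum h3).trans ?_
    rw [Finset.sum_const, Nat.card_Icc, nsmul_eq_mul, Nat.add_sub_cancel]
    exact le_of_eq (by ring)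
  rw [h1]
  have h6 : ‖(1 / (h : ℂ))‖ = 1 / (h : ℝ) := by
    rw [norm_div, norm_one, Complex.norm_natCast]
  rw [h6, div_mul_eq_mul_div, one_mul]
  exact div_le_div_of_nonneg_right h2 hh0.le

end Pool.Agent.Lib.TR
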