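import Pool.Agent.Lib.TR.SpecK

/-!
MP_00e23e_nt, directory Lib/TR, module Kma: the first part (minor arcs) of the key estimate.
-/

set_option autoImplicit false

namespace Pool.Agent.Lib.TR

open Finset Pool.Agent.Lib.EH3 Pool.Agent.Results.MP_00e23e_nt

/-- The support of f - Ch Q h f. -/
private lemma Kma_van {f : ℤ → ℂ} {K : ℕ} (Q h : ℕ) (hf : ∀ n : ℤ, (K : ℤ) < |n| → f n = 0) (n : ℤ)
    (hn : ((K + h : ℕ) : ℤ) < |n|) : f n - Ch Q h f n = 0 := by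
  push_cast at hn
  have h0 : f n = 0 := hf n (by
    have : (0 : ℤ) ≤ h := by positivity
    linarith)
  have h1 : Ch Q h f n = 0 := by
    unfold Ch
    rw [sum_eq_zero, mul_zero]
    intro j hj
    have hj' : (j : ℤ) < h := by exact_mod_cast mem_range.1 hj
    have h2 : |n| ≤ |n + j| + |(j : ℤ)| := by
      calc |n| = |(n + j) - j| := by rw [add_sub_cancel_right]
        _ ≤ _ := abs_sub _ _
    rw [Nat.abs_cast] at h2
    rw [hf (n + j) (by linarith), mul_zero]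
  rw [h0, h1, sub_zero]

private lemma Kma_sq_nonneg (K : ℕ) (F : ℤ → ℂ) : 0 ≤ sq K F := by
  unfold sq
  exact sum_nonneg fun _ _ => by positivity

/-- The numbers of the first part. -/
private lemma Kma_num {H R P L X Y s S0 : ℝ} (hH : 0 ≤ H) (hR : 0 ≤ R) (hL : 0 ≤ L) (hs : 0 ≤ s)
    (hS0 : 0 ≤ S0) (hX : X ≤ 3 ^ 2 * s) (hY : Y ≤ S0 * s) :
    2 * H * R * (Real.sqrt X * Real.sqrt Y) + 10 * P ^ 2 * L * X ≤
      (6 * H * R * Real.sqrt S0 + 90 * P ^ 2 * L) * s := by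
  have h1 : Real.sqrt X ≤ 3 * Real.sqrt s := by
    calc Real.sqrt X ≤ Real.sqrt (3 ^ 2 * s) := Real.sqrt_le_sqrt hX
      _ = 3 * Real.sqrt s := by
        rw [Real.sqrt_mul (by norm_num), Real.sqrt_sq (by norm_num)]
  have h2 : Real.sqrt Y ≤ Real.sqrt S0 * Real.sqrt s := by
    calc Real.sqrt Y ≤ Real.sqrt (S0 * s) := Real.sqrt_le_sqrt hY
      _ = _ := Real.sqrt_mul hS0 s
  have h3 : Real.sqrt X * Real.sqrt Y ≤ 3 * Real.sqrt S0 * s := by
    calc Real.sqrt X * Real.sqrt Y ≤ (3 * Real.sqrt s) * (Real.sqrt S0 * Real.sqrt s) :=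
          mul_le_mul h1 h2 (Real.sqrt_nonneg _) (by positivity)
      _ = 3 * Real.sqrt S0 * (Real.sqrt s * Real.sqrt s) := by ring
      _ = 3 * Real.sqrt S0 * s := by rw [Real.mul_self_sqrt hs]
  have h4 : 2 * H * R * (Real.sqrt X * Real.sqrt Y) ≤ 2 * H * R * (3 * Real.sqrt S0 * s) :=
    mul_le_mul_of_nonneg_left h3 (by positivity)
  have h5 : 10 * P ^ 2 * L * X ≤ 10 * P ^ 2 * L * (3 ^ 2 * s) :=
    mul_le_mul_of_nonneg_left hX (by positivity)
  calc _ ≤ 2 * H * R * (3 * Real.sqrt S0 * s) + 10 * P ^ 2 * L * (3 ^ 2 * s) := add_le_add h4 h5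
    _ = _ := by ring

theorem tKma (h1 : KcaStmt) (h2 : McsStmt) (h3 : MfoStmt) (h4 : MmmStmt) : KmaStmt := by
  intro A0 H D P V K Q h L0 S c w f S0 hD hP hV hPH hL0 hQ hQh hS0 hS hc hw hf hsup
  have hh : 1 ≤ h := by
    have : 1 ≤ Q ^ 4 := Nat.one_le_pow _ _ hQ
    omega
  have hF : ∀ n : ℤ, ((K + h : ℕ) : ℤ) < |n| → f n - Ch Q h f n = 0 := fun n hn => Kma_van Q h hf n hn
  have hs0 : 0 ≤ sq K f := Kma_sq_nonneg K f
  have e1 := h1 A0 H D P V S c w (fun n => f n - Ch Q h f n) hD hP hV hS hc hw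
  have e2 := h2 (fun n => f n - Ch Q h f n) (K + h) (4 * (D * V)) H P L0 S A0 hP hPH hL0 hS hF
  have e3 := (h3 f K (K + h) Q h L0 P S0 3 hh hL0 hS0 (by norm_num) hf).2
    (fun α => h4.2 Q h α hQ hQh)
  have e4 := (h3 f K (K + h + P * L0) Q h L0 P S0 3 hh hL0 hS0 (by norm_num) hf).1 hsup
  have e5 := Kma_num (H := (H : ℝ)) (R := Real.sqrt P) (P := (P : ℝ)) (L := (L0 : ℝ)) (by positivity)
    (Real.sqrt_nonneg _) (by positivity) hs0 hS0 e3 e4
  refine e1.trans (mul_le_mul_of_nonneg_left (e2.trans e5) ?_)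
  have h6 : (0 : ℝ) ≤ (1 + Real.log (4 * ((D : ℝ) * V))) ^ 16 := by positivity
  positivity

end Pool.Agent.Lib.TR
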