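import Pool.Agent.Lib.TR.SpecK

/-!
MP_00e23e_nt, directory Lib/TR, module Kmb (the second part).
-/

set_option autoImplicit false

namespace Pool.Agent.Lib.TR

open Finset Pool.Agent.Lib.EH3 Pool.Agent.Results.MP_00e23e_nt

private theorem Kmb_sum (D V X : ℕ) (S : Finset ℕ) (c w : ℕ → ℂ) (G : ℤ → ℂ)
    (hX : ∀ d ∈ Ioc D (2 * D), ∀ p ∈ S, ∀ v ∈ Ico V (2 * V), 1 ≤ d * p * v ∧ d * p * v ≤ X) :
    ∑ m ∈ Icc (1 : ℤ) X, gg D V S c w m * G m =
      ∑ d ∈ Ioc D (2 * D), ∑ p ∈ S, ∑ v ∈ Ico V (2 * V), c d * w v * G ((d * p * v : ℕ) : ℤ) := by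
  have h1 : ∀ m ∈ Icc (1 : ℤ) X, gg D V S c w m * G m =
      ∑ d ∈ Ioc D (2 * D), ∑ p ∈ S, ∑ v ∈ Ico V (2 * V),
        (if ((d * p * v : ℕ) : ℤ) = m then c d * w v * G m else 0) := by
    intro m _
    unfold gg
    rw [Finset.sum_mul]
    refine Finset.sum_congr rfl fun d _ => ?_
    rw [Finset.sum_mul]
    refine Finset.sum_congr rfl fun p _ => ?_
    rw [Finset.sum_mul]
    refine Finset.sum_congr rfl fun v _ => ?_
    rw [ite_mul, zero_mul]
  rw [Finset.sum_congr rfl h1, Finset.sum_comm]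
  refine Finset.sum_congr rfl fun d hd => ?_
  rw [Finset.sum_comm]
  refine Finset.sum_congr rfl fun p hp => ?_
  rw [Finset.sum_comm]
  refine Finset.sum_congr rfl fun v hv => ?_
  rw [Finset.sum_ite_eq]
  have h2 := hX d hd p hp v hv
  have h3 : ((d * p * v : ℕ) : ℤ) ∈ Icc (1 : ℤ) X := by
    rw [Finset.mem_Icc]
    constructor
    · exact_mod_cast h2.1
    · exact_mod_cast h2.2
  rw [if_pos h3]

private theorem Kmb_supp (D V X : ℕ) (S : Finset ℕ) (c w : ℕ → ℂ)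
    (hX : ∀ d ∈ Ioc D (2 * D), ∀ p ∈ S, ∀ v ∈ Ico V (2 * V), 1 ≤ d * p * v ∧ d * p * v ≤ X)
    (m : ℤ) (hm : m < 1 ∨ (X : ℤ) < m) : gg D V S c w m = 0 := by
  unfold gg
  refine Finset.sum_eq_zero fun d hd => Finset.sum_eq_zero fun p hp => Finset.sum_eq_zero fun v hv => ?_
  have h2 := hX d hd p hp v hv
  rw [if_neg]
  intro h
  have h3 : (1 : ℤ) ≤ ((d * p * v : ℕ) : ℤ) := by exact_mod_cast h2.1
  have h4 : ((d * p * v : ℕ) : ℤ) ≤ (X : ℤ) := by exact_mod_cast h2.2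
  rcases hm with h5 | h5 <;> omega

private theorem Kmb_red (q : ℕ) (F : ℝ → ℝ) (M : ℝ) (hM : 0 ≤ M)
    (hF : ∀ r < q, F ((r : ℝ) / (q : ℝ)) ≤ M) : Pool.Agent.Lib.UI.red q F ≤ q * M := by
  unfold Pool.Agent.Lib.UI.red
  have h1 : ∀ r ∈ (range q).filter (fun h => h.Coprime q), F ((r : ℝ) / (q : ℝ)) ≤ M := by
    intro r hr
    exact hF r (Finset.mem_range.1 (Finset.mem_filter.1 hr).1)
  refine (Finset.sum_le_card_nsmul _ _ _ h1).trans ?_
  rw [nsmul_eq_mul]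
  refine mul_le_mul_of_nonneg_right ?_ hM
  have h2 : ((range q).filter (fun h => h.Coprime q)).card ≤ q := by
    refine (Finset.card_filter_le _ _).trans ?_
    rw [Finset.card_range]
  exact_mod_cast h2

/-- Module Kmb: the second part. -/
theorem tKmb (h1 : KduStmt) (h2 : KclStmt) : KmbStmt := by
  intro A0 H D P V K Q h h0 S c w f B hD hP hV hh hh0 hB hS hf hvar
  have hX : ∀ d ∈ Ioc D (2 * D), ∀ p ∈ S, ∀ v ∈ Ico V (2 * V),
      1 ≤ d * p * v ∧ d * p * v ≤ 8 * D * P * V := by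
    intro d hd p hp v hv
    rw [Finset.mem_Ioc] at hd
    rw [Finset.mem_Ico] at hv
    obtain ⟨hp1, hp2⟩ := hS p hp
    constructor
    · have a1 : 0 < d := by omega
      have a2 : 0 < p := by omega
      have a3 : 0 < v := by omega
      exact Nat.mul_pos (Nat.mul_pos a1 a2) a3
    · have a1 : d * p * v ≤ (2 * D) * (2 * P) * (2 * V) :=
        Nat.mul_le_mul (Nat.mul_le_mul hd.2 hp2) (by omega)
      have a2 : (2 * D) * (2 * P) * (2 * V) = 8 * D * P * V := by ring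
      omega
  have hsq : 0 ≤ Real.sqrt (sq K f) := Real.sqrt_nonneg _
  have hone : ∀ a : ℤ, ‖∑ d ∈ Ioc D (2 * D), ∑ p ∈ S, ∑ v ∈ Ico V (2 * V),
      c a d * w v * (Ch Q h f (a + d * p * v) - Ch Q h0 f (a + d * p * v))‖ ≤
      Real.sqrt (sq K f) * ((Q : ℝ) ^ 5 * Real.sqrt B) := by
    intro a
    have e1 := Kmb_sum D V (8 * D * P * V) S (c a) w
      (fun m => Ch Q h f (a + m) - Ch Q h0 f (a + m)) hX
    have e2 : ∑ d ∈ Ioc D (2 * D), ∑ p ∈ S, ∑ v ∈ Ico V (2 * V),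
        c a d * w v * (Ch Q h f (a + d * p * v) - Ch Q h0 f (a + d * p * v)) =
        ∑ m ∈ Icc (1 : ℤ) ((8 * D * P * V : ℕ) : ℤ), gg D V S (c a) w m *
          (Ch Q h f (a + m) - Ch Q h0 f (a + m)) := by
      rw [e1]
      refine Finset.sum_congr rfl fun d _ => Finset.sum_congr rfl fun p _ =>
        Finset.sum_congr rfl fun v _ => ?_
      have e3 : ((d * p * v : ℕ) : ℤ) = (d : ℤ) * p * v := by push_cast; ring
      rw [e3]
    rw [e2]
    refine (h1 f (gg D V S (c a) w) K (8 * D * P * V) Q h h0 a hh hh0 hf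
      (Kmb_supp D V (8 * D * P * V) S (c a) w hX)).trans ?_
    refine mul_le_mul_of_nonneg_left ?_ hsq
    have h3 : ∀ q ∈ Icc 1 Q, Pool.Agent.Lib.UI.red q (fun t =>
        Real.sqrt (∑ n ∈ Icc (1 : ℤ) ((8 * D * P * V + h + h0 : ℕ) : ℤ),
          ‖kg h h0 (fun m => gg D V S (c a) w m * ee (-((m : ℝ) * t))) n‖ ^ 2)) ≤
        (Q : ℝ) ^ 4 * Real.sqrt B := by
      intro q hq
      rw [Finset.mem_Icc] at hq
      have hqQ : (q : ℝ) ≤ Q := by exact_mod_cast hq.2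
      have hq0 : (0 : ℝ) ≤ q := Nat.cast_nonneg _
      have h4 := Kmb_red q (fun t =>
        Real.sqrt (∑ n ∈ Icc (1 : ℤ) ((8 * D * P * V + h + h0 : ℕ) : ℤ),
          ‖kg h h0 (fun m => gg D V S (c a) w m * ee (-((m : ℝ) * t))) n‖ ^ 2))
        ((q : ℝ) ^ 3 * Real.sqrt B) (by positivity) (by
          intro r hr
          have h5 := h2 D V h h0 q (8 * D * P * V + h + h0) r S (c a) w B hq.1 hB (by
            intro κ1 κ2 κ3 hk1 hk2 hk3
            exact hvar a q κ1 κ2 κ3 _ hq.1 hq.2 hk1 hk2 hk3)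
          have h6 : Real.sqrt ((q : ℝ) ^ 6 * B) = (q : ℝ) ^ 3 * Real.sqrt B := by
            rw [Real.sqrt_mul (by positivity)]
            congr 1
            rw [show (q : ℝ) ^ 6 = ((q : ℝ) ^ 3) ^ 2 by ring]
            exact Real.sqrt_sq (by positivity)
          rw [← h6]
          exact Real.sqrt_le_sqrt h5)
      refine h4.trans ?_
      have h7 : (q : ℝ) ^ 4 ≤ (Q : ℝ) ^ 4 := pow_le_pow_left₀ hq0 hqQ 4
      have h8 : (q : ℝ) ^ 4 * Real.sqrt B ≤ (Q : ℝ) ^ 4 * Real.sqrt B :=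
        mul_le_mul_of_nonneg_right h7 (Real.sqrt_nonneg _)
      have h9 : (q : ℝ) * ((q : ℝ) ^ 3 * Real.sqrt B) = (q : ℝ) ^ 4 * Real.sqrt B := by ring
      rw [h9]
      exact h8
    refine (Finset.sum_le_card_nsmul _ _ _ h3).trans (le_of_eq ?_)
    rw [Nat.card_Icc, nsmul_eq_mul, Nat.add_sub_cancel]
    ring
  unfold KS
  refine (norm_sum_le _ _).trans ?_
  refine (Finset.sum_le_card_nsmul _ _ _ (fun a _ => hone a)).trans (le_of_eq ?_)
  rw [Int.card_Ico, nsmul_eq_mul]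
  have e4 : (A0 + (H : ℤ) - A0).toNat = H := by
    rw [show A0 + (H : ℤ) - A0 = (H : ℤ) by ring]
    exact Int.toNat_natCast H
  rw [e4]

end Pool.Agent.Lib.TR
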