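import Pool.Agent.Lib.TR.SpecK
import Pool.Agent.Lib.CO.Tau

/-!
MP_00e23e_nt, directory Lib/TR, chapter K, module Kmc: trivial bound of KS.
-/

set_option autoImplicit false

namespace Pool.Agent.Lib.TR

open Finset Pool.Agent.Lib.EH3 Pool.Agent.Results.MP_00e23e_nt

private theorem Kmc_const {ι : Type} (s : Finset ι) (f : ι → ℂ) (B : ℝ) (h : ∀ i ∈ s, ‖f i‖ ≤ B) :
    ‖∑ i ∈ s, f i‖ ≤ (s.card : ℝ) * B := by
  refine (norm_sum_le _ _).trans ?_
  refine (Finset.sum_le_sum h).trans ?_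
  rw [Finset.sum_const, nsmul_eq_mul]

theorem tKmc (h1 : Pool.Agent.Lib.CO.TauStmt) : KmcStmt := by
  intro A0 H D P V S c w F M hD hP hV hM hS hc hw hF
  have hT := h1 1 (2 * V) (by omega)
  have hW0 : 0 ≤ ∑ v ∈ Ico V (2 * V), (v.divisors.card : ℝ) :=
    Finset.sum_nonneg fun _ _ => Nat.cast_nonneg _
  have hW : ∑ v ∈ Ico V (2 * V), (v.divisors.card : ℝ) ≤ 2 * (V : ℝ) * (1 + Real.log (2 * V)) ^ 2 := by
    have h2 : Ico V (2 * V) ⊆ Icc 1 (2 * V) := by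
      intro v hv
      rw [mem_Ico] at hv
      exact mem_Icc.2 ⟨by omega, by omega⟩
    have h3 : ∑ v ∈ Ico V (2 * V), (v.divisors.card : ℝ) ≤ ∑ v ∈ Icc 1 (2 * V), (v.divisors.card : ℝ) ^ 1 := by
      refine (Finset.sum_le_sum_of_subset_of_nonneg h2 fun _ _ _ => Nat.cast_nonneg _).trans ?_
      exact Finset.sum_le_sum fun v _ => by rw [pow_one]
    refine (h3.trans hT).trans (le_of_eq ?_)
    push_cast
    norm_num
  have hcard : (S.card : ℝ) ≤ P := by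
    have h2 : S ⊆ Ioc P (2 * P) := fun p hp => mem_Ioc.2 (hS p hp)
    have h3 := Finset.card_le_card h2
    rw [Nat.card_Ioc] at h3
    have h4 : S.card ≤ P := by omega
    exact_mod_cast h4
  have hv : ∀ (a : ℤ) (d p : ℕ), ‖∑ v ∈ Ico V (2 * V), c a d * w v * F (a + d * p * v)‖ ≤
      (∑ v ∈ Ico V (2 * V), (v.divisors.card : ℝ)) * M := by
    intro a d p
    rw [Finset.sum_mul]
    refine (norm_sum_le _ _).trans (Finset.sum_le_sum fun v hv => ?_)
    rw [mem_Ico] at hv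
    rw [norm_mul, norm_mul]
    have h2 : ‖c a d‖ * ‖w v‖ ≤ (v.divisors.card : ℝ) := by
      calc ‖c a d‖ * ‖w v‖ ≤ 1 * (v.divisors.card : ℝ) :=
            mul_le_mul (hc a d) (hw v (by omega)) (norm_nonneg _) zero_le_one
        _ = _ := one_mul _
    exact mul_le_mul h2 (hF _) (norm_nonneg _) (Nat.cast_nonneg _)
  unfold KS
  have ha : ∀ a ∈ Ico A0 (A0 + H), ‖∑ d ∈ Ioc D (2 * D), ∑ p ∈ S, ∑ v ∈ Ico V (2 * V),
      c a d * w v * F (a + d * p * v)‖ ≤ 2 * ((D : ℝ) * P * V) * (1 + Real.log (2 * V)) ^ 2 * M := by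
    intro a _
    have hd : ∀ d ∈ Ioc D (2 * D), ‖∑ p ∈ S, ∑ v ∈ Ico V (2 * V), c a d * w v * F (a + d * p * v)‖ ≤
        (P : ℝ) * ((2 * (V : ℝ) * (1 + Real.log (2 * V)) ^ 2) * M) := by
      intro d _
      refine (Kmc_const S _ _ fun p _ => hv a d p).trans ?_
      refine mul_le_mul hcard (mul_le_mul_of_nonneg_right hW hM) (mul_nonneg hW0 hM) (Nat.cast_nonneg _)
    refine (Kmc_const _ _ _ hd).trans (le_of_eq ?_)
    rw [Nat.card_Ioc]
    have h2 : 2 * D - D = D := by omega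
    rw [h2]
    ring
  refine (Kmc_const _ _ _ ha).trans (le_of_eq ?_)
  rw [Int.card_Ico]
  have h2 : (A0 + (H : ℤ) - A0).toNat = H := by
    have h3 : A0 + (H : ℤ) - A0 = H := by ring
    rw [h3, Int.toNat_natCast]
  rw [h2]

end Pool.Agent.Lib.TR
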