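import Pool.Agent.Lib.TR.SpecK

/-!
MP_00e23e_nt, directory Lib/TR, module Kna: side conditions and the supremum.
-/

set_option autoImplicit false

namespace Pool.Agent.Lib.TR

open Finset Pool.Agent.Lib.EH3 Pool.Agent.Results.MP_00e23e_nt

/-- the inequalities in terms of `b = L ^ kb A`, `c = L ^ kc A`, `l = L ^ B` -/
private theorem Kna_core (L b c l P Q H h L0 : ℝ) (hL : 10 ^ 6 ≤ L) (hb : 1 ≤ b) (hc : 1 ≤ c)
    (hl : 1 ≤ l) (hP : b ^ 2 * L ^ 2 ≤ P) (hH : P * (c * b ^ 8 * L ^ 12 * l) ≤ H) (hQ0 : 1 ≤ Q)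
    (hQ1 : Q ≤ b) (hQ2 : b ≤ 2 * Q) (hh1 : H * (c * b ^ 2 * L ^ 2)⁻¹ ≤ h)
    (hh2 : h ≤ 2 * (H * (c * b ^ 2 * L ^ 2)⁻¹)) (hL0 : H / (P * c) ≤ 2 * L0) :
    4 * Q ^ 4 ≤ h ∧ 0 < c * b / H ∧ c * b / H ≤ 1 / (2 * Q ^ 2) ∧ P ≤ H ∧ P * l ≤ h ∧ h ≤ H ∧
    3000 * (P / Q + P / L0 + 1 + P * (Q / L0) ^ 2 + 1 / (L0 * (c * b / H))) +
      2 * P * (7 * h * (c * b / H) + Q ^ 4 / h) ^ 2 ≤ P * (L ^ 3 / b) := by
  have hL1 : 1 ≤ L := by linarith
  have hb0 : 0 < b := by linarith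
  have hc0 : 0 < c := by linarith
  have hL00 : 0 < L := by linarith
  have hbL : 1 ≤ b ^ 2 * L ^ 2 := by
    have h1 : 1 ≤ b ^ 2 := one_le_pow₀ hb
    have h2 : 1 ≤ L ^ 2 := one_le_pow₀ hL1
    exact one_le_mul_of_one_le_of_one_le h1 h2
  have hP1 : 1 ≤ P := hbL.trans hP
  have hP0 : 0 < P := by linarith
  have hX : 1 ≤ c * b ^ 8 * L ^ 12 * l := by
    have h1 : 1 ≤ b ^ 8 := one_le_pow₀ hb
    have h2 : 1 ≤ L ^ 12 := one_le_pow₀ hL1
    exact one_le_mul_of_one_le_of_one_le (one_le_mul_of_one_le_of_one_le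
      (one_le_mul_of_one_le_of_one_le hc h1) h2) hl
  have hPH : P ≤ H := le_trans (le_mul_of_one_le_right hP0.le hX) hH
  have hH0 : 0 < H := by linarith
  have hD0 : 0 < c * b ^ 2 * L ^ 2 := by positivity
  -- lower bound of `h`
  have hlow : P * (b ^ 6 * L ^ 10 * l) ≤ h := by
    refine le_trans ?_ hh1
    rw [← div_eq_mul_inv, le_div_iff₀ hD0]
    calc P * (b ^ 6 * L ^ 10 * l) * (c * b ^ 2 * L ^ 2) = P * (c * b ^ 8 * L ^ 12 * l) := by ring
      _ ≤ H := hH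
  have h6 : 1 ≤ L ^ 10 := one_le_pow₀ hL1
  have hb4 : b ^ 4 ≤ b ^ 6 := pow_le_pow_right₀ hb (by norm_num)
  have hLten : 4 ≤ L ^ 10 := by
    have h1 : L ≤ L ^ 10 := le_self_pow₀ hL1 (by norm_num)
    linarith
  have hl0 : 0 < l := by linarith
  have hQ4 : Q ^ 4 ≤ b ^ 4 := pow_le_pow_left₀ (by linarith) hQ1 4
  have e1 : b ^ 6 * 4 ≤ P * (b ^ 6 * L ^ 10 * l) := by
    calc b ^ 6 * 4 = 1 * (b ^ 6 * 4 * 1) := by ring
      _ ≤ P * (b ^ 6 * L ^ 10 * l) := by gcongr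
  have hh4 : b ^ 6 * 4 ≤ h := e1.trans hlow
  have hh0 : 0 < h := lt_of_lt_of_le (by positivity) hh4
  have c1 : 4 * Q ^ 4 ≤ h := by linarith
  -- `δ`
  have hd0 : 0 < c * b / H := by positivity
  have c3 : c * b / H ≤ 1 / (2 * Q ^ 2) := by
    rw [div_le_div_iff₀ hH0 (by positivity)]
    have h1 : 2 * Q ^ 2 ≤ 2 * b ^ 2 := by gcongr
    have h2 : 2 * b ^ 3 ≤ b ^ 8 * L ^ 12 * l := by
      have h3 : b ^ 3 ≤ b ^ 8 := pow_le_pow_right₀ hb (by norm_num)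
      have h4 : L ≤ L ^ 12 := le_self_pow₀ hL1 (by norm_num)
      calc 2 * b ^ 3 = b ^ 3 * 2 * 1 := by ring
        _ ≤ b ^ 8 * L ^ 12 * l := by
          gcongr
          linarith
    calc c * b * (2 * Q ^ 2) ≤ c * b * (2 * b ^ 2) := by gcongr
      _ = 1 * (c * (2 * b ^ 3)) := by ring
      _ ≤ P * (c * (b ^ 8 * L ^ 12 * l)) := by gcongr
      _ = P * (c * b ^ 8 * L ^ 12 * l) := by ring
      _ ≤ H := hH
      _ = 1 * H := by ring
  have c5 : P * l ≤ h := by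
    refine le_trans ?_ hlow
    have h1 : 1 ≤ b ^ 6 * L ^ 10 := by
      have h1 : 1 ≤ b ^ 6 := one_le_pow₀ hb
      exact one_le_mul_of_one_le_of_one_le h1 h6
    calc P * l = P * (1 * l) := by ring
      _ ≤ P * (b ^ 6 * L ^ 10 * l) := by gcongr
  have hDbig : 2 ≤ c * b ^ 2 * L ^ 2 := by
    have h1 : 1 ≤ b ^ 2 := one_le_pow₀ hb
    have h2 : L ≤ L ^ 2 := le_self_pow₀ hL1 (by norm_num)
    calc (2 : ℝ) = 1 * 1 * 2 := by ring
      _ ≤ c * b ^ 2 * L ^ 2 := by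
        gcongr
        linarith
  have c6 : h ≤ H := by
    refine hh2.trans ?_
    rw [← div_eq_mul_inv, mul_div_assoc', div_le_iff₀ hD0]
    nlinarith
  refine ⟨c1, hd0, c3, hPH, c5, c6, ?_⟩
  -- lower bound of `L0`
  have hPc : 0 < P * c := by positivity
  have hL0low : b ^ 2 ≤ L0 := by
    have h1 : b ^ 8 * L ^ 12 * l ≤ H / (P * c) := by
      rw [le_div_iff₀ hPc]
      calc b ^ 8 * L ^ 12 * l * (P * c) = P * (c * b ^ 8 * L ^ 12 * l) := by ring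
        _ ≤ H := hH
    have h2 : b ^ 2 * 2 ≤ b ^ 8 * L ^ 12 * l := by
      have h3 : b ^ 2 ≤ b ^ 8 := pow_le_pow_right₀ hb (by norm_num)
      have h4 : L ≤ L ^ 12 := le_self_pow₀ hL1 (by norm_num)
      calc b ^ 2 * 2 = b ^ 2 * 2 * 1 := by ring
        _ ≤ b ^ 8 * L ^ 12 * l := by
          gcongr
          linarith
    linarith
  have hb2 : b ≤ b ^ 2 := le_self_pow₀ hb (by norm_num)
  have hL0b : b ≤ L0 := hb2.trans hL0low
  have hL00' : 0 < L0 := by linarith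
  have hPb : 0 < P / b := by positivity
  have t1 : P / Q ≤ 2 * (P / b) := by
    rw [div_le_iff₀ (by linarith), mul_div_assoc', div_mul_eq_mul_div, le_div_iff₀ hb0]
    nlinarith
  have t2 : P / L0 ≤ P / b := by gcongr
  have t3 : 1 ≤ P / b := by
    rw [one_le_div hb0]
    have h2 : 1 ≤ L ^ 2 := one_le_pow₀ hL1
    calc b ≤ b ^ 2 := hb2
      _ = b ^ 2 * 1 := by ring
      _ ≤ b ^ 2 * L ^ 2 := by gcongr
      _ ≤ P := hP
  have t4 : P * (Q / L0) ^ 2 ≤ P / b := by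
    have h1 : Q / L0 ≤ 1 / b := by
      rw [div_le_div_iff₀ hL00' hb0]
      nlinarith
    have h2 : 0 ≤ Q / L0 := by positivity
    have h3 : (Q / L0) ^ 2 ≤ (1 / b) ^ 2 := pow_le_pow_left₀ h2 h1 2
    have h4 : (1 / b) ^ 2 ≤ 1 / b := by
      have h5 : 1 / b ≤ 1 := by rw [div_le_one hb0]; exact hb
      have h6 : 0 ≤ 1 / b := by positivity
      nlinarith
    calc P * (Q / L0) ^ 2 ≤ P * (1 / b) := by
          gcongr
          exact h3.trans h4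
      _ = P / b := by ring
  have t5 : 1 / (L0 * (c * b / H)) ≤ 2 * (P / b) := by
    have h1 : 0 < L0 * (c * b / H) := by positivity
    rw [div_le_iff₀ h1]
    have h2 : H ≤ 2 * L0 * (P * c) := (div_le_iff₀ hPc).1 hL0
    have h3 : 2 * (P / b) * (L0 * (c * b / H)) = 2 * L0 * (P * c) / H := by
      field_simp
    rw [h3, le_div_iff₀ hH0]
    linarith
  have t6 : 7 * h * (c * b / H) + Q ^ 4 / h ≤ 15 * (1 / b) := by
    have h1 : h * (c * b / H) ≤ 2 * (1 / b) := by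
      calc h * (c * b / H) ≤ 2 * (H * (c * b ^ 2 * L ^ 2)⁻¹) * (c * b / H) := by gcongr
        _ = 2 * (1 / b) * (1 / L ^ 2) := by field_simp
        _ ≤ 2 * (1 / b) * 1 := by
          gcongr
          rw [div_le_one (by positivity)]
          exact one_le_pow₀ hL1
        _ = 2 * (1 / b) := by ring
    have h2 : Q ^ 4 / h ≤ 1 / b := by
      rw [div_le_div_iff₀ hh0 hb0]
      calc Q ^ 4 * b ≤ b ^ 4 * b := by gcongr
        _ = b ^ 5 := by ring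
        _ ≤ b ^ 6 := pow_le_pow_right₀ hb (by norm_num)
        _ ≤ b ^ 6 * 4 := by
          have : 0 < b ^ 6 := by positivity
          linarith
        _ ≤ h := hh4
        _ = 1 * h := by ring
    nlinarith
  have t7 : 2 * P * (7 * h * (c * b / H) + Q ^ 4 / h) ^ 2 ≤ 450 * (P / b) := by
    have h0 : 0 ≤ 7 * h * (c * b / H) + Q ^ 4 / h := by positivity
    have h1 : (7 * h * (c * b / H) + Q ^ 4 / h) ^ 2 ≤ (15 * (1 / b)) ^ 2 :=
      pow_le_pow_left₀ h0 t6 2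
    have h4 : (1 / b) ^ 2 ≤ 1 / b := by
      have h5 : 1 / b ≤ 1 := by rw [div_le_one hb0]; exact hb
      have h6 : 0 ≤ 1 / b := by positivity
      nlinarith
    calc 2 * P * (7 * h * (c * b / H) + Q ^ 4 / h) ^ 2 ≤ 2 * P * (225 * (1 / b)) := by
          gcongr
          nlinarith
      _ = 450 * (P / b) := by ring
  have t8 : 21450 * (P / b) ≤ P * (L ^ 3 / b) := by
    have h1 : L ≤ L ^ 3 := le_self_pow₀ hL1 (by norm_num)
    calc 21450 * (P / b) ≤ L ^ 3 * (P / b) := by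
          gcongr
          linarith
      _ = P * (L ^ 3 / b) := by ring
  linarith

theorem tKna : KnaStmt := by
  intro A B0 B b0 x D P V H Q h h0 L0 δ hp
  set L := Real.log x with hLdef
  have hL : 10 ^ 6 ≤ L := hp.pL
  have hL0 : 0 < L := by linarith
  have hL1 : 1 ≤ L := by linarith
  set b := L ^ (kb A) with hb
  set c := L ^ (kc A) with hc
  set l := L ^ B with hl
  have hA := hp.pA
  have hb1 : 1 ≤ b := Real.one_le_rpow hL1 (by unfold kb; linarith)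
  have hc1 : 1 ≤ c := Real.one_le_rpow hL1 (by unfold kc; linarith)
  have hl1 : 1 ≤ l := Real.one_le_rpow hL1 (by linarith [hp.pB])
  have hb0 : 0 < b := by linarith
  have ekh : L ^ (-(kh A)) = (c * b ^ 2 * L ^ 2)⁻¹ := by
    rw [Real.rpow_neg hL0.le]
    congr 1
    rw [hb, hc, ← Real.rpow_natCast (L ^ kb A) 2, ← Real.rpow_mul hL0.le,
      ← Real.rpow_natCast L 2, ← Real.rpow_add hL0, ← Real.rpow_add hL0]
    congr 1
    unfold kh kc kb
    push_cast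
    ring
  have ek1 : L ^ (k1 A B) = c * b ^ 8 * L ^ 12 * l := by
    rw [hb, hc, hl, ← Real.rpow_natCast (L ^ kb A) 8, ← Real.rpow_mul hL0.le,
      ← Real.rpow_natCast L 12, ← Real.rpow_add hL0, ← Real.rpow_add hL0, ← Real.rpow_add hL0]
    congr 1
    unfold k1 kc kb
    push_cast
    ring
  have e60 : L ^ (-(4 * A + 60)) = L ^ 3 / b := by
    rw [hb, ← Real.rpow_natCast L 3, ← Real.rpow_sub hL0]
    congr 1
    unfold kb
    push_cast
    ring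
  have eδ : δ = c * b / H := by
    rw [hp.pδ, ← hLdef, Real.rpow_add hL0]
  have hPP : b ^ 2 * L ^ 2 ≤ (P : ℝ) := by
    refine le_trans (le_of_eq ?_) ((Real.rpow_le_rpow_of_exponent_le hL1 hp.pB0).trans hp.pP0)
    rw [hb, ← Real.rpow_natCast (L ^ kb A) 2, ← Real.rpow_mul hL0.le,
      ← Real.rpow_natCast L 2, ← Real.rpow_add hL0]
    congr 1
    push_cast
    ring
  have hHH : (P : ℝ) * (c * b ^ 8 * L ^ 12 * l) ≤ H := by
    rw [← ek1]
    exact hp.pH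
  have hh1 : (H : ℝ) * (c * b ^ 2 * L ^ 2)⁻¹ ≤ h := by
    rw [← ekh]
    exact hp.ph1
  have hh2 : (h : ℝ) ≤ 2 * (H * (c * b ^ 2 * L ^ 2)⁻¹) := by
    rw [← ekh]
    exact hp.ph2
  obtain ⟨k1', k2, k3, k4, k5, k6, k7⟩ := Kna_core L b c l P Q H h L0 hL hb1 hc1 hl1 hPP hHH
    (by exact_mod_cast hp.pQ) hp.pQ1 hp.pQ2 hh1 hh2 hp.pl2
  rw [← eδ] at k2 k3 k7
  refine ⟨by exact_mod_cast k1', k2, k3, by exact_mod_cast k4, k5, k6.trans hp.pH1, ?_⟩
  rw [e60]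
  exact k7

end Pool.Agent.Lib.TR
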