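import Pool.Agent.Lib.TR.SpecK

set_option autoImplicit false

namespace Pool.Agent.Lib.TR

open Finset Pool.Agent.Lib.EH3 Pool.Agent.Results.MP_00e23e_nt

private theorem Knb_pow (L A : ℝ) (hL : 0 < L) :
    L ^ (-(2 * A + 30)) = (L ^ (-A)) ^ 2 * (L ^ (30 : ℕ))⁻¹ := by
  have h1 : -(2 * A + 30) = (-A) * (2 : ℕ) + (-((30 : ℕ) : ℝ)) := by push_cast; ring
  rw [h1, Real.rpow_add hL, Real.rpow_mul_natCast hL.le]
  congr 1
  rw [Real.rpow_neg hL.le, Real.rpow_natCast]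

private theorem Knb_pow2 (L A : ℝ) (hL : 0 < L) :
    L ^ (-(4 * A + 60)) = (L ^ (-(2 * A + 30))) ^ 2 := by
  have h1 : -(4 * A + 60) = (-(2 * A + 30)) * (2 : ℕ) := by push_cast; ring
  rw [h1, Real.rpow_mul_natCast hL.le]

private theorem Knb_log (x y : ℝ) (hx : 3 ≤ x) (hL : 10 ^ 6 ≤ Real.log x) (hy : 1 ≤ y) (hy2 : y ≤ 16 * x) :
    0 ≤ 1 + Real.log y ∧ 1 + Real.log y ≤ 2 * Real.log x := by
  constructor
  · have := Real.log_nonneg hy
    linarith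
  · have h1 : Real.log y ≤ Real.log (16 * x) := Real.log_le_log (by linarith) hy2
    have h2 : Real.log (16 * x) = Real.log 16 + Real.log x := Real.log_mul (by norm_num) (by linarith)
    have h3 : Real.log 16 ≤ 16 - 1 := Real.log_le_sub_one_of_pos (by norm_num)
    linarith

theorem tKnb : KnbStmt := by
  intro A B0 B b0 x D P V H Q h h0 L0 δ hp
  set L := Real.log x with hLdef
  have hL6 : (10 : ℝ) ^ 6 ≤ L := hp.pL
  have hL0 : 0 < L := by linarith [show (0 : ℝ) < 10 ^ 6 by norm_num]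
  have hL1 : 1 ≤ L := by linarith [show (1 : ℝ) ≤ 10 ^ 6 by norm_num]
  have hx : (3 : ℝ) ≤ x := hp.px
  have hx0 : 0 < x := by linarith
  have hD : (1 : ℝ) ≤ D := by exact_mod_cast hp.pD
  have hP : (1 : ℝ) ≤ P := by exact_mod_cast hp.pP
  have hV : (1 : ℝ) ≤ V := by exact_mod_cast hp.pV
  have hH : (0 : ℝ) ≤ H := Nat.cast_nonneg H
  have hDV1 : (1 : ℝ) ≤ (D : ℝ) * V := by nlinarith
  have hX : (D : ℝ) * P * V ≤ 4 * x := hp.pX
  have hDV : (D : ℝ) * V ≤ 4 * x := by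
    have : (D : ℝ) * V ≤ (D : ℝ) * P * V := by
      have h1 : (D : ℝ) * P * V = ((D : ℝ) * V) * P := by ring
      rw [h1]
      nlinarith
    linarith
  set E := L ^ (-(2 * A + 30)) with hE
  have hE0 : 0 < E := Real.rpow_pos_of_pos hL0 _
  set G := L ^ (-A) with hG
  have hG0 : 0 < G := Real.rpow_pos_of_pos hL0 _
  have hEG : E = G ^ 2 * (L ^ (30 : ℕ))⁻¹ := Knb_pow L A hL0
  have hE2 : L ^ (-(4 * A + 60)) = E ^ 2 := Knb_pow2 L A hL0
  -- the logarithm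
  obtain ⟨hl0, hl1⟩ := Knb_log x (4 * ((D : ℝ) * V)) hx hL6 (by linarith) (by linarith)
  have hl2 : (1 + Real.log (4 * ((D : ℝ) * V))) ^ 16 ≤ 65536 * L ^ 16 := by
    calc (1 + Real.log (4 * ((D : ℝ) * V))) ^ 16 ≤ (2 * L) ^ 16 := pow_le_pow_left₀ hl0 hl1 16
      _ = 65536 * L ^ 16 := by rw [mul_pow]; norm_num
  -- the square roots
  have hs : Real.sqrt P * Real.sqrt (P * L ^ (-(4 * A + 60))) = P * E := by
    rw [hE2, Real.sqrt_mul (by linarith : (0 : ℝ) ≤ P), Real.sqrt_sq hE0.le, ← mul_assoc,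
      Real.mul_self_sqrt (by linarith : (0 : ℝ) ≤ P)]
  -- L0
  have hk : L ^ (kc A) * E = 1 := by
    rw [hE, ← Real.rpow_add hL0]
    have : kc A + -(2 * A + 30) = 0 := by unfold kc; ring
    rw [this, Real.rpow_zero]
  have hkc : 0 < L ^ (kc A) := Real.rpow_pos_of_pos hL0 _
  have hl : (L0 : ℝ) ≤ H / (P * L ^ (kc A)) := hp.pl1
  have hLP : (P : ℝ) ^ 2 * L0 ≤ P * H * E := by
    have h1 : (L0 : ℝ) * (P * L ^ (kc A)) ≤ H := by
      rw [le_div_iff₀ (by positivity)] at hl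
      exact hl
    have h2 : (P : ℝ) ^ 2 * L0 = P * (L0 * (P * L ^ (kc A))) * E := by
      have : (P : ℝ) * (L0 * (P * L ^ (kc A))) * E = P ^ 2 * L0 * (L ^ (kc A) * E) := by ring
      rw [this, hk, mul_one]
    rw [h2]
    have h3 : (P : ℝ) * (L0 * (P * L ^ (kc A))) ≤ P * H := mul_le_mul_of_nonneg_left h1 (by linarith)
    exact mul_le_mul_of_nonneg_right h3 hE0.le
  have hbr : 6 * (H : ℝ) * Real.sqrt P * Real.sqrt (P * L ^ (-(4 * A + 60))) + 90 * (P : ℝ) ^ 2 * L0 ≤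
      96 * H * P * E := by
    have h1 : 6 * (H : ℝ) * Real.sqrt P * Real.sqrt (P * L ^ (-(4 * A + 60))) = 6 * H * (P * E) := by
      rw [← hs]; ring
    rw [h1]
    nlinarith [hLP]
  have hbr0 : 0 ≤ 96 * (H : ℝ) * P * E := by positivity
  -- final
  have hfin : 9 * (16 * 65536 * 288) * (L ^ 18 * E) ≤ G ^ 2 := by
    have h12 : (9 * (16 * 65536 * 288) : ℝ) ≤ L ^ 12 := by
      calc (9 * (16 * 65536 * 288) : ℝ) ≤ (10 ^ 6) ^ 12 := by norm_num
        _ ≤ L ^ 12 := pow_le_pow_left₀ (by norm_num) hL6 12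
    rw [hEG]
    have h30 : (L ^ (30 : ℕ)) = L ^ 12 * L ^ 18 := by ring
    have hpos : 0 < L ^ (30 : ℕ) := by positivity
    have h4 : 9 * (16 * 65536 * 288) * (L ^ 18 * (G ^ 2 * (L ^ (30 : ℕ))⁻¹)) =
        G ^ 2 * ((9 * (16 * 65536 * 288)) * L ^ 18 / L ^ (30 : ℕ)) := by
      rw [div_eq_mul_inv]; ring
    rw [h4]
    have h5 : (9 * (16 * 65536 * 288)) * L ^ 18 / L ^ (30 : ℕ) ≤ 1 := by
      rw [div_le_one hpos, h30]
      exact mul_le_mul_of_nonneg_right h12 (by positivity)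
    calc G ^ 2 * ((9 * (16 * 65536 * 288)) * L ^ 18 / L ^ (30 : ℕ)) ≤ G ^ 2 * 1 :=
          mul_le_mul_of_nonneg_left h5 (by positivity)
      _ = G ^ 2 := mul_one _
  calc (H : ℝ) * (4 * ((D : ℝ) * V) * (1 + Real.log (4 * ((D : ℝ) * V))) ^ 16) *
      ((6 * H * Real.sqrt P * Real.sqrt (P * L ^ (-(4 * A + 60))) + 90 * (P : ℝ) ^ 2 * L0) *
        (3 * x * L ^ (2 : ℕ)))
      ≤ (H : ℝ) * (4 * ((D : ℝ) * V) * (65536 * L ^ 16)) * ((96 * H * P * E) * (3 * x * L ^ (2 : ℕ))) := by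
        apply mul_le_mul
        · apply mul_le_mul_of_nonneg_left _ hH
          exact mul_le_mul_of_nonneg_left hl2 (by linarith)
        · exact mul_le_mul_of_nonneg_right hbr (by positivity)
        · positivity
        · positivity
    _ = (H ^ 2 * x * (4 * 65536 * 288) * (L ^ 18 * E)) * ((D : ℝ) * P * V) := by ring
    _ ≤ (H ^ 2 * x * (4 * 65536 * 288) * (L ^ 18 * E)) * (4 * x) :=
        mul_le_mul_of_nonneg_left hX (by positivity)
    _ = H ^ 2 * x ^ 2 / 9 * (9 * (16 * 65536 * 288) * (L ^ 18 * E)) := by ring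
    _ ≤ H ^ 2 * x ^ 2 / 9 * G ^ 2 := mul_le_mul_of_nonneg_left hfin (by positivity)
    _ = (H * (x * G) / 3) ^ 2 := by ring

end Pool.Agent.Lib.TR
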