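import Pool.Agent.Lib.TR.SpecK

/-!
MP_00e23e_nt, directory Lib/TR, module Knc (helper5): numbers of the second and of the third part.
-/

set_option autoImplicit false

namespace Pool.Agent.Lib.TR

open Finset Pool.Agent.Lib.EH3 Pool.Agent.Results.MP_00e23e_nt

/-- powers of L: the first inequality in abstract form -/
private lemma Knc_one {x L A β q S : ℝ} (hx : 0 ≤ x) (hL : 10 ^ 6 ≤ L) (hq0 : 0 ≤ q) (hq : q ≤ L ^ β) (hS0 : 0 ≤ S) (hS : S ≤ 4 * x) :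
    Real.sqrt (3 * x * L ^ (2 : ℕ)) * (q ^ 5 * Real.sqrt (S * L ^ (-(2 * A + 10 * β + 20)))) ≤ x * L ^ (-A) / 3 := by
  have hL0 : 0 < L := lt_of_lt_of_le (by norm_num) hL
  have e1 : Real.sqrt (3 * x * L ^ (2 : ℕ)) ≤ 2 * Real.sqrt x * L := by
    have h1 : Real.sqrt (3 * x * L ^ (2 : ℕ)) ≤ Real.sqrt ((2 * Real.sqrt x * L) ^ 2) := by
      apply Real.sqrt_le_sqrt
      have h2 : (2 * Real.sqrt x * L) ^ 2 = 4 * x * L ^ 2 := by
        rw [mul_pow, mul_pow, Real.sq_sqrt hx]; ring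
      rw [h2]
      have h3 : 0 ≤ x * L ^ 2 := by positivity
      nlinarith [h3]
    rwa [Real.sqrt_sq (by positivity)] at h1
  have e2 : q ^ 5 ≤ L ^ (5 * β) := by
    have h1 : q ^ 5 ≤ (L ^ β) ^ 5 := pow_le_pow_left₀ hq0 hq 5
    have h2 : (L ^ β) ^ 5 = L ^ (5 * β) := by
      rw [← Real.rpow_natCast, ← Real.rpow_mul hL0.le]
      congr 1
      push_cast
      ring
    rwa [h2] at h1
  have e3 : Real.sqrt (S * L ^ (-(2 * A + 10 * β + 20))) ≤ 2 * Real.sqrt x * L ^ (-(A + 5 * β + 10)) := by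
    have h1 : Real.sqrt (S * L ^ (-(2 * A + 10 * β + 20))) ≤ Real.sqrt ((2 * Real.sqrt x * L ^ (-(A + 5 * β + 10))) ^ 2) := by
      apply Real.sqrt_le_sqrt
      have h2 : (2 * Real.sqrt x * L ^ (-(A + 5 * β + 10))) ^ 2 = 4 * x * L ^ (-(2 * A + 10 * β + 20)) := by
        rw [mul_pow, mul_pow, Real.sq_sqrt hx]
        have h3 : (L ^ (-(A + 5 * β + 10))) ^ 2 = L ^ (-(2 * A + 10 * β + 20)) := by
          rw [← Real.rpow_natCast, ← Real.rpow_mul hL0.le]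
          congr 1
          push_cast
          ring
        rw [h3]; ring
      rw [h2]
      exact mul_le_mul_of_nonneg_right hS (Real.rpow_nonneg hL0.le _)
    rwa [Real.sqrt_sq (by positivity)] at h1
  have hq5 : 0 ≤ q ^ 5 := pow_nonneg hq0 5
  have e4 : Real.sqrt (3 * x * L ^ (2 : ℕ)) * (q ^ 5 * Real.sqrt (S * L ^ (-(2 * A + 10 * β + 20)))) ≤
      (2 * Real.sqrt x * L) * (L ^ (5 * β) * (2 * Real.sqrt x * L ^ (-(A + 5 * β + 10)))) := by
    apply mul_le_mul e1 _ (mul_nonneg hq5 (Real.sqrt_nonneg _)) (by positivity)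
    exact mul_le_mul e2 e3 (Real.sqrt_nonneg _) (by positivity)
  have e5 : (2 * Real.sqrt x * L) * (L ^ (5 * β) * (2 * Real.sqrt x * L ^ (-(A + 5 * β + 10)))) = 4 * x * (L ^ (-A) * L ^ (-9 : ℝ)) := by
    have h1 : L * (L ^ (5 * β) * L ^ (-(A + 5 * β + 10))) = L ^ (-A) * L ^ (-9 : ℝ) := by
      nth_rewrite 1 [← Real.rpow_one L]
      rw [← Real.rpow_add hL0, ← Real.rpow_add hL0, ← Real.rpow_add hL0]
      congr 1
      ring
    have h2 : Real.sqrt x * Real.sqrt x = x := Real.mul_self_sqrt hx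
    calc (2 * Real.sqrt x * L) * (L ^ (5 * β) * (2 * Real.sqrt x * L ^ (-(A + 5 * β + 10))))
        = 4 * (Real.sqrt x * Real.sqrt x) * (L * (L ^ (5 * β) * L ^ (-(A + 5 * β + 10)))) := by ring
      _ = 4 * x * (L ^ (-A) * L ^ (-9 : ℝ)) := by rw [h1, h2]
  have e6 : L ^ (-9 : ℝ) ≤ 1 / 12 := by
    have h1 : L ^ (-9 : ℝ) ≤ L ^ (-1 : ℝ) := Real.rpow_le_rpow_of_exponent_le (by linarith) (by norm_num)
    have h2 : L ^ (-1 : ℝ) = 1 / L := by rw [Real.rpow_neg_one, one_div]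
    have h3 : 1 / L ≤ 1 / 12 := one_div_le_one_div_of_le (by norm_num) (by linarith)
    rw [h2] at h1
    exact h1.trans h3
  rw [e5] at e4
  refine e4.trans ?_
  have h7 : 0 ≤ x * L ^ (-A) := by positivity
  nlinarith [mul_le_mul_of_nonneg_left e6 h7]

/-- the second inequality in abstract form -/
private lemma Knc_two {x L A β b q S g ℓ : ℝ} (hx : 0 ≤ x) (hL : 10 ^ 6 ≤ L) (hq0 : 0 ≤ q) (hq : q ≤ L ^ β) (hS0 : 0 ≤ S)
    (hg : 0 < g) (hSg : S * L ^ (-b) ≤ 2 * g) (hl0 : 0 ≤ ℓ) (hl : ℓ ≤ 2 * L) :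
    2 * S * ℓ ^ 2 * (q ^ 3 * (x * L ^ (-(A + b + 3 * β + 20))) / g) ≤ x * L ^ (-A) / 3 := by
  have hL0 : 0 < L := lt_of_lt_of_le (by norm_num) hL
  have e1 : S / g ≤ 2 * L ^ b := by
    rw [div_le_iff₀ hg]
    have h1 : S = S * L ^ (-b) * L ^ b := by
      rw [mul_assoc, ← Real.rpow_add hL0, neg_add_cancel, Real.rpow_zero, mul_one]
    rw [h1]
    have h2 : 0 ≤ L ^ b := Real.rpow_nonneg hL0.le _
    nlinarith [mul_le_mul_of_nonneg_right hSg h2]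
  have e2 : q ^ 3 ≤ L ^ (3 * β) := by
    have h1 : q ^ 3 ≤ (L ^ β) ^ 3 := pow_le_pow_left₀ hq0 hq 3
    have h2 : (L ^ β) ^ 3 = L ^ (3 * β) := by
      rw [← Real.rpow_natCast, ← Real.rpow_mul hL0.le]
      congr 1
      push_cast
      ring
    rwa [h2] at h1
  have e3 : ℓ ^ 2 ≤ 4 * L ^ (2 : ℕ) := by
    have h1 : ℓ ^ 2 ≤ (2 * L) ^ 2 := pow_le_pow_left₀ hl0 hl 2
    calc ℓ ^ 2 ≤ (2 * L) ^ 2 := h1
      _ = 4 * L ^ 2 := by ring
  have hr : 0 ≤ x * L ^ (-(A + b + 3 * β + 20)) := mul_nonneg hx (Real.rpow_nonneg hL0.le _)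
  have e4 : 2 * S * ℓ ^ 2 * (q ^ 3 * (x * L ^ (-(A + b + 3 * β + 20))) / g) =
      2 * (S / g) * ℓ ^ 2 * (q ^ 3 * (x * L ^ (-(A + b + 3 * β + 20)))) := by
    field_simp
  rw [e4]
  have e5 : 2 * (S / g) * ℓ ^ 2 * (q ^ 3 * (x * L ^ (-(A + b + 3 * β + 20)))) ≤
      2 * (2 * L ^ b) * (4 * L ^ (2 : ℕ)) * (L ^ (3 * β) * (x * L ^ (-(A + b + 3 * β + 20)))) := by
    have h1 : 2 * (S / g) ≤ 2 * (2 * L ^ b) := by linarith
    have h2 : 0 ≤ 2 * (S / g) := by positivity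
    have h3 : 2 * (S / g) * ℓ ^ 2 ≤ 2 * (2 * L ^ b) * (4 * L ^ (2 : ℕ)) :=
      mul_le_mul h1 e3 (by positivity) (by positivity)
    have h4 : q ^ 3 * (x * L ^ (-(A + b + 3 * β + 20))) ≤ L ^ (3 * β) * (x * L ^ (-(A + b + 3 * β + 20))) :=
      mul_le_mul_of_nonneg_right e2 hr
    exact mul_le_mul h3 h4 (mul_nonneg (pow_nonneg hq0 3) hr) (by positivity)
  refine e5.trans ?_
  have e6 : 2 * (2 * L ^ b) * (4 * L ^ (2 : ℕ)) * (L ^ (3 * β) * (x * L ^ (-(A + b + 3 * β + 20)))) =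
      16 * x * (L ^ (-A) * L ^ (-18 : ℝ)) := by
    have h1 : L ^ b * (L ^ (2 : ℕ) * (L ^ (3 * β) * L ^ (-(A + b + 3 * β + 20)))) = L ^ (-A) * L ^ (-18 : ℝ) := by
      rw [← Real.rpow_natCast L 2, ← Real.rpow_add hL0, ← Real.rpow_add hL0, ← Real.rpow_add hL0, ← Real.rpow_add hL0]
      congr 1
      push_cast
      ring
    calc 2 * (2 * L ^ b) * (4 * L ^ (2 : ℕ)) * (L ^ (3 * β) * (x * L ^ (-(A + b + 3 * β + 20))))
        = 16 * x * (L ^ b * (L ^ (2 : ℕ) * (L ^ (3 * β) * L ^ (-(A + b + 3 * β + 20))))) := by ring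
      _ = 16 * x * (L ^ (-A) * L ^ (-18 : ℝ)) := by rw [h1]
  rw [e6]
  have e7 : L ^ (-18 : ℝ) ≤ 1 / 48 := by
    have h1 : L ^ (-18 : ℝ) ≤ L ^ (-1 : ℝ) := Real.rpow_le_rpow_of_exponent_le (by linarith) (by norm_num)
    have h2 : L ^ (-1 : ℝ) = 1 / L := by rw [Real.rpow_neg_one, one_div]
    have h3 : 1 / L ≤ 1 / 48 := one_div_le_one_div_of_le (by norm_num) (by linarith)
    rw [h2] at h1
    exact h1.trans h3
  have h8 : 0 ≤ x * L ^ (-A) := by positivity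
  nlinarith [mul_le_mul_of_nonneg_left e7 h8]

/-- Numbers of the second and of the third part. -/
theorem tKnc : KncStmt := by
  intro A B0 B b0 x D P V H Q h h0 L0 δ hp
  have hx3 : (3 : ℝ) ≤ x := hp.px
  have hx0 : (0 : ℝ) ≤ x := by linarith
  have hL : (10 : ℝ) ^ 6 ≤ Real.log x := hp.pL
  have hH : (0 : ℝ) ≤ (H : ℝ) := Nat.cast_nonneg H
  have hS0 : (0 : ℝ) ≤ (D : ℝ) * P * V := by positivity
  constructor
  · have h1 := Knc_one (x := x) (L := Real.log x) (A := A) (β := kb A) (q := (Q : ℝ)) (S := (D : ℝ) * P * V)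
      hx0 hL (Nat.cast_nonneg Q) hp.pQ1 hS0 hp.pX
    calc (H : ℝ) * (Real.sqrt (3 * x * (Real.log x) ^ (2 : ℕ)) * ((Q : ℝ) ^ 5 *
          Real.sqrt ((D : ℝ) * P * V * (Real.log x) ^ (-(2 * A + 10 * kb A + 20)))))
        ≤ (H : ℝ) * (x * (Real.log x) ^ (-A) / 3) := mul_le_mul_of_nonneg_left h1 hH
      _ = H * (x * (Real.log x) ^ (-A)) / 3 := by ring
  · have hg : (0 : ℝ) < (h0 : ℝ) := by
      have := hp.pg
      exact_mod_cast this
    have hV1 : (1 : ℝ) ≤ (V : ℝ) := by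
      have := hp.pV
      exact_mod_cast this
    have hD1 : (1 : ℝ) ≤ (D : ℝ) := by
      have := hp.pD
      exact_mod_cast this
    have hP1 : (1 : ℝ) ≤ (P : ℝ) := by
      have := hp.pP
      exact_mod_cast this
    have hV4 : (V : ℝ) ≤ 4 * x := by
      have h1 : (1 : ℝ) ≤ (D : ℝ) * P := by nlinarith
      have h2 : (V : ℝ) ≤ (D : ℝ) * P * V := by nlinarith
      exact h2.trans hp.pX
    have hl0 : 0 ≤ 1 + Real.log (2 * (V : ℝ)) := by
      have := Real.log_nonneg (show (1 : ℝ) ≤ 2 * (V : ℝ) by linarith)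
      linarith
    have hl : 1 + Real.log (2 * (V : ℝ)) ≤ 2 * Real.log x := by
      have h1 : Real.log (2 * (V : ℝ)) ≤ Real.log (8 * x) := Real.log_le_log (by linarith) (by linarith)
      have h2 : Real.log (8 * x) = Real.log 8 + Real.log x := Real.log_mul (by norm_num) (by linarith)
      have h3 : Real.log 8 ≤ 8 - 1 := Real.log_le_sub_one_of_pos (by norm_num)
      rw [h2] at h1
      have h4 : (10 : ℝ) ^ 6 = 1000000 := by norm_num
      rw [h4] at hL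
      linarith
    have h1 := Knc_two (x := x) (L := Real.log x) (A := A) (β := kb A) (b := b0) (q := (Q : ℝ)) (S := (D : ℝ) * P * V)
      (g := (h0 : ℝ)) (ℓ := 1 + Real.log (2 * (V : ℝ))) hx0 hL (Nat.cast_nonneg Q) hp.pQ1 hS0 hg hp.pg2 hl0 hl
    calc (H : ℝ) * (2 * ((D : ℝ) * P * V) * (1 + Real.log (2 * V)) ^ 2 *
          ((Q : ℝ) ^ 3 * (x * (Real.log x) ^ (-(A + b0 + 3 * kb A + 20))) / h0))
        ≤ (H : ℝ) * (x * (Real.log x) ^ (-A) / 3) := mul_le_mul_of_nonneg_left h1 hH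
      _ = H * (x * (Real.log x) ^ (-A)) / 3 := by ring

end Pool.Agent.Lib.TR
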