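import Pool.Agent.Lib.TR.SpecK

/-!
MP_00e23e_nt, directory Lib/TR, chapter K, module Kpa: existence of the parameters.
-/

set_option autoImplicit false

namespace Pool.Agent.Lib.TR

open Finset Pool.Agent.Lib.EH3 Pool.Agent.Results.MP_00e23e_nt

private lemma Kpa_ev (r : ℝ) : ∃ x0 : ℝ, ∀ x : ℝ, x0 ≤ x → 3 ≤ x ∧ (10 : ℝ) ^ 6 ≤ Real.log x ∧ (Real.log x) ^ r ≤ x := by
  have h1 : ∀ᶠ x : ℝ in Filter.atTop, (3 : ℝ) ≤ x := Filter.eventually_ge_atTop 3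
  have h2 : ∀ᶠ x : ℝ in Filter.atTop, (10 : ℝ) ^ 6 ≤ Real.log x :=
    Real.tendsto_log_atTop.eventually_ge_atTop _
  have h3 : ∀ᶠ x : ℝ in Filter.atTop, ‖(Real.log x) ^ r‖ ≤ 1 * ‖x ^ (1 : ℝ)‖ :=
    (isLittleO_log_rpow_rpow_atTop r (zero_lt_one)).bound zero_lt_one
  obtain ⟨x0, hx0⟩ := Filter.eventually_atTop.1 (h1.and (h2.and h3))
  refine ⟨x0, fun x hx => ?_⟩
  obtain ⟨a, b, c⟩ := hx0 x hx
  refine ⟨a, b, ?_⟩
  have hx : (0 : ℝ) ≤ x := by linarith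
  rw [Real.rpow_one, one_mul, Real.norm_eq_abs, Real.norm_eq_abs, abs_of_nonneg hx] at c
  exact (le_abs_self _).trans c

private lemma Kpa_fl (y : ℝ) (hy : 1 ≤ y) : 1 ≤ ⌊y⌋₊ ∧ ((⌊y⌋₊ : ℕ) : ℝ) ≤ y ∧ y ≤ 2 * ((⌊y⌋₊ : ℕ) : ℝ) := by
  have h0 : 0 ≤ y := by linarith
  have h1 : 1 ≤ ⌊y⌋₊ := (Nat.one_le_floor_iff y).2 hy
  have h2 : y < ((⌊y⌋₊ : ℕ) : ℝ) + 1 := Nat.lt_floor_add_one y
  have h3 : (1 : ℝ) ≤ ((⌊y⌋₊ : ℕ) : ℝ) := by exact_mod_cast h1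
  exact ⟨h1, Nat.floor_le h0, by linarith⟩

private lemma Kpa_ce (y : ℝ) (hy : 1 ≤ y) : 1 ≤ ⌈y⌉₊ ∧ y ≤ ((⌈y⌉₊ : ℕ) : ℝ) ∧ ((⌈y⌉₊ : ℕ) : ℝ) ≤ 2 * y := by
  have h0 : 0 ≤ y := by linarith
  have h1 : 1 ≤ ⌈y⌉₊ := Nat.one_le_ceil_iff.2 (by linarith)
  have h2 : ((⌈y⌉₊ : ℕ) : ℝ) < y + 1 := Nat.ceil_lt_add_one h0
  exact ⟨h1, Nat.le_ceil y, by linarith⟩

theorem tKpa : KpaStmt := by
  intro A B0 B b0 hA hB0 hB hb0
  obtain ⟨x0, hx0⟩ := Kpa_ev (A + 5 + b0)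
  refine ⟨max 3 x0, le_max_left _ _, ?_⟩
  intro x D P V H hx hD hX1 hX2 hP hH hH1
  obtain ⟨hx3, hL6, hLx⟩ := hx0 x ((le_max_right _ _).trans hx)
  set L := Real.log x with hL
  have hL1 : (1 : ℝ) ≤ L := by
    have : (1 : ℝ) ≤ (10 : ℝ) ^ 6 := by norm_num
    linarith
  have hL0 : (0 : ℝ) < L := by linarith
  have hB00 : 0 ≤ B0 := by
    have : kb A = 4 * A + 63 := rfl
    linarith
  have hP1 : (1 : ℝ) ≤ P := (Real.one_le_rpow hL1 hB00).trans hP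
  have hP0 : (0 : ℝ) < P := by linarith
  have hPn : 1 ≤ P := by exact_mod_cast hP1
  have hx0' : (0 : ℝ) < x := by linarith
  have hXpos : (0 : ℝ) < (D : ℝ) * P * V := by
    have : 0 < x * L ^ (-(A + 5)) := mul_pos hx0' (Real.rpow_pos_of_pos hL0 _)
    linarith
  have hVn : 1 ≤ V := by
    rcases Nat.eq_zero_or_pos V with h | h
    · exfalso
      rw [h] at hXpos
      simp at hXpos
    · exact h
  have hkb : kb A = 4 * A + 63 := rfl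
  have hkc : kc A = 2 * A + 30 := rfl
  have hkh : kh A = 10 * A + 158 := rfl
  have hk1 : k1 A B = 34 * A + 546 + B := rfl
  -- the number Q
  have hq : (1 : ℝ) ≤ L ^ (kb A) := Real.one_le_rpow hL1 (by rw [hkb]; linarith)
  obtain ⟨q1, q2, q3⟩ := Kpa_fl _ hq
  -- the number h
  have hHp : (P : ℝ) * L ^ (k1 A B) ≤ H := hH
  have hh : (1 : ℝ) ≤ H * L ^ (-(kh A)) := by
    have h1 : (1 : ℝ) ≤ P * L ^ (k1 A B) * L ^ (-(kh A)) := by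
      rw [mul_assoc, ← Real.rpow_add hL0]
      have h2 : (1 : ℝ) ≤ L ^ (k1 A B + -(kh A)) := Real.one_le_rpow hL1 (by rw [hk1, hkh]; linarith)
      calc (1 : ℝ) = 1 * 1 := by norm_num
        _ ≤ P * L ^ (k1 A B + -(kh A)) := mul_le_mul hP1 h2 (by norm_num) hP0.le
    exact h1.trans (mul_le_mul_of_nonneg_right hHp (Real.rpow_nonneg hL0.le _))
  obtain ⟨c1, c2, c3⟩ := Kpa_ce _ hh
  -- the number h0
  have hg : (1 : ℝ) ≤ (D : ℝ) * P * V * L ^ (-b0) := by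
    have h1 : (1 : ℝ) ≤ x * L ^ (-(A + 5)) * L ^ (-b0) := by
      rw [mul_assoc, ← Real.rpow_add hL0]
      have e : -(A + 5) + -b0 = -(A + 5 + b0) := by ring
      rw [e, Real.rpow_neg hL0.le, ← div_eq_mul_inv, one_le_div (Real.rpow_pos_of_pos hL0 _)]
      exact hLx
    exact h1.trans (mul_le_mul_of_nonneg_right hX1 (Real.rpow_nonneg hL0.le _))
  obtain ⟨g1, g2, g3⟩ := Kpa_fl _ hg
  -- the number L0
  have hpk : (0 : ℝ) < P * L ^ (kc A) := mul_pos hP0 (Real.rpow_pos_of_pos hL0 _)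
  have hl : (1 : ℝ) ≤ H / (P * L ^ (kc A)) := by
    rw [one_le_div hpk]
    refine le_trans (mul_le_mul_of_nonneg_left ?_ hP0.le) hHp
    exact Real.rpow_le_rpow_of_exponent_le hL1 (by rw [hk1, hkc]; linarith)
  obtain ⟨l1, l2, l3⟩ := Kpa_fl _ hl
  exact ⟨⌊L ^ (kb A)⌋₊, ⌈(H : ℝ) * L ^ (-(kh A))⌉₊, ⌊(D : ℝ) * P * V * L ^ (-b0)⌋₊, ⌊(H : ℝ) / (P * L ^ (kc A))⌋₊,
    L ^ (kc A + kb A) / H,
    { pA := hA, pB0 := hB0, pB := hB, px := hx3, pL := hL6, pD := hD, pP := hPn, pV := hVn, pX := hX2, pP0 := hP,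
      pH := hH, pH1 := hH1, pQ := q1, pQ1 := q2, pQ2 := q3, ph := c1, ph1 := c2, ph2 := c3, pg := g1, pg1 := g2,
      pg2 := g3, pl := l1, pl1 := l2, pl2 := l3, pδ := rfl }⟩

end Pool.Agent.Lib.TR
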