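import Pool.Agent.Lib.TR.SpecM

set_option autoImplicit false

namespace Pool.Agent.Lib.TR

open Finset Pool.Agent.Lib.EH3 Pool.Agent.Results.MP_00e23e_nt

private theorem Mct_card (p len : ℕ) (A0 n : ℤ) (hp : 1 ≤ p) :
    ((((Ico A0 (A0 + len)).filter (fun a => a ≡ n [ZMOD (p : ℤ)])).card : ℕ) : ℝ) ≤
      (len : ℝ) / p + 1 := by
  have hp0 : (0 : ℤ) < (p : ℤ) := by exact_mod_cast hp
  have h := Int.Ico_filter_modEq_card A0 (A0 + len) hp0 n
  have hq : ((((Ico A0 (A0 + len)).filter (fun a => a ≡ n [ZMOD (p : ℤ)])).card : ℤ) : ℚ) ≤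
      (len : ℚ) / p + 1 := by
    rw [h]
    rw [Int.cast_max]
    refine max_le ?_ ?_
    · have h1 := Int.ceil_lt_add_one (((A0 + len : ℤ) - n : ℚ) / ((p : ℤ) : ℚ))
      have h2 := Int.le_ceil (((A0 : ℤ) - n : ℚ) / ((p : ℤ) : ℚ))
      have h3 : (((A0 + len : ℤ) - n : ℚ) / ((p : ℤ) : ℚ)) =
          (((A0 : ℤ) - n : ℚ) / ((p : ℤ) : ℚ)) + (len : ℚ) / p := by
        push_cast
        ring
      push_cast at h1 h2 h3 ⊢
      linarith
    · push_cast
      positivity
  have h4 : ((((Ico A0 (A0 + len)).filter (fun a => a ≡ n [ZMOD (p : ℤ)])).card : ℚ) : ℝ) ≤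
      (((len : ℚ) / p + 1 : ℚ) : ℝ) := by
    exact_mod_cast hq
  push_cast at h4
  exact h4

theorem tMct : MctStmt := by
  intro G K E p len A0 hp hG hG0
  have hp0 : (0 : ℤ) < (p : ℤ) := by exact_mod_cast hp
  have h1 : ∀ m : ℤ, G m = ∑ n ∈ Icc (-(K : ℤ)) K, if n = m then G n else 0 := by
    intro m
    rw [Finset.sum_ite_eq']
    by_cases hm : m ∈ Icc (-(K : ℤ)) (K : ℤ)
    · rw [if_pos hm]
    · rw [if_neg hm]
      refine hG0 m ?_
      rw [Finset.mem_Icc, not_and_or] at hm
      rw [lt_abs]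
      rcases hm with hm | hm
      · right; omega
      · left; omega
  calc ∑ a ∈ Ico A0 (A0 + len), ∑ e ∈ Icc (-(E : ℤ)) E, G (a + p * e)
      = ∑ a ∈ Ico A0 (A0 + len), ∑ e ∈ Icc (-(E : ℤ)) E,
          ∑ n ∈ Icc (-(K : ℤ)) K, if n = a + p * e then G n else 0 := by
        refine Finset.sum_congr rfl fun a _ => Finset.sum_congr rfl fun e _ => h1 _
    _ = ∑ n ∈ Icc (-(K : ℤ)) K, ∑ a ∈ Ico A0 (A0 + len), ∑ e ∈ Icc (-(E : ℤ)) E,
          (if n = a + p * e then G n else 0) := by
        rw [Finset.sum_comm (s := Icc (-(K : ℤ)) (K : ℤ)) (t := Ico A0 (A0 + len))]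
        refine Finset.sum_congr rfl fun a _ => ?_
        exact Finset.sum_comm
    _ ≤ ∑ n ∈ Icc (-(K : ℤ)) K, ((len : ℝ) / p + 1) * G n := by
        refine Finset.sum_le_sum fun n _ => ?_
        have h2 : ∀ a ∈ Ico A0 (A0 + len), ∑ e ∈ Icc (-(E : ℤ)) E,
            (if n = a + p * e then G n else 0) ≤ if a ≡ n [ZMOD (p : ℤ)] then G n else 0 := by
          intro a _
          by_cases hex : ∃ e ∈ Icc (-(E : ℤ)) (E : ℤ), n = a + p * e
          · obtain ⟨e0, he0, hn⟩ := hex
            have hmod : a ≡ n [ZMOD (p : ℤ)] := by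
              rw [Int.modEq_iff_dvd]
              exact ⟨e0, by rw [hn]; ring⟩
            rw [if_pos hmod]
            rw [Finset.sum_eq_single e0]
            · rw [if_pos hn]
            · intro e _ hne
              rw [if_neg]
              intro h
              apply hne
              have h5 : (p : ℤ) * e = p * e0 := by linarith
              exact mul_left_cancel₀ hp0.ne' h5
            · intro h
              exact absurd he0 h
          · have h6 : ∑ e ∈ Icc (-(E : ℤ)) E, (if n = a + p * e then G n else 0) = 0 := by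
              refine Finset.sum_eq_zero fun e he => ?_
              rw [if_neg]
              intro h
              exact hex ⟨e, he, h⟩
            rw [h6]
            split_ifs
            · exact hG n
            · exact le_refl _
        refine (Finset.sum_le_sum h2).trans ?_
        rw [← Finset.sum_filter, Finset.sum_const, nsmul_eq_mul]
        exact mul_le_mul_of_nonneg_right (Mct_card p len A0 n hp) (hG n)
    _ = ((len : ℝ) / p + 1) * ∑ n ∈ Icc (-(K : ℤ)) K, G n := by
        rw [Finset.mul_sum]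

end Pool.Agent.Lib.TR
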