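import Pool.Agent.Lib.TR.SpecM

/-!
MP_00e23e_nt, directory Lib/TR, module Mfo: Parseval for the minor arcs.
-/

set_option autoImplicit false

namespace Pool.Agent.Lib.TR

open Finset Pool.Agent.Lib.EH3 Pool.Agent.Results.MP_00e23e_nt

/-- the Fourier transform on the integers -/
private noncomputable def Mfo_ft (G : ℤ → ℂ) (α : ℝ) : ℂ := ∑' n : ℤ, G n * ee ((n : ℝ) * α)

private lemma Mfo_ft_eq {G : ℤ → ℂ} {R : ℕ} (hG : ∀ n : ℤ, (R : ℤ) < |n| → G n = 0) (α : ℝ) :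
    Mfo_ft G α = ∑ n ∈ Icc (-(R : ℤ)) R, G n * ee ((n : ℝ) * α) := by
  unfold Mfo_ft
  refine tsum_eq_sum fun n hn => ?_
  rw [hG n, zero_mul]
  rw [Finset.mem_Icc, not_and_or] at hn
  rw [lt_abs]
  omega

private lemma Mfo_summable {G : ℤ → ℂ} {R : ℕ} (hG : ∀ n : ℤ, (R : ℤ) < |n| → G n = 0) (α : ℝ) :
    Summable fun n : ℤ => G n * ee ((n : ℝ) * α) := by
  refine summable_of_ne_finset_zero (s := Icc (-(R : ℤ)) R) fun n hn => ?_
  rw [hG n, zero_mul]
  rw [Finset.mem_Icc, not_and_or] at hn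
  rw [lt_abs]
  omega

private lemma Mfo_shift (f : ℤ → ℂ) (s : ℤ) (α : ℝ) :
    Mfo_ft (fun n => f (n + s)) α = ee (-((s : ℝ) * α)) * Mfo_ft f α := by
  unfold Mfo_ft
  rw [← tsum_mul_left]
  have h1 := (Equiv.addRight s).tsum_eq
    (fun m : ℤ => ee (-((s : ℝ) * α)) * (f m * ee ((m : ℝ) * α)))
  rw [← h1]
  refine tsum_congr fun n => ?_
  simp only [Equiv.coe_addRight]
  have h2 : ee ((n : ℝ) * α) = ee (-((s : ℝ) * α)) * ee (((n + s : ℤ) : ℝ) * α) := by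
    rw [← ee_add]
    congr 1
    push_cast
    ring
  rw [h2]
  ring

/-- linear combinations of shifts -/
private lemma Mfo_comb {f : ℤ → ℂ} {K : ℕ} (hf : ∀ n : ℤ, (K : ℤ) < |n| → f n = 0) (r : ℕ)
    (c : ℕ → ℂ) (s : ℕ → ℤ) (α : ℝ) :
    Summable (fun n : ℤ => (∑ j ∈ range r, c j * f (n + s j)) * ee ((n : ℝ) * α)) ∧
    Mfo_ft (fun n => ∑ j ∈ range r, c j * f (n + s j)) α =
      (∑ j ∈ range r, c j * ee (-((s j : ℝ) * α))) * Mfo_ft f α := by
  have hs : ∀ j, Summable (fun n : ℤ => c j * (f (n + s j) * ee ((n : ℝ) * α))) := by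
    intro j
    refine Summable.mul_left _ ?_
    refine Mfo_summable (G := fun n => f (n + s j)) (R := K + (s j).natAbs) ?_ α
    intro n hn
    refine hf _ ?_
    have h1 : |n| ≤ |n + s j| + |s j| := by
      have := abs_sub (n + s j) (s j)
      simpa using this
    have h2 : ((s j).natAbs : ℤ) = |s j| := Int.natCast_natAbs _
    push_cast at hn
    omega
  have e1 : (fun n : ℤ => (∑ j ∈ range r, c j * f (n + s j)) * ee ((n : ℝ) * α)) =
      fun n : ℤ => ∑ j ∈ range r, c j * (f (n + s j) * ee ((n : ℝ) * α)) := by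
    funext n
    rw [Finset.sum_mul]
    exact Finset.sum_congr rfl fun j _ => by ring
  refine ⟨?_, ?_⟩
  · rw [e1]
    exact summable_sum fun j _ => hs j
  · unfold Mfo_ft
    rw [e1, Summable.tsum_finsetSum fun j _ => hs j, Finset.sum_mul]
    refine Finset.sum_congr rfl fun j _ => ?_
    rw [tsum_mul_left]
    have h3 := Mfo_shift f (s j) α
    unfold Mfo_ft at h3
    rw [h3]
    ring

/-- Parseval -/
private lemma Mfo_parseval {G : ℤ → ℂ} {R M : ℕ} (hM : 2 * R < M)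
    (hG : ∀ n : ℤ, (R : ℤ) < |n| → G n = 0) :
    ∑ k ∈ range M, ‖Mfo_ft G ((k : ℝ) / M)‖ ^ 2 = (M : ℝ) * sq R G := by
  have hM0 : 0 < M := by omega
  have hdvd : ∀ n ∈ Icc (-(R : ℤ)) R, ∀ m ∈ Icc (-(R : ℤ)) R, ((M : ℤ) ∣ n - m ↔ n = m) := by
    intro n hn m hm
    rw [Finset.mem_Icc] at hn hm
    constructor
    · intro h
      have h1 : |n - m| < (M : ℤ) := by
        rw [abs_lt]
        omega
      have h2 := Int.eq_zero_of_abs_lt_dvd h h1
      omega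
    · intro h
      rw [h, sub_self]
      exact dvd_zero _
  have key : ∑ k ∈ range M, Mfo_ft G ((k : ℝ) / M) * (starRingEnd ℂ) (Mfo_ft G ((k : ℝ) / M)) =
      (M : ℂ) * ∑ n ∈ Icc (-(R : ℤ)) R, G n * (starRingEnd ℂ) (G n) := by
    calc ∑ k ∈ range M, Mfo_ft G ((k : ℝ) / M) * (starRingEnd ℂ) (Mfo_ft G ((k : ℝ) / M))
        = ∑ k ∈ range M, ∑ n ∈ Icc (-(R : ℤ)) R, ∑ m ∈ Icc (-(R : ℤ)) R,
            G n * (starRingEnd ℂ) (G m) * ee ((k : ℝ) * (((n - m : ℤ) : ℝ) / M)) := by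
          refine Finset.sum_congr rfl fun k _ => ?_
          rw [Mfo_ft_eq hG, map_sum, Finset.sum_mul_sum]
          refine Finset.sum_congr rfl fun n _ => Finset.sum_congr rfl fun m _ => ?_
          rw [map_mul, conj_ee]
          have h1 : ee ((k : ℝ) * (((n - m : ℤ) : ℝ) / M)) =
              ee ((n : ℝ) * ((k : ℝ) / M)) * ee (-((m : ℝ) * ((k : ℝ) / M))) := by
            rw [← ee_add]
            congr 1
            push_cast
            ring
          rw [h1]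
          ring
      _ = ∑ n ∈ Icc (-(R : ℤ)) R, ∑ m ∈ Icc (-(R : ℤ)) R,
            G n * (starRingEnd ℂ) (G m) * (if (M : ℤ) ∣ n - m then (M : ℂ) else 0) := by
          rw [Finset.sum_comm]
          refine Finset.sum_congr rfl fun n _ => ?_
          rw [Finset.sum_comm]
          refine Finset.sum_congr rfl fun m _ => ?_
          rw [← Finset.mul_sum, orth hM0]
      _ = ∑ n ∈ Icc (-(R : ℤ)) R, (M : ℂ) * (G n * (starRingEnd ℂ) (G n)) := by
          refine Finset.sum_congr rfl fun n hn => ?_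
          rw [Finset.sum_eq_single n]
          · rw [if_pos ((hdvd n hn n hn).2 rfl)]
            ring
          · intro m hm hmn
            rw [if_neg (fun h => hmn ((hdvd n hn m hm).1 h).symm), mul_zero]
          · intro h
            exact absurd hn h
      _ = (M : ℂ) * ∑ n ∈ Icc (-(R : ℤ)) R, G n * (starRingEnd ℂ) (G n) := by
          rw [Finset.mul_sum]
  have h1 : ((∑ k ∈ range M, ‖Mfo_ft G ((k : ℝ) / M)‖ ^ 2 : ℝ) : ℂ) =
      (((M : ℝ) * sq R G : ℝ) : ℂ) := by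
    unfold sq
    push_cast
    have e1 : ∑ k ∈ range M, ((‖Mfo_ft G ((k : ℝ) / M)‖ : ℝ) : ℂ) ^ 2 =
        ∑ k ∈ range M, Mfo_ft G ((k : ℝ) / M) * (starRingEnd ℂ) (Mfo_ft G ((k : ℝ) / M)) :=
      Finset.sum_congr rfl fun k _ => (Complex.mul_conj' _).symm
    rw [e1, key]
    congr 1
    exact Finset.sum_congr rfl fun n _ => Complex.mul_conj' (G n)
  exact_mod_cast h1

private lemma Mfo_sq_le {G : ℤ → ℂ} {K' R : ℕ} (h : K' ≤ R) : sq K' G ≤ sq R G := by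
  unfold sq
  refine Finset.sum_le_sum_of_subset_of_nonneg ?_ fun n _ _ => by positivity
  intro n hn
  rw [Finset.mem_Icc] at hn ⊢
  omega

private lemma Mfo_sq_eq {G : ℤ → ℂ} {K R : ℕ} (h : K ≤ R)
    (hG : ∀ n : ℤ, (K : ℤ) < |n| → G n = 0) : sq R G = sq K G := by
  unfold sq
  symm
  refine Finset.sum_subset ?_ ?_
  · intro n hn
    rw [Finset.mem_Icc] at hn ⊢
    omega
  · intro n _ hn
    rw [hG n, norm_zero]
    · norm_num
    · rw [Finset.mem_Icc, not_and_or] at hn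
      rw [lt_abs]
      omega

private lemma Mfo_mm (Q h : ℕ) (α : ℝ) :
    mm Q h α = ∑ j ∈ range h, (1 / (h : ℂ) * Rq Q j) * ee (-(((j : ℤ) : ℝ) * α)) := by
  unfold mm Rq Pool.Agent.Lib.UI.redc
  simp only [Finset.mul_sum, Finset.sum_mul]
  calc ∑ q ∈ Icc 1 Q, ∑ a ∈ (range q).filter (fun a => a.Coprime q), ∑ j ∈ range h,
        1 / (h : ℂ) * ee ((j : ℝ) * ((a : ℝ) / q - α))
      = ∑ q ∈ Icc 1 Q, ∑ j ∈ range h, ∑ a ∈ (range q).filter (fun a => a.Coprime q),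
        1 / (h : ℂ) * ee ((j : ℝ) * ((a : ℝ) / q - α)) :=
        Finset.sum_congr rfl fun q _ => Finset.sum_comm
    _ = ∑ j ∈ range h, ∑ q ∈ Icc 1 Q, ∑ a ∈ (range q).filter (fun a => a.Coprime q),
        1 / (h : ℂ) * ee ((j : ℝ) * ((a : ℝ) / q - α)) := Finset.sum_comm
    _ = _ := by
        refine Finset.sum_congr rfl fun j _ => Finset.sum_congr rfl fun q _ =>
          Finset.sum_congr rfl fun a _ => ?_
        rw [mul_assoc, ← ee_add]
        congr 2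
        push_cast
        ring

/-- the transform of f - Ch Q h f -/
private lemma Mfo_F {f : ℤ → ℂ} {K : ℕ} (hf : ∀ n : ℤ, (K : ℤ) < |n| → f n = 0) (Q h : ℕ)
    (α : ℝ) : Mfo_ft (fun n => f n - Ch Q h f n) α = (1 - mm Q h α) * Mfo_ft f α := by
  obtain ⟨h1, h2⟩ := Mfo_comb hf h (fun j => 1 / (h : ℂ) * Rq Q j) (fun j => (j : ℤ)) α
  have e1 : ∀ n : ℤ, Ch Q h f n = ∑ j ∈ range h, (1 / (h : ℂ) * Rq Q j) * f (n + (j : ℤ)) := by
    intro n
    unfold Ch
    rw [Finset.mul_sum]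
    exact Finset.sum_congr rfl fun j _ => by ring
  simp only [e1]
  rw [← Mfo_mm] at h2
  have h3 : Mfo_ft (fun n => f n - ∑ j ∈ range h, (1 / (h : ℂ) * Rq Q j) * f (n + (j : ℤ))) α =
      Mfo_ft f α - Mfo_ft (fun n => ∑ j ∈ range h, (1 / (h : ℂ) * Rq Q j) * f (n + (j : ℤ))) α := by
    unfold Mfo_ft
    rw [← Summable.tsum_sub (Mfo_summable hf α) h1]
    exact tsum_congr fun n => by ring
  rw [h3, h2]
  ring

private lemma Mfo_suppF {f : ℤ → ℂ} {K : ℕ} (hf : ∀ n : ℤ, (K : ℤ) < |n| → f n = 0) (Q h : ℕ) :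
    ∀ n : ℤ, ((K + h : ℕ) : ℤ) < |n| → f n - Ch Q h f n = 0 := by
  intro n hn
  have h1 : f n = 0 := by
    refine hf n ?_
    push_cast at hn
    omega
  have h2 : Ch Q h f n = 0 := by
    unfold Ch
    rw [Finset.sum_eq_zero, mul_zero]
    intro j hj
    rw [Finset.mem_range] at hj
    rw [hf (n + j), mul_zero]
    push_cast at hn
    rw [lt_abs] at hn ⊢
    omega
  rw [h1, h2, sub_zero]

private lemma Mfo_Aw {F : ℤ → ℂ} {K : ℕ} (hF : ∀ n : ℤ, (K : ℤ) < |n| → F n = 0) (L0 : ℕ)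
    (w : ℤ) (α : ℝ) : ‖Mfo_ft (Aw L0 w F) α‖ = ‖KK L0 ((w : ℝ) * α)‖ * ‖Mfo_ft F α‖ := by
  obtain ⟨_, h2⟩ := Mfo_comb hF L0 (fun _ => 1 / (L0 : ℂ)) (fun t => w * (t : ℤ)) α
  have e1 : Aw L0 w F = fun n : ℤ => ∑ t ∈ range L0, 1 / (L0 : ℂ) * F (n + w * (t : ℤ)) := by
    funext n
    unfold Aw
    rw [Finset.mul_sum]
  rw [e1, h2, norm_mul]
  congr 1
  have e2 : ∑ t ∈ range L0, 1 / (L0 : ℂ) * ee (-(((w * (t : ℤ) : ℤ) : ℝ) * α)) =
      (starRingEnd ℂ) (KK L0 ((w : ℝ) * α)) := by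
    unfold KK
    rw [map_mul, map_sum, Finset.mul_sum]
    refine Finset.sum_congr rfl fun t _ => ?_
    rw [conj_ee]
    congr 1
    · simp
    · congr 1
      push_cast
      ring
  rw [e2, RCLike.norm_conj]

private lemma Mfo_suppA {F : ℤ → ℂ} {K : ℕ} (hF : ∀ n : ℤ, (K : ℤ) < |n| → F n = 0) (L0 P : ℕ)
    (w : ℤ) (hw : w ∈ Ioo (-(P : ℤ)) P) :
    ∀ n : ℤ, ((K + P * L0 : ℕ) : ℤ) < |n| → Aw L0 w F n = 0 := by
  intro n hn
  unfold Aw
  rw [Finset.sum_eq_zero, mul_zero]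
  intro t ht
  rw [Finset.mem_range] at ht
  refine hF _ ?_
  rw [Finset.mem_Ioo] at hw
  have h1 : |w * (t : ℤ)| ≤ (P : ℤ) * L0 := by
    rw [abs_mul]
    have h2 : |w| ≤ (P : ℤ) := by
      rw [abs_le]
      omega
    have h3 : |(t : ℤ)| ≤ (L0 : ℤ) := by
      rw [abs_of_nonneg (by positivity)]
      omega
    exact mul_le_mul h2 h3 (abs_nonneg _) (by positivity)
  have h4 : |n| ≤ |n + w * (t : ℤ)| + |w * (t : ℤ)| := by
    have := abs_sub (n + w * (t : ℤ)) (w * (t : ℤ))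
    simpa using this
  push_cast at hn
  linarith

theorem tMfo : MfoStmt := by
  intro f K K' Q h L0 P S0 B _ _ hS0 hB hf
  obtain ⟨R, hR⟩ : ∃ R : ℕ, R = K + h + P * L0 + K' := ⟨_, rfl⟩
  obtain ⟨M, hM⟩ : ∃ M : ℕ, M = 2 * R + 1 := ⟨_, rfl⟩
  have hM2 : 2 * R < M := by omega
  have hM0 : (0 : ℝ) < (M : ℝ) := by
    have : 0 < M := by omega
    exact_mod_cast this
  have hF := Mfo_suppF hf Q h
  have hpf : ∑ k ∈ range M, ‖Mfo_ft f ((k : ℝ) / M)‖ ^ 2 = (M : ℝ) * sq K f := by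
    have h1 : K ≤ R := by rw [hR]; omega
    rw [Mfo_parseval (R := R) hM2, Mfo_sq_eq h1 hf]
    intro n hn
    refine hf n ?_
    omega
  refine ⟨fun hS => ?_, fun hBm => ?_⟩
  · have h1 : ∀ w ∈ Ioo (-(P : ℤ)) P, (M : ℝ) * sq K' (Aw L0 w (fun n => f n - Ch Q h f n)) ≤
        ∑ k ∈ range M, ‖KK L0 ((w : ℝ) * ((k : ℝ) / M))‖ ^ 2 *
          (‖1 - mm Q h ((k : ℝ) / M)‖ ^ 2 * ‖Mfo_ft f ((k : ℝ) / M)‖ ^ 2) := by
      intro w hw
      have h2 : sq K' (Aw L0 w (fun n => f n - Ch Q h f n)) ≤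
          sq R (Aw L0 w (fun n => f n - Ch Q h f n)) := Mfo_sq_le (by rw [hR]; omega)
      have h3 : (M : ℝ) * sq R (Aw L0 w (fun n => f n - Ch Q h f n)) =
          ∑ k ∈ range M, ‖Mfo_ft (Aw L0 w (fun n => f n - Ch Q h f n)) ((k : ℝ) / M)‖ ^ 2 := by
        symm
        refine Mfo_parseval (R := R) hM2 ?_
        intro n hn
        refine Mfo_suppA hF L0 P w hw n ?_
        rw [hR] at hn
        push_cast at hn ⊢
        omega
      calc (M : ℝ) * sq K' (Aw L0 w (fun n => f n - Ch Q h f n))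
          ≤ (M : ℝ) * sq R (Aw L0 w (fun n => f n - Ch Q h f n)) := by gcongr
        _ = ∑ k ∈ range M, ‖Mfo_ft (Aw L0 w (fun n => f n - Ch Q h f n)) ((k : ℝ) / M)‖ ^ 2 := h3
        _ = _ := by
            refine Finset.sum_congr rfl fun k _ => ?_
            rw [Mfo_Aw hF, Mfo_F hf, norm_mul]
            ring
    have h4 : (M : ℝ) * ∑ w ∈ Ioo (-(P : ℤ)) P, sq K' (Aw L0 w (fun n => f n - Ch Q h f n)) ≤
        (M : ℝ) * (S0 * sq K f) := by
      calc (M : ℝ) * ∑ w ∈ Ioo (-(P : ℤ)) P, sq K' (Aw L0 w (fun n => f n - Ch Q h f n))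
          = ∑ w ∈ Ioo (-(P : ℤ)) P, (M : ℝ) * sq K' (Aw L0 w (fun n => f n - Ch Q h f n)) := by
            rw [Finset.mul_sum]
        _ ≤ ∑ w ∈ Ioo (-(P : ℤ)) P, ∑ k ∈ range M, ‖KK L0 ((w : ℝ) * ((k : ℝ) / M))‖ ^ 2 *
              (‖1 - mm Q h ((k : ℝ) / M)‖ ^ 2 * ‖Mfo_ft f ((k : ℝ) / M)‖ ^ 2) :=
            Finset.sum_le_sum h1
        _ = ∑ k ∈ range M, (‖1 - mm Q h ((k : ℝ) / M)‖ ^ 2 *
              ∑ w ∈ Ioo (-(P : ℤ)) P, ‖KK L0 ((w : ℝ) * ((k : ℝ) / M))‖ ^ 2) *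
              ‖Mfo_ft f ((k : ℝ) / M)‖ ^ 2 := by
            rw [Finset.sum_comm]
            refine Finset.sum_congr rfl fun k _ => ?_
            rw [Finset.mul_sum, Finset.sum_mul]
            exact Finset.sum_congr rfl fun w _ => by ring
        _ ≤ ∑ k ∈ range M, S0 * ‖Mfo_ft f ((k : ℝ) / M)‖ ^ 2 := by
            refine Finset.sum_le_sum fun k _ => ?_
            exact mul_le_mul_of_nonneg_right (hS _) (by positivity)
        _ = (M : ℝ) * (S0 * sq K f) := by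
            rw [← Finset.mul_sum, hpf]
            ring
    exact le_of_mul_le_mul_left h4 hM0
  · have h3 : (M : ℝ) * sq R (fun n => f n - Ch Q h f n) =
        ∑ k ∈ range M, ‖Mfo_ft (fun n => f n - Ch Q h f n) ((k : ℝ) / M)‖ ^ 2 := by
      symm
      refine Mfo_parseval (R := R) hM2 ?_
      intro n hn
      refine hF n ?_
      rw [hR] at hn
      push_cast at hn ⊢
      have : (0 : ℤ) ≤ (P : ℤ) * L0 := by positivity
      omega
    have h4 : (M : ℝ) * sq K' (fun n => f n - Ch Q h f n) ≤ (M : ℝ) * (B ^ 2 * sq K f) := by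
      calc (M : ℝ) * sq K' (fun n => f n - Ch Q h f n)
          ≤ (M : ℝ) * sq R (fun n => f n - Ch Q h f n) := by
            have := Mfo_sq_le (G := fun n => f n - Ch Q h f n) (K' := K') (R := R)
              (by rw [hR]; omega)
            gcongr
        _ = ∑ k ∈ range M, ‖Mfo_ft (fun n => f n - Ch Q h f n) ((k : ℝ) / M)‖ ^ 2 := h3
        _ ≤ ∑ k ∈ range M, B ^ 2 * ‖Mfo_ft f ((k : ℝ) / M)‖ ^ 2 := by
            refine Finset.sum_le_sum fun k _ => ?_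
            rw [Mfo_F hf, norm_mul, mul_pow]
            have := hBm ((k : ℝ) / M)
            gcongr
        _ = (M : ℝ) * (B ^ 2 * sq K f) := by
            rw [← Finset.mul_sum, hpf]
            ring
    exact le_of_mul_le_mul_left h4 hM0

end Pool.Agent.Lib.TR
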