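import Pool.Agent.Lib.TR.SpecM

/-!
MP_00e23e_nt, directory Lib/TR, chapter M, module Mkl: the sum over w, large denominators.
-/

set_option autoImplicit false

namespace Pool.Agent.Lib.TR

open Finset Pool.Agent.Lib.EH3 Pool.Agent.Results.MP_00e23e_nt

private lemma Mkl_half (T : ℕ) (hT : 1 ≤ T) (J : Finset ℤ) (hinj : Set.InjOn Int.natAbs (J : Set ℤ))
    (h0 : ∀ z ∈ J, (T : ℤ) < |z|) : ∑ z ∈ J, 1 / ((z : ℝ)) ^ 2 ≤ (1 : ℝ) / (T : ℝ) := by
  classical
  have h1 : ∑ z ∈ J, 1 / ((z : ℝ)) ^ 2 = ∑ k ∈ J.image Int.natAbs, 1 / (k : ℝ) ^ 2 := by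
    rw [Finset.sum_image hinj]
    refine Finset.sum_congr rfl fun z _ => ?_
    rw [Nat.cast_natAbs, Int.cast_abs, sq_abs]
  rw [h1]
  set M := (J.image Int.natAbs).sup id with hM
  have h2 : J.image Int.natAbs ⊆ Ioc T (max T M) := by
    intro k hk
    rw [mem_Ioc]
    have hk2 : k ≤ M := Finset.le_sup (f := id) hk
    rw [mem_image] at hk
    obtain ⟨z, hz, rfl⟩ := hk
    have h5 := h0 z hz
    have h6 : (z.natAbs : ℤ) = |z| := Int.natCast_natAbs z
    exact ⟨by omega, hk2.trans (le_max_right _ _)⟩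
  refine (Finset.sum_le_sum_of_subset_of_nonneg h2 fun k _ _ => by positivity).trans ?_
  have h3 := sum_Ioc_inv_sq_le_sub (α := ℝ) (k := T) (n := max T M) (by omega) (le_max_left _ _)
  have h4 : ∑ k ∈ Ioc T (max T M), 1 / (k : ℝ) ^ 2 = ∑ k ∈ Ioc T (max T M), ((k : ℝ) ^ 2)⁻¹ :=
    Finset.sum_congr rfl fun k _ => by rw [one_div]
  rw [h4, one_div]
  have h5 : (0 : ℝ) ≤ ((max T M : ℕ) : ℝ)⁻¹ := by positivity
  linarith

private lemma Mkl_inv (T : ℕ) (hT : 1 ≤ T) (J : Finset ℤ)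
    (h0 : ∀ z ∈ J, (T : ℤ) < |z|) : ∑ z ∈ J, 1 / ((z : ℝ)) ^ 2 ≤ (2 : ℝ) / (T : ℝ) := by
  classical
  rw [← Finset.sum_filter_add_sum_filter_not J (fun z => 0 < z)]
  have h1 : ∑ z ∈ J.filter (fun z => 0 < z), 1 / ((z : ℝ)) ^ 2 ≤ (1 : ℝ) / (T : ℝ) := by
    apply Mkl_half T hT
    · intro a ha b hb hab
      simp only [coe_filter, Set.mem_ofPred_eq] at ha hb
      omega
    · intro z hz
      exact h0 z (mem_filter.mp hz).1
  have h2 : ∑ z ∈ J.filter (fun z => ¬ 0 < z), 1 / ((z : ℝ)) ^ 2 ≤ (1 : ℝ) / (T : ℝ) := by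
    apply Mkl_half T hT
    · intro a ha b hb hab
      simp only [coe_filter, Set.mem_ofPred_eq] at ha hb
      omega
    · intro z hz
      exact h0 z (mem_filter.mp hz).1
  have h3 : (2 : ℝ) / T = 1 / T + 1 / T := by ring
  linarith

private lemma Mkl_KK (L : ℕ) (β : ℝ) : KK L β = (1 / (L : ℂ)) * GG L β := rfl

lemma Mkl_le_one (L : ℕ) (hL : 1 ≤ L) (β : ℝ) : ‖KK L β‖ ≤ 1 := by
  have hL' : (0 : ℝ) < L := by exact_mod_cast hL
  rw [Mkl_KK, norm_mul, norm_div, norm_one, Complex.norm_natCast, one_div, inv_mul_le_iff₀ hL', mul_one]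
  exact norm_GG_le L β

lemma Mkl_mul_le (L : ℕ) (hL : 1 ≤ L) (β : ℝ) : ‖KK L β‖ * (2 * (L : ℝ) * |β - round β|) ≤ 1 := by
  have hL' : (0 : ℝ) < L := by exact_mod_cast hL
  have h := norm_GG_mul_le L β
  rw [Mkl_KK, norm_mul, norm_div, norm_one, Complex.norm_natCast]
  have h2 : 1 / (L : ℝ) * ‖GG L β‖ * (2 * (L : ℝ) * |β - round β|) = ‖GG L β‖ * (2 * |β - round β|) := by
    field_simp
  rw [h2]
  exact h

/-- one block of points with spacing δ modulo 1 -/
private lemma Mkl_block {ι : Type} [DecidableEq ι] (J : Finset ι) (θ : ι → ℝ) {δ : ℝ} (hδ : 0 < δ)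
    (hsep : ∀ i ∈ J, ∀ j ∈ J, i ≠ j → δ ≤ |(θ i - θ j) - round (θ i - θ j)|) (L : ℕ) (hL : 1 ≤ L) :
    ∑ j ∈ J, ‖KK L (θ j)‖ ^ 2 ≤ 3 + 4 * (1 / (L * δ)) := by
  classical
  have hL' : (0 : ℝ) < L := by exact_mod_cast hL
  set c : ℝ := 1 / (L * δ) with hc
  have hc0 : 0 < c := by rw [hc]; positivity
  set T : ℕ := ⌈c⌉₊ with hT
  have hT1 : 1 ≤ T := Nat.one_le_iff_ne_zero.mpr (by rw [hT]; exact (Nat.ceil_pos.mpr hc0).ne')
  have hTc : c ≤ T := Nat.le_ceil c
  have hTc' : (T : ℝ) < c + 1 := Nat.ceil_lt_add_one hc0.le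
  set x : ι → ℝ := fun j => θ j - round (θ j) with hx
  set z : ι → ℤ := fun j => ⌊x j / δ⌋ with hz
  have hinj : Set.InjOn z (J : Set ι) := by
    intro j hj k hk hjk
    by_contra hne
    have h1 : |x j - x k| < δ := by
      have a1 : (z j : ℝ) ≤ x j / δ := Int.floor_le _
      have a2 : x j / δ < (z j : ℝ) + 1 := Int.lt_floor_add_one _
      have a3 : (z k : ℝ) ≤ x k / δ := Int.floor_le _
      have a4 : x k / δ < (z k : ℝ) + 1 := Int.lt_floor_add_one _
      rw [le_div_iff₀ hδ] at a1 a3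
      rw [div_lt_iff₀ hδ] at a2 a4
      have hjk' : (z j : ℝ) = z k := by exact_mod_cast hjk
      rw [hjk'] at a1 a2
      rw [abs_lt]
      constructor <;> nlinarith
    have h2 := hsep j hj k hk hne
    have h3 : x j - x k = (θ j - θ k) - ((round (θ j) - round (θ k) : ℤ) : ℝ) := by
      rw [hx]; push_cast; ring
    have h4 := round_le (θ j - θ k) (round (θ j) - round (θ k))
    rw [← h3] at h4
    linarith
  set g : ℤ → ℝ := fun y => if |y| ≤ (T : ℤ) then 1 else c ^ 2 * (1 / (y : ℝ) ^ 2) with hg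
  have hb : ∀ j ∈ J, ‖KK L (θ j)‖ ^ 2 ≤ g (z j) := by
    intro j _
    have hn0 := norm_nonneg (KK L (θ j))
    have h1 := Mkl_le_one L hL (θ j)
    by_cases hzT : |z j| ≤ (T : ℤ)
    · have : g (z j) = 1 := by rw [hg]; simp only [hzT, if_true]
      rw [this]
      nlinarith
    · have : g (z j) = c ^ 2 * (1 / (z j : ℝ) ^ 2) := by rw [hg]; simp only [hzT, if_false]
      rw [this]
      push Not at hzT
      have hzT2 : 2 ≤ |z j| := by
        have : (1 : ℤ) ≤ T := by exact_mod_cast hT1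
        omega
      have h2 : (z j : ℝ) ≤ x j / δ := Int.floor_le _
      have h3 : x j / δ < (z j : ℝ) + 1 := Int.lt_floor_add_one _
      rw [le_div_iff₀ hδ] at h2
      rw [div_lt_iff₀ hδ] at h3
      have hzx : |(z j : ℝ)| * δ ≤ 2 * |x j| := by
        rcases le_or_gt 0 (z j) with h | h
        · have h5 : (0 : ℝ) ≤ z j := by exact_mod_cast h
          rw [abs_of_nonneg h5]
          have := le_abs_self (x j)
          nlinarith [abs_nonneg (x j)]
        · have h5 : (z j : ℝ) < 0 := by exact_mod_cast h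
          have h6 : z j ≤ -2 := by
            rw [abs_of_neg h] at hzT2
            omega
          have h7 : (z j : ℝ) ≤ -2 := by exact_mod_cast h6
          rw [abs_of_neg h5]
          have := neg_abs_le (x j)
          nlinarith
      have hzpos : (0 : ℝ) < |(z j : ℝ)| := by
        have h8 : (2 : ℝ) ≤ |(z j : ℝ)| := by
          have : ((2 : ℤ) : ℝ) ≤ ((|z j| : ℤ) : ℝ) := by exact_mod_cast hzT2
          rw [Int.cast_abs] at this
          exact_mod_cast this
        linarith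
      have h9 := Mkl_mul_le L hL (θ j)
      have h10 : ‖KK L (θ j)‖ * (L * (|(z j : ℝ)| * δ)) ≤ 1 := by
        refine le_trans ?_ h9
        have : x j = θ j - round (θ j) := rfl
        rw [← this]
        have h11 : (L : ℝ) * (|(z j : ℝ)| * δ) ≤ 2 * L * |x j| := by nlinarith
        exact mul_le_mul_of_nonneg_left h11 hn0
      have h12 : ‖KK L (θ j)‖ * |(z j : ℝ)| ≤ c := by
        rw [hc, le_div_iff₀ (by positivity)]
        calc ‖KK L (θ j)‖ * |(z j : ℝ)| * (L * δ) = ‖KK L (θ j)‖ * (L * (|(z j : ℝ)| * δ)) := by ring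
          _ ≤ 1 := h10
      have h13 : (‖KK L (θ j)‖ * |(z j : ℝ)|) ^ 2 ≤ c ^ 2 :=
        pow_le_pow_left₀ (by positivity) h12 2
      rw [mul_pow, sq_abs] at h13
      have h14 : (0 : ℝ) < (z j : ℝ) ^ 2 := by rw [← sq_abs]; positivity
      rw [mul_one_div, le_div_iff₀ h14]
      exact h13
  refine (Finset.sum_le_sum hb).trans ?_
  rw [← Finset.sum_image (f := g) hinj]
  rw [← Finset.sum_filter_add_sum_filter_not (J.image z) (fun y : ℤ => |y| ≤ (T : ℤ))]
  have s1 : ∑ y ∈ (J.image z).filter (fun y : ℤ => |y| ≤ (T : ℤ)), g y ≤ 2 * T + 1 := by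
    calc ∑ y ∈ (J.image z).filter (fun y : ℤ => |y| ≤ (T : ℤ)), g y
        = ∑ y ∈ (J.image z).filter (fun y : ℤ => |y| ≤ (T : ℤ)), (1 : ℝ) := by
          refine Finset.sum_congr rfl fun y hy => ?_
          have := (mem_filter.mp hy).2
          rw [hg]; simp only [this, if_true]
      _ = (((J.image z).filter (fun y : ℤ => |y| ≤ (T : ℤ))).card : ℝ) := by simp
      _ ≤ ((Icc (-(T : ℤ)) T).card : ℝ) := by
          have : (J.image z).filter (fun y : ℤ => |y| ≤ (T : ℤ)) ⊆ Icc (-(T : ℤ)) T := by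
            intro y hy
            have := (mem_filter.mp hy).2
            rw [mem_Icc]
            exact abs_le.mp this
          exact_mod_cast Finset.card_le_card this
      _ = 2 * T + 1 := by
          rw [Int.card_Icc]
          have : ((T : ℤ) + 1 - -(T : ℤ)).toNat = 2 * T + 1 := by omega
          rw [this]; push_cast; ring
  have s2 : ∑ y ∈ (J.image z).filter (fun y : ℤ => ¬ |y| ≤ (T : ℤ)), g y ≤ 2 * c := by
    calc ∑ y ∈ (J.image z).filter (fun y : ℤ => ¬ |y| ≤ (T : ℤ)), g y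
        = ∑ y ∈ (J.image z).filter (fun y : ℤ => ¬ |y| ≤ (T : ℤ)), c ^ 2 * (1 / (y : ℝ) ^ 2) := by
          refine Finset.sum_congr rfl fun y hy => ?_
          have := (mem_filter.mp hy).2
          rw [hg]; simp only [this, if_false]
      _ = c ^ 2 * ∑ y ∈ (J.image z).filter (fun y : ℤ => ¬ |y| ≤ (T : ℤ)), 1 / (y : ℝ) ^ 2 := by rw [Finset.mul_sum]
      _ ≤ c ^ 2 * (2 / T) := by
          apply mul_le_mul_of_nonneg_left _ (by positivity)
          apply Mkl_inv T hT1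
          intro y hy
          exact not_le.mp (mem_filter.mp hy).2
      _ ≤ 2 * c := by
          have hT0 : (0 : ℝ) < T := by exact_mod_cast hT1
          rw [mul_div_assoc', div_le_iff₀ hT0]
          nlinarith
  linarith

theorem tMkl : MklStmt := by
  intro P L0 q r α hP hL hq hqP hcop hα
  classical
  have hP' : (0 : ℝ) < P := by exact_mod_cast hP
  have hL' : (0 : ℝ) < L0 := by exact_mod_cast hL
  have hq' : (0 : ℝ) < q := by exact_mod_cast hq
  set m : ℕ := (q + 1) / 2 with hm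
  have hm1 : 1 ≤ m := by omega
  have hmq : 2 * m ≤ q + 1 := by omega
  have hqm : q ≤ 2 * m := by omega
  have hm0 : (0 : ℤ) < (m : ℤ) := by exact_mod_cast hm1
  set B : ℕ := P / m with hB
  have hBP : B * m ≤ P := Nat.div_mul_le_self P m
  have hPB : P < (B + 1) * m := by
    have := Nat.lt_div_mul_add (a := P) (b := m) (by omega)
    rw [← hB] at this
    nlinarith
  -- fibres
  have hfib : ∀ k : ℤ, ∑ w ∈ (Ioo (-(P : ℤ)) P).filter (fun w => w / (m : ℤ) = k), ‖KK L0 ((w : ℝ) * α)‖ ^ 2 ≤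
      3 + 4 * (1 / (L0 * (1 / (2 * (q : ℝ))))) := by
    intro k
    apply Mkl_block _ (fun w : ℤ => (w : ℝ) * α) (by positivity) _ L0 hL
    intro i hi j hj hij
    have hi2 := (mem_filter.mp hi).2
    have hj2 := (mem_filter.mp hj).2
    have hi3 := Int.emod_add_mul_ediv i m
    have hj3 := Int.emod_add_mul_ediv j m
    rw [hi2] at hi3
    rw [hj2] at hj3
    have hi4 := Int.emod_nonneg i hm0.ne'
    have hj4 := Int.emod_nonneg j hm0.ne'
    have hi5 := Int.emod_lt_of_pos i hm0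
    have hj5 := Int.emod_lt_of_pos j hm0
    have hd : 2 * |i - j| < q := by
      have : |i - j| < m := by
        rw [abs_lt]
        constructor <;> linarith
      have h2 : (2 * (m : ℤ)) ≤ q + 1 := by exact_mod_cast hmq
      omega
    have hd0 : 0 < |i - j| := abs_pos.mpr (sub_ne_zero.mpr hij)
    set n : ℤ := round ((i : ℝ) * α - (j : ℝ) * α) with hn
    -- q does not divide (i - j) r
    have hndvd : ¬ ((q : ℤ) ∣ (i - j) * r) := by
      intro h
      have h1 : (q : ℤ) ∣ (i - j) := hcop.symm.dvd_of_dvd_mul_right h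
      have h2 := Int.le_of_dvd hd0 ((dvd_abs _ _).mpr h1)
      omega
    have hne : (i - j) * r - n * q ≠ 0 := by
      intro h
      apply hndvd
      exact ⟨n, by linarith⟩
    have hge : (1 : ℝ) ≤ |((i - j : ℤ) : ℝ) * r - n * q| := by
      have : (1 : ℤ) ≤ |(i - j) * r - n * q| := Int.one_le_abs hne
      have h2 : ((1 : ℤ) : ℝ) ≤ ((|(i - j) * r - n * q| : ℤ) : ℝ) := by exact_mod_cast this
      rw [Int.cast_abs] at h2
      push_cast at h2 ⊢
      exact h2
    have hge2 : 1 / (q : ℝ) ≤ |((i - j : ℤ) : ℝ) * ((r : ℝ) / q) - n| := by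
      have : ((i - j : ℤ) : ℝ) * ((r : ℝ) / q) - n = (((i - j : ℤ) : ℝ) * r - n * q) / q := by
        field_simp
      rw [this, abs_div, abs_of_pos hq']
      exact div_le_div_of_nonneg_right hge hq'.le
    have hsm : |((i - j : ℤ) : ℝ) * (α - (r : ℝ) / q)| ≤ 1 / (2 * q) := by
      rw [abs_mul]
      have h1 : |((i - j : ℤ) : ℝ)| ≤ q / 2 := by
        have : ((2 * |i - j| : ℤ) : ℝ) ≤ ((q : ℤ) : ℝ) := by exact_mod_cast hd.le
        push_cast at this ⊢
        linarith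
      calc |((i - j : ℤ) : ℝ)| * |α - (r : ℝ) / q| ≤ (q / 2) * (1 / (2 * P * q)) :=
            mul_le_mul h1 hα (abs_nonneg _) (by positivity)
        _ = 1 / (4 * P) := by field_simp; norm_num
        _ ≤ 1 / (2 * q) := by
            apply one_div_le_one_div_of_le (by positivity)
            have : (q : ℝ) ≤ 2 * P := by exact_mod_cast hqP
            linarith
    have heq : (i : ℝ) * α - (j : ℝ) * α - n =
        (((i - j : ℤ) : ℝ) * ((r : ℝ) / q) - n) + ((i - j : ℤ) : ℝ) * (α - (r : ℝ) / q) := by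
      push_cast; ring
    change 1 / (2 * (q : ℝ)) ≤ |(i : ℝ) * α - (j : ℝ) * α - n|
    rw [heq]
    have htri : |((i - j : ℤ) : ℝ) * ((r : ℝ) / q) - n| - |((i - j : ℤ) : ℝ) * (α - (r : ℝ) / q)| ≤
        |(((i - j : ℤ) : ℝ) * ((r : ℝ) / q) - n) + ((i - j : ℤ) : ℝ) * (α - (r : ℝ) / q)| := by
      have := abs_sub_abs_le_abs_sub (((i - j : ℤ) : ℝ) * ((r : ℝ) / q) - n) (-(((i - j : ℤ) : ℝ) * (α - (r : ℝ) / q)))
      rw [abs_neg, sub_neg_eq_add] at this
      exact this
    have : 1 / (q : ℝ) = 1 / (2 * q) + 1 / (2 * q) := by field_simp; norm_num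
    linarith
  have hmaps : ∀ w ∈ Ioo (-(P : ℤ)) P, w / (m : ℤ) ∈ Icc (-((B : ℤ) + 1)) B := by
    intro w hw
    rw [mem_Ioo] at hw
    rw [mem_Icc]
    have hPB' : (P : ℤ) < ((B : ℤ) + 1) * m := by exact_mod_cast hPB
    constructor
    · rw [Int.le_ediv_iff_mul_le hm0]
      linarith
    · have : w / (m : ℤ) < (B : ℤ) + 1 := by
        rw [Int.ediv_lt_iff_lt_mul hm0]
        linarith
      omega
  rw [← Finset.sum_fiberwise_of_maps_to hmaps]
  refine (Finset.sum_le_sum fun k _ => hfib k).trans ?_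
  rw [Finset.sum_const, nsmul_eq_mul, Int.card_Icc]
  have hcard : ((B : ℤ) + 1 - -((B : ℤ) + 1)).toNat = 2 * B + 2 := by omega
  rw [hcard]
  have hBq : (B : ℝ) ≤ 2 * (P / q) := by
    have h1 : (B : ℝ) * m ≤ P := by exact_mod_cast hBP
    have h2 : (q : ℝ) ≤ 2 * m := by exact_mod_cast hqm
    rw [mul_div_assoc', le_div_iff₀ hq']
    have h3 : (0 : ℝ) ≤ B := by positivity
    nlinarith
  have hc : 4 * (1 / ((L0 : ℝ) * (1 / (2 * (q : ℝ))))) = 8 * (q / L0) := by
    field_simp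
    norm_num
  rw [hc]
  push_cast
  have hPq : (0 : ℝ) ≤ P / q := by positivity
  have hqL : (0 : ℝ) ≤ q / L0 := by positivity
  have hB0 : (0 : ℝ) ≤ B := by positivity
  calc (2 * (B : ℝ) + 2) * (3 + 8 * (q / L0)) ≤ (4 * (P / q) + 4) * (8 * (1 + q / L0)) := by
        apply mul_le_mul (by linarith) (by linarith) (by positivity) (by positivity)
    _ ≤ 100 * ((P / q + 1) * (1 + q / L0)) := by nlinarith [mul_nonneg hPq hqL]

end Pool.Agent.Lib.TR
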