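import Pool.Agent.Lib.TR.SpecM

/-!
MP_00e23e_nt, directory Lib/TR, chapter M, module Mks (helper78): the sum over w away from the centre of a major arc.
-/

set_option autoImplicit false

namespace Pool.Agent.Lib.TR

open Finset Pool.Agent.Lib.EH3 Pool.Agent.Results.MP_00e23e_nt

private lemma Mks_kk (L0 : ℕ) (β : ℝ) : ‖KK L0 β‖ = ‖GG L0 β‖ / L0 := by
  unfold KK GG
  rw [norm_mul, norm_div, norm_one, Complex.norm_natCast]
  ring

private lemma Mks_le_one (L0 : ℕ) (hL : 1 ≤ L0) (β : ℝ) : ‖KK L0 β‖ ^ 2 ≤ 1 := by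
  have hL' : (0 : ℝ) < L0 := by exact_mod_cast hL
  have h1 : ‖KK L0 β‖ ≤ 1 := by
    rw [Mks_kk, div_le_one hL']
    exact norm_GG_le L0 β
  have h0 := norm_nonneg (KK L0 β)
  nlinarith

private lemma Mks_le (L0 : ℕ) (hL : 1 ≤ L0) (β η : ℝ) (hη : 0 < η) (h : η ≤ |β - round β|) :
    ‖KK L0 β‖ ^ 2 ≤ (1 / (2 * L0 * η)) ^ 2 := by
  have hL' : (0 : ℝ) < L0 := by exact_mod_cast hL
  have h1 : ‖KK L0 β‖ ≤ 1 / (2 * L0 * η) := by
    rw [Mks_kk, div_le_div_iff₀ hL' (by positivity)]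
    have h2 := norm_GG_mul_le L0 β
    have h3 := norm_nonneg (GG L0 β)
    have h4 : ‖GG L0 β‖ * (2 * η) ≤ 1 := by
      refine le_trans ?_ h2
      exact mul_le_mul_of_nonneg_left (by linarith) h3
    calc ‖GG L0 β‖ * (2 * L0 * η) = (‖GG L0 β‖ * (2 * η)) * L0 := by ring
      _ ≤ 1 * L0 := mul_le_mul_of_nonneg_right h4 hL'.le
  have h0 := norm_nonneg (KK L0 β)
  exact pow_le_pow_left₀ h0 h1 2

/-- the telescoping bound -/
private lemma Mks_tel (t y k : ℝ) (hy : 0 < y) (hk : 1 ≤ k) (h0 : 0 ≤ t) (h1 : t ≤ 1)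
    (h2 : t ≤ y ^ 2 / (4 * k ^ 2)) : t ≤ 9 / 4 * y ^ 2 * (1 / (k - 1 + y) - 1 / (k + y)) := by
  have hk1 : 0 < k - 1 + y := by linarith
  have hk2 : 0 < k + y := by linarith
  have h3 : 1 / (k - 1 + y) - 1 / (k + y) = 1 / ((k - 1 + y) * (k + y)) := by
    field_simp
    ring
  rw [h3, mul_one_div, le_div_iff₀ (by positivity)]
  rcases le_total k (y / 2) with h | h
  · have h4 : (k - 1 + y) * (k + y) ≤ (3 / 2 * y) * (3 / 2 * y) :=
      mul_le_mul (by linarith) (by linarith) hk2.le (by linarith)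
    calc t * ((k - 1 + y) * (k + y)) ≤ 1 * ((3 / 2 * y) * (3 / 2 * y)) :=
          mul_le_mul h1 h4 (by positivity) zero_le_one
      _ = 9 / 4 * y ^ 2 := by ring
  · have h4 : (k - 1 + y) * (k + y) ≤ (3 * k) * (3 * k) :=
      mul_le_mul (by linarith) (by linarith) hk2.le (by linarith)
    have h5 : 0 < k := by linarith
    calc t * ((k - 1 + y) * (k + y)) ≤ y ^ 2 / (4 * k ^ 2) * ((3 * k) * (3 * k)) :=
          mul_le_mul h2 h4 (by positivity) (by positivity)
      _ = 9 / 4 * y ^ 2 := by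
          field_simp
          ring

private noncomputable def Mks_G (y : ℝ) (k : ℤ) : ℝ :=
  if k = 0 then 1 else 9 / 4 * y ^ 2 * (1 / (|(k : ℝ)| - 1 + y) - 1 / (|(k : ℝ)| + y))

private lemma Mks_G_nonneg (y : ℝ) (hy : 0 < y) (k : ℤ) : 0 ≤ Mks_G y k := by
  unfold Mks_G
  split_ifs with h
  · exact zero_le_one
  · have h1 : (1 : ℝ) ≤ |(k : ℝ)| := by
      have h2 : 1 ≤ |k| := Int.one_le_abs h
      have h3 : ((1 : ℤ) : ℝ) ≤ ((|k| : ℤ) : ℝ) := by exact_mod_cast h2
      rwa [Int.cast_one, Int.cast_abs] at h3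
    have h2 : 1 / (|(k : ℝ)| + y) ≤ 1 / (|(k : ℝ)| - 1 + y) :=
      one_div_le_one_div_of_le (by linarith) (by linarith)
    have h3 : 0 ≤ 1 / (|(k : ℝ)| - 1 + y) - 1 / (|(k : ℝ)| + y) := by linarith
    positivity

private lemma Mks_sum (y : ℝ) (hy : 0 < y) (P : ℕ) (hP : 1 ≤ P) :
    ∑ k ∈ Ioo (-(P : ℤ)) P, Mks_G y k ≤ 1 + 9 / 2 * y ^ 2 * (1 / y - 1 / ((P : ℝ) - 1 + y)) := by
  induction P, hP using Nat.le_induction with
  | base =>
    have h : Ioo (-((1 : ℕ) : ℤ)) ((1 : ℕ) : ℤ) = {0} := by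
      ext k
      rw [mem_Ioo, mem_singleton]
      push_cast
      omega
    rw [h, sum_singleton]
    unfold Mks_G
    rw [if_pos rfl]
    simp
  | succ P hP ih =>
    have h : Ioo (-((P + 1 : ℕ) : ℤ)) ((P + 1 : ℕ) : ℤ) =
        insert (P : ℤ) (insert (-(P : ℤ)) (Ioo (-(P : ℤ)) P)) := by
      ext k
      rw [mem_insert, mem_insert, mem_Ioo, mem_Ioo]
      push_cast
      omega
    have hn1 : (P : ℤ) ∉ insert (-(P : ℤ)) (Ioo (-(P : ℤ)) (P : ℤ)) := by
      rw [mem_insert, mem_Ioo]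
      omega
    have hn2 : (-(P : ℤ)) ∉ Ioo (-(P : ℤ)) (P : ℤ) := by
      rw [mem_Ioo]
      omega
    have hPr : (0 : ℝ) ≤ P := Nat.cast_nonneg P
    have hG1 : Mks_G y (P : ℤ) = 9 / 4 * y ^ 2 * (1 / ((P : ℝ) - 1 + y) - 1 / ((P : ℝ) + y)) := by
      unfold Mks_G
      rw [if_neg (by omega), Int.cast_natCast, abs_of_nonneg hPr]
    have hG2 : Mks_G y (-(P : ℤ)) = 9 / 4 * y ^ 2 * (1 / ((P : ℝ) - 1 + y) - 1 / ((P : ℝ) + y)) := by
      unfold Mks_G
      rw [if_neg (by omega), Int.cast_neg, Int.cast_natCast, abs_neg, abs_of_nonneg hPr]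
    rw [h, sum_insert hn1, sum_insert hn2, hG1, hG2]
    have h3 : (((P + 1 : ℕ) : ℝ)) - 1 + y = (P : ℝ) + y := by
      push_cast
      ring
    rw [h3]
    linarith

theorem tMks : MksStmt := by
  intro P L0 q r α δ hP hL0 hq hrq hδ h1 h2
  have hP' : (0 : ℝ) < P := by exact_mod_cast hP
  have hL' : (0 : ℝ) < L0 := by exact_mod_cast hL0
  have hq' : (0 : ℝ) < q := by exact_mod_cast hq
  have hq1 : (1 : ℝ) ≤ q := by exact_mod_cast hq
  set β : ℝ := α - (r : ℝ) / q with hβ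
  have hα : α = (r : ℝ) / q + β := by rw [hβ]; ring
  set y : ℝ := 1 / ((L0 : ℝ) * δ) with hy
  have hy0 : 0 < y := by positivity
  have hwβ : ∀ w : ℤ, w ∈ Ioo (-(P : ℤ)) P → |(w : ℝ) * β| ≤ 1 / (2 * q) := by
    intro w hw
    rw [mem_Ioo] at hw
    have hw1 : |(w : ℝ)| ≤ P := by
      rw [abs_le]
      constructor
      · have : (-(P : ℤ)) ≤ w := hw.1.le
        exact_mod_cast this
      · exact_mod_cast hw.2.le
    rw [abs_mul]
    calc |(w : ℝ)| * |β| ≤ P * (1 / (2 * P * q)) :=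
          mul_le_mul hw1 h1 (abs_nonneg _) hP'.le
      _ = 1 / (2 * q) := by field_simp
  rw [← sum_filter_add_sum_filter_not (Ioo (-(P : ℤ)) P) (fun w : ℤ => (q : ℤ) ∣ w), add_comm]
  refine add_le_add ?_ ?_
  · -- q does not divide w
    have hA : ∀ w ∈ (Ioo (-(P : ℤ)) P).filter (fun w : ℤ => ¬ (q : ℤ) ∣ w),
        ‖KK L0 ((w : ℝ) * α)‖ ^ 2 ≤ ((q : ℝ) / L0) ^ 2 := by
      intro w hw
      rw [mem_filter] at hw
      have h3 : 1 / (2 * (q : ℝ)) ≤ |(w : ℝ) * α - round ((w : ℝ) * α)| := by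
        set m : ℤ := round ((w : ℝ) * α) with hm
        have h4 : (w : ℝ) * α - m = ((w * r - m * q : ℤ) : ℝ) / q + (w : ℝ) * β := by
          rw [hα]
          push_cast
          field_simp
          ring
        have h5 : (w * r - m * q : ℤ) ≠ 0 := by
          intro h
          apply hw.2
          have h6 : (q : ℤ) ∣ w * r := ⟨m, by linarith⟩
          exact (hrq.symm).dvd_of_dvd_mul_right h6
        have h6 : (1 : ℝ) ≤ |((w * r - m * q : ℤ) : ℝ)| := by
          have h7 := Int.one_le_abs h5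
          have h8 : ((1 : ℤ) : ℝ) ≤ ((|w * r - m * q| : ℤ) : ℝ) := by exact_mod_cast h7
          rwa [Int.cast_one, Int.cast_abs] at h8
        have h7 : 1 / (q : ℝ) ≤ |((w * r - m * q : ℤ) : ℝ) / q| := by
          rw [abs_div, abs_of_pos hq']
          exact div_le_div_of_nonneg_right h6 hq'.le
        have h8 := hwβ w hw.1
        rw [h4]
        have h9 := abs_sub_abs_le_abs_sub (((w * r - m * q : ℤ) : ℝ) / q) (-((w : ℝ) * β))
        rw [abs_neg, sub_neg_eq_add] at h9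
        have h10 : 1 / (q : ℝ) - 1 / (2 * q) = 1 / (2 * q) := by
          field_simp
          ring
        linarith
      refine (Mks_le L0 hL0 _ _ (by positivity) h3).trans (le_of_eq ?_)
      field_simp
    calc ∑ w ∈ (Ioo (-(P : ℤ)) P).filter (fun w : ℤ => ¬ (q : ℤ) ∣ w), ‖KK L0 ((w : ℝ) * α)‖ ^ 2
        ≤ ∑ w ∈ (Ioo (-(P : ℤ)) P).filter (fun w : ℤ => ¬ (q : ℤ) ∣ w), ((q : ℝ) / L0) ^ 2 :=
          sum_le_sum hA
      _ = (((Ioo (-(P : ℤ)) P).filter (fun w : ℤ => ¬ (q : ℤ) ∣ w)).card : ℝ) * ((q : ℝ) / L0) ^ 2 := by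
          rw [sum_const, nsmul_eq_mul]
      _ ≤ 2 * P * ((q : ℝ) / L0) ^ 2 := by
          refine mul_le_mul_of_nonneg_right ?_ (by positivity)
          have h3 : ((Ioo (-(P : ℤ)) P).filter (fun w : ℤ => ¬ (q : ℤ) ∣ w)).card ≤ 2 * P := by
            refine (card_filter_le _ _).trans ?_
            rw [Int.card_Ioo]
            omega
          exact_mod_cast h3
  · -- q divides w
    have hB : ∀ w ∈ (Ioo (-(P : ℤ)) P).filter (fun w : ℤ => (q : ℤ) ∣ w),
        ‖KK L0 ((w : ℝ) * α)‖ ^ 2 ≤ Mks_G y (w / q) := by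
      intro w hw
      rw [mem_filter] at hw
      obtain ⟨hw1, k, hk⟩ := hw
      have hqz : (q : ℤ) ≠ 0 := by
        have : (0 : ℤ) < q := by exact_mod_cast hq
        exact this.ne'
      have hwk : w / (q : ℤ) = k := by
        rw [hk]
        exact Int.mul_ediv_cancel_left _ hqz
      rw [hwk]
      unfold Mks_G
      split_ifs with hk0
      · exact Mks_le_one L0 hL0 _
      · have hk1 : (1 : ℝ) ≤ |(k : ℝ)| := by
          have h3 : 1 ≤ |k| := Int.one_le_abs hk0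
          have h4 : ((1 : ℤ) : ℝ) ≤ ((|k| : ℤ) : ℝ) := by exact_mod_cast h3
          rwa [Int.cast_one, Int.cast_abs] at h4
        have h3 : |(k : ℝ)| * δ ≤ |(w : ℝ) * α - round ((w : ℝ) * α)| := by
          set m : ℤ := round ((w : ℝ) * α) with hm
          have h4 : (w : ℝ) * α - m = ((k * r - m : ℤ) : ℝ) + (w : ℝ) * β := by
            rw [hα, hk]
            push_cast
            field_simp
            ring
          have h5 := hwβ w hw1
          have h6 : 1 / (2 * (q : ℝ)) ≤ 1 / 2 := by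
            apply one_div_le_one_div_of_le (by norm_num)
            linarith
          have h7 : |(k : ℝ)| * δ ≤ |(w : ℝ) * β| := by
            rw [hk]
            push_cast
            rw [abs_mul, abs_mul, abs_of_pos hq']
            calc |(k : ℝ)| * δ ≤ |(k : ℝ)| * |β| :=
                  mul_le_mul_of_nonneg_left h2.le (abs_nonneg _)
              _ = 1 * |(k : ℝ)| * |β| := by ring
              _ ≤ q * |(k : ℝ)| * |β| := by
                  refine mul_le_mul_of_nonneg_right ?_ (abs_nonneg _)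
                  exact mul_le_mul_of_nonneg_right hq1 (abs_nonneg _)
          rw [h4]
          by_cases h8 : (k * r - m : ℤ) = 0
          · rw [h8, Int.cast_zero, zero_add]
            exact h7
          · have h9 : (1 : ℝ) ≤ |((k * r - m : ℤ) : ℝ)| := by
              have h10 := Int.one_le_abs h8
              have h11 : ((1 : ℤ) : ℝ) ≤ ((|k * r - m| : ℤ) : ℝ) := by exact_mod_cast h10
              rwa [Int.cast_one, Int.cast_abs] at h11
            have h12 := abs_sub_abs_le_abs_sub (((k * r - m : ℤ) : ℝ)) (-((w : ℝ) * β))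
            rw [abs_neg, sub_neg_eq_add] at h12
            linarith
        have h4 : 0 < |(k : ℝ)| * δ := by positivity
        refine Mks_tel _ y _ hy0 hk1 (by positivity) (Mks_le_one L0 hL0 _) ?_
        refine (Mks_le L0 hL0 _ _ h4 h3).trans (le_of_eq ?_)
        rw [hy]
        field_simp
        ring
    have hinj : Set.InjOn (fun w : ℤ => w / (q : ℤ))
        ((Ioo (-(P : ℤ)) P).filter (fun w : ℤ => (q : ℤ) ∣ w) : Finset ℤ) := by
      intro w hw w' hw' h
      rw [mem_coe, mem_filter] at hw hw'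
      have h3 : w / (q : ℤ) = w' / (q : ℤ) := h
      rw [← Int.ediv_mul_cancel hw.2, ← Int.ediv_mul_cancel hw'.2, h3]
    have hqz : (0 : ℤ) < q := by exact_mod_cast hq
    have hsub : ((Ioo (-(P : ℤ)) P).filter (fun w : ℤ => (q : ℤ) ∣ w)).image
        (fun w : ℤ => w / (q : ℤ)) ⊆ Ioo (-(P : ℤ)) P := by
      intro k hk
      rw [mem_image] at hk
      obtain ⟨w, hw, rfl⟩ := hk
      rw [mem_filter, mem_Ioo] at hw
      obtain ⟨⟨hw1, hw2⟩, k, rfl⟩ := hw
      rw [mem_Ioo, Int.mul_ediv_cancel_left _ hqz.ne']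
      constructor
      · by_contra h
        push Not at h
        nlinarith
      · by_contra h
        push Not at h
        nlinarith
    have hC := Mks_sum y hy0 P hP
    have hD : 0 < (P : ℝ) - 1 + y := by
      have : (1 : ℝ) ≤ P := by exact_mod_cast hP
      linarith
    calc ∑ w ∈ (Ioo (-(P : ℤ)) P).filter (fun w : ℤ => (q : ℤ) ∣ w), ‖KK L0 ((w : ℝ) * α)‖ ^ 2
        ≤ ∑ w ∈ (Ioo (-(P : ℤ)) P).filter (fun w : ℤ => (q : ℤ) ∣ w), Mks_G y (w / q) :=
          sum_le_sum hB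
      _ = ∑ k ∈ ((Ioo (-(P : ℤ)) P).filter (fun w : ℤ => (q : ℤ) ∣ w)).image
            (fun w : ℤ => w / (q : ℤ)), Mks_G y k := by
          rw [sum_image hinj]
      _ ≤ ∑ k ∈ Ioo (-(P : ℤ)) P, Mks_G y k :=
          sum_le_sum_of_subset_of_nonneg hsub (fun k _ _ => Mks_G_nonneg y hy0 k)
      _ ≤ 1 + 9 / 2 * y ^ 2 * (1 / y - 1 / ((P : ℝ) - 1 + y)) := hC
      _ ≤ 1 + 9 / 2 * y ^ 2 * (1 / y) := by
          have h3 : 0 ≤ 1 / ((P : ℝ) - 1 + y) := by positivity
          have h4 : 9 / 2 * y ^ 2 * (1 / y - 1 / ((P : ℝ) - 1 + y)) ≤ 9 / 2 * y ^ 2 * (1 / y) :=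
            mul_le_mul_of_nonneg_left (by linarith) (by positivity)
          linarith
      _ = 1 + 9 / 2 * y := by
          field_simp
      _ ≤ 10 * (1 + y) := by linarith

end Pool.Agent.Lib.TR
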