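import Pool.Agent.Lib.TR.SpecM

set_option autoImplicit false

namespace Pool.Agent.Lib.TR

open Finset Pool.Agent.Lib.EH3 Pool.Agent.Results.MP_00e23e_nt

private lemma Mmm_KK_GG (h : ℕ) (β : ℝ) : KK h β = (1 / (h : ℂ)) * GG h β := rfl

private lemma Mmm_inv (h : ℕ) : ‖(1 / (h : ℂ))‖ = 1 / (h : ℝ) := by simp

private lemma Mmm_KK_le (h : ℕ) (β : ℝ) : ‖KK h β‖ ≤ 1 := by
  rw [Mmm_KK_GG, norm_mul, Mmm_inv]
  rcases Nat.eq_zero_or_pos h with h0 | h0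
  · subst h0; simp
  · have h1 := norm_GG_le h β
    have h2 : (0 : ℝ) < h := by exact_mod_cast h0
    calc 1 / (h : ℝ) * ‖GG h β‖ ≤ 1 / (h : ℝ) * h := by gcongr
      _ = 1 := by field_simp

private lemma Mmm_KK_far (h : ℕ) (β δ : ℝ) (h0 : 1 ≤ h) (hδ : 0 < δ) (hb : δ ≤ |β - round β|) :
    ‖KK h β‖ ≤ 1 / (2 * h * δ) := by
  have h1 := norm_GG_mul_le h β
  have h2 : (0 : ℝ) < h := by exact_mod_cast h0
  have h4 : ‖GG h β‖ ≤ 1 / (2 * δ) := by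
    rw [le_div_iff₀ (by positivity)]
    refine le_trans ?_ h1
    gcongr
  rw [Mmm_KK_GG, norm_mul, Mmm_inv]
  calc 1 / (h : ℝ) * ‖GG h β‖ ≤ 1 / (h : ℝ) * (1 / (2 * δ)) := by gcongr
    _ = 1 / (2 * h * δ) := by field_simp

private lemma Mmm_KK_int (h : ℕ) (β : ℝ) (n : ℤ) : KK h (β + n) = KK h β := by
  unfold KK
  congr 1
  refine sum_congr rfl fun t _ => ?_
  have h1 : (t : ℝ) * (β + n) = t * β + (((t : ℤ) * n : ℤ) : ℝ) := by push_cast; ring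
  rw [h1, ee_add, ee_int, mul_one]

private lemma Mmm_ee_sub (x : ℝ) : ‖ee x - 1‖ ≤ 2 * Real.pi * |x| := by
  unfold ee
  refine (Real.norm_exp_I_mul_ofReal_sub_one_le).trans ?_
  rw [Real.norm_eq_abs, abs_mul, abs_of_pos (by positivity : (0 : ℝ) < 2 * Real.pi)]

private lemma Mmm_KK_one (h : ℕ) (β : ℝ) (h0 : 1 ≤ h) : ‖KK h β - 1‖ ≤ 7 * h * |β| := by
  have h2 : (0 : ℝ) < h := by exact_mod_cast h0
  have h2' : (h : ℂ) ≠ 0 := by exact_mod_cast h2.ne'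
  have e1 : KK h β - 1 = (1 / (h : ℂ)) * ∑ t ∈ range h, (ee (t * β) - 1) := by
    unfold KK
    rw [sum_sub_distrib, mul_sub]
    simp [h2']
  rw [e1, norm_mul, Mmm_inv]
  have h4 : ‖∑ t ∈ range h, (ee (t * β) - 1)‖ ≤ h * (7 * h * |β|) := by
    refine (norm_sum_le _ _).trans ?_
    have h5 : ∀ t ∈ range h, ‖ee (t * β) - 1‖ ≤ 7 * h * |β| := by
      intro t ht
      have ht' : (t : ℝ) ≤ h := by exact_mod_cast (mem_range.1 ht).le
      refine (Mmm_ee_sub _).trans ?_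
      rw [abs_mul, abs_of_nonneg (by positivity : (0 : ℝ) ≤ t)]
      have hpi : 2 * Real.pi ≤ 7 := by nlinarith [Real.pi_lt_d2]
      calc 2 * Real.pi * (t * |β|) ≤ 7 * (h * |β|) := by gcongr
        _ = 7 * h * |β| := by ring
    refine (sum_le_card_nsmul _ _ _ h5).trans ?_
    simp
  calc 1 / (h : ℝ) * ‖∑ t ∈ range h, (ee (t * β) - 1)‖ ≤ 1 / (h : ℝ) * (h * (7 * h * |β|)) := by
        gcongr
    _ = 7 * h * |β| := by field_simp

private def Mmm_I (Q : ℕ) : Finset ((_ : ℕ) × ℕ) :=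
  (Icc 1 Q).sigma (fun q => (range q).filter (fun b => b.Coprime q))

private lemma Mmm_mm (Q h : ℕ) (α : ℝ) :
    mm Q h α = ∑ i ∈ Mmm_I Q, KK h ((i.2 : ℝ) / i.1 - α) := by
  unfold mm Mmm_I Pool.Agent.Lib.UI.redc
  rw [sum_sigma]
  rfl

private lemma Mmm_card (Q : ℕ) : ((Mmm_I Q).card : ℝ) ≤ (Q : ℝ) ^ 2 := by
  have h1 : (Mmm_I Q).card ≤ Q ^ 2 := by
    unfold Mmm_I
    rw [card_sigma]
    have h2 : ∀ q ∈ Icc 1 Q, ((range q).filter (fun b => b.Coprime q)).card ≤ Q := by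
      intro q hq
      refine (card_filter_le _ _).trans ?_
      rw [card_range]
      exact (mem_Icc.1 hq).2
    refine (sum_le_card_nsmul _ _ _ h2).trans ?_
    simp [pow_two]
  exact_mod_cast h1

private lemma Mmm_sep (Q : ℕ) (i j : (_ : ℕ) × ℕ) (hi : i ∈ Mmm_I Q) (hj : j ∈ Mmm_I Q)
    (hij : i ≠ j) (n : ℤ) :
    1 / (Q : ℝ) ^ 2 ≤ |(i.2 : ℝ) / i.1 - (j.2 : ℝ) / j.1 - n| := by
  obtain ⟨q, b⟩ := i
  obtain ⟨q', b'⟩ := j
  unfold Mmm_I at hi hj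
  simp only [mem_sigma, mem_Icc, mem_filter, mem_range] at hi hj
  obtain ⟨⟨hq1, hqQ⟩, hbq, hbc⟩ := hi
  obtain ⟨⟨hq1', hqQ'⟩, hbq', hbc'⟩ := hj
  have hq0 : (0 : ℝ) < q := by exact_mod_cast hq1
  have hq0' : (0 : ℝ) < q' := by exact_mod_cast hq1'
  have hN : (b : ℤ) * q' - b' * q - n * q * q' ≠ 0 := by
    intro h0
    have d1 : (q : ℤ) ∣ (b : ℤ) * q' := ⟨b' + n * q', by linear_combination h0⟩
    have d2 : (q' : ℤ) ∣ (b' : ℤ) * q := ⟨b - n * q, by linear_combination -h0⟩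
    have d3 : q ∣ q' := by
      have d4 : q ∣ b * q' := by exact_mod_cast d1
      exact hbc.symm.dvd_of_dvd_mul_left d4
    have d5 : q' ∣ q := by
      have d4 : q' ∣ b' * q := by exact_mod_cast d2
      exact hbc'.symm.dvd_of_dvd_mul_left d4
    have e1 : q = q' := Nat.dvd_antisymm d3 d5
    subst e1
    have hqz : (q : ℤ) ≠ 0 := by exact_mod_cast (by omega : q ≠ 0)
    have e2 : (b : ℤ) - b' - n * q = 0 := by
      have e3 : (q : ℤ) * ((b : ℤ) - b' - n * q) = 0 := by linear_combination h0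
      rcases mul_eq_zero.1 e3 with h | h
      · exact absurd h hqz
      · exact h
    have e4 : n = 0 := by
      by_contra hn
      have e5 : (q : ℤ) ≤ |(b : ℤ) - b'| := by
        have e6 : (b : ℤ) - b' = n * q := by linarith
        rw [e6, abs_mul]
        have e7 : 1 ≤ |n| := Int.one_le_abs hn
        have e8 : |(q : ℤ)| = q := abs_of_nonneg (by positivity)
        rw [e8]
        nlinarith
      have e9 : |(b : ℤ) - b'| < q := by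
        rw [abs_lt]
        constructor <;> omega
      omega
    rw [e4] at e2
    have e10 : b = b' := by
      have : (b : ℤ) = b' := by linarith
      exact_mod_cast this
    exact hij (by rw [e10])
  have e1 : (b : ℝ) / q - (b' : ℝ) / q' - n =
      (((b : ℤ) * q' - b' * q - n * q * q' : ℤ) : ℝ) / (q * q') := by
    push_cast
    field_simp
  have h1 : (1 : ℝ) ≤ |(((b : ℤ) * q' - b' * q - n * q * q' : ℤ) : ℝ)| := by
    have := Int.one_le_abs hN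
    exact_mod_cast this
  show 1 / (Q : ℝ) ^ 2 ≤ |(b : ℝ) / q - (b' : ℝ) / q' - n|
  rw [e1, abs_div, abs_of_pos (by positivity : (0 : ℝ) < q * q')]
  have hqQr : (q : ℝ) ≤ Q := by exact_mod_cast hqQ
  have hqQr' : (q' : ℝ) ≤ Q := by exact_mod_cast hqQ'
  calc 1 / (Q : ℝ) ^ 2 ≤ 1 / ((q : ℝ) * q') := by
        apply one_div_le_one_div_of_le (by positivity)
        rw [pow_two]
        gcongr
    _ ≤ _ := by gcongr

private lemma Mmm_rest (Q h : ℕ) (α : ℝ) (A : Finset ((_ : ℕ) × ℕ)) (hA : A ⊆ Mmm_I Q)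
    (hQ : 1 ≤ Q) (h0 : 1 ≤ h)
    (hf : ∀ i ∈ A, 1 / (2 * (Q : ℝ) ^ 2) ≤
      |((i.2 : ℝ) / i.1 - α) - round ((i.2 : ℝ) / i.1 - α)|) :
    ‖∑ i ∈ A, KK h ((i.2 : ℝ) / i.1 - α)‖ ≤ (Q : ℝ) ^ 4 / h := by
  have hQ0 : (0 : ℝ) < Q := by exact_mod_cast hQ
  have hh0 : (0 : ℝ) < h := by exact_mod_cast h0
  have h1 : ∀ i ∈ A, ‖KK h ((i.2 : ℝ) / i.1 - α)‖ ≤ (Q : ℝ) ^ 2 / h := by
    intro i hi
    refine (Mmm_KK_far h _ (1 / (2 * (Q : ℝ) ^ 2)) h0 (by positivity) (hf i hi)).trans ?_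
    apply le_of_eq
    field_simp
  refine (norm_sum_le _ _).trans ?_
  refine (sum_le_card_nsmul _ _ _ h1).trans ?_
  rw [nsmul_eq_mul]
  have h2 : (A.card : ℝ) ≤ (Q : ℝ) ^ 2 := by
    refine le_trans ?_ (Mmm_card Q)
    exact_mod_cast card_le_card hA
  calc (A.card : ℝ) * ((Q : ℝ) ^ 2 / h) ≤ (Q : ℝ) ^ 2 * ((Q : ℝ) ^ 2 / h) := by gcongr
    _ = (Q : ℝ) ^ 4 / h := by ring

private lemma Mmm_one (Q h q : ℕ) (r : ℤ) (α : ℝ) (h0 : 1 ≤ h) (hq : 1 ≤ q) (hqQ : q ≤ Q)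
    (hc : IsCoprime r (q : ℤ)) (hα : |α - (r : ℝ) / q| ≤ 1 / (2 * (Q : ℝ) ^ 2)) :
    ‖1 - mm Q h α‖ ≤ 7 * h * |α - (r : ℝ) / q| + (Q : ℝ) ^ 4 / h := by
  have hQ : 1 ≤ Q := hq.trans hqQ
  have hq0 : (0 : ℝ) < q := by exact_mod_cast hq
  have hqz : (0 : ℤ) < q := by exact_mod_cast hq
  have hQ0 : (0 : ℝ) < Q := by exact_mod_cast hQ
  obtain ⟨b, hb⟩ : ∃ b : ℕ, (b : ℤ) = r % q := Int.eq_ofNat_of_zero_le (Int.emod_nonneg r hqz.ne') |>.imp fun _ h => h.symm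
  have hbq : b < q := by
    have := Int.emod_lt_of_pos r hqz
    rw [← hb] at this
    exact_mod_cast this
  set k : ℤ := r / q with hk
  have hrk : r = b + q * k := by
    rw [hb, hk]
    exact (Int.emod_add_mul_ediv r q).symm
  have hbc : b.Coprime q := by
    rw [← Nat.isCoprime_iff_coprime]
    obtain ⟨u, v, huv⟩ := hc
    refine ⟨u, v + u * k, ?_⟩
    rw [← huv, hrk]
    ring
  have hmem : (⟨q, b⟩ : (_ : ℕ) × ℕ) ∈ Mmm_I Q := by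
    unfold Mmm_I
    simp only [mem_sigma, mem_Icc, mem_filter, mem_range]
    exact ⟨⟨hq, hqQ⟩, hbq, hbc⟩
  have hfrac : (r : ℝ) / q = (b : ℝ) / q + k := by
    have : (r : ℝ) = b + q * k := by exact_mod_cast hrk
    rw [this]
    field_simp
  rw [Mmm_mm, ← add_sum_erase _ _ hmem]
  have e1 : ∀ z w : ℂ, (1 : ℂ) - (z + w) = -((z - 1) + w) := fun z w => by ring
  rw [e1, norm_neg]
  refine (norm_add_le _ _).trans ?_
  have p1 : ‖KK h (((⟨q, b⟩ : (_ : ℕ) × ℕ).2 : ℝ) / ((⟨q, b⟩ : (_ : ℕ) × ℕ).1 : ℝ) - α) - 1‖ ≤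
      7 * h * |α - (r : ℝ) / q| := by
    show ‖KK h ((b : ℝ) / q - α) - 1‖ ≤ _
    have e2 : (b : ℝ) / q - α = ((r : ℝ) / q - α) + ((-k : ℤ) : ℝ) := by
      rw [hfrac]; push_cast; ring
    rw [e2, Mmm_KK_int, abs_sub_comm α]
    exact Mmm_KK_one h _ h0
  have p2 := Mmm_rest Q h α ((Mmm_I Q).erase ⟨q, b⟩) (erase_subset _ _) hQ h0 (by
    intro i hi
    have hne : i ≠ ⟨q, b⟩ := ne_of_mem_erase hi
    have hs := Mmm_sep Q i ⟨q, b⟩ (mem_of_mem_erase hi) hmem hne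
      (round ((i.2 : ℝ) / i.1 - α) + k)
    simp only at hs
    have e3 : (i.2 : ℝ) / i.1 - (b : ℝ) / q - ((round ((i.2 : ℝ) / i.1 - α) + k : ℤ) : ℝ) =
        (((i.2 : ℝ) / i.1 - α) - round ((i.2 : ℝ) / i.1 - α)) + (α - (r : ℝ) / q) := by
      rw [hfrac]; push_cast; ring
    rw [e3] at hs
    have h3 := (abs_add_le (((i.2 : ℝ) / i.1 - α) - round ((i.2 : ℝ) / i.1 - α)) (α - (r : ℝ) / q))
    have h4 : 1 / (Q : ℝ) ^ 2 = 1 / (2 * (Q : ℝ) ^ 2) + 1 / (2 * (Q : ℝ) ^ 2) := by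
      field_simp; norm_num
    linarith)
  exact add_le_add p1 p2

private lemma Mmm_two (Q h : ℕ) (α : ℝ) (hQ : 1 ≤ Q) (hh : 4 * Q ^ 4 ≤ h) :
    ‖1 - mm Q h α‖ ≤ 3 := by
  have hQ0 : (0 : ℝ) < Q := by exact_mod_cast hQ
  have h0 : 1 ≤ h := by
    have : 1 ≤ Q ^ 4 := Nat.one_le_pow _ _ hQ
    omega
  have hh0 : (0 : ℝ) < h := by exact_mod_cast h0
  have hq4 : (Q : ℝ) ^ 4 / h ≤ 1 / 4 := by
    rw [div_le_div_iff₀ hh0 (by norm_num)]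
    have : (4 : ℝ) * (Q : ℝ) ^ 4 ≤ h := by exact_mod_cast hh
    linarith
  rw [Mmm_mm]
  by_cases hex : ∃ j ∈ Mmm_I Q,
      |((j.2 : ℝ) / j.1 - α) - round ((j.2 : ℝ) / j.1 - α)| < 1 / (2 * (Q : ℝ) ^ 2)
  · obtain ⟨j, hj, hjn⟩ := hex
    rw [← add_sum_erase _ _ hj]
    have p2 := Mmm_rest Q h α ((Mmm_I Q).erase j) (erase_subset _ _) hQ h0 (by
      intro i hi
      have hne : i ≠ j := ne_of_mem_erase hi
      have hs := Mmm_sep Q i j (mem_of_mem_erase hi) hj hne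
        (round ((i.2 : ℝ) / i.1 - α) - round ((j.2 : ℝ) / j.1 - α))
      have e3 : (i.2 : ℝ) / i.1 - (j.2 : ℝ) / j.1 -
          ((round ((i.2 : ℝ) / i.1 - α) - round ((j.2 : ℝ) / j.1 - α) : ℤ) : ℝ) =
          (((i.2 : ℝ) / i.1 - α) - round ((i.2 : ℝ) / i.1 - α)) -
          (((j.2 : ℝ) / j.1 - α) - round ((j.2 : ℝ) / j.1 - α)) := by
        push_cast; ring
      rw [e3] at hs
      have h3 := abs_sub (((i.2 : ℝ) / i.1 - α) - round ((i.2 : ℝ) / i.1 - α))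
        (((j.2 : ℝ) / j.1 - α) - round ((j.2 : ℝ) / j.1 - α))
      have h4 : 1 / (Q : ℝ) ^ 2 = 1 / (2 * (Q : ℝ) ^ 2) + 1 / (2 * (Q : ℝ) ^ 2) := by
        field_simp; norm_num
      linarith)
    have p1 := Mmm_KK_le h ((j.2 : ℝ) / j.1 - α)
    have p3 : ‖(1 : ℂ)‖ = 1 := by simp
    calc _ ≤ ‖(1 : ℂ)‖ + ‖KK h ((j.2 : ℝ) / j.1 - α) +
          ∑ i ∈ (Mmm_I Q).erase j, KK h ((i.2 : ℝ) / i.1 - α)‖ := norm_sub_le _ _
      _ ≤ ‖(1 : ℂ)‖ + (‖KK h ((j.2 : ℝ) / j.1 - α)‖ +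
          ‖∑ i ∈ (Mmm_I Q).erase j, KK h ((i.2 : ℝ) / i.1 - α)‖) := by
          gcongr
          exact norm_add_le _ _
      _ ≤ 3 := by rw [p3]; linarith
  · push Not at hex
    have p2 := Mmm_rest Q h α (Mmm_I Q) (subset_refl _) hQ h0 hex
    have p3 : ‖(1 : ℂ)‖ = 1 := by simp
    refine (norm_sub_le _ _).trans ?_
    rw [p3]
    linarith

theorem tMmm : MmmStmt :=
  ⟨fun Q h q r α h0 hq hqQ hc hα => Mmm_one Q h q r α h0 hq hqQ hc hα,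
    fun Q h α hQ hh => Mmm_two Q h α hQ hh⟩

end Pool.Agent.Lib.TR
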