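import Pool.Agent.Lib.TR.SpecM

set_option autoImplicit false

namespace Pool.Agent.Lib.TR

open Finset Pool.Agent.Lib.EH3 Pool.Agent.Results.MP_00e23e_nt

private lemma Msh_consec (f : ℤ → ℂ) (a b c : ℤ) (h1 : a ≤ b) (h2 : b ≤ c) :
    ∑ x ∈ Ico a b, f x + ∑ x ∈ Ico b c, f x = ∑ x ∈ Ico a c, f x := by
  rw [← Finset.Ico_union_Ico_eq_Ico h1 h2,
    Finset.sum_union (Finset.Ico_disjoint_Ico_consecutive a b c)]

/-- difference of the sums over two intervals -/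
private lemma Msh_diff (f : ℤ → ℂ) (A s H : ℤ) (hs : 0 ≤ s) (hH : 0 ≤ H) :
    ∑ x ∈ Ico (A + s) (A + H + s), f x - ∑ x ∈ Ico A (A + H), f x =
      ∑ x ∈ Ico (A + H) (A + H + s), f x - ∑ x ∈ Ico A (A + s), f x := by
  have e1 := Msh_consec f A (A + s) (A + H + s) (by linarith) (by linarith)
  have e2 := Msh_consec f A (A + H) (A + H + s) (by linarith) (by linarith)
  linear_combination e1 - e2

/-- shifting the summation over e -/
private lemma Msh_shift (g : ℤ → ℂ) (M E t : ℤ) (ht : 0 ≤ t) (hE : M + t ≤ E)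
    (hg : ∀ e, M < |e| → g e = 0) :
    ∑ e ∈ Icc (-E) E, g (e + t) = ∑ e ∈ Icc (-E) E, g e := by
  have h1 : ∑ e ∈ Icc (-E) E, g (e + t) = ∑ e ∈ Icc (-E + t) (E + t), g e := by
    rw [← Finset.map_add_right_Icc, Finset.sum_map]
    rfl
  rw [h1]
  have h2 : ∑ e ∈ Icc (-M) M, g e = ∑ e ∈ Icc (-E + t) (E + t), g e := by
    apply Finset.sum_subset
    · intro e he
      rw [Finset.mem_Icc] at he ⊢
      constructor <;> linarith [he.1, he.2]
    · intro e _ he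
      apply hg
      by_contra hc
      push Not at hc
      exact he (Finset.mem_Icc.2 (abs_le.1 hc))
  have h3 : ∑ e ∈ Icc (-M) M, g e = ∑ e ∈ Icc (-E) E, g e := by
    apply Finset.sum_subset
    · intro e he
      rw [Finset.mem_Icc] at he ⊢
      constructor <;> linarith [he.1, he.2]
    · intro e _ he
      apply hg
      by_contra hc
      push Not at hc
      exact he (Finset.mem_Icc.2 (abs_le.1 hc))
  rw [← h2, h3]

private lemma Msh_prod (z w : ℂ) : ‖z * (starRingEnd ℂ) w‖ ≤ (‖z‖ ^ 2 + ‖w‖ ^ 2) / 2 := by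
  rw [norm_mul, Complex.norm_conj]
  nlinarith [sq_nonneg (‖z‖ - ‖w‖)]

/-- the bound for one interval -/
private lemma Msh_abs (h1 : MctStmt) (F : ℤ → ℂ) (K E p p' len : ℕ) (B c : ℤ) (hp : 1 ≤ p)
    (hp' : 1 ≤ p') (hF : ∀ n : ℤ, (K : ℤ) < |n| → F n = 0) :
    ‖∑ a ∈ Ico B (B + len), ∑ e ∈ Icc (-(E : ℤ)) E,
      F (a + p * e) * (starRingEnd ℂ) (F (a + p' * e + c))‖ ≤
      ((((len : ℝ) / p + 1) + ((len : ℝ) / p' + 1)) / 2) * sq K F := by
  have hG0 : ∀ n : ℤ, 0 ≤ ‖F n‖ ^ 2 := fun n => by positivity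
  have hG1 : ∀ n : ℤ, (K : ℤ) < |n| → ‖F n‖ ^ 2 = 0 := fun n hn => by
    rw [hF n hn]; simp
  have m1 := h1 (fun n => ‖F n‖ ^ 2) K E p len B hp hG0 hG1
  have m2 := h1 (fun n => ‖F n‖ ^ 2) K E p' len (B + c) hp' hG0 hG1
  have e2 : ∑ a ∈ Ico B (B + len), ∑ e ∈ Icc (-(E : ℤ)) E, ‖F (a + p' * e + c)‖ ^ 2 =
      ∑ a ∈ Ico (B + c) (B + c + len), ∑ e ∈ Icc (-(E : ℤ)) E, ‖F (a + p' * e)‖ ^ 2 := by
    have h := Finset.sum_Ico_add' (fun a : ℤ => ∑ e ∈ Icc (-(E : ℤ)) E, ‖F (a + p' * e)‖ ^ 2)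
      B (B + len) c
    have h' : B + c + (len : ℤ) = B + len + c := by ring
    rw [h', ← h]
    refine Finset.sum_congr rfl fun a _ => Finset.sum_congr rfl fun e _ => ?_
    rw [show a + (p' : ℤ) * e + c = a + c + p' * e by ring]
  calc ‖∑ a ∈ Ico B (B + len), ∑ e ∈ Icc (-(E : ℤ)) E,
      F (a + p * e) * (starRingEnd ℂ) (F (a + p' * e + c))‖
      ≤ ∑ a ∈ Ico B (B + len), ‖∑ e ∈ Icc (-(E : ℤ)) E,
      F (a + p * e) * (starRingEnd ℂ) (F (a + p' * e + c))‖ := norm_sum_le _ _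
    _ ≤ ∑ a ∈ Ico B (B + len), ∑ e ∈ Icc (-(E : ℤ)) E,
        (‖F (a + p * e)‖ ^ 2 + ‖F (a + p' * e + c)‖ ^ 2) / 2 := by
        refine Finset.sum_le_sum fun a _ => ?_
        refine (norm_sum_le _ _).trans (Finset.sum_le_sum fun e _ => ?_)
        exact Msh_prod _ _
    _ = (∑ a ∈ Ico B (B + len), ∑ e ∈ Icc (-(E : ℤ)) E, ‖F (a + p * e)‖ ^ 2 +
        ∑ a ∈ Ico B (B + len), ∑ e ∈ Icc (-(E : ℤ)) E, ‖F (a + p' * e + c)‖ ^ 2) / 2 := by
        rw [← Finset.sum_add_distrib, Finset.sum_div]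
        refine Finset.sum_congr rfl fun a _ => ?_
        rw [← Finset.sum_add_distrib, Finset.sum_div]
    _ ≤ _ := by
        rw [e2]
        unfold sq
        have := add_le_add m1 m2
        linarith

/-- one shift -/
private lemma Msh_one (h1 : MctStmt) (F : ℤ → ℂ) (K E H P L0 p p' t : ℕ) (A0 : ℤ) (hP : 1 ≤ P)
    (hpP : P < p) (hp2 : p ≤ 2 * P) (hpP' : P < p')
    (hF : ∀ n : ℤ, (K : ℤ) < |n| → F n = 0)
    (hE : (K : ℤ) + |A0| + H + 2 * P * L0 + L0 + 2 ≤ E) (ht : t < L0) :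
    ‖∑ a ∈ Ico A0 (A0 + H), ∑ e ∈ Icc (-(E : ℤ)) E, F (a + p * e) * (starRingEnd ℂ) (F (a + p' * e)) -
    ∑ a ∈ Ico A0 (A0 + H), ∑ e ∈ Icc (-(E : ℤ)) E,
      F (a + p * e) * (starRingEnd ℂ) (F (a + p' * e + ((p' : ℤ) - p) * t))‖ ≤ 3 * L0 * sq K F := by
  set Φ : ℤ → ℂ := fun a => ∑ e ∈ Icc (-(E : ℤ)) E,
      F (a + p * e) * (starRingEnd ℂ) (F (a + p' * e + ((p' : ℤ) - p) * t)) with hΦ
  have hp1 : 1 ≤ p := by omega
  have hp1' : 1 ≤ p' := by omega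
  have hPL : (0 : ℤ) ≤ 2 * P * L0 := by positivity
  have ht' : (t : ℤ) < L0 := by exact_mod_cast ht
  have key : ∑ a ∈ Ico A0 (A0 + H), ∑ e ∈ Icc (-(E : ℤ)) E,
      F (a + p * e) * (starRingEnd ℂ) (F (a + p' * e)) =
      ∑ a ∈ Ico (A0 + (p * t : ℕ)) (A0 + H + (p * t : ℕ)), Φ a := by
    rw [← Finset.sum_Ico_add' Φ A0 (A0 + H) ((p * t : ℕ) : ℤ)]
    refine Finset.sum_congr rfl fun a ha => ?_
    rw [Finset.mem_Ico] at ha
    have haA : |a| ≤ |A0| + H := by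
      rw [abs_le]
      constructor
      · have := neg_abs_le A0
        have hH : (0 : ℤ) ≤ H := by positivity
        linarith [ha.1]
      · have := le_abs_self A0
        linarith [ha.2]
    have hs := Msh_shift (fun e => F (a + p * e) * (starRingEnd ℂ) (F (a + p' * e)))
      ((K : ℤ) + |A0| + H) E t (by positivity) (by linarith) (by
        intro e he
        have : (K : ℤ) < |a + p * e| := by
          have h2 : |(p : ℤ) * e| ≤ |a + p * e| + |a| := by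
            have := abs_sub_abs_le_abs_sub ((p : ℤ) * e) (-a)
            rw [abs_neg, sub_neg_eq_add, add_comm ((p : ℤ) * e) a] at this
            linarith
          have h3 : |e| ≤ |(p : ℤ) * e| := by
            rw [abs_mul]
            have : (1 : ℤ) ≤ |(p : ℤ)| := by
              rw [abs_of_nonneg (by positivity)]; exact_mod_cast hp1
            nlinarith [abs_nonneg e]
          linarith
        simp only [hF _ this, zero_mul])
    rw [← hs, hΦ]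
    refine Finset.sum_congr rfl fun e _ => ?_
    push_cast
    rw [show a + (p : ℤ) * t + p * e = a + p * (e + t) by ring,
      show a + (p : ℤ) * t + p' * e + (p' - p) * t = a + p' * (e + t) by ring]
  rw [key, Msh_diff Φ A0 ((p * t : ℕ) : ℤ) H (by positivity) (by positivity)]
  have b1 := Msh_abs h1 F K E p p' (p * t) (A0 + H) (((p' : ℤ) - p) * t) hp1 hp1' hF
  have b2 := Msh_abs h1 F K E p p' (p * t) A0 (((p' : ℤ) - p) * t) hp1 hp1' hF
  have hsq : 0 ≤ sq K F := by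
    unfold sq
    exact Finset.sum_nonneg fun n _ => by positivity
  have c1 : (((((p * t : ℕ) : ℝ) / p + 1) + (((p * t : ℕ) : ℝ) / p' + 1)) / 2) ≤ 3 / 2 * L0 := by
    have hpR : (0 : ℝ) < p := by exact_mod_cast hp1
    have hpR' : (0 : ℝ) < p' := by exact_mod_cast hp1'
    have d1 : ((p * t : ℕ) : ℝ) / p = t := by
      push_cast
      field_simp
    have d2 : ((p * t : ℕ) : ℝ) / p' ≤ 2 * t := by
      rw [div_le_iff₀ hpR']
      push_cast
      have : (p : ℝ) ≤ 2 * p' := by exact_mod_cast (by omega : p ≤ 2 * p')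
      have ht0 : (0 : ℝ) ≤ t := by positivity
      nlinarith
    have d3 : (t : ℝ) + 1 ≤ L0 := by exact_mod_cast ht
    rw [d1]
    linarith
  have c2 := mul_le_mul_of_nonneg_right c1 hsq
  calc ‖∑ x ∈ Ico (A0 + H) (A0 + H + (p * t : ℕ)), Φ x - ∑ x ∈ Ico A0 (A0 + (p * t : ℕ)), Φ x‖
      ≤ ‖∑ x ∈ Ico (A0 + H) (A0 + H + (p * t : ℕ)), Φ x‖ + ‖∑ x ∈ Ico A0 (A0 + (p * t : ℕ)), Φ x‖ :=
        norm_sub_le _ _
    _ ≤ 3 / 2 * L0 * sq K F + 3 / 2 * L0 * sq K F := add_le_add (b1.trans c2) (b2.trans c2)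
    _ = 3 * L0 * sq K F := by ring

theorem tMsh (h1 : MctStmt) : MshStmt := by
  intro F K E H P L0 p p' A0 hP hL0 hpP hp2 hpP' hp2' hF hE
  have hL : (0 : ℝ) < L0 := by exact_mod_cast hL0
  have hLc : (L0 : ℂ) ≠ 0 := by exact_mod_cast (by omega : L0 ≠ 0)
  set T0 : ℂ := ∑ a ∈ Ico A0 (A0 + H), ∑ e ∈ Icc (-(E : ℤ)) E,
    F (a + p * e) * (starRingEnd ℂ) (F (a + p' * e)) with hT0
  set T : ℕ → ℂ := fun t => ∑ a ∈ Ico A0 (A0 + H), ∑ e ∈ Icc (-(E : ℤ)) E,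
      F (a + p * e) * (starRingEnd ℂ) (F (a + p' * e + ((p' : ℤ) - p) * t)) with hT
  have e1 : ∑ a ∈ Ico A0 (A0 + H), ∑ e ∈ Icc (-(E : ℤ)) E,
      F (a + p * e) * (starRingEnd ℂ) (Aw L0 ((p' : ℤ) - p) F (a + p' * e)) =
      (1 / (L0 : ℂ)) * ∑ t ∈ range L0, T t := by
    have : ∀ a e : ℤ, F (a + p * e) * (starRingEnd ℂ) (Aw L0 ((p' : ℤ) - p) F (a + p' * e)) =
        (1 / (L0 : ℂ)) * ∑ t ∈ range L0,
          F (a + p * e) * (starRingEnd ℂ) (F (a + p' * e + ((p' : ℤ) - p) * t)) := by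
      intro a e
      unfold Aw
      rw [map_mul, map_sum, map_div₀, map_one, Complex.conj_natCast, Finset.mul_sum,
        Finset.mul_sum, Finset.mul_sum]
      refine Finset.sum_congr rfl fun t _ => ?_
      ring
    calc ∑ a ∈ Ico A0 (A0 + H), ∑ e ∈ Icc (-(E : ℤ)) E,
        F (a + p * e) * (starRingEnd ℂ) (Aw L0 ((p' : ℤ) - p) F (a + p' * e))
        = ∑ a ∈ Ico A0 (A0 + H), ∑ e ∈ Icc (-(E : ℤ)) E, (1 / (L0 : ℂ)) * ∑ t ∈ range L0,
          F (a + p * e) * (starRingEnd ℂ) (F (a + p' * e + ((p' : ℤ) - p) * t)) :=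
          Finset.sum_congr rfl fun a _ => Finset.sum_congr rfl fun e _ => this a e
      _ = (1 / (L0 : ℂ)) * ∑ a ∈ Ico A0 (A0 + H), ∑ e ∈ Icc (-(E : ℤ)) E, ∑ t ∈ range L0,
          F (a + p * e) * (starRingEnd ℂ) (F (a + p' * e + ((p' : ℤ) - p) * t)) := by
          simp only [Finset.mul_sum]
      _ = (1 / (L0 : ℂ)) * ∑ t ∈ range L0, T t := by
          congr 1
          symm
          rw [hT, Finset.sum_comm]
          exact Finset.sum_congr rfl fun a _ => Finset.sum_comm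
  rw [e1]
  have e2 : T0 - (1 / (L0 : ℂ)) * ∑ t ∈ range L0, T t =
      (1 / (L0 : ℂ)) * ∑ t ∈ range L0, (T0 - T t) := by
    rw [Finset.sum_sub_distrib, Finset.sum_const, Finset.card_range, nsmul_eq_mul]
    field_simp
  rw [e2, norm_mul]
  have hsq : 0 ≤ sq K F := by
    unfold sq
    exact Finset.sum_nonneg fun n _ => by positivity
  have e3 : ‖∑ t ∈ range L0, (T0 - T t)‖ ≤ L0 * (3 * L0 * sq K F) := by
    refine (norm_sum_le _ _).trans ?_
    refine (Finset.sum_le_card_nsmul _ _ (3 * L0 * sq K F) fun t ht => ?_).trans ?_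
    · exact Msh_one h1 F K E H P L0 p p' t A0 hP hpP hp2 hpP' hF hE (Finset.mem_range.1 ht)
    · rw [Finset.card_range, nsmul_eq_mul]
  have e4 : ‖(1 / (L0 : ℂ))‖ = 1 / L0 := by
    rw [norm_div, norm_one, Complex.norm_natCast]
  rw [e4]
  calc 1 / (L0 : ℝ) * ‖∑ t ∈ range L0, (T0 - T t)‖ ≤ 1 / (L0 : ℝ) * (L0 * (3 * L0 * sq K F)) := by
        exact mul_le_mul_of_nonneg_left e3 (by positivity)
    _ = 3 * L0 * sq K F := by field_simp
    _ ≤ 10 * L0 * sq K F := by nlinarith [mul_nonneg hL.le hsq]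

end Pool.Agent.Lib.TR
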