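import Pool.Agent.Lib.TR.SpecM

/-!
MP_00e23e_nt, directory Lib/TR, module Msu: the supremum over the frequency in the minor arcs argument.
-/

set_option autoImplicit false

namespace Pool.Agent.Lib.TR

open Finset Pool.Agent.Lib.EH3 Pool.Agent.Results.MP_00e23e_nt

private lemma Msu_KK {L0 : ℕ} (hL : 1 ≤ L0) (β : ℝ) : ‖KK L0 β‖ ≤ 1 := by
  have hL0 : (0 : ℝ) < L0 := by exact_mod_cast hL
  have h1 : KK L0 β = (1 / (L0 : ℂ)) * GG L0 β := rfl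
  rw [h1, norm_mul, norm_div, norm_one, Complex.norm_natCast]
  calc 1 / (L0 : ℝ) * ‖GG L0 β‖ ≤ 1 / (L0 : ℝ) * L0 :=
        mul_le_mul_of_nonneg_left (norm_GG_le L0 β) (by positivity)
    _ = 1 := by field_simp

/-- The trivial bound of the sum over `w`. -/
private lemma Msu_triv {P L0 : ℕ} (hP : 1 ≤ P) (hL : 1 ≤ L0) (α : ℝ) :
    ∑ w ∈ Ioo (-(P : ℤ)) P, ‖KK L0 ((w : ℝ) * α)‖ ^ 2 ≤ 2 * P := by
  have h1 : ∀ w ∈ Ioo (-(P : ℤ)) P, ‖KK L0 ((w : ℝ) * α)‖ ^ 2 ≤ 1 := by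
    intro w _
    have := Msu_KK hL ((w : ℝ) * α)
    exact pow_le_one₀ (norm_nonneg _) this
  have h2 := sum_le_sum h1
  rw [sum_const, nsmul_eq_mul, mul_one, Int.card_Ioo] at h2
  refine h2.trans ?_
  have h3 : ((P : ℤ) - -(P : ℤ) - 1).toNat ≤ 2 * P := by omega
  exact_mod_cast h3

theorem tMsu (h1 : MklStmt) (h2 : MksStmt) (h3 : MmmStmt) : MsuStmt := by
  intro P L0 Q h δ α hP hL hQ hh hδ hδQ
  have hP0 : (0 : ℝ) < P := by exact_mod_cast hP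
  have hL0 : (0 : ℝ) < L0 := by exact_mod_cast hL
  have hQ0 : (0 : ℝ) < Q := by exact_mod_cast hQ
  have hh1 : 1 ≤ h := by
    have : 1 ≤ Q ^ 4 := Nat.one_le_pow _ _ hQ
    omega
  have hh0 : (0 : ℝ) < h := by exact_mod_cast hh1
  obtain ⟨y, hy1, hy2⟩ := Real.exists_rat_abs_sub_le_and_den_le α (n := 2 * P) (by omega)
  have hden : 1 ≤ y.den := y.pos
  have hcop : IsCoprime y.num (y.den : ℤ) := by
    rw [Int.isCoprime_iff_gcd_eq_one]
    have := y.reduced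
    unfold Nat.Coprime at this
    rw [Int.gcd_eq_natAbs, Int.natAbs_natCast]
    exact this
  have hyc : (y : ℝ) = (y.num : ℝ) / (y.den : ℝ) := by
    exact_mod_cast (Rat.num_div_den y).symm
  obtain ⟨r, hr⟩ : ∃ r, r = y.num := ⟨_, rfl⟩
  obtain ⟨q, hq⟩ : ∃ q, q = y.den := ⟨_, rfl⟩
  rw [hyc] at hy1
  rw [← hr, ← hq] at hy1 hcop
  rw [← hq] at hy2 hden
  have hq0 : (0 : ℝ) < q := by exact_mod_cast hden
  have hd : |α - (r : ℝ) / q| ≤ 1 / (2 * P * q) := by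
    refine hy1.trans ?_
    push_cast
    refine one_div_le_one_div_of_le (by positivity) ?_
    exact mul_le_mul_of_nonneg_right (by linarith) hq0.le
  have hS0 : 0 ≤ ∑ w ∈ Ioo (-(P : ℤ)) P, ‖KK L0 ((w : ℝ) * α)‖ ^ 2 :=
    sum_nonneg fun _ _ => by positivity
  obtain ⟨S, hS⟩ : ∃ S, S = ∑ w ∈ Ioo (-(P : ℤ)) P, ‖KK L0 ((w : ℝ) * α)‖ ^ 2 := ⟨_, rfl⟩
  have hm : ‖1 - mm Q h α‖ ^ 2 ≤ 9 := by
    have h4 := h3.2 Q h α hQ hh
    have h5 := pow_le_pow_left₀ (norm_nonneg _) h4 2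
    norm_num at h5
    exact h5
  have hm0 : 0 ≤ ‖1 - mm Q h α‖ ^ 2 := by positivity
  have hpos1 : 0 ≤ 2 * (P : ℝ) * (7 * h * δ + (Q : ℝ) ^ 4 / h) ^ 2 := by positivity
  rw [← hS] at hS0
  rw [← hS]
  rcases Nat.lt_or_ge Q q with hqQ | hqQ
  · -- large denominators
    have h4 := h1 P L0 q r α hP hL hden hy2 hcop hd
    rw [← hS] at h4
    have h5 : (P : ℝ) / q ≤ P / Q :=
      div_le_div_of_nonneg_left hP0.le hQ0 (by exact_mod_cast hqQ.le)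
    have h6 : (q : ℝ) / L0 ≤ 2 * P / L0 :=
      div_le_div_of_nonneg_right (by exact_mod_cast hy2) hL0.le
    have h7 : ((P : ℝ) / q + 1) * (1 + (q : ℝ) / L0) = P / q + P / L0 + 1 + q / L0 := by
      field_simp
      ring
    rw [h7] at h4
    have h8 : 2 * (P : ℝ) / L0 = 2 * (P / L0) := by ring
    have h9 : 0 ≤ (P : ℝ) / L0 := by positivity
    have h10 : 0 ≤ (P : ℝ) / Q := by positivity
    have h11 : 0 ≤ (P : ℝ) * ((Q : ℝ) / L0) ^ 2 := by positivity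
    have h12 : 0 ≤ 1 / ((L0 : ℝ) * δ) := by positivity
    calc ‖1 - mm Q h α‖ ^ 2 * S ≤ 9 * (100 * (P / q + P / L0 + 1 + q / L0)) :=
          mul_le_mul hm h4 hS0 (by norm_num)
      _ ≤ 3000 * ((P : ℝ) / Q + P / L0 + 1 + P * ((Q : ℝ) / L0) ^ 2 + 1 / (L0 * δ)) +
          2 * P * (7 * h * δ + (Q : ℝ) ^ 4 / h) ^ 2 := by linarith
  · rcases lt_or_ge δ |α - (r : ℝ) / q| with hδα | hδα
    · -- small denominators, away from the centre
      have h4 := h2 P L0 q r α δ hP hL hden hcop hδ hd hδα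
      rw [← hS] at h4
      have h5 : 2 * (P : ℝ) * ((q : ℝ) / L0) ^ 2 ≤ 2 * P * ((Q : ℝ) / L0) ^ 2 := by
        refine mul_le_mul_of_nonneg_left ?_ (by positivity)
        refine pow_le_pow_left₀ (by positivity) ?_ 2
        exact div_le_div_of_nonneg_right (by exact_mod_cast hqQ) hL0.le
      have h9 : 0 ≤ (P : ℝ) / L0 := by positivity
      have h10 : 0 ≤ (P : ℝ) / Q := by positivity
      have h11 : 0 ≤ (P : ℝ) * ((Q : ℝ) / L0) ^ 2 := by positivity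
      have h12 : 0 ≤ 1 / ((L0 : ℝ) * δ) := by positivity
      have h13 : 2 * (P : ℝ) * ((Q : ℝ) / L0) ^ 2 = 2 * (P * ((Q : ℝ) / L0) ^ 2) := by ring
      calc ‖1 - mm Q h α‖ ^ 2 * S ≤ 9 * (2 * P * ((q : ℝ) / L0) ^ 2 + 10 * (1 + 1 / ((L0 : ℝ) * δ))) :=
            mul_le_mul hm h4 hS0 (by norm_num)
        _ ≤ 3000 * ((P : ℝ) / Q + P / L0 + 1 + P * ((Q : ℝ) / L0) ^ 2 + 1 / (L0 * δ)) +
            2 * P * (7 * h * δ + (Q : ℝ) ^ 4 / h) ^ 2 := by linarith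
    · -- near the centre
      have h4 := h3.1 Q h q r α hh1 hden hqQ hcop (hδα.trans hδQ)
      have h5 : 7 * (h : ℝ) * |α - (r : ℝ) / q| ≤ 7 * h * δ :=
        mul_le_mul_of_nonneg_left hδα (by positivity)
      have h6 : ‖1 - mm Q h α‖ ≤ 7 * h * δ + (Q : ℝ) ^ 4 / h := by linarith
      have h7 := pow_le_pow_left₀ (norm_nonneg _) h6 2
      have h8 := Msu_triv hP hL α
      rw [← hS] at h8
      have h9 : 0 ≤ 3000 * ((P : ℝ) / Q + P / L0 + 1 + P * ((Q : ℝ) / L0) ^ 2 + 1 / (L0 * δ)) := by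
        positivity
      calc ‖1 - mm Q h α‖ ^ 2 * S ≤ (7 * h * δ + (Q : ℝ) ^ 4 / h) ^ 2 * (2 * P) :=
            mul_le_mul h7 h8 hS0 (by positivity)
        _ = 2 * P * (7 * h * δ + (Q : ℝ) ^ 4 / h) ^ 2 := by ring
        _ ≤ _ := by linarith

end Pool.Agent.Lib.TR
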