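import Pool.Agent.Lib.TR.SpecN

/-!
MP_00e23e_nt, directory Lib/TR, module Nab: Abel summation with the increments of li (statement in SpecN.lean). Written by
helper63 as a backup.
-/

set_option autoImplicit false

namespace Pool.Agent.Lib.TR

open Finset Pool.Agent.Lib.EH3 Pool.Agent.Results.MP_00e23e_nt

/-- the last term of a sum over `[1, m + 1]` -/
private theorem Nab_succ (f : ℤ → ℝ) (m : ℕ) :
    ∑ n ∈ Icc (1 : ℤ) ((m + 1 : ℕ) : ℤ), f n = ∑ n ∈ Icc (1 : ℤ) (m : ℤ), f n + f ((m + 1 : ℕ) : ℤ) := by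
  have e : Icc (1 : ℤ) ((m + 1 : ℕ) : ℤ) = insert ((m + 1 : ℕ) : ℤ) (Icc (1 : ℤ) (m : ℤ)) := by
    ext n
    simp only [mem_Icc, mem_insert]
    push_cast
    omega
  rw [e, sum_insert, add_comm]
  simp only [mem_Icc, not_and, not_le]
  intro _
  push_cast
  omega

/-- Abel summation -/
private theorem Nab_abel (g v : ℤ → ℝ) (E : ℝ) (M : ℕ) (hE : 0 ≤ E) (hg0 : ∀ n : ℤ, 0 ≤ g n) (hg : ∀ n : ℤ, n ≤ 2 → g n = 0)
    (hd : ∀ n : ℤ, 3 ≤ n → g (n + 1) ≤ g n) (hS : ∀ m : ℕ, m ≤ M → |∑ n ∈ Icc (1 : ℤ) (m : ℤ), v n| ≤ E) :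
    |∑ n ∈ Icc (1 : ℤ) (M : ℤ), g n * v n| ≤ 2 * g 3 * E := by
  have h3 := hg0 3
  have hz : ∀ m : ℕ, m ≤ 2 → ∑ n ∈ Icc (1 : ℤ) (m : ℤ), g n * v n = 0 := by
    intro m hm
    refine sum_eq_zero fun n hn => ?_
    rw [mem_Icc] at hn
    rw [hg n (by omega), zero_mul]
  have key : ∀ m : ℕ, 3 ≤ m → m ≤ M →
      |∑ n ∈ Icc (1 : ℤ) (m : ℤ), g n * v n - g (m : ℤ) * ∑ n ∈ Icc (1 : ℤ) (m : ℤ), v n| ≤ (2 * g 3 - g (m : ℤ)) * E := by
    intro m hm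
    induction m, hm using Nat.le_induction with
    | base =>
      intro hM
      have e1 := Nab_succ (fun n => g n * v n) 2
      have e2 := Nab_succ v 2
      have e0 := hz 2 le_rfl
      have hS2 := hS 2 (by omega)
      have e3 : ((2 + 1 : ℕ) : ℤ) = ((3 : ℕ) : ℤ) := rfl
      rw [e3] at e1 e2
      rw [e1, e2, e0]
      have e4 : ((3 : ℕ) : ℤ) = 3 := rfl
      rw [e4]
      have e5 : (0 : ℝ) + g 3 * v 3 - g 3 * (∑ n ∈ Icc (1 : ℤ) ((2 : ℕ) : ℤ), v n + v 3) =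
          -(g 3 * ∑ n ∈ Icc (1 : ℤ) ((2 : ℕ) : ℤ), v n) := by ring
      rw [e5, abs_neg, abs_mul, abs_of_nonneg h3]
      calc g 3 * |∑ n ∈ Icc (1 : ℤ) ((2 : ℕ) : ℤ), v n| ≤ g 3 * E := mul_le_mul_of_nonneg_left hS2 h3
        _ = (2 * g 3 - g 3) * E := by ring
    | succ m hm ih =>
      intro hM
      have ih' := ih (by omega)
      have hSm := hS m (by omega)
      rw [Nab_succ (fun n => g n * v n) m, Nab_succ v m]
      have hdm : g ((m + 1 : ℕ) : ℤ) ≤ g (m : ℤ) := by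
        have := hd (m : ℤ) (by exact_mod_cast hm)
        push_cast
        exact this
      have e5 : ∑ n ∈ Icc (1 : ℤ) (m : ℤ), g n * v n + g ((m + 1 : ℕ) : ℤ) * v ((m + 1 : ℕ) : ℤ) -
          g ((m + 1 : ℕ) : ℤ) * (∑ n ∈ Icc (1 : ℤ) (m : ℤ), v n + v ((m + 1 : ℕ) : ℤ)) =
          (∑ n ∈ Icc (1 : ℤ) (m : ℤ), g n * v n - g (m : ℤ) * ∑ n ∈ Icc (1 : ℤ) (m : ℤ), v n) +
          (g (m : ℤ) - g ((m + 1 : ℕ) : ℤ)) * ∑ n ∈ Icc (1 : ℤ) (m : ℤ), v n := by ring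
      rw [e5]
      refine (abs_add_le _ _).trans ?_
      rw [abs_mul (g (m : ℤ) - g ((m + 1 : ℕ) : ℤ)), abs_of_nonneg (sub_nonneg.2 hdm)]
      have h6 := mul_le_mul_of_nonneg_left hSm (sub_nonneg.2 hdm)
      have e7 : (2 * g 3 - g ((m + 1 : ℕ) : ℤ)) * E =
          (2 * g 3 - g (m : ℤ)) * E + (g (m : ℤ) - g ((m + 1 : ℕ) : ℤ)) * E := by ring
      rw [e7]
      exact add_le_add ih' h6
  rcases Nat.lt_or_ge M 3 with hM | hM
  · rw [hz M (by omega), abs_zero]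
    positivity
  · have h4 := key M hM le_rfl
    have h5 := hS M le_rfl
    have h6 : |g (M : ℤ) * ∑ n ∈ Icc (1 : ℤ) (M : ℤ), v n| ≤ g (M : ℤ) * E := by
      rw [abs_mul, abs_of_nonneg (hg0 _)]
      exact mul_le_mul_of_nonneg_left h5 (hg0 _)
    have e : ∑ n ∈ Icc (1 : ℤ) (M : ℤ), g n * v n =
        (∑ n ∈ Icc (1 : ℤ) (M : ℤ), g n * v n - g (M : ℤ) * ∑ n ∈ Icc (1 : ℤ) (M : ℤ), v n) +
        g (M : ℤ) * ∑ n ∈ Icc (1 : ℤ) (M : ℤ), v n := by ring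
    rw [e]
    refine (abs_add_le _ _).trans ?_
    have e7 : 2 * g 3 * E = (2 * g 3 - g (M : ℤ)) * E + g (M : ℤ) * E := by ring
    rw [e7]
    exact add_le_add h4 h6

theorem tNab (h1 : Pool.Agent.Lib.UI.MincStmt) : NabStmt := by
  obtain ⟨c1, c2, c3, c4⟩ := h1
  intro u κ E y hκ hκ1 hE hy hS
  obtain ⟨M, hM⟩ : ∃ M : ℕ, ⌊y⌋ = (M : ℤ) := ⟨⌊y⌋.toNat, (Int.toNat_of_nonneg (Int.floor_nonneg.2 (by linarith))).symm⟩
  have hM2 : 2 ≤ M := by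
    have h : (2 : ℤ) ≤ ⌊y⌋ := Int.le_floor.2 (by exact_mod_cast hy)
    rw [hM] at h
    exact_mod_cast h
  have hMy : (M : ℝ) ≤ y := by
    have h := Int.floor_le y
    rw [hM] at h
    exact_mod_cast h
  have hab := Nab_abel Pool.Agent.Lib.UI.lci (fun n => u n - κ) E M hE (fun n => (c1 n).1)
    (fun n hn => by
      unfold Pool.Agent.Lib.UI.lci
      rw [if_neg (by omega)]) c2
    (fun m hm => by
      have h := hS m ((Nat.cast_le.2 hm).trans hMy)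
      rw [sum_sub_distrib, sum_const, Int.card_Icc, nsmul_eq_mul]
      have e : ((((m : ℤ) + 1 - 1).toNat : ℕ) : ℝ) = (m : ℝ) := by
        rw [add_sub_cancel_right, Int.toNat_natCast]
      rw [e, mul_comm (m : ℝ) κ]
      exact h)
  have e1 : ∑ n ∈ Icc (1 : ℤ) (M : ℤ), Pool.Agent.Lib.UI.lci n = li (M : ℝ) := by
    have h := c3 ((M : ℤ) + 1) (by omega)
    have e : Ico (1 : ℤ) ((M : ℤ) + 1) = Icc (1 : ℤ) (M : ℤ) := by
      ext n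
      simp only [mem_Ico, mem_Icc]
      omega
    rw [e] at h
    rw [h]
    congr 1
    push_cast
    ring
  have h4 := c4 y hy
  rw [hM] at h4 ⊢
  have e2 : ∑ n ∈ Icc (1 : ℤ) (M : ℤ), Pool.Agent.Lib.UI.lci n * u n - κ * li y =
      ∑ n ∈ Icc (1 : ℤ) (M : ℤ), Pool.Agent.Lib.UI.lci n * (u n - κ) - κ * (li y - li (M : ℝ)) := by
    have e : ∑ n ∈ Icc (1 : ℤ) (M : ℤ), Pool.Agent.Lib.UI.lci n * (u n - κ) =
        ∑ n ∈ Icc (1 : ℤ) (M : ℤ), Pool.Agent.Lib.UI.lci n * u n - κ * li (M : ℝ) := by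
      rw [← e1, mul_sum, ← sum_sub_distrib]
      exact sum_congr rfl fun n _ => by ring
    rw [e]
    ring
  rw [e2]
  have h5 : ((M : ℤ) : ℝ) = (M : ℝ) := by norm_cast
  rw [h5] at h4
  have h6 : |κ * (li y - li (M : ℝ))| ≤ 2 := by
    rw [abs_of_nonneg (mul_nonneg hκ h4.1)]
    calc κ * (li y - li (M : ℝ)) ≤ 1 * 2 := mul_le_mul hκ1 h4.2 h4.1 zero_le_one
      _ = 2 := by norm_num
  have h7 := (c1 3).2
  have h8 : 2 * Pool.Agent.Lib.UI.lci 3 * E ≤ 4 * E := mul_le_mul_of_nonneg_right (by linarith) hE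
  refine (abs_sub _ _).trans ?_
  linarith

end Pool.Agent.Lib.TR
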