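import Pool.Agent.Lib.TR.SpecN

/-!
MP_00e23e_nt, directory Lib/TR, module Nap: the main term.
-/

set_option autoImplicit false

namespace Pool.Agent.Lib.TR

open Finset Pool.Agent.Lib.EH3 Pool.Agent.Results.MP_00e23e_nt

/-- Sums over the integers of [1, N] as sums over natural numbers. -/
private theorem Nap_sum (N : ℕ) (f : ℤ → ℝ) :
    ∑ n ∈ Icc (1 : ℤ) N, f n = ∑ n ∈ Ioc 0 N, f (n : ℤ) := by
  refine Finset.sum_nbij' Int.toNat (fun n : ℕ => (n : ℤ)) ?_ ?_ ?_ ?_ ?_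
  · intro n hn
    rw [Finset.mem_Icc] at hn
    rw [Finset.mem_Ioc]
    omega
  · intro n hn
    rw [Finset.mem_Ioc] at hn
    rw [Finset.mem_Icc]
    omega
  · intro n hn
    rw [Finset.mem_Icc] at hn
    omega
  · intro n hn
    exact Int.toNat_natCast n
  · intro n hn
    rw [Finset.mem_Icc] at hn
    rw [Int.toNat_of_nonneg (by omega)]

/-- The residue class as a natural number. -/
private theorem Nap_cls (d : ℕ) (a : ℤ) (hd : 1 ≤ d) (ha : Int.gcd a d = 1) :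
    ∃ l : ℕ, l.Coprime d ∧ ∀ n : ℕ, n ≡ l [MOD d] ↔ (d : ℤ) ∣ (n : ℤ) - a := by
  have hd0 : (d : ℤ) ≠ 0 := by omega
  have hnn : 0 ≤ a % (d : ℤ) := Int.emod_nonneg a hd0
  have hl : (((a % (d : ℤ)).toNat : ℕ) : ℤ) = a % (d : ℤ) := Int.toNat_of_nonneg hnn
  refine ⟨(a % (d : ℤ)).toNat, ?_, fun n => ?_⟩
  · have h1 : Int.gcd (a % (d : ℤ)) d = 1 := by
      rw [Int.gcd_emod]
      exact ha
    rw [← hl, Int.gcd_natCast_natCast] at h1
    exact h1
  · rw [← Int.natCast_modEq_iff, hl]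
    constructor
    · intro h
      have h2 : (n : ℤ) ≡ a [ZMOD d] := h.trans (Int.mod_modEq a d)
      exact (Int.modEq_iff_dvd.1 h2.symm)
    · intro h
      have h2 : a ≡ (n : ℤ) [ZMOD d] := Int.modEq_iff_dvd.2 h
      exact h2.symm.trans (Int.mod_modEq a d).symm

/-- The numerical conditions. -/
private theorem Nap_num (ε A ζ : ℝ) (hε : 0 < ε) (hA : 0 < A) (hζ : A + 3 ≤ ζ) :
    ∃ x0 : ℝ, 3 ≤ x0 ∧ ∀ x : ℝ, x0 ≤ x → 3 ≤ Real.log x ∧
      Real.log (Real.log x) * (64 * (ζ + 1)) * (A * Real.log (Real.log x) + 2) ≤ ε * Real.log x ∧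
      1 ≤ Real.log (Real.log x) ∧
      (ζ + 1) * Real.log x ^ (A + 1) ≤ x ^ (3 * ε / 4) := by
  have hL : Filter.Tendsto Real.log Filter.atTop Filter.atTop := Real.tendsto_log_atTop
  have e1 : ∀ᶠ x : ℝ in Filter.atTop, 3 ≤ Real.log x := hL.eventually_ge_atTop 3
  have e3 : ∀ᶠ x : ℝ in Filter.atTop, 1 ≤ Real.log (Real.log x) :=
    (hL.comp hL).eventually_ge_atTop 1
  have hc : 0 < ε / (64 * (ζ + 1) * (A + 2)) := by
    have : 0 < ζ + 1 := by linarith
    positivity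
  have e2 : ∀ᶠ x : ℝ in Filter.atTop, (Real.log (Real.log x)) ^ 2 ≤
      ε / (64 * (ζ + 1) * (A + 2)) * Real.log x := by
    have h1 := (Real.isLittleO_pow_log_id_atTop (n := 2)).def hc
    have h2 := hL.eventually h1
    filter_upwards [h2, e1] with x h3 h4
    rw [Real.norm_eq_abs, Real.norm_eq_abs, id, abs_of_nonneg (sq_nonneg _),
      abs_of_nonneg (by linarith)] at h3
    exact h3
  have e4 : ∀ᶠ x : ℝ in Filter.atTop, Real.log x ^ (A + 1) ≤ 1 / (ζ + 1) * x ^ (3 * ε / 4) := by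
    have h1 := (isLittleO_log_rpow_rpow_atTop (A + 1) (show (0 : ℝ) < 3 * ε / 4 by positivity)).def
      (show (0 : ℝ) < 1 / (ζ + 1) by
        have : 0 < ζ + 1 := by linarith
        positivity)
    filter_upwards [h1, e1, Filter.eventually_ge_atTop 1] with x h3 h4 h5
    rw [Real.norm_eq_abs, Real.norm_eq_abs,
      abs_of_nonneg (Real.rpow_nonneg (by linarith) _),
      abs_of_nonneg (Real.rpow_nonneg (by linarith) _)] at h3
    exact h3
  obtain ⟨x1, hx1⟩ := Filter.eventually_atTop.1 (((e1.and e2).and e3).and e4)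
  refine ⟨max 3 x1, le_max_left _ _, fun x hx => ?_⟩
  obtain ⟨⟨⟨h1, h2⟩, h3⟩, h4⟩ := hx1 x ((le_max_right _ _).trans hx)
  have hz1 : 0 < ζ + 1 := by linarith
  refine ⟨h1, ?_, h3, ?_⟩
  · have h5 : Real.log (Real.log x) * (64 * (ζ + 1)) * (A * Real.log (Real.log x) + 2) ≤
        64 * (ζ + 1) * (A + 2) * (Real.log (Real.log x)) ^ 2 := by
      have h6 : A * Real.log (Real.log x) + 2 ≤ (A + 2) * Real.log (Real.log x) := by nlinarith
      have h7 : 0 ≤ Real.log (Real.log x) * (64 * (ζ + 1)) := by positivity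
      calc Real.log (Real.log x) * (64 * (ζ + 1)) * (A * Real.log (Real.log x) + 2)
          ≤ Real.log (Real.log x) * (64 * (ζ + 1)) * ((A + 2) * Real.log (Real.log x)) :=
            mul_le_mul_of_nonneg_left h6 h7
        _ = 64 * (ζ + 1) * (A + 2) * (Real.log (Real.log x)) ^ 2 := by ring
    refine h5.trans ((mul_le_mul_of_nonneg_left h2 (by positivity)).trans (le_of_eq ?_))
    field_simp
  · have h5 := mul_le_mul_of_nonneg_left h4 hz1.le
    refine h5.trans (le_of_eq ?_)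
    field_simp

/-- The error of the model in a class. -/
private theorem Nap_err (ε A ζ : ℝ) (hε : 0 < ε) (hε1 : ε ≤ 1) (hA : 0 < A) (hζ : A + 3 ≤ ζ)
    (x : ℝ) (hx3 : 3 ≤ x) (h1 : 3 ≤ Real.log x)
    (h2 : Real.log (Real.log x) * (64 * (ζ + 1)) * (A * Real.log (Real.log x) + 2) ≤
      ε * Real.log x) (h3 : 1 ≤ Real.log (Real.log x))
    (h4 : (ζ + 1) * Real.log x ^ (A + 1) ≤ x ^ (3 * ε / 4)) :
    2 ≤ zz ζ x ∧ ∃ b : ℕ, 1 ≤ b ∧ Real.exp (-(b : ℝ)) ≤ Real.log x ^ (-A) ∧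
      (∀ d : ℕ, 1 ≤ d → (d : ℝ) ≤ x → Real.log d / (zz ζ x : ℝ) ≤ Real.log x ^ (-A)) ∧
      Real.log (zz ζ x) * (zz ζ x : ℝ) ^ (16 * b) ≤ x ^ ε * Real.log x ^ (-A) ∧
      1 ≤ x ^ ε * Real.log x ^ (-A) := by
  have hx0 : 0 < x := by linarith
  have hL0 : 0 < Real.log x := by linarith
  have hz1 : 0 < ζ + 1 := by linarith
  set L := Real.log x with hL
  have hLζ : 1 ≤ L ^ ζ := Real.one_le_rpow (by linarith) (by linarith)
  have hL1 : L ≤ L ^ ζ := by
    calc L = L ^ (1 : ℝ) := (Real.rpow_one _).symm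
      _ ≤ L ^ ζ := Real.rpow_le_rpow_of_exponent_le (by linarith) (by linarith)
  have hzle : L ^ ζ ≤ (zz ζ x : ℝ) := Nat.le_ceil _
  have hz2 : 2 ≤ zz ζ x := by
    have : (2 : ℝ) ≤ (zz ζ x : ℝ) := by linarith
    exact_mod_cast this
  have hz0 : (0 : ℝ) < (zz ζ x : ℝ) := by linarith
  have hzu : (zz ζ x : ℝ) ≤ L ^ (ζ + 1) := by
    have h5 : (zz ζ x : ℝ) < L ^ ζ + 1 := Nat.ceil_lt_add_one (by linarith)
    rw [Real.rpow_add hL0, Real.rpow_one]
    nlinarith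
  have hlogz : Real.log (zz ζ x) ≤ (ζ + 1) * Real.log L := by
    rw [← Real.log_rpow hL0]
    exact Real.log_le_log hz0 hzu
  have hlogz0 : 0 ≤ Real.log (zz ζ x) := Real.log_nonneg (by linarith)
  have hlL0 : 0 < Real.log L := by linarith
  -- the level
  set B : ℝ := ε * L / (Real.log L * (64 * (ζ + 1))) with hB
  have hB1 : A * Real.log L + 2 ≤ B := by
    rw [hB, le_div_iff₀ (by positivity)]
    linarith
  have hB0 : 0 ≤ B := by
    have : 0 ≤ A * Real.log L := by positivity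
    linarith
  have hbu : (⌊B⌋₊ : ℝ) ≤ B := Nat.floor_le hB0
  have hbl : B - 1 < (⌊B⌋₊ : ℝ) := Nat.sub_one_lt_floor B
  have hAL : 0 ≤ A * Real.log L := by positivity
  have hLA : L ^ (-A) = Real.exp (-(A * Real.log L)) := by
    rw [Real.rpow_def_of_pos hL0]
    congr 1
    ring
  have hxε : ∀ t : ℝ, x ^ t = Real.exp (t * L) := by
    intro t
    rw [Real.rpow_def_of_pos hx0, mul_comm]
  have hpos : 0 < L ^ (-A) := Real.rpow_pos_of_pos hL0 _
  have h5 : (ζ + 1) * L * x ^ (ε / 4) ≤ x ^ ε * L ^ (-A) := by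
    have h6 : (ζ + 1) * L = (ζ + 1) * L ^ (A + 1) * L ^ (-A) := by
      rw [mul_assoc, ← Real.rpow_add hL0]
      norm_num
    have h7 : x ^ ε = x ^ (3 * ε / 4) * x ^ (ε / 4) := by
      rw [← Real.rpow_add hx0]
      congr 1
      ring
    rw [h6, h7]
    have h8 : 0 ≤ L ^ (-A) * x ^ (ε / 4) := by positivity
    calc (ζ + 1) * L ^ (A + 1) * L ^ (-A) * x ^ (ε / 4)
        = (ζ + 1) * L ^ (A + 1) * (L ^ (-A) * x ^ (ε / 4)) := by ring
      _ ≤ x ^ (3 * ε / 4) * (L ^ (-A) * x ^ (ε / 4)) := mul_le_mul_of_nonneg_right h4 h8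
      _ = x ^ (3 * ε / 4) * x ^ (ε / 4) * L ^ (-A) := by ring
  refine ⟨hz2, ⌊B⌋₊, ?_, ?_, ?_, ?_, ?_⟩
  · exact Nat.one_le_floor_iff B |>.2 (by linarith)
  · rw [hLA]
    exact Real.exp_le_exp.2 (by linarith)
  · intro d hd1 hdx
    have hd1' : (1 : ℝ) ≤ (d : ℝ) := by exact_mod_cast hd1
    have h6 : Real.log d ≤ L := Real.log_le_log (by linarith) hdx
    have h7 : Real.log d / (zz ζ x : ℝ) ≤ L / L ^ ζ := by
      have h8 : 0 ≤ Real.log d := Real.log_nonneg hd1'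
      have h9 : 0 < L ^ ζ := by linarith
      exact div_le_div₀ hL0.le h6 h9 hzle
    refine h7.trans ?_
    have h8 : L / L ^ ζ = L ^ (1 - ζ) := by
      rw [Real.rpow_sub hL0, Real.rpow_one]
    rw [h8]
    exact Real.rpow_le_rpow_of_exponent_le (by linarith) (by linarith)
  · have h6 : (zz ζ x : ℝ) ^ (16 * ⌊B⌋₊) ≤ x ^ (ε / 4) := by
      have h7 : (zz ζ x : ℝ) ^ (16 * ⌊B⌋₊) = Real.exp (Real.log (zz ζ x) * (16 * ⌊B⌋₊)) := by
        rw [← Real.rpow_natCast, Real.rpow_def_of_pos hz0]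
        push_cast
        ring_nf
      rw [h7, hxε]
      refine Real.exp_le_exp.2 ?_
      have h8 : Real.log (zz ζ x) * (16 * (⌊B⌋₊ : ℝ)) ≤ (ζ + 1) * Real.log L * (16 * B) := by
        have h9 : (0 : ℝ) ≤ 16 * (⌊B⌋₊ : ℝ) := by positivity
        have h10 : (0 : ℝ) ≤ (ζ + 1) * Real.log L := by positivity
        calc Real.log (zz ζ x) * (16 * (⌊B⌋₊ : ℝ)) ≤ (ζ + 1) * Real.log L * (16 * (⌊B⌋₊ : ℝ)) :=
              mul_le_mul_of_nonneg_right hlogz h9
          _ ≤ (ζ + 1) * Real.log L * (16 * B) := mul_le_mul_of_nonneg_left (by linarith) h10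
      refine h8.trans (le_of_eq ?_)
      rw [hB]
      field_simp
      ring
    have h7 : Real.log (zz ζ x) ≤ (ζ + 1) * L := by
      have h8 : Real.log L ≤ L := (Real.log_le_sub_one_of_pos hL0).trans (by linarith)
      exact hlogz.trans (mul_le_mul_of_nonneg_left h8 hz1.le)
    calc Real.log (zz ζ x) * (zz ζ x : ℝ) ^ (16 * ⌊B⌋₊) ≤ (ζ + 1) * L * x ^ (ε / 4) :=
          mul_le_mul h7 h6 (by positivity) (by positivity)
      _ ≤ x ^ ε * L ^ (-A) := h5
  · refine le_trans ?_ h5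
    have h6 : 1 ≤ x ^ (ε / 4) := Real.one_le_rpow (by linarith) (by positivity)
    have h7 : 1 ≤ (ζ + 1) * L := by nlinarith
    nlinarith

theorem tNap (h1 : NnuStmt) (h2 : NabStmt) : NapStmt := by
  obtain ⟨C1, hC1, hN⟩ := h1
  intro ε A ζ hε hε1 hA hζ
  obtain ⟨x0, hx0, hnum⟩ := Nap_num ε A ζ hε hA hζ
  refine ⟨10 * (3 * C1 + 1), x0, by positivity, hx0, ?_⟩
  intro x y d a hx hy hyx hd hdx hgcd
  obtain ⟨n1, n2, n3, n4⟩ := hnum x hx
  have hx3 : 3 ≤ x := hx0.trans hx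
  have hxp : 0 < x := by linarith
  obtain ⟨hz2, b, hb1, hexp, hlogd, hpow, hone⟩ := Nap_err ε A ζ hε hε1 hA hζ x hx3 n1 n2 n3 n4
  obtain ⟨l, hl, hcls⟩ := Nap_cls d a hd hgcd
  have hφ : 0 < (d.totient : ℝ) := Nat.cast_pos.2 (Nat.totient_pos.2 hd)
  have hφ1 : (1 : ℝ) ≤ (d.totient : ℝ) := Nat.one_le_cast.2 (Nat.totient_pos.2 hd)
  have hd1 : (1 : ℝ) ≤ (d : ℝ) := Nat.one_le_cast.2 hd
  have hdx' : (d : ℝ) ≤ x := by
    refine hdx.trans ?_
    calc x ^ (1 - ε) ≤ x ^ (1 : ℝ) := Real.rpow_le_rpow_of_exponent_le (by linarith) (by linarith)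
      _ = x := Real.rpow_one x
  have hLA : 0 < Real.log x ^ (-A) := Real.rpow_pos_of_pos (by linarith) _
  -- x^ε ≤ x/φ(d)
  have hxd : x ^ ε ≤ x / (d.totient : ℝ) := by
    rw [le_div_iff₀ hφ]
    have h3 : (d.totient : ℝ) ≤ x ^ (1 - ε) :=
      (Nat.cast_le.2 (Nat.totient_le d)).trans hdx
    calc x ^ ε * (d.totient : ℝ) ≤ x ^ ε * x ^ (1 - ε) :=
          mul_le_mul_of_nonneg_left h3 (Real.rpow_nonneg hxp.le _)
      _ = x := by
          rw [← Real.rpow_add hxp]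
          norm_num
  set T : ℝ := x / (d.totient : ℝ) * Real.log x ^ (-A) with hT
  have hxT : x ^ ε * Real.log x ^ (-A) ≤ T := mul_le_mul_of_nonneg_right hxd hLA.le
  set g : ℝ := if d ≤ zz ζ x then 0 else Real.log d / (zz ζ x : ℝ) with hg
  have hg0 : 0 ≤ g := by
    rw [hg]
    split_ifs
    · exact le_rfl
    · exact div_nonneg (Real.log_nonneg hd1) (Nat.cast_nonneg _)
  have hg1 : g ≤ Real.log x ^ (-A) := by
    rw [hg]
    split_ifs
    · exact hLA.le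
    · exact hlogd d hd hdx'
  have hlz : 0 ≤ Real.log (zz ζ x) * (zz ζ x : ℝ) ^ (16 * b) := by
    have h3 : (1 : ℝ) ≤ (zz ζ x : ℝ) := by
      have : (2 : ℝ) ≤ (zz ζ x : ℝ) := by exact_mod_cast hz2
      linarith
    exact mul_nonneg (Real.log_nonneg h3) (by positivity)
  set E : ℝ := C1 * (x / (d.totient : ℝ) * (Real.exp (-(b : ℝ)) + g)) +
    C1 * Real.log (zz ζ x) * (zz ζ x : ℝ) ^ (16 * b) with hE
  have hE0 : 0 ≤ E := by
    have h3 : 0 ≤ C1 * (x / (d.totient : ℝ) * (Real.exp (-(b : ℝ)) + g)) := by positivity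
    have h4 : C1 * Real.log (zz ζ x) * (zz ζ x : ℝ) ^ (16 * b) =
        C1 * (Real.log (zz ζ x) * (zz ζ x : ℝ) ^ (16 * b)) := by ring
    rw [hE, h4]
    positivity
  have hE1 : E ≤ 3 * C1 * T := by
    have h3 : x / (d.totient : ℝ) * (Real.exp (-(b : ℝ)) + g) ≤ 2 * T := by
      calc x / (d.totient : ℝ) * (Real.exp (-(b : ℝ)) + g)
          ≤ x / (d.totient : ℝ) * (Real.log x ^ (-A) + Real.log x ^ (-A)) :=
            mul_le_mul_of_nonneg_left (add_le_add hexp hg1) (by positivity)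
        _ = 2 * T := by rw [hT]; ring
    have h4 : C1 * Real.log (zz ζ x) * (zz ζ x : ℝ) ^ (16 * b) ≤ C1 * T := by
      rw [mul_assoc]
      exact mul_le_mul_of_nonneg_left (hpow.trans hxT) hC1.le
    have h5 := mul_le_mul_of_nonneg_left h3 hC1.le
    rw [hE]
    linarith
  have hT1 : 1 ≤ T := hone.trans hxT
  -- Abel summation
  have h3 := h2 (fun n => if (d : ℤ) ∣ n - a then nu (zz ζ x) n else 0) (1 / (d.totient : ℝ)) E y
    (by positivity) ((div_le_one hφ).2 hφ1) hE0 hy (fun N hNy => by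
      rw [Nap_sum N]
      have h4 := hN (zz ζ x) b d l 0 N hz2 hb1 hd hl (Nat.zero_le _)
      have h5 : ∑ n ∈ (Ioc 0 N).filter (fun n => n ≡ l [MOD d]),
          Pool.Agent.Lib.BV.rr (zz ζ x) n / nrm (zz ζ x) =
          ∑ n ∈ Ioc 0 N, if (d : ℤ) ∣ (n : ℤ) - a then nu (zz ζ x) (n : ℤ) else 0 := by
        rw [Finset.sum_filter]
        refine Finset.sum_congr rfl fun n hn => ?_
        rw [Finset.mem_Ioc] at hn
        have h6 : nu (zz ζ x) (n : ℤ) = Pool.Agent.Lib.BV.rr (zz ζ x) n / nrm (zz ζ x) := by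
          rw [nu, if_pos (by omega), Int.toNat_natCast]
        rw [h6]
        by_cases h7 : n ≡ l [MOD d]
        · rw [if_pos h7, if_pos ((hcls n).1 h7)]
        · rw [if_neg h7, if_neg fun h8 => h7 ((hcls n).2 h8)]
      rw [h5, Nat.cast_zero, sub_zero] at h4
      have h6 : 1 / (d.totient : ℝ) * (N : ℝ) = (N : ℝ) / (d.totient : ℝ) := by ring
      rw [h6]
      refine h4.trans ?_
      rw [hE]
      have h7 : (N : ℝ) / (d.totient : ℝ) ≤ x / (d.totient : ℝ) :=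
        div_le_div_of_nonneg_right (hNy.trans hyx) hφ.le
      have h8 : 0 ≤ Real.exp (-(b : ℝ)) + g := add_nonneg (Real.exp_pos _).le hg0
      have h9 := mul_le_mul_of_nonneg_left (mul_le_mul_of_nonneg_right h7 h8) hC1.le
      linarith)
  have h4 : ∑ n ∈ Icc (1 : ℤ) ⌊y⌋, Pool.Agent.Lib.UI.lci n *
      (if (d : ℤ) ∣ n - a then nu (zz ζ x) n else 0) =
      ∑ n ∈ (Icc (1 : ℤ) ⌊y⌋).filter (fun n => (d : ℤ) ∣ n - a),
        Pool.Agent.Lib.UI.lci n * nu (zz ζ x) n := by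
    rw [Finset.sum_filter]
    refine Finset.sum_congr rfl fun n _ => ?_
    rw [mul_ite, mul_zero]
  have h5 : 1 / (d.totient : ℝ) * li y = li y / (d.totient : ℝ) := by ring
  rw [h5] at h3
  rw [← h4]
  refine h3.trans ?_
  have h6 : 10 * (3 * C1 + 1) * T = 10 * (3 * C1 * T + T) := by ring
  rw [h6]
  linarith

end Pool.Agent.Lib.TR
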