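import Pool.Agent.Lib.TR.SpecN

/-!
MP_00e23e_nt, Lib/TR: the fundamental lemma with main term (`NclStmt`).
-/

set_option autoImplicit false

namespace Pool.Agent.Lib.TR

open Finset Pool.Agent.Lib.EH3 Pool.Agent.Results.MP_00e23e_nt

open Pool.Agent.Lib.BV (pbl lowS Yd Ud rr)

private lemma Ncl_pow (z b : ℕ) (hz : 2 ≤ z) (hb : 1 ≤ b) :
    2 * ((z : ℝ) + 1) * (z : ℝ) ^ (4 * b + 6) ≤ (z : ℝ) ^ (16 * b) := by
  have hz' : (2 : ℝ) ≤ z := by exact_mod_cast hz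
  have h1 : 2 * ((z : ℝ) + 1) ≤ (z : ℝ) ^ 4 := by
    have h2 : (4 : ℝ) ≤ (z : ℝ) ^ 2 := by nlinarith
    have h3 : (z : ℝ) ^ 4 = (z : ℝ) ^ 2 * (z : ℝ) ^ 2 := by ring
    nlinarith
  have h4 : (z : ℝ) ^ (4 * b + 6) * (z : ℝ) ^ 4 ≤ (z : ℝ) ^ (16 * b) := by
    rw [← pow_add]
    exact pow_le_pow_right₀ (by linarith) (by omega)
  have h5 : (0 : ℝ) ≤ (z : ℝ) ^ (4 * b + 6) := by positivity
  calc 2 * ((z : ℝ) + 1) * (z : ℝ) ^ (4 * b + 6) ≤ (z : ℝ) ^ 4 * (z : ℝ) ^ (4 * b + 6) :=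
        mul_le_mul_of_nonneg_right h1 h5
    _ = (z : ℝ) ^ (4 * b + 6) * (z : ℝ) ^ 4 := mul_comm _ _
    _ ≤ _ := h4

private lemma Ncl_inv (p : ℕ) : 0 ≤ 1 / (p : ℝ) ∧ 1 / (p : ℝ) ≤ 1 := by
  refine ⟨by positivity, ?_⟩
  rcases Nat.eq_zero_or_pos p with rfl | hp
  · simp
  · have : (1 : ℝ) ≤ p := by exact_mod_cast hp
    rw [div_le_one (by linarith)]
    exact this

private lemma Ncl_prod (s : Finset ℕ) : ∏ p ∈ s, (1 / (p : ℝ)) = 1 / ((∏ p ∈ s, p : ℕ) : ℝ) := by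
  rw [Nat.cast_prod, Finset.prod_div_distrib, Finset.prod_const_one]

/-- The difference of the two products. -/
private lemma Ncl_dif (h1 : Pool.Agent.Lib.BV.BnfStmt) (h2 : Pool.Agent.Lib.BV.HlyStmt)
    (h3 : Pool.Agent.Lib.BV.PbsStmt) (z d b : ℕ) (hz : 2 ≤ z) :
    |∏ j ∈ range z, Yd z d b j -
      ∏ p ∈ (Icc 1 z).filter (fun p => p.Prime ∧ ¬ p ∣ d), (1 - 1 / (p : ℝ))| ≤
      ∑ i ∈ range z, Ud z d b i * ∏ j ∈ (range z).erase i, Yd z d b j := by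
  have hB : ∀ j, ∏ p ∈ pbl z d j, (1 - 1 / (p : ℝ)) ≤ Yd z d b j ∧
      Yd z d b j ≤ ∏ p ∈ pbl z d j, (1 - 1 / (p : ℝ)) + Ud z d b j := by
    intro j
    have e := h1 (b + j) (pbl z d j) (fun p => 1 / (p : ℝ)) fun p _ => Ncl_inv p
    have e1 : ∑ s ∈ lowS (pbl z d j) (2 * (b + j)), (-1 : ℝ) ^ s.card * ∏ p ∈ s, (1 / (p : ℝ)) =
        Yd z d b j := by
      rw [Yd]
      refine Finset.sum_congr rfl fun s _ => ?_
      rw [Ncl_prod, mul_one_div]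
    have e2 : ∑ s ∈ (pbl z d j).powersetCard (2 * (b + j) + 1), ∏ p ∈ s, (1 / (p : ℝ)) =
        Ud z d b j := by
      rw [Ud]
      exact Finset.sum_congr rfl fun s _ => Ncl_prod s
    rw [e1, e2] at e
    exact e
  have hx : ∀ j, 0 ≤ ∏ p ∈ pbl z d j, (1 - 1 / (p : ℝ)) := fun j =>
    Finset.prod_nonneg fun p _ => sub_nonneg.2 (Ncl_inv p).2
  obtain ⟨g1, g2⟩ := h2 z (fun j => ∏ p ∈ pbl z d j, (1 - 1 / (p : ℝ))) (fun j => Yd z d b j)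
    (fun j => Ud z d b j) fun j _ => ⟨hx j, (hB j).1, (hB j).2⟩
  have g3 := h3.2.1 z d (fun p => 1 - 1 / (p : ℝ)) (by omega)
  rw [g3] at g1 g2
  rw [abs_of_nonneg (sub_nonneg.2 g1)]
  linarith

theorem tNcl (h1 : Pool.Agent.Lib.BV.BnfStmt) (h2 : Pool.Agent.Lib.BV.HlyStmt)
    (h3 : Pool.Agent.Lib.BV.PbsStmt) (h4 : Pool.Agent.Lib.BV.MnsStmt)
    (h5 : Pool.Agent.Lib.BV.ClfStmt) : NclStmt := by
  obtain ⟨C, hC, hM⟩ := h4
  refine ⟨2 * C, by positivity, fun z b d l N N2 hz hb hd hl hN => ?_⟩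
  have a1 := (h5 z d b l N N2 hz hd hl hN).2
  have a3 := (hM z d b hz hd).2.2
  have hX : (0 : ℝ) ≤ ((N2 : ℝ) - N) / d := by
    have : (N : ℝ) ≤ N2 := by exact_mod_cast hN
    exact div_nonneg (by linarith) (by positivity)
  have a2 := mul_le_mul_of_nonneg_left (Ncl_dif h1 h2 h3 z d b hz) hX
  have a4 := mul_le_mul_of_nonneg_left a3 hX
  have hd0 : (d : ℝ) ≠ 0 := by
    have : 0 < d := by omega
    positivity
  have hphi : (d.totient : ℝ) ≠ 0 := by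
    have : 0 < d.totient := Nat.totient_pos.2 (by omega)
    positivity
  have hlog : Real.log z ≠ 0 := by
    have : (2 : ℝ) ≤ z := by exact_mod_cast hz
    exact (Real.log_pos (by linarith)).ne'
  have a5 : ((N2 : ℝ) - N) / d *
      (C * Real.exp (-(b : ℝ)) * (((d : ℝ) / (d.totient : ℝ)) / Real.log z)) =
      C * (((N2 : ℝ) - N) / (d.totient : ℝ) * (Real.exp (-(b : ℝ)) / Real.log z)) := by
    field_simp
  rw [a5] at a4
  have a6 := Ncl_pow z b hz hb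
  rw [← abs_of_nonneg hX, ← abs_mul, abs_of_nonneg hX, mul_sub] at a2
  obtain ⟨b1, b2⟩ := abs_le.mp a1
  obtain ⟨c1, c2⟩ := abs_le.mp a2
  rw [abs_le]
  constructor
  · linarith
  · linarith

end Pool.Agent.Lib.TR
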