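import Pool.Agent.Lib.TR.SpecN

/-! # TR, module Nnm (helper42): the normalisation of the model -/

set_option autoImplicit false

namespace Pool.Agent.Lib.TR

open Finset Pool.Agent.Lib.EH3 Pool.Agent.Results.MP_00e23e_nt

private theorem Nnm_pos (z : ℕ) : 0 < nrm z ∧ nrm z ≤ 1 := by
  unfold nrm
  refine ⟨Finset.prod_pos fun p hp => ?_, Finset.prod_le_one (fun p hp => ?_) fun p hp => ?_⟩
  all_goals
    have h2 : (2 : ℝ) ≤ p := by exact_mod_cast (mem_filter.1 hp).2.two_le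
    have h3 : 1 / (p : ℝ) ≤ 1 / 2 := one_div_le_one_div_of_le (by norm_num) h2
    have h4 : 0 ≤ 1 / (p : ℝ) := by positivity
    linarith

private theorem Nnm_split (z : ℕ) (hz : 2 ≤ z) : nrm z = 1 / 2 * Pool.Agent.Lib.SG.VV 2 z := by
  unfold nrm Pool.Agent.Lib.SG.VV
  have h : (Icc 1 z).filter Nat.Prime = insert 2 ((Ioc 2 z).filter Nat.Prime) := by
    ext p
    simp only [mem_filter, mem_Icc, mem_insert, mem_Ioc]
    constructor
    · rintro ⟨⟨h1, h2⟩, h3⟩
      rcases h3.two_le.eq_or_lt with h4 | h4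
      · exact Or.inl h4.symm
      · exact Or.inr ⟨⟨h4, h2⟩, h3⟩
    · rintro (h | ⟨⟨h1, h2⟩, h3⟩)
      · subst h
        exact ⟨⟨by norm_num, hz⟩, Nat.prime_two⟩
      · exact ⟨⟨by omega, h2⟩, h3⟩
  rw [h, prod_insert (by simp)]
  norm_num

private theorem Nnm_up (h2 : Pool.Agent.Lib.BV.MprStmt) (z : ℕ) (hz : 2 ≤ z) : nrm z ≤ 1 / Real.log z := by
  have h := h2 z 1 hz le_rfl
  have e : (Icc 1 z).filter (fun p => p.Prime ∧ ¬ p ∣ 1) = (Icc 1 z).filter Nat.Prime := by
    apply filter_congr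
    intro p hp
    constructor
    · exact fun h => h.1
    · exact fun h => ⟨h, fun h1 => h.one_lt.ne' (Nat.dvd_one.1 h1)⟩
  rw [e] at h
  simpa [nrm] using h

theorem tNnm (h1 : Pool.Agent.Lib.SG.VbdStmt) (h2 : Pool.Agent.Lib.BV.MprStmt) : NnmStmt := by
  obtain ⟨c, _, hc, _, h⟩ := h1
  refine ⟨max 1 (2 / (c * Real.log 2)), le_max_left _ _, fun z hz => ?_⟩
  have hp := Nnm_pos z
  refine ⟨hp.1, hp.2, Nnm_up h2 z hz, ?_⟩
  have hl2 : 0 < Real.log 2 := Real.log_pos (by norm_num)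
  have hz' : (2 : ℝ) ≤ z := by exact_mod_cast hz
  have hlz : 0 < Real.log z := Real.log_pos (by linarith)
  have hv := (h 2 z le_rfl hz).1
  have hs := Nnm_split z hz
  have h3 : c * Real.log 2 / (2 * Real.log z) ≤ nrm z := by
    rw [hs]
    calc c * Real.log 2 / (2 * Real.log z) = 1 / 2 * (c * (Real.log (2 : ℕ) / Real.log z)) := by
          push_cast
          field_simp
      _ ≤ _ := mul_le_mul_of_nonneg_left hv (by norm_num)
  have h4 : 0 < c * Real.log 2 / (2 * Real.log z) := by positivity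
  calc 1 / nrm z ≤ 1 / (c * Real.log 2 / (2 * Real.log z)) := one_div_le_one_div_of_le h4 h3
    _ = 2 / (c * Real.log 2) * Real.log z := by field_simp
    _ ≤ _ := mul_le_mul_of_nonneg_right (le_max_right _ _) hlz.le

end Pool.Agent.Lib.TR
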