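import Pool.Agent.Lib.TR.SpecN

/-!
MP_00e23e_nt, directory Lib/TR, module Nnu: the model in a class.
-/

set_option autoImplicit false

namespace Pool.Agent.Lib.TR

open Finset Pool.Agent.Lib.EH3 Pool.Agent.Results.MP_00e23e_nt

/-- The union bound for products. -/
private theorem Nnu_prod (s : Finset ℕ) (t : ℕ → ℝ) (h : ∀ i ∈ s, 0 ≤ t i ∧ t i ≤ 1) :
    0 ≤ ∏ i ∈ s, (1 - t i) ∧ ∏ i ∈ s, (1 - t i) ≤ 1 ∧ 1 - ∑ i ∈ s, t i ≤ ∏ i ∈ s, (1 - t i) := by
  induction s using Finset.induction_on with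
  | empty => simp
  | insert a s ha ih =>
    obtain ⟨h1, h2, h3⟩ := ih fun i hi => h i (Finset.mem_insert_of_mem hi)
    obtain ⟨h4, h5⟩ := h a (Finset.mem_insert_self a s)
    rw [Finset.prod_insert ha, Finset.sum_insert ha]
    refine ⟨mul_nonneg (by linarith) h1, ?_, ?_⟩
    · nlinarith
    · nlinarith

/-- Number of primes greater than z which divide d. -/
private theorem Nnu_card (z d : ℕ) (hd : 1 ≤ d) :
    ((d.primeFactors.filter (fun p => z < p)).card : ℝ) ≤ 2 * Real.log d := by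
  have h1 : (2 : ℕ) ^ (d.primeFactors.filter (fun p => z < p)).card ≤ d := by
    calc 2 ^ (d.primeFactors.filter (fun p => z < p)).card
        ≤ ∏ p ∈ d.primeFactors.filter (fun p => z < p), p := by
          rw [← Finset.prod_const]
          exact Finset.prod_le_prod' fun p hp =>
            (Nat.prime_of_mem_primeFactors (Finset.mem_filter.1 hp).1).two_le
      _ ≤ ∏ p ∈ d.primeFactors, p := by
          refine Finset.prod_le_prod_of_subset_of_one_le' (Finset.filter_subset _ _) ?_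
          intro p hp _
          exact (Nat.prime_of_mem_primeFactors hp).one_lt.le
      _ ≤ d := Nat.le_of_dvd hd (Nat.prod_primeFactors_dvd d)
  have h2 : ((d.primeFactors.filter (fun p => z < p)).card : ℝ) * Real.log 2 ≤ Real.log d := by
    rw [← Real.log_pow]
    refine Real.log_le_log (by positivity) ?_
    exact_mod_cast h1
  have h3 : (1 : ℝ) / 2 < Real.log 2 := by
    have := Real.log_two_gt_d9
    linarith
  have h4 : (0 : ℝ) ≤ ((d.primeFactors.filter (fun p => z < p)).card : ℝ) := Nat.cast_nonneg _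
  nlinarith

/-- The main terms. -/
private theorem Nnu_main (z d : ℕ) (hz : 2 ≤ z) (hd : 1 ≤ d) (hn : 0 < nrm z) :
    ∃ R : ℝ, 0 ≤ R ∧ R ≤ 1 ∧ 1 - R ≤ 2 * (if d ≤ z then 0 else Real.log d / z) ∧
      (1 / (d : ℝ)) * (∏ p ∈ (Icc 1 z).filter (fun p => p.Prime ∧ ¬ p ∣ d), (1 - 1 / (p : ℝ))) /
        nrm z = R / (d.totient : ℝ) := by
  have hd0 : (0 : ℝ) < (d : ℝ) := Nat.cast_pos.2 hd
  have hφ : (0 : ℝ) < (d.totient : ℝ) := Nat.cast_pos.2 (Nat.totient_pos.2 hd)
  have hz0 : (0 : ℝ) < (z : ℝ) := Nat.cast_pos.2 (by omega)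
  -- splitting of the norm
  have e1 : nrm z = (∏ p ∈ (Icc 1 z).filter (fun p => p.Prime ∧ p ∣ d), (1 - 1 / (p : ℝ))) *
      ∏ p ∈ (Icc 1 z).filter (fun p => p.Prime ∧ ¬ p ∣ d), (1 - 1 / (p : ℝ)) := by
    rw [nrm, ← Finset.prod_filter_mul_prod_filter_not ((Icc 1 z).filter Nat.Prime) (fun p => p ∣ d),
      Finset.filter_filter, Finset.filter_filter]
  -- splitting of the totient
  have e2 : (d.totient : ℝ) = d * ∏ p ∈ d.primeFactors, (1 - 1 / (p : ℝ)) := by
    have h3 := Nat.totient_eq_mul_prod_factors d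
    have h4 : ((d.totient : ℚ) : ℝ) = ((d * ∏ p ∈ d.primeFactors, (1 - (p : ℚ)⁻¹) : ℚ) : ℝ) := by
      rw [h3]
    push_cast at h4
    rw [h4]
    simp only [one_div]
  have e3 : ∏ p ∈ d.primeFactors, (1 - 1 / (p : ℝ)) =
      (∏ p ∈ (Icc 1 z).filter (fun p => p.Prime ∧ p ∣ d), (1 - 1 / (p : ℝ))) *
      ∏ p ∈ d.primeFactors.filter (fun p => z < p), (1 - 1 / (p : ℝ)) := by
    rw [← Finset.prod_filter_mul_prod_filter_not d.primeFactors (fun p => p ≤ z)]
    congr 1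
    · refine Finset.prod_congr ?_ fun _ _ => rfl
      ext p
      rw [Finset.mem_filter, Finset.mem_filter, Finset.mem_Icc, Nat.mem_primeFactors]
      constructor
      · rintro ⟨⟨h3, h4, -⟩, h5⟩
        exact ⟨⟨h3.one_lt.le, h5⟩, h3, h4⟩
      · rintro ⟨⟨-, h5⟩, h3, h4⟩
        exact ⟨⟨h3, h4, by omega⟩, h5⟩
    · refine Finset.prod_congr ?_ fun _ _ => rfl
      ext p
      rw [Finset.mem_filter, Finset.mem_filter, not_le]
  have hprime : ∀ p ∈ d.primeFactors.filter (fun p => z < p), 0 ≤ 1 / (p : ℝ) ∧ 1 / (p : ℝ) ≤ 1 := by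
    intro p hp
    have h3 : (1 : ℝ) ≤ (p : ℝ) :=
      Nat.one_le_cast.2 (Nat.prime_of_mem_primeFactors (Finset.mem_filter.1 hp).1).one_lt.le
    exact ⟨by positivity, (div_le_one (by linarith)).2 h3⟩
  obtain ⟨r0, r1, r2⟩ := Nnu_prod _ (fun p => 1 / (p : ℝ)) hprime
  refine ⟨∏ p ∈ d.primeFactors.filter (fun p => z < p), (1 - 1 / (p : ℝ)), r0, r1, ?_, ?_⟩
  · split_ifs with hdz
    · have h3 : d.primeFactors.filter (fun p => z < p) = ∅ := by
        refine Finset.filter_eq_empty_iff.2 fun p hp => ?_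
        have h4 := Nat.le_of_mem_primeFactors hp
        omega
      rw [h3, Finset.prod_empty]
      simp
    · have h3 : ∑ p ∈ d.primeFactors.filter (fun p => z < p), 1 / (p : ℝ) ≤
          (d.primeFactors.filter (fun p => z < p)).card * (1 / (z : ℝ)) := by
        rw [← nsmul_eq_mul]
        refine Finset.sum_le_card_nsmul _ _ _ fun p hp => ?_
        have h4 : (z : ℝ) ≤ (p : ℝ) := Nat.cast_le.2 (Finset.mem_filter.1 hp).2.le
        exact one_div_le_one_div_of_le hz0 h4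
      have h4 := mul_le_mul_of_nonneg_right (Nnu_card z d hd) (show 0 ≤ 1 / (z : ℝ) by positivity)
      have h5 : 2 * Real.log d * (1 / (z : ℝ)) = 2 * (Real.log d / z) := by ring
      rw [h5] at h4
      linarith
  · have hV : (∏ p ∈ (Icc 1 z).filter (fun p => p.Prime ∧ p ∣ d), (1 - 1 / (p : ℝ))) ≠ 0 := by
      intro h0
      rw [e1, h0, zero_mul] at hn
      exact lt_irrefl _ hn
    have hW : (∏ p ∈ (Icc 1 z).filter (fun p => p.Prime ∧ ¬ p ∣ d), (1 - 1 / (p : ℝ))) ≠ 0 := by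
      intro h0
      rw [e1, h0, mul_zero] at hn
      exact lt_irrefl _ hn
    rw [e1, div_eq_div_iff (mul_ne_zero hV hW) hφ.ne', e2, e3]
    field_simp

theorem tNnu (h1 : NclStmt) (h2 : NnmStmt) : NnuStmt := by
  obtain ⟨C1, hC1, h1⟩ := h1
  obtain ⟨C2, hC2, h2⟩ := h2
  refine ⟨C1 * C2 + C2 + 2, by positivity, ?_⟩
  intro z b d l N N2 hz hb hd hl hN
  obtain ⟨n0, n1, -, n3⟩ := h2 z hz
  obtain ⟨R, R0, R1, hR, hm⟩ := Nnu_main z d hz hd n0
  have k1 := h1 z b d l N N2 hz hb hd hl hN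
  have hφ : (0 : ℝ) < (d.totient : ℝ) := Nat.cast_pos.2 (Nat.totient_pos.2 hd)
  have hlz : 0 < Real.log z := Real.log_pos (by
    have : (2 : ℝ) ≤ (z : ℝ) := by exact_mod_cast hz
    linarith)
  have hX : (0 : ℝ) ≤ (N2 : ℝ) - N := sub_nonneg.2 (Nat.cast_le.2 hN)
  rw [← Finset.sum_div]
  set S := ∑ n ∈ (Ioc N N2).filter (fun n => n ≡ l [MOD d]), Pool.Agent.Lib.BV.rr z n with hS
  set W := ∏ p ∈ (Icc 1 z).filter (fun p => p.Prime ∧ ¬ p ∣ d), (1 - 1 / (p : ℝ)) with hW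
  set X : ℝ := (N2 : ℝ) - N with hXd
  set g : ℝ := if d ≤ z then 0 else Real.log d / z with hg
  have e1 : S / nrm z - X / (d.totient : ℝ) =
      (S - X / d * W) / nrm z - X / (d.totient : ℝ) * (1 - R) := by
    have e2 : X / d * W / nrm z = X * (R / (d.totient : ℝ)) := by
      rw [← hm]
      ring
    rw [sub_div S (X / d * W) (nrm z), e2]
    ring
  have h3 : |(S - X / d * W) / nrm z| ≤
      C1 * C2 * (X / (d.totient : ℝ) * Real.exp (-(b : ℝ))) + C2 * Real.log z * (z : ℝ) ^ (16 * b) := by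
    rw [abs_div, abs_of_pos n0, div_eq_mul_one_div]
    have h4 : 0 ≤ C1 * (X / (d.totient : ℝ) * (Real.exp (-(b : ℝ)) / Real.log z)) + (z : ℝ) ^ (16 * b) := by
      positivity
    refine (mul_le_mul k1 n3 (by positivity) h4).trans (le_of_eq ?_)
    field_simp
  have h4 : |X / (d.totient : ℝ) * (1 - R)| ≤ X / (d.totient : ℝ) * (2 * g) := by
    rw [abs_of_nonneg (mul_nonneg (by positivity) (by linarith))]
    exact mul_le_mul_of_nonneg_left hR (by positivity)
  have hg0 : 0 ≤ g := by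
    rw [hg]
    split_ifs
    · exact le_rfl
    · exact div_nonneg (Real.log_nonneg (Nat.one_le_cast.2 hd)) (Nat.cast_nonneg _)
  rw [e1]
  refine (abs_sub _ _).trans ((add_le_add h3 h4).trans ?_)
  have a1 : 0 ≤ X / (d.totient : ℝ) * Real.exp (-(b : ℝ)) := by positivity
  have a2 : 0 ≤ X / (d.totient : ℝ) * g := by positivity
  have a3 : 0 ≤ Real.log z * (z : ℝ) ^ (16 * b) := by positivity
  have a4 : 0 ≤ C1 * C2 := by positivity
  have e5 : (C1 * C2 + C2 + 2) * (X / (d.totient : ℝ) * (Real.exp (-(b : ℝ)) + g)) +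
      (C1 * C2 + C2 + 2) * Real.log z * (z : ℝ) ^ (16 * b) =
      C1 * C2 * (X / (d.totient : ℝ) * Real.exp (-(b : ℝ))) +
      C2 * Real.log z * (z : ℝ) ^ (16 * b) + X / (d.totient : ℝ) * (2 * g) +
      ((C2 + 2) * (X / (d.totient : ℝ) * Real.exp (-(b : ℝ))) +
       (C1 * C2 + C2) * (X / (d.totient : ℝ) * g) +
       (C1 * C2 + 2) * (Real.log z * (z : ℝ) ^ (16 * b))) := by ring
  rw [e5]
  have a5 : 0 ≤ (C2 + 2) * (X / (d.totient : ℝ) * Real.exp (-(b : ℝ))) +
       (C1 * C2 + C2) * (X / (d.totient : ℝ) * g) +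
       (C1 * C2 + 2) * (Real.log z * (z : ℝ) ^ (16 * b)) := by positivity
  linarith

end Pool.Agent.Lib.TR
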