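import Pool.Agent.Lib.TR.SpecN

/-!
MP_00e23e_nt, directory Lib/TR, module Nsw (helper42): Siegel-Walfisz for primes minus model.
-/

set_option autoImplicit false

namespace Pool.Agent.Lib.TR

open Finset Pool.Agent.Lib.EH3 Pool.Agent.Results.MP_00e23e_nt

/-- Sums over the integers of [1, N] as sums over natural numbers. -/
private theorem Nsw_sum (N : ℕ) (f : ℤ → ℝ) :
    ∑ n ∈ Icc (1 : ℤ) N, f n = ∑ n ∈ Ioc 0 N, f (n : ℤ) := by
  refine Finset.sum_nbij' Int.toNat (fun n : ℕ => (n : ℤ)) ?_ ?_ ?_ ?_ ?_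
  · intro n hn
    rw [Finset.mem_Icc] at hn
    rw [Finset.mem_Ioc]
    omega
  · intro n hn
    rw [Finset.mem_Ioc] at hn
    rw [Finset.mem_Icc]
    omega
  · intro n hn
    rw [Finset.mem_Icc] at hn
    omega
  · intro n hn
    exact Int.toNat_natCast n
  · intro n hn
    rw [Finset.mem_Icc] at hn
    rw [Int.toNat_of_nonneg (by omega)]

/-- The residue class as a natural number in [1, d]. -/
private theorem Nsw_cls (d : ℕ) (a : ℤ) (hd : 1 ≤ d) (ha : Int.gcd a d = 1) :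
    ∃ l : ℕ, 1 ≤ l ∧ l ≤ d ∧ l.Coprime d ∧ ∀ n : ℕ, n ≡ l [MOD d] ↔ (d : ℤ) ∣ (n : ℤ) - a := by
  have hd0 : (d : ℤ) ≠ 0 := by omega
  have hnn : 0 ≤ a % (d : ℤ) := Int.emod_nonneg a hd0
  have hlt : a % (d : ℤ) < d := Int.emod_lt_of_pos a (by omega)
  have hl : (((a % (d : ℤ)).toNat : ℕ) : ℤ) = a % (d : ℤ) := Int.toNat_of_nonneg hnn
  have hco : ((a % (d : ℤ)).toNat).Coprime d := by
    have h1 : Int.gcd (a % (d : ℤ)) d = 1 := by
      rw [Int.gcd_emod]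
      exact ha
    rw [← hl, Int.gcd_natCast_natCast] at h1
    exact h1
  have hcl : ∀ n : ℕ, n ≡ (a % (d : ℤ)).toNat [MOD d] ↔ (d : ℤ) ∣ (n : ℤ) - a := by
    intro n
    rw [← Int.natCast_modEq_iff, hl]
    constructor
    · intro h
      have h2 : (n : ℤ) ≡ a [ZMOD d] := h.trans (Int.mod_modEq a d)
      exact (Int.modEq_iff_dvd.1 h2.symm)
    · intro h
      have h2 : a ≡ (n : ℤ) [ZMOD d] := Int.modEq_iff_dvd.2 h
      exact h2.symm.trans (Int.mod_modEq a d).symm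
  by_cases h0 : (a % (d : ℤ)).toNat = 0
  · have hm : d ≡ (a % (d : ℤ)).toNat [MOD d] := by
      rw [h0]
      exact (Nat.modEq_zero_iff_dvd).2 dvd_rfl
    refine ⟨d, hd, le_rfl, ?_, fun n => ?_⟩
    · have := hm.gcd_eq
      unfold Nat.Coprime
      rw [this]
      exact hco
    · rw [← hcl n]
      exact ⟨fun h => h.trans hm, fun h => h.trans hm.symm⟩
  · exact ⟨(a % (d : ℤ)).toNat, by omega, by omega, hco, hcl⟩

private theorem Nsw_prime (M q l : ℕ) (b : ℤ)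
    (hcls : ∀ n : ℕ, n ≡ l [MOD q] ↔ (q : ℤ) ∣ (n : ℤ) - b) :
    ∑ n ∈ Icc (1 : ℤ) M, (if (q : ℤ) ∣ n - b then (if n.toNat.Prime then (1 : ℝ) else 0) else 0) =
      (primeCount (M : ℝ) q l : ℝ) := by
  rw [Nsw_sum]
  unfold primeCount
  rw [Nat.floor_natCast, Finset.card_filter]
  push_cast
  have e : Icc 1 M = Ioc 0 M := by
    ext n
    simp only [Finset.mem_Icc, Finset.mem_Ioc]
    omega
  rw [e]
  refine Finset.sum_congr rfl fun n _ => ?_
  simp only [Int.toNat_natCast]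
  by_cases h2 : n ≡ l [MOD q]
  · rw [if_pos ((hcls n).1 h2)]
    by_cases h1 : n.Prime
    · rw [if_pos h1, if_pos ⟨h1, h2⟩]
    · rw [if_neg h1, if_neg fun h => h1 h.1]
  · rw [if_neg (fun h => h2 ((hcls n).2 h)), if_neg fun h => h2 h.2]

/-- The numerical conditions. -/
private theorem Nsw_num (A ζ : ℝ) (hA : 0 < A) (hζ : 1 ≤ ζ) :
    ∃ x0 : ℝ, 3 ≤ x0 ∧ ∀ x : ℝ, x0 ≤ x → 3 ≤ Real.log x ∧
      Real.log (Real.log x) * (64 * (ζ + 1)) * (A * Real.log (Real.log x) + 2) ≤ Real.log x ∧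
      1 ≤ Real.log (Real.log x) ∧
      (ζ + 1) * Real.log x ^ (A + 1) ≤ x ^ ((3 : ℝ) / 4) ∧ Real.log x ^ ζ ≤ x ^ ((1 : ℝ) / 4) := by
  have hL : Filter.Tendsto Real.log Filter.atTop Filter.atTop := Real.tendsto_log_atTop
  have e1 : ∀ᶠ x : ℝ in Filter.atTop, 3 ≤ Real.log x := hL.eventually_ge_atTop 3
  have e3 : ∀ᶠ x : ℝ in Filter.atTop, 1 ≤ Real.log (Real.log x) :=
    (hL.comp hL).eventually_ge_atTop 1
  have hz1 : 0 < ζ + 1 := by linarith
  have hc : 0 < 1 / (64 * (ζ + 1) * (A + 2)) := by positivity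
  have e2 : ∀ᶠ x : ℝ in Filter.atTop, (Real.log (Real.log x)) ^ 2 ≤
      1 / (64 * (ζ + 1) * (A + 2)) * Real.log x := by
    have h1 := (Real.isLittleO_pow_log_id_atTop (n := 2)).def hc
    have h2 := hL.eventually h1
    filter_upwards [h2, e1] with x h3 h4
    rw [Real.norm_eq_abs, Real.norm_eq_abs, id, abs_of_nonneg (sq_nonneg _),
      abs_of_nonneg (by linarith)] at h3
    exact h3
  have e4 : ∀ᶠ x : ℝ in Filter.atTop, Real.log x ^ (A + 1) ≤ 1 / (ζ + 1) * x ^ ((3 : ℝ) / 4) := by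
    have h1 := (isLittleO_log_rpow_rpow_atTop (A + 1) (show (0 : ℝ) < (3 : ℝ) / 4 by positivity)).def
      (show (0 : ℝ) < 1 / (ζ + 1) by positivity)
    filter_upwards [h1, e1, Filter.eventually_ge_atTop 1] with x h3 h4 h5
    rw [Real.norm_eq_abs, Real.norm_eq_abs,
      abs_of_nonneg (Real.rpow_nonneg (by linarith) _),
      abs_of_nonneg (Real.rpow_nonneg (by linarith) _)] at h3
    exact h3
  have e5 : ∀ᶠ x : ℝ in Filter.atTop, Real.log x ^ ζ ≤ x ^ ((1 : ℝ) / 4) := by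
    have h1 := (isLittleO_log_rpow_rpow_atTop ζ (show (0 : ℝ) < (1 : ℝ) / 4 by positivity)).def
      (show (0 : ℝ) < 1 by norm_num)
    filter_upwards [h1, e1, Filter.eventually_ge_atTop 1] with x h3 h4 h5
    rw [Real.norm_eq_abs, Real.norm_eq_abs,
      abs_of_nonneg (Real.rpow_nonneg (by linarith) _),
      abs_of_nonneg (Real.rpow_nonneg (by linarith) _), one_mul] at h3
    exact h3
  obtain ⟨x1, hx1⟩ := Filter.eventually_atTop.1 ((((e1.and e2).and e3).and e4).and e5)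
  refine ⟨max 3 x1, le_max_left _ _, fun x hx => ?_⟩
  obtain ⟨⟨⟨⟨h1, h2⟩, h3⟩, h4⟩, h5⟩ := hx1 x ((le_max_right _ _).trans hx)
  refine ⟨h1, ?_, h3, ?_, h5⟩
  · have h5 : Real.log (Real.log x) * (64 * (ζ + 1)) * (A * Real.log (Real.log x) + 2) ≤
        64 * (ζ + 1) * (A + 2) * (Real.log (Real.log x)) ^ 2 := by
      have h6 : A * Real.log (Real.log x) + 2 ≤ (A + 2) * Real.log (Real.log x) := by nlinarith
      have h7 : 0 ≤ Real.log (Real.log x) * (64 * (ζ + 1)) := by positivity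
      calc Real.log (Real.log x) * (64 * (ζ + 1)) * (A * Real.log (Real.log x) + 2)
          ≤ Real.log (Real.log x) * (64 * (ζ + 1)) * ((A + 2) * Real.log (Real.log x)) :=
            mul_le_mul_of_nonneg_left h6 h7
        _ = 64 * (ζ + 1) * (A + 2) * (Real.log (Real.log x)) ^ 2 := by ring
    refine h5.trans ((mul_le_mul_of_nonneg_left h2 (by positivity)).trans (le_of_eq ?_))
    field_simp
  · have h5 := mul_le_mul_of_nonneg_left h4 hz1.le
    refine h5.trans (le_of_eq ?_)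
    field_simp

/-- The level of the sieve. -/
private theorem Nsw_err (A ζ : ℝ) (hA : 0 < A) (hζ : 1 ≤ ζ)
    (x : ℝ) (hx3 : 3 ≤ x) (h1 : 3 ≤ Real.log x)
    (h2 : Real.log (Real.log x) * (64 * (ζ + 1)) * (A * Real.log (Real.log x) + 2) ≤ Real.log x)
    (h3 : 1 ≤ Real.log (Real.log x))
    (h4 : (ζ + 1) * Real.log x ^ (A + 1) ≤ x ^ ((3 : ℝ) / 4)) :
    2 ≤ zz ζ x ∧ ∃ b : ℕ, 1 ≤ b ∧ Real.exp (-(b : ℝ)) ≤ Real.log x ^ (-A) ∧
      Real.log (zz ζ x) * (zz ζ x : ℝ) ^ (16 * b) ≤ x * Real.log x ^ (-A) ∧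
      1 ≤ x * Real.log x ^ (-A) := by
  have hx0 : 0 < x := by linarith
  have hL0 : 0 < Real.log x := by linarith
  have hz1 : 0 < ζ + 1 := by linarith
  set L := Real.log x with hL
  have hLζ : 1 ≤ L ^ ζ := Real.one_le_rpow (by linarith) (by linarith)
  have hL1 : L ≤ L ^ ζ := by
    calc L = L ^ (1 : ℝ) := (Real.rpow_one _).symm
      _ ≤ L ^ ζ := Real.rpow_le_rpow_of_exponent_le (by linarith) (by linarith)
  have hzle : L ^ ζ ≤ (zz ζ x : ℝ) := Nat.le_ceil _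
  have hz2 : 2 ≤ zz ζ x := by
    have : (2 : ℝ) ≤ (zz ζ x : ℝ) := by linarith
    exact_mod_cast this
  have hz0 : (0 : ℝ) < (zz ζ x : ℝ) := by linarith
  have hzu : (zz ζ x : ℝ) ≤ L ^ (ζ + 1) := by
    have h5 : (zz ζ x : ℝ) < L ^ ζ + 1 := Nat.ceil_lt_add_one (by linarith)
    rw [Real.rpow_add hL0, Real.rpow_one]
    nlinarith
  have hlogz : Real.log (zz ζ x) ≤ (ζ + 1) * Real.log L := by
    rw [← Real.log_rpow hL0]
    exact Real.log_le_log hz0 hzu
  have hlogz0 : 0 ≤ Real.log (zz ζ x) := Real.log_nonneg (by linarith)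
  have hlL0 : 0 < Real.log L := by linarith
  set B : ℝ := L / (Real.log L * (64 * (ζ + 1))) with hB
  have hB1 : A * Real.log L + 2 ≤ B := by
    rw [hB, le_div_iff₀ (by positivity)]
    linarith
  have hB0 : 0 ≤ B := by
    have : 0 ≤ A * Real.log L := by positivity
    linarith
  have hbu : (⌊B⌋₊ : ℝ) ≤ B := Nat.floor_le hB0
  have hbl : B - 1 < (⌊B⌋₊ : ℝ) := Nat.sub_one_lt_floor B
  have hAL : 0 ≤ A * Real.log L := by positivity
  have hLA : L ^ (-A) = Real.exp (-(A * Real.log L)) := by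
    rw [Real.rpow_def_of_pos hL0]
    congr 1
    ring
  have hxε : ∀ t : ℝ, x ^ t = Real.exp (t * L) := by
    intro t
    rw [Real.rpow_def_of_pos hx0, mul_comm]
  have hpos : 0 < L ^ (-A) := Real.rpow_pos_of_pos hL0 _
  have h5 : (ζ + 1) * L * x ^ ((1 : ℝ) / 4) ≤ x * L ^ (-A) := by
    have h6 : (ζ + 1) * L = (ζ + 1) * L ^ (A + 1) * L ^ (-A) := by
      rw [mul_assoc, ← Real.rpow_add hL0]
      norm_num
    have h7 : x = x ^ ((3 : ℝ) / 4) * x ^ ((1 : ℝ) / 4) := by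
      rw [← Real.rpow_add hx0]
      norm_num
    have h8 : 0 ≤ L ^ (-A) * x ^ ((1 : ℝ) / 4) := by positivity
    calc (ζ + 1) * L * x ^ ((1 : ℝ) / 4)
        = (ζ + 1) * L ^ (A + 1) * (L ^ (-A) * x ^ ((1 : ℝ) / 4)) := by rw [h6]; ring
      _ ≤ x ^ ((3 : ℝ) / 4) * (L ^ (-A) * x ^ ((1 : ℝ) / 4)) := mul_le_mul_of_nonneg_right h4 h8
      _ = x ^ ((3 : ℝ) / 4) * x ^ ((1 : ℝ) / 4) * L ^ (-A) := by ring
      _ = x * L ^ (-A) := by rw [← h7]
  refine ⟨hz2, ⌊B⌋₊, ?_, ?_, ?_, ?_⟩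
  · exact Nat.one_le_floor_iff B |>.2 (by linarith)
  · rw [hLA]
    exact Real.exp_le_exp.2 (by linarith)
  · have h6 : (zz ζ x : ℝ) ^ (16 * ⌊B⌋₊) ≤ x ^ ((1 : ℝ) / 4) := by
      have h7 : (zz ζ x : ℝ) ^ (16 * ⌊B⌋₊) = Real.exp (Real.log (zz ζ x) * (16 * ⌊B⌋₊)) := by
        rw [← Real.rpow_natCast, Real.rpow_def_of_pos hz0]
        push_cast
        ring_nf
      rw [h7, hxε]
      refine Real.exp_le_exp.2 ?_
      have h8 : Real.log (zz ζ x) * (16 * (⌊B⌋₊ : ℝ)) ≤ (ζ + 1) * Real.log L * (16 * B) := by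
        have h9 : (0 : ℝ) ≤ 16 * (⌊B⌋₊ : ℝ) := by positivity
        have h10 : (0 : ℝ) ≤ (ζ + 1) * Real.log L := by positivity
        calc Real.log (zz ζ x) * (16 * (⌊B⌋₊ : ℝ)) ≤ (ζ + 1) * Real.log L * (16 * (⌊B⌋₊ : ℝ)) :=
              mul_le_mul_of_nonneg_right hlogz h9
          _ ≤ (ζ + 1) * Real.log L * (16 * B) := mul_le_mul_of_nonneg_left (by linarith) h10
      refine h8.trans (le_of_eq ?_)
      rw [hB]
      field_simp
      ring
    have h7 : Real.log (zz ζ x) ≤ (ζ + 1) * L := by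
      have h8 : Real.log L ≤ L := (Real.log_le_sub_one_of_pos hL0).trans (by linarith)
      exact hlogz.trans (mul_le_mul_of_nonneg_left h8 hz1.le)
    calc Real.log (zz ζ x) * (zz ζ x : ℝ) ^ (16 * ⌊B⌋₊) ≤ (ζ + 1) * L * x ^ ((1 : ℝ) / 4) :=
          mul_le_mul h7 h6 (by positivity) (by positivity)
      _ ≤ x * L ^ (-A) := h5
  · refine le_trans ?_ h5
    have h6 : 1 ≤ x ^ ((1 : ℝ) / 4) := Real.one_le_rpow (by linarith) (by positivity)
    have h7 : 1 ≤ (ζ + 1) * L := by nlinarith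
    nlinarith

/-- the sum over 1 ≤ n ≤ M -/
private noncomputable def Nsw_S (z q : ℕ) (b M : ℤ) : ℝ :=
  ∑ n ∈ Icc (1 : ℤ) M, if (q : ℤ) ∣ n - b then ff z n else 0

private theorem Nsw_small (z q : ℕ) (b M : ℤ) (hM : M < 2) : Nsw_S z q b M = 0 := by
  unfold Nsw_S
  refine Finset.sum_eq_zero fun n hn => ?_
  rw [Finset.mem_Icc] at hn
  have h1 : n = 1 := by omega
  subst h1
  have h2 : ff z 1 = 0 := by
    unfold ff Pool.Agent.Lib.UI.lci
    norm_num
  rw [h2, ite_self]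

/-- coprime class -/
private theorem Nsw_cop (C1 : ℝ) (hC1 : 0 < C1)
    (hN : ∀ z b d l N N2 : ℕ, 2 ≤ z → 1 ≤ b → 1 ≤ d → l.Coprime d → N ≤ N2 →
      |∑ n ∈ (Ioc N N2).filter (fun n => n ≡ l [MOD d]), Pool.Agent.Lib.BV.rr z n / nrm z -
        ((N2 : ℝ) - N) / (d.totient : ℝ)| ≤
        C1 * (((N2 : ℝ) - N) / (d.totient : ℝ) * (Real.exp (-(b : ℝ)) + (if d ≤ z then 0 else Real.log d / z))) +
          C1 * Real.log z * (z : ℝ) ^ (16 * b)) (h2 : NabStmt)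
    (x E0 R : ℝ) (z k q M : ℕ) (b : ℤ) (hz2 : 2 ≤ z) (hk : 1 ≤ k) (hq : 1 ≤ q) (hqz : q ≤ z)
    (hM : 2 ≤ M) (hMx : (M : ℝ) ≤ x) (hgcd : Int.gcd b q = 1)
    (hexp : x * Real.exp (-(k : ℝ)) ≤ R) (hpow : Real.log z * (z : ℝ) ^ (16 * k) ≤ R) (hR : 1 ≤ R)
    (hE0 : maxErr M q ≤ E0) :
    |Nsw_S z q b M| ≤ E0 + 10 * (2 * C1 * R + 1) := by
  obtain ⟨l, hl1, hlq, hl, hcls⟩ := Nsw_cls q b hq hgcd
  have hφ : 0 < (q.totient : ℝ) := Nat.cast_pos.2 (Nat.totient_pos.2 hq)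
  have hφ1 : (1 : ℝ) ≤ (q.totient : ℝ) := Nat.one_le_cast.2 (Nat.totient_pos.2 hq)
  have hx0 : 0 ≤ x := le_trans (Nat.cast_nonneg _) hMx
  have hab := h2 (fun n => if (q : ℤ) ∣ n - b then nu z n else 0) (1 / (q.totient : ℝ)) (2 * C1 * R) (M : ℝ)
    (by positivity) ((div_le_one hφ).2 hφ1) (by positivity) (by exact_mod_cast hM) (fun N hNy => by
      rw [Nsw_sum N]
      have h4 := hN z k q l 0 N hz2 hk hq hl (Nat.zero_le _)
      have h5 : ∑ n ∈ (Ioc 0 N).filter (fun n => n ≡ l [MOD q]),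
          Pool.Agent.Lib.BV.rr z n / nrm z =
          ∑ n ∈ Ioc 0 N, if (q : ℤ) ∣ (n : ℤ) - b then nu z (n : ℤ) else 0 := by
        rw [Finset.sum_filter]
        refine Finset.sum_congr rfl fun n hn => ?_
        rw [Finset.mem_Ioc] at hn
        have h6 : nu z (n : ℤ) = Pool.Agent.Lib.BV.rr z n / nrm z := by
          rw [nu, if_pos (by omega), Int.toNat_natCast]
        rw [h6]
        by_cases h7 : n ≡ l [MOD q]
        · rw [if_pos h7, if_pos ((hcls n).1 h7)]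
        · rw [if_neg h7, if_neg fun h8 => h7 ((hcls n).2 h8)]
      rw [h5, Nat.cast_zero, sub_zero, if_pos hqz, add_zero] at h4
      have h6 : 1 / (q.totient : ℝ) * (N : ℝ) = (N : ℝ) / (q.totient : ℝ) := by ring
      rw [h6]
      refine h4.trans ?_
      have h7 : (N : ℝ) / (q.totient : ℝ) ≤ x := by
        rw [div_le_iff₀ hφ]
        nlinarith [hNy.trans hMx]
      have h8 : (N : ℝ) / (q.totient : ℝ) * Real.exp (-(k : ℝ)) ≤ R :=
        (mul_le_mul_of_nonneg_right h7 (Real.exp_pos _).le).trans hexp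
      have h9 := mul_le_mul_of_nonneg_left h8 hC1.le
      have h10 := mul_le_mul_of_nonneg_left hpow hC1.le
      linarith)
  have herr := Pool.Agent.Lib.EH.le_maxErr (M : ℝ) q l hl1 hlq hl
  have hpc := Nsw_prime M q l b hcls
  have hsplit : Nsw_S z q b M = (primeCount (M : ℝ) q l : ℝ) -
      ∑ n ∈ Icc (1 : ℤ) ⌊(M : ℝ)⌋, Pool.Agent.Lib.UI.lci n * (if (q : ℤ) ∣ n - b then nu z n else 0) := by
    rw [← hpc, Int.floor_natCast, ← Finset.sum_sub_distrib]
    unfold Nsw_S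
    refine Finset.sum_congr rfl fun n hn => ?_
    rw [Finset.mem_Icc] at hn
    by_cases h7 : (q : ℤ) ∣ n - b
    · rw [if_pos h7, if_pos h7, if_pos h7]
      unfold ff
      rw [if_pos hn.1]
    · rw [if_neg h7, if_neg h7, if_neg h7]
      ring
  have e1 : Nsw_S z q b M = err (M : ℝ) q l -
      (∑ n ∈ Icc (1 : ℤ) ⌊(M : ℝ)⌋, Pool.Agent.Lib.UI.lci n * (if (q : ℤ) ∣ n - b then nu z n else 0) -
        1 / (q.totient : ℝ) * li (M : ℝ)) := by
    rw [hsplit]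
    unfold err
    ring
  rw [e1]
  refine (abs_sub _ _).trans (add_le_add (herr.trans hE0) hab)

/-- class not coprime to q -/
private theorem Nsw_ncp (z q : ℕ) (b M : ℤ) (hq : 1 ≤ q) (hqz : q ≤ z) (hgcd : Int.gcd b q ≠ 1) :
    |Nsw_S z q b M| ≤ 1 := by
  obtain ⟨p, hp, hpg⟩ := Nat.exists_prime_and_dvd hgcd
  have hpq : (p : ℤ) ∣ q := (Int.natCast_dvd_natCast.2 hpg).trans (Int.gcd_dvd_right _ _)
  have hpb : (p : ℤ) ∣ b := (Int.natCast_dvd_natCast.2 hpg).trans (Int.gcd_dvd_left _ _)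
  have hpq' : p ∣ q := Int.natCast_dvd_natCast.1 hpq
  have hpz : p ≤ z := (Nat.le_of_dvd hq hpq').trans hqz
  have hterm : ∀ n ∈ Icc (1 : ℤ) M, (if (q : ℤ) ∣ n - b then ff z n else 0) =
      if n = (p : ℤ) then (if (q : ℤ) ∣ (p : ℤ) - b then 1 else 0) else 0 := by
    intro n hn
    rw [Finset.mem_Icc] at hn
    by_cases h7 : (q : ℤ) ∣ n - b
    · rw [if_pos h7]
      have h8 : (p : ℤ) ∣ n := by
        have h9 := dvd_add (hpq.trans h7) hpb
        simpa using h9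
      have h9 : p ∣ n.toNat := by
        have : ((n.toNat : ℕ) : ℤ) = n := Int.toNat_of_nonneg (by omega)
        rw [← this] at h8
        exact Int.natCast_dvd_natCast.1 h8
      have h10 : Pool.Agent.Lib.BV.rr z n.toNat = 0 := by
        unfold Pool.Agent.Lib.BV.rr
        rw [if_neg]
        intro hR
        exact absurd hpz (not_le.2 (hR p hp h9))
      have h11 : ff z n = if n.toNat.Prime then 1 else 0 := by
        unfold ff nu
        rw [if_pos hn.1, if_pos hn.1, h10]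
        simp
      rw [h11]
      by_cases h12 : n.toNat.Prime
      · have h13 : p = n.toNat := (Nat.prime_dvd_prime_iff_eq hp h12).1 h9
        have h14 : n = (p : ℤ) := by omega
        rw [if_pos h12, if_pos h14, ← h14, if_pos h7]
      · rw [if_neg h12, if_neg]
        intro h13
        rw [h13, Int.toNat_natCast] at h12
        exact h12 hp
    · rw [if_neg h7]
      by_cases h8 : n = (p : ℤ)
      · rw [if_pos h8, if_neg (by rw [← h8]; exact h7)]
      · rw [if_neg h8]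
  unfold Nsw_S
  rw [Finset.sum_congr rfl hterm, Finset.sum_ite_eq']
  split_ifs <;> norm_num

/-- cutting an interval -/
private theorem Nsw_cut (z q : ℕ) (b u v Y : ℤ) : ∃ M1 M2 : ℤ, M1 ≤ Y ∧ M2 ≤ Y ∧
    |∑ n ∈ (Ico u v).filter (fun n => (q : ℤ) ∣ n - b), fc z Y n| ≤
      |Nsw_S z q b M1| + |Nsw_S z q b M2| := by
  by_cases hY : Y < 1
  · refine ⟨Y, Y, le_rfl, le_rfl, ?_⟩
    rw [Finset.sum_eq_zero, abs_zero]
    · positivity
    · intro n hn
      unfold fc ff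
      by_cases h1 : n ≤ Y
      · rw [if_pos h1, if_neg (by omega)]
      · rw [if_neg h1]
  have hS : ∑ n ∈ (Ico u v).filter (fun n => (q : ℤ) ∣ n - b), fc z Y n =
      ∑ n ∈ Ico (max u 1) (min v (Y + 1)), if (q : ℤ) ∣ n - b then ff z n else 0 := by
    rw [Finset.sum_filter]
    symm
    refine Finset.sum_subset_zero_on_sdiff ?_ ?_ ?_
    · intro n hn
      rw [Finset.mem_Ico] at hn ⊢
      omega
    · intro n hn
      rw [Finset.mem_sdiff, Finset.mem_Ico, Finset.mem_Ico] at hn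
      unfold fc ff
      by_cases h1 : n ≤ Y
      · rw [if_pos h1, if_neg (show ¬ (1 : ℤ) ≤ n by omega), ite_self]
      · rw [if_neg h1, ite_self]
    · intro n hn
      rw [Finset.mem_Ico] at hn
      unfold fc
      rw [if_pos (show n ≤ Y by omega)]
  rw [hS]
  by_cases h : max u 1 ≤ min v (Y + 1)
  · refine ⟨min v (Y + 1) - 1, max u 1 - 1, by omega, by omega, ?_⟩
    have e1 : ∀ w : ℤ, Icc (1 : ℤ) (w - 1) = Ico 1 w := by
      intro w
      ext n
      simp only [Finset.mem_Icc, Finset.mem_Ico]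
      omega
    have e2 : Ico (1 : ℤ) (max u 1) ∪ Ico (max u 1) (min v (Y + 1)) = Ico 1 (min v (Y + 1)) :=
      Finset.Ico_union_Ico_eq_Ico (le_max_right _ _) h
    have e3 : Disjoint (Ico (1 : ℤ) (max u 1)) (Ico (max u 1) (min v (Y + 1))) :=
      Finset.Ico_disjoint_Ico_consecutive _ _ _
    have e4 := Finset.sum_union e3 (f := fun n => if (q : ℤ) ∣ n - b then ff z n else 0)
    rw [e2] at e4
    unfold Nsw_S
    rw [e1, e1]
    have e5 : ∑ n ∈ Ico (max u 1) (min v (Y + 1)), (if (q : ℤ) ∣ n - b then ff z n else 0) =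
        ∑ n ∈ Ico 1 (min v (Y + 1)), (if (q : ℤ) ∣ n - b then ff z n else 0) -
          ∑ n ∈ Ico 1 (max u 1), (if (q : ℤ) ∣ n - b then ff z n else 0) := by
      rw [e4]
      ring
    rw [e5]
    exact abs_sub _ _
  · refine ⟨Y, Y, le_rfl, le_rfl, ?_⟩
    rw [Finset.Ico_eq_empty (by omega), Finset.sum_empty, abs_zero]
    positivity

theorem tNsw (h1 : NnuStmt) (h2 : NabStmt) (h3 : Pool.Agent.Lib.KF.BvyStmt) : NswStmt := by
  obtain ⟨C1, hC1, hN⟩ := h1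
  intro A ζ hA hζ
  obtain ⟨C2, hC2, hB⟩ := h3 A (1 / 4) hA (by norm_num) (by norm_num)
  obtain ⟨x0, hx0, hnum⟩ := Nsw_num A ζ hA hζ
  refine ⟨2 * (C2 + 10 * (2 * C1 + 1)), x0, by positivity, hx0, ?_⟩
  intro x y q b u v hx hy hyx hq hqx
  obtain ⟨n1, n2, n3, n4, n5⟩ := hnum x hx
  have hx3 : 3 ≤ x := hx0.trans hx
  obtain ⟨hz2, k, hk, hexp, hpow, hone⟩ := Nsw_err A ζ hA hζ x hx3 n1 n2 n3 n4
  have hqz : q ≤ zz ζ x := by
    have h5 : Real.log x ^ ζ ≤ (zz ζ x : ℝ) := Nat.le_ceil _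
    exact_mod_cast hqx.trans h5
  set R : ℝ := x * Real.log x ^ (-A) with hR
  have hkey : ∀ M : ℤ, M ≤ ⌊y⌋ → |Nsw_S (zz ζ x) q b M| ≤ (C2 + 10 * (2 * C1 + 1)) * R := by
    intro M hM
    by_cases hM2 : M < 2
    · rw [Nsw_small _ _ _ _ hM2, abs_zero]
      positivity
    by_cases hg : Int.gcd b q = 1
    · obtain ⟨M', rfl⟩ : ∃ M' : ℕ, M = (M' : ℤ) := ⟨M.toNat, by omega⟩
      have hM' : 2 ≤ M' := by omega
      have hMy : (M' : ℝ) ≤ y := by
        have h5 := Int.le_floor.1 hM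
        exact_mod_cast h5
      have hE : maxErr (M' : ℝ) q ≤ C2 * R := by
        have h5 := hB x (M' : ℝ) hx3 (by exact_mod_cast hM') (hMy.trans hyx)
        have h6 : q ∈ Icc 1 ⌊x ^ ((1 : ℝ) / 4)⌋₊ := by
          rw [Finset.mem_Icc]
          exact ⟨hq, Nat.le_floor (hqx.trans n5)⟩
        have h7 := Finset.single_le_sum (f := fun d => maxErr (M' : ℝ) d)
          (fun d _ => Pool.Agent.Lib.EH.maxErr_nonneg _ d) h6
        refine (h7.trans h5).trans (le_of_eq ?_)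
        rw [hR, Real.rpow_neg (by linarith)]
        ring
      have h5 := Nsw_cop C1 hC1 hN h2 x (C2 * R) R (zz ζ x) k q M' b hz2 hk hq hqz hM' (hMy.trans hyx) hg
        (mul_le_mul_of_nonneg_left hexp (by linarith)) hpow hone hE
      refine h5.trans ?_
      nlinarith
    · refine (Nsw_ncp _ _ _ _ hq hqz hg).trans ?_
      nlinarith
  obtain ⟨M1, M2, hM1, hM2, hc⟩ := Nsw_cut (zz ζ x) q b u v ⌊y⌋
  refine hc.trans ?_
  have h5 := hkey M1 hM1
  have h6 := hkey M2 hM2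
  linarith

end Pool.Agent.Lib.TR
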