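import Pool.Agent.Lib.TR.SpecN

/-!
MP_00e23e_nt, directory Lib/TR, chapter N, module Nsz: sizes.
-/

set_option autoImplicit false

namespace Pool.Agent.Lib.TR

open Finset Pool.Agent.Lib.EH3 Pool.Agent.Results.MP_00e23e_nt

private lemma Nsz_rr (z n : ℕ) : 0 ≤ Pool.Agent.Lib.BV.rr z n ∧ Pool.Agent.Lib.BV.rr z n ≤ 1 := by
  unfold Pool.Agent.Lib.BV.rr
  split_ifs
  · exact ⟨zero_le_one, le_rfl⟩
  · exact ⟨le_rfl, zero_le_one⟩

private lemma Nsz_nu {C : ℝ} {z : ℕ} (hC : 1 ≤ C) (hz : 2 ≤ z) (h0 : 0 < nrm z)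
    (h1 : 1 / nrm z ≤ C * Real.log z) (n : ℤ) : 0 ≤ nu z n ∧ nu z n ≤ C * Real.log z := by
  have hz1 : (1 : ℝ) ≤ z := by exact_mod_cast (by omega : 1 ≤ z)
  unfold nu
  split_ifs
  · obtain ⟨h2, h3⟩ := Nsz_rr z n.toNat
    refine ⟨div_nonneg h2 h0.le, le_trans ?_ h1⟩
    exact div_le_div_of_nonneg_right h3 h0.le
  · exact ⟨le_rfl, mul_nonneg (by linarith) (Real.log_nonneg hz1)⟩

private lemma Nsz_ff {z : ℕ} {n : ℤ} (hl : 0 ≤ Pool.Agent.Lib.UI.lci n) (hn : 0 ≤ nu z n) :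
    |ff z n| ≤ (if 1 ≤ n ∧ n.toNat.Prime then 1 else 0) + Pool.Agent.Lib.UI.lci n * nu z n := by
  have hp : 0 ≤ Pool.Agent.Lib.UI.lci n * nu z n := mul_nonneg hl hn
  unfold ff
  by_cases h1 : 1 ≤ n
  · rw [if_pos h1]
    by_cases h2 : n.toNat.Prime
    · rw [if_pos h2, if_pos ⟨h1, h2⟩, abs_le]
      constructor <;> linarith
    · rw [if_neg h2, if_neg (fun h => h2 h.2), abs_le]
      constructor <;> linarith
  · rw [if_neg h1, if_neg (fun h => h1 h.1), abs_zero]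
    linarith

private lemma Nsz_log {x : ℝ} {n : ℤ} (hx : 100 ≤ x) (hn : Real.sqrt x ≤ n) :
    Pool.Agent.Lib.UI.lci n ≤ 3 / Real.log x := by
  have hs : (10 : ℝ) ≤ Real.sqrt x := by
    rw [show (10 : ℝ) = Real.sqrt 100 by
      rw [show (100 : ℝ) = 10 ^ 2 by norm_num, Real.sqrt_sq (by norm_num)]]
    exact Real.sqrt_le_sqrt hx
  have hn10 : (10 : ℝ) ≤ (n : ℝ) := hs.trans hn
  have hn3 : 3 ≤ n := by
    have h : (3 : ℝ) ≤ (n : ℝ) := by linarith
    exact_mod_cast h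
  have hlx : 0 < Real.log x := Real.log_pos (by linarith)
  have hkey : Real.log x ≤ 3 * Real.log ((n : ℝ) - 1) := by
    have e1 : Real.log x = Real.log (Real.sqrt x ^ 2) := by rw [Real.sq_sqrt (by linarith)]
    have e2 : 3 * Real.log ((n : ℝ) - 1) = Real.log (((n : ℝ) - 1) ^ 3) := by
      rw [Real.log_pow]
      norm_num
    rw [e1, e2]
    refine Real.log_le_log (by positivity) ?_
    have h1 : Real.sqrt x ^ 2 ≤ (n : ℝ) ^ 2 := pow_le_pow_left₀ (by linarith) hn 2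
    refine h1.trans ?_
    nlinarith [mul_nonneg (by linarith : (0 : ℝ) ≤ (n : ℝ) - 10) (sq_nonneg (n : ℝ)), sq_nonneg ((n : ℝ) - 10)]
  have hl1 : 0 < Real.log ((n : ℝ) - 1) := Real.log_pos (by linarith)
  unfold Pool.Agent.Lib.UI.lci
  rw [if_pos hn3]
  have hint : ∀ a b : ℝ, 2 ≤ a → 2 ≤ b →
      IntervalIntegrable (fun t : ℝ => (Real.log t)⁻¹) MeasureTheory.volume a b := by
    intro a b ha hb
    apply ContinuousOn.intervalIntegrable
    have h : ∀ t ∈ Set.uIcc a b, 2 ≤ t := by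
      intro t ht
      rw [Set.mem_uIcc] at ht
      rcases ht with ht | ht
      · linarith
      · linarith
    apply ContinuousOn.inv₀
    · apply Real.continuousOn_log.mono
      intro t ht
      rw [Set.mem_compl_iff, Set.mem_singleton_iff]
      have := h t ht
      linarith
    · intro t ht
      have := h t ht
      exact (Real.log_pos (by linarith)).ne'
  have e3 : li (n : ℝ) - li ((n : ℝ) - 1) = ∫ t in ((n : ℝ) - 1)..(n : ℝ), (Real.log t)⁻¹ := by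
    unfold li
    exact intervalIntegral.integral_interval_sub_left (hint _ _ le_rfl (by linarith))
      (hint _ _ le_rfl (by linarith))
  have e4 : ∫ _t in ((n : ℝ) - 1)..(n : ℝ), (Real.log ((n : ℝ) - 1))⁻¹ = (Real.log ((n : ℝ) - 1))⁻¹ := by
    rw [intervalIntegral.integral_const, smul_eq_mul]
    ring
  rw [e3]
  have h5 : ∫ t in ((n : ℝ) - 1)..(n : ℝ), (Real.log t)⁻¹ ≤ (Real.log ((n : ℝ) - 1))⁻¹ := by
    rw [← e4]
    refine intervalIntegral.integral_mono_on (by linarith) (hint _ _ (by linarith) (by linarith))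
      intervalIntegrable_const ?_
    intro t ht
    exact inv_anti₀ hl1 (Real.log_le_log (by linarith) ht.1)
  refine h5.trans ?_
  rw [inv_eq_one_div, div_le_div_iff₀ hl1 hlx]
  linarith

/-- Module Nsz: sizes. -/
theorem tNsz (h1 : NnmStmt) (h2 : Pool.Agent.Lib.UI.MincStmt) : NszStmt := by
  obtain ⟨C, hC, hN⟩ := h1
  obtain ⟨hli, -⟩ := h2
  have key : ∀ (z : ℕ) (n : ℤ), 2 ≤ z → 0 ≤ nu z n ∧ nu z n ≤ C * Real.log z := by
    intro z n hz
    obtain ⟨a1, -, -, a4⟩ := hN z hz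
    exact Nsz_nu hC hz a1 a4 n
  refine ⟨⟨C, hC, fun z n hz => ?_⟩, fun z n hz => ?_, fun z n hn => ?_, fun x n hx hn => Nsz_log hx hn⟩
  · obtain ⟨b1, b2⟩ := key z n hz
    refine ⟨b1, b2, (Nsz_ff (hli n).1 b1).trans ?_⟩
    have h3 : Pool.Agent.Lib.UI.lci n * nu z n ≤ 2 * (C * Real.log z) :=
      mul_le_mul (hli n).2 b2 b1 (by norm_num)
    have h4 : (if 1 ≤ n ∧ n.toNat.Prime then (1 : ℝ) else 0) ≤ 1 := by
      split_ifs
      · exact le_rfl
      · exact zero_le_one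
    linarith
  · exact Nsz_ff (hli n).1 (key z n hz).1
  · unfold ff
    rw [if_neg (by omega)]

end Pool.Agent.Lib.TR
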