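import Pool.Agent.Lib.TR.SpecR

/-!
MP_00e23e_nt, directory Lib/TR, module Ram: Ramare weights.
-/

set_option autoImplicit false

namespace Pool.Agent.Lib.TR

open Finset Pool.Agent.Lib.EH3 Pool.Agent.Results.MP_00e23e_nt

private theorem Ram_om_sq {P0 P1 u p : ℕ} (hp : p.Prime) (h2 : p ^ 2 ∣ u) :
    om P0 P1 (u / p) = om P0 P1 u := by
  have hpu : p ∣ u := (dvd_pow_self p two_ne_zero).trans h2
  obtain ⟨v, rfl⟩ := hpu
  have hv : p ∣ v := by
    rw [pow_two] at h2
    exact Nat.dvd_of_mul_dvd_mul_left hp.pos h2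
  unfold om
  rw [Nat.mul_div_cancel_left v hp.pos]
  congr 1
  ext q
  simp only [mem_filter]
  refine and_congr_right fun hq => ⟨fun h => h.mul_left p, fun h => ?_⟩
  have hqp : q.Prime := by
    unfold PS at hq
    exact (mem_filter.1 hq).2
  rcases hqp.dvd_mul.1 h with h1 | h1
  · rwa [(Nat.prime_dvd_prime_iff_eq hqp hp).1 h1]
  · exact h1

private theorem Ram_om_not {P0 P1 u p : ℕ} (hp : p ∈ PS P0 P1) (hpu : p ∣ u) (h2 : ¬ p ^ 2 ∣ u) :
    om P0 P1 (u / p) + 1 = om P0 P1 u := by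
  have hpp : p.Prime := by
    unfold PS at hp
    exact (mem_filter.1 hp).2
  obtain ⟨v, rfl⟩ := hpu
  have hv : ¬ p ∣ v := by
    rw [pow_two] at h2
    exact fun h => h2 (mul_dvd_mul_left p h)
  unfold om
  rw [Nat.mul_div_cancel_left v hpp.pos]
  have h3 : (PS P0 P1).filter (fun q => q ∣ v) = ((PS P0 P1).filter (fun q => q ∣ p * v)).erase p := by
    ext q
    simp only [mem_filter, mem_erase]
    constructor
    · rintro ⟨h4, h5⟩
      refine ⟨?_, h4, h5.mul_left p⟩
      rintro rfl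
      exact hv h5
    · rintro ⟨h4, h5, h6⟩
      refine ⟨h5, ?_⟩
      have hqp : q.Prime := by
        unfold PS at h5
        exact (mem_filter.1 h5).2
      rcases hqp.dvd_mul.1 h6 with h7 | h7
      · exact absurd ((Nat.prime_dvd_prime_iff_eq hqp hpp).1 h7) h4
      · exact h7
  rw [h3]
  exact card_erase_add_one (mem_filter.2 ⟨hp, dvd_mul_right p v⟩)

private theorem Ram_abs {w : ℝ} (hw : 1 ≤ w) : |1 / w - 1 / (w + 1)| ≤ 1 := by
  have h0 : 0 < w := by linarith
  have h1 : 0 < w + 1 := by linarith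
  have h6 : 1 / w ≤ 1 := by
    rw [div_le_one h0]
    exact hw
  have h7 : 0 < 1 / w := one_div_pos.2 h0
  have h8 : 0 < 1 / (w + 1) := one_div_pos.2 h1
  have h9 : 1 / (w + 1) ≤ 1 := by
    rw [div_le_one h1]
    linarith
  rw [abs_le]
  constructor <;> linarith

theorem tRam : RamStmt := by
  intro P0 P1 u hu
  by_cases hg : Good P0 P1 u
  · rw [if_pos hg]
    set F := (PS P0 P1).filter (fun p => p ∣ u) with hF
    have hcard : om P0 P1 u = F.card := rfl
    have hpos : 0 < F.card := by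
      obtain ⟨p, hp, hpu⟩ := hg
      exact card_pos.2 ⟨p, mem_filter.2 ⟨hp, hpu⟩⟩
    have hposR : (0 : ℝ) < (F.card : ℝ) := by exact_mod_cast hpos
    have h1 : (1 : ℝ) = ∑ _p ∈ F, 1 / (F.card : ℝ) := by
      rw [sum_const, nsmul_eq_mul]
      field_simp
    have h2 : (1 : ℝ) - ∑ p ∈ F, 1 / ((om P0 P1 (u / p) : ℝ) + 1) =
        ∑ p ∈ F, (1 / (F.card : ℝ) - 1 / ((om P0 P1 (u / p) : ℝ) + 1)) := by
      rw [sum_sub_distrib, ← h1]
    rw [h2]
    refine (abs_sum_le_sum_abs _ _).trans ?_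
    have h3 : ∀ p ∈ F, |1 / (F.card : ℝ) - 1 / ((om P0 P1 (u / p) : ℝ) + 1)| ≤
        if p ^ 2 ∣ u then (1 : ℝ) else 0 := by
      intro p hp
      have hp' := mem_filter.1 hp
      have hpp : p.Prime := by
        have h4 := hp'.1
        unfold PS at h4
        exact (mem_filter.1 h4).2
      by_cases h5 : p ^ 2 ∣ u
      · rw [if_pos h5, Ram_om_sq hpp h5, hcard]
        exact Ram_abs (by exact_mod_cast hpos)
      · rw [if_neg h5]
        have h6 := Ram_om_not hp'.1 hp'.2 h5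
        rw [hcard] at h6
        have h7 : ((om P0 P1 (u / p) : ℝ) + 1) = (F.card : ℝ) := by exact_mod_cast h6
        rw [h7, sub_self, abs_zero]
    refine (sum_le_sum h3).trans ?_
    rw [← sum_filter, sum_const, nsmul_eq_mul, mul_one]
    have h10 : (F.filter fun p => p ^ 2 ∣ u) ⊆ (PS P0 P1).filter (fun p => p ^ 2 ∣ u) := by
      intro p hp
      rw [mem_filter] at hp ⊢
      exact ⟨(mem_filter.1 hp.1).1, hp.2⟩
    exact_mod_cast card_le_card h10
  · rw [if_neg hg]
    have h1 : (PS P0 P1).filter (fun p => p ∣ u) = ∅ := by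
      rw [filter_eq_empty_iff]
      exact fun p hp h => hg ⟨p, hp, h⟩
    rw [h1, sum_empty, sub_zero, abs_zero]
    exact Nat.cast_nonneg _

end Pool.Agent.Lib.TR
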