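import Pool.Agent.Lib.TR.SpecR

/-!
MP_00e23e_nt, directory Lib/TR, chapter R, module Ran (Rankin's trick).
-/

set_option autoImplicit false

namespace Pool.Agent.Lib.TR

open Finset Pool.Agent.Lib.EH3 Pool.Agent.Results.MP_00e23e_nt

private theorem Ran_count (V l : ℕ) :
    (((Icc 1 V).filter (fun v => l ∣ v)).card : ℝ) ≤ (V : ℝ) * (1 / (l : ℝ)) := by
  have h1 : (Icc 1 V).filter (fun v => l ∣ v) = (Ioc 0 V).filter (fun v => l ∣ v) := by
    ext v
    simp only [mem_filter, mem_Icc, mem_Ioc]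
    constructor
    · rintro ⟨⟨h, h'⟩, h''⟩
      exact ⟨⟨by omega, h'⟩, h''⟩
    · rintro ⟨⟨h, h'⟩, h''⟩
      exact ⟨⟨by omega, h'⟩, h''⟩
  rw [h1, Nat.Ioc_filter_dvd_card_eq_div, mul_one_div]
  exact Nat.cast_div_le

private theorem Ran_exchange (P0 P1 Z V : ℕ) :
    ∑ v ∈ Icc 1 V, tl P0 P1 Z v ≤
      ∑ l ∈ (Icc 1 V).filter (fun l => Z < l ∧ SqP P0 P1 l), (V : ℝ) * (1 / (l : ℝ)) := by
  have h1 : ∀ v ∈ Icc 1 V, tl P0 P1 Z v =
      ∑ l ∈ (Icc 1 V).filter (fun l => Z < l ∧ SqP P0 P1 l), if l ∣ v then (1 : ℝ) else 0 := by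
    intro v hv
    rw [mem_Icc] at hv
    unfold tl
    rw [← sum_filter, sum_const, nsmul_eq_mul, mul_one]
    have e : v.divisors.filter (fun l => Z < l ∧ SqP P0 P1 l) =
        ((Icc 1 V).filter (fun l => Z < l ∧ SqP P0 P1 l)).filter (fun l => l ∣ v) := by
      ext l
      simp only [mem_filter, Nat.mem_divisors, mem_Icc]
      constructor
      · rintro ⟨⟨h, h'⟩, h''⟩
        exact ⟨⟨⟨Nat.pos_of_dvd_of_pos h (by omega), (Nat.le_of_dvd (by omega) h).trans hv.2⟩, h''⟩, h⟩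
      · rintro ⟨⟨⟨h, h'⟩, h''⟩, h3⟩
        exact ⟨⟨h3, by omega⟩, h''⟩
    rw [e]
  rw [sum_congr rfl h1, sum_comm]
  refine sum_le_sum fun l _ => ?_
  rw [← sum_filter, sum_const, nsmul_eq_mul, mul_one]
  exact Ran_count V l

private theorem Ran_weight (d : ℝ) (l : ℕ) (hl : Squarefree l) :
    Real.exp (d * Real.log l) * (1 / (l : ℝ)) =
      ∏ p ∈ l.primeFactors, Real.exp (d * Real.log p) * (1 / (p : ℝ)) := by
  have h0 : ∏ p ∈ l.primeFactors, p = l := Nat.prod_primeFactors_of_squarefree hl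
  have h1 : (l : ℝ) = ∏ p ∈ l.primeFactors, (p : ℝ) := by
    conv_lhs => rw [← h0]
    rw [Nat.cast_prod]
  have h2 : Real.log l = ∑ p ∈ l.primeFactors, Real.log (p : ℝ) := by
    rw [h1]
    exact Real.log_prod (fun p hp => by
      have := (Nat.prime_of_mem_primeFactors hp).pos
      positivity)
  rw [prod_mul_distrib, h2, mul_sum, Real.exp_sum]
  congr 1
  simp only [one_div]
  rw [prod_inv_distrib, ← h1]

private theorem Ran_subsets (P0 P1 V : ℕ) (d : ℝ) :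
    ∑ l ∈ (Icc 1 V).filter (fun l => SqP P0 P1 l), Real.exp (d * Real.log l) * (1 / (l : ℝ)) ≤
      ∏ p ∈ PS P0 P1, (1 + Real.exp (d * Real.log p) * (1 / (p : ℝ))) := by
  classical
  rw [prod_one_add]
  have h1 : ∑ l ∈ (Icc 1 V).filter (fun l => SqP P0 P1 l), Real.exp (d * Real.log l) * (1 / (l : ℝ)) =
      ∑ l ∈ (Icc 1 V).filter (fun l => SqP P0 P1 l),
        ∏ p ∈ l.primeFactors, Real.exp (d * Real.log p) * (1 / (p : ℝ)) := by
    refine sum_congr rfl fun l hl => ?_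
    rw [mem_filter] at hl
    exact Ran_weight d l hl.2.1
  have hinj : Set.InjOn (fun l : ℕ => l.primeFactors)
      (((Icc 1 V).filter (fun l => SqP P0 P1 l) : Finset ℕ) : Set ℕ) := by
    intro a ha b hb hab
    rw [mem_coe, mem_filter] at ha hb
    have ea : ∏ p ∈ a.primeFactors, p = a := Nat.prod_primeFactors_of_squarefree ha.2.1
    have eb : ∏ p ∈ b.primeFactors, p = b := Nat.prod_primeFactors_of_squarefree hb.2.1
    have hab' : a.primeFactors = b.primeFactors := hab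
    rw [← ea, ← eb, hab']
  rw [h1, ← sum_image (f := fun s : Finset ℕ => ∏ p ∈ s, Real.exp (d * Real.log p) * (1 / (p : ℝ))) hinj]
  refine sum_le_sum_of_subset_of_nonneg ?_ ?_
  · intro s hs
    rw [mem_image] at hs
    obtain ⟨l, hl, rfl⟩ := hs
    rw [mem_filter] at hl
    rw [mem_powerset]
    intro p hp
    exact hl.2.2 p (Nat.prime_of_mem_primeFactors hp) (Nat.dvd_of_mem_primeFactors hp)
  · intro s _ _
    exact prod_nonneg fun p _ => by positivity

private theorem Ran_factor (t w : ℝ) (h0 : 0 ≤ t) (h1 : t ≤ 1) (hw : w ≤ 3) :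
    (1 + w * t) * (1 - t) ^ 3 ≤ 1 := by
  have h2 : 1 + w * t ≤ (1 + t) ^ 3 := by
    nlinarith [mul_nonneg h0 h0, mul_nonneg (mul_nonneg h0 h0) h0, mul_le_mul_of_nonneg_right hw h0]
  have h3 : 0 ≤ (1 - t) ^ 3 := pow_nonneg (by linarith) 3
  calc (1 + w * t) * (1 - t) ^ 3 ≤ (1 + t) ^ 3 * (1 - t) ^ 3 := mul_le_mul_of_nonneg_right h2 h3
    _ = ((1 + t) * (1 - t)) ^ 3 := by ring
    _ ≤ 1 := pow_le_one₀ (mul_nonneg (by linarith) (by linarith)) (by nlinarith)

private theorem Ran_prod (P0 P1 : ℕ) (hP : 2 ≤ P1) (hn : 0 < nrm P1) :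
    ∏ p ∈ PS P0 P1, (1 + Real.exp (1 / Real.log P1 * Real.log p) * (1 / (p : ℝ))) ≤ (1 / nrm P1) ^ 3 := by
  have hlog : 0 < Real.log P1 := Real.log_pos (by exact_mod_cast (by omega : 1 < P1))
  have hsub : PS P0 P1 ⊆ (Icc 1 P1).filter Nat.Prime := by
    intro p hp
    unfold PS at hp
    rw [mem_filter, mem_Ioc] at hp
    rw [mem_filter, mem_Icc]
    exact ⟨⟨hp.2.one_lt.le, hp.1.2⟩, hp.2⟩
  have hfac : ∀ p : ℕ, p.Prime → 0 < 1 - 1 / (p : ℝ) ∧ 1 - 1 / (p : ℝ) ≤ 1 := by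
    intro p hp
    have h2 : (2 : ℝ) ≤ p := by exact_mod_cast hp.two_le
    have h3 : 1 / (p : ℝ) ≤ 1 / 2 := one_div_le_one_div_of_le (by norm_num) h2
    have h4 : 0 ≤ 1 / (p : ℝ) := by positivity
    constructor <;> linarith
  have hpos : 0 < ∏ p ∈ PS P0 P1, (1 - 1 / (p : ℝ)) := by
    refine prod_pos fun p hp => (hfac p ?_).1
    unfold PS at hp
    exact (mem_filter.1 hp).2
  have hle : nrm P1 ≤ ∏ p ∈ PS P0 P1, (1 - 1 / (p : ℝ)) := by
    unfold nrm
    rw [← prod_sdiff hsub]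
    have h1 : ∏ p ∈ (Icc 1 P1).filter Nat.Prime \ PS P0 P1, (1 - 1 / (p : ℝ)) ≤ 1 := by
      refine prod_le_one (fun p hp => ?_) (fun p hp => ?_)
      · exact (hfac p (mem_filter.1 (mem_sdiff.1 hp).1).2).1.le
      · exact (hfac p (mem_filter.1 (mem_sdiff.1 hp).1).2).2
    calc _ ≤ 1 * ∏ p ∈ PS P0 P1, (1 - 1 / (p : ℝ)) := mul_le_mul_of_nonneg_right h1 hpos.le
      _ = _ := one_mul _
  have hone : (∏ p ∈ PS P0 P1, (1 + Real.exp (1 / Real.log P1 * Real.log p) * (1 / (p : ℝ)))) *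
      (∏ p ∈ PS P0 P1, (1 - 1 / (p : ℝ))) ^ 3 ≤ 1 := by
    rw [← prod_pow, ← prod_mul_distrib]
    refine prod_le_one (fun p hp => ?_) (fun p hp => ?_)
    · unfold PS at hp
      have h1 := (hfac p (mem_filter.1 hp).2).1
      positivity
    · unfold PS at hp
      rw [mem_filter, mem_Ioc] at hp
      have h2 : (2 : ℝ) ≤ p := by exact_mod_cast hp.2.two_le
      have h3 : 1 / (p : ℝ) ≤ 1 / 2 := one_div_le_one_div_of_le (by norm_num) h2
      refine Ran_factor _ _ (by positivity) (by linarith) ?_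
      have h4 : Real.log p ≤ Real.log P1 :=
        Real.log_le_log (by linarith) (by exact_mod_cast hp.1.2)
      have h5 : 1 / Real.log P1 * Real.log p ≤ 1 := by
        rw [one_div, inv_mul_le_iff₀ hlog, mul_one]
        exact h4
      calc Real.exp (1 / Real.log P1 * Real.log p) ≤ Real.exp 1 := Real.exp_le_exp.2 h5
        _ ≤ 3 := by
          have := Real.exp_one_lt_d9
          linarith
  have hc : (∏ p ∈ PS P0 P1, (1 - 1 / (p : ℝ))) ^ 3 ≥ nrm P1 ^ 3 := pow_le_pow_left₀ hn.le hle 3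
  have hA0 : 0 ≤ ∏ p ∈ PS P0 P1, (1 + Real.exp (1 / Real.log P1 * Real.log p) * (1 / (p : ℝ))) :=
    prod_nonneg fun p _ => by positivity
  rw [div_pow, one_pow, le_div_iff₀ (pow_pos hn 3)]
  exact (mul_le_mul_of_nonneg_left hc hA0).trans hone

private theorem Ran_rankin (P1 Z l : ℕ) (hP : 2 ≤ P1) (hZ : 1 ≤ Z) (hl : Z < l) :
    1 / (l : ℝ) ≤ Real.exp (-(Real.log Z / Real.log P1)) *
      (Real.exp (1 / Real.log P1 * Real.log l) * (1 / (l : ℝ))) := by
  have hlog : 0 < Real.log P1 := Real.log_pos (by exact_mod_cast (by omega : 1 < P1))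
  have h1 : Real.log Z ≤ Real.log l :=
    Real.log_le_log (by exact_mod_cast hZ) (by exact_mod_cast hl.le)
  have h2 : 1 ≤ Real.exp (-(Real.log Z / Real.log P1)) * Real.exp (1 / Real.log P1 * Real.log l) := by
    rw [← Real.exp_add]
    refine Real.one_le_exp ?_
    have : -(Real.log Z / Real.log P1) + 1 / Real.log P1 * Real.log l =
        (Real.log l - Real.log Z) / Real.log P1 := by ring
    rw [this]
    exact div_nonneg (by linarith) hlog.le
  have h3 : (0 : ℝ) ≤ 1 / (l : ℝ) := by positivity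
  calc 1 / (l : ℝ) = 1 * (1 / (l : ℝ)) := (one_mul _).symm
    _ ≤ (Real.exp (-(Real.log Z / Real.log P1)) * Real.exp (1 / Real.log P1 * Real.log l)) * (1 / (l : ℝ)) :=
      mul_le_mul_of_nonneg_right h2 h3
    _ = _ := by ring

theorem tRan (h1 : NnmStmt) : RanStmt := by
  obtain ⟨C, hC, h⟩ := h1
  refine ⟨C ^ 3, by positivity, ?_⟩
  intro P0 P1 Z V hP0 hP01 hZ
  have hP1 : 2 ≤ P1 := hP0.trans hP01
  obtain ⟨hn, -, -, hn4⟩ := h P1 hP1
  have hlog : 0 < Real.log P1 := Real.log_pos (by exact_mod_cast (by omega : 1 < P1))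
  have hV : (0 : ℝ) ≤ V := Nat.cast_nonneg V
  have hE : 0 ≤ Real.exp (-(Real.log Z / Real.log P1)) := (Real.exp_pos _).le
  calc ∑ v ∈ Icc 1 V, tl P0 P1 Z v
      ≤ ∑ l ∈ (Icc 1 V).filter (fun l => Z < l ∧ SqP P0 P1 l), (V : ℝ) * (1 / (l : ℝ)) :=
        Ran_exchange P0 P1 Z V
    _ ≤ ∑ l ∈ (Icc 1 V).filter (fun l => Z < l ∧ SqP P0 P1 l),
        ((V : ℝ) * Real.exp (-(Real.log Z / Real.log P1))) *
          (Real.exp (1 / Real.log P1 * Real.log l) * (1 / (l : ℝ))) := by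
        refine sum_le_sum fun l hl => ?_
        rw [mem_filter] at hl
        rw [mul_assoc]
        exact mul_le_mul_of_nonneg_left (Ran_rankin P1 Z l hP1 hZ hl.2.1) hV
    _ = ((V : ℝ) * Real.exp (-(Real.log Z / Real.log P1))) *
        ∑ l ∈ (Icc 1 V).filter (fun l => Z < l ∧ SqP P0 P1 l),
          (Real.exp (1 / Real.log P1 * Real.log l) * (1 / (l : ℝ))) := (mul_sum _ _ _).symm
    _ ≤ ((V : ℝ) * Real.exp (-(Real.log Z / Real.log P1))) *
        ∑ l ∈ (Icc 1 V).filter (fun l => SqP P0 P1 l),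
          (Real.exp (1 / Real.log P1 * Real.log l) * (1 / (l : ℝ))) := by
        refine mul_le_mul_of_nonneg_left ?_ (mul_nonneg hV hE)
        refine sum_le_sum_of_subset_of_nonneg ?_ (fun l _ _ => by positivity)
        intro l hl
        rw [mem_filter] at hl ⊢
        exact ⟨hl.1, hl.2.2⟩
    _ ≤ ((V : ℝ) * Real.exp (-(Real.log Z / Real.log P1))) * (C * Real.log P1) ^ 3 := by
        refine mul_le_mul_of_nonneg_left ?_ (mul_nonneg hV hE)
        refine (Ran_subsets P0 P1 V _).trans ((Ran_prod P0 P1 hP1 hn).trans ?_)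
        exact pow_le_pow_left₀ (by positivity) hn4 3
    _ = C ^ 3 * (V * (Real.exp (-(Real.log Z / Real.log P1)) * (Real.log P1) ^ 3)) := by ring

end Pool.Agent.Lib.TR
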