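import Pool.Agent.Lib.TR.SpecR

/-!
MP_00e23e_nt, directory Lib/TR, module Rbi: expansion of 1/(om + 1) as a divisor sum.
-/

set_option autoImplicit false

namespace Pool.Agent.Lib.TR

open Finset Pool.Agent.Lib.EH3 Pool.Agent.Results.MP_00e23e_nt

private theorem Rbi_sum (n : ℕ) :
    ∑ k ∈ range (n + 1), (n.choose k) • ((-1 : ℝ) ^ k / ((k : ℝ) + 1)) = 1 / ((n : ℝ) + 1) := by
  have h1 : ∑ m ∈ range (n + 1 + 1), ((-1 : ℝ) ^ m * ((n + 1).choose m : ℝ)) = 0 := by
    have h := Int.alternating_sum_range_choose (n := n + 1)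
    rw [if_neg (Nat.succ_ne_zero n)] at h
    have h2 : ((∑ m ∈ range (n + 1 + 1), ((-1 : ℤ) ^ m * ((n + 1).choose m : ℤ)) : ℤ) : ℝ) = 0 := by
      rw [h, Int.cast_zero]
    push_cast at h2
    exact h2
  rw [sum_range_succ'] at h1
  have hn : ((n : ℝ) + 1) ≠ 0 := by positivity
  have h3 : ∀ k : ℕ, ((n : ℝ) + 1) * ((n.choose k) • ((-1 : ℝ) ^ k / ((k : ℝ) + 1))) =
      -((-1 : ℝ) ^ (k + 1) * ((n + 1).choose (k + 1) : ℝ)) := by
    intro k
    have h4 := Nat.add_one_mul_choose_eq n k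
    have h5 : ((n : ℝ) + 1) * (n.choose k : ℝ) = ((n + 1).choose (k + 1) : ℝ) * ((k : ℝ) + 1) := by
      exact_mod_cast h4
    have hk : ((k : ℝ) + 1) ≠ 0 := by positivity
    rw [nsmul_eq_mul, ← mul_assoc, h5, pow_succ]
    field_simp
  rw [eq_div_iff hn, mul_comm, mul_sum, sum_congr rfl fun k _ => h3 k, sum_neg_distrib]
  simp only [pow_zero, Nat.choose_zero_right, Nat.cast_one, mul_one] at h1
  linarith

theorem tRbi : RbiStmt := by
  intro P0 P1 v hv
  have hv0 : v ≠ 0 := by omega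
  set T := (PS P0 P1).filter (fun p => p ∣ v) with hT
  have hTm : ∀ p, p ∈ T ↔ p ∈ PS P0 P1 ∧ p ∣ v := fun p => by rw [hT, mem_filter]
  have hPS : ∀ p, p ∈ PS P0 P1 → p.Prime := fun p hp => by
    unfold PS at hp
    exact (mem_filter.1 hp).2
  have h0 : ∑ l ∈ v.divisors, rho P0 P1 l = ∑ l ∈ v.divisors.filter (fun l => SqP P0 P1 l),
      (-1 : ℝ) ^ l.primeFactors.card / ((l.primeFactors.card : ℝ) + 1) := by
    rw [sum_filter]
    rfl
  have h1 : ∑ l ∈ v.divisors.filter (fun l => SqP P0 P1 l),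
      (-1 : ℝ) ^ l.primeFactors.card / ((l.primeFactors.card : ℝ) + 1) =
      ∑ s ∈ T.powerset, (-1 : ℝ) ^ s.card / ((s.card : ℝ) + 1) := by
    refine sum_nbij' (fun l => l.primeFactors) (fun s => ∏ p ∈ s, p) ?_ ?_ ?_ ?_ ?_
    · intro l hl
      obtain ⟨hl1, hl2⟩ := mem_filter.1 hl
      rw [mem_powerset]
      intro p hp
      have hp1 := Nat.prime_of_mem_primeFactors hp
      have hp2 := Nat.dvd_of_mem_primeFactors hp
      exact (hTm p).2 ⟨hl2.2 p hp1 hp2, hp2.trans (Nat.dvd_of_mem_divisors hl1)⟩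
    · intro s hs
      rw [mem_powerset] at hs
      have hpr : ∀ p ∈ s, p.Prime := fun p hp => hPS p ((hTm p).1 (hs hp)).1
      have hdv : ∏ p ∈ s, p ∣ v :=
        Finset.prod_primes_dvd v (fun p hp => (hpr p hp).prime) fun p hp => ((hTm p).1 (hs hp)).2
      rw [mem_filter, Nat.mem_divisors]
      refine ⟨⟨hdv, hv0⟩, ?_, ?_⟩
      · refine Finset.squarefree_prod_of_pairwise_isCoprime ?_ ?_
        · intro p hp q hq hpq
          exact Nat.coprime_iff_isRelPrime.1 ((Nat.coprime_primes (hpr p hp) (hpr q hq)).2 hpq)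
        · intro p hp
          exact (hpr p hp).prime.squarefree
      · intro p hp hpd
        have h2 : p ∈ (∏ p ∈ s, p).primeFactors :=
          Nat.mem_primeFactors.2 ⟨hp, hpd, fun h => hv0 (by
            rw [h] at hdv
            exact zero_dvd_iff.1 hdv)⟩
        rw [Nat.primeFactors_prod hpr] at h2
        exact ((hTm p).1 (hs h2)).1
    · intro l hl
      exact Nat.prod_primeFactors_of_squarefree (mem_filter.1 hl).2.1
    · intro s hs
      rw [mem_powerset] at hs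
      exact Nat.primeFactors_prod fun p hp => hPS p ((hTm p).1 (hs hp)).1
    · intro l _
      rfl
  rw [h0, h1, Finset.sum_powerset_apply_card (fun k => (-1 : ℝ) ^ k / ((k : ℝ) + 1)), Rbi_sum]
  rfl

end Pool.Agent.Lib.TR
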