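import Pool.Agent.Lib.TR.SpecR

set_option autoImplicit false

namespace Pool.Agent.Lib.TR

open Finset Pool.Agent.Lib.EH3 Pool.Agent.Results.MP_00e23e_nt

private theorem Red_exch (S : Finset ℕ) (hp : ∀ p ∈ S, 1 ≤ p) (U : ℕ) (F : ℕ → ℕ → ℂ) :
    ∑ u ∈ Icc 1 U, ∑ p ∈ S.filter (fun p => p ∣ u), F p (u / p) =
      ∑ p ∈ S, ∑ v ∈ Icc 1 (U / p), F p v := by
  have h1 : ∀ u ∈ Icc 1 U, ∑ p ∈ S.filter (fun p => p ∣ u), F p (u / p) =
      ∑ p ∈ S, if p ∣ u then F p (u / p) else 0 := by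
    intro u _
    rw [Finset.sum_filter]
  rw [Finset.sum_congr rfl h1, Finset.sum_comm]
  refine Finset.sum_congr rfl (fun p hpp => ?_)
  have hp1 := hp p hpp
  rw [← Finset.sum_filter]
  refine Finset.sum_bij' (fun u _ => u / p) (fun v _ => p * v) ?_ ?_ ?_ ?_ ?_
  · intro u hu
    rw [Finset.mem_filter, Finset.mem_Icc] at hu
    rw [Finset.mem_Icc]
    exact ⟨Nat.div_pos (Nat.le_of_dvd (by omega) hu.2) (by omega), Nat.div_le_div_right hu.1.2⟩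
  · intro v hv
    rw [Finset.mem_Icc] at hv
    rw [Finset.mem_filter, Finset.mem_Icc]
    refine ⟨⟨?_, ?_⟩, Dvd.intro v rfl⟩
    · exact Nat.mul_pos hp1 hv.1
    · exact (Nat.mul_le_mul_left p hv.2).trans (Nat.mul_div_le U p)
  · intro u hu
    rw [Finset.mem_filter, Finset.mem_Icc] at hu
    exact Nat.mul_div_cancel' hu.2
  · intro v _
    exact Nat.mul_div_cancel_left v (by omega)
  · intro u _
    rfl

private theorem Red_dyV (h : ℕ → ℂ) : ∀ J : ℕ,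
    ∑ v ∈ Ico 1 (2 ^ J), h v = ∑ j ∈ range J, ∑ v ∈ Ico (2 ^ j) (2 * 2 ^ j), h v
  | 0 => by simp
  | J + 1 => by
      rw [Finset.sum_range_succ, ← Red_dyV h J]
      have e : (2 : ℕ) ^ (J + 1) = 2 * 2 ^ J := by ring
      rw [e]
      exact (Finset.sum_Ico_consecutive h Nat.one_le_two_pow
        (Nat.le_mul_of_pos_left _ two_pos)).symm

private theorem Red_dyP (S : Finset ℕ) (P0 : ℕ) (h : ℕ → ℂ) : ∀ J : ℕ,
    ∑ p ∈ S ∩ Ioc P0 (2 ^ J * P0), h p =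
      ∑ i ∈ range J, ∑ p ∈ S ∩ Ioc (2 ^ i * P0) (2 * (2 ^ i * P0)), h p
  | 0 => by simp
  | J + 1 => by
      rw [Finset.sum_range_succ, ← Red_dyP S P0 h J]
      have e : (2 : ℕ) ^ (J + 1) * P0 = 2 * (2 ^ J * P0) := by ring
      rw [e]
      have h1 : P0 ≤ 2 ^ J * P0 := Nat.le_mul_of_pos_left _ (by positivity)
      generalize 2 ^ J * P0 = Q at h1 ⊢
      have hd : Disjoint (S ∩ Ioc P0 Q) (S ∩ Ioc Q (2 * Q)) := by
        rw [Finset.disjoint_left]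
        intro p hp hq
        simp only [Finset.mem_inter, Finset.mem_Ioc] at hp hq
        omega
      rw [← Finset.sum_union hd]
      refine Finset.sum_congr ?_ (fun _ _ => rfl)
      ext p
      simp only [Finset.mem_inter, Finset.mem_union, Finset.mem_Ioc]
      constructor
      · rintro ⟨hS, h2, h3⟩
        by_cases hq : p ≤ Q
        · left; exact ⟨hS, h2, hq⟩
        · right; exact ⟨hS, by omega, h3⟩
      · rintro (⟨hS, h2, h3⟩ | ⟨hS, h2, h3⟩)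
        · exact ⟨hS, h2, by omega⟩
        · exact ⟨hS, by omega, h3⟩

private theorem Red_swap {ι κ α β : Type} (I : Finset ι) (K : Finset κ) (A : Finset α)
    (B : Finset β) (T : ι → κ → α → β → ℂ) :
    ∑ i ∈ I, ∑ j ∈ K, ∑ a ∈ A, ∑ d ∈ B, T i j a d =
      ∑ a ∈ A, ∑ d ∈ B, ∑ i ∈ I, ∑ j ∈ K, T i j a d := by
  calc ∑ i ∈ I, ∑ j ∈ K, ∑ a ∈ A, ∑ d ∈ B, T i j a d
      = ∑ i ∈ I, ∑ a ∈ A, ∑ j ∈ K, ∑ d ∈ B, T i j a d :=
        Finset.sum_congr rfl (fun i _ => Finset.sum_comm)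
    _ = ∑ a ∈ A, ∑ i ∈ I, ∑ j ∈ K, ∑ d ∈ B, T i j a d := Finset.sum_comm
    _ = ∑ a ∈ A, ∑ i ∈ I, ∑ d ∈ B, ∑ j ∈ K, T i j a d :=
        Finset.sum_congr rfl (fun a _ => Finset.sum_congr rfl (fun i _ => Finset.sum_comm))
    _ = ∑ a ∈ A, ∑ d ∈ B, ∑ i ∈ I, ∑ j ∈ K, T i j a d :=
        Finset.sum_congr rfl (fun a _ => Finset.sum_comm)

private theorem Red_one (h1 : RamStmt) (h2 : RtrStmt) (U P0 P1 Z J : ℕ) (M : ℝ) (g : ℕ → ℂ)
    (hU : U < 2 ^ J) (hM : 0 ≤ M) (hg : ∀ n, ‖g n‖ ≤ M) (hz : ∀ n, U < n → g n = 0) :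
    ‖∑ u ∈ (Icc 1 U).filter (fun u => Good P0 P1 u), g u -
      ∑ p ∈ PS P0 P1, ∑ v ∈ Ico 1 (2 ^ J), ((wt (rho P0 P1) Z v : ℝ) : ℂ) * g (p * v)‖ ≤
    M * (∑ u ∈ Icc 1 U, (((PS P0 P1).filter (fun p => p ^ 2 ∣ u)).card : ℝ) +
      ∑ p ∈ PS P0 P1, ∑ v ∈ Icc 1 (U / p), tl P0 P1 Z v) := by
  have hpp : ∀ p ∈ PS P0 P1, 1 ≤ p := by
    intro p hp
    unfold PS at hp
    rw [Finset.mem_filter] at hp
    exact hp.2.one_lt.le
  have e3 : ∑ p ∈ PS P0 P1, ∑ v ∈ Ico 1 (2 ^ J), ((wt (rho P0 P1) Z v : ℝ) : ℂ) * g (p * v) =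
      ∑ p ∈ PS P0 P1, ∑ v ∈ Icc 1 (U / p), ((wt (rho P0 P1) Z v : ℝ) : ℂ) * g (p * v) := by
    refine Finset.sum_congr rfl (fun p hp => ?_)
    symm
    refine Finset.sum_subset ?_ ?_
    · intro v hv
      rw [Finset.mem_Icc] at hv
      rw [Finset.mem_Ico]
      exact ⟨hv.1, lt_of_le_of_lt (hv.2.trans (Nat.div_le_self U p)) hU⟩
    · intro v hv hv'
      rw [Finset.mem_Ico] at hv
      rw [Finset.mem_Icc, not_and] at hv'
      have h3 := hv' hv.1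
      have h4 : U < p * v := by
        have h5 := (Nat.div_lt_iff_lt_mul (hpp p hp)).mp (not_le.mp h3)
        rwa [mul_comm] at h5
      rw [hz _ h4, mul_zero]
  have e2 : ∑ u ∈ Icc 1 U, ∑ p ∈ (PS P0 P1).filter (fun p => p ∣ u),
        ((1 / ((om P0 P1 (u / p) : ℝ) + 1) : ℝ) : ℂ) * g u =
      ∑ p ∈ PS P0 P1, ∑ v ∈ Icc 1 (U / p), ((1 / ((om P0 P1 v : ℝ) + 1) : ℝ) : ℂ) * g (p * v) := by
    rw [← Red_exch (PS P0 P1) hpp U
      (fun p v => ((1 / ((om P0 P1 v : ℝ) + 1) : ℝ) : ℂ) * g (p * v))]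
    refine Finset.sum_congr rfl (fun u _ => Finset.sum_congr rfl (fun p hp => ?_))
    rw [Finset.mem_filter] at hp
    rw [Nat.mul_div_cancel' hp.2]
  have e1 : ∑ u ∈ (Icc 1 U).filter (fun u => Good P0 P1 u), g u =
      ∑ u ∈ Icc 1 U, (((if Good P0 P1 u then (1 : ℝ) else 0) : ℝ) : ℂ) * g u := by
    rw [Finset.sum_filter]
    refine Finset.sum_congr rfl (fun u _ => ?_)
    by_cases h : Good P0 P1 u
    · rw [if_pos h, if_pos h]
      simp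
    · rw [if_neg h, if_neg h]
      simp
  rw [e3, e1]
  have eq1 : ∑ u ∈ Icc 1 U, (((if Good P0 P1 u then (1 : ℝ) else 0) : ℝ) : ℂ) * g u -
      ∑ p ∈ PS P0 P1, ∑ v ∈ Icc 1 (U / p), ((wt (rho P0 P1) Z v : ℝ) : ℂ) * g (p * v) =
      ∑ u ∈ Icc 1 U, ((((if Good P0 P1 u then (1 : ℝ) else 0) -
        ∑ p ∈ (PS P0 P1).filter (fun p => p ∣ u), 1 / ((om P0 P1 (u / p) : ℝ) + 1) : ℝ)) : ℂ) * g u +
      ∑ p ∈ PS P0 P1, ∑ v ∈ Icc 1 (U / p),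
        (((1 / ((om P0 P1 v : ℝ) + 1) - wt (rho P0 P1) Z v : ℝ)) : ℂ) * g (p * v) := by
    have a1 : ∑ u ∈ Icc 1 U, ((((if Good P0 P1 u then (1 : ℝ) else 0) -
        ∑ p ∈ (PS P0 P1).filter (fun p => p ∣ u), 1 / ((om P0 P1 (u / p) : ℝ) + 1) : ℝ)) : ℂ) * g u =
        ∑ u ∈ Icc 1 U, (((if Good P0 P1 u then (1 : ℝ) else 0) : ℝ) : ℂ) * g u -
        ∑ u ∈ Icc 1 U, ∑ p ∈ (PS P0 P1).filter (fun p => p ∣ u),
          ((1 / ((om P0 P1 (u / p) : ℝ) + 1) : ℝ) : ℂ) * g u := by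
      rw [← Finset.sum_sub_distrib]
      refine Finset.sum_congr rfl (fun u _ => ?_)
      rw [Complex.ofReal_sub, sub_mul, Complex.ofReal_sum, Finset.sum_mul]
    have a2 : ∑ p ∈ PS P0 P1, ∑ v ∈ Icc 1 (U / p),
        (((1 / ((om P0 P1 v : ℝ) + 1) - wt (rho P0 P1) Z v : ℝ)) : ℂ) * g (p * v) =
        ∑ p ∈ PS P0 P1, ∑ v ∈ Icc 1 (U / p), ((1 / ((om P0 P1 v : ℝ) + 1) : ℝ) : ℂ) * g (p * v) -
        ∑ p ∈ PS P0 P1, ∑ v ∈ Icc 1 (U / p), ((wt (rho P0 P1) Z v : ℝ) : ℂ) * g (p * v) := by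
      rw [← Finset.sum_sub_distrib]
      refine Finset.sum_congr rfl (fun p _ => ?_)
      rw [← Finset.sum_sub_distrib]
      refine Finset.sum_congr rfl (fun v _ => ?_)
      rw [Complex.ofReal_sub, sub_mul]
    rw [a1, a2, e2]
    ring
  rw [eq1, mul_add]
  refine (norm_add_le _ _).trans (add_le_add ?_ ?_)
  · rw [Finset.mul_sum]
    refine (norm_sum_le _ _).trans (Finset.sum_le_sum (fun u hu => ?_))
    rw [Finset.mem_Icc] at hu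
    rw [norm_mul, Complex.norm_real, Real.norm_eq_abs, mul_comm]
    exact mul_le_mul (hg u) (h1 P0 P1 u hu.1) (abs_nonneg _) hM
  · rw [Finset.mul_sum]
    refine (norm_sum_le _ _).trans (Finset.sum_le_sum (fun p _ => ?_))
    rw [Finset.mul_sum]
    refine (norm_sum_le _ _).trans (Finset.sum_le_sum (fun v hv => ?_))
    rw [Finset.mem_Icc] at hv
    rw [norm_mul, Complex.norm_real, Real.norm_eq_abs, mul_comm]
    exact mul_le_mul (hg _) (h2 P0 P1 Z v hv.1).1 (abs_nonneg _) hM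

private theorem Red_inner (J P0 P1 : ℕ) (hP1 : P1 ≤ P0 * 2 ^ J) (F : ℕ → ℕ → ℂ) :
    ∑ p ∈ PS P0 P1, ∑ v ∈ Ico 1 (2 ^ J), F p v =
      ∑ i ∈ range J, ∑ j ∈ range J, ∑ p ∈ PS P0 P1 ∩ Ioc (2 ^ i * P0) (2 * (2 ^ i * P0)),
        ∑ v ∈ Ico (2 ^ j) (2 * 2 ^ j), F p v := by
  have hPS : PS P0 P1 ∩ Ioc P0 (2 ^ J * P0) = PS P0 P1 := by
    refine Finset.inter_eq_left.mpr (fun p hp => ?_)
    unfold PS at hp
    rw [Finset.mem_filter, Finset.mem_Ioc] at hp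
    rw [Finset.mem_Ioc]
    refine ⟨hp.1.1, hp.1.2.trans ?_⟩
    rw [mul_comm]
    exact hP1
  have h := Red_dyP (PS P0 P1) P0 (fun p => ∑ v ∈ Ico 1 (2 ^ J), F p v) J
  rw [hPS] at h
  rw [h]
  refine Finset.sum_congr rfl (fun i _ => ?_)
  exact (Finset.sum_congr rfl (fun p _ => Red_dyV (F p) J)).trans Finset.sum_comm

theorem tRed (h1 : RamStmt) (h2 : RtrStmt) : RedStmt := by
  intro A0 H D U P0 P1 Z J X M c f hD hP0 hP1 hU hM hc hf hX ha hDU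
  have eK : ∑ i ∈ range J, ∑ j ∈ range J, KS A0 H D (2 ^ j)
        (PS P0 P1 ∩ Ioc (2 ^ i * P0) (2 * (2 ^ i * P0))) c
        (fun v => ((wt (rho P0 P1) Z v : ℝ) : ℂ)) f =
      ∑ a ∈ Ico A0 (A0 + H), ∑ d ∈ Ioc D (2 * D), c a d * ∑ p ∈ PS P0 P1, ∑ v ∈ Ico 1 (2 ^ J),
        ((wt (rho P0 P1) Z v : ℝ) : ℂ) * f (a + (d : ℤ) * ((p * v : ℕ) : ℤ)) := by
    unfold KS
    rw [Red_swap]
    refine Finset.sum_congr rfl (fun a _ => Finset.sum_congr rfl (fun d _ => ?_))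
    rw [Red_inner J P0 P1 hP1, Finset.mul_sum]
    refine Finset.sum_congr rfl (fun i _ => ?_)
    rw [Finset.mul_sum]
    refine Finset.sum_congr rfl (fun j _ => ?_)
    rw [Finset.mul_sum]
    refine Finset.sum_congr rfl (fun p _ => ?_)
    rw [Finset.mul_sum]
    refine Finset.sum_congr rfl (fun v _ => ?_)
    have e : a + (d : ℤ) * ((p * v : ℕ) : ℤ) = a + d * p * v := by
      push_cast
      ring
    rw [e]
    ring
  rw [eK, ← Finset.sum_sub_distrib]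
  have hE : ∀ a ∈ Ico A0 (A0 + H), ∀ d ∈ Ioc D (2 * D),
      ‖∑ u ∈ (Icc 1 U).filter (fun u => Good P0 P1 u), c a d * f (a + d * u) -
        c a d * ∑ p ∈ PS P0 P1, ∑ v ∈ Ico 1 (2 ^ J),
          ((wt (rho P0 P1) Z v : ℝ) : ℂ) * f (a + (d : ℤ) * ((p * v : ℕ) : ℤ))‖ ≤
      M * (∑ u ∈ Icc 1 U, (((PS P0 P1).filter (fun p => p ^ 2 ∣ u)).card : ℝ) +
        ∑ p ∈ PS P0 P1, ∑ v ∈ Icc 1 (U / p), tl P0 P1 Z v) := by
    intro a haa d hd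
    rw [Finset.mem_Ioc] at hd
    have hz : ∀ n : ℕ, U < n → f (a + (d : ℤ) * (n : ℤ)) = 0 := by
      intro n hn
      apply hX
      have haX := ha a haa
      have h3 : (D : ℝ) + 1 ≤ d := by exact_mod_cast hd.1
      have h4 : (U : ℝ) + 1 ≤ n := by exact_mod_cast hn
      have h5 : ((D : ℝ) + 1) * ((U : ℝ) + 1) ≤ (d : ℝ) * n :=
        mul_le_mul h3 h4 (by positivity) (by positivity)
      have h6 : (0 : ℝ) ≤ D := by positivity
      have h7 : (0 : ℝ) ≤ U := by positivity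
      have h8 := (abs_le.mp haX).1
      have h9 : (((a + (d : ℤ) * (n : ℤ) : ℤ)) : ℝ) = (a : ℝ) + (d : ℝ) * n := by push_cast; ring
      rw [h9]
      refine lt_of_lt_of_le ?_ (le_abs_self _)
      nlinarith
    have key := Red_one h1 h2 U P0 P1 Z J M (fun n => f (a + (d : ℤ) * (n : ℤ))) hU hM
      (fun n => hf _) hz
    rw [← Finset.mul_sum, ← mul_sub, norm_mul]
    calc ‖c a d‖ * ‖∑ u ∈ (Icc 1 U).filter (fun u => Good P0 P1 u), f (a + d * u) -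
          ∑ p ∈ PS P0 P1, ∑ v ∈ Ico 1 (2 ^ J),
          ((wt (rho P0 P1) Z v : ℝ) : ℂ) * f (a + (d : ℤ) * ((p * v : ℕ) : ℤ))‖
        ≤ 1 * ‖∑ u ∈ (Icc 1 U).filter (fun u => Good P0 P1 u), f (a + d * u) -
          ∑ p ∈ PS P0 P1, ∑ v ∈ Ico 1 (2 ^ J),
          ((wt (rho P0 P1) Z v : ℝ) : ℂ) * f (a + (d : ℤ) * ((p * v : ℕ) : ℤ))‖ :=
          mul_le_mul_of_nonneg_right (hc a d) (norm_nonneg _)
      _ ≤ _ := by
          rw [one_mul]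
          exact key
  calc ‖∑ a ∈ Ico A0 (A0 + H), (∑ d ∈ Ioc D (2 * D),
          ∑ u ∈ (Icc 1 U).filter (fun u => Good P0 P1 u), c a d * f (a + d * u) -
          ∑ d ∈ Ioc D (2 * D), c a d * ∑ p ∈ PS P0 P1, ∑ v ∈ Ico 1 (2 ^ J),
            ((wt (rho P0 P1) Z v : ℝ) : ℂ) * f (a + (d : ℤ) * ((p * v : ℕ) : ℤ)))‖
      ≤ ∑ a ∈ Ico A0 (A0 + H), ∑ d ∈ Ioc D (2 * D),
        M * (∑ u ∈ Icc 1 U, (((PS P0 P1).filter (fun p => p ^ 2 ∣ u)).card : ℝ) +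
        ∑ p ∈ PS P0 P1, ∑ v ∈ Icc 1 (U / p), tl P0 P1 Z v) := by
        refine (norm_sum_le _ _).trans (Finset.sum_le_sum (fun a haa => ?_))
        rw [← Finset.sum_sub_distrib]
        exact (norm_sum_le _ _).trans (Finset.sum_le_sum (fun d hd => hE a haa d hd))
    _ = H * D * M * (∑ u ∈ Icc 1 U, (((PS P0 P1).filter (fun p => p ^ 2 ∣ u)).card : ℝ) +
        ∑ p ∈ PS P0 P1, ∑ v ∈ Icc 1 (U / p), tl P0 P1 Z v) := by
        rw [Finset.sum_const, Finset.sum_const, Int.card_Ico, Nat.card_Ioc]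
        have e1 : (A0 + (H : ℤ) - A0).toNat = H := by simp
        have e2 : 2 * D - D = D := by omega
        rw [e1, e2, nsmul_eq_mul, nsmul_eq_mul]
        ring

end Pool.Agent.Lib.TR
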