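import Pool.Agent.Lib.TR.SpecR

/-!
MP_00e23e_nt, directory Lib/TR, module Rer (helper15): the error of the reduction.
-/

set_option autoImplicit false

namespace Pool.Agent.Lib.TR

open Finset Pool.Agent.Lib.EH3 Pool.Agent.Results.MP_00e23e_nt

private lemma Rer_sq (P0 P1 : ℕ) (h0 : 1 ≤ P0) (h01 : P0 ≤ P1) :
    ∑ n ∈ Ioc P0 P1, 1 / ((n : ℝ) ^ 2) ≤ 1 / (P0 : ℝ) - 1 / (P1 : ℝ) := by
  induction P1, h01 using Nat.le_induction with
  | base => simp
  | succ m hm ih =>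
    rw [Finset.sum_Ioc_succ_top (by omega)]
    have hm1 : (1 : ℝ) ≤ m := by exact_mod_cast h0.trans hm
    have e1 : 1 / (((m + 1 : ℕ) : ℝ) ^ 2) ≤ 1 / (m : ℝ) - 1 / ((m + 1 : ℕ) : ℝ) := by
      push_cast
      have hm0 : (0 : ℝ) < m := by linarith
      rw [div_sub_div _ _ hm0.ne' (by positivity), div_le_div_iff₀ (by positivity) (by positivity)]
      nlinarith
    linarith

private lemma Rer_cnt (p U : ℕ) : ((((Icc 1 U).filter (fun u => p ^ 2 ∣ u)).card : ℕ) : ℝ) ≤ U * (1 / ((p : ℝ) ^ 2)) := by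
  have h1 : ((Icc 1 U).filter (fun u => p ^ 2 ∣ u)).card = U / p ^ 2 := by
    have := Nat.Ioc_filter_dvd_card_eq_div U (p ^ 2)
    rw [← this]
    congr 1
  rw [h1]
  refine (Nat.cast_div_le).trans ?_
  push_cast
  rw [mul_one_div]

private lemma Rer_har (P0 P1 : ℕ) (h1 : 2 ≤ P1) :
    ∑ p ∈ PS P0 P1, 1 / (p : ℝ) ≤ 3 * Real.log P1 := by
  have h2 : ∑ p ∈ PS P0 P1, 1 / (p : ℝ) ≤ ∑ n ∈ Icc 1 P1, 1 / (n : ℝ) := by
    refine sum_le_sum_of_subset_of_nonneg ?_ (fun i _ _ => by positivity)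
    intro p hp
    unfold PS at hp
    rw [mem_filter, mem_Ioc] at hp
    rw [mem_Icc]
    omega
  have h3 : ∑ n ∈ Icc 1 P1, 1 / (n : ℝ) ≤ 1 + Real.log P1 := by
    have := harmonic_le_one_add_log P1
    rw [harmonic_eq_sum_Icc] at this
    push_cast at this
    simpa [one_div] using this
  have h4 : Real.log 2 ≤ Real.log P1 := Real.log_le_log (by norm_num) (by exact_mod_cast h1)
  have h5 := Real.log_two_gt_d9
  linarith

theorem tRer (h1 : RanStmt) : RerStmt := by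
  classical
  obtain ⟨C, hC, hR⟩ := h1
  refine ⟨1 + 3 * C, by positivity, ?_⟩
  intro P0 P1 Z U hP0 hP01 hZ
  have hP1 : 2 ≤ P1 := hP0.trans hP01
  have hlog : 0 ≤ Real.log P1 := Real.log_nonneg (by exact_mod_cast (by omega : 1 ≤ P1))
  set E : ℝ := Real.exp (-(Real.log Z / Real.log P1)) with hE
  have hE0 : 0 < E := Real.exp_pos _
  have hU : (0 : ℝ) ≤ U := Nat.cast_nonneg U
  have hP0' : (0 : ℝ) < P0 := by exact_mod_cast (by omega : 0 < P0)
  -- first sum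
  have a1 : ∑ u ∈ Icc 1 U, (((PS P0 P1).filter (fun p => p ^ 2 ∣ u)).card : ℝ) ≤ U * (1 / (P0 : ℝ)) := by
    have e1 : ∑ u ∈ Icc 1 U, (((PS P0 P1).filter (fun p => p ^ 2 ∣ u)).card : ℝ) =
        ∑ p ∈ PS P0 P1, ((((Icc 1 U).filter (fun u => p ^ 2 ∣ u)).card : ℕ) : ℝ) := by
      have e2 : ∀ u : ℕ, (((PS P0 P1).filter (fun p => p ^ 2 ∣ u)).card : ℝ) =
          ∑ p ∈ PS P0 P1, if p ^ 2 ∣ u then (1 : ℝ) else 0 := by
        intro u
        rw [card_filter]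
        push_cast
        rfl
      have e3 : ∀ p : ℕ, ((((Icc 1 U).filter (fun u => p ^ 2 ∣ u)).card : ℕ) : ℝ) =
          ∑ u ∈ Icc 1 U, if p ^ 2 ∣ u then (1 : ℝ) else 0 := by
        intro p
        rw [card_filter]
        push_cast
        rfl
      rw [sum_congr rfl (fun u _ => e2 u), sum_congr rfl (fun p _ => e3 p)]
      exact sum_comm
    rw [e1]
    calc ∑ p ∈ PS P0 P1, ((((Icc 1 U).filter (fun u => p ^ 2 ∣ u)).card : ℕ) : ℝ)
        ≤ ∑ p ∈ PS P0 P1, U * (1 / ((p : ℝ) ^ 2)) := sum_le_sum fun p _ => Rer_cnt p U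
      _ = U * ∑ p ∈ PS P0 P1, 1 / ((p : ℝ) ^ 2) := by rw [mul_sum]
      _ ≤ U * ∑ p ∈ Ioc P0 P1, 1 / ((p : ℝ) ^ 2) := by
          refine mul_le_mul_of_nonneg_left ?_ hU
          exact sum_le_sum_of_subset_of_nonneg (filter_subset _ _) (fun i _ _ => by positivity)
      _ ≤ U * (1 / (P0 : ℝ)) := by
          refine mul_le_mul_of_nonneg_left ((Rer_sq P0 P1 (by omega) hP01).trans ?_) hU
          have : (0 : ℝ) ≤ 1 / (P1 : ℝ) := by positivity
          linarith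
  -- second sum
  have a2 : ∑ p ∈ PS P0 P1, ∑ v ∈ Icc 1 (U / p), tl P0 P1 Z v ≤
      3 * C * (U * (E * (Real.log P1) ^ 4)) := by
    calc ∑ p ∈ PS P0 P1, ∑ v ∈ Icc 1 (U / p), tl P0 P1 Z v
        ≤ ∑ p ∈ PS P0 P1, C * ((U * (1 / (p : ℝ))) * (E * (Real.log P1) ^ 3)) := by
          refine sum_le_sum fun p _ => (hR P0 P1 Z (U / p) hP0 hP01 hZ).trans ?_
          refine mul_le_mul_of_nonneg_left ?_ hC.le
          refine mul_le_mul_of_nonneg_right ?_ (by positivity)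
          rw [mul_one_div]
          exact Nat.cast_div_le
      _ = C * U * (E * (Real.log P1) ^ 3) * ∑ p ∈ PS P0 P1, 1 / (p : ℝ) := by
          rw [mul_sum]
          refine sum_congr rfl fun p _ => ?_
          ring
      _ ≤ C * U * (E * (Real.log P1) ^ 3) * (3 * Real.log P1) :=
          mul_le_mul_of_nonneg_left (Rer_har P0 P1 hP1) (by positivity)
      _ = 3 * C * (U * (E * (Real.log P1) ^ 4)) := by ring
  have a3 : 0 ≤ U * (1 / (P0 : ℝ)) := by positivity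
  have a4 : 0 ≤ (U : ℝ) * (E * (Real.log P1) ^ 4) := by positivity
  calc _ ≤ U * (1 / (P0 : ℝ)) + 3 * C * (U * (E * (Real.log P1) ^ 4)) := add_le_add a1 a2
    _ ≤ (1 + 3 * C) * (U * (1 / (P0 : ℝ) + E * (Real.log P1) ^ 4)) := by nlinarith

end Pool.Agent.Lib.TR
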