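import Pool.Agent.Lib.TR.SpecR

/-!
MP_00e23e_nt, directory Lib/TR, module Rtr (truncation of the expansion of 1/(om + 1)).
-/

set_option autoImplicit false

namespace Pool.Agent.Lib.TR

open Finset Pool.Agent.Lib.EH3 Pool.Agent.Results.MP_00e23e_nt

private lemma Rtr_rho_le (P0 P1 l : ℕ) : |rho P0 P1 l| ≤ 1 := by
  unfold rho
  split_ifs with h
  · have hc : (0 : ℝ) < (l.primeFactors.card : ℝ) + 1 := by positivity
    rw [abs_div, abs_pow, abs_neg, abs_one, one_pow, abs_of_pos hc, div_le_one hc]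
    have : (0 : ℝ) ≤ (l.primeFactors.card : ℝ) := by positivity
    linarith
  · simp

private lemma Rtr_filter (Z v : ℕ) (hv : 1 ≤ v) :
    (Icc 1 Z).filter (fun l => l ∣ v) = v.divisors.filter (fun l => ¬ Z < l) := by
  ext l
  simp only [mem_filter, mem_Icc, Nat.mem_divisors]
  constructor
  · rintro ⟨⟨_, h2⟩, h3⟩
    exact ⟨⟨h3, by omega⟩, by omega⟩
  · rintro ⟨⟨h1, _⟩, h3⟩
    exact ⟨⟨Nat.pos_of_dvd_of_pos h1 hv, by omega⟩, h1⟩

theorem tRtr (h1 : RbiStmt) : RtrStmt := by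
  intro P0 P1 Z v hv
  have hw : wt (rho P0 P1) Z v = ∑ l ∈ v.divisors.filter (fun l => ¬ Z < l), rho P0 P1 l := by
    unfold wt
    rw [Rtr_filter Z v hv]
  constructor
  · have hs := Finset.sum_filter_add_sum_filter_not v.divisors (fun l => Z < l) (rho P0 P1)
    rw [← h1 P0 P1 v hv, hw, ← hs, add_sub_cancel_right]
    have h2 : ∑ l ∈ v.divisors.filter (fun l => Z < l), rho P0 P1 l =
        ∑ l ∈ v.divisors.filter (fun l => Z < l ∧ SqP P0 P1 l), rho P0 P1 l := by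
      rw [← Finset.filter_filter]
      refine (Finset.sum_filter_of_ne (fun l _ hl => ?_)).symm
      by_contra h
      apply hl
      unfold rho
      rw [if_neg h]
    rw [h2]
    unfold tl
    calc |∑ l ∈ v.divisors.filter (fun l => Z < l ∧ SqP P0 P1 l), rho P0 P1 l|
        ≤ ∑ l ∈ v.divisors.filter (fun l => Z < l ∧ SqP P0 P1 l), |rho P0 P1 l| := Finset.abs_sum_le_sum_abs _ _
      _ ≤ ∑ _l ∈ v.divisors.filter (fun l => Z < l ∧ SqP P0 P1 l), (1 : ℝ) :=
          Finset.sum_le_sum (fun l _ => Rtr_rho_le P0 P1 l)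
      _ = _ := by simp
  · rw [hw]
    calc |∑ l ∈ v.divisors.filter (fun l => ¬ Z < l), rho P0 P1 l|
        ≤ ∑ l ∈ v.divisors.filter (fun l => ¬ Z < l), |rho P0 P1 l| := Finset.abs_sum_le_sum_abs _ _
      _ ≤ ∑ _l ∈ v.divisors.filter (fun l => ¬ Z < l), (1 : ℝ) :=
          Finset.sum_le_sum (fun l _ => Rtr_rho_le P0 P1 l)
      _ = ((v.divisors.filter (fun l => ¬ Z < l)).card : ℝ) := by simp
      _ ≤ (v.divisors.card : ℝ) := by exact_mod_cast Finset.card_filter_le _ _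

end Pool.Agent.Lib.TR
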