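import Pool.Agent.Lib.TR.SpecN

/-!
MP_00e23e_nt, directory Lib/TR, chapter B: the bad integers u (no prime factor in (P0, P1]): Brun-Titchmarsh for the variable d and
a sieve bound for u; also the trivial bound. Rules: see Defs.lean.
-/

set_option autoImplicit false

namespace Pool.Agent.Lib.TR

open Finset Pool.Agent.Lib.EH3 Pool.Agent.Results.MP_00e23e_nt

/-- Module Bph (theorem tBph; sums of 1/φ). Uses: BV.TotStmt.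
Proof. 1/φ(d) = (1/d) ∑_{m | d, m squarefree} 1/φ(m) ≤ (1/d) ∑_{m | d} 1/φ(m) (d/φ(d) = ∏_{p | d} (1 + 1/(p-1)) = ∑ over squarefree m | d of 1/φ(m); KF.LphStmt has the
exact identity; only ≤ is needed). (1) ∑_{d ≤ D} ≤ ∑_m (1/φ(m)) (1/m) ∑_{k ≤ D/m} 1/k ≤ 4 (1 + log D) (Tot (2), harmonic_le_one_add_log). (2) the number of multiples of m in (D, 2D] is
≤ D/m + 1 and 1/d < 1/D: ∑ ≤ ∑_{m ≤ 2D} (1/φ(m)) (1/m + 1/D) ≤ 4 + (4/D)(1 + log (2D)) ≤ 20. -/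
def BphStmt : Prop :=
  (∀ D : ℕ, 1 ≤ D → ∑ d ∈ Icc 1 D, 1 / (d.totient : ℝ) ≤ 4 * (1 + Real.log D)) ∧
  (∀ D : ℕ, 1 ≤ D → ∑ d ∈ Ioc D (2 * D), 1 / (d.totient : ℝ) ≤ 20)

/-- Module Bpr (theorem tBpr; Brun-Titchmarsh for the variable d). Uses: BV.UbStmt.
Proof. Let a, u be coprime, u ≠ 0. The numbers n = a + d u, d ∈ Ioc D (2D), are different, ≡ a mod |u|, and lie in Ioc (a + D u) (a + 2 D u) (u > 0) or
Ioc (a + 2 D u - 1) (a + D u - 1) (u < 0): an interval of length D |u|. Those with n ≥ 1 lie in Ioc N N2 with N = (lower end).toNat, N2 = (upper end).toNat, N2 - N ≤ D |u|. Let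
z = ⌊D^(1/32)⌋ ≥ 2, l = (a mod |u|).toNat, coprime to |u|. The primes n > z are rough: rr z n = 1; the n ≤ z are at most z. BV.Ub: the number is ≤ z +
C (D |u|/(φ(|u|) log z)) + z^16, z^16 ≤ D^(1/2), log z ≥ log D/64, and z + D^(1/2) ≤ D/log D ≤ (|u|/φ(|u|)) D/log D for D ≥ D0. Second part: g = gcd(a,u) > 1 divides n = a + d u for every d; if n is prime
then n = g, and d is determined by n (u ≠ 0). -/
def BprStmt : Prop :=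
  (∃ (C : ℝ) (D0 : ℕ), 0 < C ∧ 2 ≤ D0 ∧ ∀ (D : ℕ) (a u : ℤ), D0 ≤ D → u ≠ 0 → Int.gcd a u = 1 →
    (((Ioc D (2 * D)).filter (fun d : ℕ => 1 ≤ a + d * u ∧ (a + d * u).toNat.Prime)).card : ℝ) ≤
      C * ((u.natAbs : ℝ) / (u.natAbs.totient : ℝ) * ((D : ℝ) / Real.log D))) ∧
  (∀ (D : ℕ) (a u : ℤ), u ≠ 0 → Int.gcd a u ≠ 1 →
    ((Ioc D (2 * D)).filter (fun d : ℕ => 1 ≤ a + d * u ∧ (a + d * u).toNat.Prime)).card ≤ 1)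

/-- Module Bnu (theorem tBnu; the model for the variable d). Uses: BV.UbStmt, Nnm.
Proof. As Bpr with the given z: ∑_d nu z (a + d u) = (1/nrm z) ∑ rr z n over n ∈ Ioc N N2, n ≡ l mod |u| (at most; all terms ≥ 0), and BV.Ub, 1/nrm z ≤ C log z (Nnm).
Second part: p ≤ z divides n = a + d u, so for n ≥ 1 rr z n = 0. -/
def BnuStmt : Prop :=
  (∃ C : ℝ, 0 < C ∧ ∀ (z D : ℕ) (a u : ℤ), 2 ≤ z → u ≠ 0 → Int.gcd a u = 1 →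
    ∑ d ∈ Ioc D (2 * D), nu z (a + d * u) ≤
      C * ((u.natAbs : ℝ) / (u.natAbs.totient : ℝ) * D + Real.log z * (z : ℝ) ^ 16)) ∧
  (∀ (z p : ℕ) (a u d : ℤ), p.Prime → p ≤ z → (p : ℤ) ∣ a → (p : ℤ) ∣ u → nu z (a + d * u) = 0)

/-- Module Bsv (theorem tBsv; the number of bad integers). Uses: SG.VbdStmt, BV.MprStmt.
Proof. g = indicator of the k ≥ 1 without prime factor in (P0, P1], completely multiplicative. N = ∑_{k ≤ K} g k. (1) log k = ∑_{q | k} Λ(q) (ArithmeticFunction.vonMangoldt_sum), k = m q, g k ≤ g m: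
∑_{k ≤ K} g k log k ≤ ∑_{m ≤ K} g m ψ(K/m) ≤ C K ∑_{m ≤ K} g m/m (Chebyshev: ψ(t) ≤ C t, Mathlib Chebyshev.psi_le or the like; or via primorial_le_4_pow). (2) log (K/k) ≤ K/k: ∑ g k log (K/k) ≤ K ∑ g k/k.
So N log K ≤ (C + 1) K G, G = ∑_{k ≤ K} g k/k. (3) G ≤ ∏_{p ≤ K, p ∉ (P0,P1]} (1 - 1/p)⁻¹ (EulerProduct.summable_and_hasSum_smoothNumbers_prod_primesBelow_geometric for the
monoid with zero hom n ↦ g n/n, N = K + 1; compare the proof of BV.Mpr, file Lib/BV/Mpr.lean) = SG.VV P0 P1/(∏_{p ≤ K} (1 - 1/p)) ≤ C (log P0/log P1) C log K (Vbd; ∏_{p ≤ K} (1 - 1/p) = (1/2) VV 2 K ≥ c/log K).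
Hence N ≤ C K log P0/log P1. -/
def BsvStmt : Prop :=
  ∃ C : ℝ, 0 < C ∧ ∀ P0 P1 K : ℕ, 2 ≤ P0 → P0 ≤ P1 → P1 ≤ K →
    (((Icc 1 K).filter (fun k => ¬ Good P0 P1 k)).card : ℝ) ≤ C * (K * (Real.log P0 / Real.log P1))

/-- Module Bwt (theorem tBwt; the same with the weight u/φ(u)). Uses: Bsv, BV.TotStmt.
Proof. u/φ(u) ≤ ∑_{m | u} 1/φ(m) (see Bph). If u = m k is bad then k is bad. So the sum is ≤ ∑_{m ≤ U} (1/φ(m)) N_bad(U/m) (natural division). For m ≤ U/P1: N_bad(U/m) ≤ C (U/m)(log P0/log P1) (Bsv, P1 ≤ U/m),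
in total ≤ 4 C U log P0/log P1 (Tot (2)). For m > U/P1 ≥ U^(3/4) - 1: N_bad ≤ U/m, and 1/(m φ(m)) ≤ C m^(-3/2) (m ≤ C m^(1/2) φ(m): EH.le_totient, EH.card_primeFactors_le, log m ≤ C m^(1/2)), so the rest is
≤ C U U^(-3/8) ≤ C' U/log U ≤ C'' U log P0/log P1 since log P1 ≤ log U, log P0 ≥ log 2. -/
def BwtStmt : Prop :=
  ∃ C : ℝ, 0 < C ∧ ∀ P0 P1 U : ℕ, 2 ≤ P0 → P0 ≤ P1 → P1 ^ 4 ≤ U →
    ∑ u ∈ (Icc 1 U).filter (fun u => ¬ Good P0 P1 u), (u : ℝ) / (u.totient : ℝ) ≤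
      C * (U * (Real.log P0 / Real.log P1))

open Classical in
/-- Module Bco (theorem tBco; the u with a large common prime factor with a). Uses: nothing.
Proof. a ≠ 0: the number of primes p | a is ≤ 2 log |a| (EH.card_primeFactors_le); for each prime p > z the number of u, 1 ≤ |u| ≤ U, p | u, is ≤ 2 U/p ≤ 2 U/z. -/
def BcoStmt : Prop := ∀ (z U : ℕ) (a : ℤ), 1 ≤ z → a ≠ 0 →
  (((Icc (-(U : ℤ)) U).filter (fun u => u ≠ 0 ∧ ∃ p : ℕ, p.Prime ∧ z < p ∧ (p : ℤ) ∣ a ∧ (p : ℤ) ∣ u)).card : ℝ) ≤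
    4 * Real.log a.natAbs * (U / z)

/-- Module Bsm (theorem tBsm; small values of a + d u). Uses: nothing.
Proof. For fixed d > D ≥ 1 the integers u with 1 ≤ a + d u ≤ Y are at most Y/d + 1 ≤ Y/D + 1; sum over the D values of d. -/
def BsmStmt : Prop := ∀ (D U : ℕ) (Y : ℝ) (a : ℤ), 1 ≤ D → 0 ≤ Y →
  ∑ d ∈ Ioc D (2 * D), (((Icc (-(U : ℤ)) U).filter (fun u => 1 ≤ a + d * u ∧ ((a + d * u : ℤ) : ℝ) ≤ Y)).card : ℝ) ≤ Y + D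

open Classical in
/-- Module Bad (theorem tBad; THE BAD PART). Uses: Nsz, Bpr, Bnu, Bwt, Bco, Bsm.
Proof. L = log x, z = zz ζ x (2 ≤ z ≤ 2 L^ζ), U' = max(U, ⌊3x/D⌋) = ⌊3x/D⌋ ≥ U. a ≠ 0 in all terms (gcd(0,d) = d > 1). For n = a + d u with 1 ≤ n ≤ x: |fc n| ≤ 1[n prime] + lci n nu n (Nsz).
(1) primes, gcd(a,u) = 1: exchange the sums over d and u: for each bad u, Bpr: ≤ C (|u|/φ(|u|)) D/log D, log D ≥ ε L; sum over the bad u (both signs) by Bwt with U' (P1^4 ≤ x^(ε/2) ≤ U'): ≤ C (D/L) U' log P0/log P1 ≤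
C (x/L) log P0/log P1. (2) primes, gcd(a,u) > 1: ≤ 2U ≤ 6 x^(1-ε). (3) model, n ≥ √x: lci n ≤ 3/L; gcd(a,u) = 1: Bnu: (3/L) C ((|u|/φ(|u|)) D + log z z^16), z^16 log z ≤ D: sum as in (1). gcd(a,u) divisible by a prime ≤ z: 0
(Bnu (2)). Otherwise a prime > z divides a and u: Bco: ≤ 4 (2L) U/z values of u, each ≤ D 2 C log z: ≤ C x L^(1-ζ) L. (4) model, n < √x: ≤ 2 C log z each, Bsm with Y = √x: ≤ C log z (√x + D) ≤ x L^(-ζ). Sum over the H values of a. -/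
def BadStmt : Prop := ∀ ε ζ : ℝ, 0 < ε → ε ≤ 1 / 10 → 1 ≤ ζ → ∃ C x0 : ℝ, 0 < C ∧ 3 ≤ x0 ∧
  ∀ (x : ℝ) (D P0 P1 H U : ℕ) (A0 : ℤ), x0 ≤ x → x ^ ε ≤ D → (D : ℝ) ≤ x ^ (1 - ε) → 2 ≤ P0 → P0 ≤ P1 →
    (P1 : ℝ) ≤ x ^ (ε / 8) → -x ≤ A0 → (A0 : ℝ) + H ≤ x + 1 → (U : ℝ) ≤ 3 * x / D →
    ∑ a ∈ Ico A0 (A0 + H), ∑ d ∈ (Ioc D (2 * D)).filter (fun d : ℕ => Int.gcd a d = 1),
      ∑ u ∈ (Icc (-(U : ℤ)) U).filter (fun u => u ≠ 0 ∧ ¬ Good P0 P1 u.natAbs), |fc (zz ζ x) ⌊x⌋ (a + d * u)| ≤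
      C * (H * (x / Real.log x * (Real.log P0 / Real.log P1)) + H * (x * (Real.log x) ^ (2 - ζ)))

/-- Module Btr (theorem tBtr; the trivial bound for all moduli ≤ x^(1-ε)). Uses: BV.UbStmt, Bph.
Proof. L = log x. For d ≤ x^(1-ε), gcd(a,d) = 1, y ≤ x: resCount y d a is at most the number of primes n ≤ x, n ≡ a mod d; z = ⌊(x/d)^(1/32)⌋ ≥ 2, log z ≥ ε L/64 (x large); BV.Ub (N = 0, N2 = ⌊x⌋):
≤ z + C x/(φ(d) log z) + z^16 ≤ C x/(ε φ(d) L) + 2 (x/d)^(1/2), and (x/d)^(1/2) ≤ (x/d)/L ≤ x/(φ(d) L) (x/d ≥ x^ε). li y ≤ 8 x/L (Pool.Agent.Lib.BV.Btt_li, file Lib/BV/Btt.lean). Sum over d: ∑ 1/φ(d) ≤ 4 (1 + L) (Bph). -/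
def BtrStmt : Prop := ∀ ε : ℝ, 0 < ε → ε ≤ 1 → ∃ C x0 : ℝ, 0 < C ∧ 3 ≤ x0 ∧
  ∀ (x : ℝ) (a : ℤ) (y : ℕ → ℝ), x0 ≤ x → (∀ d, 2 ≤ y d ∧ y d ≤ x) →
    ∑ d ∈ (Icc 1 ⌊x ^ (1 - ε)⌋₊).filter (fun d : ℕ => Int.gcd a d = 1), |resErr (y d) d a| ≤ C * x

end Pool.Agent.Lib.TR
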