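import Pool.Agent.Lib.TR.Stm
import Pool.Agent.Lib.TR.SpecB

/-!
MP_00e23e_nt, directory Lib/TR, chapter F: from the main proposition (KeyStmt, SpecR.lean), the reduction (Red, Rer), the bad part (Bad)
and the main term (Nap) to the final theorem TStmt (Stm.lean). Rules: see Defs.lean; architect of this chapter: helper36.

ORDER: Fks, Fko, Fpo (good u > 0), Frf (reflection, u < 0), Fgd (good u, primes minus model, one y), Fgr (grid in y), Fid (identity),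
Fbs (splitting), Fbk (one dyadic block), Fmi (all moduli, H of middle size), Fct (cutting an interval), Fin (final theorem).
NOTATION in the proofs: L = log x, l2 = log L = log log x.
-/

set_option autoImplicit false

namespace Pool.Agent.Lib.TR

open Finset Pool.Agent.Lib.EH3 Pool.Agent.Results.MP_00e23e_nt

/-- the hypotheses on f in KeyStmt -/
def Adm (x β A2 : ℝ) (f : ℤ → ℂ) : Prop :=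
  (∀ n, ‖f n‖ ≤ Real.log x) ∧ (∀ n : ℤ, x < |(n : ℝ)| → f n = 0) ∧
  (∀ (q : ℕ) (b u v : ℤ), 1 ≤ q → (q : ℝ) ≤ (Real.log x) ^ β →
    ‖∑ n ∈ (Ico u v).filter (fun n => (q : ℤ) ∣ n - b), f n‖ ≤ x * (Real.log x) ^ (-A2))

/-- Module Fks (theorem tFks; vanishing and trivial bound of one sum KS). Uses: Rtr.
Proof. (1) d > D, p > P, v ≥ V ≥ 1: (d p v : ℝ) > D P V ≥ 2 X (d p v ≥ (D+1)(P+1) V > D P V in ℕ), and a ≥ -X, so a + d p v > X and f = 0 in every term of the sum.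
(2) S ⊆ Ioc P (2P), so S.card ≤ P. Every term has norm ≤ 1 · |w v| · M, |w v| ≤ v.divisors.card (Rtr, second part, v ≥ V ≥ 1), there are H D pairs (a, d), and
∑_{v ∈ Ico V (2V)} τ(v) ≤ ∑_{v ∈ Icc 1 (2V)} τ(v) = ∑_{m ∈ Icc 1 (2V)} ⌊2V/m⌋ ≤ 2V (1 + log (2V)) (harmonic_le_one_add_log; or count the pairs (m, k) with m k ≤ 2V). -/
def FksStmt : Prop :=
  (∀ (A0 : ℤ) (H D P V : ℕ) (S : Finset ℕ) (X : ℝ) (c : ℤ → ℕ → ℂ) (w : ℕ → ℂ) (f : ℤ → ℂ),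
    1 ≤ V → (∀ p ∈ S, P < p) → (∀ n : ℤ, X < |(n : ℝ)| → f n = 0) → (∀ a ∈ Ico A0 (A0 + H), |(a : ℝ)| ≤ X) →
    2 * X ≤ (D : ℝ) * P * V → KS A0 H D V S c w f = 0) ∧
  (∀ (A0 : ℤ) (H D P V Z P0 P1 : ℕ) (S : Finset ℕ) (M : ℝ) (c : ℤ → ℕ → ℂ) (f : ℤ → ℂ),
    1 ≤ V → 0 ≤ M → (∀ p ∈ S, P < p ∧ p ≤ 2 * P) → (∀ a d, ‖c a d‖ ≤ 1) → (∀ n, ‖f n‖ ≤ M) →
    ‖KS A0 H D V S c (fun v => ((wt (rho P0 P1) Z v : ℝ) : ℂ)) f‖ ≤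
      H * D * P * M * (2 * V * (1 + Real.log (2 * V))))

/-- Module Fko (theorem tFko; one sum KS, all sizes of P and V). Uses: Key, Fks.
Proof. Take B0, B1, β, A2 from Key (ε, A); x large; S = PS P0 P1 ∩ Ioc P (2P). If S is empty, KS = 0 (a sum over p ∈ ∅). Otherwise some p ∈ S has P < p ≤ P1, so P < P1 and
P L^B1 ≤ P1 L^B1 ≤ H. 1 ≤ P (L^B0 ≤ P0 ≤ P). (a) 2x ≤ D P V: KS = 0 (Fks (1) with X = x). (b) D P V < x L^(-(A+5)): Fks (2) with M = L; V ≤ D P V < x, so log (2V) ≤ 2L and 1 + log (2V) ≤ 3L: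
‖KS‖ ≤ H (D P V) 6 L² ≤ 6 H x L^(-(A+3)) ≤ H x L^(-A). (c) otherwise Key with ρ = rho P0 P1: H ≤ x^(ε/8) ≤ x^(1/10); |rho| ≤ 1; rho l ≠ 0 gives SqP P0 P1 l, so every prime p | l is in PS, p > P0 ≥ L^B0 ≥ L^β;
x^(ε/2) Z ≤ x^(5ε/8), and V ≥ x L^(-(A+5))/(D P) ≥ x^ε L^(-(A+5))/H ≥ x^(7ε/8) L^(-(A+5)) ≥ x^(5ε/8) for x large (D ≤ x^(1-ε), P ≤ H ≤ x^(ε/8)). -/
def FkoStmt : Prop := ∀ ε A : ℝ, 0 < ε → ε ≤ 1 / 10 → 0 < A → ∃ B0 B1 β A2 x0 : ℝ, 1 ≤ B0 ∧ 1 ≤ B1 ∧ 1 ≤ β ∧ 0 < A2 ∧ 3 ≤ x0 ∧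
  ∀ (x : ℝ) (D P V Z P0 P1 H : ℕ) (A0 : ℤ) (c : ℤ → ℕ → ℂ) (f : ℤ → ℂ), x0 ≤ x → 1 ≤ D → (D : ℝ) ≤ x ^ (1 - ε) →
    1 ≤ V → 1 ≤ Z → (Z : ℝ) ≤ x ^ (ε / 8) → (Real.log x) ^ B0 ≤ P0 → P0 ≤ P → P1 * (Real.log x) ^ B1 ≤ H →
    (H : ℝ) ≤ x ^ (ε / 8) → (∀ a ∈ Ico A0 (A0 + H), |(a : ℝ)| ≤ x) → (∀ a d, ‖c a d‖ ≤ 1) → Adm x β A2 f →
    ‖KS A0 H D V (PS P0 P1 ∩ Ioc P (2 * P)) c (fun v => ((wt (rho P0 P1) Z v : ℝ) : ℂ)) f‖ ≤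
      H * (x * (Real.log x) ^ (-A))

/-- Module Fpo (theorem tFpo; the good u > 0). Uses: Fko, Red, Rer.
Proof. Fko with (ε, A + 3): B0', B1, β, A2; B0 = max B0' (A + 3) (L ≥ 1, so L^B0' ≤ L^B0 ≤ P0), c0 = ε/(16 (A + 7)) (< 1). x large. H ≤ exp (c0 L/l2) ≤ x^(ε/8) (l2 ≥ 1 > 8 c0/ε). Z = ⌊x^(ε/8)⌋₊ ≥ x^(ε/16) ≥ 1, J = ⌈2L⌉₊ ≤ 3L,
2^J ≥ exp (2L log 2) ≥ x^(13/10) > 3x ≥ U, P1 ≤ H ≤ x < 2^J. Red with X = x, M = L. Main part: J² ≤ 9L² sums KS (P = 2^i P0 ≥ P0, V = 2^j ≥ 1), each ≤ H x L^(-(A+3)) (Fko): together ≤ 9 H x L^(-A-1) ≤ (1/2) H x L^(-A).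
Error (Rer with constant C, D U ≤ 3x): ≤ H D L C U (1/P0 + exp (-(log Z/log P1)) (log P1)^4) ≤ 3 C H x (L^(1-B0) + L^5 exp (-(log Z/log P1))), since 2 ≤ P0 ≤ P1, 0 < log P1 ≤ log H ≤ c0 L/l2 ≤ L, log Z ≥ (ε/16) L,
so log Z/log P1 ≥ (ε/(16 c0)) l2 = (A + 7) l2, exp (..) ≤ L^(-A-7); B0 ≥ A + 3: the error is ≤ 6 C H x L^(-A-2) ≤ (1/2) H x L^(-A). -/
def FpoStmt : Prop := ∀ ε A : ℝ, 0 < ε → ε ≤ 1 / 10 → 0 < A → ∃ B0 B1 β A2 c0 x0 : ℝ, 1 ≤ B0 ∧ 1 ≤ B1 ∧ 1 ≤ β ∧ 0 < A2 ∧ 0 < c0 ∧ c0 ≤ 1 ∧ 3 ≤ x0 ∧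
  ∀ (x : ℝ) (D U P0 P1 H : ℕ) (A0 : ℤ) (c : ℤ → ℕ → ℂ) (f : ℤ → ℂ), x0 ≤ x → 1 ≤ D → (D : ℝ) ≤ x ^ (1 - ε) →
    2 * x ≤ (D : ℝ) * U → (U : ℝ) ≤ 3 * x / D → (Real.log x) ^ B0 ≤ P0 → P0 ≤ P1 → P1 * (Real.log x) ^ B1 ≤ H →
    (H : ℝ) ≤ Real.exp (c0 * (Real.log x / Real.log (Real.log x))) → (∀ a ∈ Ico A0 (A0 + H), |(a : ℝ)| ≤ x) →
    (∀ a d, ‖c a d‖ ≤ 1) → Adm x β A2 f →
    ‖∑ a ∈ Ico A0 (A0 + H), ∑ d ∈ Ioc D (2 * D), ∑ u ∈ (Icc 1 U).filter (fun u => Good P0 P1 u), c a d * f (a + d * u)‖ ≤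
      H * (x * (Real.log x) ^ (-A))

/-- Module Frf (theorem tFrf; reflection). Uses: nothing.
Proof. (1) n ↦ -n; for the third property m = -n runs through Ico (1 - v) (1 - u), and q | n - b iff q | m - (-b). (2) The u ∈ Icc (-U) U, u ≠ 0, are the positive u (u = natural number in Icc 1 U, natAbs u = u) and the
negative u = -u' (u' ∈ Icc 1 U, natAbs u = u'); in the second part put a = -a', a' ∈ Ico (1 - A0 - H) (1 - A0 - H + H): a + d u = -(a' + d u'). -/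
def FrfStmt : Prop :=
  (∀ (x β A2 : ℝ) (f : ℤ → ℂ), Adm x β A2 f → Adm x β A2 (fun n => f (-n))) ∧
  (∀ (A0 : ℤ) (H D U P0 P1 : ℕ) (c : ℤ → ℕ → ℂ) (f : ℤ → ℂ),
    ∑ a ∈ Ico A0 (A0 + H), ∑ d ∈ Ioc D (2 * D),
      ∑ u ∈ (Icc (-(U : ℤ)) U).filter (fun u => u ≠ 0 ∧ Good P0 P1 u.natAbs), c a d * f (a + d * u) =
      ∑ a ∈ Ico A0 (A0 + H), ∑ d ∈ Ioc D (2 * D), ∑ u ∈ (Icc 1 U).filter (fun u => Good P0 P1 u), c a d * f (a + d * u) +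
      ∑ a ∈ Ico (1 - A0 - H) (1 - A0 - H + H), ∑ d ∈ Ioc D (2 * D),
        ∑ u ∈ (Icc 1 U).filter (fun u => Good P0 P1 u), c (-a) d * f (-(a + d * u)))

/-- Module Fgd (theorem tFgd; the good u, primes minus model, one y). Uses: Fpo, Frf, Nsw, Nsz.
Proof. Fpo with (ε, A + 1): B0, B1, β, A2, c0; ζ = max β 6; Nsw with (A2 + 1, ζ). x large, z = zz ζ x (2 ≤ z ≤ 2 L^ζ), f n = fc z ⌊y⌋ n as a complex number. Adm x β A2 f: |fc| ≤ |ff z n| ≤ 1 + 2 C log z ≤ L (Nsz); |n| > x: n > x gives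
n > ⌊y⌋ and fc = 0; n < -x < 1 gives ff = 0; q ≤ L^β ≤ L^ζ: Nsw: ≤ C x L^(-A2-1) ≤ x L^(-A2). c a d = 0 if gcd(a,d) ≠ 1, otherwise the sign (1 or -1) of the sum over u. Then the left side (as a complex number) is the sum over all
d ∈ Ioc D (2D) of c a d · f(a + d u), which by Frf (2) is the sum of two sums as in Fpo: the first for (A0, c, f), the second for (1 - A0 - H, c(-a) d, f(-n)) (Frf (1); |-a| ≤ x). Total ≤ 2 H x L^(-A-1) ≤ H x L^(-A). -/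
def FgdStmt : Prop := ∀ ε A : ℝ, 0 < ε → ε ≤ 1 / 10 → 0 < A → ∃ B0 B1 ζ c0 x0 : ℝ, 1 ≤ B0 ∧ 1 ≤ B1 ∧ 6 ≤ ζ ∧ 0 < c0 ∧ c0 ≤ 1 ∧ 3 ≤ x0 ∧
  ∀ (x y : ℝ) (D U P0 P1 H : ℕ) (A0 : ℤ), x0 ≤ x → 2 ≤ y → y ≤ x → 1 ≤ D → (D : ℝ) ≤ x ^ (1 - ε) →
    2 * x ≤ (D : ℝ) * U → (U : ℝ) ≤ 3 * x / D → (Real.log x) ^ B0 ≤ P0 → P0 ≤ P1 → P1 * (Real.log x) ^ B1 ≤ H →
    (H : ℝ) ≤ Real.exp (c0 * (Real.log x / Real.log (Real.log x))) → (∀ a ∈ Ico A0 (A0 + H), |(a : ℝ)| ≤ x) →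
    ∑ a ∈ Ico A0 (A0 + H), ∑ d ∈ (Ioc D (2 * D)).filter (fun d : ℕ => Int.gcd a d = 1),
      |∑ u ∈ (Icc (-(U : ℤ)) U).filter (fun u => u ≠ 0 ∧ Good P0 P1 u.natAbs), fc (zz ζ x) ⌊y⌋ (a + d * u)| ≤
      H * (x * (Real.log x) ^ (-A))

/-- Module Fgr (theorem tFgr; grid in y). Uses: nothing.
Proof. g = ⌊y G/x⌋₊ ≤ G, so g x/G ≤ y < (g+1) x/G. fc z ⌊y⌋ n - fc z ⌊g x/G⌋ n is ff z n if g x/G < n ≤ y, and 0 otherwise (n > ⌊t⌋ iff n > t). The integers u with g x/G < a + d u ≤ y are at most (x/G)/d + 1 ≤ x/(G D) + 1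
(consecutive ones differ by 1 and the values by d: if there are k ≥ 1 of them, (k-1) d < x/G). So |S(y)| ≤ |S(g x/G)| + M (x/(G D) + 1). If g ≥ 1 then |S(g x/G)| is one of the terms of the sum over Icc 1 G; if g = 0, S(0) = 0 since
ff z n = 0 for n ≤ 0 (definition of ff). -/
def FgrStmt : Prop := ∀ (z D d G : ℕ) (a : ℤ) (S : Finset ℤ) (x y M : ℝ), 1 ≤ D → D < d → 1 ≤ G → 0 < x → 0 ≤ y → y ≤ x →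
  0 ≤ M → (∀ n, |ff z n| ≤ M) →
  |∑ u ∈ S, fc z ⌊y⌋ (a + d * u)| ≤
    ∑ g ∈ Icc 1 G, |∑ u ∈ S, fc z ⌊(g : ℝ) * x / G⌋ (a + d * u)| + M * (x / (G * D) + 1)

/-- Module Fid (theorem tFid; the identity). Uses: nothing. (Compare the lemma Blu_reidx in Lib/UI/Blu.lean.)
Proof. fc z ⌊y⌋ (a + d u) = 0 unless 1 ≤ a + d u ≤ ⌊y⌋. u ↦ a + d u is a bijection from the u ∈ Icc (-U) U with 1 ≤ a + d u ≤ ⌊y⌋ onto the n ∈ Icc 1 ⌊y⌋ with d | n - a: if n = a + d u is in [1, y] then |d u| = |n - a| ≤ 2x ≤ D U, so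
|u| ≤ U (d > D). Hence the sum over u is ∑_{n} (1_(n prime) - lci n nu z n) over n ∈ Icc 1 ⌊y⌋, d | n - a, and the number of primes among these n is resCount y d a (n = a natural number, ⌊y⌋ = ⌊y⌋₊). -/
def FidStmt : Prop := ∀ (z D d U : ℕ) (a : ℤ) (x y : ℝ), 1 ≤ D → D < d → 2 ≤ y → y ≤ x → |(a : ℝ)| ≤ x → 2 * x ≤ (D : ℝ) * U →
  resErr y d a = ∑ u ∈ Icc (-(U : ℤ)) U, fc z ⌊y⌋ (a + d * u) +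
    ((∑ n ∈ (Icc (1 : ℤ) ⌊y⌋).filter (fun n => (d : ℤ) ∣ n - a), Pool.Agent.Lib.UI.lci n * nu z n) -
      li y / (d.totient : ℝ))

/-- Module Fbs (theorem tFbs; splitting of the error). Uses: Fgr, Fid.
Proof. Fid; the sum over u ∈ Icc (-U) U is the term u = 0 (|fc z ⌊y⌋ a| ≤ |ff z a| ≤ M), the sum over the good u ≠ 0 (Fgr with S = the good u), and the sum over the bad u ≠ 0, where |fc z ⌊y⌋ n| ≤ |fc z ⌊x⌋ n| since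
⌊y⌋ ≤ ⌊x⌋ (fc z ⌊y⌋ n is fc z ⌊x⌋ n or 0). -/
def FbsStmt : Prop := ∀ (z D d U G P0 P1 : ℕ) (a : ℤ) (x y M : ℝ), 1 ≤ D → D < d → 1 ≤ G → 2 ≤ y → y ≤ x → |(a : ℝ)| ≤ x →
  2 * x ≤ (D : ℝ) * U → 0 ≤ M → (∀ n, |ff z n| ≤ M) →
  |resErr y d a| ≤
    ∑ g ∈ Icc 1 G, |∑ u ∈ (Icc (-(U : ℤ)) U).filter (fun u => u ≠ 0 ∧ Good P0 P1 u.natAbs),
      fc z ⌊(g : ℝ) * x / G⌋ (a + d * u)| +
    ∑ u ∈ (Icc (-(U : ℤ)) U).filter (fun u => u ≠ 0 ∧ ¬ Good P0 P1 u.natAbs), |fc z ⌊x⌋ (a + d * u)| +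
    |(∑ n ∈ (Icc (1 : ℤ) ⌊y⌋).filter (fun n => (d : ℤ) ∣ n - a), Pool.Agent.Lib.UI.lci n * nu z n) -
      li y / (d.totient : ℝ)| +
    M * (x / (G * D) + 2)

/-- Module Fbk (theorem tFbk; one dyadic block of moduli). Uses: Fgd, Fbs, Nap, Nsz, Bph, Bad.
Proof. Fgd with (ε, 5): B0, B1, ζ ≥ 6, c0; Nap with (ε/2, 3, ζ); Bad with (ε, ζ). B = 2 (B0 + B1 + 2). x large. z = zz ζ x, M = L (Nsz: |ff| ≤ 1 + 2 C log z ≤ L), G = ⌈L³⌉₊ ≤ 2L³, U = ⌈2x/D⌉₊ ≤ 3x/D (x/D ≥ x^ε ≥ 1), 2x ≤ D U,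
P0 = ⌈L^B0⌉₊ ≤ 2 L^B0, P1 = ⌊H/L^B1⌋₊ ≥ H/(2 L^B1) ≥ √H (√H ≥ L^(B/2) ≥ 2 L^B1) ≥ L^(B/2) ≥ P0 ≥ 2, P1 L^B1 ≤ H, P1 ≤ H ≤ exp (c0 L/l2) ≤ x^(ε/8) (l2 ≥ 8/ε). a ∈ Ico A0 (A0 + H) gives |a| ≤ x. Sum Fbs over a and d (at most H D pairs):
(1) for every g ∈ Icc 1 G, y_g = g x/G ∈ [2, x] (x/G ≥ 2): Fgd: ≤ H x L^(-5); in total ≤ G H x L^(-5) ≤ 2 H x L^(-2). (2) Bad: ≤ C (H (x/L)(log P0/log P1) + H x L^(2-ζ)), log P0 ≤ (B0 + 1) l2, log P1 ≥ (1/2) log H, ζ ≥ 6.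
(3) d ≤ 2D ≤ 2 x^(1-ε) ≤ x^(1-ε/2): Nap and Bph (2): ≤ 20 C H x L^(-3). (4) H D L (x/(G D) + 2) ≤ H x L^(-2) + 2 H x^(1-ε) L ≤ 2 H x L^(-2). Finally H x L^(-2) ≤ H (x/L)(l2/log H), since log H ≤ c0 L/l2 ≤ L and l2 ≥ 1. -/
def FbkStmt : Prop := ∀ ε : ℝ, 0 < ε → ε ≤ 1 / 10 → ∃ C B c0 x0 : ℝ, 0 < C ∧ 1 ≤ B ∧ 0 < c0 ∧ c0 ≤ 1 ∧ 3 ≤ x0 ∧
  ∀ (x : ℝ) (D H : ℕ) (A0 : ℤ) (y : ℕ → ℤ → ℝ), x0 ≤ x → x ^ ε ≤ D → (D : ℝ) ≤ x ^ (1 - ε) → -x ≤ A0 →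
    (A0 : ℝ) + H ≤ x + 1 → (Real.log x) ^ B ≤ H → (H : ℝ) ≤ Real.exp (c0 * (Real.log x / Real.log (Real.log x))) →
    (∀ d a, 2 ≤ y d a ∧ y d a ≤ x) →
    ∑ a ∈ Ico A0 (A0 + H), ∑ d ∈ (Ioc D (2 * D)).filter (fun d : ℕ => Int.gcd a d = 1), |resErr (y d a) d a| ≤
      C * (H * (x / Real.log x * (Real.log (Real.log x) / Real.log H)))

/-- Module Fmi (theorem tFmi; all moduli, H of middle size). Uses: Fbk, UI.FiuStmt.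
(theorem tFmi (h1 : FbkStmt) (h2 : Pool.Agent.Lib.UI.FiuStmt) : FmiStmt.)
Proof. Fbk with ε: C, B', c0. Fiu with (1/10, 1): C'; B = max B' (|C'| + 1). x large, so 3 ≤ L, 1 ≤ l2, log H ≤ L. (A) d ≤ x^(1/4): Fiu with D = 1, Q = x^(1/4) ≤ x^(9/10): min (..) ≤ 1 + Q²/x ≤ 2, L^C' · 2 ≤ L^(|C'|+1) ≤ H, so this part is ≤ C' H x/L ≤
|C'| H x (l2/log H) (⌈1⌉₊ = 1). (B) N0 = ⌊x^(1/4)⌋₊ ≥ x^(1/10) ≥ x^ε: every d with N0 < d ≤ x^(1-ε) is in a block (2^i N0, 2^(i+1) N0] with 2^i N0 < d ≤ x^(1-ε); i < I = ⌈2L⌉₊ (2^i ≤ x). So the sum is ≤ the sum over the i < I with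
(2^i N0 : ℝ) ≤ x^(1-ε) of the sums of Fbk with D = 2^i N0: ≤ 3L C H (x/L)(l2/log H) (I ≤ 3L). -/
def FmiStmt : Prop := ∀ ε : ℝ, 0 < ε → ε ≤ 1 / 10 → ∃ C B c0 x0 : ℝ, 0 < C ∧ 1 ≤ B ∧ 0 < c0 ∧ c0 ≤ 1 ∧ 3 ≤ x0 ∧
  ∀ (x : ℝ) (H : ℕ) (A0 : ℤ) (y : ℕ → ℤ → ℝ), x0 ≤ x → -x ≤ A0 →
    (A0 : ℝ) + H ≤ x + 1 → (Real.log x) ^ B ≤ H → (H : ℝ) ≤ Real.exp (c0 * (Real.log x / Real.log (Real.log x))) →
    (∀ d a, 2 ≤ y d a ∧ y d a ≤ x) →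
    ∑ a ∈ Ico A0 (A0 + H), ∑ d ∈ (Icc 1 ⌊x ^ (1 - ε)⌋₊).filter (fun d : ℕ => Int.gcd a d = 1), |resErr (y d a) d a| ≤
      C * (H * (x * (Real.log (Real.log x) / Real.log H)))

/-- Module Fct (theorem tFct; cutting an interval). Uses: nothing.
Proof. Strong induction on H: if H ≤ 2 H1 use the hypothesis for the whole interval; otherwise the first piece has length H1 (hypothesis with A' = A, H' = H1) and the rest, Ico (A + H1) (A + H), has length H - H1 ≥ H1 (induction). -/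
def FctStmt : Prop := ∀ (F : ℤ → ℝ) (A : ℤ) (H H1 : ℕ) (κ : ℝ), 1 ≤ H1 → H1 ≤ H →
  (∀ (A' : ℤ) (H' : ℕ), A ≤ A' → A' + H' ≤ A + H → H1 ≤ H' → H' ≤ 2 * H1 → ∑ a ∈ Ico A' (A' + H'), F a ≤ κ * H') →
  ∑ a ∈ Ico A (A + H), F a ≤ κ * H

/-- Module Fin (theorem tFin (h1 : Pool.Agent.Lib.UI.TrbStmt) (h2 : BtrStmt) (h3 : FmiStmt) (h4 : FctStmt) : TStmt). Uses: UI.TrbStmt, Btr, Fmi, Fct.
Proof. e = min ε (1/10): Icc 1 ⌊x^(1-ε)⌋₊ ⊆ Icc 1 ⌊x^(1-e)⌋₊ (x ≥ 1), so it is enough to treat e. x0 large (x0 from Btr with e and from Fmi with e, constants C1, C2, B, c0). log log 3 > 0 (3 > exp 1: Real.exp_one_lt_d9), log H > 0. R = l2/log H + l2²/L.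
(a) 3 ≤ x < x0: Trb (with y := fun d => y d a) gives ≤ 20 x (log x0)² for each a (x^(1-e) ≤ x), and R ≥ (log log 3)²/log x0 > 0. (b) x ≥ x0, H < L^B: Btr: ≤ C1 x for each a; log H ≤ B l2, so R ≥ 1/B. (c) L^B ≤ H ≤ exp (c0 L/l2): Fmi.
(d) H > E = exp (c0 L/l2): H1 = ⌊E/2⌋₊, so 2 H1 ≤ E, H1 ≤ H, H1 ≥ E/4 ≥ exp (c0 L/(2 l2)) ≥ L^B (x large). For every interval Ico A' (A' + H') inside Ico A (A + H), H1 ≤ H' ≤ 2 H1: Fmi: ≤ C2 H' x l2/log H' ≤ C2 H' x 2 l2²/(c0 L)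
(log H' ≥ log H1 ≥ c0 L/(2 l2)). Fct with F a = the inner sum, κ = 2 C2 x l2²/(c0 L). -/
def FinDoc : Prop := TStmt

end Pool.Agent.Lib.TR
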