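import Pool.Agent.Lib.TR.Stm

/-!
MP_00e23e_nt, directory Lib/TR, chapter D: Dirichlet polynomials at the points m/4 (m integer). Rules: see Defs.lean.
lp m n = ee(-(m log n/4)) is completely multiplicative in n ≥ 1. CO = Pool.Agent.Lib.CO.
-/

set_option autoImplicit false

namespace Pool.Agent.Lib.TR

open Finset Pool.Agent.Lib.EH3 Pool.Agent.Results.MP_00e23e_nt

/-- moments of the divisor function (= Pool.Agent.Lib.CO.TauStmt, proved in Lib/CO/Tau.lean) -/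
def TauStmt : Prop :=
  ∀ j X : ℕ, 1 ≤ X → ∑ n ∈ Icc 1 X, (n.divisors.card : ℝ) ^ j ≤ (X : ℝ) * (1 + Real.log X) ^ (2 ^ j)

/-- Module Dmv (theorem tDmv; mean value). Uses: nothing (EH3.dual_ls, file Lib/EH3/LS1.lean).
Proof. Cut [1, N] into the blocks n ∈ [e^(2i), e^(2i+2)), 0 ≤ i ≤ (log N)/2: at most 1 + log N blocks (i = ⌊log n/2⌋₊). Inside a block, θ n = log n/4 differ by less than 1/2, so round (θ n - θ n') = 0, and |θ n - θ n'| ≥ (1/4) log(1 + 1/(N-1)) ≥ 1/(8N) for n ≠ n' ≤ N. dual_ls with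
h = T + 4N + 1 (2h/(8N) ≥ 1), points -θ n and coefficients a n ee(T θ n) (shift m = k - T): the sum over |m| ≤ T of the block is ≤ 10·2h ∑_block ‖a‖² ≤ 100 (T + N) ∑_block ‖a‖². Cauchy-Schwarz over the at most 1 + log N blocks. -/
def DmvStmt : Prop := ∀ (N T : ℕ) (a : ℕ → ℂ), 1 ≤ N → 1 ≤ T →
  ∑ m ∈ Icc (-(T : ℤ)) T, ‖∑ n ∈ Icc 1 N, a n * lp m n‖ ^ 2 ≤
    200 * (1 + Real.log N) * ((T : ℝ) + N) * ∑ n ∈ Icc 1 N, ‖a n‖ ^ 2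

/-- Module Dfa (theorem tDfa; factorization and sizes). Uses: TauStmt.
Proof. (1) exchange the sums; for d ∈ (D,2D], p ∈ S, v ∈ [V,2V) the product d p v is in [1, 8 D P V], and lp m (d p v) = lp m d lp m p lp m v. (2) ‖gg n‖ ≤ ∑ over the triples with d p v = n of τ(v) ≤ τ(n)² τ(n) (at most τ(n)² triples; τ(v) ≤ τ(n) for v | n), Tau with j = 6, X = 8 D P V.
(3) b(e) = ∑_{d v = e} c d w v, ‖b(e)‖ ≤ τ(e)², Tau with j = 4. (4) support. -/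
def DfaStmt : Prop := ∀ (D P V : ℕ) (S : Finset ℕ) (c w : ℕ → ℂ), 1 ≤ D → 1 ≤ P → 1 ≤ V → (∀ p ∈ S, P < p ∧ p ≤ 2 * P) →
  (∀ d, ‖c d‖ ≤ 1) → (∀ v, ‖w v‖ ≤ (v.divisors.card : ℝ)) →
  (∀ m : ℤ, GD (8 * (D * P * V)) (gg D V S c w) m =
    (∑ d ∈ Ioc D (2 * D), c d * lp m d) * (∑ p ∈ S, lp m p) * (∑ v ∈ Ico V (2 * V), w v * lp m v)) ∧
  (∑ n ∈ Icc 1 (8 * (D * P * V)), ‖gg D V S c w n‖ ^ 2 ≤
    8 * (D * P * V : ℕ) * (1 + Real.log (8 * (D * P * V : ℕ))) ^ 64) ∧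
  (∑ e ∈ Icc 1 (4 * (D * V)), ‖∑ d ∈ Ioc D (2 * D), ∑ v ∈ Ico V (2 * V), (if d * v = e then c d * w v else 0)‖ ^ 2 ≤
    4 * (D * V : ℕ) * (1 + Real.log (4 * (D * V : ℕ))) ^ 16) ∧
  (∀ n : ℤ, (n ≤ (D * P * V : ℕ) ∨ (8 * (D * P * V) : ℕ) < n) → gg D V S c w n = 0)

/-- Module Dex (theorem tDex; the number of the exceptional m). Uses: Dmv.
Proof. (∑_{p ∈ S} lp m p)^k = ∑_{n ≤ (2P)^k} a n lp m n with a n = the number of k-tuples of elements of S with product n (Finset.sum_pow', grouping by the product; lp multiplicative). ∑ a n = |S|^k ≤ P^k; a n ≤ k! (the tuples with product n are rearrangements of n.primeFactorsList: the map from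
the permutations of Fin k is onto after fixing one tuple: two tuples of primes with the same product are permutations of each other, Nat.primeFactorsList_unique / List.Perm). So ∑ (a n)² ≤ k! P^k. Dmv with N = (2P)^k; every exceptional m contributes ≥ (γ P)^(2k). -/
def DexStmt : Prop := ∀ (P T k : ℕ) (S : Finset ℕ) (γ : ℝ), 1 ≤ P → 1 ≤ T → 1 ≤ k → 0 < γ → (∀ p ∈ S, p.Prime ∧ P < p ∧ p ≤ 2 * P) →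
  (((Icc (-(T : ℤ)) T).filter (fun m : ℤ => γ * P ≤ ‖∑ p ∈ S, lp m p‖)).card : ℝ) * (γ * P) ^ (2 * k) ≤
    200 * (1 + k * Real.log (2 * P)) * ((T : ℝ) + (2 * P) ^ k) * (k.factorial * (P : ℝ) ^ k)

/-- Module Dpw (theorem tDpw; pointwise bound for the smooth variable). Uses: UI.SZk, UI.SZp, UI.SZq
(theorem tDpw (h1 : Pool.Agent.Lib.UI.SZk) (h2 : Pool.Agent.Lib.UI.SZp) (h3 : Pool.Agent.Lib.UI.SZq) : DpwStmt).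
Proof. Let C1, σ1 be the constants of SZp for R + 1, σ = σ1, t = |m|/4. wt ρ Z v = ∑_{l ≤ Z, l | v} ρ l; put v = l k: the sum is ∑_{l ≤ Z} ρ l lp m l ∑_k lp m k over the k with V ≤ l k < 2V and l k ≡ κ mod q, i.e. k ≡ b mod q for some b (l coprime to q when ρ l ≠ 0). The k are in Ioc K K2 with
K = ⌈V/l⌉ - 1, K2 = ⌈2V/l⌉ - 1 ≤ 2K + 1; drop the last term if K2 = 2K + 1 (norm 1). M = K/q ≥ (V/l - 1)/q ≥ K0/2 (V/(l q) ≥ K0 ≥ 2). SZq (the phase is ee(∓ t log k), conjugate if m > 0, conj_ee): the sum is Sx (lg t c) a' b'. If t ≤ M/2: SZk: ≤ 6 M/t = 24 M/|m|. If t > M/2 and M ≥ 16: t ≥ M^(3/4), and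
t ≤ K0^R ≤ (2M)^R ≤ M^(R+1) for M ≥ 2^R: SZp: ≤ C1 M^(1-σ) ≤ C1 (V/l) (K0/2)^(-σ)·1 (M ≤ V/l). For M < max(16, 2^R): trivial bound K + 1 ≤ 2V/l ≤ C K0^(-σ) V/l with C = 2 max(32, 2^(R+1)). The extra terms 1 ≤ (V/l) K0^(-σ). Sum over l: ∑_{l ≤ Z} 1/l ≤ 1 + log Z. -/
def DpwStmt : Prop := ∀ R : ℕ, ∃ C σ : ℝ, 0 < C ∧ 0 < σ ∧ σ ≤ 1 ∧ ∀ (V Z q κ : ℕ) (m : ℤ) (ρ : ℕ → ℝ) (K0 : ℝ), 2 ≤ K0 → 1 ≤ Z → 1 ≤ q →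
  K0 * q * Z ≤ V → m ≠ 0 → |(m : ℝ)| ≤ K0 ^ R → (∀ l, |ρ l| ≤ 1) → (∀ l, ρ l ≠ 0 → l.Coprime q) →
  ‖∑ v ∈ Ico V (2 * V), (if v % q = κ then ((wt ρ Z v : ℝ) : ℂ) else 0) * lp m v‖ ≤
    C * (1 + Real.log Z) * V * (1 / |(m : ℝ)| + K0 ^ (-σ))

/-- Module Dty (theorem tDty; the typical m). Uses: Dmv, Dfa.
Proof. By Dfa (1) ‖GD‖² = ‖P(m)‖² ‖C(m) W(m)‖² ≤ (γ P)² ‖C W‖², and C(m) W(m) = ∑_{e ≤ 4DV} b e lp m e; extend to all |m| ≤ T1 and use Dmv with N = 4 D V and Dfa (3). -/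
def DtyStmt : Prop := ∀ (D P V T1 : ℕ) (S : Finset ℕ) (c w : ℕ → ℂ) (γ : ℝ), 1 ≤ D → 1 ≤ P → 1 ≤ V → 1 ≤ T1 → 0 ≤ γ → (∀ p ∈ S, P < p ∧ p ≤ 2 * P) →
  (∀ d, ‖c d‖ ≤ 1) → (∀ v, ‖w v‖ ≤ (v.divisors.card : ℝ)) →
  ∑ m ∈ (Icc (-(T1 : ℤ)) T1).filter (fun m : ℤ => ‖∑ p ∈ S, lp m p‖ < γ * P), ‖GD (8 * (D * P * V)) (gg D V S c w) m‖ ^ 2 ≤
    (γ * P) ^ 2 * (200 * (1 + Real.log (4 * (D * V : ℕ))) * ((T1 : ℝ) + 4 * (D * V : ℕ)) *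
      (4 * (D * V : ℕ) * (1 + Real.log (4 * (D * V : ℕ))) ^ 16))

/-- Module Dmn (theorem tDmn; THE RESULT OF CHAPTER D). Uses: Dfa, Dex, Dpw, Dty.
Proof. L = log x, R = ⌈8/ε⌉₊, C, σ from Dpw (σ ≤ 1), α = ε σ/48, B0 = max(β, (A + 30)/(2 α), 32/(ε σ)), τ0 = A + 8, K0 = x^(ε/4) (K0 q Z ≤ x^(ε/2) Z ≤ V as q ≤ L^β ≤ x^(ε/4)), γ = P^(-α). l with ρ l ≠ 0 is coprime to q ≤ L^β (its primes are larger). |wt| ≤ τ. X = D P V.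
(1) typical m (‖P(m)‖ < γ P): Dty, T1 ≤ D V, log (4DV) ≤ 2L: ≤ P^(2-2α) 200 (3L)(5 DV)(4 DV)(3L)^16 ≤ X² L^(-2 α B0 + 20) C ≤ X² L^(-A-1)/2 (P^(-2α) ≤ L^(-2αB0)).
(2) exceptional m, number E: Dex with T = T1, k = ⌈log T1/log P⌉₊ (at least 1; if T1 < P take k = 1): T1 ≤ P^k ≤ T1 P + P ≤ x^(6/5) (T1 ≤ DV ≤ 4x/P, P ≤ x^(1/10)), so E ≤ 200 (1 + k log 2P) 2 (2P)^k k! P^k P^(-2k(1-α)) = 400 (1 + k log 2P) 2^k k! P^(2kα) ≤ L^3 (2k)^k x^(3α), and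
k ≤ 1 + (6/5) L/log P ≤ 1 + 2L/(B0 log L) ≤ L/2, (2k)^k ≤ L^k ≤ L x^(2/B0): E ≤ x^(3α + 2/B0) L^4 ≤ x^(εσ/8) L^4 (3α = εσ/16, 2/B0 ≤ εσ/16). |C(m)| ≤ D, |P(m)| ≤ P, and Dpw (|m| ≤ T1 ≤ x ≤ K0^R): ‖GD‖² ≤ X² C² (1 + L)² 2 (1/m² + x^(-εσ/2)); sum over the exceptional m with |m| > L^τ0:
∑_{|m| > L^τ0} 1/m² ≤ 4 L^(-τ0): total ≤ X² C' L² (L^(-τ0) + x^(εσ/8 - εσ/2) L^4) ≤ X² L^(-A-1)/2. -/
def DmnStmt : Prop := ∀ ε A β : ℝ, 0 < ε → ε ≤ 1 / 10 → 0 < A → 1 ≤ β → ∃ B0 τ0 x0 : ℝ, 1 ≤ B0 ∧ β ≤ B0 ∧ 1 ≤ τ0 ∧ 3 ≤ x0 ∧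
  ∀ (x : ℝ) (D P V Z T1 q κ : ℕ) (S : Finset ℕ) (c : ℕ → ℂ) (ρ : ℕ → ℝ), x0 ≤ x → 1 ≤ D → 1 ≤ Z → 1 ≤ T1 →
    (D : ℝ) * P * V ≤ 4 * x → x ^ (ε / 2) * Z ≤ V → (Real.log x) ^ B0 ≤ P → (P : ℝ) ≤ x ^ ((1 : ℝ) / 10) → (T1 : ℝ) ≤ (D : ℝ) * V →
    1 ≤ q → (q : ℝ) ≤ (Real.log x) ^ β →
    (∀ p ∈ S, p.Prime ∧ P < p ∧ p ≤ 2 * P) → (∀ d, ‖c d‖ ≤ 1) → (∀ l, |ρ l| ≤ 1) →
    (∀ l, ρ l ≠ 0 → ∀ p : ℕ, p.Prime → p ∣ l → (Real.log x) ^ β < p) →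
    ∑ m ∈ (Icc (-(T1 : ℤ)) T1).filter (fun m : ℤ => (Real.log x) ^ τ0 < |(m : ℝ)|),
      ‖GD (8 * (D * P * V)) (gg D V S c (fun v => if v % q = κ then ((wt ρ Z v : ℝ) : ℂ) else 0)) m‖ ^ 2 ≤
      ((D : ℝ) * P * V) ^ 2 * (Real.log x) ^ (-A)

end Pool.Agent.Lib.TR
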