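import Pool.Agent.Lib.TR.Defs

/-!
MP_00e23e_nt, directory Lib/TR, chapter M: the minor arcs. Everything is finite and explicit. Rules: see Defs.lean.
-/

set_option autoImplicit false

namespace Pool.Agent.Lib.TR

open Finset Pool.Agent.Lib.EH3 Pool.Agent.Results.MP_00e23e_nt

/-- Module Mct (theorem tMct; counting the representations n = a + p e). Uses: nothing.
Proof. For fixed p and n the pairs (a, e) with a ∈ J, a + p e = n are given by the a ∈ J with a ≡ n mod p, at most len/p + 1 (an interval of len integers contains at most len/p + 1 elements of a class mod p, here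
real division; Int.Ico_filter_modEq_card or induction). Σ over n: ∑_{a,e} G (a + p e) ≤ ∑_n G n #{..}; G ≥ 0 vanishes outside [-K, K]. -/
def MctStmt : Prop := ∀ (G : ℤ → ℝ) (K E p len : ℕ) (A0 : ℤ), 1 ≤ p → (∀ n, 0 ≤ G n) → (∀ n : ℤ, (K : ℤ) < |n| → G n = 0) →
  ∑ a ∈ Ico A0 (A0 + len), ∑ e ∈ Icc (-(E : ℤ)) E, G (a + p * e) ≤ ((len : ℝ) / p + 1) * ∑ n ∈ Icc (-(K : ℤ)) K, G n

/-- Module Msh (theorem tMsh; the shift, one pair p, p'). Uses: Mct.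
Proof. Write Σ_e for the sum over all integers e: the hypothesis on E says that all non-zero terms F(a + p e) with a within H + 2 P L0 of A0 have |e| + L0 ≤ E, so that sums over e ∈ Icc (-E) E of functions of e and e + t (0 ≤ t < L0) are sums over ℤ.
Fix t < L0. Substituting e = e' + t: ∑_{a ∈ I} ∑_e F(a + p e) conj F(a + p' e) = ∑_{a ∈ I} ∑_e F(a + p t + p e) conj F(a + p t + p' e + (p' - p) t) = ∑_{a' ∈ I + p t} ∑_e F(a' + p e) conj F(a' + p' e + (p'-p) t).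
Replace I + p t by I: the symmetric difference is contained in the union of Ico A0 (A0 + 2 P L0) and Ico (A0 + H) (A0 + H + 2 P L0) (0 ≤ p t ≤ 2 P L0), and by |z w| ≤ (|z|² + |w|²)/2 and Mct (len = 2 P L0, p, p' > P; for the second factor G is the translate by (p'-p) t, K + 2 P L0) the difference is ≤
2 (2 L0 + 1) sq F ≤ 6 L0 sq F. Average over t < L0: (1/L0) ∑_t conj F(n + (p'-p) t) = conj (Aw L0 (p'-p) F n). -/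
def MshStmt : Prop := ∀ (F : ℤ → ℂ) (K E H P L0 p p' : ℕ) (A0 : ℤ), 1 ≤ P → 1 ≤ L0 → P < p → p ≤ 2 * P → P < p' → p' ≤ 2 * P →
  (∀ n : ℤ, (K : ℤ) < |n| → F n = 0) → (K : ℤ) + |A0| + H + 2 * P * L0 + L0 + 2 ≤ E →
  ‖∑ a ∈ Ico A0 (A0 + H), ∑ e ∈ Icc (-(E : ℤ)) E, F (a + p * e) * (starRingEnd ℂ) (F (a + p' * e)) -
    ∑ a ∈ Ico A0 (A0 + H), ∑ e ∈ Icc (-(E : ℤ)) E,
      F (a + p * e) * (starRingEnd ℂ) (Aw L0 ((p' : ℤ) - p) F (a + p' * e))‖ ≤ 10 * L0 * sq K F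

/-- Module Mcs (theorem tMcs; Cauchy-Schwarz). Uses: Mct, Msh.
Proof. Enlarge E (the left side increases) so that the hypothesis of Msh holds. Open the square: T = ∑_{p,p' ∈ S} ∑_{a,e} F(a+pe) conj F(a+p'e). By Msh, T ≤ |∑_{p,p'} ∑_{a,e} F(a+pe) conj Aw(p'-p) F (a+p'e)| + |S|² 10 L0 sq F, |S| ≤ P. Cauchy-Schwarz over
all (p, p', a, e): first factor² ≤ |S| ∑_p (H/p + 1) sq F ≤ 2 H P sq F (Mct; P ≤ H, p > P: H/p + 1 ≤ 2H/P; |S| ≤ P). Second factor² = ∑_{p'} ∑_p ∑_{a,e} |Aw(p'-p) F(a+p'e)|² ≤ (2H/P) ∑_{p'} ∑_p sq' (Aw (p'-p) F) ≤ 2 H ∑_{|w|<P} sq' (Aw w F) (for fixed p' the w = p'-p are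
different, |w| < P; Aw w F vanishes outside [-K', K'], K' = K + P L0). -/
def McsStmt : Prop := ∀ (F : ℤ → ℂ) (K E H P L0 : ℕ) (S : Finset ℕ) (A0 : ℤ), 1 ≤ P → P ≤ H → 1 ≤ L0 → (∀ p ∈ S, P < p ∧ p ≤ 2 * P) →
  (∀ n : ℤ, (K : ℤ) < |n| → F n = 0) →
  ∑ a ∈ Ico A0 (A0 + H), ∑ e ∈ Icc (-(E : ℤ)) E, ‖∑ p ∈ S, F (a + p * e)‖ ^ 2 ≤
    2 * H * Real.sqrt P * (Real.sqrt (sq K F) * Real.sqrt (∑ w ∈ Ioo (-(P : ℤ)) P, sq (K + P * L0) (Aw L0 w F))) +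
      10 * (P : ℝ) ^ 2 * L0 * sq K F

/-- Module Mfo (theorem tMfo; Parseval). Uses: nothing.
Proof. Let F = f - Ch Q h f; F n = 0 for |n| > K1 = K + h; Aw w F is 0 outside [-K1 - P L0, K1 + P L0]. M = a natural number > 2 (K + h + P L0 + K') + 1. Orthogonality (EH3.orth): for G supported in [-(M-1)/2, (M-1)/2]: ∑ |G n|² = (1/M) ∑_{k<M} |Ĝ(k/M)|², Ĝ(α) = ∑_n G n ee(n α).
For G = Aw w F: Ĝ(α) = F̂(α) (1/L0) ∑_t ee(-w t α), of absolute value |F̂(α)| |KK L0 (w α)| (conjugate). F̂(α) = f̂(α) (1 - (1/h) ∑_{j<h} Rq j ee(-j α)) = f̂(α) (1 - mm Q h α) (Rq j ee(-jα) = ∑_q redc ee(j (t - α))). So ∑_w sq' (Aw w F) ≤ (1/M) ∑_k |f̂(k/M)|² |1 - mm|² ∑_w |KK|² ≤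
S0 (1/M) ∑_k |f̂|² = S0 sq K f. Second part: the same without Aw: sq (K+h) F ≤ B² sq K f. -/
def MfoStmt : Prop := ∀ (f : ℤ → ℂ) (K K' Q h L0 P : ℕ) (S0 B : ℝ), 1 ≤ h → 1 ≤ L0 → 0 ≤ S0 → 0 ≤ B →
  (∀ n : ℤ, (K : ℤ) < |n| → f n = 0) →
  ((∀ α : ℝ, ‖1 - mm Q h α‖ ^ 2 * ∑ w ∈ Ioo (-(P : ℤ)) P, ‖KK L0 ((w : ℝ) * α)‖ ^ 2 ≤ S0) →
    ∑ w ∈ Ioo (-(P : ℤ)) P, sq K' (Aw L0 w (fun n => f n - Ch Q h f n)) ≤ S0 * sq K f) ∧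
  ((∀ α : ℝ, ‖1 - mm Q h α‖ ≤ B) → sq K' (fun n => f n - Ch Q h f n) ≤ B ^ 2 * sq K f)

/-- Module Mkl (theorem tMkl; the sum over w, large denominators). Uses: nothing.
Proof. |KK L0 β| ≤ min(1, 1/(2 L0 ‖β‖)) (EH3.norm_GG_le, norm_GG_mul_le; KK = GG/L0). Cut (-P, P) into at most 2P/q + 1 blocks of q consecutive integers w = w0 + s, 0 ≤ s < q. w α = w0 α + s r/q + s (α - r/q), |s (α - r/q)| ≤ q/(2 P q) = 1/(2P) ≤ 1/q (q ≤ 2P). The residues s r mod q are all different, so for every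
i ≥ 0 the number of s with i/q ≤ ‖w α‖ < (i+1)/q is at most 12 (the points s r/q mod 1 in two intervals of length 3/q). So a block is ≤ 12 ∑_{i ≥ 0} min(1, q/(2 i L0))² ≤ 12 (1 + 1 + q/L0 + ...) ≤ 50 (1 + q/L0): the i ≤ q/L0 are at most 1 + q/L0, the others give
≤ (q/(2L0))² ∑_{i > q/L0} 1/i² ≤ 1 + q/L0. Total ≤ (2P/q + 1) 50 (1 + q/L0). -/
def MklStmt : Prop := ∀ (P L0 q : ℕ) (r : ℤ) (α : ℝ), 1 ≤ P → 1 ≤ L0 → 1 ≤ q → q ≤ 2 * P → IsCoprime r (q : ℤ) →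
  |α - (r : ℝ) / q| ≤ 1 / (2 * P * q) →
  ∑ w ∈ Ioo (-(P : ℤ)) P, ‖KK L0 ((w : ℝ) * α)‖ ^ 2 ≤ 100 * (((P : ℝ) / q + 1) * (1 + (q : ℝ) / L0))

/-- Module Mks (theorem tMks; the sum over w, away from the centre of a major arc). Uses: nothing.
Proof. β = α - r/q, δ < |β| ≤ 1/(2 P q). For q ∤ w, |w| < P: w α = w r/q + w β, w r/q is at distance ≥ 1/q from the integers, |w β| ≤ 1/(2q): ‖w α‖ ≥ 1/(2q), |KK| ≤ q/L0 (norm_GG_mul_le): at most 2P terms: 2P (q/L0)². For w = q k: w α ≡ q k β mod 1, |q k β| ≤ P/(2 P q) ≤ 1/2, so ‖w α‖ = q |k| |β| ≥ |k| δ: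
|KK|² ≤ min(1, 1/(2 L0 k δ)²): k = 0: 1; the k with 1 ≤ |k| ≤ 1/(L0 δ): at most 2/(L0 δ); the others ≤ 2 (1/(2 L0 δ))² ∑_{k > 1/(L0 δ)} 1/k² ≤ 1 + 1/(L0 δ). -/
def MksStmt : Prop := ∀ (P L0 q : ℕ) (r : ℤ) (α δ : ℝ), 1 ≤ P → 1 ≤ L0 → 1 ≤ q → IsCoprime r (q : ℤ) → 0 < δ →
  |α - (r : ℝ) / q| ≤ 1 / (2 * P * q) → δ < |α - (r : ℝ) / q| →
  ∑ w ∈ Ioo (-(P : ℤ)) P, ‖KK L0 ((w : ℝ) * α)‖ ^ 2 ≤ 2 * P * ((q : ℝ) / L0) ^ 2 + 10 * (1 + 1 / ((L0 : ℝ) * δ))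

/-- Module Mmm (theorem tMmm; the multiplier). Uses: nothing.
Proof. mm Q h α is the sum over the reduced fractions t = b/q ∈ [0,1), q ≤ Q, of KK h (t - α). Two different t, t' satisfy ‖t - t'‖ ≥ 1/(q q') ≥ 1/Q² (distance mod 1); there are at most Q² of them. (1) α with |α - r/q| ≤ 1/(2Q²), q ≤ Q, r coprime to q: t0 = (r mod q)/q is one of the fractions, t0 - α ≡ r/q - α mod 1 (integer
shifts do not change ee(j ·)), |KK h β - 1| ≤ (1/h) ∑_j |ee(jβ) - 1| ≤ 2π h |β| ≤ 7 h |β|; the other t have ‖t - α‖ ≥ 1/Q² - 1/(2Q²) = 1/(2Q²), |KK h| ≤ 1/(2 h ‖t - α‖) ≤ Q²/h, total Q^4/h. (2) any α: at most one t with ‖t - α‖ < 1/(2Q²), |KK| ≤ 1; the others ≤ Q^4/h ≤ 1/4. -/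
def MmmStmt : Prop :=
  (∀ (Q h q : ℕ) (r : ℤ) (α : ℝ), 1 ≤ h → 1 ≤ q → q ≤ Q → IsCoprime r (q : ℤ) → |α - (r : ℝ) / q| ≤ 1 / (2 * (Q : ℝ) ^ 2) →
    ‖1 - mm Q h α‖ ≤ 7 * h * |α - (r : ℝ) / q| + (Q : ℝ) ^ 4 / h) ∧
  (∀ (Q h : ℕ) (α : ℝ), 1 ≤ Q → 4 * Q ^ 4 ≤ h → ‖1 - mm Q h α‖ ≤ 3)

/-- Module Msu (theorem tMsu; the supremum). Uses: Mkl, Mks, Mmm.
Proof. Dirichlet (Real.exists_int_int_abs_mul_sub_le or exists_rat.. with n = 2P): r/q in lowest terms, 1 ≤ q ≤ 2P, |α - r/q| ≤ 1/((2P+1) q) ≤ 1/(2 P q). (i) q > Q: Mkl and Mmm (2): ≤ 9·100 (P/q + 1)(1 + q/L0) ≤ 900 (P/Q + P/L0 + 1 + q/L0), q ≤ 2P. (ii) q ≤ Q, |α - r/q| > δ: Mks, ≤ 9 (2 P (Q/L0)² + 10 (1 + 1/(L0 δ))).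
(iii) q ≤ Q, |α - r/q| ≤ δ ≤ 1/(2Q²): Mmm (1), the number of w is ≤ 2P, |KK| ≤ 1: ≤ 2P (7 h δ + Q^4/h)². -/
def MsuStmt : Prop := ∀ (P L0 Q h : ℕ) (δ α : ℝ), 1 ≤ P → 1 ≤ L0 → 1 ≤ Q → 4 * Q ^ 4 ≤ h → 0 < δ → δ ≤ 1 / (2 * (Q : ℝ) ^ 2) →
  ‖1 - mm Q h α‖ ^ 2 * ∑ w ∈ Ioo (-(P : ℤ)) P, ‖KK L0 ((w : ℝ) * α)‖ ^ 2 ≤
    3000 * ((P : ℝ) / Q + P / L0 + 1 + P * ((Q : ℝ) / L0) ^ 2 + 1 / (L0 * δ)) + 2 * P * (7 * h * δ + (Q : ℝ) ^ 4 / h) ^ 2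

end Pool.Agent.Lib.TR
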