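import Pool.Agent.Lib.TR.Stm
import Pool.Agent.Lib.TR.SpecM
import Pool.Agent.Lib.TR.SpecD

/-!
MP_00e23e_nt, directory Lib/TR, chapter K (helper10): KeyStmt from VarStmt and the modules of chapter M. Rules: see Defs.lean
(first line of a module: `import Pool.Agent.Lib.TR.SpecK`). f = (f - Ch h f) + (Ch h f - Ch h0 f) + Ch h0 f: first part Kma (minor arcs,
Cauchy-Schwarz over (a, e), e = d v), second part Kmb (duality, chapter V), third part Kmc with Klg. L = log x, exponents β = kb A,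
C1 = kc A, b = kh A; Par collects the sizes of all parameters, Kna, Knb, Knc, Knd are the inequalities.
-/

set_option autoImplicit false

namespace Pool.Agent.Lib.TR

open Finset Pool.Agent.Lib.EH3 Pool.Agent.Results.MP_00e23e_nt

/-! ### Third part -/

/-- Module Klg (theorem tKlg; long averages). Uses: nothing.
Proof. c_q(j) := redc q (t ↦ ee (j t)): a sum of at most q numbers of absolute value 1, so |c_q(j)| ≤ q, and it depends only on j mod q (j t changes by an integer, ee_add, ee_int). Ch Q h f n = (1/h) ∑_{q ≤ Q} ∑_{j<h} c_q(j) f(n+j) and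
∑_{j<h} c_q(j) f(n+j) = ∑_{b<q} c_q(b) ∑_{j<h, j ≡ b mod q} f(n+j), the inner sum is the sum of f over the m ∈ Ico n (n+h) with q ∣ m - (n+b), of absolute value ≤ T. So each q gives ≤ q·q·T ≤ Q² T. -/
def KlgStmt : Prop := ∀ (f : ℤ → ℂ) (Q h : ℕ) (T : ℝ), 1 ≤ h → 0 ≤ T →
  (∀ (q : ℕ) (b u v : ℤ), 1 ≤ q → q ≤ Q → ‖∑ n ∈ (Ico u v).filter (fun n => (q : ℤ) ∣ n - b), f n‖ ≤ T) →
  ∀ n : ℤ, ‖Ch Q h f n‖ ≤ (Q : ℝ) ^ 3 * T / h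

/-- Module Kmc (theorem tKmc; trivial bound of KS). Uses: CO.TauStmt (import also Pool.Agent.Lib.CO.Tau, theorem tTau; drop the hypothesis if you like).
Proof. Triangle inequality: ≤ (number of a = H) (number of d = D) |S| M ∑_{v ∈ Ico V 2V} τ(v); |S| ≤ P (S ⊆ Ioc P 2P), ∑_{v ∈ Ico V 2V} τ(v) ≤ ∑_{v ∈ Icc 1 2V} τ(v) ≤ 2V (1 + log 2V)² (Tau with j = 1, X = 2V). -/
def KmcStmt : Prop := ∀ (A0 : ℤ) (H D P V : ℕ) (S : Finset ℕ) (c : ℤ → ℕ → ℂ) (w : ℕ → ℂ) (F : ℤ → ℂ) (M : ℝ), 1 ≤ D → 1 ≤ P →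
  1 ≤ V → 0 ≤ M → (∀ p ∈ S, P < p ∧ p ≤ 2 * P) → (∀ a d, ‖c a d‖ ≤ 1) → (∀ v, 1 ≤ v → ‖w v‖ ≤ (v.divisors.card : ℝ)) →
  (∀ n, ‖F n‖ ≤ M) →
  ‖KS A0 H D V S c w F‖ ≤ (H : ℝ) * (2 * ((D : ℝ) * P * V) * (1 + Real.log (2 * V)) ^ 2 * M)

/-! ### Second part: duality -/

/-- Module Kdu (theorem tKdu; duality for one a). Uses: nothing.
Proof. Rq Q j = ∑_{q ≤ Q} redc q (t ↦ ee (j t)). Fix one fraction t. ∑_m g m (1/h) ∑_{j<h} ee(j t) f(a+m+j), with n = m + j (g vanishes outside [1, X'], so n runs over [1, X' + h + h0]; extend the sum over m to all integers), is ∑_n f(a+n) ee(n t) (1/h) ∑_{j<h} g(n-j) ee(-(n-j) t)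
(ee(j t) = ee(n t) ee(-(n-j) t)). The same with h0; the difference is ∑_{n ∈ Icc 1 (X'+h+h0)} f(a+n) ee(n t) kg h h0 (m ↦ g m ee(-(m t))) n. Cauchy-Schwarz, |ee| = 1, ∑_n |f(a+n)|² ≤ sq K f. Sum over the fractions (redc, red). -/
def KduStmt : Prop := ∀ (f g : ℤ → ℂ) (K X' Q h h0 : ℕ) (a : ℤ), 1 ≤ h → 1 ≤ h0 → (∀ n : ℤ, (K : ℤ) < |n| → f n = 0) →
  (∀ m : ℤ, (m < 1 ∨ (X' : ℤ) < m) → g m = 0) →
  ‖∑ m ∈ Icc (1 : ℤ) X', g m * (Ch Q h f (a + m) - Ch Q h0 f (a + m))‖ ≤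
    Real.sqrt (sq K f) * ∑ q ∈ Icc 1 Q, Pool.Agent.Lib.UI.red q (fun t =>
      Real.sqrt (∑ n ∈ Icc (1 : ℤ) ((X' + h + h0 : ℕ) : ℤ), ‖kg h h0 (fun m => g m * ee (-((m : ℝ) * t))) n‖ ^ 2))

/-- Module Kcl (theorem tKcl; splitting into classes modulo q). Uses: nothing.
Proof. For κ = (κ1, κ2, κ3) let g_κ = gg D V (S.filter (p ≡ κ2)) (c on d ≡ κ1) (w on v ≡ κ3). Then gg D V S c w m · ee(-(m r/q)) = ∑_κ ee(-(κ1 κ2 κ3 r/q)) g_κ m for every integer m: each triple (d, p, v) with d p v = m belongs to exactly one κ, and m ≡ κ1 κ2 κ3 mod q, so m r/q - κ1 κ2 κ3 r/q is an integer. kg is linear in g.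
‖∑ over q³ terms‖² ≤ q³ ∑ ‖..‖² (inner_mul_le_norm_mul_norm or sq_sum_le_card_mul_sum_sq for the norms); sum over n: ≤ q³ · q³ B. -/
def KclStmt : Prop := ∀ (D V h h0 q N' r : ℕ) (S : Finset ℕ) (c w : ℕ → ℂ) (B : ℝ), 1 ≤ q → 0 ≤ B →
  (∀ κ1 κ2 κ3 : ℕ, κ1 < q → κ2 < q → κ3 < q →
    ∑ n ∈ Icc (1 : ℤ) N', ‖kg h h0 (gg D V (S.filter (fun p => p % q = κ2)) (fun d => if d % q = κ1 then c d else 0)
      (fun v => if v % q = κ3 then w v else 0)) n‖ ^ 2 ≤ B) →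
  ∑ n ∈ Icc (1 : ℤ) N', ‖kg h h0 (fun m => gg D V S c w m * ee (-((m : ℝ) * ((r : ℝ) / (q : ℝ))))) n‖ ^ 2 ≤ (q : ℝ) ^ 6 * B

/-- Module Kmb (theorem tKmb; the second part). Uses: KduStmt, KclStmt.
Proof. For each a, with g = gg D V S (c a) w, supported on [1, 8DPV] (D, P, V ≥ 1): ∑_{d,p,v} c a d w v G(a + d p v) = ∑_{m ∈ Icc 1 (8DPV)} g m G(a+m), G = Ch Q h f - Ch Q h0 f. Kdu with X' = 8DPV. For q ≤ Q and t = r/q (the argument of red is (r : ℝ)/(q : ℝ), r < q): Kcl: Real.sqrt (..) ≤ Real.sqrt (q^6 B) = q³ sqrt B.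
red q ≤ q · q³ sqrt B (at most q fractions), ∑_{q ≤ Q} q⁴ ≤ Q · Q⁴. Sum over the H values a. -/
def KmbStmt : Prop := ∀ (A0 : ℤ) (H D P V K Q h h0 : ℕ) (S : Finset ℕ) (c : ℤ → ℕ → ℂ) (w : ℕ → ℂ) (f : ℤ → ℂ) (B : ℝ), 1 ≤ D →
  1 ≤ P → 1 ≤ V → 1 ≤ h → 1 ≤ h0 → 0 ≤ B → (∀ p ∈ S, P < p ∧ p ≤ 2 * P) → (∀ n : ℤ, (K : ℤ) < |n| → f n = 0) →
  (∀ (a : ℤ) (q κ1 κ2 κ3 N' : ℕ), 1 ≤ q → q ≤ Q → κ1 < q → κ2 < q → κ3 < q →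
    ∑ n ∈ Icc (1 : ℤ) N', ‖kg h h0 (gg D V (S.filter (fun p => p % q = κ2)) (fun d => if d % q = κ1 then c a d else 0)
      (fun v => if v % q = κ3 then w v else 0)) n‖ ^ 2 ≤ B) →
  ‖KS A0 H D V S c w (fun n => Ch Q h f n - Ch Q h0 f n)‖ ≤ (H : ℝ) * (Real.sqrt (sq K f) * ((Q : ℝ) ^ 5 * Real.sqrt B))

/-! ### First part: minor arcs -/

/-- Module Kca (theorem tKca; Cauchy-Schwarz over (a, e), e = d v). Uses: DfaStmt (SpecD.lean).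
Proof. b a e = ∑_{d ∈ Ioc D 2D} ∑_{v ∈ Ico V 2V} (if d v = e then c a d w v else 0). As a + d p v = a + p (d v) and 1 ≤ d v ≤ 4DV: KS = ∑_a ∑_{e ∈ Icc 1 (4DV)} b a e ∑_{p ∈ S} F(a + p e). Cauchy-Schwarz: ‖KS‖² ≤ (∑_a ∑_e ‖b a e‖²) (∑_a ∑_{e ∈ Icc 1 (4DV)} ‖∑_p F(a+pe)‖²), the second factor is at most
the sum in the claim. First factor: Dfa (third claim) for c a and w' v = if v = 0 then 0 else w v (the sums over v ≥ V ≥ 1 do not change; τ(0) = 0 in Lean): for each a ≤ 4DV (1 + log 4DV)^16. -/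
def KcaStmt : Prop := ∀ (A0 : ℤ) (H D P V : ℕ) (S : Finset ℕ) (c : ℤ → ℕ → ℂ) (w : ℕ → ℂ) (F : ℤ → ℂ), 1 ≤ D → 1 ≤ P → 1 ≤ V →
  (∀ p ∈ S, P < p ∧ p ≤ 2 * P) → (∀ a d, ‖c a d‖ ≤ 1) → (∀ v, 1 ≤ v → ‖w v‖ ≤ (v.divisors.card : ℝ)) →
  ‖KS A0 H D V S c w F‖ ^ 2 ≤ (H : ℝ) * (4 * ((D : ℝ) * V) * (1 + Real.log (4 * ((D : ℝ) * V))) ^ 16) *
    ∑ a ∈ Ico A0 (A0 + H), ∑ e ∈ Icc (-((4 * (D * V) : ℕ) : ℤ)) ((4 * (D * V) : ℕ) : ℤ), ‖∑ p ∈ S, F (a + p * e)‖ ^ 2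

/-- Module Kma (theorem tKma; the first part). Uses: KcaStmt, McsStmt, MfoStmt, MmmStmt.
Proof. F n = f n - Ch Q h f n vanishes for |n| > K + h (Ch uses f(n+j), 0 ≤ j < h). Kca, then Mcs with K + h in place of K, E = 4DV. Mfo, second part, with B = 3 (Mmm, second part; 4Q⁴ ≤ h): sq (K+h) F ≤ 9 sq K f. Mfo, first part, K' = (K+h) + P L0: ∑_w sq K' (Aw L0 w F) ≤ S0 sq K f.
sqrt(9 sq K f) sqrt(S0 sq K f) = 3 sqrt S0 · sq K f. So the sum over a, e is ≤ (2H sqrt P · 3 sqrt S0 + 10 P² L0 · 9) sq K f. -/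
def KmaStmt : Prop := ∀ (A0 : ℤ) (H D P V K Q h L0 : ℕ) (S : Finset ℕ) (c : ℤ → ℕ → ℂ) (w : ℕ → ℂ) (f : ℤ → ℂ) (S0 : ℝ), 1 ≤ D →
  1 ≤ P → 1 ≤ V → P ≤ H → 1 ≤ L0 → 1 ≤ Q → 4 * Q ^ 4 ≤ h → 0 ≤ S0 →
  (∀ p ∈ S, P < p ∧ p ≤ 2 * P) → (∀ a d, ‖c a d‖ ≤ 1) → (∀ v, 1 ≤ v → ‖w v‖ ≤ (v.divisors.card : ℝ)) →
  (∀ n : ℤ, (K : ℤ) < |n| → f n = 0) →
  (∀ α : ℝ, ‖1 - mm Q h α‖ ^ 2 * ∑ w ∈ Ioo (-(P : ℤ)) P, ‖KK L0 ((w : ℝ) * α)‖ ^ 2 ≤ S0) →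
  ‖KS A0 H D V S c w (fun n => f n - Ch Q h f n)‖ ^ 2 ≤
    (H : ℝ) * (4 * ((D : ℝ) * V) * (1 + Real.log (4 * ((D : ℝ) * V))) ^ 16) *
      ((6 * H * Real.sqrt P * Real.sqrt S0 + 90 * (P : ℝ) ^ 2 * L0) * sq K f)

/-! ### Parameters -/

/-- the exponent of Q: L^β -/
noncomputable def kb (A : ℝ) : ℝ := 4 * A + 63

/-- the exponent C1: L0 = H/(P L^C1) -/
noncomputable def kc (A : ℝ) : ℝ := 2 * A + 30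

/-- the exponent b: h = H/L^b, b = C1 + 2 β + 2 -/
noncomputable def kh (A : ℝ) : ℝ := 10 * A + 158

/-- the exponent of the lower bound of H/P -/
noncomputable def k1 (A B : ℝ) : ℝ := 34 * A + 546 + B

/-- the sizes of all parameters, L = log x -/
structure Par (A B0 B b0 x : ℝ) (D P V H Q h h0 L0 : ℕ) (δ : ℝ) : Prop where
  pA : 0 < A
  pB0 : 2 * kb A + 2 ≤ B0
  pB : 1 ≤ B
  px : 3 ≤ x
  pL : 10 ^ 6 ≤ Real.log x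
  pD : 1 ≤ D
  pP : 1 ≤ P
  pV : 1 ≤ V
  pX : (D : ℝ) * P * V ≤ 4 * x
  pP0 : (Real.log x) ^ B0 ≤ P
  pH : P * (Real.log x) ^ (k1 A B) ≤ H
  pH1 : (H : ℝ) ≤ x ^ ((1 : ℝ) / 10)
  pQ : 1 ≤ Q
  pQ1 : (Q : ℝ) ≤ (Real.log x) ^ (kb A)
  pQ2 : (Real.log x) ^ (kb A) ≤ 2 * Q
  ph : 1 ≤ h
  ph1 : H * (Real.log x) ^ (-(kh A)) ≤ h
  ph2 : (h : ℝ) ≤ 2 * (H * (Real.log x) ^ (-(kh A)))
  pg : 1 ≤ h0
  pg1 : (h0 : ℝ) ≤ (D : ℝ) * P * V * (Real.log x) ^ (-b0)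
  pg2 : (D : ℝ) * P * V * (Real.log x) ^ (-b0) ≤ 2 * h0
  pl : 1 ≤ L0
  pl1 : (L0 : ℝ) ≤ H / (P * (Real.log x) ^ (kc A))
  pl2 : H / (P * (Real.log x) ^ (kc A)) ≤ 2 * L0
  pδ : δ = (Real.log x) ^ (kc A + kb A) / H

/-- Module Kpa (theorem tKpa; existence of the parameters). Uses: nothing.
Proof. x0 such that for x ≥ x0: x ≥ 3, L = log x ≥ 10^6 and x L^(-(A+5)-b0) ≥ 1 (isLittleO_log_rpow_atTop or similar: L^(A+5+b0) ≤ x eventually). Q = ⌊L^(kb A)⌋₊ (L^(kb A) ≥ 1, so y < ⌊y⌋ + 1 ≤ 2⌊y⌋), h = ⌈H L^(-kh A)⌉₊ (H L^(-kh A) ≥ L^(k1 - kh + B0) ≥ 1, so ⌈y⌉ ≤ y + 1 ≤ 2y),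
h0 = ⌊D P V L^(-b0)⌋₊ (D P V L^(-b0) ≥ x L^(-(A+5)-b0) ≥ 1), L0 = ⌊H/(P L^(kc A))⌋₊ (H/(P L^(kc A)) ≥ L^(k1 - kc) ≥ 1). D P V > 0 gives P, V ≥ 1. -/
def KpaStmt : Prop := ∀ A B0 B b0 : ℝ, 0 < A → 2 * kb A + 2 ≤ B0 → 1 ≤ B → 1 ≤ b0 → ∃ x0 : ℝ, 3 ≤ x0 ∧
  ∀ (x : ℝ) (D P V H : ℕ), x0 ≤ x → 1 ≤ D → x * (Real.log x) ^ (-(A + 5)) ≤ (D : ℝ) * P * V → (D : ℝ) * P * V ≤ 4 * x →
    (Real.log x) ^ B0 ≤ P → P * (Real.log x) ^ (k1 A B) ≤ H → (H : ℝ) ≤ x ^ ((1 : ℝ) / 10) →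
    ∃ (Q h h0 L0 : ℕ) (δ : ℝ), Par A B0 B b0 x D P V H Q h h0 L0 δ

/-- Module Kna (theorem tKna; side conditions and the supremum). Uses: nothing.
Proof. L = log x ≥ 10^6, P ≥ L^B0 ≥ L^(2β+2), H ≥ P L^k1, k1 = kh + 6β + 10 + B = kc + 8β + 12 + B (β = kb A ≥ 63). (1) Q⁴ ≤ L^(4β), h ≥ H L^(-kh) ≥ L^(k1 - kh) ≥ 4 L^(4β). (2) δ > 0; δ = L^(kc+β)/H ≤ L^(kc + β - k1) ≤ L^(-2β)/2 ≤ 1/(2Q²). (3) P ≤ H. (4) P L^B ≤ H L^(B - k1) ≤ H L^(-kh) ≤ h.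
(5) h ≤ 2 H L^(-kh) ≤ H ≤ x^(1/10). (6) P/Q ≤ 2 P L^(-β). L0 ≥ H/(2 P L^kc) ≥ L^(k1-kc)/2 ≥ L^(8β)/2: P/L0 ≤ 2 P L^(-8β), (Q/L0)² ≤ 4 L^(-14β). 1 ≤ P L^(-2β-2). 1/(L0 δ) ≤ (2 P L^kc/H)(H/L^(kc+β)) = 2 P L^(-β). The first bracket is ≤ 12 P L^(-β).
7 h δ ≤ 14 H L^(-kh) L^(kc+β)/H = 14 L^(-β-2), Q⁴/h ≤ L^(4β+kh)/H ≤ L^(4β + kh - k1) ≤ L^(-2β): the last term is ≤ 2P (15 L^(-β-2))² ≤ P L^(-β). Total ≤ 40000 P L^(-β) ≤ P L^(3-β) = P L^(-(4A+60)). -/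
def KnaStmt : Prop := ∀ (A B0 B b0 x : ℝ) (D P V H Q h h0 L0 : ℕ) (δ : ℝ), Par A B0 B b0 x D P V H Q h h0 L0 δ →
  4 * Q ^ 4 ≤ h ∧ 0 < δ ∧ δ ≤ 1 / (2 * (Q : ℝ) ^ 2) ∧ P ≤ H ∧ P * (Real.log x) ^ B ≤ h ∧ (h : ℝ) ≤ x ^ ((1 : ℝ) / 10) ∧
  3000 * ((P : ℝ) / Q + P / L0 + 1 + P * ((Q : ℝ) / L0) ^ 2 + 1 / (L0 * δ)) + 2 * P * (7 * h * δ + (Q : ℝ) ^ 4 / h) ^ 2 ≤
    P * (Real.log x) ^ (-(4 * A + 60))

/-- Module Knb (theorem tKnb; numbers of the first part). Uses: nothing.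
Proof. sqrt P sqrt (P L^(-(4A+60))) = P L^(-(2A+30)); P² L0 ≤ P H L^(-(2A+30)) (kc A = 2A + 30). So the bracket is ≤ 96 H P L^(-(2A+30)) 3 x L². 4DV ≤ 16 x (P ≥ 1), 1 + log(16 x) ≤ 2L: (..)^16 ≤ 65536 L^16. Total ≤ H² (D P V) x · 4 · 65536 · 288 L^(18 - 2A - 30) ≤ H² x² · 16 · 65536 · 288 L^(-2A-12) ≤
H² x² L^(-2A)/9 as L ≥ 10^6. -/
def KnbStmt : Prop := ∀ (A B0 B b0 x : ℝ) (D P V H Q h h0 L0 : ℕ) (δ : ℝ), Par A B0 B b0 x D P V H Q h h0 L0 δ →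
  (H : ℝ) * (4 * ((D : ℝ) * V) * (1 + Real.log (4 * ((D : ℝ) * V))) ^ 16) *
      ((6 * H * Real.sqrt P * Real.sqrt (P * (Real.log x) ^ (-(4 * A + 60))) + 90 * (P : ℝ) ^ 2 * L0) * (3 * x * (Real.log x) ^ (2 : ℕ))) ≤
    (H * (x * (Real.log x) ^ (-A)) / 3) ^ 2

/-- Module Knc (theorem tKnc; numbers of the second and of the third part). Uses: nothing.
Proof. (1) sqrt(3 x L²) ≤ 2 sqrt x L, Q^5 ≤ L^(5β), sqrt(D P V L^(-(2A+10β+20))) ≤ 2 sqrt x L^(-(A+5β+10)): the product is ≤ 4 x L^(-A-9) ≤ x L^(-A)/3. (2) D P V/h0 ≤ 2 L^b0, 1 + log(2V) ≤ 2L (2V ≤ 8x), Q³ ≤ L^(3β): the left side is ≤ H · 2 · 2 L^b0 · 4 L² · L^(3β) x L^(-(A+b0+3β+20)) =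
16 H x L^(-A-18) ≤ H x L^(-A)/3. -/
def KncStmt : Prop := ∀ (A B0 B b0 x : ℝ) (D P V H Q h h0 L0 : ℕ) (δ : ℝ), Par A B0 B b0 x D P V H Q h h0 L0 δ →
  (H : ℝ) * (Real.sqrt (3 * x * (Real.log x) ^ (2 : ℕ)) * ((Q : ℝ) ^ 5 *
      Real.sqrt ((D : ℝ) * P * V * (Real.log x) ^ (-(2 * A + 10 * kb A + 20))))) ≤ H * (x * (Real.log x) ^ (-A)) / 3 ∧
  (H : ℝ) * (2 * ((D : ℝ) * P * V) * (1 + Real.log (2 * V)) ^ 2 *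
      ((Q : ℝ) ^ 3 * (x * (Real.log x) ^ (-(A + b0 + 3 * kb A + 20))) / h0)) ≤ H * (x * (Real.log x) ^ (-A)) / 3

/-- Module Key (theorem tKey; KeyStmt). Uses: VarStmt, MsuStmt, KlgStmt, KmcStmt, KmbStmt, KmaStmt, KpaStmt, KnaStmt, KnbStmt, KncStmt.
Proof. β = kb A; Var with ε, 2A + 10β + 20, β: B0', B, b0, x1. B0 = max B0' (2β+2), B1 = k1 A B, A2 = A + b0 + 3β + 20, x0 = the maximum of x1, of x0 from Kpa and of a number with x L^(-(A+5)) ≥ x^(1/2) for x ≥ x0. Given x etc.: Kpa: Q, h, h0, L0, δ; Kna. K = ⌊x⌋₊: f n = 0 for |n| > K, sq K f ≤ (2K+1) L² ≤ 3 x L².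
w v = wt ρ Z v: |w v| ≤ τ(v) for v ≥ 1 (the l ≤ Z dividing v are divisors, |ρ l| ≤ 1). KS is linear in its last argument: KS f = KS (f - Ch h f) + KS (Ch h f - Ch h0 f) + KS (Ch h0 f). First: Kma with S0 = P L^(-(4A+60)) (Msu and Kna), Knb, abs_le_of_sq_le (both sides ≥ 0): ≤ H x L^(-A)/3. Second: Kmb with
B = D P V L^(-(2A+10β+20)): its hypothesis is Var for q ≤ Q ≤ L^β, κ = κ3, S.filter, the restriction of c a (all hypotheses of Var hold: x^(1/2) ≤ D P V, h ≤ x^(1/10), P L^B ≤ h, pg1, pg2); Knc (1). Third: Klg with T = x L^(-A2) (q ≤ Q gives q ≤ L^β), Kmc with M = Q³ T/h0, Knc (2). Sum = H x L^(-A). -/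
def KeyDoc : Prop := KeyStmt

end Pool.Agent.Lib.TR
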