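import Pool.Agent.Lib.TR.SpecD

/-!
MP_00e23e_nt, directory Lib/TR, chapter V: additive windows, multiplicative windows, Parseval. Rules: see Defs.lean.
-/

set_option autoImplicit false

namespace Pool.Agent.Lib.TR

open Finset Pool.Agent.Lib.EH3 Pool.Agent.Results.MP_00e23e_nt

/-- the difference of the averages over the multiplicative windows of relative lengths h/M and h0/M -/
noncomputable def YY (X' M h h0 : ℕ) (g : ℤ → ℂ) (y : ℝ) : ℂ :=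
  (1 / (h : ℂ)) * Wd X' g ((h : ℝ) / M) y - (1 / (h0 : ℂ)) * Wd X' g ((h0 : ℝ) / M) y

/-- Module Vcm (theorem tVcm; comparison of the windows). Uses: nothing.
Proof. δ = h/M ≤ lam/4. Since e^y ∈ [n, n+1) (y ∈ [log n, log(n+1))), log m ≤ y iff m ≤ n. The bottom end e^(y-δ) lies between n e^(-δ) ≥ n (1 - δ) ≥ n - h (1 + lam) (n ≤ M (1 + lam)) and (n+1) e^(-δ) ≤ (n+1)(1 - δ + δ²/2) ≤ n + 1 - n δ + (n+1) δ²/2 ≤ n + 1 - h + lam h/4·1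
(n δ ≥ h as n ≥ M; n + 1 ≤ 4M, (n+1) δ²/2 ≤ 2 M δ² = 2 h δ ≤ lam h/2). So the integers m ≤ n which are in exactly one of the sets {m > n - h}, {m > e^(y-δ)} satisfy n - h - lam h ≤ m ≤ n - h + 1 + lam h/2, in particular |m - (n - h)| ≤ 2 lam h (4 ≤ lam h). g vanishes outside [1, X']. -/
def VcmStmt : Prop := ∀ (g : ℤ → ℂ) (X' M h n : ℕ) (lam y : ℝ), (∀ m : ℤ, (m < 1 ∨ (X' : ℤ) < m) → g m = 0) → 1 ≤ h → 1 ≤ M → 0 < lam → lam ≤ 1 →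
  M ≤ n → (n : ℝ) ≤ M * (1 + lam) → (h : ℝ) ≤ lam * M / 4 → 4 ≤ lam * h → Real.log n ≤ y → y < Real.log ((n : ℝ) + 1) →
  ‖∑ j ∈ range h, g (n - j) - Wd X' g ((h : ℝ) / M) y‖ ≤
    ∑ j ∈ Icc (-(⌊2 * lam * h⌋₊ : ℤ)) ⌊2 * lam * h⌋₊, ‖g (n - h + j)‖

/-- Module Vsg (theorem tVsg; from the sum over n to integrals over y). Uses: Vcm.
Proof. g is supported on (X, 8X], so kg h h0 g n = 0 unless X < n ≤ 8X + h0 ≤ 9X (h ≤ h0 ≤ lam X/4). s = ⌊lam X/2⌋ ≥ 1, M_k = X + k s; every such n is in one [M_k, M_k + s), k < K = ⌈40/lam⌉₊ (8 X/s ≤ 8X/(lam X/4) = 32/lam), and M_k ≤ n ≤ M_k (1 + lam), h0 ≤ lam M_k/4. For y ∈ [log n, log(n+1)): by Vcm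
(for h and h0; lam h0 ≥ lam h ≥ 4) ‖kg n‖ ≤ ‖YY M_k y‖ + E_h n + E_h0 n, E_h n = (1/h) ∑_{|j| ≤ J} ‖g(n-h+j)‖, J = ⌊2 lam h⌋. So ‖kg n‖² ≤ 3‖YY‖² + 3E_h² + 3E_h0²; integrate over [log n, log(n+1)], of length ≥ 1/(n+1) ≥ 1/(10X) (YY is a step function, measurable and bounded, interval integrable): ‖kg n‖² ≤
30 X ∫ ‖YY M_k‖² + 3 E_h² + 3 E_h0². Sum over n: the intervals are disjoint and contained in [log X, log X + 4] (log 10 < 4; for k fixed, and different k: sum of the integrals over the whole interval). ∑_n E_h² ≤ ((2J+1)/h)² ∑‖g‖² ≤ (5 lam)² ∑‖g‖² (Cauchy-Schwarz; every m is in 2J+1 windows; 2J + 1 ≤ 4 lam h + 1 ≤ 5 lam h). -/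
def VsgStmt : Prop := ∀ (g : ℤ → ℂ) (X h h0 N' : ℕ) (lam : ℝ), 1 ≤ X → (∀ m : ℤ, (m ≤ X ∨ (8 * X : ℕ) < m) → g m = 0) → 1 ≤ h → h ≤ h0 →
  0 < lam → lam ≤ 1 → (h0 : ℝ) ≤ lam * X / 4 → 4 ≤ lam * h →
  ∑ n ∈ Icc (1 : ℤ) N', ‖kg h h0 g n‖ ^ 2 ≤
    100 * X * ∑ k ∈ range ⌈40 / lam⌉₊, (∫ y in (Real.log X)..(Real.log X + 4), ‖YY (8 * X) (X + k * ⌊lam * X / 2⌋₊) h h0 g y‖ ^ 2) +
      200 * lam ^ 2 * ∑ m ∈ Icc 1 (8 * X), ‖g m‖ ^ 2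

/-- Module Vco (theorem tVco; the Fourier coefficients of a window function). Uses: nothing.
Proof. Wd X' g δ y = ∑_{n ≤ X'} g n 1[log n ≤ y < log n + δ]. For n with g n ≠ 0: X < n ≤ 8X, so [log n, log n + δ] ⊆ [log X, log X + 4] (log 8 + 1 < 4). The integral of ee(-(m y/4)) over [log n, log n + δ] is lp m n ∫_0^δ ee(-(m s/4)) ds. Bounds: |∫_0^δ ee(-ms/4) ds - δ| ≤ ∫ 2π|m|s/4 ≤ |m| δ² (‖ee t - 1‖ ≤ 2π|t|),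
|∫_0^δ| ≤ 4/(π|m|) ≤ 2/|m|. With δ = h/M, δ0 = h0/M: b = (1/h) ∫_0^δ - (1/h0) ∫_0^δ0, the main terms δ/h = δ0/h0 = 1/M cancel: |b| ≤ |m|(δ²/h + δ0²/h0) ≤ 2|m| h0/M²; |b| ≤ 2/M; |b| ≤ (2/|m|)(1/h + 1/h0) ≤ 4/(|m| h). -/
def VcoStmt : Prop := ∀ (g : ℤ → ℂ) (X M h h0 : ℕ) (m : ℤ), 1 ≤ X → X ≤ M → 1 ≤ h → h ≤ h0 → h0 ≤ M → (∀ k : ℤ, (k ≤ X ∨ (8 * X : ℕ) < k) → g k = 0) →
  ∃ b : ℂ, (∫ y in (Real.log X)..(Real.log X + 4), YY (8 * X) M h h0 g y * ee (-((m : ℝ) * y / 4))) = b * GD (8 * X) g m ∧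
    ‖b‖ ≤ 2 * |(m : ℝ)| * h0 / (M : ℝ) ^ 2 ∧ ‖b‖ ≤ 2 / M ∧ (m ≠ 0 → ‖b‖ ≤ 4 / (|(m : ℝ)| * h))

/-- Module Vpc (theorem tVpc; Parseval). Uses: Dmv, Vco.
Proof. ‖YY‖² integrated over [log X, log X + 4] (length 4) is (1/4) ∑_m |∫ YY ee(-my/4)|² (Parseval for the Fourier coefficients fourierCoeffOn with respect to the interval [log X, log X + 4]: c_m = (1/4)∫, ∫|YY|² = 4 ∑ |c_m|²; as in Lib/UI/Par.lean: tsum_sq_fourierCoeff). So it is (1/4) ∑_m ‖b_m‖² ‖GD m‖². Split: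
|m| ≤ T0: ‖b‖ ≤ 2 T0 h0/M² ≤ 2 T0 h0/X²; T0 < |m| ≤ T1: ‖b‖ ≤ 2/X; 2^i T1 < |m| ≤ 2^(i+1) T1: ‖b‖ ≤ 4/(2^i T1 h) and Dmv: ≤ 16/(4^i T1² h²) 200 (1 + log 8X)(2^(i+1) T1 + 8X) ∑‖g‖², sum over i ≤ 3200 (1 + log 8X)(4 T1 + 11 X)/(T1 h)² ∑‖g‖² (bound all partial sums of the tsum). -/
def VpcStmt : Prop := ∀ (g : ℤ → ℂ) (X M h h0 T0 T1 : ℕ), 1 ≤ X → X ≤ M → 1 ≤ h → h ≤ h0 → h0 ≤ M → 1 ≤ T0 → T0 ≤ T1 →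
  (∀ k : ℤ, (k ≤ X ∨ (8 * X : ℕ) < k) → g k = 0) →
  ∫ y in (Real.log X)..(Real.log X + 4), ‖YY (8 * X) M h h0 g y‖ ^ 2 ≤
    (2 * T0 * h0 / (X : ℝ) ^ 2) ^ 2 * ∑ m ∈ Icc (-(T0 : ℤ)) T0, ‖GD (8 * X) g m‖ ^ 2 +
    (2 / (X : ℝ)) ^ 2 * ∑ m ∈ (Icc (-(T1 : ℤ)) T1).filter (fun m : ℤ => (T0 : ℤ) < |m|), ‖GD (8 * X) g m‖ ^ 2 +
    10000 * (1 + Real.log (8 * X)) * ((T1 : ℝ) + 3 * X) / (T1 * h) ^ 2 * ∑ n ∈ Icc 1 (8 * X), ‖g n‖ ^ 2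

/-- Module Var (theorem tVar; THE RESULT OF CHAPTER V). Uses: Dfa, Dmn, Vsg, Vpc.
Proof. L = log x, X = D P V (x^(1/2) ≤ X ≤ 4x, log (8X) ≤ 2L), w v = the given weights (‖w v‖ ≤ τ(v)), g = gg D V S c w, Bg = ∑‖g‖² ≤ 8 X (3L)^64 ≤ X L^66 (Dfa (2)), support by Dfa (4). lam = L^(-l), l = A + 70: 200 lam² Bg ≤ X L^(-A)/2. Number of segments ≤ 50 L^l. A' = A + l + 5; B0, τ0 from Dmn (ε, A', β).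
c' = A + l + 80, B = c' + l + 5, b0 = (3 τ0 + A + l + 80) + l + 2. h ≥ P L^B ≥ L^B: 4 ≤ lam h; h0 ≤ X L^(-b0) ≤ lam X/4; h ≤ x^(1/10) ≤ h0. M = X + k ⌊lam X/2⌋ ≥ X, h0 ≤ M. T0 = ⌈L^τ0⌉₊, T1 = ⌈(X/h) L^c'⌉₊: T0 ≤ T1 (X/h ≥ x^(2/5)), T1 ≤ 2 (X/h) L^c' = 2 D V (P/h) L^c' ≤ D V, X/h ≤ T1/L^c'.
Vpc: (i) ‖GD‖² ≤ 8X Bg (Cauchy-Schwarz, ‖lp‖ = 1), so the first term is ≤ (2 T0 h0/X²)² 3 T0 8 X X L^66 ≤ C L^(3 τ0 + 66 - 2 b0) ≤ L^(-A-l-4); (ii) T0 < |m| implies L^τ0 < |m|: Dmn: ≤ 4 L^(-A'); (iii) T1 ≤ X, T1 h ≥ X L^c': ≤ 10^4 3L 4X X L^66/(X L^c')² ≤ C L^(67 - 2c') ≤ L^(-A-l-4).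
Vsg: 100 X 50 L^l (C L^(-A-l-4)) + 200 lam² Bg ≤ X L^(-A). (P ≤ h ≤ x^(1/10) gives the hypothesis P ≤ x^(1/10) of Dmn.) -/
def VarDoc : Prop := VarStmt

end Pool.Agent.Lib.TR
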