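import Pool.Agent.Lib.TR.SpecV

/-!
MP_00e23e_nt, directory Lib/TR, module Vcm: comparison of an additive window with a multiplicative window.
-/

set_option autoImplicit false

namespace Pool.Agent.Lib.TR

open Finset Pool.Agent.Lib.EH3 Pool.Agent.Results.MP_00e23e_nt

/-- second order upper bound for exp(-d) -/
private theorem Vcm_exp (d : ℝ) (h0 : 0 ≤ d) : Real.exp (-d) ≤ 1 - d + d ^ 2 := by
  have h1 : 1 + d ≤ Real.exp d := by linarith [Real.add_one_le_exp d]
  have h2 : Real.exp (-d) * Real.exp d = 1 := by rw [← Real.exp_add]; simp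
  have h3 : 0 < Real.exp (-d) := Real.exp_pos _
  have h4 : Real.exp (-d) * (1 + d) ≤ 1 := by
    calc Real.exp (-d) * (1 + d) ≤ Real.exp (-d) * Real.exp d := by gcongr
      _ = 1 := h2
  have h5 : 1 ≤ (1 - d + d ^ 2) * (1 + d) := by
    have : (1 - d + d ^ 2) * (1 + d) = 1 + d ^ 3 := by ring
    rw [this]
    have : 0 ≤ d ^ 3 := by positivity
    linarith
  have h6 : Real.exp (-d) * (1 + d) ≤ (1 - d + d ^ 2) * (1 + d) := h4.trans h5
  exact le_of_mul_le_mul_right h6 (by linarith)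

/-- the sum over the last h integers -/
private theorem Vcm_win (g : ℤ → ℂ) (n h : ℕ) :
    ∑ j ∈ range h, g (n - j) = ∑ m ∈ Ioc ((n : ℤ) - h) n, g m := by
  refine Finset.sum_bij (fun (j : ℕ) _ => (n : ℤ) - j) ?_ ?_ ?_ ?_
  · intro j hj
    rw [mem_range] at hj
    rw [mem_Ioc]
    omega
  · intro a _ b _ hab
    omega
  · intro m hm
    rw [mem_Ioc] at hm
    refine ⟨((n : ℤ) - m).toNat, ?_, ?_⟩
    · rw [mem_range]; omega
    · omega
  · intro j _
    rfl

/-- the multiplicative window as a sum over integers -/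
private theorem Vcm_wd (g : ℤ → ℂ) (X' : ℕ) (d y : ℝ) :
    Wd X' g d y = ∑ m ∈ (Icc (1 : ℤ) X').filter (fun m : ℤ => y - d < Real.log m ∧ Real.log m ≤ y), g m := by
  unfold Wd
  refine Finset.sum_bij (fun (m : ℕ) _ => (m : ℤ)) ?_ ?_ ?_ ?_
  · intro m hm
    rw [mem_filter, mem_Icc] at hm ⊢
    obtain ⟨⟨h1, h2⟩, h3, h4⟩ := hm
    refine ⟨⟨by exact_mod_cast h1, by exact_mod_cast h2⟩, ?_, ?_⟩
    · simpa using h3
    · simpa using h4
  · intro a _ b _ hab
    simpa using hab
  · intro m hm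
    rw [mem_filter, mem_Icc] at hm
    obtain ⟨⟨h1, h2⟩, h3, h4⟩ := hm
    lift m to ℕ using (by omega) with k
    refine ⟨k, ?_, rfl⟩
    rw [mem_filter, mem_Icc]
    refine ⟨⟨by exact_mod_cast h1, by exact_mod_cast h2⟩, ?_, ?_⟩
    · simpa using h3
    · simpa using h4
  · intro m _
    rfl

/-- the window of the error as a sum over integers -/
private theorem Vcm_err (f : ℤ → ℝ) (c J : ℤ) :
    ∑ j ∈ Icc (-J) J, f (c + j) = ∑ m ∈ Icc (c - J) (c + J), f m := by
  refine Finset.sum_bij (fun (j : ℤ) _ => c + j) ?_ ?_ ?_ ?_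
  · intro j hj
    rw [mem_Icc] at hj ⊢
    omega
  · intro a _ b _ hab
    omega
  · intro m hm
    rw [mem_Icc] at hm
    refine ⟨m - c, ?_, ?_⟩
    · rw [mem_Icc]; omega
    · omega
  · intro j _
    rfl

/-- an integer of the symmetric difference is near the bottom end -/
private theorem Vcm_mem (M h n : ℕ) (lam y : ℝ) (m : ℤ) (hh : 1 ≤ h) (hM : 1 ≤ M) (hl1 : lam ≤ 1)
    (hMn : M ≤ n) (hn : (n : ℝ) ≤ M * (1 + lam)) (hlM : (h : ℝ) ≤ lam * M / 4) (hlh : 4 ≤ lam * h)
    (hy : Real.log n ≤ y) (hy' : y < Real.log ((n : ℝ) + 1)) (hm1 : 1 ≤ m)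
    (hd : ((n : ℤ) - h < m ∧ Real.log m ≤ y - (h : ℝ) / M) ∨
      (m ≤ (n : ℤ) - h ∧ y - (h : ℝ) / M < Real.log m)) :
    m ∈ Icc ((n : ℤ) - h - (⌊2 * lam * h⌋₊ : ℤ)) ((n : ℤ) - h + (⌊2 * lam * h⌋₊ : ℤ)) := by
  have hMr : (1 : ℝ) ≤ M := by exact_mod_cast hM
  have hM0 : (0 : ℝ) < M := by linarith
  have hhr : (1 : ℝ) ≤ h := by exact_mod_cast hh
  have hMnr : (M : ℝ) ≤ n := by exact_mod_cast hMn
  have hn0 : (0 : ℝ) < n := by linarith
  have hmr : (1 : ℝ) ≤ m := by exact_mod_cast hm1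
  have hm0 : (0 : ℝ) < m := by linarith
  set d : ℝ := (h : ℝ) / M with hddef
  have hd0 : 0 ≤ d := by positivity
  have hdM : d * M = h := by rw [hddef]; field_simp
  have hd4 : d ≤ lam / 4 := by
    rw [hddef, div_le_iff₀ hM0]; linarith
  have hfl : ∀ z : ℤ, (z : ℝ) ≤ 2 * lam * h → z ≤ (⌊2 * lam * h⌋₊ : ℤ) := by
    intro z hz
    have h0 : (0 : ℝ) ≤ 2 * lam * h := by linarith
    have h1 : ((⌊2 * lam * h⌋₊ : ℕ) : ℤ) = ⌊2 * lam * h⌋ := Int.natCast_floor_eq_floor h0
    rw [h1]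
    exact Int.le_floor.mpr hz
  rw [mem_Icc]
  rcases hd with ⟨h1, h2⟩ | ⟨h1, h2⟩
  · have hu : (m : ℝ) < (n : ℝ) + 1 - h + 5 / 4 * (lam * h) := by
      have e1 : (m : ℝ) ≤ Real.exp (y - d) := by
        rw [← Real.log_le_iff_le_exp hm0]; exact h2
      have e2 : Real.exp (y - d) = Real.exp y * Real.exp (-d) := by
        rw [← Real.exp_add]; congr 1
      have e3 : Real.exp y < (n : ℝ) + 1 := by
        rw [← Real.lt_log_iff_exp_lt (by linarith)]; exact hy'
      have e4 : Real.exp (-d) ≤ 1 - d + d ^ 2 := Vcm_exp d hd0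
      have e5 : (m : ℝ) ≤ ((n : ℝ) + 1) * (1 - d + d ^ 2) := by
        calc (m : ℝ) ≤ Real.exp y * Real.exp (-d) := by rw [← e2]; exact e1
          _ ≤ ((n : ℝ) + 1) * (1 - d + d ^ 2) := by
            apply mul_le_mul e3.le e4 (Real.exp_pos _).le (by linarith)
      have e6 : (h : ℝ) ≤ n * d := by
        rw [← hdM]; nlinarith
      have e7 : (n : ℝ) + 1 ≤ 4 * M := by nlinarith
      have e8 : ((n : ℝ) + 1) * d ^ 2 ≤ lam * h := by
        calc ((n : ℝ) + 1) * d ^ 2 ≤ 4 * M * d ^ 2 := by gcongr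
          _ = 4 * (d * M) * d := by ring
          _ = 4 * h * d := by rw [hdM]
          _ ≤ 4 * h * (lam / 4) := by gcongr
          _ = lam * h := by ring
      nlinarith
    constructor
    · omega
    · have : m - ((n : ℤ) - h) ≤ (⌊2 * lam * h⌋₊ : ℤ) := by
        apply hfl
        push_cast
        linarith
      linarith
  · have hu : (n : ℝ) - h - lam * h < m := by
      have e1 : Real.exp (y - d) < m := by
        rw [← Real.lt_log_iff_exp_lt hm0]; exact h2
      have e2 : Real.exp (y - d) = Real.exp y * Real.exp (-d) := by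
        rw [← Real.exp_add]; congr 1
      have e3 : (n : ℝ) ≤ Real.exp y := by
        rw [← Real.log_le_iff_le_exp hn0]; exact hy
      have e4 : 1 - d ≤ Real.exp (-d) := by linarith [Real.add_one_le_exp (-d)]
      have e5 : (n : ℝ) * (1 - d) ≤ Real.exp (y - d) := by
        rw [e2]
        apply mul_le_mul e3 e4 (by linarith) (Real.exp_pos _).le
      have e6 : (n : ℝ) * d ≤ h + lam * h := by
        calc (n : ℝ) * d ≤ M * (1 + lam) * d := by gcongr
          _ = (d * M) * (1 + lam) := by ring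
          _ = h + lam * h := by rw [hdM]; ring
      nlinarith
    constructor
    · have : ((n : ℤ) - h) - m ≤ (⌊2 * lam * h⌋₊ : ℤ) := by
        apply hfl
        push_cast
        linarith
      linarith
    · have : (0 : ℤ) ≤ (⌊2 * lam * h⌋₊ : ℤ) := by positivity
      linarith

theorem tVcm : VcmStmt := by
  intro g X' M h n lam y hg hh hM hl0 hl1 hMn hn hlM hlh hy hy'
  rw [Vcm_win, Vcm_wd]
  set A : Finset ℤ := Ioc ((n : ℤ) - h) n with hA
  set B : Finset ℤ := (Icc (1 : ℤ) X').filter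
    (fun m : ℤ => y - (h : ℝ) / M < Real.log m ∧ Real.log m ≤ y) with hB
  have herr : ∑ j ∈ Icc (-(⌊2 * lam * h⌋₊ : ℤ)) ⌊2 * lam * h⌋₊, ‖g (n - h + j)‖ =
      ∑ m ∈ Icc ((n : ℤ) - h - (⌊2 * lam * h⌋₊ : ℤ)) ((n : ℤ) - h + (⌊2 * lam * h⌋₊ : ℤ)), ‖g m‖ :=
    Vcm_err (fun m => ‖g m‖) ((n : ℤ) - h) (⌊2 * lam * h⌋₊ : ℤ)
  rw [herr, ← Finset.sum_sdiff_sub_sum_sdiff]
  have hdis : Disjoint (A \ B) (B \ A) := by
    rw [Finset.disjoint_left]
    intro m h1 h2
    rw [mem_sdiff] at h1 h2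
    exact h2.2 h1.1
  have hn0 : (0 : ℝ) < n := by
    have : 1 ≤ n := le_trans hM hMn
    exact_mod_cast this
  calc ‖∑ m ∈ A \ B, g m - ∑ m ∈ B \ A, g m‖
      ≤ ‖∑ m ∈ A \ B, g m‖ + ‖∑ m ∈ B \ A, g m‖ := norm_sub_le _ _
    _ ≤ ∑ m ∈ A \ B, ‖g m‖ + ∑ m ∈ B \ A, ‖g m‖ := add_le_add (norm_sum_le _ _) (norm_sum_le _ _)
    _ = ∑ m ∈ (A \ B) ∪ (B \ A), ‖g m‖ := (Finset.sum_union hdis).symm
    _ = ∑ m ∈ ((A \ B) ∪ (B \ A)).filter (fun m => g m ≠ 0), ‖g m‖ := by
        rw [Finset.sum_filter_of_ne]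
        intro m _ hm h0
        exact hm (by rw [h0, norm_zero])
    _ ≤ _ := by
        apply Finset.sum_le_sum_of_subset_of_nonneg
        · intro m hm
          rw [mem_filter, mem_union, mem_sdiff, mem_sdiff] at hm
          obtain ⟨hm, hgm⟩ := hm
          have hm1 : 1 ≤ m := by
            by_contra hc
            exact hgm (hg m (Or.inl (by omega)))
          have hmX : m ≤ (X' : ℤ) := by
            by_contra hc
            exact hgm (hg m (Or.inr (by omega)))
          have hm0 : (0 : ℝ) < m := by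
            have : (1 : ℝ) ≤ m := by exact_mod_cast hm1
            linarith
          apply Vcm_mem M h n lam y m hh hM hl1 hMn hn hlM hlh hy hy' hm1
          rcases hm with ⟨h1, h2⟩ | ⟨h1, h2⟩
          · left
            rw [hA, mem_Ioc] at h1
            refine ⟨h1.1, ?_⟩
            by_contra hc
            push Not at hc
            apply h2
            rw [hB, mem_filter, mem_Icc]
            refine ⟨⟨hm1, hmX⟩, hc, ?_⟩
            refine le_trans ?_ hy
            apply Real.log_le_log hm0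
            exact_mod_cast h1.2
          · right
            rw [hB, mem_filter, mem_Icc] at h1
            refine ⟨?_, h1.2.1⟩
            by_contra hc
            push Not at hc
            apply h2
            rw [hA, mem_Ioc]
            refine ⟨hc, ?_⟩
            have h3 : Real.log m < Real.log ((n : ℝ) + 1) := lt_of_le_of_lt h1.2.2 hy'
            have h4 : (m : ℝ) < (n : ℝ) + 1 := (Real.log_lt_log_iff hm0 (by linarith)).mp h3
            have h5 : m < (n : ℤ) + 1 := by exact_mod_cast h4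
            omega
        · intro m _ _
          exact norm_nonneg _

end Pool.Agent.Lib.TR
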