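import Pool.Agent.Lib.TR.SpecV

/-!
MP_00e23e_nt, Lib/TR, chapter V, module Vco: the Fourier coefficients of a window function.
-/

set_option autoImplicit false

namespace Pool.Agent.Lib.TR

open Finset Pool.Agent.Lib.EH3 Pool.Agent.Results.MP_00e23e_nt
open MeasureTheory

/-- the integral of the character over [0, δ] -/
private noncomputable def Vco_J (m : ℤ) (δ : ℝ) : ℂ := ∫ s in (0 : ℝ)..δ, ee (-((m : ℝ) * s / 4))

private lemma Vco_cont (m : ℤ) : Continuous (fun y : ℝ => ee (-((m : ℝ) * y / 4))) := by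
  unfold ee
  fun_prop

/-- one window -/
private noncomputable def Vco_f (m : ℤ) (δ c y : ℝ) : ℂ :=
  if y - δ < c ∧ c ≤ y then ee (-((m : ℝ) * y / 4)) else 0

private lemma Vco_ind (m : ℤ) (δ c : ℝ) :
    Vco_f m δ c = (Set.Ico c (c + δ)).indicator (fun y : ℝ => ee (-((m : ℝ) * y / 4))) := by
  funext y
  unfold Vco_f
  by_cases h : y - δ < c ∧ c ≤ y
  · rw [if_pos h, Set.indicator_of_mem]
    exact ⟨h.2, by linarith [h.1]⟩
  · rw [if_neg h, Set.indicator_of_notMem]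
    rintro ⟨h1, h2⟩
    exact h ⟨by linarith, h1⟩

private lemma Vco_int (m : ℤ) (δ c a b : ℝ) : IntervalIntegrable (Vco_f m δ c) volume a b := by
  rw [intervalIntegrable_iff, Vco_ind]
  have h : IntegrableOn (fun y : ℝ => ee (-((m : ℝ) * y / 4))) (Set.uIoc a b) volume :=
    intervalIntegrable_iff.1 ((Vco_cont m).intervalIntegrable a b)
  exact Integrable.indicator h measurableSet_Ico

private lemma Vco_val (m : ℤ) {δ c a b : ℝ} (hδ : 0 ≤ δ) (ha : a ≤ c) (hb : c + δ ≤ b) :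
    ∫ y in a..b, Vco_f m δ c y = ee (-((m : ℝ) * c / 4)) * Vco_J m δ := by
  have hab : a ≤ b := by linarith
  have h1 : ∫ y in a..b, Vco_f m δ c y = ∫ y in c..(c + δ), ee (-((m : ℝ) * y / 4)) := by
    rw [intervalIntegral.integral_of_le hab, intervalIntegral.integral_of_le (by linarith), Vco_ind]
    calc ∫ y in Set.Ioc a b, (Set.Ico c (c + δ)).indicator (fun y : ℝ => ee (-((m : ℝ) * y / 4))) y =
        ∫ y in Set.Ioc a b, (Set.Ioc c (c + δ)).indicator (fun y : ℝ => ee (-((m : ℝ) * y / 4))) y := by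
          refine integral_congr_ae ?_
          exact ae_restrict_of_ae (indicator_ae_eq_of_ae_eq_set Ico_ae_eq_Ioc)
      _ = ∫ y in Set.Ioc a b ∩ Set.Ioc c (c + δ), ee (-((m : ℝ) * y / 4)) :=
          setIntegral_indicator measurableSet_Ioc
      _ = _ := by rw [Set.inter_eq_right.2 (Set.Ioc_subset_Ioc ha hb)]
  have h2 := intervalIntegral.integral_comp_add_right (a := 0) (b := δ)
    (fun y : ℝ => ee (-((m : ℝ) * y / 4))) c
  rw [zero_add, add_comm δ c] at h2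
  rw [h1, ← h2, Vco_J, ← intervalIntegral.integral_const_mul]
  refine intervalIntegral.integral_congr fun s _ => ?_
  change ee (-((m : ℝ) * (s + c) / 4)) = ee (-((m : ℝ) * c / 4)) * ee (-((m : ℝ) * s / 4))
  rw [← ee_add]
  congr 1
  ring

private lemma Vco_J1 (m : ℤ) {δ : ℝ} (hδ : 0 ≤ δ) : ‖Vco_J m δ‖ ≤ δ := by
  have h := intervalIntegral.norm_integral_le_of_norm_le_const (a := 0) (b := δ) (C := 1)
    (f := fun s : ℝ => ee (-((m : ℝ) * s / 4))) (fun s _ => (norm_ee _).le)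
  rw [sub_zero, abs_of_nonneg hδ, one_mul] at h
  exact h

private lemma Vco_J2 (m : ℤ) {δ : ℝ} (hδ : 0 ≤ δ) : ‖Vco_J m δ - (δ : ℂ)‖ ≤ |(m : ℝ)| * δ ^ 2 := by
  have e : Vco_J m δ - (δ : ℂ) = ∫ s in (0 : ℝ)..δ, (ee (-((m : ℝ) * s / 4)) - 1) := by
    rw [intervalIntegral.integral_sub ((Vco_cont m).intervalIntegrable _ _)
      (continuous_const.intervalIntegrable _ _), intervalIntegral.integral_const, sub_zero, Complex.real_smul, mul_one,
      Vco_J]
  have h : ∀ᵐ s : ℝ, s ∈ Set.Ioc 0 δ → ‖ee (-((m : ℝ) * s / 4)) - 1‖ ≤ 2 * |(m : ℝ)| * s := by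
    refine Filter.Eventually.of_forall fun s hs => ?_
    have hs0 : 0 < s := hs.1
    have h1 : ‖ee (-((m : ℝ) * s / 4)) - 1‖ ≤ ‖2 * Real.pi * (-((m : ℝ) * s / 4))‖ := by
      unfold ee
      exact Real.norm_exp_I_mul_ofReal_sub_one_le
    refine h1.trans ?_
    rw [Real.norm_eq_abs, abs_mul, abs_mul, abs_neg, abs_div, abs_mul, abs_of_pos hs0, abs_of_pos Real.pi_pos,
      abs_of_pos (by norm_num : (0 : ℝ) < 2), abs_of_pos (by norm_num : (0 : ℝ) < 4)]
    have h2 : 0 ≤ |(m : ℝ)| * s := by positivity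
    have h3 := mul_le_mul_of_nonneg_right Real.pi_le_four h2
    linarith
  rw [e]
  calc ‖∫ s in (0 : ℝ)..δ, (ee (-((m : ℝ) * s / 4)) - 1)‖ ≤ ∫ s in (0 : ℝ)..δ, 2 * |(m : ℝ)| * s :=
        intervalIntegral.norm_integral_le_of_norm_le hδ h ((continuous_const.mul continuous_id).intervalIntegrable _ _)
    _ = |(m : ℝ)| * δ ^ 2 := by
        rw [intervalIntegral.integral_const_mul, integral_id]
        ring

private lemma Vco_J3 {m : ℤ} (hm : m ≠ 0) (δ : ℝ) : ‖Vco_J m δ‖ ≤ 2 / |(m : ℝ)| := by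
  have hm' : (m : ℝ) ≠ 0 := by exact_mod_cast hm
  have hmp : 0 < |(m : ℝ)| := abs_pos.2 hm'
  obtain ⟨c, hc⟩ : ∃ c : ℂ, c = Complex.I * ((-(Real.pi * (m : ℝ) / 2) : ℝ) : ℂ) := ⟨_, rfl⟩
  have e : ∀ s : ℝ, ee (-((m : ℝ) * s / 4)) = Complex.exp (c * s) := by
    intro s
    unfold ee
    congr 1
    rw [hc]
    push_cast
    ring
  have hcn : ‖c‖ = Real.pi * |(m : ℝ)| / 2 := by
    rw [hc, norm_mul, Complex.norm_I, one_mul, Complex.norm_real, Real.norm_eq_abs, abs_neg, abs_div, abs_mul,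
      abs_of_pos Real.pi_pos, abs_of_pos (by norm_num : (0 : ℝ) < 2)]
  have hc0 : c ≠ 0 := by
    rw [← norm_ne_zero_iff, hcn]
    positivity
  unfold Vco_J
  have e2 : (fun s : ℝ => ee (-((m : ℝ) * s / 4))) = fun s : ℝ => Complex.exp (c * s) := funext e
  have e3 : ∫ s in (0 : ℝ)..δ, ee (-((m : ℝ) * s / 4)) =
      (Complex.exp (c * δ) - Complex.exp (c * (0 : ℝ))) / c := by
    rw [e2]
    exact integral_exp_mul_complex hc0
  have h1 : ‖Complex.exp (c * δ) - Complex.exp (c * (0 : ℝ))‖ ≤ 2 := by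
    rw [← e δ, ← e 0]
    calc ‖ee (-((m : ℝ) * δ / 4)) - ee (-((m : ℝ) * 0 / 4))‖ ≤ ‖ee (-((m : ℝ) * δ / 4))‖ + ‖ee (-((m : ℝ) * 0 / 4))‖ :=
          norm_sub_le _ _
      _ = 2 := by
          rw [norm_ee, norm_ee]
          norm_num
  rw [e3, norm_div, hcn, div_le_div_iff₀ (by positivity) hmp]
  have h3 : 2 * |(m : ℝ)| ≤ Real.pi * |(m : ℝ)| := mul_le_mul_of_nonneg_right Real.two_le_pi hmp.le
  calc ‖Complex.exp (c * δ) - Complex.exp (c * (0 : ℝ))‖ * |(m : ℝ)| ≤ 2 * |(m : ℝ)| :=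
        mul_le_mul_of_nonneg_right h1 hmp.le
    _ ≤ Real.pi * |(m : ℝ)| := h3
    _ = 2 * (Real.pi * |(m : ℝ)| / 2) := by ring

private lemma Vco_sum (X : ℕ) (g : ℤ → ℂ) (m : ℤ) (δ y : ℝ) :
    Wd X g δ y * ee (-((m : ℝ) * y / 4)) = ∑ n ∈ Icc 1 X, g n * Vco_f m δ (Real.log n) y := by
  unfold Wd
  rw [sum_filter, sum_mul]
  refine sum_congr rfl fun n _ => ?_
  unfold Vco_f
  split_ifs <;> ring

private lemma Vco_log8 : Real.log 8 ≤ 3 := by
  have h : Real.log 8 = 3 * Real.log 2 := by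
    rw [show (8 : ℝ) = 2 ^ 3 by norm_num, Real.log_pow]
    norm_num
  rw [h]
  have := Real.log_two_lt_d9
  linarith

private lemma Vco_Wi (X : ℕ) (g : ℤ → ℂ) (m : ℤ) (δ a b : ℝ) :
    IntervalIntegrable (fun y => Wd X g δ y * ee (-((m : ℝ) * y / 4))) volume a b := by
  have e : (fun y => Wd X g δ y * ee (-((m : ℝ) * y / 4))) =
      ∑ n ∈ Icc 1 X, fun y => g (n : ℤ) * Vco_f m δ (Real.log n) y := by
    funext y
    rw [Finset.sum_apply]
    exact Vco_sum X g m δ y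
  rw [e]
  exact IntervalIntegrable.sum _ fun (n : ℕ) _ => (Vco_int m δ (Real.log n) a b).const_mul (g (n : ℤ))

private lemma Vco_Wd {X : ℕ} {g : ℤ → ℂ} (m : ℤ) {δ : ℝ} (hX : 1 ≤ X) (hδ0 : 0 ≤ δ) (hδ1 : δ ≤ 1)
    (hg : ∀ k : ℤ, (k ≤ X ∨ (8 * X : ℕ) < k) → g k = 0) :
    ∫ y in (Real.log X)..(Real.log X + 4), Wd (8 * X) g δ y * ee (-((m : ℝ) * y / 4)) =
      GD (8 * X) g m * Vco_J m δ := by
  have hX0 : (0 : ℝ) < X := by exact_mod_cast hX
  have e : (fun y => Wd (8 * X) g δ y * ee (-((m : ℝ) * y / 4))) =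
      fun y => ∑ n ∈ Icc 1 (8 * X), g n * Vco_f m δ (Real.log n) y := funext fun y => Vco_sum (8 * X) g m δ y
  rw [e, intervalIntegral.integral_finset_sum (fun (n : ℕ) _ => (Vco_int m δ (Real.log n) _ _).const_mul (g (n : ℤ)))]
  unfold GD
  rw [sum_mul]
  refine sum_congr rfl fun n hn => ?_
  rw [mem_Icc] at hn
  rw [intervalIntegral.integral_const_mul]
  by_cases hn1 : X < n
  · have hn0 : (0 : ℝ) < n := by exact_mod_cast (lt_of_lt_of_le hX hn1.le)
    have h1 : Real.log X ≤ Real.log n := Real.log_le_log hX0 (by exact_mod_cast hn1.le)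
    have h2 : Real.log n ≤ Real.log 8 + Real.log X := by
      rw [← Real.log_mul (by norm_num) hX0.ne']
      refine Real.log_le_log hn0 ?_
      exact_mod_cast hn.2
    have h3 := Vco_log8
    rw [Vco_val m hδ0 h1 (by linarith)]
    unfold lp
    ring
  · have h0 : g n = 0 := hg n (Or.inl (by exact_mod_cast (not_lt.1 hn1)))
    rw [h0]
    ring

theorem tVco : VcoStmt := by
  intro g X M h h0 m hX hXM hh hh0 hh0M hg
  have hM : (1 : ℝ) ≤ M := by exact_mod_cast hX.trans hXM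
  have hM0 : (0 : ℝ) < M := by linarith
  have hh' : (1 : ℝ) ≤ h := by exact_mod_cast hh
  have hhp : (0 : ℝ) < h := by linarith
  have hhh : (h : ℝ) ≤ h0 := by exact_mod_cast hh0
  have hh0p : (0 : ℝ) < h0 := by linarith
  have hh0M' : (h0 : ℝ) ≤ M := by exact_mod_cast hh0M
  have hhM' : (h : ℝ) ≤ M := hhh.trans hh0M'
  have d1 : 0 ≤ (h : ℝ) / M := by positivity
  have d2 : (h : ℝ) / M ≤ 1 := (div_le_one hM0).2 hhM'
  have d3 : 0 ≤ (h0 : ℝ) / M := by positivity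
  have d4 : (h0 : ℝ) / M ≤ 1 := (div_le_one hM0).2 hh0M'
  have hhc : (h : ℂ) ≠ 0 := by exact_mod_cast (by omega : h ≠ 0)
  have hh0c : (h0 : ℂ) ≠ 0 := by exact_mod_cast (by omega : h0 ≠ 0)
  have hMc : (M : ℂ) ≠ 0 := by exact_mod_cast (by omega : M ≠ 0)
  have n1 : ‖(1 / (h : ℂ))‖ = 1 / (h : ℝ) := by
    rw [norm_div, norm_one, Complex.norm_natCast]
  have n2 : ‖(1 / (h0 : ℂ))‖ = 1 / (h0 : ℝ) := by
    rw [norm_div, norm_one, Complex.norm_natCast]
  refine ⟨1 / (h : ℂ) * Vco_J m ((h : ℝ) / M) - 1 / (h0 : ℂ) * Vco_J m ((h0 : ℝ) / M), ?_, ?_, ?_, ?_⟩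
  · have e : (fun y => YY (8 * X) M h h0 g y * ee (-((m : ℝ) * y / 4))) =
        fun y => 1 / (h : ℂ) * (Wd (8 * X) g ((h : ℝ) / M) y * ee (-((m : ℝ) * y / 4))) -
          1 / (h0 : ℂ) * (Wd (8 * X) g ((h0 : ℝ) / M) y * ee (-((m : ℝ) * y / 4))) := by
      funext y
      unfold YY
      ring
    rw [e, intervalIntegral.integral_sub ((Vco_Wi (8 * X) g m _ _ _).const_mul _)
      ((Vco_Wi (8 * X) g m _ _ _).const_mul _), intervalIntegral.integral_const_mul,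
      intervalIntegral.integral_const_mul, Vco_Wd m hX d1 d2 hg, Vco_Wd m hX d3 d4 hg]
    ring
  · -- first bound
    have e1 : 1 / (h : ℂ) * Vco_J m ((h : ℝ) / M) - 1 / (h0 : ℂ) * Vco_J m ((h0 : ℝ) / M) =
        1 / (h : ℂ) * (Vco_J m ((h : ℝ) / M) - (((h : ℝ) / M : ℝ) : ℂ)) -
          1 / (h0 : ℂ) * (Vco_J m ((h0 : ℝ) / M) - (((h0 : ℝ) / M : ℝ) : ℂ)) := by
      push_cast
      field_simp
      ring
    rw [e1]
    calc ‖1 / (h : ℂ) * (Vco_J m ((h : ℝ) / M) - (((h : ℝ) / M : ℝ) : ℂ)) -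
          1 / (h0 : ℂ) * (Vco_J m ((h0 : ℝ) / M) - (((h0 : ℝ) / M : ℝ) : ℂ))‖ ≤
        1 / (h : ℝ) * (|(m : ℝ)| * ((h : ℝ) / M) ^ 2) + 1 / (h0 : ℝ) * (|(m : ℝ)| * ((h0 : ℝ) / M) ^ 2) := by
          refine (norm_sub_le _ _).trans (add_le_add ?_ ?_)
          · rw [norm_mul, n1]
            exact mul_le_mul_of_nonneg_left (Vco_J2 m d1) (by positivity)
          · rw [norm_mul, n2]
            exact mul_le_mul_of_nonneg_left (Vco_J2 m d3) (by positivity)
      _ = |(m : ℝ)| * (h + h0) / (M : ℝ) ^ 2 := by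
          field_simp
      _ ≤ 2 * |(m : ℝ)| * h0 / (M : ℝ) ^ 2 := by
          refine div_le_div_of_nonneg_right ?_ (by positivity)
          have h3 : |(m : ℝ)| * h ≤ |(m : ℝ)| * h0 := mul_le_mul_of_nonneg_left hhh (abs_nonneg _)
          linarith
  · calc ‖1 / (h : ℂ) * Vco_J m ((h : ℝ) / M) - 1 / (h0 : ℂ) * Vco_J m ((h0 : ℝ) / M)‖ ≤
        1 / (h : ℝ) * ((h : ℝ) / M) + 1 / (h0 : ℝ) * ((h0 : ℝ) / M) := by
          refine (norm_sub_le _ _).trans (add_le_add ?_ ?_)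
          · rw [norm_mul, n1]
            exact mul_le_mul_of_nonneg_left (Vco_J1 m d1) (by positivity)
          · rw [norm_mul, n2]
            exact mul_le_mul_of_nonneg_left (Vco_J1 m d3) (by positivity)
      _ = 2 / M := by
          field_simp
          norm_num
  · intro hm
    have hmp : 0 < |(m : ℝ)| := abs_pos.2 (by exact_mod_cast hm)
    calc ‖1 / (h : ℂ) * Vco_J m ((h : ℝ) / M) - 1 / (h0 : ℂ) * Vco_J m ((h0 : ℝ) / M)‖ ≤
        1 / (h : ℝ) * (2 / |(m : ℝ)|) + 1 / (h0 : ℝ) * (2 / |(m : ℝ)|) := by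
          refine (norm_sub_le _ _).trans (add_le_add ?_ ?_)
          · rw [norm_mul, n1]
            exact mul_le_mul_of_nonneg_left (Vco_J3 hm _) (by positivity)
          · rw [norm_mul, n2]
            exact mul_le_mul_of_nonneg_left (Vco_J3 hm _) (by positivity)
      _ ≤ 1 / (h : ℝ) * (2 / |(m : ℝ)|) + 1 / (h : ℝ) * (2 / |(m : ℝ)|) := by
          gcongr
      _ = 4 / (|(m : ℝ)| * h) := by
          field_simp
          norm_num

end Pool.Agent.Lib.TR
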