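import Pool.Agent.Lib.TR.SpecV

/-!
MP_00e23e_nt, directory Lib/TR, module Vpc: Parseval.
-/

set_option autoImplicit false

namespace Pool.Agent.Lib.TR

open Finset Pool.Agent.Lib.EH3 Pool.Agent.Results.MP_00e23e_nt MeasureTheory

private lemma Vpc_Wd (X : ℕ) (g : ℤ → ℂ) (δ y : ℝ) :
    Wd X g δ y = ∑ m ∈ Icc 1 X, if (y - δ < Real.log m ∧ Real.log m ≤ y) then g m else 0 := by
  unfold Wd
  rw [Finset.sum_filter]

private lemma Vpc_WdM (X : ℕ) (g : ℤ → ℂ) (δ : ℝ) : Measurable (fun y => Wd X g δ y) := by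
  have h : (fun y => Wd X g δ y) =
      fun y => ∑ m ∈ Icc 1 X, if (y - δ < Real.log m ∧ Real.log m ≤ y) then g m else 0 := by
    funext y
    exact Vpc_Wd X g δ y
  rw [h]
  apply Finset.measurable_sum
  intro m _
  apply Measurable.ite _ measurable_const measurable_const
  have h1 : MeasurableSet {y : ℝ | y - δ < Real.log m} :=
    measurableSet_lt (measurable_id.sub measurable_const) measurable_const
  have h2 : MeasurableSet {y : ℝ | Real.log m ≤ y} :=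
    measurableSet_le measurable_const measurable_id
  exact h1.inter h2

private lemma Vpc_WdB (X : ℕ) (g : ℤ → ℂ) (δ y : ℝ) : ‖Wd X g δ y‖ ≤ ∑ m ∈ Icc 1 X, ‖g m‖ := by
  unfold Wd
  refine le_trans (norm_sum_le _ _) ?_
  exact Finset.sum_le_sum_of_subset_of_nonneg (Finset.filter_subset _ _) (fun _ _ _ => norm_nonneg _)

private lemma Vpc_mem (X' M h h0 : ℕ) (g : ℤ → ℂ) (a b : ℝ) :
    MemLp (fun y => YY X' M h h0 g y) 2 (volume.restrict (Set.Ioc a b)) := by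
  have hm : Measurable (fun y => YY X' M h h0 g y) := by
    unfold YY
    exact ((Vpc_WdM X' g _).const_mul _).sub ((Vpc_WdM X' g _).const_mul _)
  refine MemLp.of_bound hm.aestronglyMeasurable
    (‖(1 / (h : ℂ))‖ * ∑ m ∈ Icc 1 X', ‖g m‖ + ‖(1 / (h0 : ℂ))‖ * ∑ m ∈ Icc 1 X', ‖g m‖)
    (Filter.Eventually.of_forall (fun y => ?_))
  unfold YY
  refine le_trans (norm_sub_le _ _) ?_
  rw [norm_mul, norm_mul]
  exact add_le_add (mul_le_mul_of_nonneg_left (Vpc_WdB _ _ _ _) (norm_nonneg _))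
    (mul_le_mul_of_nonneg_left (Vpc_WdB _ _ _ _) (norm_nonneg _))

private lemma Vpc_coef (F : ℝ → ℂ) (a : ℝ) (hab : a < a + 4) (m : ℤ) :
    fourierCoeffOn hab F m = (1 / 4 : ℝ) • ∫ y in a..(a + 4), F y * ee (-((m : ℝ) * y / 4)) := by
  rw [fourierCoeffOn_eq_integral]
  have h4 : a + 4 - a = 4 := by ring
  have h5 : (1 / (a + 4 - a) : ℝ) = 1 / 4 := by rw [h4]
  rw [h5]
  congr 1
  apply intervalIntegral.integral_congr
  intro y _
  show fourier (-m) ((y : ℝ) : AddCircle (a + 4 - a)) • F y = F y * ee (-((m : ℝ) * y / 4))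
  rw [fourier_coe_apply, smul_eq_mul, mul_comm, ee]
  congr 2
  have h6 : ((a + 4 - a : ℝ) : ℂ) = 4 := by rw [h4]; norm_num
  rw [h6]
  push_cast
  ring

/-- the dyadic sum over |m| > T1 -/
private lemma Vpc_dy (f : ℤ → ℝ) (T1 : ℕ) (c X : ℝ) (hf : ∀ m, 0 ≤ f m) (hT : 1 ≤ T1)
    (hD : ∀ T : ℕ, 1 ≤ T → ∑ m ∈ Icc (-(T : ℤ)) T, f m ≤ c * ((T : ℝ) + 8 * X)) (K : ℕ) :
    ∑ m ∈ (Icc (-((2 ^ K * T1 : ℕ) : ℤ)) ((2 ^ K * T1 : ℕ) : ℤ)).filter (fun m : ℤ => (T1 : ℤ) < |m|),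
      f m / (m : ℝ) ^ 2 ≤ c / (T1 : ℝ) ^ 2 * (4 * T1 * (1 - (1 / 2) ^ K) + 32 / 3 * X * (1 - (1 / 4) ^ K)) := by
  have hT0 : (0 : ℝ) < T1 := by exact_mod_cast hT
  induction K with
  | zero =>
    have : (Icc (-((2 ^ 0 * T1 : ℕ) : ℤ)) ((2 ^ 0 * T1 : ℕ) : ℤ)).filter (fun m : ℤ => (T1 : ℤ) < |m|) = ∅ := by
      rw [Finset.filter_eq_empty_iff]
      intro m hm
      rw [mem_Icc] at hm
      have h1 : |m| ≤ ((2 ^ 0 * T1 : ℕ) : ℤ) := abs_le.mpr hm
      simp only [pow_zero, one_mul] at h1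
      omega
    rw [this]
    simp
  | succ K ih =>
    have hsplit : (Icc (-((2 ^ (K + 1) * T1 : ℕ) : ℤ)) ((2 ^ (K + 1) * T1 : ℕ) : ℤ)).filter
        (fun m : ℤ => (T1 : ℤ) < |m|) ⊆
        (Icc (-((2 ^ K * T1 : ℕ) : ℤ)) ((2 ^ K * T1 : ℕ) : ℤ)).filter (fun m : ℤ => (T1 : ℤ) < |m|) ∪
        (Icc (-((2 ^ (K + 1) * T1 : ℕ) : ℤ)) ((2 ^ (K + 1) * T1 : ℕ) : ℤ)).filter
          (fun m : ℤ => ((2 ^ K * T1 : ℕ) : ℤ) < |m|) := by
      intro m hm
      rw [mem_filter] at hm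
      rw [mem_union, mem_filter, mem_filter]
      by_cases h : |m| ≤ ((2 ^ K * T1 : ℕ) : ℤ)
      · left
        refine ⟨?_, hm.2⟩
        rw [mem_Icc]
        exact abs_le.mp h
      · right
        exact ⟨hm.1, not_le.mp h⟩
    have hnn : ∀ m : ℤ, 0 ≤ f m / (m : ℝ) ^ 2 := fun m => div_nonneg (hf m) (by positivity)
    have hpos : (0 : ℝ) < 2 ^ K * T1 := by positivity
    have hnew : ∑ m ∈ (Icc (-((2 ^ (K + 1) * T1 : ℕ) : ℤ)) ((2 ^ (K + 1) * T1 : ℕ) : ℤ)).filter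
          (fun m : ℤ => ((2 ^ K * T1 : ℕ) : ℤ) < |m|), f m / (m : ℝ) ^ 2 ≤
        (c * (((2 ^ (K + 1) * T1 : ℕ) : ℝ) + 8 * X)) / (2 ^ K * (T1 : ℝ)) ^ 2 := by
      have h1 := hD (2 ^ (K + 1) * T1) (Nat.mul_pos (by positivity) hT)
      refine le_trans ?_ (div_le_div_of_nonneg_right h1 (by positivity))
      rw [Finset.sum_div]
      refine le_trans (Finset.sum_le_sum (g := fun m => f m / (2 ^ K * (T1 : ℝ)) ^ 2) ?_) ?_
      · intro m hm
        rw [mem_filter] at hm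
        have h2 : (2 ^ K * (T1 : ℝ)) ≤ |(m : ℝ)| := by
          have := hm.2.le
          have h3 : (((2 ^ K * T1 : ℕ) : ℤ) : ℝ) ≤ ((|m| : ℤ) : ℝ) := by exact_mod_cast this
          push_cast at h3
          exact h3
        apply div_le_div_of_nonneg_left (hf m) (by positivity)
        rw [← sq_abs (m : ℝ)]
        exact pow_le_pow_left₀ hpos.le h2 2
      · exact Finset.sum_le_sum_of_subset_of_nonneg (Finset.filter_subset _ _)
          (fun m _ _ => div_nonneg (hf m) (by positivity))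
    refine le_trans (Finset.sum_le_sum_of_subset_of_nonneg hsplit (fun m _ _ => hnn m)) ?_
    have hu := Finset.sum_union_inter (s₁ := (Icc (-((2 ^ K * T1 : ℕ) : ℤ)) ((2 ^ K * T1 : ℕ) : ℤ)).filter
        (fun m : ℤ => (T1 : ℤ) < |m|))
      (s₂ := (Icc (-((2 ^ (K + 1) * T1 : ℕ) : ℤ)) ((2 ^ (K + 1) * T1 : ℕ) : ℤ)).filter
          (fun m : ℤ => ((2 ^ K * T1 : ℕ) : ℤ) < |m|)) (f := fun m : ℤ => f m / (m : ℝ) ^ 2)
    have hi : 0 ≤ ∑ m ∈ ((Icc (-((2 ^ K * T1 : ℕ) : ℤ)) ((2 ^ K * T1 : ℕ) : ℤ)).filter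
        (fun m : ℤ => (T1 : ℤ) < |m|)) ∩ ((Icc (-((2 ^ (K + 1) * T1 : ℕ) : ℤ)) ((2 ^ (K + 1) * T1 : ℕ) : ℤ)).filter
          (fun m : ℤ => ((2 ^ K * T1 : ℕ) : ℤ) < |m|)), f m / (m : ℝ) ^ 2 :=
      Finset.sum_nonneg (fun m _ => hnn m)
    have hval : (c * (((2 ^ (K + 1) * T1 : ℕ) : ℝ) + 8 * X)) / (2 ^ K * (T1 : ℝ)) ^ 2 =
        c / (T1 : ℝ) ^ 2 * (2 * T1 * (1 / 2) ^ K + 8 * X * (1 / 4) ^ K) := by
      push_cast
      have e1 : ((1 : ℝ) / 2) ^ K = 1 / 2 ^ K := by rw [div_pow, one_pow]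
      have e2 : ((1 : ℝ) / 4) ^ K = 1 / (2 ^ K) ^ 2 := by
        rw [div_pow, one_pow, ← pow_mul, mul_comm K 2, pow_mul]
        norm_num
      rw [e1, e2]
      have h2 : (2 : ℝ) ^ K ≠ 0 := by positivity
      field_simp
      ring
    have hfin : c / (T1 : ℝ) ^ 2 * (4 * T1 * (1 - (1 / 2) ^ (K + 1)) + 32 / 3 * X * (1 - (1 / 4) ^ (K + 1))) =
        c / (T1 : ℝ) ^ 2 * (4 * T1 * (1 - (1 / 2) ^ K) + 32 / 3 * X * (1 - (1 / 4) ^ K)) +
        c / (T1 : ℝ) ^ 2 * (2 * T1 * (1 / 2) ^ K + 8 * X * (1 / 4) ^ K) := by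
      rw [pow_succ, pow_succ]
      ring
    rw [hfin]
    rw [hval] at hnew
    linarith

/-- Parseval. -/
theorem tVpc (h1 : DmvStmt) (h2 : VcoStmt) : VpcStmt := by
  classical
  intro g X M h h0 T0 T1 hX hXM hh hh0 hhM hT0 hT01 hg
  have hT1 : 1 ≤ T1 := le_trans hT0 hT01
  have hab : Real.log X < Real.log X + 4 := by linarith
  set F : ℝ → ℂ := fun y => YY (8 * X) M h h0 g y with hF
  have hP := hasSum_sq_fourierCoeffOn hab (Vpc_mem (8 * X) M h h0 g (Real.log X) (Real.log X + 4))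
  choose b hb1 hb2 hb3 hb4 using fun m : ℤ => h2 g X M h h0 m hX hXM hh hh0 hhM hg
  set G : ℤ → ℝ := fun m => ‖GD (8 * X) g m‖ ^ 2 with hG
  have hG0 : ∀ m, 0 ≤ G m := fun m => by positivity
  have hXR : (0 : ℝ) < X := by exact_mod_cast hX
  have hMR : (X : ℝ) ≤ M := by exact_mod_cast hXM
  have hhR : (0 : ℝ) < h := by exact_mod_cast hh
  have hT1R : (0 : ℝ) < T1 := by exact_mod_cast hT1
  have hcoef : ∀ m : ℤ, ‖fourierCoeffOn hab F m‖ ^ 2 = (1 / 16) * (‖b m‖ ^ 2 * G m) := by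
    intro m
    rw [Vpc_coef F (Real.log X) hab m]
    rw [show (∫ y in (Real.log X)..(Real.log X + 4), F y * ee (-((m : ℝ) * y / 4))) = b m * GD (8 * X) g m from hb1 m]
    rw [norm_smul, norm_mul, hG]
    simp only [Real.norm_eq_abs]
    rw [abs_of_nonneg (by norm_num : (0 : ℝ) ≤ 1 / 4)]
    ring
  have hI : ∫ y in (Real.log X)..(Real.log X + 4), ‖YY (8 * X) M h h0 g y‖ ^ 2 =
      4 * ∑' m : ℤ, ‖fourierCoeffOn hab F m‖ ^ 2 := by
    rw [hP.tsum_eq, smul_eq_mul]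
    rw [show Real.log X + 4 - Real.log X = 4 by ring]
    ring
  rw [hI]
  set D := 1 + Real.log (8 * X) with hD
  have hD1 : 1 ≤ D := by
    have : 0 ≤ Real.log (8 * X) := Real.log_nonneg (by
      have : (1 : ℝ) ≤ X := by exact_mod_cast hX
      linarith)
    linarith
  set B := ∑ n ∈ Icc 1 (8 * X), ‖g n‖ ^ 2 with hB
  have hB0 : 0 ≤ B := Finset.sum_nonneg (fun _ _ => by positivity)
  have hDmv : ∀ T : ℕ, 1 ≤ T → ∑ m ∈ Icc (-(T : ℤ)) T, G m ≤ (200 * D * B) * ((T : ℝ) + 8 * X) := by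
    intro T hT
    have h3 := h1 (8 * X) T (fun n => g n) (by omega) hT
    have h4 : ∑ m ∈ Icc (-(T : ℤ)) T, G m = ∑ m ∈ Icc (-(T : ℤ)) T, ‖∑ n ∈ Icc 1 (8 * X), g n * lp m n‖ ^ 2 := rfl
    rw [h4]
    refine le_trans h3 (le_of_eq ?_)
    push_cast
    ring
  -- bound of the partial sums
  have key : ∀ S : Finset ℤ, ∑ m ∈ S, ‖fourierCoeffOn hab F m‖ ^ 2 ≤
      (1 / 4) * ((2 * T0 * h0 / (X : ℝ) ^ 2) ^ 2 * ∑ m ∈ Icc (-(T0 : ℤ)) T0, G m +
    (2 / (X : ℝ)) ^ 2 * ∑ m ∈ (Icc (-(T1 : ℤ)) T1).filter (fun m : ℤ => (T0 : ℤ) < |m|), G m +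
    10000 * D * ((T1 : ℝ) + 3 * X) / (T1 * h) ^ 2 * B) := by
    intro S
    set P0 : ℝ := 2 * T0 * h0 / (X : ℝ) ^ 2 with hP0
    set P1 : ℝ := 2 / (X : ℝ) with hP1
    have hX2 : (0 : ℝ) < (X : ℝ) ^ 2 := by positivity
    have hMX2 : (X : ℝ) ^ 2 ≤ (M : ℝ) ^ 2 := pow_le_pow_left₀ hXR.le hMR 2
    have hterm : ∀ m : ℤ, ‖fourierCoeffOn hab F m‖ ^ 2 ≤ (1 / 16) * ((if m ∈ Icc (-(T0 : ℤ)) T0 then P0 ^ 2 * G m else 0) +
        (if m ∈ (Icc (-(T1 : ℤ)) T1).filter (fun m : ℤ => (T0 : ℤ) < |m|) then P1 ^ 2 * G m else 0) +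
        (if (T1 : ℤ) < |m| then 16 / (h : ℝ) ^ 2 * (G m / (m : ℝ) ^ 2) else 0)) := by
      intro m
      rw [hcoef m]
      apply mul_le_mul_of_nonneg_left _ (by norm_num)
      have q1 : 0 ≤ (if m ∈ Icc (-(T0 : ℤ)) T0 then P0 ^ 2 * G m else 0) := by
        split_ifs
        · exact mul_nonneg (by positivity) (hG0 m)
        · exact le_refl _
      have q2 : 0 ≤ (if m ∈ (Icc (-(T1 : ℤ)) T1).filter (fun m : ℤ => (T0 : ℤ) < |m|) then P1 ^ 2 * G m else 0) := by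
        split_ifs
        · exact mul_nonneg (by positivity) (hG0 m)
        · exact le_refl _
      have q3 : 0 ≤ (if (T1 : ℤ) < |m| then 16 / (h : ℝ) ^ 2 * (G m / (m : ℝ) ^ 2) else 0) := by
        split_ifs
        · exact mul_nonneg (by positivity) (div_nonneg (hG0 m) (by positivity))
        · exact le_refl _
      by_cases c0 : |m| ≤ (T0 : ℤ)
      · have c1 : m ∈ Icc (-(T0 : ℤ)) T0 := by
          rw [mem_Icc]
          exact abs_le.mp c0
        have c2 : ‖b m‖ ≤ P0 := by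
          refine le_trans (hb2 m) ?_
          have c3 : |(m : ℝ)| ≤ T0 := by exact_mod_cast c0
          rw [hP0]
          refine le_trans (div_le_div_of_nonneg_left (by positivity) hX2 hMX2) ?_
          apply div_le_div_of_nonneg_right _ hX2.le
          apply mul_le_mul_of_nonneg_right _ (Nat.cast_nonneg _)
          linarith
        have c4 : ‖b m‖ ^ 2 * G m ≤ P0 ^ 2 * G m :=
          mul_le_mul_of_nonneg_right (pow_le_pow_left₀ (norm_nonneg _) c2 2) (hG0 m)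
        rw [if_pos c1]
        linarith
      · by_cases c1 : |m| ≤ (T1 : ℤ)
        · have c2 : m ∈ (Icc (-(T1 : ℤ)) T1).filter (fun m : ℤ => (T0 : ℤ) < |m|) := by
            rw [mem_filter, mem_Icc]
            exact ⟨abs_le.mp c1, not_le.mp c0⟩
          have c3 : ‖b m‖ ≤ P1 := by
            refine le_trans (hb3 m) ?_
            rw [hP1]
            exact div_le_div_of_nonneg_left (by norm_num) hXR hMR
          have c4 : ‖b m‖ ^ 2 * G m ≤ P1 ^ 2 * G m :=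
            mul_le_mul_of_nonneg_right (pow_le_pow_left₀ (norm_nonneg _) c3 2) (hG0 m)
          rw [if_pos c2]
          linarith
        · have c2 : m ≠ 0 := by
            intro hm
            rw [hm] at c1
            simp at c1
          have c3 : (0 : ℝ) < |(m : ℝ)| := by
            rw [abs_pos]
            exact_mod_cast c2
          have c4 : ‖b m‖ ^ 2 ≤ (4 / (|(m : ℝ)| * h)) ^ 2 := pow_le_pow_left₀ (norm_nonneg _) (hb4 m c2) 2
          have c5 : (4 / (|(m : ℝ)| * h)) ^ 2 = 16 / ((m : ℝ) ^ 2 * (h : ℝ) ^ 2) := by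
            rw [div_pow, mul_pow, sq_abs]
            norm_num
          have c6 : ‖b m‖ ^ 2 * G m ≤ 16 / (h : ℝ) ^ 2 * (G m / (m : ℝ) ^ 2) := by
            refine le_trans (mul_le_mul_of_nonneg_right c4 (hG0 m)) (le_of_eq ?_)
            rw [c5]
            have c7 : (m : ℝ) ≠ 0 := by exact_mod_cast c2
            field_simp
          rw [if_pos (not_le.mp c1)]
          linarith
    -- the three sums
    have t1 : ∑ m ∈ S, (if m ∈ Icc (-(T0 : ℤ)) T0 then P0 ^ 2 * G m else 0) ≤ P0 ^ 2 * ∑ m ∈ Icc (-(T0 : ℤ)) T0, G m := by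
      rw [← Finset.sum_filter, Finset.mul_sum]
      apply Finset.sum_le_sum_of_subset_of_nonneg
      · intro m hm
        exact (mem_filter.mp hm).2
      · intro m _ _
        exact mul_nonneg (by positivity) (hG0 m)
    have t2 : ∑ m ∈ S, (if m ∈ (Icc (-(T1 : ℤ)) T1).filter (fun m : ℤ => (T0 : ℤ) < |m|) then P1 ^ 2 * G m else 0) ≤
        P1 ^ 2 * ∑ m ∈ (Icc (-(T1 : ℤ)) T1).filter (fun m : ℤ => (T0 : ℤ) < |m|), G m := by
      rw [← Finset.sum_filter, Finset.mul_sum]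
      apply Finset.sum_le_sum_of_subset_of_nonneg
      · intro m hm
        exact (mem_filter.mp hm).2
      · intro m _ _
        exact mul_nonneg (by positivity) (hG0 m)
    have t3 : ∑ m ∈ S, (if (T1 : ℤ) < |m| then 16 / (h : ℝ) ^ 2 * (G m / (m : ℝ) ^ 2) else 0) ≤
        16 / (h : ℝ) ^ 2 * ((200 * D * B) / (T1 : ℝ) ^ 2 * (4 * T1 + 32 / 3 * X)) := by
      rw [← Finset.sum_filter, ← Finset.mul_sum]
      apply mul_le_mul_of_nonneg_left _ (by positivity)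
      set K := S.sup Int.natAbs with hK
      have u1 := Vpc_dy G T1 (200 * D * B) X hG0 hT1 hDmv K
      have u2 : S.filter (fun m : ℤ => (T1 : ℤ) < |m|) ⊆
          (Icc (-((2 ^ K * T1 : ℕ) : ℤ)) ((2 ^ K * T1 : ℕ) : ℤ)).filter (fun m : ℤ => (T1 : ℤ) < |m|) := by
        intro m hm
        rw [mem_filter] at hm ⊢
        refine ⟨?_, hm.2⟩
        rw [mem_Icc]
        apply abs_le.mp
        have v1 : m.natAbs ≤ K := Finset.le_sup (f := Int.natAbs) hm.1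
        have v2 : K ≤ 2 ^ K := (Nat.lt_two_pow_self).le
        have v3 : 2 ^ K ≤ 2 ^ K * T1 := Nat.le_mul_of_pos_right _ hT1
        rw [Int.abs_eq_natAbs]
        exact_mod_cast le_trans v1 (le_trans v2 v3)
      refine le_trans (Finset.sum_le_sum_of_subset_of_nonneg u2
        (fun m _ _ => div_nonneg (hG0 m) (by positivity))) ?_
      refine le_trans u1 ?_
      apply mul_le_mul_of_nonneg_left _ (by positivity)
      have w1 : (0 : ℝ) ≤ (1 / 2) ^ K := by positivity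
      have w2 : (0 : ℝ) ≤ (1 / 4) ^ K := by positivity
      have w3 : 0 ≤ 4 * (T1 : ℝ) * (1 / 2) ^ K := by positivity
      have w4 : 0 ≤ 32 / 3 * (X : ℝ) * (1 / 4) ^ K := by positivity
      nlinarith [w3, w4]
    have t4 : ∑ m ∈ S, ‖fourierCoeffOn hab F m‖ ^ 2 ≤ (1 / 16) * (P0 ^ 2 * ∑ m ∈ Icc (-(T0 : ℤ)) T0, G m +
        P1 ^ 2 * ∑ m ∈ (Icc (-(T1 : ℤ)) T1).filter (fun m : ℤ => (T0 : ℤ) < |m|), G m +
        16 / (h : ℝ) ^ 2 * ((200 * D * B) / (T1 : ℝ) ^ 2 * (4 * T1 + 32 / 3 * X))) := by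
      refine le_trans (Finset.sum_le_sum (fun m _ => hterm m)) ?_
      rw [← Finset.mul_sum, Finset.sum_add_distrib, Finset.sum_add_distrib]
      apply mul_le_mul_of_nonneg_left _ (by norm_num)
      linarith
    have z1 : 0 ≤ P0 ^ 2 * ∑ m ∈ Icc (-(T0 : ℤ)) T0, G m :=
      mul_nonneg (by positivity) (Finset.sum_nonneg (fun m _ => hG0 m))
    have z2 : 0 ≤ P1 ^ 2 * ∑ m ∈ (Icc (-(T1 : ℤ)) T1).filter (fun m : ℤ => (T0 : ℤ) < |m|), G m :=
      mul_nonneg (by positivity) (Finset.sum_nonneg (fun m _ => hG0 m))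
    have z3 : 1 / 16 * (16 / (h : ℝ) ^ 2 * ((200 * D * B) / (T1 : ℝ) ^ 2 * (4 * T1 + 32 / 3 * X))) ≤
        1 / 4 * (10000 * D * ((T1 : ℝ) + 3 * X) / (T1 * h) ^ 2 * B) := by
      have e1 : 1 / 16 * (16 / (h : ℝ) ^ 2 * ((200 * D * B) / (T1 : ℝ) ^ 2 * (4 * T1 + 32 / 3 * X))) =
          (D * B / (T1 * h) ^ 2) * (200 * (4 * T1 + 32 / 3 * X)) := by
        field_simp
      have e2 : 1 / 4 * (10000 * D * ((T1 : ℝ) + 3 * X) / (T1 * h) ^ 2 * B) =
          (D * B / (T1 * h) ^ 2) * (2500 * (T1 + 3 * X)) := by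
        ring
      rw [e1, e2]
      apply mul_le_mul_of_nonneg_left _ (by positivity)
      linarith
    linarith
  have hsum := hP.summable
  have := hsum.tsum_le_of_sum_le key
  linarith

end Pool.Agent.Lib.TR
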