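import Pool.Agent.Lib.TR.SpecV

/-!
MP_00e23e_nt, directory Lib/TR, module Vsg: from the sum over n to integrals over y.
-/

set_option autoImplicit false

namespace Pool.Agent.Lib.TR

open Finset Pool.Agent.Lib.EH3 Pool.Agent.Results.MP_00e23e_nt

private noncomputable def Vsg_E (g : ℤ → ℂ) (J h : ℕ) (n : ℤ) : ℝ := ∑ j ∈ Icc (-(J : ℤ)) J, ‖g (n - h + j)‖

private theorem Vsg_E_nonneg (g : ℤ → ℂ) (J h : ℕ) (n : ℤ) : 0 ≤ Vsg_E g J h n :=
  sum_nonneg fun _ _ => norm_nonneg _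

private theorem Vsg_nat (F : ℤ → ℝ) (hF : ∀ m, 0 ≤ F m) (a b : ℕ) (h0 : ∀ m : ℤ, (m < a ∨ (b : ℤ) < m) → F m = 0)
    (A : Finset ℤ) : ∑ m ∈ A, F m ≤ ∑ m ∈ Icc a b, F (m : ℤ) := by
  classical
  have e1 : ∑ m ∈ Icc a b, F (m : ℤ) = ∑ m ∈ (Icc a b).map ⟨fun n : ℕ => (n : ℤ), Nat.cast_injective⟩, F m := by
    rw [sum_map]; rfl
  rw [e1, ← sum_filter_ne_zero A]
  refine sum_le_sum_of_subset_of_nonneg ?_ fun m _ _ => hF m
  intro m hm
  rw [mem_filter] at hm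
  have h2 : ¬ (m < a ∨ (b : ℤ) < m) := fun h => hm.2 (h0 m h)
  rw [mem_map]
  refine ⟨m.toNat, ?_, ?_⟩
  · rw [mem_Icc]; omega
  · show ((m.toNat : ℕ) : ℤ) = m
    omega

private theorem Vsg_shift (F : ℤ → ℝ) (hF : ∀ m, 0 ≤ F m) (a b : ℕ) (h0 : ∀ m : ℤ, (m < a ∨ (b : ℤ) < m) → F m = 0)
    (A : Finset ℤ) (c : ℤ) : ∑ n ∈ A, F (n + c) ≤ ∑ m ∈ Icc a b, F (m : ℤ) := by
  have e1 : ∑ n ∈ A, F (n + c) = ∑ m ∈ A.map (addRightEmbedding c), F m := by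
    rw [sum_map]; rfl
  rw [e1]
  exact Vsg_nat F hF a b h0 _

private theorem Vsg_E2 (g : ℤ → ℂ) (J h Y : ℕ) (h0 : ∀ m : ℤ, (m < 1 ∨ (Y : ℤ) < m) → g m = 0) (A : Finset ℤ) :
    ∑ n ∈ A, Vsg_E g J h n ^ 2 ≤ (2 * (J : ℝ) + 1) ^ 2 * ∑ m ∈ Icc 1 Y, ‖g (m : ℤ)‖ ^ 2 := by
  have hcard : ((Icc (-(J : ℤ)) J).card : ℝ) = 2 * (J : ℝ) + 1 := by
    rw [Int.card_Icc]
    have : ((J : ℤ) + 1 - -(J : ℤ)).toNat = 2 * J + 1 := by omega
    rw [this]; push_cast; ring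
  have hb : ∀ n ∈ A, Vsg_E g J h n ^ 2 ≤ (2 * (J : ℝ) + 1) * ∑ j ∈ Icc (-(J : ℤ)) J, ‖g (n + (j - h))‖ ^ 2 := by
    intro n _
    have h1 := sq_sum_le_card_mul_sum_sq (s := Icc (-(J : ℤ)) J) (f := fun j => ‖g (n - h + j)‖)
    rw [hcard] at h1
    unfold Vsg_E
    refine h1.trans (le_of_eq ?_)
    congr 1
    refine sum_congr rfl fun j _ => ?_
    rw [show n - (h : ℤ) + j = n + (j - h) by ring]
  refine (sum_le_sum hb).trans ?_
  rw [← mul_sum, sum_comm, pow_two, mul_assoc]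
  refine mul_le_mul_of_nonneg_left ?_ (by positivity)
  have h2 : ∀ j ∈ Icc (-(J : ℤ)) J, ∑ n ∈ A, ‖g (n + (j - h))‖ ^ 2 ≤ ∑ m ∈ Icc 1 Y, ‖g (m : ℤ)‖ ^ 2 := by
    intro j _
    refine Vsg_shift (fun m => ‖g m‖ ^ 2) (fun m => by positivity) 1 Y ?_ A (j - h)
    intro m hm
    have : g m = 0 := h0 m (by simpa using hm)
    simp [this]
  refine (sum_le_sum h2).trans ?_
  rw [sum_const, nsmul_eq_mul, hcard]

private theorem Vsg_meas (X' : ℕ) (g : ℤ → ℂ) (δ : ℝ) : Measurable (fun y => Wd X' g δ y) := by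
  unfold Wd
  simp only [sum_filter]
  refine Finset.measurable_sum _ fun m _ => ?_
  refine Measurable.ite ?_ measurable_const measurable_const
  exact (measurableSet_lt (measurable_id.sub_const δ) measurable_const).inter
    (measurableSet_le measurable_const measurable_id)

private theorem Vsg_bd (X' : ℕ) (g : ℤ → ℂ) (δ y : ℝ) : ‖Wd X' g δ y‖ ≤ ∑ m ∈ Icc 1 X', ‖g (m : ℤ)‖ := by
  unfold Wd
  refine (norm_sum_le _ _).trans ?_
  exact sum_le_sum_of_subset_of_nonneg (filter_subset _ _) fun _ _ _ => norm_nonneg _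

private theorem Vsg_int (X' M h h0 : ℕ) (g : ℤ → ℂ) (a b : ℝ) :
    IntervalIntegrable (fun y => ‖YY X' M h h0 g y‖ ^ 2) MeasureTheory.volume a b := by
  have hm : Measurable (fun y => ‖YY X' M h h0 g y‖ ^ 2) := by
    unfold YY
    exact (((measurable_const.mul (Vsg_meas X' g _)).sub (measurable_const.mul (Vsg_meas X' g _))).norm).pow_const 2
  rw [intervalIntegrable_iff]
  set S := ∑ m ∈ Icc 1 X', ‖g (m : ℤ)‖ with hS
  refine MeasureTheory.Measure.integrableOn_of_bounded (M := (‖(1 / (h : ℂ))‖ * S + ‖(1 / (h0 : ℂ))‖ * S) ^ 2) ?_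
    hm.aestronglyMeasurable (Filter.Eventually.of_forall fun y => ?_)
  · rw [Set.uIoc]; exact measure_Ioc_lt_top.ne
  · rw [Real.norm_eq_abs, abs_of_nonneg (by positivity)]
    refine pow_le_pow_left₀ (norm_nonneg _) ?_ 2
    unfold YY
    refine (norm_sub_le _ _).trans ?_
    rw [norm_mul, norm_mul]
    exact add_le_add (mul_le_mul_of_nonneg_left (Vsg_bd X' g _ y) (norm_nonneg _))
      (mul_le_mul_of_nonneg_left (Vsg_bd X' g _ y) (norm_nonneg _))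

private theorem Vsg_sq3 (x a b c : ℝ) (hx : 0 ≤ x) (h : x ≤ a + b + c) : x ^ 2 ≤ 3 * a ^ 2 + 3 * b ^ 2 + 3 * c ^ 2 := by
  have h1 : x ^ 2 ≤ (a + b + c) ^ 2 := pow_le_pow_left₀ hx h 2
  nlinarith [sq_nonneg (a - b), sq_nonneg (a - c), sq_nonneg (b - c)]

private theorem Vsg_cmp (h1 : VcmStmt) (g : ℤ → ℂ) (Y M h h0 n : ℕ) (lam y : ℝ)
    (hg : ∀ m : ℤ, (m < 1 ∨ (Y : ℤ) < m) → g m = 0) (hh : 1 ≤ h) (hh0 : h ≤ h0) (hM : 1 ≤ M) (hl : 0 < lam)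
    (hl1 : lam ≤ 1) (hMn : M ≤ n) (hn : (n : ℝ) ≤ M * (1 + lam)) (hh0M : (h0 : ℝ) ≤ lam * M / 4) (h4 : 4 ≤ lam * h)
    (hy : Real.log n ≤ y) (hy1 : y < Real.log ((n : ℝ) + 1)) :
    ‖kg h h0 g n‖ ≤ ‖YY Y M h h0 g y‖ + Vsg_E g ⌊2 * lam * h⌋₊ h n / h + Vsg_E g ⌊2 * lam * h0⌋₊ h0 n / h0 := by
  have hhr : (h : ℝ) ≤ h0 := by exact_mod_cast hh0
  have hpos : (0 : ℝ) < h := by exact_mod_cast (lt_of_lt_of_le Nat.zero_lt_one hh)
  have hpos0 : (0 : ℝ) < h0 := lt_of_lt_of_le hpos hhr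
  have c1 := h1 g Y M h n lam y hg hh hM hl hl1 hMn hn (hhr.trans hh0M) h4 hy hy1
  have c2 := h1 g Y M h0 n lam y hg (hh.trans hh0) hM hl hl1 hMn hn hh0M
    (h4.trans (mul_le_mul_of_nonneg_left hhr hl.le)) hy hy1
  set a := ∑ j ∈ range h, g ((n : ℤ) - (j : ℤ)) with ha
  set b := ∑ j ∈ range h0, g ((n : ℤ) - (j : ℤ)) with hb
  set u := Wd Y g ((h : ℝ) / (M : ℝ)) y with hu
  set v := Wd Y g ((h0 : ℝ) / (M : ℝ)) y with hv
  have e1 : kg h h0 g n = YY Y M h h0 g y + ((1 / (h : ℂ)) * (a - u) - (1 / (h0 : ℂ)) * (b - v)) := by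
    unfold kg YY
    rw [← ha, ← hb, ← hu, ← hv]
    ring
  have n1 : ‖(1 / (h : ℂ)) * (a - u)‖ ≤ Vsg_E g ⌊2 * lam * h⌋₊ h n / h := by
    rw [norm_mul, norm_div, norm_one, Complex.norm_natCast, one_div_mul_eq_div]
    exact div_le_div_of_nonneg_right c1 hpos.le
  have n2 : ‖(1 / (h0 : ℂ)) * (b - v)‖ ≤ Vsg_E g ⌊2 * lam * h0⌋₊ h0 n / h0 := by
    rw [norm_mul, norm_div, norm_one, Complex.norm_natCast, one_div_mul_eq_div]
    exact div_le_div_of_nonneg_right c2 hpos0.le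
  rw [e1]
  have t1 := norm_add_le (YY Y M h h0 g y) ((1 / (h : ℂ)) * (a - u) - (1 / (h0 : ℂ)) * (b - v))
  have t2 := norm_sub_le ((1 / (h : ℂ)) * (a - u)) ((1 / (h0 : ℂ)) * (b - v))
  linarith

private theorem Vsg_one (h1 : VcmStmt) (g : ℤ → ℂ) (X Y M h h0 n : ℕ) (lam : ℝ) (hX : 1 ≤ X) (hn9 : n ≤ 9 * X)
    (hg : ∀ m : ℤ, (m < 1 ∨ (Y : ℤ) < m) → g m = 0) (hh : 1 ≤ h) (hh0 : h ≤ h0) (hM : 1 ≤ M) (hl : 0 < lam)
    (hl1 : lam ≤ 1) (hMn : M ≤ n) (hn : (n : ℝ) ≤ M * (1 + lam)) (hh0M : (h0 : ℝ) ≤ lam * M / 4) (h4 : 4 ≤ lam * h) :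
    ‖kg h h0 g n‖ ^ 2 ≤ 30 * X * (∫ y in (Real.log n)..(Real.log ((n : ℝ) + 1)), ‖YY Y M h h0 g y‖ ^ 2) +
      3 * (Vsg_E g ⌊2 * lam * h⌋₊ h n / h) ^ 2 + 3 * (Vsg_E g ⌊2 * lam * h0⌋₊ h0 n / h0) ^ 2 := by
  set e := Vsg_E g ⌊2 * lam * h⌋₊ h n / h with he
  set e0 := Vsg_E g ⌊2 * lam * h0⌋₊ h0 n / h0 with he0
  set c := ‖kg h h0 g n‖ ^ 2 - 3 * e ^ 2 - 3 * e0 ^ 2 with hc
  have hn1 : (1 : ℝ) ≤ n := by exact_mod_cast hM.trans hMn
  have hX1 : (1 : ℝ) ≤ X := by exact_mod_cast hX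
  have hlog : Real.log n ≤ Real.log ((n : ℝ) + 1) := Real.log_le_log (by linarith) (by linarith)
  set I := ∫ y in (Real.log n)..(Real.log ((n : ℝ) + 1)), ‖YY Y M h h0 g y‖ ^ 2 with hI
  have hI0 : 0 ≤ I := intervalIntegral.integral_nonneg hlog fun y _ => by positivity
  have hle : (Real.log ((n : ℝ) + 1) - Real.log n) * c ≤ 3 * I := by
    have h2 : ∫ _y in (Real.log n)..(Real.log ((n : ℝ) + 1)), c ≤
        ∫ y in (Real.log n)..(Real.log ((n : ℝ) + 1)), 3 * ‖YY Y M h h0 g y‖ ^ 2 := by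
      refine intervalIntegral.integral_mono_on_of_le_Ioo hlog intervalIntegrable_const
        ((Vsg_int Y M h h0 g _ _).const_mul 3) fun y hy => ?_
      have h3 := Vsg_cmp h1 g Y M h h0 n lam y hg hh hh0 hM hl hl1 hMn hn hh0M h4 hy.1.le hy.2
      have h4 := Vsg_sq3 _ _ _ _ (norm_nonneg _) h3
      rw [hc]
      linarith
    rw [intervalIntegral.integral_const, intervalIntegral.integral_const_mul, smul_eq_mul] at h2
    exact h2
  have hlen : 1 / (10 * (X : ℝ)) ≤ Real.log ((n : ℝ) + 1) - Real.log n := by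
    have h2 : 1 - (((n : ℝ) + 1) / n)⁻¹ ≤ Real.log (((n : ℝ) + 1) / n) :=
      Real.one_sub_inv_le_log_of_pos (by positivity)
    rw [Real.log_div (by positivity) (by positivity), inv_div] at h2
    have h3 : 1 - (n : ℝ) / (n + 1) = 1 / ((n : ℝ) + 1) := by
      field_simp
      ring
    rw [h3] at h2
    have h5 : (n : ℝ) ≤ 9 * X := by exact_mod_cast hn9
    have h6 : 1 / (10 * (X : ℝ)) ≤ 1 / ((n : ℝ) + 1) := one_div_le_one_div_of_le (by linarith) (by linarith)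
    linarith
  have hfin : c ≤ 30 * X * I := by
    rcases le_or_gt c 0 with hc0 | hc0
    · exact hc0.trans (by positivity)
    · have h2 : 1 / (10 * (X : ℝ)) * c ≤ 3 * I := (mul_le_mul_of_nonneg_right hlen hc0.le).trans hle
      have h3 : (0 : ℝ) < 10 * X := by linarith
      rw [one_div_mul_eq_div, div_le_iff₀ h3] at h2
      linarith
  rw [hc] at hfin
  linarith

private theorem Vsg_sumint (f : ℝ → ℝ) (hf : ∀ y, 0 ≤ f y) (hi : ∀ a b, IntervalIntegrable f MeasureTheory.volume a b)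
    (X : ℕ) (hX : 1 ≤ X) : ∑ n ∈ Icc (X + 1) (9 * X), (∫ y in (Real.log n)..(Real.log ((n : ℝ) + 1)), f y) ≤
      ∫ y in (Real.log X)..(Real.log X + 4), f y := by
  have hX1 : (1 : ℝ) ≤ X := by exact_mod_cast hX
  have e0 : Icc (X + 1) (9 * X) = Ico (X + 1) (9 * X + 1) := by
    ext m; simp only [mem_Icc, mem_Ico]; omega
  have e1 := intervalIntegral.sum_integral_adjacent_intervals_Ico (f := f) (μ := MeasureTheory.volume)
    (a := fun k : ℕ => Real.log (k : ℝ)) (m := X + 1) (n := 9 * X + 1) (by omega) (fun k _ => hi _ _)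
  have e2 : ∑ n ∈ Ico (X + 1) (9 * X + 1), (∫ y in (Real.log n)..(Real.log ((n : ℝ) + 1)), f y) =
      ∑ k ∈ Ico (X + 1) (9 * X + 1), ∫ y in (Real.log (k : ℝ))..(Real.log ((k + 1 : ℕ) : ℝ)), f y := by
    refine sum_congr rfl fun k _ => ?_
    push_cast
    rfl
  rw [e0, e2, e1]
  refine intervalIntegral.integral_mono_interval ?_ ?_ ?_ (Filter.Eventually.of_forall hf) (hi _ _)
  · exact Real.log_le_log (by linarith) (by push_cast; linarith)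
  · exact Real.log_le_log (by push_cast; linarith) (by push_cast; linarith)
  · have h1 : Real.log ((9 * X + 1 : ℕ) : ℝ) ≤ Real.log (10 * X) :=
      Real.log_le_log (by push_cast; linarith) (by push_cast; linarith)
    have h2 : Real.log (10 * (X : ℝ)) = Real.log 10 + Real.log X := Real.log_mul (by norm_num) (by linarith)
    have h3 : Real.log 10 ≤ 4 := by
      have h4 : Real.log 10 ≤ Real.log 16 := Real.log_le_log (by norm_num) (by norm_num)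
      have h5 : Real.log 16 = 4 * Real.log 2 := by
        rw [show (16 : ℝ) = 2 ^ (4 : ℕ) by norm_num, Real.log_pow]; norm_num
      have h6 := Real.log_two_lt_d9
      linarith
    show Real.log ((9 * X + 1 : ℕ) : ℝ) ≤ Real.log X + 4
    linarith

private theorem Vsg_J (lam : ℝ) (h : ℕ) (S : ℝ) (hS : 0 ≤ S) (h1 : 1 ≤ h) (h4 : 4 ≤ lam * h) (T : ℝ)
    (hT : T ≤ (2 * (⌊2 * lam * h⌋₊ : ℝ) + 1) ^ 2 * S) : T / (h : ℝ) ^ 2 ≤ 25 * lam ^ 2 * S := by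
  have hpos : (0 : ℝ) < h := by exact_mod_cast (lt_of_lt_of_le Nat.zero_lt_one h1)
  have hJ : (⌊2 * lam * h⌋₊ : ℝ) ≤ 2 * lam * h := Nat.floor_le (by linarith)
  have h5 : 2 * (⌊2 * lam * h⌋₊ : ℝ) + 1 ≤ 5 * lam * h := by linarith
  have h6 : (2 * (⌊2 * lam * h⌋₊ : ℝ) + 1) ^ 2 ≤ (5 * lam * h) ^ 2 := pow_le_pow_left₀ (by positivity) h5 2
  rw [div_le_iff₀ (by positivity)]
  calc T ≤ (5 * lam * h) ^ 2 * S := hT.trans (mul_le_mul_of_nonneg_right h6 hS)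
    _ = 25 * lam ^ 2 * S * (h : ℝ) ^ 2 := by ring

/-- Module Vsg. -/
theorem tVsg (h1 : VcmStmt) : VsgStmt := by
  intro g X h h0 N' lam hX hg hh hh0 hl hl1 hh0X h4
  have hX1 : (1 : ℝ) ≤ X := by exact_mod_cast hX
  have hhr : (h : ℝ) ≤ h0 := by exact_mod_cast hh0
  have hpos : (0 : ℝ) < h := by exact_mod_cast (lt_of_lt_of_le Nat.zero_lt_one hh)
  have hpos0 : (0 : ℝ) < h0 := lt_of_lt_of_le hpos hhr
  have hg' : ∀ m : ℤ, (m < 1 ∨ ((8 * X : ℕ) : ℤ) < m) → g m = 0 := fun m hm =>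
    hg m (hm.imp (fun h => by have : (1 : ℤ) ≤ X := by exact_mod_cast hX
                              omega) id)
  set s := ⌊lam * X / 2⌋₊ with hs
  have hlh : lam * h ≤ lam * h0 := mul_le_mul_of_nonneg_left hhr hl.le
  have hlh0 : lam * (h0 : ℝ) ≤ h0 := by nlinarith
  have hlX : 16 ≤ lam * X := by linarith
  have hs1 : lam * X / 2 - 1 < s := Nat.sub_one_lt_floor _
  have hs2 : (s : ℝ) ≤ lam * X / 2 := Nat.floor_le (by linarith)
  have hs4 : lam * X / 4 ≤ s := by linarith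
  have hspos : (0 : ℝ) < s := by linarith
  have hsN : 0 < s := by exact_mod_cast hspos
  set K := ⌈40 / lam⌉₊ with hK
  have hK1 : 40 / lam ≤ K := Nat.le_ceil _
  have hKs : 10 * (X : ℝ) ≤ K * s := by
    have h2 : 40 / lam * (lam * X / 4) ≤ K * s :=
      mul_le_mul hK1 hs4 (by positivity) (by positivity)
    have h3 : 40 / lam * (lam * X / 4) = 10 * X := by field_simp; ring
    linarith
  set S := ∑ m ∈ Icc 1 (8 * X), ‖g (m : ℤ)‖ ^ 2 with hS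
  have hS0 : 0 ≤ S := sum_nonneg fun _ _ => by positivity
  -- the zeros of kg
  have hz : ∀ n : ℤ, (n < ((X + 1 : ℕ) : ℤ) ∨ ((9 * X : ℕ) : ℤ) < n) → ‖kg h h0 g n‖ ^ 2 = 0 := by
    intro n hn
    have hh0X' : (h0 : ℝ) ≤ X := by nlinarith
    have hh0N : h0 ≤ X := by exact_mod_cast hh0X'
    have h2 : ∀ j : ℕ, j < h0 → g (n - j) = 0 := by
      intro j hj
      refine hg _ ?_
      rcases hn with hn | hn
      · left; push_cast at hn; omega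
      · right; push_cast at hn ⊢; omega
    have h3 : kg h h0 g n = 0 := by
      unfold kg
      rw [sum_eq_zero (fun j hj => h2 j ((mem_range.1 hj).trans_le hh0)),
        sum_eq_zero (fun j hj => h2 j (mem_range.1 hj))]
      ring
    rw [h3]; simp
  have hA := Vsg_nat (fun n => ‖kg h h0 g n‖ ^ 2) (fun n => by positivity) (X + 1) (9 * X) hz (Icc (1 : ℤ) N')
  refine hA.trans ?_
  -- the main step
  have hB : ∀ n ∈ Icc (X + 1) (9 * X), ‖kg h h0 g ((n : ℕ) : ℤ)‖ ^ 2 ≤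
      30 * X * (∑ k ∈ range K, ∫ y in (Real.log n)..(Real.log ((n : ℝ) + 1)), ‖YY (8 * X) (X + k * s) h h0 g y‖ ^ 2) +
      3 * (Vsg_E g ⌊2 * lam * h⌋₊ h n ^ 2 / (h : ℝ) ^ 2) + 3 * (Vsg_E g ⌊2 * lam * h0⌋₊ h0 n ^ 2 / (h0 : ℝ) ^ 2) := by
    intro n hn
    rw [mem_Icc] at hn
    obtain ⟨k, hk1, hk2⟩ : ∃ k, X + k * s ≤ n ∧ n < X + k * s + s := by
      refine ⟨(n - X) / s, ?_, ?_⟩
      · have := Nat.div_mul_le_self (n - X) s
        omega
      · have := Nat.lt_div_mul_add (a := n - X) hsN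
        omega
    have hnr : (n : ℝ) ≤ 9 * X := by exact_mod_cast hn.2
    have hkr1 : (X : ℝ) + k * s ≤ n := by exact_mod_cast hk1
    have hkr2 : (n : ℝ) < X + k * s + s := by exact_mod_cast hk2
    have hkK : k < K := by
      have h2 : (k : ℝ) * s < K * s := by linarith
      exact_mod_cast lt_of_mul_lt_mul_right h2 hspos.le
    have hks0 : (0 : ℝ) ≤ k * s := by positivity
    have h3 := Vsg_one h1 g X (8 * X) (X + k * s) h h0 n lam hX hn.2 hg' hh hh0 (by omega) hl hl1 hk1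
      (by push_cast; nlinarith) (by push_cast; nlinarith) h4
    have h5 : (∫ y in (Real.log n)..(Real.log ((n : ℝ) + 1)), ‖YY (8 * X) (X + k * s) h h0 g y‖ ^ 2) ≤
        ∑ k ∈ range K, ∫ y in (Real.log n)..(Real.log ((n : ℝ) + 1)), ‖YY (8 * X) (X + k * s) h h0 g y‖ ^ 2 := by
      refine single_le_sum (f := fun k => ∫ y in (Real.log n)..(Real.log ((n : ℝ) + 1)),
        ‖YY (8 * X) (X + k * s) h h0 g y‖ ^ 2) (fun k _ => ?_) (mem_range.2 hkK)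
      refine intervalIntegral.integral_nonneg ?_ fun y _ => by positivity
      exact Real.log_le_log (by linarith) (by linarith)
    have h6 := mul_le_mul_of_nonneg_left h5 (by positivity : (0 : ℝ) ≤ 30 * X)
    rw [div_pow, div_pow] at h3
    linarith
  refine (sum_le_sum hB).trans ?_
  rw [sum_add_distrib, sum_add_distrib, ← mul_sum, ← mul_sum, ← mul_sum, sum_comm, ← sum_div, ← sum_div]
  have hC : ∑ k ∈ range K, ∑ n ∈ Icc (X + 1) (9 * X),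
      (∫ y in (Real.log n)..(Real.log ((n : ℝ) + 1)), ‖YY (8 * X) (X + k * s) h h0 g y‖ ^ 2) ≤
      ∑ k ∈ range K, ∫ y in (Real.log X)..(Real.log X + 4), ‖YY (8 * X) (X + k * s) h h0 g y‖ ^ 2 :=
    sum_le_sum fun k _ => Vsg_sumint _ (fun y => by positivity) (fun a b => Vsg_int _ _ _ _ _ a b) X hX
  have hI0 : 0 ≤ ∑ k ∈ range K, ∫ y in (Real.log X)..(Real.log X + 4), ‖YY (8 * X) (X + k * s) h h0 g y‖ ^ 2 :=
    sum_nonneg fun k _ => intervalIntegral.integral_nonneg (by linarith) fun y _ => by positivity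
  have hE : ∀ (J h : ℕ), ∑ n ∈ Icc (X + 1) (9 * X), Vsg_E g J h ((n : ℕ) : ℤ) ^ 2 ≤ (2 * (J : ℝ) + 1) ^ 2 * S := by
    intro J h
    have e1 : ∑ n ∈ Icc (X + 1) (9 * X), Vsg_E g J h ((n : ℕ) : ℤ) ^ 2 =
        ∑ n ∈ (Icc (X + 1) (9 * X)).map ⟨fun n : ℕ => (n : ℤ), Nat.cast_injective⟩, Vsg_E g J h n ^ 2 := by
      rw [sum_map]; rfl
    rw [e1]
    exact Vsg_E2 g J h (8 * X) hg' _
  have hE1 := Vsg_J lam h S hS0 hh h4 _ (hE ⌊2 * lam * h⌋₊ h)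
  have hE2 := Vsg_J lam h0 S hS0 (hh.trans hh0) (h4.trans hlh) _ (hE ⌊2 * lam * h0⌋₊ h0)
  have hC' := mul_le_mul_of_nonneg_left hC (by positivity : (0 : ℝ) ≤ 30 * X)
  have hI' : 30 * (X : ℝ) * (∑ k ∈ range K, ∫ y in (Real.log X)..(Real.log X + 4),
      ‖YY (8 * X) (X + k * s) h h0 g y‖ ^ 2) ≤ 100 * X * (∑ k ∈ range K, ∫ y in (Real.log X)..(Real.log X + 4),
      ‖YY (8 * X) (X + k * s) h h0 g y‖ ^ 2) := mul_le_mul_of_nonneg_right (by linarith) hI0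
  have hl2 : 0 ≤ lam ^ 2 * S := by positivity
  linarith

end Pool.Agent.Lib.TR
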