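import Pool.Agent.Lib.UI.AllF
import Pool.Agent.Lib.SG.All
import Pool.Agent.Lib.BV.All
import Pool.Agent.Lib.CO.Tau
import Pool.Agent.Lib.TR.SpecF
import Pool.Agent.Lib.TR.SpecK
import Pool.Agent.Lib.TR.SpecV
import Pool.Agent.Lib.TR.Ncl
import Pool.Agent.Lib.TR.Nnm
import Pool.Agent.Lib.TR.Nnu
import Pool.Agent.Lib.TR.Nab
import Pool.Agent.Lib.TR.Nap
import Pool.Agent.Lib.TR.Nsw
import Pool.Agent.Lib.TR.Nsz
import Pool.Agent.Lib.TR.Bph
import Pool.Agent.Lib.TR.Bpr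
import Pool.Agent.Lib.TR.Bnu
import Pool.Agent.Lib.TR.Bsv
import Pool.Agent.Lib.TR.Bwt
import Pool.Agent.Lib.TR.Bco
import Pool.Agent.Lib.TR.Bsm
import Pool.Agent.Lib.TR.Bad
import Pool.Agent.Lib.TR.Btr
import Pool.Agent.Lib.TR.Ram
import Pool.Agent.Lib.TR.Rbi
import Pool.Agent.Lib.TR.Rtr
import Pool.Agent.Lib.TR.Ran
import Pool.Agent.Lib.TR.Rer
import Pool.Agent.Lib.TR.Red
import Pool.Agent.Lib.TR.Mct
import Pool.Agent.Lib.TR.Msh
import Pool.Agent.Lib.TR.Mcs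
import Pool.Agent.Lib.TR.Mfo
import Pool.Agent.Lib.TR.Mkl
import Pool.Agent.Lib.TR.Mks
import Pool.Agent.Lib.TR.Mmm
import Pool.Agent.Lib.TR.Msu
import Pool.Agent.Lib.TR.Dmv
import Pool.Agent.Lib.TR.Dfa
import Pool.Agent.Lib.TR.Dex
import Pool.Agent.Lib.TR.Dpw
import Pool.Agent.Lib.TR.Dty
import Pool.Agent.Lib.TR.Dmn
import Pool.Agent.Lib.TR.Vcm
import Pool.Agent.Lib.TR.Vsg
import Pool.Agent.Lib.TR.Vco
import Pool.Agent.Lib.TR.Vpc
import Pool.Agent.Lib.TR.Var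
import Pool.Agent.Lib.TR.Klg
import Pool.Agent.Lib.TR.Kmc
import Pool.Agent.Lib.TR.Kdu
import Pool.Agent.Lib.TR.Kcl
import Pool.Agent.Lib.TR.Kmb
import Pool.Agent.Lib.TR.Kca
import Pool.Agent.Lib.TR.Kma
import Pool.Agent.Lib.TR.Kpa
import Pool.Agent.Lib.TR.Kna
import Pool.Agent.Lib.TR.Knb
import Pool.Agent.Lib.TR.Knc
import Pool.Agent.Lib.TR.Key
import Pool.Agent.Lib.TR.Fks
import Pool.Agent.Lib.TR.Fko
import Pool.Agent.Lib.TR.Fpo
import Pool.Agent.Lib.TR.Frf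
import Pool.Agent.Lib.TR.Fgd
import Pool.Agent.Lib.TR.Fgr
import Pool.Agent.Lib.TR.Fid
import Pool.Agent.Lib.TR.Fbs
import Pool.Agent.Lib.TR.Fct

/-!
MP_00e23e_nt, THEOREMS T and T++: assembly of the chapters N, B, R, M, D, V, K and of chapter F without Fbk, Fmi, Fin (see All.lean and AllQ.lean).
-/

set_option autoImplicit false

namespace Pool.Agent.Lib.TR

/-! ### Chapter N -/

theorem aNcl : NclStmt :=
  tNcl Pool.Agent.Lib.BV.aBnf Pool.Agent.Lib.BV.aHly Pool.Agent.Lib.BV.aPbs Pool.Agent.Lib.BV.aMns Pool.Agent.Lib.BV.aClf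
theorem aNnm : NnmStmt := tNnm Pool.Agent.Lib.SG.uVbd Pool.Agent.Lib.BV.aMpr
theorem aNnu : NnuStmt := tNnu aNcl aNnm
theorem aNab : NabStmt := tNab Pool.Agent.Lib.UI.aMinc
theorem aNap : NapStmt := tNap aNnu aNab
theorem aNsw : NswStmt := tNsw aNnu aNab Pool.Agent.Lib.KF.aBvy
theorem aNsz : NszStmt := tNsz aNnm Pool.Agent.Lib.UI.aMinc

/-! ### Chapter B -/

theorem aBph : BphStmt := tBph Pool.Agent.Lib.BV.aTot
theorem aBpr : BprStmt := tBpr Pool.Agent.Lib.BV.aUb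
theorem aBnu : BnuStmt := tBnu Pool.Agent.Lib.BV.aUb aNnm
theorem aBsv : BsvStmt := tBsv Pool.Agent.Lib.SG.uVbd Pool.Agent.Lib.BV.aMpr
theorem aBwt : BwtStmt := tBwt aBsv Pool.Agent.Lib.BV.aTot
theorem aBco : BcoStmt := tBco
theorem aBsm : BsmStmt := tBsm
theorem aBad : BadStmt := tBad aNsz aBpr aBnu aBwt aBco aBsm
theorem aBtr : BtrStmt := tBtr Pool.Agent.Lib.BV.aUb aBph

/-! ### Chapter R -/

theorem aRam : RamStmt := tRam
theorem aRbi : RbiStmt := tRbi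
theorem aRtr : RtrStmt := tRtr aRbi
theorem aRan : RanStmt := tRan aNnm
theorem aRer : RerStmt := tRer aRan
theorem aRed : RedStmt := tRed aRam aRtr

/-! ### Chapter M -/

theorem aMct : MctStmt := tMct
theorem aMsh : MshStmt := tMsh aMct
theorem aMcs : McsStmt := tMcs aMct aMsh
theorem aMfo : MfoStmt := tMfo
theorem aMkl : MklStmt := tMkl
theorem aMks : MksStmt := tMks
theorem aMmm : MmmStmt := tMmm
theorem aMsu : MsuStmt := tMsu aMkl aMks aMmm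

/-! ### Chapter D -/

theorem aDmv : DmvStmt := tDmv
theorem aDfa : DfaStmt := tDfa Pool.Agent.Lib.CO.tTau
theorem aDex : DexStmt := tDex aDmv
theorem aDpw : DpwStmt :=
  tDpw Pool.Agent.Lib.UI.tZk
    (Pool.Agent.Lib.UI.tZp (Pool.Agent.Lib.UI.tZa Pool.Agent.Lib.UI.tZb) (Pool.Agent.Lib.UI.tZi Pool.Agent.Lib.UI.tZv)
      Pool.Agent.Lib.UI.tZl) Pool.Agent.Lib.UI.tZrc
theorem aDty : DtyStmt := tDty aDmv aDfa
theorem aDmn : DmnStmt := tDmn aDfa aDex aDpw aDty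

/-! ### Chapter V -/

theorem aVcm : VcmStmt := tVcm
theorem aVsg : VsgStmt := tVsg aVcm
theorem aVco : VcoStmt := tVco
theorem aVpc : VpcStmt := tVpc aDmv aVco
theorem aVar : VarStmt := tVar aDfa aDmn aVsg aVpc

/-! ### Chapter K -/

theorem aKlg : KlgStmt := tKlg
theorem aKmc : KmcStmt := tKmc Pool.Agent.Lib.CO.tTau
theorem aKdu : KduStmt := tKdu
theorem aKcl : KclStmt := tKcl
theorem aKmb : KmbStmt := tKmb aKdu aKcl
theorem aKca : KcaStmt := tKca aDfa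
theorem aKma : KmaStmt := tKma aKca aMcs aMfo aMmm
theorem aKpa : KpaStmt := tKpa
theorem aKna : KnaStmt := tKna
theorem aKnb : KnbStmt := tKnb
theorem aKnc : KncStmt := tKnc
theorem aKey : KeyStmt := tKey aVar aMsu aKlg aKmc aKmb aKma aKpa aKna aKnb aKnc

/-! ### Chapter F -/

theorem aFks : FksStmt := tFks aRtr
theorem aFko : FkoStmt := tFko aKey aFks
theorem aFpo : FpoStmt := tFpo aFko aRed aRer
theorem aFrf : FrfStmt := tFrf
theorem aFgd : FgdStmt := tFgd aFpo aFrf aNsw aNsz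
theorem aFgr : FgrStmt := tFgr
theorem aFid : FidStmt := tFid
theorem aFbs : FbsStmt := tFbs aFgr aFid
theorem aFct : FctStmt := tFct

end Pool.Agent.Lib.TR
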