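import Pool.Agent.Lib.TR.SpecQ

/-!
MP_00e23e_nt, directory Lib/TR, module Bpt (architect helper9): the bad integers u, pointwise in the modulus d and the class a.
-/

set_option autoImplicit false

namespace Pool.Agent.Lib.TR

open Finset Pool.Agent.Lib.EH3 Pool.Agent.Results.MP_00e23e_nt

open Classical in
/-- Bsu: the sieve for the bad integers u without prime factor of a + w u which is at most z -/
def BsuStmt : Prop := ∃ (C L0 : ℝ) (E : ℕ), 0 < C ∧ 1 ≤ E ∧ ∀ (z P0 P1 U d : ℕ) (a w : ℤ), 2 ≤ z → 2 ≤ P0 → P0 ≤ P1 → L0 ≤ P0 →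
  w.natAbs = d → 1 ≤ d → Int.gcd a d = 1 → a ≠ 0 → 4 * Real.log a.natAbs ≤ P0 →
    (((Ioc 0 U).filter (fun u : ℕ => ¬ Good P0 P1 u ∧
      ∀ p : ℕ, p.Prime → p ≤ z → ¬ (p : ℤ) ∣ a + w * u)).card : ℝ) ≤
      C * (U * ((d : ℝ) / (d.totient : ℝ)) * (Real.log P0 / Real.log P1) / Real.log z) + ((max z P1 : ℕ) : ℝ) ^ E

private theorem Bpt_root (p : ℕ) (a w : ℤ) (hp : p.Prime) (hw : ¬ (p : ℤ) ∣ w) :
    ∃ r ∈ range p, (p : ℤ) ∣ a + w * r := by
  have hc : IsCoprime (w : ℤ) (p : ℤ) := by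
    rw [Int.isCoprime_iff_gcd_eq_one, Int.gcd_comm]
    exact (Int.isCoprime_iff_gcd_eq_one.1 ((Nat.prime_iff_prime_int.1 hp).coprime_iff_not_dvd.2 hw))
  obtain ⟨u, v, huv⟩ := hc
  have hp0 : (0 : ℤ) < p := by exact_mod_cast hp.pos
  refine ⟨((-a * u) % (p : ℤ)).toNat, ?_, ?_⟩
  · rw [mem_range]
    have h1 := Int.emod_nonneg (-a * u) hp0.ne'
    have h2 := Int.emod_lt_of_pos (-a * u) hp0
    omega
  · have h1 := Int.emod_nonneg (-a * u) hp0.ne'
    rw [Int.toNat_of_nonneg h1]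
    have h2 : (-a * u) % (p : ℤ) = -a * u - p * (-a * u / p) := by
      rw [Int.emod_def]
    rw [h2]
    refine ⟨a * v - w * (-a * u / p), ?_⟩
    have h3 : u * w = 1 - v * p := by linarith
    calc a + w * (-a * u - p * (-a * u / p)) = a - a * (u * w) - w * p * (-a * u / p) := by ring
      _ = a - a * (1 - v * p) - w * p * (-a * u / p) := by rw [h3]
      _ = p * (a * v - w * (-a * u / p)) := by ring

private theorem Bpt_uniq (p : ℕ) (a w : ℤ) (hp : p.Prime) (hw : ¬ (p : ℤ) ∣ w) (r s : ℕ)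
    (hr : r < p) (hs : s < p) (h1 : (p : ℤ) ∣ a + w * r) (h2 : (p : ℤ) ∣ a + w * s) : r = s := by
  have h3 : (p : ℤ) ∣ w * ((r : ℤ) - s) := by
    have := dvd_sub h1 h2
    have e : a + w * r - (a + w * s) = w * ((r : ℤ) - s) := by ring
    rwa [e] at this
  have h4 : (p : ℤ) ∣ (r : ℤ) - s := ((Nat.prime_iff_prime_int.1 hp).dvd_or_dvd h3).resolve_left hw
  obtain ⟨k, hk⟩ := h4
  have hp0 : (0 : ℤ) < p := by exact_mod_cast hp.pos
  have hr' : (r : ℤ) < p := by exact_mod_cast hr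
  have hs' : (s : ℤ) < p := by exact_mod_cast hs
  have hr0 : (0 : ℤ) ≤ r := Int.natCast_nonneg _
  have hs0 : (0 : ℤ) ≤ s := Int.natCast_nonneg _
  have hk0 : k = 0 := by
    by_contra hne
    rcases lt_or_gt_of_ne hne with h | h
    · have : (p : ℤ) * k ≤ p * (-1) := mul_le_mul_of_nonneg_left (by omega) hp0.le
      linarith
    · have : (p : ℤ) * 1 ≤ p * k := mul_le_mul_of_nonneg_left (by omega) hp0.le
      linarith
  rw [hk0] at hk
  omega

/-- the removed residues -/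
private noncomputable def Bpt_R (z P0 P1 : ℕ) (a w : ℤ) (p : ℕ) : Finset ℕ :=
  open Classical in (range p).filter (fun c => (p ≤ z ∧ ¬ (p : ℤ) ∣ w ∧ (p : ℤ) ∣ a + w * c) ∨
    (P0 < p ∧ p ≤ P1 ∧ c = 0))

private theorem Bpt_Rle (z P0 P1 : ℕ) (a w : ℤ) (p : ℕ) (hp : p.Prime) :
    (Bpt_R z P0 P1 a w p).card ≤ 2 := by
  classical
  by_cases h : ∃ r ∈ range p, p ≤ z ∧ ¬ (p : ℤ) ∣ w ∧ (p : ℤ) ∣ a + w * r
  · obtain ⟨r, hr, h1, h2, h3⟩ := h
    refine (card_le_card (?_ : _ ⊆ ({r, 0} : Finset ℕ))).trans card_le_two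
    intro c hc
    unfold Bpt_R at hc
    rw [mem_filter] at hc
    rw [mem_insert, mem_singleton]
    rcases hc.2 with h4 | h4
    · left
      exact Bpt_uniq p a w hp h2 c r (mem_range.1 hc.1) (mem_range.1 hr) h4.2.2 h3
    · right
      exact h4.2.2
  · refine (card_le_card (?_ : _ ⊆ ({0} : Finset ℕ))).trans (by rw [card_singleton]; norm_num)
    intro c hc
    unfold Bpt_R at hc
    rw [mem_filter] at hc
    rw [mem_singleton]
    rcases hc.2 with h4 | h4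
    · exact absurd ⟨c, hc.1, h4⟩ h
    · exact h4.2.2

private theorem Bpt_fac (z P0 P1 : ℕ) (a w : ℤ) (p : ℕ) (hp : p.Prime) :
    1 - ((Bpt_R z P0 P1 a w p).card : ℝ) / p ≤
      (if p ≤ z ∧ ¬ (p : ℤ) ∣ w then 1 - 1 / (p : ℝ) else 1) *
      (if P0 < p ∧ p ≤ P1 ∧ ¬ (p : ℤ) ∣ a then 1 - 1 / (p : ℝ) else 1) := by
  classical
  have hp0 : (0 : ℝ) < p := by exact_mod_cast hp.pos
  have hinv : 0 ≤ 1 / (p : ℝ) := by positivity
  by_cases hA : p ≤ z ∧ ¬ (p : ℤ) ∣ w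
  · obtain ⟨r, hr, hr2⟩ := Bpt_root p a w hp hA.2
    have hrR : r ∈ Bpt_R z P0 P1 a w p := by
      unfold Bpt_R
      rw [mem_filter]
      exact ⟨hr, Or.inl ⟨hA.1, hA.2, hr2⟩⟩
    rw [if_pos hA]
    by_cases hB : P0 < p ∧ p ≤ P1 ∧ ¬ (p : ℤ) ∣ a
    · rw [if_pos hB]
      have h0R : 0 ∈ Bpt_R z P0 P1 a w p := by
        unfold Bpt_R
        rw [mem_filter, mem_range]
        exact ⟨hp.pos, Or.inr ⟨hB.1, hB.2.1, rfl⟩⟩
      have hne : r ≠ 0 := by
        rintro rfl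
        apply hB.2.2
        simpa using hr2
      have hc : 2 ≤ (Bpt_R z P0 P1 a w p).card := by
        have : ({r, 0} : Finset ℕ) ⊆ Bpt_R z P0 P1 a w p := by
          intro c hc
          rw [mem_insert, mem_singleton] at hc
          rcases hc with rfl | rfl
          · exact hrR
          · exact h0R
        calc 2 = ({r, 0} : Finset ℕ).card := (card_pair hne).symm
          _ ≤ _ := card_le_card this
      have hc' : (2 : ℝ) ≤ ((Bpt_R z P0 P1 a w p).card : ℝ) := by exact_mod_cast hc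
      have h5 : 2 * (1 / (p : ℝ)) ≤ ((Bpt_R z P0 P1 a w p).card : ℝ) / p := by
        rw [div_eq_mul_one_div ((Bpt_R z P0 P1 a w p).card : ℝ) (p : ℝ)]
        exact mul_le_mul_of_nonneg_right hc' hinv
      nlinarith
    · rw [if_neg hB, mul_one]
      have hc : 1 ≤ (Bpt_R z P0 P1 a w p).card := card_pos.2 ⟨r, hrR⟩
      have hc' : (1 : ℝ) ≤ ((Bpt_R z P0 P1 a w p).card : ℝ) := by exact_mod_cast hc
      have h5 : 1 / (p : ℝ) ≤ ((Bpt_R z P0 P1 a w p).card : ℝ) / p :=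
        div_le_div_of_nonneg_right hc' hp0.le
      linarith
  · rw [if_neg hA, one_mul]
    by_cases hB : P0 < p ∧ p ≤ P1 ∧ ¬ (p : ℤ) ∣ a
    · rw [if_pos hB]
      have h0R : 0 ∈ Bpt_R z P0 P1 a w p := by
        unfold Bpt_R
        rw [mem_filter, mem_range]
        exact ⟨hp.pos, Or.inr ⟨hB.1, hB.2.1, rfl⟩⟩
      have hc : 1 ≤ (Bpt_R z P0 P1 a w p).card := card_pos.2 ⟨0, h0R⟩
      have hc' : (1 : ℝ) ≤ ((Bpt_R z P0 P1 a w p).card : ℝ) := by exact_mod_cast hc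
      have h5 : 1 / (p : ℝ) ≤ ((Bpt_R z P0 P1 a w p).card : ℝ) / p :=
        div_le_div_of_nonneg_right hc' hp0.le
      linarith
    · rw [if_neg hB]
      have : 0 ≤ ((Bpt_R z P0 P1 a w p).card : ℝ) / p := by positivity
      linarith

/-- a product over a smaller set of factors in (0, 1] -/
private theorem Bpt_sub (S T : Finset ℕ) (hST : S ⊆ T) (hT : ∀ p ∈ T, 2 ≤ p) :
    ∏ p ∈ T, (1 - 1 / (p : ℝ)) ≤ ∏ p ∈ S, (1 - 1 / (p : ℝ)) := by
  classical
  rw [← Finset.prod_sdiff hST]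
  have h1 : ∏ p ∈ T \ S, (1 - 1 / (p : ℝ)) ≤ 1 := by
    refine Finset.prod_le_one (fun p hp => ?_) (fun p hp => ?_)
    · have := hT p (mem_sdiff.1 hp).1
      have h2 : (2 : ℝ) ≤ p := by exact_mod_cast this
      have : 1 / (p : ℝ) ≤ 1 := by
        rw [div_le_one (by linarith)]
        linarith
      linarith
    · have : 0 ≤ 1 / (p : ℝ) := by positivity
      linarith
  have h2 : 0 ≤ ∏ p ∈ S, (1 - 1 / (p : ℝ)) := by
    refine Finset.prod_nonneg (fun p hp => ?_)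
    have := hT p (hST hp)
    have h2 : (2 : ℝ) ≤ p := by exact_mod_cast this
    have : 1 / (p : ℝ) ≤ 1 := by
      rw [div_le_one (by linarith)]
      linarith
    linarith
  calc _ ≤ 1 * ∏ p ∈ S, (1 - 1 / (p : ℝ)) := mul_le_mul_of_nonneg_right h1 h2
    _ = _ := one_mul _

private theorem Bpt_pos (S : Finset ℕ) (hS : ∀ p ∈ S, 2 ≤ p) :
    0 < ∏ p ∈ S, (1 - 1 / (p : ℝ)) := by
  refine Finset.prod_pos (fun p hp => ?_)
  have h2 : (2 : ℝ) ≤ p := by exact_mod_cast hS p hp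
  have : 1 / (p : ℝ) < 1 := by
    rw [div_lt_one (by linarith)]
    linarith
  linarith

private theorem Bpt_ber (S : Finset ℕ) (t : ℕ → ℝ) (h : ∀ p ∈ S, 0 ≤ t p ∧ t p ≤ 1) :
    1 - ∑ p ∈ S, t p ≤ ∏ p ∈ S, (1 - t p) := by
  classical
  induction S using Finset.induction_on with
  | empty => simp
  | insert a S ha ih =>
    rw [sum_insert ha, prod_insert ha]
    have h1 := ih (fun p hp => h p (mem_insert_of_mem hp))
    obtain ⟨h2, h3⟩ := h a (mem_insert_self a S)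
    have h4 : ∏ p ∈ S, (1 - t p) ≤ 1 :=
      prod_le_one (fun p hp => by linarith [(h p (mem_insert_of_mem hp)).2])
        (fun p hp => by linarith [(h p (mem_insert_of_mem hp)).1])
    have h5 : 0 ≤ ∏ p ∈ S, (1 - t p) :=
      prod_nonneg (fun p hp => by linarith [(h p (mem_insert_of_mem hp)).2])
    nlinarith

theorem tBsu (h1 : Pool.Agent.Lib.SG.GsvStmt) (h2 : Pool.Agent.Lib.SG.VbdStmt)
    (h3 : Pool.Agent.Lib.BV.MprStmt) : BsuStmt := by
  classical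
  obtain ⟨C1, ps, E, hC1, hps, hE, hG⟩ := h1
  obtain ⟨c2, C2, hc2, hC2, hV⟩ := h2
  obtain ⟨c3, hc3d⟩ : ∃ c3, c3 = ∏ p ∈ (Icc 1 ps).filter Nat.Prime, (1 - 1 / (p : ℝ)) := ⟨_, rfl⟩
  have hc3 : 0 < c3 := by
    rw [hc3d]
    exact Bpt_pos _ (fun p hp => (mem_filter.1 hp).2.two_le)
  refine ⟨C1 * (1 / c3 * (2 * C2)), ps, E, by positivity, hE, ?_⟩
  intro z P0 P1 U d a w hz hP0 hP01 hL0 hwd hd hgcd ha0 hla
  have hdw : ∀ p : ℕ, (p : ℤ) ∣ w ↔ p ∣ d := by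
    intro p
    rw [← hwd, Int.natCast_dvd]
  obtain ⟨y, hy⟩ : ∃ y, y = max z P1 := ⟨_, rfl⟩
  rw [← hy]
  obtain ⟨T, hT⟩ : ∃ T, T = (Ioc ps y).filter Nat.Prime := ⟨_, rfl⟩
  have hTm : ∀ p ∈ T, p.Prime ∧ ps < p ∧ p ≤ y := by
    intro p hp
    rw [hT, mem_filter, mem_Ioc] at hp
    exact ⟨hp.2, hp.1.1, hp.1.2⟩
  have hL0' : ps ≤ P0 := by exact_mod_cast hL0
  -- the sieve
  have hs := hG y T (Bpt_R z P0 P1 a w) 0 U (Nat.zero_le _) (fun p hp => by
    obtain ⟨k1, k2, k3⟩ := hTm p hp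
    refine ⟨k1, k2, k3, ?_, ?_⟩
    · unfold Bpt_R
      exact filter_subset _ _
    · exact (Bpt_Rle z P0 P1 a w p k1).trans (by norm_num))
  have hsub : (((Ioc 0 U).filter (fun u : ℕ => ¬ Good P0 P1 u ∧
      ∀ p : ℕ, p.Prime → p ≤ z → ¬ (p : ℤ) ∣ a + w * u)).card : ℝ) ≤
      (((Ioc 0 U).filter (fun n => ∀ p ∈ T, n % p ∉ Bpt_R z P0 P1 a w p)).card : ℝ) := by
    refine Nat.cast_le.2 (card_le_card ?_)
    intro u hu
    rw [mem_filter] at hu ⊢
    obtain ⟨hu1, hu2, hu3⟩ := hu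
    refine ⟨hu1, fun p hp hR => ?_⟩
    obtain ⟨k1, k2, k3⟩ := hTm p hp
    unfold Bpt_R at hR
    rw [mem_filter] at hR
    rcases hR.2 with h | h
    · apply hu3 p k1 h.1
      have e : a + w * (u : ℤ) = (a + w * ((u % p : ℕ) : ℤ)) + p * (w * ((u / p : ℕ) : ℤ)) := by
        have : (u : ℤ) = ((u % p : ℕ) : ℤ) + p * ((u / p : ℕ) : ℤ) := by
          exact_mod_cast (Nat.mod_add_div u p).symm
        conv_lhs => rw [this]
        ring
      rw [e]
      exact dvd_add h.2.2 (dvd_mul_right _ _)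
    · apply hu2
      refine ⟨p, ?_, Nat.dvd_of_mod_eq_zero h.2.2⟩
      unfold PS
      rw [mem_filter, mem_Ioc]
      exact ⟨⟨h.1, h.2.1⟩, k1⟩
  -- the product
  have hp1 : ∏ p ∈ T, (1 - ((Bpt_R z P0 P1 a w p).card : ℝ) / p) ≤
      ∏ p ∈ T, ((if p ≤ z ∧ ¬ (p : ℤ) ∣ w then 1 - 1 / (p : ℝ) else 1) *
      (if P0 < p ∧ p ≤ P1 ∧ ¬ (p : ℤ) ∣ a then 1 - 1 / (p : ℝ) else 1)) := by
    refine prod_le_prod (fun p hp => ?_) (fun p hp => Bpt_fac z P0 P1 a w p (hTm p hp).1)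
    obtain ⟨k1, k2, k3⟩ := hTm p hp
    have h4 : ((Bpt_R z P0 P1 a w p).card : ℝ) ≤ 2 := by
      exact_mod_cast Bpt_Rle z P0 P1 a w p k1
    have h5 : (2 : ℝ) ≤ p := by exact_mod_cast k1.two_le
    have : ((Bpt_R z P0 P1 a w p).card : ℝ) / p ≤ 1 := by
      rw [div_le_one (by linarith)]
      linarith
    linarith
  rw [prod_mul_distrib, ← prod_filter, ← prod_filter] at hp1
  -- first factor
  have hF : ∏ p ∈ T.filter (fun p => p ≤ z ∧ ¬ (p : ℤ) ∣ w), (1 - 1 / (p : ℝ)) ≤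
      1 / c3 * (((d : ℝ) / (d.totient : ℝ)) / Real.log z) := by
    have hM := h3 z d hz hd
    have e1 : ((Icc 1 z).filter (fun p => p.Prime ∧ ¬ p ∣ d)).filter (fun p => ¬ p ≤ ps) =
        T.filter (fun p => p ≤ z ∧ ¬ (p : ℤ) ∣ w) := by
      ext p
      simp only [mem_filter, mem_Icc, hT, mem_Ioc, hdw, not_le]
      constructor
      · rintro ⟨⟨⟨h1, h2⟩, h3, h4⟩, h5⟩
        exact ⟨⟨⟨h5, h2.trans (by rw [hy]; exact le_max_left _ _)⟩, h3⟩, h2, h4⟩
      · rintro ⟨⟨⟨h1, h2⟩, h3⟩, h4, h5⟩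
        exact ⟨⟨⟨h3.one_le, h4⟩, h3, h5⟩, h1⟩
    have e2 : ((Icc 1 z).filter (fun p => p.Prime ∧ ¬ p ∣ d)).filter (fun p => p ≤ ps) ⊆
        (Icc 1 ps).filter Nat.Prime := by
      intro p hp
      simp only [mem_filter, mem_Icc] at hp ⊢
      exact ⟨⟨hp.1.1.1, hp.2⟩, hp.1.2.1⟩
    have e3 := Bpt_sub _ _ e2 (fun p hp => (mem_filter.1 hp).2.two_le)
    rw [← hc3d] at e3
    have e4 := Finset.prod_filter_mul_prod_filter_not
      ((Icc 1 z).filter (fun p => p.Prime ∧ ¬ p ∣ d)) (fun p => p ≤ ps)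
      (fun p => (1 - 1 / (p : ℝ)))
    rw [e1] at e4
    have e5 : 0 < ∏ p ∈ T.filter (fun p => p ≤ z ∧ ¬ (p : ℤ) ∣ w), (1 - 1 / (p : ℝ)) :=
      Bpt_pos _ (fun p hp => (hTm p (mem_filter.1 hp).1).1.two_le)
    rw [one_div_mul_eq_div, le_div_iff₀ hc3]
    refine le_trans ?_ hM
    rw [← e4, mul_comm]
    exact mul_le_mul_of_nonneg_right e3 e5.le
  -- second factor
  have hF2 : ∏ p ∈ T.filter (fun p => P0 < p ∧ p ≤ P1 ∧ ¬ (p : ℤ) ∣ a), (1 - 1 / (p : ℝ)) ≤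
      2 * C2 * (Real.log P0 / Real.log P1) := by
    have hVV := (hV P0 P1 hP0 hP01).2
    unfold Pool.Agent.Lib.SG.VV at hVV
    have e1 : ((Ioc P0 P1).filter Nat.Prime).filter (fun p : ℕ => ¬ (p : ℤ) ∣ a) =
        T.filter (fun p => P0 < p ∧ p ≤ P1 ∧ ¬ (p : ℤ) ∣ a) := by
      ext p
      simp only [mem_filter, hT, mem_Ioc]
      constructor
      · rintro ⟨⟨⟨h1, h2⟩, h3⟩, h4⟩
        exact ⟨⟨⟨by omega, h2.trans (by rw [hy]; exact le_max_right _ _)⟩, h3⟩, h1, h2, h4⟩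
      · rintro ⟨⟨⟨h1, h2⟩, h3⟩, h4, h5, h6⟩
        exact ⟨⟨⟨h4, h5⟩, h3⟩, h6⟩
    have e4 := Finset.prod_filter_mul_prod_filter_not
      ((Ioc P0 P1).filter Nat.Prime) (fun p : ℕ => (p : ℤ) ∣ a) (fun p : ℕ => (1 - 1 / (p : ℝ)))
    rw [e1] at e4
    have e5 : 0 < ∏ p ∈ T.filter (fun p => P0 < p ∧ p ≤ P1 ∧ ¬ (p : ℤ) ∣ a), (1 - 1 / (p : ℝ)) :=
      Bpt_pos _ (fun p hp => (hTm p (mem_filter.1 hp).1).1.two_le)
    have hP0r : (2 : ℝ) ≤ P0 := by exact_mod_cast hP0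
    have e6 : 1 / 2 ≤ ∏ p ∈ ((Ioc P0 P1).filter Nat.Prime).filter (fun p : ℕ => (p : ℤ) ∣ a),
        (1 - 1 / (p : ℝ)) := by
      have hmem : ∀ p ∈ ((Ioc P0 P1).filter Nat.Prime).filter (fun p : ℕ => (p : ℤ) ∣ a),
          p.Prime ∧ (P0 : ℝ) ≤ p ∧ p ∣ a.natAbs := by
        intro p hp
        simp only [mem_filter, mem_Ioc] at hp
        refine ⟨hp.1.2, by exact_mod_cast hp.1.1.1.le, ?_⟩
        exact Int.natCast_dvd.1 hp.2
      refine le_trans ?_ (Bpt_ber _ _ (fun p hp => ?_))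
      · have f1 : ∑ p ∈ ((Ioc P0 P1).filter Nat.Prime).filter (fun p : ℕ => (p : ℤ) ∣ a),
            1 / (p : ℝ) ≤ (((Ioc P0 P1).filter Nat.Prime).filter (fun p : ℕ => (p : ℤ) ∣ a)).card *
              (1 / (P0 : ℝ)) := by
          rw [← nsmul_eq_mul]
          refine sum_le_card_nsmul _ _ _ (fun p hp => ?_)
          exact one_div_le_one_div_of_le (by linarith) (hmem p hp).2.1
        have f2 : ((((Ioc P0 P1).filter Nat.Prime).filter (fun p : ℕ => (p : ℤ) ∣ a)).card : ℝ) ≤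
            2 * Real.log a.natAbs := by
          refine le_trans ?_ (Pool.Agent.Lib.EH.card_primeFactors_le (Int.natAbs_pos.2 ha0))
          refine Nat.cast_le.2 (card_le_card ?_)
          intro p hp
          exact Nat.mem_primeFactors.2 ⟨(hmem p hp).1, (hmem p hp).2.2, Int.natAbs_ne_zero.2 ha0⟩
        have f3 : ((((Ioc P0 P1).filter Nat.Prime).filter (fun p : ℕ => (p : ℤ) ∣ a)).card : ℝ) *
            (1 / (P0 : ℝ)) ≤ 1 / 2 := by
          rw [mul_one_div, div_le_iff₀ (by linarith)]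
          linarith
        linarith
      · obtain ⟨k1, k2, k3⟩ := hmem p hp
        have : (2 : ℝ) ≤ p := by linarith
        refine ⟨by positivity, ?_⟩
        rw [div_le_one (by linarith)]
        linarith
    have e7 : 1 / 2 * ∏ p ∈ T.filter (fun p => P0 < p ∧ p ≤ P1 ∧ ¬ (p : ℤ) ∣ a),
        (1 - 1 / (p : ℝ)) ≤ C2 * (Real.log P0 / Real.log P1) := by
      refine le_trans (mul_le_mul_of_nonneg_right e6 e5.le) ?_
      rw [e4]
      exact hVV
    linarith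
  have hF0 : 0 ≤ ∏ p ∈ T.filter (fun p => p ≤ z ∧ ¬ (p : ℤ) ∣ w), (1 - 1 / (p : ℝ)) :=
    (Bpt_pos _ (fun p hp => (hTm p (mem_filter.1 hp).1).1.two_le)).le
  have hF20 : 0 ≤ ∏ p ∈ T.filter (fun p => P0 < p ∧ p ≤ P1 ∧ ¬ (p : ℤ) ∣ a), (1 - 1 / (p : ℝ)) :=
    (Bpt_pos _ (fun p hp => (hTm p (mem_filter.1 hp).1).1.two_le)).le
  have hlz : 0 < Real.log z := Real.log_pos (by exact_mod_cast (by omega : 1 < z))
  have hprod : ∏ p ∈ T, (1 - ((Bpt_R z P0 P1 a w p).card : ℝ) / p) ≤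
      1 / c3 * (((d : ℝ) / (d.totient : ℝ)) / Real.log z) *
        (2 * C2 * (Real.log P0 / Real.log P1)) :=
    hp1.trans (mul_le_mul hF hF2 hF20 (by positivity))
  refine hsub.trans (hs.trans ?_)
  have hU : (0 : ℝ) ≤ (U : ℝ) - ((0 : ℕ) : ℝ) := by simp
  have := mul_le_mul_of_nonneg_left (mul_le_mul_of_nonneg_left hprod hU) (by linarith : 0 ≤ C1)
  have e : C1 * (((U : ℝ) - ((0 : ℕ) : ℝ)) * (1 / c3 * (((d : ℝ) / (d.totient : ℝ)) / Real.log z) *
        (2 * C2 * (Real.log P0 / Real.log P1)))) =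
      C1 * (1 / c3 * (2 * C2)) * (U * ((d : ℝ) / (d.totient : ℝ)) *
        (Real.log P0 / Real.log P1) / Real.log z) := by
    push_cast
    ring
  linarith

private theorem Bpt_split (U : ℕ) (P : ℕ → Prop) [DecidablePred P] (g : ℤ → ℝ) :
    ∑ u ∈ (Icc (-(U : ℤ)) U).filter (fun u => u ≠ 0 ∧ P u.natAbs), g u =
      ∑ m ∈ (Ioc 0 U).filter P, g (m : ℤ) + ∑ m ∈ (Ioc 0 U).filter P, g (-(m : ℤ)) := by
  classical
  have h1 : (Icc (-(U : ℤ)) U).filter (fun u => u ≠ 0 ∧ P u.natAbs) =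
      ((Ioc 0 U).filter P).image (fun m : ℕ => (m : ℤ)) ∪
        ((Ioc 0 U).filter P).image (fun m : ℕ => -(m : ℤ)) := by
    ext u
    simp only [mem_filter, mem_Icc, mem_union, mem_image, mem_Ioc]
    constructor
    · rintro ⟨⟨k1, k2⟩, k3, k4⟩
      rcases lt_or_gt_of_ne k3 with k | k
      · right
        exact ⟨u.natAbs, ⟨⟨by omega, by omega⟩, k4⟩, by omega⟩
      · left
        exact ⟨u.natAbs, ⟨⟨by omega, by omega⟩, k4⟩, by omega⟩
    · rintro (⟨m, ⟨⟨k1, k2⟩, k3⟩, rfl⟩ | ⟨m, ⟨⟨k1, k2⟩, k3⟩, rfl⟩)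
      · refine ⟨⟨by omega, by omega⟩, by omega, ?_⟩
        rwa [Int.natAbs_natCast]
      · refine ⟨⟨by omega, by omega⟩, by omega, ?_⟩
        rwa [Int.natAbs_neg, Int.natAbs_natCast]
  have h2 : Disjoint (((Ioc 0 U).filter P).image (fun m : ℕ => (m : ℤ)))
      (((Ioc 0 U).filter P).image (fun m : ℕ => -(m : ℤ))) := by
    rw [Finset.disjoint_left]
    intro u hu hv
    simp only [mem_image, mem_filter, mem_Ioc] at hu hv
    obtain ⟨m, ⟨⟨k1, k2⟩, k3⟩, k4⟩ := hu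
    obtain ⟨m', ⟨⟨k1', k2'⟩, k3'⟩, k4'⟩ := hv
    omega
  rw [h1, sum_union h2, sum_image (fun a _ b _ h => by simpa using h),
    sum_image (fun a _ b _ h => by simpa using h)]

/-- pointwise bound (as in Bad.lean) -/
private theorem Bpt_pt (C : ℝ) (hC : 1 ≤ C)
    (hA : ∀ (z : ℕ) (n : ℤ), 2 ≤ z → 0 ≤ nu z n ∧ nu z n ≤ C * Real.log z ∧
      |ff z n| ≤ 1 + 2 * C * Real.log z)
    (hB : ∀ (z : ℕ) (n : ℤ), 2 ≤ z → |ff z n| ≤ (if 1 ≤ n ∧ n.toNat.Prime then 1 else 0) +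
      Pool.Agent.Lib.UI.lci n * nu z n)
    (hN : ∀ (z : ℕ) (n : ℤ), n < 1 → ff z n = 0)
    (hD : ∀ (x : ℝ) (n : ℤ), 100 ≤ x → Real.sqrt x ≤ n →
      Pool.Agent.Lib.UI.lci n ≤ 3 / Real.log x)
    (z : ℕ) (x : ℝ) (n : ℤ) (hz : 2 ≤ z) (hx : 100 ≤ x) :
    |fc z ⌊x⌋ n| ≤ (if 1 ≤ n ∧ n.toNat.Prime then (1 : ℝ) else 0) + 3 / Real.log x * nu z n +
      (1 + 2 * C * Real.log z) * (if 1 ≤ n ∧ (n : ℝ) ≤ Real.sqrt x then (1 : ℝ) else 0) := by
  have hnu := (hA z n hz).1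
  have hlx : 0 ≤ 3 / Real.log x := div_nonneg (by norm_num) (Real.log_nonneg (by linarith))
  have hlz : 0 ≤ Real.log z := Real.log_nonneg (by exact_mod_cast (by omega : 1 ≤ z))
  have hc : 0 ≤ 1 + 2 * C * Real.log z := by positivity
  have h1 : (0 : ℝ) ≤ if 1 ≤ n ∧ n.toNat.Prime then (1 : ℝ) else 0 := by
    split_ifs
    · norm_num
    · exact le_refl _
  have h2 : (0 : ℝ) ≤ 3 / Real.log x * nu z n := mul_nonneg hlx hnu
  have h3 : (0 : ℝ) ≤ (1 + 2 * C * Real.log z) *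
      (if 1 ≤ n ∧ (n : ℝ) ≤ Real.sqrt x then (1 : ℝ) else 0) := by
    refine mul_nonneg hc ?_
    split_ifs
    · norm_num
    · exact le_refl _
  by_cases hn1 : n < 1
  · have : fc z ⌊x⌋ n = 0 := by
      unfold fc
      rw [hN z n hn1, ite_self]
    rw [this, abs_zero]
    positivity
  · push Not at hn1
    by_cases hnx : n ≤ ⌊x⌋
    · have h4 : fc z ⌊x⌋ n = ff z n := by
        unfold fc
        rw [if_pos hnx]
      rw [h4]
      by_cases hns : (n : ℝ) ≤ Real.sqrt x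
      · rw [if_pos (show 1 ≤ n ∧ (n : ℝ) ≤ Real.sqrt x from ⟨hn1, hns⟩), mul_one]
        have := (hA z n hz).2.2
        linarith
      · push Not at hns
        have h5 := hB z n hz
        have h6 := mul_le_mul_of_nonneg_right (hD x n hx hns.le) hnu
        linarith
    · have : fc z ⌊x⌋ n = 0 := by
        unfold fc
        rw [if_neg hnx]
      rw [this, abs_zero]
      positivity

/-- the number of small values -/
private theorem Bpt_small (d : ℕ) (hd : 1 ≤ d) (a w : ℤ) (hw : w.natAbs = d) (S : Finset ℕ) (Y : ℝ)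
    (hY : 0 ≤ Y) :
    ((S.filter (fun m : ℕ => 1 ≤ a + w * m ∧ ((a + w * m : ℤ) : ℝ) ≤ Y)).card : ℝ) ≤ Y / d + 1 := by
  classical
  have hdr : (0 : ℝ) < d := by exact_mod_cast hd
  obtain ⟨V, hV⟩ : ∃ V, V = S.filter (fun m : ℕ => 1 ≤ a + w * m ∧ ((a + w * m : ℤ) : ℝ) ≤ Y) :=
    ⟨_, rfl⟩
  rw [← hV]
  rcases V.eq_empty_or_nonempty with h | h
  · rw [h, card_empty]
    have : 0 ≤ Y / d := by positivity
    push_cast
    linarith
  · have h1 := V.min'_mem h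
    have h2 := V.max'_mem h
    obtain ⟨m1, hm1⟩ : ∃ m, m = V.min' h := ⟨_, rfl⟩
    obtain ⟨m2, hm2⟩ : ∃ m, m = V.max' h := ⟨_, rfl⟩
    rw [← hm1] at h1
    rw [← hm2] at h2
    have h12 : m1 ≤ m2 := by
      rw [hm1]
      exact V.min'_le m2 h2
    have hsub : V ⊆ Icc m1 m2 := by
      intro m hm
      rw [mem_Icc, hm1, hm2]
      exact ⟨V.min'_le m hm, V.le_max' m hm⟩
    have hcard : (V.card : ℝ) ≤ (m2 : ℝ) - m1 + 1 := by
      have := card_le_card hsub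
      rw [Nat.card_Icc] at this
      have h3 : V.card + m1 ≤ m2 + 1 := by omega
      have h4 : (V.card : ℝ) + m1 ≤ m2 + 1 := by exact_mod_cast h3
      linarith
    rw [hV, mem_filter] at h1 h2
    obtain ⟨-, a1, a2⟩ := h1
    obtain ⟨-, b1, b2⟩ := h2
    have a1' : (1 : ℝ) ≤ ((a + w * m1 : ℤ) : ℝ) := by exact_mod_cast a1
    have b1' : (1 : ℝ) ≤ ((a + w * m2 : ℤ) : ℝ) := by exact_mod_cast b1
    have hwd : |(w : ℝ)| = d := by
      rw [← Int.cast_abs, Int.abs_eq_natAbs, hw, Int.cast_natCast]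
    have hdiff : (d : ℝ) * ((m2 : ℝ) - m1) ≤ Y := by
      have e : (w : ℝ) * ((m2 : ℝ) - m1) = ((a + w * m2 : ℤ) : ℝ) - ((a + w * m1 : ℤ) : ℝ) := by
        push_cast
        ring
      have hnn : (0 : ℝ) ≤ (m2 : ℝ) - m1 := by
        have : (m1 : ℝ) ≤ m2 := by exact_mod_cast h12
        linarith
      calc (d : ℝ) * ((m2 : ℝ) - m1) = |(w : ℝ) * ((m2 : ℝ) - m1)| := by
            rw [abs_mul, hwd, abs_of_nonneg hnn]
        _ ≤ Y := by
            rw [e, abs_le]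
            constructor <;> linarith
    have : (m2 : ℝ) - m1 ≤ Y / d := by
      rw [le_div_iff₀ hdr]
      linarith
    linarith

/-- one sign -/
private theorem Bpt_one (C1 C2 r k S1 S2 : ℝ) (z y' U d : ℕ) (E1 E2 : ℝ) (P : ℕ → Prop) [DecidablePred P]
    (a w : ℤ) (x : ℝ) (hr : 0 ≤ r) (hk : 0 ≤ k) (hd : 1 ≤ d) (hw : w.natAbs = d)
    (hnr : 0 < nrm z) (hn1 : 1 / nrm z ≤ C2)
    (hpt : ∀ n : ℤ, |fc z ⌊x⌋ n| ≤ (if 1 ≤ n ∧ n.toNat.Prime then (1 : ℝ) else 0) +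
      r * nu z n + k * (if 1 ≤ n ∧ (n : ℝ) ≤ Real.sqrt x then (1 : ℝ) else 0))
    (hS1 : ∀ S : Finset ℕ, (∀ m ∈ S, 0 < m ∧ m ≤ U ∧ P m ∧
      ∀ p : ℕ, p.Prime → p ≤ y' → ¬ (p : ℤ) ∣ a + w * m) → (S.card : ℝ) ≤ E1)
    (hS2 : ∀ S : Finset ℕ, (∀ m ∈ S, 0 < m ∧ m ≤ U ∧ P m ∧
      ∀ p : ℕ, p.Prime → p ≤ z → ¬ (p : ℤ) ∣ a + w * m) → (S.card : ℝ) ≤ E2) :
    ∑ m ∈ (Ioc 0 U).filter P, |fc z ⌊x⌋ (a + w * m)| ≤
      E1 + (y' + 1) + r * (C2 * E2) + k * (Real.sqrt x / d + 1) := by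
  classical
  have hdr : (1 : ℝ) ≤ d := by exact_mod_cast hd
  have g1 : ∑ m ∈ (Ioc 0 U).filter P,
      (if 1 ≤ a + w * (m : ℤ) ∧ (a + w * (m : ℤ)).toNat.Prime then (1 : ℝ) else 0) ≤
      E1 + (y' + 1) := by
    rw [← sum_filter, sum_const, nsmul_eq_mul, mul_one]
    have hsub : ((Ioc 0 U).filter P).filter
        (fun m : ℕ => 1 ≤ a + w * (m : ℤ) ∧ (a + w * (m : ℤ)).toNat.Prime) ⊆
        ((Ioc 0 U).filter P).filter
          (fun m : ℕ => ∀ p : ℕ, p.Prime → p ≤ y' → ¬ (p : ℤ) ∣ a + w * m) ∪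
        ((Ioc 0 U).filter P).filter
          (fun m : ℕ => 1 ≤ a + w * m ∧ ((a + w * m : ℤ) : ℝ) ≤ (y' : ℝ)) := by
      intro m hm
      rw [mem_filter] at hm
      obtain ⟨hm1, hm2, hm3⟩ := hm
      rw [mem_union]
      by_cases h : ((a + w * m : ℤ) : ℝ) ≤ (y' : ℝ)
      · exact Or.inr (mem_filter.2 ⟨hm1, hm2, h⟩)
      · refine Or.inl (mem_filter.2 ⟨hm1, fun p hp hpy hdvd => ?_⟩)
        have h2 : (y' : ℤ) < a + w * m := by
          have : (y' : ℝ) < ((a + w * m : ℤ) : ℝ) := lt_of_not_ge h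
          exact_mod_cast this
        have h3 : p ∣ (a + w * (m : ℤ)).toNat := by
          have : ((a + w * (m : ℤ)).toNat : ℤ) = a + w * m := Int.toNat_of_nonneg (by omega)
          exact Int.natCast_dvd_natCast.1 (by rw [this]; exact hdvd)
        have h4 := (Nat.prime_dvd_prime_iff_eq hp hm3).1 h3
        omega
    have h1 := hS1 (((Ioc 0 U).filter P).filter
      (fun m : ℕ => ∀ p : ℕ, p.Prime → p ≤ y' → ¬ (p : ℤ) ∣ a + w * m)) (fun m hm => by
        rw [mem_filter, mem_filter, mem_Ioc] at hm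
        exact ⟨hm.1.1.1, hm.1.1.2, hm.1.2, hm.2⟩)
    have h2 := Bpt_small d hd a w hw ((Ioc 0 U).filter P) (y' : ℝ) (Nat.cast_nonneg _)
    have h3 : (y' : ℝ) / d ≤ y' := div_le_self (Nat.cast_nonneg _) hdr
    have h4 : ((((Ioc 0 U).filter P).filter
        (fun m : ℕ => 1 ≤ a + w * (m : ℤ) ∧ (a + w * (m : ℤ)).toNat.Prime)).card : ℝ) ≤
        ((((Ioc 0 U).filter P).filter
          (fun m : ℕ => ∀ p : ℕ, p.Prime → p ≤ y' → ¬ (p : ℤ) ∣ a + w * m)).card : ℝ) +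
        ((((Ioc 0 U).filter P).filter
          (fun m : ℕ => 1 ≤ a + w * m ∧ ((a + w * m : ℤ) : ℝ) ≤ (y' : ℝ))).card : ℝ) := by
      exact_mod_cast (card_le_card hsub).trans (card_union_le _ _)
    linarith
  have g2 : ∑ m ∈ (Ioc 0 U).filter P, nu z (a + w * (m : ℤ)) ≤ C2 * E2 := by
    have h1 : ∀ m ∈ (Ioc 0 U).filter P, nu z (a + w * (m : ℤ)) ≤
        (if ∀ p : ℕ, p.Prime → p ≤ z → ¬ (p : ℤ) ∣ a + w * m then 1 / nrm z else 0) := by
      intro m hm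
      have hnn : (0 : ℝ) ≤ if ∀ p : ℕ, p.Prime → p ≤ z → ¬ (p : ℤ) ∣ a + w * m then 1 / nrm z
          else 0 := by
        split_ifs
        · positivity
        · exact le_refl _
      unfold nu
      split_ifs with k1 k2
      · unfold Pool.Agent.Lib.BV.rr
        split_ifs
        · exact le_refl _
        · rw [zero_div]
          positivity
      · unfold Pool.Agent.Lib.BV.rr
        rw [if_neg, zero_div]
        intro hR
        apply k2
        intro p hp hpz hdvd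
        have h3 : p ∣ (a + w * (m : ℤ)).toNat := by
          have : ((a + w * (m : ℤ)).toNat : ℤ) = a + w * m := Int.toNat_of_nonneg (by omega)
          exact Int.natCast_dvd_natCast.1 (by rw [this]; exact hdvd)
        have := hR p hp h3
        omega
      · positivity
      · exact le_refl _
    refine (sum_le_sum h1).trans ?_
    rw [← sum_filter, sum_const, nsmul_eq_mul]
    have h2 := hS2 (((Ioc 0 U).filter P).filter
      (fun m : ℕ => ∀ p : ℕ, p.Prime → p ≤ z → ¬ (p : ℤ) ∣ a + w * m)) (fun m hm => by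
        rw [mem_filter, mem_filter, mem_Ioc] at hm
        exact ⟨hm.1.1.1, hm.1.1.2, hm.1.2, hm.2⟩)
    have h3 : 0 ≤ 1 / nrm z := by positivity
    rw [mul_comm]
    exact mul_le_mul hn1 h2 (Nat.cast_nonneg _) (h3.trans hn1)
  have g3 : ∑ m ∈ (Ioc 0 U).filter P, (if 1 ≤ a + w * (m : ℤ) ∧
      ((a + w * (m : ℤ) : ℤ) : ℝ) ≤ Real.sqrt x then (1 : ℝ) else 0) ≤ Real.sqrt x / d + 1 := by
    rw [← sum_filter, sum_const, nsmul_eq_mul, mul_one]
    exact Bpt_small d hd a w hw _ _ (Real.sqrt_nonneg _)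
  calc ∑ m ∈ (Ioc 0 U).filter P, |fc z ⌊x⌋ (a + w * m)|
      ≤ ∑ m ∈ (Ioc 0 U).filter P,
        ((if 1 ≤ a + w * (m : ℤ) ∧ (a + w * (m : ℤ)).toNat.Prime then (1 : ℝ) else 0) +
          r * nu z (a + w * (m : ℤ)) + k * (if 1 ≤ a + w * (m : ℤ) ∧
            ((a + w * (m : ℤ) : ℤ) : ℝ) ≤ Real.sqrt x then (1 : ℝ) else 0)) :=
        sum_le_sum fun m _ => hpt _
    _ = ∑ m ∈ (Ioc 0 U).filter P,
        (if 1 ≤ a + w * (m : ℤ) ∧ (a + w * (m : ℤ)).toNat.Prime then (1 : ℝ) else 0) +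
        r * ∑ m ∈ (Ioc 0 U).filter P, nu z (a + w * (m : ℤ)) +
        k * ∑ m ∈ (Ioc 0 U).filter P, (if 1 ≤ a + w * (m : ℤ) ∧
            ((a + w * (m : ℤ) : ℤ) : ℝ) ≤ Real.sqrt x then (1 : ℝ) else 0) := by
        simp only [sum_add_distrib, mul_sum]
    _ ≤ _ := add_le_add (add_le_add g1 (mul_le_mul_of_nonneg_left g2 hr))
        (mul_le_mul_of_nonneg_left g3 hk)

/-- the numbers -/
private theorem Bpt_num (ζ c : ℝ) (hc : 0 < c) (L0 : ℝ) : ∃ x0 : ℝ, 100 ≤ x0 ∧ ∀ x : ℝ, x0 ≤ x →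
    4 ≤ Real.log x ∧ L0 ≤ Real.log x ∧ 2 * (Real.log x) ^ ζ ≤ x ^ c / 2 ∧ 4 ≤ x ^ c := by
  have h1 := (isLittleO_log_rpow_rpow_atTop ζ hc).bound (c := 1 / 4) (by norm_num)
  have h2 := (tendsto_rpow_atTop hc).eventually_ge_atTop 4
  have h3 := Real.tendsto_log_atTop.eventually_ge_atTop (max 4 L0)
  obtain ⟨x1, hx1⟩ := Filter.eventually_atTop.1 (h1.and (h2.and h3))
  refine ⟨max 100 x1, le_max_left _ _, fun x hx => ?_⟩
  have hx100 : 100 ≤ x := le_trans (le_max_left _ _) hx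
  obtain ⟨k1, k2, k3⟩ := hx1 x (le_trans (le_max_right _ _) hx)
  have hx0 : 0 < x := by linarith
  have hL4 : 4 ≤ Real.log x := (le_max_left _ _).trans k3
  have hl : 0 ≤ Real.log x := by linarith
  rw [Real.norm_of_nonneg (Real.rpow_nonneg hl _),
    Real.norm_of_nonneg (Real.rpow_nonneg hx0.le _)] at k1
  exact ⟨hL4, (le_max_right _ _).trans k3, by linarith, k2⟩

theorem tBpt (h1 : Pool.Agent.Lib.SG.GsvStmt) (h2 : Pool.Agent.Lib.SG.VbdStmt)
    (h3 : Pool.Agent.Lib.BV.MprStmt) (h4 : NnmStmt) (h5 : NszStmt) : BptStmt := by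
  classical
  obtain ⟨C1, L0, E, hC1, hE, hS⟩ := tBsu h1 h2 h3
  obtain ⟨C2, hC2, hN2⟩ := h4
  obtain ⟨⟨C3, hC3, hA⟩, hB, hN, hDD⟩ := h5
  intro ε ζ hε hε1 hζ
  obtain ⟨c, hcd⟩ : ∃ c : ℝ, c = ε / (8 * E) := ⟨_, rfl⟩
  have hE1 : (1 : ℝ) ≤ E := by exact_mod_cast hE
  have hc : 0 < c := by
    rw [hcd]
    positivity
  have hcE : c * E ≤ ε / 8 := by
    rw [hcd]
    apply le_of_eq
    field_simp
  have hc1 : c ≤ ε / 8 := by
    refine le_trans ?_ hcE
    exact le_mul_of_one_le_right hc.le hE1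
  obtain ⟨C4, hC4⟩ : ∃ C4, C4 = max C2 C3 := ⟨_, rfl⟩
  have hC4a : 1 ≤ C4 := by
    rw [hC4]
    exact hC2.trans (le_max_left _ _)
  obtain ⟨x0, hx0, hev⟩ := Bpt_num ζ c hc L0
  refine ⟨80 * C1 / c + 120 * C1 * C4 + 6 + 6 * C4, c, x0, by positivity, hc, hc1, by linarith, ?_⟩
  intro x d P0 P1 U a hx hd hdx hax hgcd hP0 hP01 hP1 hU
  obtain ⟨e1, e2, e3, e4⟩ := hev x hx
  have ha0 : a ≠ 0 := by
    rintro rfl
    rw [Int.gcd_zero_left, Int.natAbs_natCast] at hgcd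
    omega
  have hx100 : 100 ≤ x := by linarith
  have hxp : 0 < x := by linarith
  have hx1 : 1 ≤ x := by linarith
  have hL0 : 0 < Real.log x := by linarith
  have hL1 : 1 ≤ Real.log x := by linarith
  have hdr : (1 : ℝ) ≤ d := by exact_mod_cast (by omega : 1 ≤ d)
  have hdp : (0 : ℝ) < d := by linarith
  have hφ : (0 : ℝ) < (d.totient : ℝ) := by exact_mod_cast Nat.totient_pos.2 (by omega)
  -- P0
  have hP0' : Real.log x * Real.log x ≤ (P0 : ℝ) := by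
    have h2 : (Real.log x) ^ (2 : ℝ) = Real.log x * Real.log x := by
      rw [Real.rpow_two, pow_two]
    rw [← h2]
    exact hP0
  have hP0a : 4 * Real.log x ≤ P0 :=
    (mul_le_mul_of_nonneg_right e1 hL0.le).trans hP0'
  have hP0b : Real.log x ≤ P0 := by linarith
  have hP02 : 2 ≤ P0 := by
    have : (2 : ℝ) ≤ (P0 : ℝ) := by linarith
    exact_mod_cast this
  have hP0r : (2 : ℝ) ≤ P0 := by linarith
  have hP01r : (P0 : ℝ) ≤ P1 := by exact_mod_cast hP01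
  have hlP0 : 0 < Real.log P0 := Real.log_pos (by linarith)
  have hlP1 : 0 < Real.log P1 := Real.log_pos (by linarith)
  -- z
  have hLζ0 : 0 ≤ (Real.log x) ^ ζ := by positivity
  have hLζ1 : 1 ≤ (Real.log x) ^ ζ := Real.one_le_rpow hL1 (by linarith)
  have hz1 : (Real.log x) ^ ζ ≤ (zz ζ x : ℝ) := Nat.le_ceil _
  have hz2 : (zz ζ x : ℝ) ≤ 2 * (Real.log x) ^ ζ := by
    have := Nat.ceil_lt_add_one hLζ0
    have h7 : ((zz ζ x : ℕ) : ℝ) < (Real.log x) ^ ζ + 1 := this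
    linarith
  have hLζ2 : Real.log x ≤ (Real.log x) ^ ζ := by
    have := Real.rpow_le_rpow_of_exponent_le hL1 hζ
    rwa [Real.rpow_one] at this
  have hz : 2 ≤ zz ζ x := by
    have : (2 : ℝ) ≤ (zz ζ x : ℝ) := by linarith
    exact_mod_cast this
  obtain ⟨z, hzd⟩ : ∃ z, z = zz ζ x := ⟨_, rfl⟩
  rw [← hzd] at hz1 hz2 hz ⊢
  have hzr : (2 : ℝ) ≤ z := by exact_mod_cast hz
  have hlz : 0 < Real.log z := Real.log_pos (by linarith)
  -- y'
  obtain ⟨y, hyd⟩ : ∃ y, y = ⌊x ^ c⌋₊ := ⟨_, rfl⟩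
  have hxc0 : 0 < x ^ c := by linarith
  have hy1 : (y : ℝ) ≤ x ^ c := by
    rw [hyd]
    exact Nat.floor_le hxc0.le
  have hy2 : x ^ c / 2 ≤ y := by
    have := Nat.lt_floor_add_one (x ^ c)
    rw [← hyd] at this
    linarith
  have hyP : P1 ≤ y := by
    rw [hyd]
    exact Nat.le_floor hP1
  have hzy : z ≤ y := by
    have : (z : ℝ) ≤ y := by linarith
    exact_mod_cast this
  have hy3 : 2 ≤ y := hz.trans hzy
  have hly : c / 2 * Real.log x ≤ Real.log y := by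
    have k3 : 0 < x ^ (c / 2) := Real.rpow_pos_of_pos hxp _
    have k2 : x ^ c = x ^ (c / 2) * x ^ (c / 2) := by
      rw [← Real.rpow_add hxp]
      congr 1
      ring
    have k4 : 2 ≤ x ^ (c / 2) := by
      by_contra hcon
      push Not at hcon
      have := mul_lt_mul'' hcon hcon k3.le k3.le
      linarith
    have k1 : x ^ (c / 2) ≤ y := by
      refine le_trans ?_ hy2
      have k5 : 2 * x ^ (c / 2) ≤ x ^ (c / 2) * x ^ (c / 2) := mul_le_mul_of_nonneg_right k4 k3.le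
      linarith
    rw [← Real.log_rpow hxp]
    exact Real.log_le_log k3 k1
  have hly0 : 0 < Real.log y := lt_of_lt_of_le (by positivity) hly
  have h84 : x ^ (ε / 8) ≤ x ^ (ε / 4) := Real.rpow_le_rpow_of_exponent_le hx1 (by linarith)
  have hpow : ∀ m : ℕ, m ≤ y → (m : ℝ) ^ E ≤ x ^ (ε / 4) := by
    intro m hm
    have k1 : (m : ℝ) ≤ x ^ c := le_trans (by exact_mod_cast hm) hy1
    calc (m : ℝ) ^ E ≤ (x ^ c) ^ E := pow_le_pow_left₀ (Nat.cast_nonneg _) k1 E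
      _ = x ^ (c * E) := by rw [Real.rpow_mul_natCast hxp.le]
      _ ≤ x ^ (ε / 8) := Real.rpow_le_rpow_of_exponent_le hx1 hcE
      _ ≤ _ := h84
  have hxc1 : x ^ c ≤ x ^ (ε / 4) :=
    (Real.rpow_le_rpow_of_exponent_le hx1 hc1).trans h84
  have hx4 : 1 ≤ x ^ (ε / 4) := by linarith
  -- a
  have hab : (a.natAbs : ℝ) ≤ x := by
    rw [Nat.cast_natAbs, Int.cast_abs]
    exact hax
  have hab1 : 1 ≤ a.natAbs := Int.natAbs_pos.2 ha0
  have hla : Real.log (a.natAbs : ℝ) ≤ Real.log x :=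
    Real.log_le_log (by exact_mod_cast hab1) hab
  have hla4 : 4 * Real.log a.natAbs ≤ P0 := by linarith
  -- the main quantity
  obtain ⟨ρ, hρd⟩ : ∃ ρ, ρ = Real.log P0 / Real.log P1 := ⟨_, rfl⟩
  have hρ : 0 ≤ ρ := by
    rw [hρd]
    positivity
  have hUd : (U : ℝ) * ((d : ℝ) / (d.totient : ℝ)) ≤ 20 * (x / (d.totient : ℝ)) := by
    have := mul_le_mul_of_nonneg_right hU (by positivity : 0 ≤ (d : ℝ) / (d.totient : ℝ))
    have e : 20 * x / (d : ℝ) * ((d : ℝ) / (d.totient : ℝ)) = 20 * (x / (d.totient : ℝ)) := by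
      field_simp
    linarith
  have hnn := hN2 z hz
  have hB1 : 1 ≤ Real.sqrt x / d + 1 := by
    have : 0 ≤ Real.sqrt x / d := by positivity
    linarith
  -- one sign
  have key : ∀ w : ℤ, w.natAbs = d →
      ∑ m ∈ (Ioc 0 U).filter (fun m => ¬ Good P0 P1 m), |fc z ⌊x⌋ (a + w * (m : ℤ))| ≤
      (40 * C1 / c + 60 * C1 * C4) * (x / ((d.totient : ℝ) * Real.log x) * ρ) +
        (3 + 3 * C4) * x ^ (ε / 4) + 3 * C4 * (Real.log x * (Real.sqrt x / d + 1)) := by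
    intro w hw
    have k1 := Bpt_one C1 (C4 * Real.log z) (3 / Real.log x) (1 + 2 * C4 * Real.log z) 0 0 z y U d
      (C1 * (U * ((d : ℝ) / (d.totient : ℝ)) * ρ / Real.log y) + x ^ (ε / 4))
      (C1 * (U * ((d : ℝ) / (d.totient : ℝ)) * ρ / Real.log z) + x ^ (ε / 4))
      (fun m => ¬ Good P0 P1 m) a w x (by positivity) (by positivity) (by omega) hw hnn.1
      (hnn.2.2.2.trans (mul_le_mul_of_nonneg_right (by rw [hC4]; exact le_max_left _ _) hlz.le))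
      (fun n => by
        refine (Bpt_pt C3 hC3 hA hB hN hDD z x n hz hx100).trans ?_
        have t1 : 1 + 2 * C3 * Real.log z ≤ 1 + 2 * C4 * Real.log z := by
          have : C3 * Real.log z ≤ C4 * Real.log z :=
            mul_le_mul_of_nonneg_right (by rw [hC4]; exact le_max_right _ _) hlz.le
          linarith
        have t2 : (0 : ℝ) ≤ if 1 ≤ n ∧ (n : ℝ) ≤ Real.sqrt x then (1 : ℝ) else 0 := by
          split_ifs
          · norm_num
          · exact le_refl _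
        have := mul_le_mul_of_nonneg_right t1 t2
        linarith)
      (fun S hS' => by
        have s1 := hS y P0 P1 U d a w hy3 hP02 hP01 (by linarith) hw (by omega) hgcd ha0 hla4
        rw [← hρd, max_eq_left hyP] at s1
        have s2 := hpow y le_rfl
        refine le_trans (Nat.cast_le.2 (card_le_card ?_)) (s1.trans (by linarith))
        intro m hm
        obtain ⟨q1, q2, q3, q4⟩ := hS' m hm
        rw [mem_filter, mem_Ioc]
        exact ⟨⟨q1, q2⟩, q3, q4⟩)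
      (fun S hS' => by
        have s1 := hS z P0 P1 U d a w hz hP02 hP01 (by linarith) hw (by omega) hgcd ha0 hla4
        rw [← hρd] at s1
        have s2 := hpow (max z P1) (max_le hzy hyP)
        refine le_trans (Nat.cast_le.2 (card_le_card ?_)) (s1.trans (by linarith))
        intro m hm
        obtain ⟨q1, q2, q3, q4⟩ := hS' m hm
        rw [mem_filter, mem_Ioc]
        exact ⟨⟨q1, q2⟩, q3, q4⟩)
    refine k1.trans ?_
    have hzx : Real.log z ≤ Real.log x := by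
      refine Real.log_le_log (by linarith) ?_
      have : x ^ c ≤ x := by
        have := Real.rpow_le_rpow_of_exponent_le hx1 (by linarith : c ≤ 1)
        rwa [Real.rpow_one] at this
      linarith
    -- the two main terms
    have m1 : C1 * (U * ((d : ℝ) / (d.totient : ℝ)) * ρ / Real.log y) ≤
        40 * C1 / c * (x / ((d.totient : ℝ) * Real.log x) * ρ) := by
      have q1 : (U : ℝ) * ((d : ℝ) / (d.totient : ℝ)) * ρ / Real.log y ≤
          20 * (x / (d.totient : ℝ)) * ρ / (c / 2 * Real.log x) := by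
        apply div_le_div₀ (by positivity) (mul_le_mul_of_nonneg_right hUd hρ) (by positivity) hly
      calc C1 * (U * ((d : ℝ) / (d.totient : ℝ)) * ρ / Real.log y)
          ≤ C1 * (20 * (x / (d.totient : ℝ)) * ρ / (c / 2 * Real.log x)) :=
            mul_le_mul_of_nonneg_left q1 hC1.le
        _ = _ := by
            field_simp
            try ring
    have m2 : 3 / Real.log x * (C4 * Real.log z * (C1 * (U * ((d : ℝ) / (d.totient : ℝ)) * ρ /
        Real.log z))) ≤ 60 * C1 * C4 * (x / ((d.totient : ℝ) * Real.log x) * ρ) := by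
      have q1 : (U : ℝ) * ((d : ℝ) / (d.totient : ℝ)) * ρ ≤ 20 * (x / (d.totient : ℝ)) * ρ :=
        mul_le_mul_of_nonneg_right hUd hρ
      have q2 : 3 / Real.log x * (C4 * Real.log z * (C1 * (U * ((d : ℝ) / (d.totient : ℝ)) * ρ /
        Real.log z))) = 3 / Real.log x * (C4 * C1) * (U * ((d : ℝ) / (d.totient : ℝ)) * ρ) := by
        field_simp
      rw [q2]
      calc 3 / Real.log x * (C4 * C1) * (U * ((d : ℝ) / (d.totient : ℝ)) * ρ)
          ≤ 3 / Real.log x * (C4 * C1) * (20 * (x / (d.totient : ℝ)) * ρ) :=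
            mul_le_mul_of_nonneg_left q1 (by positivity)
        _ = _ := by
            field_simp
            try ring
    -- the error terms
    have m3 : 3 / Real.log x * (C4 * Real.log z * x ^ (ε / 4)) ≤ 3 * C4 * x ^ (ε / 4) := by
      have q1 : Real.log z / Real.log x ≤ 1 := by
        rw [div_le_one hL0]
        exact hzx
      have q2 : 3 / Real.log x * (C4 * Real.log z * x ^ (ε / 4)) =
          3 * C4 * x ^ (ε / 4) * (Real.log z / Real.log x) := by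
        field_simp
      rw [q2]
      exact mul_le_of_le_one_right (by positivity) q1
    have m4 : (1 + 2 * C4 * Real.log z) * (Real.sqrt x / d + 1) ≤
        3 * C4 * (Real.log x * (Real.sqrt x / d + 1)) := by
      rw [← mul_assoc]
      refine mul_le_mul_of_nonneg_right ?_ (by linarith)
      have q1 : C4 * Real.log z ≤ C4 * Real.log x := mul_le_mul_of_nonneg_left hzx (by linarith)
      have q2 : 1 ≤ C4 * Real.log x := one_le_mul_of_one_le_of_one_le hC4a hL1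
      linarith
    have hexp : 3 / Real.log x * (C4 * Real.log z * (C1 * (U * ((d : ℝ) / (d.totient : ℝ)) * ρ /
        Real.log z) + x ^ (ε / 4))) =
        3 / Real.log x * (C4 * Real.log z * (C1 * (U * ((d : ℝ) / (d.totient : ℝ)) * ρ /
        Real.log z))) + 3 / Real.log x * (C4 * Real.log z * x ^ (ε / 4)) := by ring
    rw [hexp]
    linarith
  have hsp : ∑ u ∈ (Icc (-(U : ℤ)) U).filter (fun u => u ≠ 0 ∧ ¬ Good P0 P1 u.natAbs),
      |fc z ⌊x⌋ (a + d * u)| =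
      ∑ m ∈ (Ioc 0 U).filter (fun m => ¬ Good P0 P1 m), |fc z ⌊x⌋ (a + (d : ℤ) * (m : ℤ))| +
      ∑ m ∈ (Ioc 0 U).filter (fun m => ¬ Good P0 P1 m), |fc z ⌊x⌋ (a + -(d : ℤ) * (m : ℤ))| := by
    rw [Bpt_split U (fun m => ¬ Good P0 P1 m) (fun u => |fc z ⌊x⌋ (a + d * u)|)]
    congr 1
    refine sum_congr rfl (fun m _ => ?_)
    rw [mul_neg, neg_mul]
  rw [hsp, ← hρd]
  have k1 := key (d : ℤ) (Int.natAbs_natCast d)
  have k2 := key (-(d : ℤ)) (by rw [Int.natAbs_neg, Int.natAbs_natCast])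
  have p1 : 0 ≤ x / ((d.totient : ℝ) * Real.log x) * ρ := by positivity
  have p2 : 0 ≤ Real.log x * (Real.sqrt x / d + 1) := by positivity
  have p3 : 0 ≤ x ^ (ε / 4) := by positivity
  have p4 : 0 ≤ C1 / c := by positivity
  have p5 : 0 ≤ C1 * C4 := by positivity
  have g1 : 0 ≤ (6 + 6 * C4) * (x / ((d.totient : ℝ) * Real.log x) * ρ) := by positivity
  have g2 : 0 ≤ (80 * (C1 / c) + 120 * (C1 * C4) + 6) * (Real.log x * (Real.sqrt x / d + 1)) := by
    positivity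
  have g3 : 0 ≤ (80 * (C1 / c) + 120 * (C1 * C4)) * x ^ (ε / 4) := by positivity
  have e0 : (80 * C1 / c + 120 * C1 * C4 + 6 + 6 * C4) * (x / ((d.totient : ℝ) * Real.log x) * ρ +
      Real.log x * (Real.sqrt x / d + 1) + x ^ (ε / 4)) =
      2 * ((40 * C1 / c + 60 * C1 * C4) * (x / ((d.totient : ℝ) * Real.log x) * ρ)) +
      (6 + 6 * C4) * (x / ((d.totient : ℝ) * Real.log x) * ρ) +
      ((80 * (C1 / c) + 120 * (C1 * C4) + 6) * (Real.log x * (Real.sqrt x / d + 1)) +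
        2 * (3 * C4 * (Real.log x * (Real.sqrt x / d + 1)))) +
      ((80 * (C1 / c) + 120 * (C1 * C4)) * x ^ (ε / 4) + 2 * ((3 + 3 * C4) * x ^ (ε / 4))) := by
    ring
  rw [e0]
  linarith

end Pool.Agent.Lib.TR
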