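import Pool.Agent.Lib.TR.SpecQ

/-!
MP_00e23e_nt, directory Lib/TR, module Qas: one good q, one dyadic block of e.
-/

set_option autoImplicit false

namespace Pool.Agent.Lib.TR

open Finset Pool.Agent.Lib.EH3 Pool.Agent.Results.MP_00e23e_nt

/-- the choice of x -/
private lemma Qas_ev (ε U κ c : ℝ) (hε : 0 < ε) (hc : 0 < c) :
    ∃ x0 : ℝ, 3 ≤ x0 ∧ ∀ x : ℝ, x0 ≤ x → 3 ≤ Real.log x ∧ 1 ≤ Real.log (Real.log x) ∧
      1 / κ ≤ Real.log (Real.log x) ∧ 1 + c * Real.log (Real.log x) ≤ Real.log x ∧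
      4 * (Real.log x) ^ (U + 4) ≤ x ^ (ε / 2) := by
  have t1 := Real.tendsto_log_atTop
  have t2 := Real.tendsto_log_atTop.comp Real.tendsto_log_atTop
  have e1 : ∀ᶠ x : ℝ in Filter.atTop, 3 ≤ Real.log x := t1.eventually_ge_atTop 3
  have e2 : ∀ᶠ x : ℝ in Filter.atTop, 1 ≤ Real.log (Real.log x) := t2.eventually_ge_atTop 1
  have e3 : ∀ᶠ x : ℝ in Filter.atTop, 1 / κ ≤ Real.log (Real.log x) := t2.eventually_ge_atTop (1 / κ)
  have e4 : ∀ᶠ L : ℝ in Filter.atTop, 1 + c * Real.log L ≤ L := by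
    have h1 := Real.isLittleO_log_id_atTop.bound (c := 1 / (2 * c)) (by positivity)
    have h2 : ∀ᶠ L : ℝ in Filter.atTop, 2 ≤ L := Filter.eventually_ge_atTop 2
    filter_upwards [h1, h2] with L h3 h4
    have h5 : 0 ≤ Real.log L := Real.log_nonneg (by linarith)
    rw [Real.norm_eq_abs, abs_of_nonneg h5, id, Real.norm_eq_abs, abs_of_nonneg (by linarith)] at h3
    have h6 : c * Real.log L ≤ c * (1 / (2 * c) * L) := mul_le_mul_of_nonneg_left h3 hc.le
    have h7 : c * (1 / (2 * c) * L) = L / 2 := by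
      field_simp
    linarith
  have e5 := t1.eventually e4
  have e6 : ∀ᶠ x : ℝ in Filter.atTop, 4 * (Real.log x) ^ (U + 4) ≤ x ^ (ε / 2) := by
    have h1 := (isLittleO_log_rpow_rpow_atTop (U + 4) (by linarith : 0 < ε / 2)).bound
      (c := 1 / 4) (by norm_num)
    filter_upwards [h1, e1, Filter.eventually_ge_atTop 3] with x h2 h3 h4
    have h5 : 0 ≤ (Real.log x) ^ (U + 4) := Real.rpow_nonneg (by linarith) _
    have h6 : 0 ≤ x ^ (ε / 2) := Real.rpow_nonneg (by linarith) _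
    rw [Real.norm_eq_abs, abs_of_nonneg h5, Real.norm_eq_abs, abs_of_nonneg h6] at h2
    linarith
  have e7 := e1.and (e2.and (e3.and (e5.and e6)))
  obtain ⟨x0, h0⟩ := Filter.eventually_atTop.1 e7
  refine ⟨max 3 x0, le_max_left _ _, fun x hx => ?_⟩
  obtain ⟨a1, a2, a3, a4, a5⟩ := h0 x ((le_max_right _ _).trans hx)
  exact ⟨a1, a2, a3, a4, a5⟩

/-- the choice of P0 and P1 -/
private lemma Qas_P (L B0 B1 : ℝ) (H : ℕ) (hL : 3 ≤ L) (hB0 : 2 ≤ B0) (hB1 : 1 ≤ B1)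
    (hH : L ^ (2 * (B0 + B1 + 2)) ≤ H) :
    ∃ P0 P1 : ℕ, L ^ B0 ≤ P0 ∧ P0 ≤ P1 ∧ (P1 : ℝ) * L ^ B1 ≤ H ∧ (P1 : ℝ) ≤ H ∧ 1 < (H : ℝ) ∧
      0 < Real.log H ∧ Real.log P0 / Real.log P1 ≤ 2 * (B0 + 1) * (Real.log L / Real.log H) := by
  have hL1 : 1 ≤ L := by linarith
  have hLpos : 0 < L := by linarith
  have hl2 : 1 ≤ Real.log L := by
    rw [Real.le_log_iff_exp_le hLpos]
    have := Real.exp_one_lt_d9
    linarith
  have p0 : 1 ≤ L ^ B0 := Real.one_le_rpow hL1 (by linarith)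
  have p1 : 1 ≤ L ^ B1 := Real.one_le_rpow hL1 (by linarith)
  -- the square root of H
  obtain ⟨R, hR⟩ : ∃ R, R = Real.sqrt H := ⟨_, rfl⟩
  have hR2 : R * R = H := by rw [hR]; exact Real.mul_self_sqrt (Nat.cast_nonneg _)
  have hR1 : L ^ (B0 + B1 + 2) ≤ R := by
    rw [hR]
    refine Real.le_sqrt_of_sq_le ?_
    have e : (L ^ (B0 + B1 + 2)) ^ 2 = L ^ (2 * (B0 + B1 + 2)) := by
      rw [← Real.rpow_natCast, ← Real.rpow_mul hLpos.le]
      congr 1
      push_cast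
      ring
    rw [e]
    exact hH
  have e1 : L ^ (B0 + B1 + 2) = L ^ B0 * L ^ B1 * L ^ (2 : ℝ) := by
    rw [Real.rpow_add hLpos, Real.rpow_add hLpos]
  have e2 : (9 : ℝ) ≤ L ^ (2 : ℝ) := by
    rw [Real.rpow_two]
    nlinarith
  have hR3 : 9 * (L ^ B0 * L ^ B1) ≤ R := by
    refine le_trans ?_ hR1
    rw [e1]
    have : 0 ≤ L ^ B0 * L ^ B1 := by positivity
    nlinarith
  have hR4 : 9 * L ^ B0 ≤ R := by nlinarith
  have hR5 : 9 * L ^ B1 ≤ R := by nlinarith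
  have hR9 : 9 ≤ R := by linarith
  have hH1 : 1 < (H : ℝ) := by nlinarith
  have hlH : 0 < Real.log H := Real.log_pos hH1
  refine ⟨⌈L ^ B0⌉₊, ⌊(H : ℝ) / L ^ B1⌋₊, Nat.le_ceil _, ?_, ?_, ?_, hH1, hlH, ?_⟩
  · have h1 : ((⌈L ^ B0⌉₊ : ℕ) : ℝ) < L ^ B0 + 1 := Nat.ceil_lt_add_one (by linarith)
    have h2 : (H : ℝ) / L ^ B1 < ((⌊(H : ℝ) / L ^ B1⌋₊ : ℕ) : ℝ) + 1 := Nat.lt_floor_add_one _
    have h3 : R ≤ (H : ℝ) / L ^ B1 := by
      rw [le_div_iff₀ (by linarith)]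
      nlinarith
    have h4 : ((⌈L ^ B0⌉₊ : ℕ) : ℝ) ≤ ((⌊(H : ℝ) / L ^ B1⌋₊ : ℕ) : ℝ) := by linarith
    exact_mod_cast h4
  · have h1 : ((⌊(H : ℝ) / L ^ B1⌋₊ : ℕ) : ℝ) ≤ (H : ℝ) / L ^ B1 := Nat.floor_le (by positivity)
    rwa [le_div_iff₀ (by linarith)] at h1
  · have h1 : ((⌊(H : ℝ) / L ^ B1⌋₊ : ℕ) : ℝ) ≤ (H : ℝ) / L ^ B1 := Nat.floor_le (by positivity)
    exact h1.trans (div_le_self (by linarith) p1)
  · have h1 : ((⌈L ^ B0⌉₊ : ℕ) : ℝ) < L ^ B0 + 1 := Nat.ceil_lt_add_one (by linarith)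
    have h1' : L ^ B0 ≤ ((⌈L ^ B0⌉₊ : ℕ) : ℝ) := Nat.le_ceil _
    have h2 : (H : ℝ) / L ^ B1 < ((⌊(H : ℝ) / L ^ B1⌋₊ : ℕ) : ℝ) + 1 := Nat.lt_floor_add_one _
    have h3 : 9 * R ≤ (H : ℝ) / L ^ B1 := by
      rw [le_div_iff₀ (by linarith)]
      nlinarith
    have h4 : R ≤ ((⌊(H : ℝ) / L ^ B1⌋₊ : ℕ) : ℝ) := by linarith
    have h5 : Real.log ((⌈L ^ B0⌉₊ : ℕ) : ℝ) ≤ (B0 + 1) * Real.log L := by
      have h6 : ((⌈L ^ B0⌉₊ : ℕ) : ℝ) ≤ L * L ^ B0 := by nlinarith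
      have h7 := Real.log_le_log (by linarith) h6
      rw [Real.log_mul (by linarith) (by positivity), Real.log_rpow hLpos] at h7
      linarith
    have h8 : (1 / 2) * Real.log H ≤ Real.log ((⌊(H : ℝ) / L ^ B1⌋₊ : ℕ) : ℝ) := by
      have h9 := Real.log_le_log (by linarith) h4
      have h10 : Real.log H = 2 * Real.log R := by
        rw [← hR2, Real.log_mul (by linarith) (by linarith)]
        ring
      linarith
    have h11 : 0 < Real.log ((⌊(H : ℝ) / L ^ B1⌋₊ : ℕ) : ℝ) := by linarith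
    rw [div_le_iff₀ h11]
    have h12 : 0 ≤ 2 * (B0 + 1) * (Real.log L / Real.log H) := by
      have := hlH.le
      positivity
    have h13 := mul_le_mul_of_nonneg_left h8 h12
    refine h5.trans (le_trans (le_of_eq ?_) h13)
    field_simp

/-- the sum over all indices -/
private lemma Qas_sum (S I : Finset ℕ) (hSI : S ⊆ I) (K H : ℕ) (kk : ℕ → ℕ) (hkk : ∀ e ∈ S, kk e < K)
    (ψ : ℕ → ℕ → ℕ → ℝ) (hψ : ∀ k j e, 0 ≤ ψ k j e) (T : ℝ)
    (hT : ∀ k < K, ∑ j ∈ range H, ∑ e ∈ I, ψ k j e ≤ T) :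
    ∑ e ∈ S, ∑ j ∈ range H, ψ (kk e) j e ≤ K * T := by
  have h1 : ∑ e ∈ S, ∑ j ∈ range H, ψ (kk e) j e ≤ ∑ e ∈ S, ∑ k ∈ range K, ∑ j ∈ range H, ψ k j e := by
    refine Finset.sum_le_sum fun e he => ?_
    exact Finset.single_le_sum (f := fun k => ∑ j ∈ range H, ψ k j e)
      (fun k _ => Finset.sum_nonneg fun j _ => hψ k j e) (mem_range.2 (hkk e he))
  have h2 : ∑ e ∈ S, ∑ k ∈ range K, ∑ j ∈ range H, ψ k j e ≤
      ∑ e ∈ I, ∑ k ∈ range K, ∑ j ∈ range H, ψ k j e :=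
    Finset.sum_le_sum_of_subset_of_nonneg hSI fun e _ _ =>
      Finset.sum_nonneg fun k _ => Finset.sum_nonneg fun j _ => hψ k j e
  have h3 : ∑ e ∈ I, ∑ k ∈ range K, ∑ j ∈ range H, ψ k j e =
      ∑ k ∈ range K, ∑ j ∈ range H, ∑ e ∈ I, ψ k j e := by
    rw [Finset.sum_comm]
    refine Finset.sum_congr rfl fun k _ => ?_
    rw [Finset.sum_comm]
  have h4 : ∑ k ∈ range K, ∑ j ∈ range H, ∑ e ∈ I, ψ k j e ≤ ∑ k ∈ range K, T :=
    Finset.sum_le_sum fun k hk => hT k (mem_range.1 hk)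
  rw [Finset.sum_const, card_range, nsmul_eq_mul] at h4
  linarith

/-- 1/φ(q) -/
private lemma Qas_phi {x : ℝ} {q : ℕ} (hq : 1 ≤ q) (hqx : (q : ℝ) ≤ x) (hL : 1 ≤ Real.log x) :
    1 / (q.totient : ℝ) ≤ 3 * Real.log x / q := by
  have hq0 : (0 : ℝ) < q := by exact_mod_cast hq
  have hφ : (0 : ℝ) < q.totient := by exact_mod_cast Nat.totient_pos.2 hq
  have h1 := Pool.Agent.Lib.EH.le_totient q
  have h2 := Pool.Agent.Lib.EH.card_primeFactors_le hq
  have h3 : Real.log q ≤ Real.log x := Real.log_le_log hq0 hqx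
  rw [div_le_div_iff₀ hφ hq0, one_mul]
  refine h1.trans (mul_le_mul_of_nonneg_right ?_ hφ.le)
  linarith

/-- the rest terms -/
private lemma Qas_rest {x ε U L Lm W : ℝ} {q E G : ℕ} (hε : 0 < ε) (hx : 1 ≤ x) (hL : 3 ≤ L)
    (hLm : Lm = L ^ (-U)) (hW : W = L ^ (U + 4)) (hWx : 4 * W ≤ x ^ (ε / 2)) (hε1 : ε ≤ 1 / 10) (hq : 1 ≤ q)
    (hqE : (q : ℝ) * E ≤ x ^ (1 - ε)) (hG : W ≤ G) :
    0 < Lm ∧ L ≤ W * Lm ∧ L * Real.sqrt x / q ≤ x / q * Lm ∧ E * L ≤ x / q * Lm ∧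
      E * x ^ (ε / 2 / 4) ≤ x / q * Lm ∧ L * x / (G * q) ≤ x / q * Lm := by
  have hLpos : 0 < L := by linarith
  have hL1 : 1 ≤ L := by linarith
  have hx0 : 0 < x := by linarith
  have hq0 : (0 : ℝ) < q := by exact_mod_cast hq
  have hq1 : (1 : ℝ) ≤ q := by exact_mod_cast hq
  have hLm0 : 0 < Lm := by rw [hLm]; exact Real.rpow_pos_of_pos hLpos _
  have hWpos : 0 < W := by rw [hW]; exact Real.rpow_pos_of_pos hLpos _
  have hWL : L ≤ W * Lm := by
    have e1 : W * Lm = L ^ (4 : ℝ) := by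
      rw [hW, hLm, ← Real.rpow_add hLpos]
      congr 1
      ring
    rw [e1]
    calc L = L ^ (1 : ℝ) := (Real.rpow_one L).symm
      _ ≤ L ^ (4 : ℝ) := Real.rpow_le_rpow_of_exponent_le hL1 (by norm_num)
  have hWL1 : 1 ≤ W * Lm := by linarith
  have hWx' : W ≤ x ^ (ε / 2) := by linarith
  have hE0 : (0 : ℝ) ≤ E := Nat.cast_nonneg _
  have hG0 : (0 : ℝ) < G := by linarith
  refine ⟨hLm0, hWL, ?_, ?_, ?_, ?_⟩
  · rw [div_mul_eq_mul_div, div_le_div_iff_of_pos_right hq0]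
    have h1 : W * Real.sqrt x ≤ x := by
      have h2 : W ≤ Real.sqrt x := by
        rw [Real.sqrt_eq_rpow]
        exact hWx'.trans (Real.rpow_le_rpow_of_exponent_le hx (by linarith))
      calc W * Real.sqrt x ≤ Real.sqrt x * Real.sqrt x :=
            mul_le_mul_of_nonneg_right h2 (Real.sqrt_nonneg _)
        _ = x := Real.mul_self_sqrt hx0.le
    calc L * Real.sqrt x ≤ (W * Lm) * Real.sqrt x := mul_le_mul_of_nonneg_right hWL (Real.sqrt_nonneg _)
      _ = (W * Real.sqrt x) * Lm := by ring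
      _ ≤ x * Lm := mul_le_mul_of_nonneg_right h1 hLm0.le
  · rw [div_mul_eq_mul_div, le_div_iff₀ hq0]
    have h1 : (q : ℝ) * E * W ≤ x := by
      calc (q : ℝ) * E * W ≤ x ^ (1 - ε) * x ^ (ε / 2) :=
            mul_le_mul hqE hWx' hWpos.le (Real.rpow_nonneg hx0.le _)
        _ = x ^ (1 - ε / 2) := by
            rw [← Real.rpow_add hx0]
            congr 1
            ring
        _ ≤ x ^ (1 : ℝ) := Real.rpow_le_rpow_of_exponent_le hx (by linarith)
        _ = x := Real.rpow_one x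
    calc E * L * q ≤ E * (W * Lm) * q :=
          mul_le_mul_of_nonneg_right (mul_le_mul_of_nonneg_left hWL hE0) hq0.le
      _ = (q * E * W) * Lm := by ring
      _ ≤ x * Lm := mul_le_mul_of_nonneg_right h1 hLm0.le
  · rw [div_mul_eq_mul_div, le_div_iff₀ hq0]
    have h1 : (q : ℝ) * E * W * x ^ (ε / 2 / 4) ≤ x := by
      calc (q : ℝ) * E * W * x ^ (ε / 2 / 4) ≤ x ^ (1 - ε) * x ^ (ε / 2) * x ^ (ε / 2 / 4) :=
            mul_le_mul_of_nonneg_right (mul_le_mul hqE hWx' hWpos.le (Real.rpow_nonneg hx0.le _))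
              (Real.rpow_nonneg hx0.le _)
        _ = x ^ (1 - ε * (3 / 8)) := by
            rw [← Real.rpow_add hx0, ← Real.rpow_add hx0]
            congr 1
            ring
        _ ≤ x ^ (1 : ℝ) := Real.rpow_le_rpow_of_exponent_le hx (by linarith)
        _ = x := Real.rpow_one x
    have h2 : 0 ≤ x ^ (ε / 2 / 4) := Real.rpow_nonneg hx0.le _
    calc E * x ^ (ε / 2 / 4) * q = (E * x ^ (ε / 2 / 4) * q) * 1 := by ring
      _ ≤ (E * x ^ (ε / 2 / 4) * q) * (W * Lm) := mul_le_mul_of_nonneg_left hWL1 (by positivity)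
      _ = (q * E * W * x ^ (ε / 2 / 4)) * Lm := by ring
      _ ≤ x * Lm := mul_le_mul_of_nonneg_right h1 hLm0.le
  · have h1 : L ≤ G * Lm := hWL.trans (mul_le_mul_of_nonneg_right hG hLm0.le)
    rw [div_mul_eq_mul_div, div_le_div_iff₀ (by positivity) hq0]
    calc L * x * q ≤ (G * Lm) * x * q := by gcongr
      _ = x * Lm * (G * q) := by ring

private lemma Qas_m1 {c M L : ℝ} (h : c < M + 1) (hM : 1 ≤ M) (hL : 3 ≤ L) : c ≤ L * M := by
  have := mul_le_mul_of_nonneg_right hL (by linarith : 0 ≤ M)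
  linarith

private lemma Qas_fin {C2 C4 a a' b b' c d d' r : ℝ} (h1 : a ≤ a') (h2 : b ≤ b') (h3 : d ≤ d')
    (hC2 : 0 ≤ C2) (hC4 : 0 ≤ C4) :
    C2 * (a + b + c) + C4 * d + r ≤ C2 * a' + C2 * (b' + c) + C4 * d' + r := by
  have v1 := mul_le_mul_of_nonneg_left h1 hC2
  have v2 := mul_le_mul_of_nonneg_left h2 hC2
  have v4 := mul_le_mul_of_nonneg_left h3 hC4
  linarith

private lemma Qas_u {x d D : ℝ} (hx : 0 ≤ x) (h : d ≤ 2 * D) (hD : 0 ≤ D) : 6 * x * d ≤ 20 * x * D := by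
  have h1 := mul_le_mul_of_nonneg_left h hx
  have h2 := mul_nonneg hx hD
  linarith

private lemma Qas_y1 {g x G W : ℝ} (hx : 0 ≤ x) (hg : 1 ≤ g) (h8 : 4 * W ≤ x) (hG : G ≤ 2 * W) :
    2 * G ≤ g * x := by
  have := mul_le_mul_of_nonneg_right hg hx
  linarith

theorem tQas (h1 : QgoStmt) (h2 : BptStmt) (h3 : FbsStmt) (h4 : NapStmt) (h5 : NszStmt) (h6 : BphStmt) :
    QasStmt := by
  intro ε U hε hε1 hU
  obtain ⟨B0, B1, ζ, A3, c0, x1, hB0, hB1, hζ, hA3, hc0, hc01, hx1, G1⟩ :=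
    h1 ε (3 * U + 12) hε hε1 (by linarith)
  have hζ1 : 1 ≤ ζ := by linarith
  obtain ⟨C2, κ, x2, hC2, hκ, hκε, hx2, G2⟩ := h2 (ε / 2) ζ (by linarith) (by linarith) hζ1
  obtain ⟨C4, x4, hC4, hx4, G4⟩ := h4 (ε / 2) (U + 3) ζ (by linarith) (by linarith) (by linarith)
    (by linarith)
  obtain ⟨⟨C5, hC5, G5⟩, -, -, -⟩ := h5
  obtain ⟨-, G6⟩ := h6
  obtain ⟨x5, hx5, G7⟩ := Qas_ev ε U κ (2 * C5 * (ζ + 1)) hε (by positivity)
  refine ⟨2 * C2 * (B0 + 1) + 3 * C2 + 60 * C4 + 5, 2 * (B0 + B1 + 2), ζ, A3, c0,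
    max (max x1 x2) (max x4 x5), by positivity, by linarith, hζ1, hA3, hc0, hc01,
    le_max_of_le_left (le_max_of_le_left hx1), ?_⟩
  intro x q E H K S b kk y hx hq hqx hGq hb hK hE hqE hS hkk hy hHB hHe
  have hxx1 : x1 ≤ x := ((le_max_left _ _).trans (le_max_left _ _)).trans hx
  have hxx2 : x2 ≤ x := ((le_max_right _ _).trans (le_max_left _ _)).trans hx
  have hxx4 : x4 ≤ x := ((le_max_left _ _).trans (le_max_right _ _)).trans hx
  have hxx5 : x5 ≤ x := ((le_max_right _ _).trans (le_max_right _ _)).trans hx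
  have hx3 : 3 ≤ x := hx1.trans hxx1
  have hxge1 : 1 ≤ x := by linarith
  have hx0 : 0 < x := by linarith
  obtain ⟨g1, g2, g3, g4, g5⟩ := G7 x hxx5
  obtain ⟨L, hL⟩ : ∃ L, L = Real.log x := ⟨_, rfl⟩
  rw [← hL] at g1 g2 g3 g4 g5 hK hHB hHe ⊢
  have hL1 : 1 ≤ L := by linarith
  have hLpos : 0 < L := by linarith
  obtain ⟨l2, hl2⟩ : ∃ l2, l2 = Real.log L := ⟨_, rfl⟩
  obtain ⟨Lm, hLm⟩ : ∃ Lm, Lm = L ^ (-U) := ⟨_, rfl⟩
  obtain ⟨W, hW⟩ : ∃ W, W = L ^ (U + 4) := ⟨_, rfl⟩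
  rw [← hW] at g5
  rw [← hLm]
  have hWpos : 1 ≤ W := by rw [hW]; exact Real.one_le_rpow hL1 (by linarith)
  have hq0 : (0 : ℝ) < q := by exact_mod_cast hq
  have hq1 : (1 : ℝ) ≤ q := by exact_mod_cast hq
  have hE0 : (0 : ℝ) < E := by exact_mod_cast hE
  -- G
  obtain ⟨G, hG⟩ : ∃ G, G = ⌈W⌉₊ := ⟨_, rfl⟩
  have hGW : W ≤ G := by rw [hG]; exact Nat.le_ceil _
  have hGW2 : (G : ℝ) ≤ 2 * W := by
    have : ((⌈W⌉₊ : ℕ) : ℝ) < W + 1 := Nat.ceil_lt_add_one (by linarith)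
    rw [hG]
    linarith
  have hG0 : (0 : ℝ) < G := by linarith
  have hG1 : 1 ≤ G := by exact_mod_cast hG0
  obtain ⟨hLm0, hWL, r1, r2, r3, r4⟩ := Qas_rest hε hxge1 g1 hLm hW g5 hε1 hq hqE hGW
  -- P0, P1
  obtain ⟨P0, P1, hP0, hP01, hP1, hP1H, hH1, hlH, hratio⟩ := Qas_P L B0 B1 H g1 hB0 hB1 hHB
  have hH1' : 1 ≤ H := by
    have : (0 : ℝ) < H := by linarith
    exact_mod_cast this
  have hP1x : (P1 : ℝ) ≤ x ^ κ := by
    refine hP1H.trans (hHe.trans ?_)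
    rw [Real.rpow_def_of_pos hx0, Real.exp_le_exp, ← hL]
    have h7 : 1 ≤ κ * Real.log L := by
      have := mul_le_mul_of_nonneg_left g3 hκ.le
      rwa [mul_one_div_cancel hκ.ne'] at this
    have hl : 0 < Real.log L := by linarith
    rw [mul_div_assoc', div_le_iff₀ hl]
    calc c0 * L ≤ 1 * L := mul_le_mul_of_nonneg_right hc01 hLpos.le
      _ ≤ (κ * Real.log L) * L := mul_le_mul_of_nonneg_right h7 hLpos.le
      _ = L * κ * Real.log L := by ring
  -- z and M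
  have hz1 : (1 : ℝ) ≤ L ^ ζ := Real.one_le_rpow hL1 (by linarith)
  have hzc : ((zz ζ x : ℕ) : ℝ) < L ^ ζ + 1 := by
    unfold zz
    rw [← hL]
    exact Nat.ceil_lt_add_one (by linarith)
  have hz2 : 2 ≤ zz ζ x := by
    have h8 : (1 : ℝ) < ((zz ζ x : ℕ) : ℝ) := by
      have h9 : L ≤ L ^ ζ := by
        calc L = L ^ (1 : ℝ) := (Real.rpow_one L).symm
          _ ≤ L ^ ζ := Real.rpow_le_rpow_of_exponent_le hL1 hζ1
      have h10 : L ^ ζ ≤ ((zz ζ x : ℕ) : ℝ) := by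
        unfold zz
        rw [← hL]
        exact Nat.le_ceil _
      linarith
    exact_mod_cast h8
  have hM : ∀ n : ℤ, |ff (zz ζ x) n| ≤ L := by
    intro n
    have h8 := (G5 (zz ζ x) n hz2).2.2
    have h9 : Real.log ((zz ζ x : ℕ) : ℝ) ≤ (ζ + 1) * Real.log L := by
      have h10 : ((zz ζ x : ℕ) : ℝ) ≤ L * L ^ ζ := Qas_m1 hzc hz1 g1
      have h11 : (0 : ℝ) < ((zz ζ x : ℕ) : ℝ) := by
        have : 0 < zz ζ x := by omega
        exact_mod_cast this
      have h12 := Real.log_le_log h11 h10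
      rw [Real.log_mul (by linarith) (by positivity), Real.log_rpow hLpos] at h12
      linarith
    have h13 : 2 * C5 * Real.log ((zz ζ x : ℕ) : ℝ) ≤ 2 * C5 * ((ζ + 1) * Real.log L) :=
      mul_le_mul_of_nonneg_left h9 (by positivity)
    have h14 : 2 * C5 * ((ζ + 1) * Real.log L) = 2 * C5 * (ζ + 1) * Real.log L := by ring
    linarith
  -- U1
  have hqE0 : (0 : ℝ) < (q : ℝ) * E := by positivity
  have hqEx : (q : ℝ) * E ≤ x := by
    refine hqE.trans ?_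
    calc x ^ (1 - ε) ≤ x ^ (1 : ℝ) := Real.rpow_le_rpow_of_exponent_le hxge1 (by linarith)
      _ = x := Real.rpow_one x
  obtain ⟨U1, hU1⟩ : ∃ U1, U1 = ⌈4 * x / ((q : ℝ) * E)⌉₊ := ⟨_, rfl⟩
  have hU1a : 4 * x ≤ (q : ℝ) * E * U1 := by
    have h8 : 4 * x / ((q : ℝ) * E) ≤ U1 := by rw [hU1]; exact Nat.le_ceil _
    rw [div_le_iff₀ hqE0] at h8
    linarith
  have hU1b : (U1 : ℝ) ≤ 6 * x / (q * E) := by
    have h8 : ((⌈4 * x / ((q : ℝ) * E)⌉₊ : ℕ) : ℝ) < 4 * x / ((q : ℝ) * E) + 1 :=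
      Nat.ceil_lt_add_one (by positivity)
    have h9 : (1 : ℝ) ≤ x / ((q : ℝ) * E) := by rw [le_div_iff₀ hqE0]; linarith
    have h10 : 6 * x / ((q : ℝ) * E) = 4 * x / ((q : ℝ) * E) + 2 * (x / ((q : ℝ) * E)) := by ring
    rw [hU1, h10]
    linarith
  -- one pair (e, j)
  obtain ⟨ρ, hρ⟩ : ∃ ρ, ρ = Real.log P0 / Real.log P1 := ⟨_, rfl⟩
  obtain ⟨Re, hRe⟩ : ∃ Re : ℕ → ℝ, Re = fun e =>
      C2 * (x / (((q * e : ℕ).totient : ℝ) * L) * ρ + L * (Real.sqrt x / ((q * e : ℕ) : ℝ) + 1) + x ^ (ε / 2 / 4)) +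
      C4 * (x / ((q * e : ℕ).totient : ℝ) * L ^ (-(U + 3))) + L * (x / (G * ((q * E : ℕ) : ℝ)) + 2) := ⟨_, rfl⟩
  obtain ⟨φ, hφ⟩ : ∃ φ : ℕ → ℕ → ℕ → ℕ → ℝ, φ = fun (g k j e : ℕ) =>
      |∑ u ∈ (Icc (-(U1 : ℤ)) U1).filter (fun u => u ≠ 0 ∧ Good P0 P1 u.natAbs),
        fc (zz ζ x) ⌊(g : ℝ) * x / G⌋ (b k + q * j + ((q * e : ℕ) : ℤ) * u)| := ⟨_, rfl⟩
  have hone : ∀ e ∈ S, ∀ j ∈ (range H).filter (fun j : ℕ => Int.gcd (b (kk e) + q * j) e = 1),
      |resErr (y e j) (q * e) (b (kk e) + q * j)| ≤ ∑ g ∈ Icc 1 G, φ g (kk e) j e + Re e := by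
    intro e he j hj
    rw [mem_filter, mem_range] at hj
    obtain ⟨hj1, hj2⟩ := hj
    obtain ⟨hb1, hb2, hb3⟩ := hb (kk e) (hkk e he)
    have heI := hS he
    rw [mem_Ioc] at heI
    have heE : (E : ℝ) < e := by exact_mod_cast heI.1
    have heE2 : (e : ℝ) ≤ 2 * E := by exact_mod_cast heI.2
    have he0 : (0 : ℝ) < e := by linarith
    have hd1 : q * E < q * e := Nat.mul_lt_mul_of_pos_left heI.1 (by omega)
    have hd2 : 2 ≤ q * e := by
      have h8 : 2 ≤ e := by omega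
      calc 2 ≤ e := h8
        _ = 1 * e := (one_mul e).symm
        _ ≤ q * e := Nat.mul_le_mul_right e hq
    have hd3 : ((q * e : ℕ) : ℝ) ≤ 2 * (q * E) := by
      push_cast
      calc (q : ℝ) * e ≤ q * (2 * E) := mul_le_mul_of_nonneg_left heE2 hq0.le
        _ = 2 * (q * E) := by ring
    have hdx : ((q * e : ℕ) : ℝ) ≤ x ^ (1 - ε / 2) := by
      have h8 : (2 : ℝ) ≤ x ^ (ε / 2) := by linarith
      calc ((q * e : ℕ) : ℝ) ≤ 2 * (q * E) := hd3
        _ ≤ x ^ (ε / 2) * x ^ (1 - ε) :=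
            mul_le_mul h8 hqE hqE0.le (Real.rpow_nonneg hx0.le _)
        _ = x ^ (1 - ε / 2) := by
            rw [← Real.rpow_add hx0]
            congr 1
            ring
    have hax : |((b (kk e) + q * j : ℤ) : ℝ)| ≤ x := by
      push_cast
      have h8 : (j : ℝ) + 1 ≤ H := by exact_mod_cast hj1
      have h9 : (q : ℝ) * (j + 1) ≤ q * H := mul_le_mul_of_nonneg_left h8 hq0.le
      have h10 : (0 : ℝ) ≤ (q : ℝ) * j := by positivity
      rw [abs_le]
      constructor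
      · linarith
      · linarith
    have hgcd : Int.gcd (b (kk e) + q * j) ((q * e : ℕ) : ℤ) = 1 := by
      rw [← Int.isCoprime_iff_gcd_eq_one]
      push_cast
      refine IsCoprime.mul_right ?_ (Int.isCoprime_iff_gcd_eq_one.2 hj2)
      have h8 := Int.isCoprime_iff_gcd_eq_one.2 hb1
      exact (IsCoprime.add_mul_left_left_iff).2 h8
    have hyx := hy e j
    have hDU : 2 * x ≤ ((q * E : ℕ) : ℝ) * U1 := by
      push_cast
      linarith
    have hfb := h3 (zz ζ x) (q * E) (q * e) U1 G P0 P1 (b (kk e) + q * j) x (y e j) L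
      (Nat.mul_pos hq hE) hd1 hG1 hyx.1 hyx.2 hax hDU hLpos.le hM
    have hbp := G2 x (q * e) P0 P1 U1 (b (kk e) + q * j) hxx2 hd2 hdx hax hgcd
      (by
        rw [← hL]
        exact (Real.rpow_le_rpow_of_exponent_le hL1 hB0).trans hP0) hP01 hP1x
      (by
        refine hU1b.trans ?_
        have hqe0 : (0 : ℝ) < ((q * e : ℕ) : ℝ) := by push_cast; positivity
        rw [div_le_div_iff₀ hqE0 hqe0]
        exact Qas_u hx0.le hd3 hqE0.le)
    have hna := G4 x (y e j) (q * e) (b (kk e) + q * j) hxx4 hyx.1 hyx.2 (by omega) hdx hgcd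
    rw [← hL] at hbp hna
    rw [hφ, hRe, hρ]
    simp only
    refine hfb.trans ?_
    linarith
  -- the main part
  have hmain : ∑ e ∈ S, ∑ j ∈ (range H).filter (fun j : ℕ => Int.gcd (b (kk e) + q * j) e = 1),
      ∑ g ∈ Icc 1 G, φ g (kk e) j e ≤ 2 * (H * (x / q * Lm)) := by
    have hφ0 : ∀ g k j e, 0 ≤ φ g k j e := by
      intro g k j e
      rw [hφ]
      exact abs_nonneg _
    have e1 : ∑ e ∈ S, ∑ j ∈ (range H).filter (fun j : ℕ => Int.gcd (b (kk e) + q * j) e = 1),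
        ∑ g ∈ Icc 1 G, φ g (kk e) j e =
        ∑ g ∈ Icc 1 G, ∑ e ∈ S, ∑ j ∈ range H,
          (if Int.gcd (b (kk e) + q * j) e = 1 then φ g (kk e) j e else 0) := by
      rw [Finset.sum_comm]
      refine Finset.sum_congr rfl fun e _ => ?_
      rw [Finset.sum_comm]
      refine Finset.sum_congr rfl fun g _ => ?_
      rw [Finset.sum_filter]
    have e2 : ∀ g ∈ Icc 1 G, ∑ e ∈ S, ∑ j ∈ range H,
        (if Int.gcd (b (kk e) + q * j) e = 1 then φ g (kk e) j e else 0) ≤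
        K * (H * (x / q * L ^ (-(3 * U + 12)))) := by
      intro g hg
      rw [mem_Icc] at hg
      refine Qas_sum S (Ioc E (2 * E)) hS K H kk hkk
        (fun k j e => if Int.gcd (b k + q * j) e = 1 then φ g k j e else 0) ?_ _ ?_
      · intro k j e
        by_cases hc : Int.gcd (b k + q * j) e = 1
        · simp only [hc, if_true]
          exact hφ0 g k j e
        · simp only [hc, if_false]
          exact le_rfl
      · intro k hk
        obtain ⟨hb1, hb2, hb3⟩ := hb k hk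
        have hgR : (1 : ℝ) ≤ g := by exact_mod_cast hg.1
        have hgG : (g : ℝ) ≤ G := by exact_mod_cast hg.2
        have hy1 : 2 ≤ (g : ℝ) * x / G := by
          rw [le_div_iff₀ hG0]
          have h8 : 4 * W ≤ x := by
            refine g5.trans ?_
            calc x ^ (ε / 2) ≤ x ^ (1 : ℝ) := Real.rpow_le_rpow_of_exponent_le hxge1 (by linarith)
              _ = x := Real.rpow_one x
          exact Qas_y1 hx0.le hgR h8 hGW2
        have hy2 : (g : ℝ) * x / G ≤ x := by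
          rw [div_le_iff₀ hG0, mul_comm x]
          exact mul_le_mul_of_nonneg_right hgG hx0.le
        have h9 := G1 x ((g : ℝ) * x / G) q E U1 P0 P1 H (b k) hxx1 hy1 hy2 hq hqx hGq hb1 hb2 hb3
          hH1' hE hqE hU1a hU1b (by rw [← hL]; exact hP0) hP01 (by rw [← hL]; exact hP1)
          (by rw [← hL]; exact hHe)
        rw [← hL] at h9
        refine le_trans (le_of_eq ?_) h9
        refine Finset.sum_congr rfl fun j _ => ?_
        rw [Finset.sum_filter]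
        refine Finset.sum_congr rfl fun e _ => ?_
        rw [hφ]
    have e3 := Finset.sum_le_sum e2
    rw [Finset.sum_const, Nat.card_Icc, nsmul_eq_mul] at e3
    rw [e1]
    refine e3.trans ?_
    have e4 : ((G + 1 - 1 : ℕ) : ℝ) = G := by simp
    rw [e4]
    have e5 : W * L ^ U * L ^ (-(3 * U + 12)) ≤ Lm := by
      rw [hW, hLm, ← Real.rpow_add hLpos, ← Real.rpow_add hLpos]
      exact Real.rpow_le_rpow_of_exponent_le hL1 (by linarith)
    have e6 : 0 ≤ (H : ℝ) * (x / q) := by positivity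
    have e7 : 0 ≤ L ^ (-(3 * U + 12)) := Real.rpow_nonneg hLpos.le _
    have e8 : (G : ℝ) * K ≤ 2 * (W * L ^ U) := by
      calc (G : ℝ) * K ≤ (2 * W) * L ^ U :=
            mul_le_mul hGW2 hK (Nat.cast_nonneg _) (by linarith)
        _ = 2 * (W * L ^ U) := by ring
    calc (G : ℝ) * (K * (H * (x / q * L ^ (-(3 * U + 12)))))
        = (G * K) * L ^ (-(3 * U + 12)) * (H * (x / q)) := by ring
      _ ≤ (2 * (W * L ^ U)) * L ^ (-(3 * U + 12)) * (H * (x / q)) :=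
          mul_le_mul_of_nonneg_right (mul_le_mul_of_nonneg_right e8 e7) e6
      _ = 2 * (W * L ^ U * L ^ (-(3 * U + 12))) * (H * (x / q)) := by ring
      _ ≤ 2 * Lm * (H * (x / q)) := by
          refine mul_le_mul_of_nonneg_right ?_ e6
          linarith
      _ = 2 * (H * (x / q * Lm)) := by ring
  -- the rest
  have hRe0 : ∀ e, 0 ≤ Re e := by
    intro e
    rw [hRe]
    simp only
    have hρ0 : 0 ≤ ρ := by
      rw [hρ]
      have hP0' : (1 : ℝ) ≤ P0 := (Real.one_le_rpow hL1 (by linarith : (0 : ℝ) ≤ B0)).trans hP0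
      have hP1' : (1 : ℝ) ≤ P1 := hP0'.trans (by exact_mod_cast hP01)
      exact div_nonneg (Real.log_nonneg hP0') (Real.log_nonneg hP1')
    positivity
  have hrest : ∑ e ∈ S, Re e ≤
      2 * C2 * (B0 + 1) * (x / L * (Real.log L / Real.log H) * ∑ e ∈ S, 1 / ((q * e).totient : ℝ)) +
      (3 * C2 + 60 * C4 + 3) * (x / q * Lm) := by
    have hcard : (S.card : ℝ) ≤ E := by
      have h8 := Finset.card_le_card hS
      rw [Nat.card_Ioc] at h8
      exact_mod_cast (by omega : S.card ≤ E)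
    -- bounds of the single terms
    have t1 : ∀ e ∈ S, Re e ≤
        2 * C2 * (B0 + 1) * (x / L * (Real.log L / Real.log H)) * (1 / ((q * e).totient : ℝ)) +
        C2 * (L * Real.sqrt x / q / E + L + x ^ (ε / 2 / 4)) +
        C4 * (x * L ^ (-(U + 3)) * (3 * L / q)) * (1 / (e.totient : ℝ)) +
        (L * x / (G * q) / E + 2 * L) := by
      intro e he
      have heI := hS he
      rw [mem_Ioc] at heI
      have he1 : 1 ≤ e := by omega
      have heE : (E : ℝ) < e := by exact_mod_cast heI.1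
      have he0 : (0 : ℝ) < e := by linarith
      have hφ1 : (0 : ℝ) < ((q * e).totient : ℝ) := by
        exact_mod_cast Nat.totient_pos.2 (Nat.mul_pos hq he1)
      have hφq : (0 : ℝ) < (q.totient : ℝ) := by exact_mod_cast Nat.totient_pos.2 hq
      have hφe : (0 : ℝ) < (e.totient : ℝ) := by exact_mod_cast Nat.totient_pos.2 he1
      have u1 : x / (((q * e).totient : ℝ) * L) * ρ ≤
          2 * (B0 + 1) * (x / L * (Real.log L / Real.log H)) * (1 / ((q * e).totient : ℝ)) := by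
        rw [hρ]
        calc x / (((q * e).totient : ℝ) * L) * (Real.log P0 / Real.log P1)
            ≤ x / (((q * e).totient : ℝ) * L) * (2 * (B0 + 1) * (Real.log L / Real.log H)) :=
              mul_le_mul_of_nonneg_left hratio (by positivity)
          _ = _ := by
              field_simp
      have u2 : L * (Real.sqrt x / ((q * e : ℕ) : ℝ) + 1) ≤ L * Real.sqrt x / q / E + L := by
        have h8 : Real.sqrt x / ((q * e : ℕ) : ℝ) ≤ Real.sqrt x / (q * E) := by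
          push_cast
          exact div_le_div_of_nonneg_left (Real.sqrt_nonneg _) hqE0
            (mul_le_mul_of_nonneg_left heE.le hq0.le)
        have h9 := mul_le_mul_of_nonneg_left h8 hLpos.le
        have h10 : L * (Real.sqrt x / (q * E)) = L * Real.sqrt x / q / E := by
          field_simp
        linarith
      have u3 : 1 / ((q * e).totient : ℝ) ≤ (3 * L / q) * (1 / (e.totient : ℝ)) := by
        have hqxx : (q : ℝ) ≤ x := by
          refine hqx.trans ?_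
          calc x ^ (1 / 2 - ε) ≤ x ^ (1 : ℝ) := Real.rpow_le_rpow_of_exponent_le hxge1 (by linarith)
            _ = x := Real.rpow_one x
        have h8 := Qas_phi hq hqxx (by rw [← hL]; exact hL1)
        rw [← hL] at h8
        have h9 : (q.totient : ℝ) * (e.totient : ℝ) ≤ ((q * e).totient : ℝ) := by
          exact_mod_cast Nat.totient_super_multiplicative q e
        calc 1 / ((q * e).totient : ℝ) ≤ 1 / ((q.totient : ℝ) * (e.totient : ℝ)) :=
              one_div_le_one_div_of_le (by positivity) h9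
          _ = 1 / (q.totient : ℝ) * (1 / (e.totient : ℝ)) := by rw [one_div_mul_one_div]
          _ ≤ (3 * L / q) * (1 / (e.totient : ℝ)) := mul_le_mul_of_nonneg_right h8 (by positivity)
      have u4 : x / ((q * e).totient : ℝ) * L ^ (-(U + 3)) ≤
          x * L ^ (-(U + 3)) * (3 * L / q) * (1 / (e.totient : ℝ)) := by
        have h8 : 0 ≤ x * L ^ (-(U + 3)) := mul_nonneg hx0.le (Real.rpow_nonneg hLpos.le _)
        have h9 := mul_le_mul_of_nonneg_left u3 h8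
        calc x / ((q * e).totient : ℝ) * L ^ (-(U + 3)) = x * L ^ (-(U + 3)) * (1 / ((q * e).totient : ℝ)) := by
              ring
          _ ≤ _ := h9
          _ = _ := by ring
      have u5 : L * (x / (G * ((q * E : ℕ) : ℝ)) + 2) = L * x / (G * q) / E + 2 * L := by
        push_cast
        field_simp
      rw [hRe]
      simp only
      rw [u5]
      have z1 : 2 * C2 * (B0 + 1) * (x / L * (Real.log L / Real.log H)) * (1 / ((q * e).totient : ℝ)) =
          C2 * (2 * (B0 + 1) * (x / L * (Real.log L / Real.log H)) * (1 / ((q * e).totient : ℝ))) := by ring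
      have z2 : C4 * (x * L ^ (-(U + 3)) * (3 * L / q)) * (1 / (e.totient : ℝ)) =
          C4 * (x * L ^ (-(U + 3)) * (3 * L / q) * (1 / (e.totient : ℝ))) := by ring
      rw [z1, z2]
      exact Qas_fin u1 u2 u4 hC2.le hC4.le
    refine (Finset.sum_le_sum t1).trans ?_
    rw [Finset.sum_add_distrib, Finset.sum_add_distrib, Finset.sum_add_distrib, Finset.sum_const,
      Finset.sum_const, nsmul_eq_mul, nsmul_eq_mul, ← Finset.mul_sum, ← Finset.mul_sum]
    have w1 : (S.card : ℝ) * (C2 * (L * Real.sqrt x / q / E + L + x ^ (ε / 2 / 4))) ≤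
        3 * C2 * (x / q * Lm) := by
      have h8 : 0 ≤ C2 * (L * Real.sqrt x / q / E + L + x ^ (ε / 2 / 4)) := by positivity
      calc (S.card : ℝ) * (C2 * (L * Real.sqrt x / q / E + L + x ^ (ε / 2 / 4)))
          ≤ E * (C2 * (L * Real.sqrt x / q / E + L + x ^ (ε / 2 / 4))) :=
            mul_le_mul_of_nonneg_right hcard h8
        _ = C2 * (L * Real.sqrt x / q + E * L + E * x ^ (ε / 2 / 4)) := by
            field_simp
        _ ≤ C2 * (x / q * Lm + x / q * Lm + x / q * Lm) :=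
            mul_le_mul_of_nonneg_left (by linarith) hC2.le
        _ = 3 * C2 * (x / q * Lm) := by ring
    have w2 : C4 * (x * L ^ (-(U + 3)) * (3 * L / q)) * ∑ e ∈ S, 1 / (e.totient : ℝ) ≤
        60 * C4 * (x / q * Lm) := by
      have h8 : ∑ e ∈ S, 1 / (e.totient : ℝ) ≤ 20 :=
        (Finset.sum_le_sum_of_subset_of_nonneg hS fun _ _ _ => by positivity).trans (G6 E hE)
      have h9 : L ^ (-(U + 3)) * L ≤ Lm := by
        rw [hLm]
        calc L ^ (-(U + 3)) * L = L ^ (-(U + 3)) * L ^ (1 : ℝ) := by rw [Real.rpow_one]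
          _ = L ^ (-(U + 3) + 1) := by rw [Real.rpow_add hLpos]
          _ ≤ L ^ (-U) := Real.rpow_le_rpow_of_exponent_le hL1 (by linarith)
      have h10 : 0 ≤ L ^ (-(U + 3)) := Real.rpow_nonneg hLpos.le _
      have h11 : 0 ≤ C4 * (x * L ^ (-(U + 3)) * (3 * L / q)) := by positivity
      calc C4 * (x * L ^ (-(U + 3)) * (3 * L / q)) * ∑ e ∈ S, 1 / (e.totient : ℝ)
          ≤ C4 * (x * L ^ (-(U + 3)) * (3 * L / q)) * 20 := mul_le_mul_of_nonneg_left h8 h11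
        _ = 60 * C4 * (x / q * (L ^ (-(U + 3)) * L)) := by ring
        _ ≤ 60 * C4 * (x / q * Lm) :=
            mul_le_mul_of_nonneg_left (mul_le_mul_of_nonneg_left h9 (by positivity)) (by positivity)
    have w3 : (S.card : ℝ) * (L * x / (G * q) / E + 2 * L) ≤ 3 * (x / q * Lm) := by
      have h8 : 0 ≤ L * x / (G * q) / E + 2 * L := by positivity
      calc (S.card : ℝ) * (L * x / (G * q) / E + 2 * L) ≤ E * (L * x / (G * q) / E + 2 * L) :=
            mul_le_mul_of_nonneg_right hcard h8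
        _ = L * x / (G * q) + 2 * (E * L) := by
            field_simp
        _ ≤ 3 * (x / q * Lm) := by linarith
    have w4 : 2 * C2 * (B0 + 1) * (x / L * (Real.log L / Real.log H)) * ∑ e ∈ S, 1 / ((q * e).totient : ℝ) =
        2 * C2 * (B0 + 1) * (x / L * (Real.log L / Real.log H) * ∑ e ∈ S, 1 / ((q * e).totient : ℝ)) := by
      ring
    rw [w4]
    linarith
  -- conclusion
  unfold Sj
  have hfin : ∑ e ∈ S, ∑ j ∈ (range H).filter (fun j : ℕ => Int.gcd (b (kk e) + q * j) e = 1),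
      |resErr (y e j) (q * e) (b (kk e) + q * j)| ≤
      ∑ e ∈ S, (∑ j ∈ (range H).filter (fun j : ℕ => Int.gcd (b (kk e) + q * j) e = 1),
        ∑ g ∈ Icc 1 G, φ g (kk e) j e + H * Re e) := by
    refine Finset.sum_le_sum fun e he => ?_
    refine (Finset.sum_le_sum (hone e he)).trans ?_
    rw [Finset.sum_add_distrib, Finset.sum_const, nsmul_eq_mul]
    refine add_le_add le_rfl (mul_le_mul_of_nonneg_right ?_ (hRe0 e))
    have h8 := Finset.card_filter_le (range H) (fun j : ℕ => Int.gcd (b (kk e) + q * j) e = 1)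
    rw [card_range] at h8
    exact_mod_cast h8
  refine hfin.trans ?_
  rw [Finset.sum_add_distrib, ← Finset.mul_sum]
  have hsum0 : 0 ≤ ∑ e ∈ S, 1 / ((q * e).totient : ℝ) := Finset.sum_nonneg fun e _ => by positivity
  have hHR : (0 : ℝ) ≤ H := by linarith
  have hr := mul_le_mul_of_nonneg_left hrest hHR
  obtain ⟨Y, hY⟩ : ∃ Y, Y = x / L * (Real.log L / Real.log H) * ∑ e ∈ S, 1 / ((q * e).totient : ℝ) := ⟨_, rfl⟩
  have hY0 : 0 ≤ Y := by
    rw [hY]
    have : 0 ≤ Real.log L := by linarith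
    have h8 := hlH.le
    positivity
  rw [← hY] at hr ⊢
  have hw0 : 0 ≤ x / q * Lm := by positivity
  have k1 : 0 ≤ (H : ℝ) * Y := mul_nonneg hHR hY0
  have k2 : 0 ≤ (H : ℝ) * (x / q * Lm) := mul_nonneg hHR hw0
  have k3 : (2 * C2 * (B0 + 1) + 3 * C2 + 60 * C4 + 5) * (H * (Y + x / q * Lm)) =
      2 * (H * (x / q * Lm)) + H * (2 * C2 * (B0 + 1) * Y + (3 * C2 + 60 * C4 + 3) * (x / q * Lm)) +
      ((3 * C2 + 60 * C4 + 5) * (H * Y) + 2 * C2 * (B0 + 1) * (H * (x / q * Lm))) := by ring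
  rw [k3]
  have k4 : 0 ≤ (3 * C2 + 60 * C4 + 5) * (H * Y) + 2 * C2 * (B0 + 1) * (H * (x / q * Lm)) := by positivity
  linarith

end Pool.Agent.Lib.TR
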