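import Pool.Agent.Lib.TR.SpecQ

/-!
MP_00e23e_nt, directory Lib/TR, module Qbd: the bad q.
-/

set_option autoImplicit false

namespace Pool.Agent.Lib.TR

open Finset Pool.Agent.Lib.EH3 Pool.Agent.Results.MP_00e23e_nt

/-- the choice of x -/
private lemma Qbd_ev (ε ζ x1 : ℝ) (hε : 0 < ε) :
    ∃ x0 : ℝ, 3 ≤ x0 ∧ ∀ x : ℝ, x0 ≤ x → x1 ≤ x ∧ 3 ≤ x ∧ 1 ≤ Real.log x ∧ (Real.log x) ^ ζ ≤ x ^ (ε / 2) := by
  have t1 := Real.tendsto_log_atTop
  have e1 : ∀ᶠ x : ℝ in Filter.atTop, 1 ≤ Real.log x := t1.eventually_ge_atTop 1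
  have e6 : ∀ᶠ x : ℝ in Filter.atTop, (Real.log x) ^ ζ ≤ x ^ (ε / 2) := by
    have h1 := (isLittleO_log_rpow_rpow_atTop ζ (by linarith : 0 < ε / 2)).bound
      (c := 1) (by norm_num)
    filter_upwards [h1, e1, Filter.eventually_ge_atTop 3] with x h2 h3 h4
    have h5 : 0 ≤ (Real.log x) ^ ζ := Real.rpow_nonneg (by linarith) _
    have h6 : 0 ≤ x ^ (ε / 2) := Real.rpow_nonneg (by linarith) _
    rw [Real.norm_eq_abs, abs_of_nonneg h5, Real.norm_eq_abs, abs_of_nonneg h6] at h2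
    linarith
  obtain ⟨x0, h0⟩ := Filter.eventually_atTop.1 (e1.and e6)
  refine ⟨max 3 (max x1 x0), le_max_left _ _, fun x hx => ?_⟩
  have hx3 : 3 ≤ x := (le_max_left _ _).trans hx
  have hx4 : max x1 x0 ≤ x := (le_max_right _ _).trans hx
  obtain ⟨a1, a2⟩ := h0 x ((le_max_right _ _).trans hx4)
  exact ⟨(le_max_left _ _).trans hx4, hx3, a1, a2⟩

/-- 1/φ(q) ≤ 3 L/q -/
private lemma Qbd_tot (L : ℝ) (q : ℕ) (hL : 1 ≤ L) (hq : 1 ≤ q) (hqL : Real.log q ≤ L) :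
    1 / (q.totient : ℝ) ≤ 3 * L * (1 / (q : ℝ)) := by
  have h1 := Pool.Agent.Lib.EH.le_totient q
  have h2 := Pool.Agent.Lib.EH.card_primeFactors_le hq
  have hφ : (0 : ℝ) < q.totient := by exact_mod_cast Nat.totient_pos.2 hq
  have hq0 : (0 : ℝ) < q := by exact_mod_cast hq
  have h3 : ((q.primeFactors.card : ℝ) + 1) * q.totient ≤ 3 * L * q.totient :=
    mul_le_mul_of_nonneg_right (by linarith) hφ.le
  rw [mul_one_div, div_le_div_iff₀ hφ hq0, one_mul]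
  exact h1.trans h3

theorem tQbd (h1 : QbvStmt) : QbdStmt := by
  classical
  intro ε ζ A U hε hε1 hζ hA hU
  obtain ⟨C, x1, hC, hx1, hm⟩ := h1 (ε / 2) (A + ζ + U + 2) (by linarith) (by linarith) (by linarith)
  obtain ⟨x0, hx0, hev⟩ := Qbd_ev ε ζ x1 hε
  refine ⟨3 * C, x0, by linarith, hx0, fun x QB hx hQ => ?_⟩
  obtain ⟨a1, a2, a3, a4⟩ := hev x hx
  have hxpos : 0 < x := by linarith
  set L := Real.log x with hLdef
  have hL0 : 0 < L := by linarith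
  -- the witnesses
  have hw : ∀ q : ℕ, ∃ t : ℕ × ℤ × ℝ, q ∈ QB → (1 ≤ t.1 ∧ (t.1 : ℝ) ≤ L ^ ζ ∧
      Int.gcd t.2.1 ((q * t.1 : ℕ) : ℤ) = 1 ∧ 2 ≤ t.2.2 ∧ t.2.2 ≤ x ∧
      x / q * L ^ (-A) < |resErr t.2.2 (q * t.1) t.2.1|) := by
    intro q
    by_cases hq : q ∈ QB
    · have h2 := (hQ q hq).2.2
      unfold Gq at h2
      push Not at h2
      obtain ⟨r, a, y, b1, b2, b3, b4, b5, b6⟩ := h2
      exact ⟨(r, a, y), fun _ => ⟨b1, b2, b3, b4, b5, b6⟩⟩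
    · exact ⟨(0, 0, 0), fun h => absurd h hq⟩
  choose t ht using hw
  have hR1 : 0 ≤ L ^ ζ := Real.rpow_nonneg hL0.le _
  have hRle : ((⌊L ^ ζ⌋₊ : ℕ) : ℝ) ≤ L ^ ζ := Nat.floor_le hR1
  have key := hm x ⌊L ^ ζ⌋₊ QB (fun q r => if r = (t q).1 then (t q).2.1 else 0)
    (fun q r => if q ∈ QB ∧ r = (t q).1 then (t q).2.2 else 2) a1 (by
      intro q hq
      obtain ⟨c1, c2, c3⟩ := hQ q hq
      refine ⟨c1, ?_⟩
      have e1 : x ^ (1 / 2 - ε / 2) = x ^ (1 / 2 - ε) * x ^ (ε / 2) := by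
        rw [← Real.rpow_add hxpos]
        congr 1
        ring
      rw [e1]
      exact mul_le_mul c2 (hRle.trans a4) (Nat.cast_nonneg _) (Real.rpow_nonneg hxpos.le _)) (by
      intro q r
      split_ifs with h
      · exact ⟨(ht q h.1).2.2.2.1, (ht q h.1).2.2.2.2.1⟩
      · exact ⟨le_refl _, by linarith⟩)
  have low : ∑ q ∈ QB, x / q * L ^ (-A) ≤ ∑ r ∈ Icc 1 ⌊L ^ ζ⌋₊,
      ∑ q ∈ QB.filter (fun q => Int.gcd (if r = (t q).1 then (t q).2.1 else 0) ((q * r : ℕ) : ℤ) = 1),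
        |resErr (if q ∈ QB ∧ r = (t q).1 then (t q).2.2 else 2) (q * r)
          (if r = (t q).1 then (t q).2.1 else 0)| := by
    simp only [Finset.sum_filter]
    rw [Finset.sum_comm]
    refine Finset.sum_le_sum fun q hq => ?_
    obtain ⟨d1, d2, d3, d4, d5, d6⟩ := ht q hq
    have hmem : (t q).1 ∈ Icc 1 ⌊L ^ ζ⌋₊ := Finset.mem_Icc.2 ⟨d1, Nat.le_floor d2⟩
    have hs := Finset.single_le_sum (s := Icc 1 ⌊L ^ ζ⌋₊) (f := fun r =>
      if Int.gcd (if r = (t q).1 then (t q).2.1 else 0) ((q * r : ℕ) : ℤ) = 1 then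
        |resErr (if q ∈ QB ∧ r = (t q).1 then (t q).2.2 else 2) (q * r)
          (if r = (t q).1 then (t q).2.1 else 0)| else 0) (fun r _ => by
        split_ifs <;> positivity) hmem
    refine le_trans ?_ hs
    rw [if_pos rfl, if_pos d3, if_pos ⟨hq, rfl⟩]
    exact d6.le
  have h5 := low.trans key
  have h6 : ∑ q ∈ QB, x / q * L ^ (-A) = x * L ^ (-A) * ∑ q ∈ QB, 1 / (q : ℝ) := by
    rw [Finset.mul_sum]
    refine Finset.sum_congr rfl fun q _ => ?_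
    ring
  rw [h6] at h5
  have h7 : (⌊L ^ ζ⌋₊ : ℝ) * (C * (x / L ^ (A + ζ + U + 2))) ≤ L ^ ζ * (C * (x / L ^ (A + ζ + U + 2))) :=
    mul_le_mul_of_nonneg_right hRle (by positivity)
  have h8 : L ^ ζ * (C * (x / L ^ (A + ζ + U + 2))) = x * L ^ (-A) * (C * L ^ (-U - 2)) := by
    have e1 : L ^ (A + ζ + U + 2) = L ^ ζ * L ^ A * L ^ (U + 2) := by
      rw [← Real.rpow_add hL0, ← Real.rpow_add hL0]
      congr 1
      ring
    have e2 : L ^ (-A) = (L ^ A)⁻¹ := Real.rpow_neg hL0.le _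
    have e3 : L ^ (-U - 2) = (L ^ (U + 2))⁻¹ := by
      rw [← Real.rpow_neg hL0.le]
      congr 1
      ring
    have p1 : 0 < L ^ ζ := Real.rpow_pos_of_pos hL0 _
    have p2 : 0 < L ^ A := Real.rpow_pos_of_pos hL0 _
    have p3 : 0 < L ^ (U + 2) := Real.rpow_pos_of_pos hL0 _
    rw [e1, e2, e3]
    field_simp
  have h9 : ∑ q ∈ QB, 1 / (q : ℝ) ≤ C * L ^ (-U - 2) := by
    have hp : 0 < x * L ^ (-A) := by positivity
    refine le_of_mul_le_mul_left ?_ hp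
    rw [← h8]
    exact h5.trans h7
  have h10 : ∑ q ∈ QB, 1 / (q.totient : ℝ) ≤ 3 * L * ∑ q ∈ QB, 1 / (q : ℝ) := by
    rw [Finset.mul_sum]
    refine Finset.sum_le_sum fun q hq => ?_
    obtain ⟨c1, c2, c3⟩ := hQ q hq
    refine Qbd_tot L q a3 c1 ?_
    have hq0 : (0 : ℝ) < q := by exact_mod_cast c1
    refine Real.log_le_log hq0 (c2.trans ?_)
    calc x ^ (1 / 2 - ε) ≤ x ^ (1 : ℝ) := Real.rpow_le_rpow_of_exponent_le (by linarith) (by linarith)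
      _ = x := Real.rpow_one x
  refine h10.trans ?_
  have h11 : 3 * L * ∑ q ∈ QB, 1 / (q : ℝ) ≤ 3 * L * (C * L ^ (-U - 2)) :=
    mul_le_mul_of_nonneg_left h9 (by linarith)
  refine h11.trans ?_
  have h12 : L * L ^ (-U - 2) ≤ L ^ (-U) := by
    calc L * L ^ (-U - 2) = L ^ (-U - 1) := by
          nth_rewrite 1 [← Real.rpow_one L]
          rw [← Real.rpow_add hL0]
          congr 1
          ring
      _ ≤ L ^ (-U) := Real.rpow_le_rpow_of_exponent_le a3 (by linarith)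
  have h13 : 3 * L * (C * L ^ (-U - 2)) = 3 * C * (L * L ^ (-U - 2)) := by ring
  rw [h13]
  exact mul_le_mul_of_nonneg_left h12 (by linarith)

end Pool.Agent.Lib.TR
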