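import Pool.Agent.Lib.TR.SpecQ

/-!
MP_00e23e_nt, directory Lib/TR, module Qbv (helper32): Bombieri-Vinogradov for multiples.
-/

set_option autoImplicit false

namespace Pool.Agent.Lib.TR

open Finset Pool.Agent.Lib.EH3 Pool.Agent.Results.MP_00e23e_nt

/-- The residue class as a natural number in [1, d]. -/
private theorem Qbv_cls (d : ℕ) (a : ℤ) (hd : 1 ≤ d) (ha : Int.gcd a d = 1) :
    ∃ l : ℕ, 1 ≤ l ∧ l ≤ d ∧ l.Coprime d ∧ ∀ n : ℕ, n ≡ l [MOD d] ↔ (d : ℤ) ∣ (n : ℤ) - a := by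
  have hd0 : (d : ℤ) ≠ 0 := by omega
  have hnn : 0 ≤ a % (d : ℤ) := Int.emod_nonneg a hd0
  have hlt : a % (d : ℤ) < d := Int.emod_lt_of_pos a (by omega)
  have hl : (((a % (d : ℤ)).toNat : ℕ) : ℤ) = a % (d : ℤ) := Int.toNat_of_nonneg hnn
  have hco : ((a % (d : ℤ)).toNat).Coprime d := by
    have h1 : Int.gcd (a % (d : ℤ)) d = 1 := by
      rw [Int.gcd_emod]
      exact ha
    rw [← hl, Int.gcd_natCast_natCast] at h1
    exact h1
  have hcl : ∀ n : ℕ, n ≡ (a % (d : ℤ)).toNat [MOD d] ↔ (d : ℤ) ∣ (n : ℤ) - a := by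
    intro n
    rw [← Int.natCast_modEq_iff, hl]
    constructor
    · intro h
      have h2 : (n : ℤ) ≡ a [ZMOD d] := h.trans (Int.mod_modEq a d)
      exact (Int.modEq_iff_dvd.1 h2.symm)
    · intro h
      have h2 : a ≡ (n : ℤ) [ZMOD d] := Int.modEq_iff_dvd.2 h
      exact h2.symm.trans (Int.mod_modEq a d).symm
  by_cases h0 : (a % (d : ℤ)).toNat = 0
  · have hm : d ≡ (a % (d : ℤ)).toNat [MOD d] := by
      rw [h0]
      exact (Nat.modEq_zero_iff_dvd).2 dvd_rfl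
    refine ⟨d, hd, le_rfl, ?_, fun n => ?_⟩
    · have := hm.gcd_eq
      unfold Nat.Coprime
      rw [this]
      exact hco
    · rw [← hcl n]
      exact ⟨fun h => h.trans hm, fun h => h.trans hm.symm⟩
  · exact ⟨(a % (d : ℤ)).toNat, by omega, by omega, hco, hcl⟩

/-- The error for an integer residue is at most the largest error. -/
private theorem Qbv_res (y : ℝ) (d : ℕ) (a : ℤ) (hd : 1 ≤ d) (ha : Int.gcd a d = 1) :
    |resErr y d a| ≤ maxErr y d := by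
  obtain ⟨l, h1, h2, h3, h4⟩ := Qbv_cls d a hd ha
  have e1 : resCount y d a = primeCount y d l := by
    unfold resCount primeCount
    refine congrArg Finset.card (Finset.filter_congr fun p _ => ?_)
    rw [h4 p]
  have e2 : resErr y d a = err y d l := by
    unfold resErr err
    rw [e1]
  rw [e2]
  exact Pool.Agent.Lib.EH.le_maxErr y d l h1 h2 h3

/-- The numerical condition. -/
private theorem Qbv_num (ε U : ℝ) (hε : 0 < ε) :
    ∃ x0 : ℝ, 16 ≤ x0 ∧ ∀ x : ℝ, x0 ≤ x → 1 ≤ Real.log x ∧ 4 * (Real.log x) ^ (U + 2) ≤ x ^ ε := by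
  have e1 : ∀ᶠ x : ℝ in Filter.atTop, 1 ≤ Real.log x := Real.tendsto_log_atTop.eventually_ge_atTop 1
  have e2 : ∀ᶠ x : ℝ in Filter.atTop, 4 * Real.log x ^ (U + 2) ≤ x ^ ε := by
    have h1 := (isLittleO_log_rpow_rpow_atTop (U + 2) hε).def (show (0 : ℝ) < 1 / 4 by norm_num)
    filter_upwards [h1, e1, Filter.eventually_ge_atTop 1] with x h3 h4 h5
    rw [Real.norm_eq_abs, Real.norm_eq_abs,
      abs_of_nonneg (Real.rpow_nonneg (by linarith) _),
      abs_of_nonneg (Real.rpow_nonneg (by linarith) _)] at h3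
    linarith
  obtain ⟨x1, hx1⟩ := Filter.eventually_atTop.1 (e1.and e2)
  exact ⟨max 16 x1, le_max_left _ _, fun x hx => hx1 x ((le_max_right _ _).trans hx)⟩

/-- The second term of the bound. -/
private theorem Qbv_sec (ε U x : ℝ) (D : ℕ) (hx : 16 ≤ x) (hL : 1 ≤ Real.log x)
    (hn : 4 * (Real.log x) ^ (U + 2) ≤ x ^ ε) (hD1 : 1 ≤ D) (hD : (D : ℝ) ≤ x ^ (1 / 2 - ε)) :
    Real.sqrt x * D * (Real.log (Pool.Agent.Lib.BV.Kf x D) * Real.log (Real.log (Pool.Agent.Lib.BV.Kf x D))) ≤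
      x / (Real.log x) ^ U := by
  have hx0 : 0 < x := by linarith
  have hD1' : (1 : ℝ) ≤ D := by exact_mod_cast hD1
  have hs0 : 0 ≤ Real.sqrt x := Real.sqrt_nonneg x
  have hsx : Real.sqrt x ≤ x := by
    rw [Real.sqrt_le_left (by linarith)]
    nlinarith
  have hK1 : 16 ≤ Pool.Agent.Lib.BV.Kf x D := by
    unfold Pool.Agent.Lib.BV.Kf
    have : 0 ≤ Real.sqrt x / ((D : ℝ) * Real.log x) := by positivity
    linarith
  have hK2 : Pool.Agent.Lib.BV.Kf x D ≤ x ^ 2 := by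
    unfold Pool.Agent.Lib.BV.Kf
    have h1 : Real.sqrt x / ((D : ℝ) * Real.log x) ≤ Real.sqrt x := by
      apply div_le_self hs0
      nlinarith
    nlinarith
  have hlK1 : 1 ≤ Real.log (Pool.Agent.Lib.BV.Kf x D) := by
    rw [Real.le_log_iff_exp_le (by linarith)]
    have := Real.exp_one_lt_d9
    linarith
  have hlK2 : Real.log (Pool.Agent.Lib.BV.Kf x D) ≤ 2 * Real.log x := by
    have h1 := Real.log_le_log (by linarith) hK2
    rw [Real.log_pow] at h1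
    exact_mod_cast h1
  have hllK : Real.log (Real.log (Pool.Agent.Lib.BV.Kf x D)) ≤ 2 * Real.log x := by
    have h1 := Real.log_le_sub_one_of_pos (show 0 < Real.log (Pool.Agent.Lib.BV.Kf x D) by linarith)
    linarith
  have hprod : Real.log (Pool.Agent.Lib.BV.Kf x D) * Real.log (Real.log (Pool.Agent.Lib.BV.Kf x D)) ≤
      4 * (Real.log x) ^ (2 : ℝ) := by
    rw [Real.rpow_two]
    have h1 : Real.log (Pool.Agent.Lib.BV.Kf x D) * Real.log (Real.log (Pool.Agent.Lib.BV.Kf x D)) ≤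
        Real.log (Pool.Agent.Lib.BV.Kf x D) * (2 * Real.log x) :=
      mul_le_mul_of_nonneg_left hllK (by linarith)
    nlinarith
  have hLU : 0 < (Real.log x) ^ U := Real.rpow_pos_of_pos (by linarith) U
  have h2 : Real.sqrt x * D ≤ x ^ (1 - ε) := by
    calc Real.sqrt x * D ≤ Real.sqrt x * x ^ (1 / 2 - ε) := mul_le_mul_of_nonneg_left hD hs0
      _ = x ^ (1 - ε) := by
        rw [Real.sqrt_eq_rpow, ← Real.rpow_add hx0]
        congr 1
        ring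
  have h3 : 0 ≤ Real.sqrt x * D := by positivity
  have h4 : 0 ≤ 4 * (Real.log x) ^ (2 : ℝ) := by positivity
  calc Real.sqrt x * D * (Real.log (Pool.Agent.Lib.BV.Kf x D) * Real.log (Real.log (Pool.Agent.Lib.BV.Kf x D)))
      ≤ Real.sqrt x * D * (4 * (Real.log x) ^ (2 : ℝ)) := mul_le_mul_of_nonneg_left hprod h3
    _ ≤ x ^ (1 - ε) * (4 * (Real.log x) ^ (2 : ℝ)) := mul_le_mul_of_nonneg_right h2 h4
    _ ≤ x / (Real.log x) ^ U := by
      rw [le_div_iff₀ hLU]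
      have h5 : (Real.log x) ^ (2 : ℝ) * (Real.log x) ^ U = (Real.log x) ^ (U + 2) := by
        rw [← Real.rpow_add (by linarith)]
        congr 1
        ring
      have h6 : x ^ (1 - ε) * x ^ ε = x := by
        rw [← Real.rpow_add hx0]
        simp
      calc x ^ (1 - ε) * (4 * (Real.log x) ^ (2 : ℝ)) * (Real.log x) ^ U
          = x ^ (1 - ε) * (4 * ((Real.log x) ^ (2 : ℝ) * (Real.log x) ^ U)) := by ring
        _ = x ^ (1 - ε) * (4 * (Real.log x) ^ (U + 2)) := by rw [h5]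
        _ ≤ x ^ (1 - ε) * x ^ ε := mul_le_mul_of_nonneg_left hn (by positivity)
        _ = x := h6

private theorem Qbv_nonneg (y : ℝ) (d : ℕ) : 0 ≤ maxErr y d := by
  unfold maxErr
  apply Real.sSup_nonneg
  rintro z ⟨l, _, _, _, rfl⟩
  exact abs_nonneg _

/-- One value of r. -/
private theorem Qbv_one (x ε : ℝ) (R r : ℕ) (QQ : Finset ℕ) (s : ℕ → ℕ → ℤ) (y : ℕ → ℕ → ℝ)
    (hr1 : 1 ≤ r) (hr2 : r ≤ R) (hQ : ∀ q ∈ QQ, 1 ≤ q ∧ (q : ℝ) * R ≤ x ^ (1 / 2 - ε)) :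
    ∑ q ∈ QQ.filter (fun q => Int.gcd (s q r) ((q * r : ℕ) : ℤ) = 1), |resErr (y q r) (q * r) (s q r)| ≤
      ∑ d ∈ Icc 1 ⌊x ^ (1 / 2 - ε)⌋₊, maxErr (y (d / r) r) d := by
  have h1 : ∑ q ∈ QQ.filter (fun q => Int.gcd (s q r) ((q * r : ℕ) : ℤ) = 1),
      |resErr (y q r) (q * r) (s q r)| ≤
      ∑ q ∈ QQ.filter (fun q => Int.gcd (s q r) ((q * r : ℕ) : ℤ) = 1), maxErr (y q r) (q * r) := by
    apply Finset.sum_le_sum
    intro q hq
    rw [Finset.mem_filter] at hq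
    exact Qbv_res _ _ _ (Nat.mul_pos (hQ q hq.1).1 hr1) hq.2
  have h2 : ∑ q ∈ QQ.filter (fun q => Int.gcd (s q r) ((q * r : ℕ) : ℤ) = 1), maxErr (y q r) (q * r) =
      ∑ d ∈ (QQ.filter (fun q => Int.gcd (s q r) ((q * r : ℕ) : ℤ) = 1)).image (fun q => q * r),
        maxErr (y (d / r) r) d := by
    rw [Finset.sum_image]
    · refine Finset.sum_congr rfl fun q _ => ?_
      rw [Nat.mul_div_cancel _ hr1]
    · intro a _ b _ hab
      exact Nat.eq_of_mul_eq_mul_right hr1 hab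
  rw [h2] at h1
  refine h1.trans (Finset.sum_le_sum_of_subset_of_nonneg ?_ fun d _ _ => Qbv_nonneg _ _)
  intro d hd
  rw [Finset.mem_image] at hd
  obtain ⟨q, hq, rfl⟩ := hd
  rw [Finset.mem_filter] at hq
  obtain ⟨h3, h4⟩ := hQ q hq.1
  rw [Finset.mem_Icc]
  refine ⟨Nat.mul_pos h3 hr1, Nat.le_floor ?_⟩
  refine le_trans ?_ h4
  push_cast
  exact mul_le_mul_of_nonneg_left (by exact_mod_cast hr2) (by positivity)

theorem tQbv (h1 : Pool.Agent.Lib.BV.ExtStmt) : QbvStmt := by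
  intro ε U hε hε2 hU
  obtain ⟨C, hC⟩ := h1 U hU
  obtain ⟨x0, hx0, hnum⟩ := Qbv_num ε U hε
  refine ⟨2 * max C 1, x0, by have := le_max_right C 1; linarith, hx0, ?_⟩
  intro x R QQ s y hx hQ hy
  obtain ⟨hL, hn⟩ := hnum x hx
  have hx16 : 16 ≤ x := hx0.trans hx
  have hxL : 0 ≤ x / (Real.log x) ^ U :=
    div_nonneg (by linarith) (Real.rpow_nonneg (by linarith) _)
  have hC1 : (1 : ℝ) ≤ max C 1 := le_max_right _ _
  have key : ∀ r ∈ Icc 1 R,
      ∑ q ∈ QQ.filter (fun q => Int.gcd (s q r) ((q * r : ℕ) : ℤ) = 1), |resErr (y q r) (q * r) (s q r)| ≤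
        2 * max C 1 * (x / (Real.log x) ^ U) := by
    intro r hr
    rw [Finset.mem_Icc] at hr
    refine (Qbv_one x ε R r QQ s y hr.1 hr.2 hQ).trans ?_
    by_cases hD : ⌊x ^ (1 / 2 - ε)⌋₊ = 0
    · rw [hD]
      simp only [Finset.Icc_eq_empty_of_lt (show (0 : ℕ) < 1 by norm_num), Finset.sum_empty]
      positivity
    · have hD1 : 1 ≤ ⌊x ^ (1 / 2 - ε)⌋₊ := Nat.one_le_iff_ne_zero.2 hD
      have hD2 : ((⌊x ^ (1 / 2 - ε)⌋₊ : ℕ) : ℝ) ≤ x ^ (1 / 2 - ε) :=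
        Nat.floor_le (Real.rpow_nonneg (by linarith) _)
      have h3 := hC x ⌊x ^ (1 / 2 - ε)⌋₊ (fun d => y (d / r) r) hx16 hD1 (fun d => hy _ _)
      have h4 := Qbv_sec ε U x ⌊x ^ (1 / 2 - ε)⌋₊ hx16 hL hn hD1 hD2
      refine h3.trans ?_
      have h5 : 0 ≤ Real.sqrt x * (⌊x ^ (1 / 2 - ε)⌋₊ : ℕ) *
          (Real.log (Pool.Agent.Lib.BV.Kf x ⌊x ^ (1 / 2 - ε)⌋₊) *
            Real.log (Real.log (Pool.Agent.Lib.BV.Kf x ⌊x ^ (1 / 2 - ε)⌋₊))) := by
        have hK1 : 16 ≤ Pool.Agent.Lib.BV.Kf x ⌊x ^ (1 / 2 - ε)⌋₊ := by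
          unfold Pool.Agent.Lib.BV.Kf
          have : 0 ≤ Real.sqrt x / (((⌊x ^ (1 / 2 - ε)⌋₊ : ℕ) : ℝ) * Real.log x) := by positivity
          linarith
        have hlK1 : 1 ≤ Real.log (Pool.Agent.Lib.BV.Kf x ⌊x ^ (1 / 2 - ε)⌋₊) := by
          rw [Real.le_log_iff_exp_le (by linarith)]
          have := Real.exp_one_lt_d9
          linarith
        have h6 := Real.log_nonneg hlK1
        positivity
      calc C * (x / Real.log x ^ U + Real.sqrt x * (⌊x ^ (1 / 2 - ε)⌋₊ : ℕ) *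
            (Real.log (Pool.Agent.Lib.BV.Kf x ⌊x ^ (1 / 2 - ε)⌋₊) *
              Real.log (Real.log (Pool.Agent.Lib.BV.Kf x ⌊x ^ (1 / 2 - ε)⌋₊))))
          ≤ max C 1 * (x / Real.log x ^ U + Real.sqrt x * (⌊x ^ (1 / 2 - ε)⌋₊ : ℕ) *
            (Real.log (Pool.Agent.Lib.BV.Kf x ⌊x ^ (1 / 2 - ε)⌋₊) *
              Real.log (Real.log (Pool.Agent.Lib.BV.Kf x ⌊x ^ (1 / 2 - ε)⌋₊)))) :=
            mul_le_mul_of_nonneg_right (le_max_left _ _) (by linarith)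
        _ ≤ max C 1 * (x / Real.log x ^ U + x / Real.log x ^ U) :=
            mul_le_mul_of_nonneg_left (by linarith) (by linarith)
        _ = 2 * max C 1 * (x / (Real.log x) ^ U) := by ring
  refine (Finset.sum_le_sum key).trans ?_
  rw [Finset.sum_const, Nat.card_Icc, nsmul_eq_mul]
  simp

end Pool.Agent.Lib.TR
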