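import Pool.Agent.Lib.TR.SpecQ

/-!
MP_00e23e_nt, directory Lib/TR, chapter Q, module Qfi: the final theorem TqStmt.
-/

set_option autoImplicit false

namespace Pool.Agent.Lib.TR

open Finset Pool.Agent.Lib.EH3 Pool.Agent.Results.MP_00e23e_nt

/-- the sum of the reciprocals of the totients -/
private noncomputable def Qfi_S (DD : Finset (ℕ × ℕ)) : ℝ :=
  ∑ p ∈ DD, 1 / ((p.1 * p.2).totient : ℝ)

/-- the right side without constant -/
private noncomputable def Qfi_T (U x : ℝ) (H : ℕ) (DD : Finset (ℕ × ℕ)) : ℝ :=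
  H * x * ((Real.log (Real.log x) / Real.log H + (Real.log (Real.log x)) ^ 2 / Real.log x) *
        (1 / Real.log x * Qfi_S DD) + (Real.log x) ^ (-U))

private lemma Qfi_S_nonneg (DD : Finset (ℕ × ℕ)) : 0 ≤ Qfi_S DD :=
  Finset.sum_nonneg fun _ _ => by positivity

private lemma Qfi_L (x : ℝ) (hx : 3 ≤ x) : 1 < Real.log x ∧ 0 < Real.log (Real.log x) := by
  have h1 : Real.exp 1 < 3 := lt_of_lt_of_le Real.exp_one_lt_d9 (by norm_num)
  have h2 : 1 < Real.log x := by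
    rw [Real.lt_log_iff_exp_lt (by linarith)]
    linarith
  exact ⟨h2, Real.log_pos h2⟩

private lemma Qfi_H (H : ℕ) (hH : 2 ≤ H) : 0 < Real.log H := by
  apply Real.log_pos
  have : (2 : ℝ) ≤ H := by exact_mod_cast hH
  linarith

private lemma Qfi_gcd (b : ℤ) (q e : ℕ) (j : ℤ) (h1 : Int.gcd b q = 1)
    (h2 : Int.gcd (b + q * j) e = 1) : Int.gcd (b + q * j) ((q * e : ℕ) : ℤ) = 1 := by
  rw [← Int.isCoprime_iff_gcd_eq_one] at h1 h2 ⊢
  push_cast
  exact IsCoprime.mul_right (h1.add_mul_left_left j) h2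

private lemma Qfi_Sj (H q e : ℕ) (b : ℤ) (y : ℕ → ℝ) (M : ℝ) (hM : 0 ≤ M)
    (h : ∀ j : ℕ, Int.gcd (b + q * j) e = 1 → |resErr (y j) (q * e) (b + q * j)| ≤ M) :
    Sj H q e b y ≤ H * M := by
  unfold Sj
  have h1 : ∑ j ∈ (range H).filter (fun j : ℕ => Int.gcd (b + q * j) e = 1),
      |resErr (y j) (q * e) (b + q * j)| ≤
      ∑ j ∈ (range H).filter (fun j : ℕ => Int.gcd (b + q * j) e = 1), M :=
    Finset.sum_le_sum fun j hj => h j (Finset.mem_filter.mp hj).2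
  refine h1.trans ?_
  rw [Finset.sum_const, nsmul_eq_mul]
  refine mul_le_mul_of_nonneg_right ?_ hM
  have h2 := Finset.card_filter_le (range H) (fun j : ℕ => Int.gcd (b + q * j) e = 1)
  rw [Finset.card_range] at h2
  exact_mod_cast h2

private lemma Qfi_res (x y : ℝ) (d : ℕ) (a : ℤ) (hy : 2 ≤ y) (hyx : y ≤ x) :
    |resErr y d a| ≤ 2 * x := by
  have h1 : (resCount y d a : ℝ) ≤ y := by
    unfold resCount
    have h2 := Finset.card_filter_le (Icc 1 ⌊y⌋₊) (fun p : ℕ => p.Prime ∧ (d : ℤ) ∣ (p : ℤ) - a)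
    rw [Nat.card_Icc, Nat.add_sub_cancel] at h2
    have h3 : (⌊y⌋₊ : ℝ) ≤ y := Nat.floor_le (by linarith)
    have h4 : (((Icc 1 ⌊y⌋₊).filter (fun p : ℕ => p.Prime ∧ (d : ℤ) ∣ (p : ℤ) - a)).card : ℝ) ≤
        (⌊y⌋₊ : ℝ) := by exact_mod_cast h2
    exact h4.trans h3
  have h0 : (0 : ℝ) ≤ (resCount y d a : ℝ) := Nat.cast_nonneg _
  have h5 := Pool.Agent.Lib.EH.li_nonneg hy
  have h6 := Pool.Agent.Lib.EH.li_le hy
  have h7 : 0 ≤ li y / (d.totient : ℝ) := div_nonneg h5 (Nat.cast_nonneg _)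
  have h8 : li y / (d.totient : ℝ) ≤ li y := by
    rcases Nat.eq_zero_or_pos d.totient with h | h
    · rw [h]
      simp only [Nat.cast_zero, div_zero]
      exact h5
    · refine div_le_self h5 ?_
      exact_mod_cast h
  unfold resErr
  rw [abs_le]
  constructor <;> linarith

private lemma Qfi_card (ε x : ℝ) (H K : ℕ) (DD : Finset (ℕ × ℕ)) (b : ℕ → ℕ → ℤ) (kk : ℕ → ℕ → ℕ)
    (hε : 0 < ε) (hx : 3 ≤ x) (hD : Dat ε x H K DD b kk) : (DD.card : ℝ) ≤ x * x := by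
  have hsub : DD ⊆ (Icc 1 ⌊x⌋₊) ×ˢ (Icc 1 ⌊x⌋₊) := by
    intro p hp
    obtain ⟨h1, h2, _, h4, _, _⟩ := hD p hp
    have h5 : x ^ (1 - ε) ≤ x := by
      calc x ^ (1 - ε) ≤ x ^ (1 : ℝ) := Real.rpow_le_rpow_of_exponent_le (by linarith) (by linarith)
        _ = x := Real.rpow_one x
    have h1' : (1 : ℝ) ≤ p.1 := by exact_mod_cast h1
    have h2' : (1 : ℝ) ≤ p.2 := by exact_mod_cast h2
    rw [Finset.mem_product, Finset.mem_Icc, Finset.mem_Icc]
    refine ⟨⟨h1, Nat.le_floor ?_⟩, ⟨h2, Nat.le_floor ?_⟩⟩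
    · nlinarith
    · nlinarith
  have hc := Finset.card_le_card hsub
  rw [Finset.card_product, Nat.card_Icc, Nat.add_sub_cancel] at hc
  have h3 : (⌊x⌋₊ : ℝ) ≤ x := Nat.floor_le (by linarith)
  have h4 : (DD.card : ℝ) ≤ (⌊x⌋₊ : ℝ) * ⌊x⌋₊ := by exact_mod_cast hc
  exact h4.trans (mul_le_mul h3 h3 (Nat.cast_nonneg _) (by linarith))

private lemma Qfi_Dat (δ ε x : ℝ) (H K : ℕ) (DD : Finset (ℕ × ℕ)) (b : ℕ → ℕ → ℤ) (kk : ℕ → ℕ → ℕ)
    (hδ : δ ≤ ε) (hx : 3 ≤ x) (hD : Dat ε x H K DD b kk) : Dat δ x H K DD b kk := by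
  intro p hp
  obtain ⟨h1, h2, h3, h4, h5, h6⟩ := hD p hp
  refine ⟨h1, h2, h3.trans ?_, h4.trans ?_, h5, h6⟩
  · exact Real.rpow_le_rpow_of_exponent_le (by linarith) (by linarith)
  · exact Real.rpow_le_rpow_of_exponent_le (by linarith) (by linarith)

/-- the sum over the pairs for one j -/
private noncomputable def Qfi_F (DD : Finset (ℕ × ℕ)) (B : ℕ × ℕ → ℤ) (y : ℕ → ℕ → ℕ → ℝ) (j : ℤ) : ℝ :=
  ∑ p ∈ DD, if Int.gcd (B p + p.1 * j) p.2 = 1 then
    |resErr (y p.1 p.2 j.toNat) (p.1 * p.2) (B p + p.1 * j)| else 0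

private lemma Qfi_range (g : ℤ → ℝ) (A : ℤ) (H : ℕ) :
    ∑ j ∈ Ico A (A + H), g j = ∑ i ∈ range H, g (A + i) := by
  refine Finset.sum_nbij' (fun j : ℤ => (j - A).toNat) (fun i : ℕ => A + (i : ℤ)) ?_ ?_ ?_ ?_ ?_
  · intro j hj
    rw [Finset.mem_Ico] at hj
    rw [Finset.mem_range]
    omega
  · intro i hi
    rw [Finset.mem_range] at hi
    rw [Finset.mem_Ico]
    omega
  · intro j hj
    rw [Finset.mem_Ico] at hj
    have : ((j - A).toNat : ℤ) = j - A := Int.toNat_of_nonneg (by omega)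
    simp only [this]
    ring
  · intro i _
    simp only [add_sub_cancel_left, Int.toNat_natCast]
  · intro j hj
    rw [Finset.mem_Ico] at hj
    have : ((j - A).toNat : ℤ) = j - A := Int.toNat_of_nonneg (by omega)
    rw [this]
    congr 1
    ring

private lemma Qfi_sum (DD : Finset (ℕ × ℕ)) (B : ℕ × ℕ → ℤ) (y : ℕ → ℕ → ℕ → ℝ) (A : ℤ) (H : ℕ)
    (hA : 0 ≤ A) : ∑ j ∈ Ico A (A + H), Qfi_F DD B y j =
      ∑ p ∈ DD, Sj H p.1 p.2 (B p + p.1 * A) (fun i => y p.1 p.2 (A.toNat + i)) := by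
  unfold Qfi_F
  rw [Finset.sum_comm]
  refine Finset.sum_congr rfl fun p _ => ?_
  rw [Qfi_range]
  unfold Sj
  rw [Finset.sum_filter]
  refine Finset.sum_congr rfl fun i _ => ?_
  have h1 : B p + (p.1 : ℤ) * (A + (i : ℤ)) = B p + (p.1 : ℤ) * A + (p.1 : ℤ) * (i : ℤ) := by ring
  have h2 : (A + (i : ℤ)).toNat = A.toNat + i := by omega
  rw [h1, h2]

private lemma Qfi_Dat' (δ x : ℝ) (H K : ℕ) (DD : Finset (ℕ × ℕ)) (b : ℕ → ℕ → ℤ) (kk : ℕ → ℕ → ℕ)
    (hD : Dat δ x H K DD b kk) (A : ℤ) (H' : ℕ) (hA : 0 ≤ A) (hAH : A + H' ≤ H) :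
    Dat δ x H' K DD (fun q k => b q k + q * A) kk := by
  intro p hp
  obtain ⟨h1, h2, h3, h4, h5, h6⟩ := hD p hp
  refine ⟨h1, h2, h3, h4, h5, fun k hk => ?_⟩
  obtain ⟨g1, g2, g3⟩ := h6 k hk
  have hAr : (0 : ℝ) ≤ A := by exact_mod_cast hA
  have hAHr : (A : ℝ) + H' ≤ H := by exact_mod_cast hAH
  have hp1 : (0 : ℝ) ≤ p.1 := Nat.cast_nonneg _
  have hm : 0 ≤ (p.1 : ℝ) * A := mul_nonneg hp1 hAr
  refine ⟨?_, ?_, ?_⟩
  · rw [← Int.isCoprime_iff_gcd_eq_one] at g1 ⊢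
    exact g1.add_mul_left_left A
  · push_cast
    linarith
  · push_cast
    have := mul_le_mul_of_nonneg_left hAHr hp1
    linarith

/-- case (a) -/
private lemma Qfi_a (ε U x x0 : ℝ) (H K : ℕ) (DD : Finset (ℕ × ℕ)) (b : ℕ → ℕ → ℤ) (kk : ℕ → ℕ → ℕ)
    (y : ℕ → ℕ → ℕ → ℝ) (hε : 0 < ε) (hU : 0 < U) (hx : 3 ≤ x) (hx0 : x ≤ x0) (hH : 2 ≤ H)
    (hD : Dat ε x H K DD b kk) (hy : ∀ q e j, 2 ≤ y q e j ∧ y q e j ≤ x) :
    ∑ p ∈ DD, Sj H p.1 p.2 (b p.1 (kk p.1 p.2)) (y p.1 p.2) ≤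
      2 * (x0 * x0) * (Real.log x0) ^ U * Qfi_T U x H DD := by
  have hL := Qfi_L x hx
  have hlH := Qfi_H H hH
  have hle : Real.log x ≤ Real.log x0 := Real.log_le_log (by linarith) hx0
  have h1 : ∑ p ∈ DD, Sj H p.1 p.2 (b p.1 (kk p.1 p.2)) (y p.1 p.2) ≤
      DD.card * (H * (2 * x)) := by
    have h2 : ∑ p ∈ DD, Sj H p.1 p.2 (b p.1 (kk p.1 p.2)) (y p.1 p.2) ≤
        ∑ p ∈ DD, (H : ℝ) * (2 * x) := by
      refine Finset.sum_le_sum fun p _ => ?_
      refine Qfi_Sj _ _ _ _ _ _ (by linarith) fun j _ => ?_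
      exact Qfi_res x _ _ _ (hy _ _ _).1 (hy _ _ _).2
    rwa [Finset.sum_const, nsmul_eq_mul] at h2
  have hc := Qfi_card ε x H K DD b kk hε hx hD
  have hHx : 0 ≤ (H : ℝ) * x := mul_nonneg (Nat.cast_nonneg H) (by linarith)
  have hxx : x * x ≤ x0 * x0 := mul_le_mul hx0 hx0 (by linarith) (by linarith)
  have h3 : (DD.card : ℝ) * (H * (2 * x)) ≤ 2 * (x0 * x0) * (H * x) := by
    have h4 : (DD.card : ℝ) * (H * x) ≤ x0 * x0 * (H * x) :=
      mul_le_mul_of_nonneg_right (hc.trans hxx) hHx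
    linarith
  have hLU : 1 ≤ (Real.log x0) ^ U * (Real.log x) ^ (-U) := by
    rw [Real.rpow_neg (by linarith [hL.1])]
    have hp : 0 < (Real.log x) ^ U := Real.rpow_pos_of_pos (by linarith [hL.1]) U
    rw [← div_eq_mul_inv, le_div_iff₀ hp, one_mul]
    exact Real.rpow_le_rpow (by linarith [hL.1]) hle hU.le
  have hT : (H : ℝ) * x * (Real.log x) ^ (-U) ≤ Qfi_T U x H DD := by
    unfold Qfi_T
    refine mul_le_mul_of_nonneg_left ?_ hHx
    have hS := Qfi_S_nonneg DD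
    have h5 : 0 < Real.log x := by linarith [hL.1]
    have h6 : 0 ≤ Real.log (Real.log x) := hL.2.le
    have : 0 ≤ (Real.log (Real.log x) / Real.log H + (Real.log (Real.log x)) ^ 2 / Real.log x) *
        (1 / Real.log x * Qfi_S DD) := by positivity
    linarith
  have hx0p : 0 ≤ x0 := by linarith
  have hx0' : 0 ≤ 2 * (x0 * x0) := by positivity
  have hU0 : 0 ≤ (Real.log x0) ^ U := Real.rpow_nonneg (by linarith [hL.1]) U
  calc ∑ p ∈ DD, Sj H p.1 p.2 (b p.1 (kk p.1 p.2)) (y p.1 p.2)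
      ≤ 2 * (x0 * x0) * (H * x) := h1.trans h3
    _ = 2 * (x0 * x0) * (H * x) * 1 := by ring
    _ ≤ 2 * (x0 * x0) * (H * x) * ((Real.log x0) ^ U * (Real.log x) ^ (-U)) :=
        mul_le_mul_of_nonneg_left hLU (by positivity)
    _ = 2 * (x0 * x0) * (Real.log x0) ^ U * (H * x * (Real.log x) ^ (-U)) := by ring
    _ ≤ _ := mul_le_mul_of_nonneg_left hT (by positivity)

/-- case (b) -/
private lemma Qfi_b (δ U x B C1 : ℝ) (H K : ℕ) (DD : Finset (ℕ × ℕ)) (b : ℕ → ℕ → ℤ) (kk : ℕ → ℕ → ℕ)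
    (y : ℕ → ℕ → ℕ → ℝ) (hx : 3 ≤ x) (hB : 1 ≤ B) (hC1 : 0 < C1) (hH : 2 ≤ H)
    (hHB : (H : ℝ) < (Real.log x) ^ B)
    (hD : Dat δ x H K DD b kk) (hy : ∀ q e j, 2 ≤ y q e j ∧ y q e j ≤ x)
    (hpt : ∀ (y : ℝ) (d : ℕ) (a : ℤ), 2 ≤ y → y ≤ x → 1 ≤ d → (d : ℝ) ≤ x ^ (1 - δ) →
      Int.gcd a d = 1 → |resErr y d a| ≤ C1 * (x / ((d.totient : ℝ) * Real.log x))) :
    ∑ p ∈ DD, Sj H p.1 p.2 (b p.1 (kk p.1 p.2)) (y p.1 p.2) ≤ C1 * B * Qfi_T U x H DD := by
  have hL := Qfi_L x hx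
  have hlH := Qfi_H H hH
  have hL0 : 0 < Real.log x := by linarith [hL.1]
  have hx0 : 0 < x := by linarith
  have h1 : ∑ p ∈ DD, Sj H p.1 p.2 (b p.1 (kk p.1 p.2)) (y p.1 p.2) ≤
      ∑ p ∈ DD, (H : ℝ) * (C1 * (x / (((p.1 * p.2).totient : ℝ) * Real.log x))) := by
    refine Finset.sum_le_sum fun p hp => ?_
    obtain ⟨g1, g2, g3, g4, g5, g6⟩ := hD p hp
    have hM : 0 ≤ C1 * (x / (((p.1 * p.2).totient : ℝ) * Real.log x)) :=
      mul_nonneg hC1.le (div_nonneg hx0.le (mul_nonneg (Nat.cast_nonneg _) hL0.le))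
    refine Qfi_Sj _ _ _ _ _ _ hM fun j hj => ?_
    refine hpt _ _ _ (hy _ _ _).1 (hy _ _ _).2 (Nat.mul_pos g1 g2) (by exact_mod_cast g4) ?_
    exact Qfi_gcd _ _ _ _ (g6 _ g5).1 hj
  have h2 : ∑ p ∈ DD, (H : ℝ) * (C1 * (x / (((p.1 * p.2).totient : ℝ) * Real.log x))) =
      C1 * (H * x * (1 / Real.log x * Qfi_S DD)) := by
    unfold Qfi_S
    rw [Finset.mul_sum, Finset.mul_sum, Finset.mul_sum]
    refine Finset.sum_congr rfl fun p _ => ?_
    have e1 : x / (((p.1 * p.2).totient : ℝ) * Real.log x) =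
        x * (1 / Real.log x * (1 / ((p.1 * p.2).totient : ℝ))) := by
      rw [div_mul_div_comm, one_mul, mul_div_assoc', mul_one, mul_comm ((p.1 * p.2).totient : ℝ)]
    rw [e1]
    ring
  have h3 : 1 ≤ B * (Real.log (Real.log x) / Real.log H) := by
    have h4 : Real.log H ≤ B * Real.log (Real.log x) := by
      rw [← Real.log_rpow hL0]
      exact Real.log_le_log (by positivity) hHB.le
    rw [← mul_div_assoc, le_div_iff₀ hlH]
    linarith
  have hS := Qfi_S_nonneg DD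
  have hl2 := hL.2
  have h5 : 1 / Real.log x * Qfi_S DD ≤ B * ((Real.log (Real.log x) / Real.log H +
      (Real.log (Real.log x)) ^ 2 / Real.log x) * (1 / Real.log x * Qfi_S DD) + (Real.log x) ^ (-U)) := by
    have h6 : 0 ≤ 1 / Real.log x * Qfi_S DD := by positivity
    have h7 : 0 ≤ (Real.log (Real.log x)) ^ 2 / Real.log x * (1 / Real.log x * Qfi_S DD) := by positivity
    have h8 : 0 ≤ (Real.log x) ^ (-U) := Real.rpow_nonneg hL0.le _
    have h9 := mul_le_mul_of_nonneg_right h3 h6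
    have h10 : 0 ≤ B * ((Real.log (Real.log x)) ^ 2 / Real.log x * (1 / Real.log x * Qfi_S DD) +
        (Real.log x) ^ (-U)) := mul_nonneg (by linarith) (by linarith)
    calc 1 / Real.log x * Qfi_S DD = 1 * (1 / Real.log x * Qfi_S DD) := by ring
      _ ≤ B * (Real.log (Real.log x) / Real.log H) * (1 / Real.log x * Qfi_S DD) := h9
      _ ≤ B * (Real.log (Real.log x) / Real.log H) * (1 / Real.log x * Qfi_S DD) +
          B * ((Real.log (Real.log x)) ^ 2 / Real.log x * (1 / Real.log x * Qfi_S DD) +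
        (Real.log x) ^ (-U)) := by linarith
      _ = _ := by ring
  have hHx : 0 ≤ (H : ℝ) * x := mul_nonneg (Nat.cast_nonneg H) hx0.le
  refine h1.trans ?_
  rw [h2]
  unfold Qfi_T
  calc C1 * ((H : ℝ) * x * (1 / Real.log x * Qfi_S DD)) ≤
      C1 * ((H : ℝ) * x * (B * ((Real.log (Real.log x) / Real.log H +
      (Real.log (Real.log x)) ^ 2 / Real.log x) * (1 / Real.log x * Qfi_S DD) + (Real.log x) ^ (-U)))) :=
        mul_le_mul_of_nonneg_left (mul_le_mul_of_nonneg_left h5 hHx) hC1.le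
    _ = _ := by ring

/-- cases (c) and (d) -/
private lemma Qfi_d (h3 : FctStmt) (δ U x B c0 C2 : ℝ) (H K : ℕ) (DD : Finset (ℕ × ℕ)) (b : ℕ → ℕ → ℤ)
    (kk : ℕ → ℕ → ℕ) (y : ℕ → ℕ → ℕ → ℝ) (hx : 3 ≤ x) (hB : 1 ≤ B) (hc0 : 0 < c0) (hC2 : 0 < C2)
    (hL4 : 4 ≤ Real.log x) (hLB : (Real.log (Real.log x)) ^ 2 ≤ c0 / (2 * B) * Real.log x)
    (hH : 2 ≤ H) (hHB : (Real.log x) ^ B ≤ H)
    (hD : Dat δ x H K DD b kk) (hy : ∀ q e j, 2 ≤ y q e j ∧ y q e j ≤ x)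
    (hto : ∀ (H : ℕ) (b : ℕ → ℕ → ℤ) (y : ℕ → ℕ → ℕ → ℝ), Dat δ x H K DD b kk →
      (∀ q e j, 2 ≤ y q e j ∧ y q e j ≤ x) → (Real.log x) ^ B ≤ H →
      (H : ℝ) ≤ Real.exp (c0 * (Real.log x / Real.log (Real.log x))) →
      ∑ p ∈ DD, Sj H p.1 p.2 (b p.1 (kk p.1 p.2)) (y p.1 p.2) ≤
      C2 * (H * (x / Real.log x * (Real.log (Real.log x) / Real.log H) * Qfi_S DD +
        x * (Real.log x) ^ (-U)))) :
    ∑ p ∈ DD, Sj H p.1 p.2 (b p.1 (kk p.1 p.2)) (y p.1 p.2) ≤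
      (C2 + 2 * C2 / c0) * Qfi_T U x H DD := by
  have hL := Qfi_L x hx
  have hlH := Qfi_H H hH
  have hx0 : 0 < x := by linarith
  have hHx : 0 ≤ (H : ℝ) * x := mul_nonneg (Nat.cast_nonneg H) hx0.le
  have hS := Qfi_S_nonneg DD
  set S := Qfi_S DD with hSdef
  set L := Real.log x with hLdef
  set l2 := Real.log L with hl2
  have hl2pos : 0 < l2 := hL.2
  have hLpos : 0 < L := by linarith
  have hLU : 0 ≤ L ^ (-U) := Real.rpow_nonneg hLpos.le _
  have hT : Qfi_T U x H DD = H * x * ((l2 / Real.log H + l2 ^ 2 / L) * (1 / L * S) + L ^ (-U)) := rfl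
  have hT1 : (H : ℝ) * x * ((l2 / Real.log H) * (1 / L * S) + L ^ (-U)) ≤ Qfi_T U x H DD := by
    rw [hT]
    refine mul_le_mul_of_nonneg_left ?_ hHx
    have : 0 ≤ l2 ^ 2 / L * (1 / L * S) := by positivity
    linarith
  have hT2 : (H : ℝ) * x * ((l2 ^ 2 / L) * (1 / L * S) + L ^ (-U)) ≤ Qfi_T U x H DD := by
    rw [hT]
    refine mul_le_mul_of_nonneg_left ?_ hHx
    have : 0 ≤ l2 / Real.log H * (1 / L * S) := by positivity
    linarith
  have hT3 : (H : ℝ) * x * ((l2 ^ 2 / L) * (1 / L * S)) ≤ Qfi_T U x H DD := by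
    refine le_trans (mul_le_mul_of_nonneg_left ?_ hHx) hT2
    linarith
  have hT4 : (H : ℝ) * x * L ^ (-U) ≤ Qfi_T U x H DD := by
    refine le_trans (mul_le_mul_of_nonneg_left ?_ hHx) hT2
    have : 0 ≤ l2 ^ 2 / L * (1 / L * S) := by positivity
    linarith
  have hT0 : 0 ≤ Qfi_T U x H DD := le_trans (by positivity) hT4
  by_cases hE : (H : ℝ) ≤ Real.exp (c0 * (L / l2))
  · refine (hto H b y hD hy hHB hE).trans ?_
    have h1 : C2 * ((H : ℝ) * (x / L * (l2 / Real.log H) * S + x * L ^ (-U))) =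
        C2 * ((H : ℝ) * x * ((l2 / Real.log H) * (1 / L * S) + L ^ (-U))) := by
      have e1 : x / L = x * (1 / L) := by rw [mul_one_div]
      rw [e1]; ring
    rw [h1]
    refine (mul_le_mul_of_nonneg_left hT1 hC2.le).trans (mul_le_mul_of_nonneg_right ?_ hT0)
    have : 0 ≤ 2 * C2 / c0 := by positivity
    linarith
  · rw [not_le] at hE
    set E := Real.exp (c0 * (L / l2)) with hEdef
    have h1 : B * l2 ≤ c0 * (L / l2) / 2 := by
      have h2 : B * l2 ^ 2 ≤ c0 * L / 2 := by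
        have h3 := mul_le_mul_of_nonneg_left hLB (by linarith : (0 : ℝ) ≤ B)
        have h4 : B * (c0 / (2 * B) * L) = c0 * L / 2 := by
          field_simp
        rw [h4] at h3
        exact h3
      have h5 : c0 * (L / l2) / 2 = (c0 * L / 2) / l2 := by
        field_simp
      rw [h5, le_div_iff₀ hl2pos]
      calc B * l2 * l2 = B * l2 ^ 2 := by ring
        _ ≤ c0 * L / 2 := h2
    set R := Real.exp (c0 * (L / l2) / 2) with hRdef
    have hER : E = R * R := by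
      rw [hEdef, hRdef, ← Real.exp_add]
      ring_nf
    have hRL : L ^ B ≤ R := by
      rw [Real.rpow_def_of_pos hLpos, hRdef, Real.exp_le_exp]
      rw [← hl2]
      linarith
    have hR4 : 4 ≤ R := by
      refine le_trans ?_ hRL
      calc (4 : ℝ) ≤ L := hL4
        _ = L ^ (1 : ℝ) := (Real.rpow_one L).symm
        _ ≤ L ^ B := Real.rpow_le_rpow_of_exponent_le (by linarith) hB
    have hE4 : 4 * R ≤ E := by
      rw [hER]
      exact mul_le_mul_of_nonneg_right hR4 (by linarith)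
    set H1 := ⌊E / 2⌋₊ with hH1
    have hE0 : 0 ≤ E / 2 := by linarith
    have hH1a : (H1 : ℝ) ≤ E / 2 := Nat.floor_le hE0
    have hH1b : E / 2 < H1 + 1 := Nat.lt_floor_add_one _
    have hH1R : R ≤ H1 := by linarith
    have hH1one : 1 ≤ H1 := by
      have : (1 : ℝ) ≤ H1 := by linarith
      exact_mod_cast this
    have hH1H : H1 ≤ H := by
      have : (H1 : ℝ) ≤ H := by linarith
      exact_mod_cast this
    have key := h3 (Qfi_F DD (fun p => b p.1 (kk p.1 p.2)) y) 0 H H1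
      (C2 * (x / L * (2 / c0 * (l2 ^ 2 / L)) * S + x * L ^ (-U))) hH1one hH1H ?_
    · rw [Qfi_sum DD _ y 0 H le_rfl] at key
      have e0 : ∑ p ∈ DD, Sj H p.1 p.2 (b p.1 (kk p.1 p.2)) (y p.1 p.2) =
          ∑ p ∈ DD, Sj H p.1 p.2 (b p.1 (kk p.1 p.2) + p.1 * 0)
            (fun i => y p.1 p.2 ((0 : ℤ).toNat + i)) := by
        refine Finset.sum_congr rfl fun p _ => ?_
        simp only [mul_zero, add_zero, Int.toNat_zero, zero_add]
      rw [e0]
      refine key.trans ?_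
      have e1 : C2 * (x / L * (2 / c0 * (l2 ^ 2 / L)) * S + x * L ^ (-U)) * H =
          2 * C2 / c0 * ((H : ℝ) * x * ((l2 ^ 2 / L) * (1 / L * S))) +
            C2 * ((H : ℝ) * x * L ^ (-U)) := by
        have e1 : x / L = x * (1 / L) := by rw [mul_one_div]
        rw [e1]; ring
      rw [e1]
      have g1 := mul_le_mul_of_nonneg_left hT3 (by positivity : 0 ≤ 2 * C2 / c0)
      have g2 := mul_le_mul_of_nonneg_left hT4 hC2.le
      linarith
    · intro A' H' hA' hAH' hH1H' hH'2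
      rw [Qfi_sum DD _ y A' H' hA']
      have hH'r : (H1 : ℝ) ≤ H' := by exact_mod_cast hH1H'
      have hH'r2 : (H' : ℝ) ≤ 2 * H1 := by exact_mod_cast hH'2
      have hH'R : R ≤ H' := hH1R.trans hH'r
      have hAH2 : A' + H' ≤ H := by
        rw [zero_add] at hAH'
        exact hAH'
      have hD' := Qfi_Dat' δ x H K DD b kk hD A' H' hA' hAH2
      have hq := hto H' (fun q k => b q k + q * A') (fun q e i => y q e (A'.toNat + i)) hD'
        (fun q e j => hy q e _) (hRL.trans hH'R) (by linarith)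
      refine hq.trans ?_
      have h9 : c0 * (L / l2) / 2 ≤ Real.log H' := by
        rw [Real.le_log_iff_exp_le (by linarith)]
        exact hH'R
      have h10 : 0 < c0 * (L / l2) / 2 := by positivity
      have h11 : l2 / Real.log H' ≤ l2 / (c0 * (L / l2) / 2) :=
        div_le_div_of_nonneg_left hl2pos.le h10 h9
      have h12 : l2 / (c0 * (L / l2) / 2) = 2 / c0 * (l2 ^ 2 / L) := by
        field_simp
      rw [h12] at h11
      have h13 : x / L * (l2 / Real.log H') * S ≤ x / L * (2 / c0 * (l2 ^ 2 / L)) * S :=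
        mul_le_mul_of_nonneg_right (mul_le_mul_of_nonneg_left h11 (by positivity)) hS
      calc C2 * ((H' : ℝ) * (x / L * (l2 / Real.log H') * S + x * L ^ (-U))) ≤
          C2 * ((H' : ℝ) * (x / L * (2 / c0 * (l2 ^ 2 / L)) * S + x * L ^ (-U))) := by
            refine mul_le_mul_of_nonneg_left ?_ hC2.le
            refine mul_le_mul_of_nonneg_left ?_ (Nat.cast_nonneg H')
            linarith
        _ = _ := by ring

theorem tQfi (h1 : QptStmt) (h2 : QtoStmt) (h3 : FctStmt) : TqStmt := by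
  intro ε U hε hU
  set δ := min ε (1 / 10) with hδ
  have hδ0 : 0 < δ := lt_min hε (by norm_num)
  have hδ10 : δ ≤ 1 / 10 := min_le_right _ _
  have hδε : δ ≤ ε := min_le_left _ _
  obtain ⟨C1, xB, hC1, hxB, hpt⟩ := h1 δ hδ0 (by linarith)
  obtain ⟨C2, B, c0, xF, hC2, hB1, hc0, hc1, hxF, hto⟩ := h2 δ U hδ0 hδ10 hU
  have hlo : ∃ L0 : ℝ, ∀ L : ℝ, L0 ≤ L → (Real.log L) ^ 2 ≤ c0 / (2 * B) * L := by
    have h5 := (Real.isLittleO_pow_log_id_atTop (n := 2)).bound (c := c0 / (2 * B)) (by positivity)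
    rw [Filter.eventually_atTop] at h5
    obtain ⟨L0, hL0⟩ := h5
    refine ⟨max L0 0, fun L hL => ?_⟩
    have h6 := hL0 L ((le_max_left _ _).trans hL)
    have h7 : 0 ≤ L := (le_max_right _ _).trans hL
    rw [Real.norm_eq_abs, Real.norm_eq_abs, id, abs_of_nonneg h7] at h6
    exact (le_abs_self _).trans h6
  obtain ⟨L0, hL0⟩ := hlo
  set x0 := max (max xB xF) (Real.exp (max L0 4)) with hx0
  have hx03 : 3 ≤ x0 := hxB.trans ((le_max_left _ _).trans (le_max_left _ _))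
  have hl0 := Qfi_L x0 hx03
  refine ⟨2 * (x0 * x0) * (Real.log x0) ^ U + C1 * B + (C2 + 2 * C2 / c0), ?_⟩
  intro x H K DD b kk y hx hH hD hK hy
  have hL := Qfi_L x hx
  have hlH := Qfi_H H hH
  have ha : 0 ≤ 2 * (x0 * x0) * (Real.log x0) ^ U := by
    have h5 : 0 ≤ (Real.log x0) ^ U := Real.rpow_nonneg (by linarith [hl0.1]) U
    positivity
  have hb : 0 ≤ C1 * B := by positivity
  have hc : 0 ≤ C2 + 2 * C2 / c0 := by positivity
  have hT0 : 0 ≤ Qfi_T U x H DD := by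
    unfold Qfi_T
    have hS := Qfi_S_nonneg DD
    have h5 : 0 < Real.log x := by linarith [hL.1]
    have h6 : 0 ≤ Real.log (Real.log x) := hL.2.le
    have h7 : 0 ≤ (Real.log x) ^ (-U) := Real.rpow_nonneg h5.le _
    have h8 : 0 ≤ x := by linarith
    positivity
  change ∑ p ∈ DD, Sj H p.1 p.2 (b p.1 (kk p.1 p.2)) (y p.1 p.2) ≤ _ * Qfi_T U x H DD
  rcases le_total x x0 with hxx | hxx
  · refine (Qfi_a ε U x x0 H K DD b kk y hε hU hx hxx hH hD hy).trans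
      (mul_le_mul_of_nonneg_right ?_ hT0)
    linarith
  · have hxB' : xB ≤ x := ((le_max_left _ _).trans (le_max_left _ _)).trans hxx
    have hxF' : xF ≤ x := ((le_max_right _ _).trans (le_max_left _ _)).trans hxx
    have hxL : Real.exp (max L0 4) ≤ x := (le_max_right _ _).trans hxx
    have hlx : max L0 4 ≤ Real.log x := by
      rw [Real.le_log_iff_exp_le (by linarith)]
      exact hxL
    have hD' := Qfi_Dat δ ε x H K DD b kk hδε hx hD
    by_cases hHB : (H : ℝ) < (Real.log x) ^ B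
    · refine (Qfi_b δ U x B C1 H K DD b kk y hx hB1 hC1 hH hHB hD' hy
        (fun y d a g1 g2 g3 g4 g5 => hpt x y d a hxB' g1 g2 g3 g4 g5)).trans
        (mul_le_mul_of_nonneg_right ?_ hT0)
      linarith
    · rw [not_lt] at hHB
      refine (Qfi_d h3 δ U x B c0 C2 H K DD b kk y hx hB1 hc0 hC2 ((le_max_right _ _).trans hlx)
        (hL0 _ ((le_max_left _ _).trans hlx)) hH hHB hD' hy
        (fun H' b' y' g1 g2 g3 g4 => hto x H' K DD b' kk y' hxF' g1 hK g2 g3 g4)).trans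
        (mul_le_mul_of_nonneg_right ?_ hT0)
      linarith

end Pool.Agent.Lib.TR
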