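import Pool.Agent.Lib.TR.SpecQ

/-!
MP_00e23e_nt, directory Lib/TR, chapter Q, module Qgo (helper3): the good u for f(b + q m).
-/

set_option autoImplicit false

namespace Pool.Agent.Lib.TR

open Finset Pool.Agent.Lib.EH3 Pool.Agent.Results.MP_00e23e_nt

/-- logarithms of X = 2 x/q, q ≤ √x -/
private lemma Qgo_log (x q ε : ℝ) (hx : 3 ≤ x) (hq : 1 ≤ q) (hε : 0 < ε) (hqx : q ≤ x ^ (1 / 2 - ε)) :
    Real.sqrt x ≤ 2 * x / q ∧ Real.log x / 2 ≤ Real.log (2 * x / q) ∧ Real.log (2 * x / q) ≤ Real.log x + 1 := by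
  have hx0 : 0 < x := by linarith
  have hq0 : 0 < q := by linarith
  have hs : q ≤ Real.sqrt x := by
    rw [Real.sqrt_eq_rpow]
    exact hqx.trans (Real.rpow_le_rpow_of_exponent_le (by linarith) (by linarith))
  have hs0 : 0 < Real.sqrt x := Real.sqrt_pos.2 hx0
  have hss : Real.sqrt x * Real.sqrt x = x := Real.mul_self_sqrt hx0.le
  have h1 : Real.sqrt x ≤ 2 * x / q := by
    rw [le_div_iff₀ hq0]
    nlinarith
  refine ⟨h1, ?_, ?_⟩
  · rw [← Real.log_sqrt hx0.le]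
    exact Real.log_le_log hs0 h1
  · have h2 : Real.log (2 * x / q) ≤ Real.log (2 * x) := by
      apply Real.log_le_log (by positivity)
      exact div_le_self (by positivity) hq
    rw [Real.log_mul (by norm_num) hx0.ne'] at h2
    have h3 := Real.log_two_lt_d9
    linarith

/-- powers of log X -/
private lemma Qgo_pow (L M B k : ℝ) (hL : 1 ≤ L) (hM0 : 0 ≤ M) (hM : M ≤ L + 1) (hB : 0 ≤ B)
    (hk : (2 : ℝ) ^ B ≤ L ^ k) : M ^ B ≤ L ^ (B + k) := by
  have hL0 : 0 < L := by linarith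
  calc M ^ B ≤ (2 * L) ^ B := Real.rpow_le_rpow hM0 (by linarith) hB
    _ = 2 ^ B * L ^ B := Real.mul_rpow (by norm_num) hL0.le
    _ ≤ L ^ k * L ^ B := mul_le_mul_of_nonneg_right hk (Real.rpow_nonneg hL0.le _)
    _ = L ^ (B + k) := by rw [← Real.rpow_add hL0]; congr 1; ring

/-- negative powers of log X -/
private lemma Qgo_neg (L M A : ℝ) (hL : 1 ≤ L) (hM : L / 2 ≤ M) (hA : 0 < A) (hk : (2 : ℝ) ^ (A + 3) ≤ L) :
    4 * M ^ (-(A + 1)) ≤ L ^ (-A) := by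
  have hL0 : 0 < L := by linarith
  have h1 : M ^ (-(A + 1)) ≤ (L / 2) ^ (-(A + 1)) :=
    Real.rpow_le_rpow_of_nonpos (by linarith) hM (by linarith)
  have h2 : (L / 2) ^ (-(A + 1)) = L ^ (-A) / L * 2 ^ (A + 1) := by
    rw [Real.div_rpow hL0.le (by norm_num), show -(A + 1) = -A - 1 by ring, Real.rpow_sub hL0, Real.rpow_one,
      show -A - 1 = -(A + 1) by ring, Real.rpow_neg (by norm_num : (0 : ℝ) ≤ 2), div_inv_eq_mul]
  have h3 : (2 : ℝ) ^ (A + 3) = 4 * 2 ^ (A + 1) := by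
    rw [show A + 3 = (A + 1) + 2 by ring, Real.rpow_add (by norm_num)]
    norm_num
    ring
  have h4 : 0 < L ^ (-A) := Real.rpow_pos_of_pos hL0 _
  calc 4 * M ^ (-(A + 1)) ≤ 4 * (L ^ (-A) / L * 2 ^ (A + 1)) := by rw [← h2]; linarith
    _ = L ^ (-A) * ((4 * 2 ^ (A + 1)) / L) := by ring
    _ ≤ L ^ (-A) * 1 := by
        apply mul_le_mul_of_nonneg_left _ h4.le
        rw [div_le_one hL0, ← h3]
        exact hk
    _ = L ^ (-A) := mul_one _

/-- the size of H -/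
private lemma Qgo_exp (L M c : ℝ) (hL : 3 ≤ L) (hM : L / 2 ≤ M) (hM1 : M ≤ L + 1) (hc : 0 < c) :
    Real.exp (c / 4 * (L / Real.log L)) ≤ Real.exp (c * (M / Real.log M)) := by
  apply Real.exp_le_exp.2
  have hL0 : 0 < L := by linarith
  have hM0 : 0 < M := by linarith
  have hl : 0 < Real.log L := Real.log_pos (by linarith)
  have hlM : 0 < Real.log M := Real.log_pos (by linarith)
  have h1 : Real.log M ≤ 2 * Real.log L := by
    have h2 : M ≤ L ^ 2 := by nlinarith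
    have h3 := Real.log_le_log hM0 h2
    rwa [Real.log_pow, Nat.cast_ofNat] at h3
  have h4 : L / (4 * Real.log L) ≤ M / Real.log M := by
    rw [div_le_div_iff₀ (by positivity) hlM]
    have h5 : L * Real.log M ≤ L * (2 * Real.log L) := mul_le_mul_of_nonneg_left h1 hL0.le
    have h6 : L / 2 * (4 * Real.log L) ≤ M * (4 * Real.log L) :=
      mul_le_mul_of_nonneg_right hM (by positivity)
    linarith
  calc c / 4 * (L / Real.log L) = c * (L / (4 * Real.log L)) := by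
        field_simp
    _ ≤ c * (M / Real.log M) := mul_le_mul_of_nonneg_left h4 hc.le

/-- sums over j < H as sums over integers -/
private lemma Qgo_range (H : ℕ) (F : ℤ → ℝ) :
    ∑ j ∈ range H, F (j : ℤ) = ∑ a ∈ Ico (0 : ℤ) (0 + (H : ℤ)), F a := by
  refine sum_nbij' (fun j : ℕ => (j : ℤ)) Int.toNat ?_ ?_ ?_ ?_ ?_
  · intro j hj
    rw [mem_range] at hj
    rw [mem_Ico]
    omega
  · intro a ha
    rw [mem_Ico] at ha
    rw [mem_range]
    omega
  · intro j _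
    exact Int.toNat_natCast j
  · intro a ha
    rw [mem_Ico] at ha
    exact Int.toNat_of_nonneg ha.1
  · intro j _
    rfl

theorem tQgo (h1 : FpoStmt) (h2 : FrfStmt) (h3 : QswStmt) : QgoStmt := by
  intro ε A hε hε1 hA
  obtain ⟨B0, B1, β, A2, c0, x1, hB0, hB1, hβ, hA2, hc0, hc01, hx1, hF⟩ :=
    h1 ε (A + 1) hε hε1 (by linarith)
  obtain ⟨hR1, hR2⟩ := h2
  set ζ : ℝ := max (max (β + 1) (A2 + 6)) (A + 6) with hζ
  have hζ1 : β + 1 ≤ ζ := (le_max_left _ _).trans (le_max_left _ _)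
  have hζ2 : A2 + 6 ≤ ζ := (le_max_right _ _).trans (le_max_left _ _)
  have hζ3 : A + 6 ≤ ζ := le_max_right _ _
  obtain ⟨x2, hx2, hQ⟩ := h3 ε A2 β ζ hε hε1 hA2 hβ hζ1 hζ2
  set Λ : ℝ := max (max ((2 : ℝ) ^ B0) ((2 : ℝ) ^ B1)) (max ((2 : ℝ) ^ (A + 3)) 3) with hΛ
  refine ⟨B0 + 2, B1 + 1, ζ, A2 + 1, c0 / 4, max (max (x1 ^ 2) x2) (Real.exp Λ), by linarith, by linarith,
    hζ3, by linarith, by linarith, by linarith, hx2.trans ((le_max_right _ _).trans (le_max_left _ _)), ?_⟩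
  intro x y q E U P0 P1 H b hx hy2 hyx hq hqx hG hbq hb1 hb2 hH1 hE hqE hEU hU hP0 hP01 hP1 hH
  have hxx1 : x1 ^ 2 ≤ x := (le_max_left _ _).trans ((le_max_left _ _).trans hx)
  have hxx2 : x2 ≤ x := (le_max_right _ _).trans ((le_max_left _ _).trans hx)
  have hx3 : 3 ≤ x := hx2.trans hxx2
  have hx0 : 0 < x := by linarith
  have hΛL : Λ ≤ Real.log x := by
    rw [Real.le_log_iff_exp_le hx0]
    exact (le_max_right _ _).trans hx
  have hqr : (1 : ℝ) ≤ q := by exact_mod_cast hq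
  have hq0 : (0 : ℝ) < q := by linarith
  have hEr : (1 : ℝ) ≤ E := by exact_mod_cast hE
  have hE0 : (0 : ℝ) < E := by linarith
  obtain ⟨hX1, hX2, hX3⟩ := Qgo_log x q ε hx3 hqr hε hqx
  set X : ℝ := 2 * x / q with hX
  set L : ℝ := Real.log x with hL
  set M : ℝ := Real.log X with hM
  have hL2B0 : (2 : ℝ) ^ B0 ≤ L := (le_max_left _ _).trans ((le_max_left _ _).trans hΛL)
  have hL2B1 : (2 : ℝ) ^ B1 ≤ L := (le_max_right _ _).trans ((le_max_left _ _).trans hΛL)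
  have hL2A : (2 : ℝ) ^ (A + 3) ≤ L := (le_max_left _ _).trans ((le_max_right _ _).trans hΛL)
  have hL3 : 3 ≤ L := (le_max_right _ _).trans ((le_max_right _ _).trans hΛL)
  have hL1 : 1 ≤ L := by linarith
  have hM0 : 0 < M := by linarith
  have hX0 : 0 < X := by rw [hX]; positivity
  have hXx1 : x1 ≤ X := by
    refine le_trans ?_ hX1
    apply Real.le_sqrt_of_sq_le
    exact hxx1
  have hbr : -x ≤ (b : ℝ) := hb1
  have hHr : (1 : ℝ) ≤ H := by exact_mod_cast hH1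
  have hbx : |(b : ℝ)| ≤ x := by
    rw [abs_le]
    refine ⟨hbr, ?_⟩
    nlinarith
  have hAdm := hQ x y q b hxx2 hy2 hyx hq hqx hbx hbq hG
  set z : ℕ := zz ζ x with hz
  set f : ℤ → ℂ := fun m : ℤ => ((fc z ⌊y⌋ (b + q * m) : ℝ) : ℂ) with hf
  have hAdm' : Adm X β A2 (fun n => f (-n)) := hR1 X β A2 f hAdm
  -- the sizes
  have hEX : (E : ℝ) ≤ X ^ (1 - ε) := by
    have e1 : (E : ℝ) ≤ x ^ (1 - ε) / q := by
      rw [le_div_iff₀ hq0, mul_comm]
      exact hqE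
    refine e1.trans ?_
    rw [hX, Real.div_rpow (by positivity) hq0.le]
    have e2 : x ^ (1 - ε) ≤ (2 * x) ^ (1 - ε) := Real.rpow_le_rpow hx0.le (by linarith) (by linarith)
    have e3 : (q : ℝ) ^ (1 - ε) ≤ q := by
      have := Real.rpow_le_rpow_of_exponent_le hqr (show 1 - ε ≤ 1 by linarith)
      rwa [Real.rpow_one] at this
    have e4 : 0 < (q : ℝ) ^ (1 - ε) := Real.rpow_pos_of_pos hq0 _
    exact div_le_div₀ (Real.rpow_nonneg (by positivity) _) e2 e4 e3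
  have hXU : 2 * X ≤ (E : ℝ) * U := by
    rw [hX, ← mul_div_assoc, div_le_iff₀ hq0]
    have e1 : 2 * (2 * x) = 4 * x := by ring
    rw [e1]
    calc 4 * x ≤ (q : ℝ) * E * U := hEU
      _ = E * U * q := by ring
  have hUX : (U : ℝ) ≤ 3 * X / E := by
    have e1 : 3 * X / E = 6 * x / (q * E) := by
      rw [hX]
      field_simp
      ring
    rw [e1]
    exact hU
  have hP0X : M ^ B0 ≤ P0 := by
    refine (Qgo_pow L M B0 2 hL1 hM0.le hX3 (by linarith) ?_).trans hP0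
    refine hL2B0.trans ?_
    have := Real.rpow_le_rpow_of_exponent_le hL1 (show (1 : ℝ) ≤ 2 by norm_num)
    rwa [Real.rpow_one] at this
  have hP1X : P1 * M ^ B1 ≤ H := by
    refine le_trans ?_ hP1
    apply mul_le_mul_of_nonneg_left _ (Nat.cast_nonneg _)
    refine Qgo_pow L M B1 1 hL1 hM0.le hX3 (by linarith) ?_
    rw [Real.rpow_one]
    exact hL2B1
  have hHX : (H : ℝ) ≤ Real.exp (c0 * (M / Real.log M)) :=
    hH.trans (Qgo_exp L M c0 hL3 hX2 hX3 hc0)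
  have hHX2 : ((H : ℝ) - 1) ≤ X := by
    rw [hX, le_div_iff₀ hq0]
    have e1 : ((H : ℝ) - 1) * q ≤ x - b := by linarith
    linarith
  have habs : ∀ a : ℤ, 1 - (H : ℤ) ≤ a → a ≤ (H : ℤ) - 1 → |(a : ℝ)| ≤ X := by
    intro a ha1 ha2
    have e1 : (1 : ℝ) - H ≤ a := by exact_mod_cast ha1
    have e2 : (a : ℝ) ≤ (H : ℝ) - 1 := by exact_mod_cast ha2
    rw [abs_le]
    constructor <;> linarith
  -- the signs
  set S : ℤ → ℕ → ℝ := fun a d =>
    ∑ u ∈ (Icc (-(U : ℤ)) U).filter (fun u => u ≠ 0 ∧ Good P0 P1 u.natAbs),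
      fc z ⌊y⌋ (b + q * a + ((q * d : ℕ) : ℤ) * u) with hS
  set c : ℤ → ℕ → ℂ := fun a d =>
    if Int.gcd (b + q * a) d = 1 then (if 0 ≤ S a d then (1 : ℂ) else -1) else 0 with hc
  have hc1 : ∀ a d, ‖c a d‖ ≤ 1 := by
    intro a d
    change ‖if Int.gcd (b + q * a) d = 1 then (if 0 ≤ S a d then (1 : ℂ) else -1) else 0‖ ≤ 1
    split_ifs
    · rw [norm_one]
    · rw [norm_neg, norm_one]
    · rw [norm_zero]
      exact zero_le_one
  have hkey : ((∑ a ∈ Ico (0 : ℤ) (0 + (H : ℤ)), ∑ d ∈ (Ioc E (2 * E)).filter (fun d : ℕ => Int.gcd (b + q * a) d = 1),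
      |S a d| : ℝ) : ℂ) = ∑ a ∈ Ico (0 : ℤ) (0 + (H : ℤ)), ∑ d ∈ Ioc E (2 * E),
      ∑ u ∈ (Icc (-(U : ℤ)) U).filter (fun u => u ≠ 0 ∧ Good P0 P1 u.natAbs), c a d * f (a + d * u) := by
    rw [Complex.ofReal_sum]
    refine sum_congr rfl fun a _ => ?_
    rw [Complex.ofReal_sum, sum_filter]
    refine sum_congr rfl fun d _ => ?_
    rw [← mul_sum]
    have h5 : ∑ u ∈ (Icc (-(U : ℤ)) U).filter (fun u => u ≠ 0 ∧ Good P0 P1 u.natAbs),
        f (a + d * u) = ((S a d : ℝ) : ℂ) := by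
      change _ = ((∑ u ∈ (Icc (-(U : ℤ)) U).filter (fun u => u ≠ 0 ∧ Good P0 P1 u.natAbs),
        fc z ⌊y⌋ (b + q * a + ((q * d : ℕ) : ℤ) * u) : ℝ) : ℂ)
      rw [Complex.ofReal_sum]
      refine sum_congr rfl fun u _ => ?_
      change ((fc z ⌊y⌋ (b + q * (a + d * u)) : ℝ) : ℂ) = _
      have h6 : b + q * (a + d * u) = b + q * a + ((q * d : ℕ) : ℤ) * u := by
        push_cast
        ring
      rw [h6]
    rw [h5]
    change (if Int.gcd (b + q * a) d = 1 then ((|S a d| : ℝ) : ℂ) else 0) =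
      (if Int.gcd (b + q * a) d = 1 then (if 0 ≤ S a d then (1 : ℂ) else -1) else 0) * ((S a d : ℝ) : ℂ)
    split_ifs with h6 h7
    · rw [abs_of_nonneg h7, one_mul]
    · rw [abs_of_neg (not_le.1 h7), Complex.ofReal_neg]
      ring
    · rw [zero_mul]
  have hT1 := hF X E U P0 P1 H 0 c f hXx1 hE hEX hXU hUX hP0X hP01 hP1X hHX (by
    intro a ha
    rw [mem_Ico] at ha
    exact habs a (by omega) (by omega)) hc1 hAdm
  have hT2 := hF X E U P0 P1 H (1 - 0 - (H : ℤ)) (fun a d => c (-a) d) (fun n => f (-n)) hXx1 hE hEX hXU hUX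
    hP0X hP01 hP1X hHX (by
    intro a ha
    rw [mem_Ico] at ha
    exact habs a (by omega) (by omega)) (fun a d => hc1 (-a) d) hAdm'
  have hB : ‖((∑ a ∈ Ico (0 : ℤ) (0 + (H : ℤ)),
      ∑ d ∈ (Ioc E (2 * E)).filter (fun d : ℕ => Int.gcd (b + q * a) d = 1), |S a d| : ℝ) : ℂ)‖ ≤
      H * (X * M ^ (-(A + 1))) + H * (X * M ^ (-(A + 1))) := by
    rw [hkey, hR2 0 H E U P0 P1 c f]
    exact (norm_add_le _ _).trans (add_le_add hT1 hT2)
  rw [Complex.norm_real, Real.norm_eq_abs] at hB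
  have hfin : (H : ℝ) * (X * M ^ (-(A + 1))) + H * (X * M ^ (-(A + 1))) ≤ H * (x / q * L ^ (-A)) := by
    have e1 := Qgo_neg L M A hL1 hX2 hA hL2A
    have e2 : (H : ℝ) * (X * M ^ (-(A + 1))) + H * (X * M ^ (-(A + 1))) =
        H * (x / q * (4 * M ^ (-(A + 1)))) := by
      rw [hX]
      ring
    rw [e2]
    apply mul_le_mul_of_nonneg_left _ (Nat.cast_nonneg _)
    exact mul_le_mul_of_nonneg_left e1 (by positivity)
  have hend := ((le_abs_self _).trans hB).trans hfin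
  rw [← Qgo_range H (fun a => ∑ d ∈ (Ioc E (2 * E)).filter (fun d : ℕ => Int.gcd (b + q * a) d = 1), |S a d|)] at hend
  exact hend

end Pool.Agent.Lib.TR
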