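import Pool.Agent.Lib.TR.SpecQ

/-!
MP_00e23e_nt, directory Lib/TR, chapter Q, module Qsu: all pairs with good q and e ≥ 2.
-/

set_option autoImplicit false

namespace Pool.Agent.Lib.TR

open Finset Pool.Agent.Lib.EH3 Pool.Agent.Results.MP_00e23e_nt

private lemma Qsu_L (x : ℝ) (hx : 3 ≤ x) : 1 < Real.log x ∧ 0 < Real.log (Real.log x) := by
  have h1 : Real.exp 1 < 3 := lt_of_lt_of_le Real.exp_one_lt_d9 (by norm_num)
  have h2 : 1 < Real.log x := by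
    rw [Real.lt_log_iff_exp_lt (by linarith)]
    linarith
  exact ⟨h2, Real.log_pos h2⟩

private lemma Qsu_harm (N : ℕ) : ∑ d ∈ Icc 1 N, 1 / (d : ℝ) ≤ 1 + Real.log N := by
  have h := harmonic_le_one_add_log N
  rw [harmonic_eq_sum_Icc] at h
  push_cast at h
  simpa [one_div] using h

theorem tQsu (h1 : QasStmt) : QsuStmt := by
  classical
  intro ε U hε hε1 hU
  obtain ⟨C, B, ζ, A3, c0, x0, hC, hB, hζ, hA3, hc0, hc1, hx0, H1⟩ := h1 ε (U + 3) hε hε1 (by linarith)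
  refine ⟨6 * C, B, ζ, A3, c0, x0, by positivity, hB, hζ, hA3, hc0, hc1, hx0, ?_⟩
  intro x H K DD b kk y hx hD hG hK hy hBH hH
  have hx3 : 3 ≤ x := hx0.trans hx
  have hxp : 0 < x := by linarith
  have hxone : 1 ≤ x := by linarith
  obtain ⟨hL1, hl2⟩ := Qsu_L x hx3
  set L : ℝ := Real.log x with hLdef
  have hL0 : 0 < L := by linarith
  have hlH : 0 ≤ Real.log H := Real.log_natCast_nonneg H
  obtain ⟨η, hη⟩ : ∃ η : ℝ, η = x / L * (Real.log L / Real.log H) := ⟨_, rfl⟩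
  have hη0 : 0 ≤ η := by
    rw [hη]
    have := hl2.le
    positivity
  have hK' : (K : ℝ) ≤ L ^ (U + 3) := hK.trans (Real.rpow_le_rpow_of_exponent_le hL1.le (by linarith))
  obtain ⟨N, hN⟩ : ∃ N : ℕ, N = ⌊x⌋₊ := ⟨_, rfl⟩
  have hNx : (N : ℝ) ≤ x := by rw [hN]; exact Nat.floor_le hxp.le
  have hN1 : 1 ≤ N := by
    rw [hN, Nat.one_le_floor_iff]
    exact hxone
  obtain ⟨I, hI⟩ : ∃ I : ℕ, I = ⌈2 * L⌉₊ := ⟨_, rfl⟩
  have hI1 : 2 * L ≤ I := by rw [hI]; exact Nat.le_ceil _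
  have hI2 : (I : ℝ) ≤ 3 * L := by
    have := Nat.ceil_lt_add_one (by positivity : (0 : ℝ) ≤ 2 * L)
    rw [hI]; linarith
  obtain ⟨F, hF⟩ : ∃ F : ℕ × ℕ → ℝ, F = fun p => Sj H p.1 p.2 (b p.1 (kk p.1 p.2)) (y p.1 p.2) := ⟨_, rfl⟩
  obtain ⟨w, hw⟩ : ∃ w : ℕ × ℕ → ℝ, w = fun p => 1 / ((p.1 * p.2).totient : ℝ) := ⟨_, rfl⟩
  have hw0 : ∀ p, 0 ≤ w p := by
    intro p
    rw [hw]
    positivity
  obtain ⟨g, hg⟩ : ∃ g : ℕ × ℕ → ℕ × ℕ, g = fun p => (p.1, Nat.log 2 (p.2 - 1)) := ⟨_, rfl⟩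
  have hmaps : ∀ p ∈ DD, g p ∈ Icc 1 N ×ˢ range I := by
    intro p hp
    obtain ⟨a1, a2, a3, a4, a5, a6⟩ := hD p hp
    have he2 := (hG p hp).1
    have hxx : x ^ (1 - ε) ≤ x := by
      calc x ^ (1 - ε) ≤ x ^ (1 : ℝ) := Real.rpow_le_rpow_of_exponent_le hxone (by linarith)
        _ = x := Real.rpow_one x
    have hp1 : (1 : ℝ) ≤ p.1 := by exact_mod_cast a1
    have hp2 : (1 : ℝ) ≤ p.2 := by exact_mod_cast a2
    rw [hg, Finset.mem_product, Finset.mem_Icc, Finset.mem_range]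
    refine ⟨⟨a1, ?_⟩, ?_⟩
    · rw [hN]
      apply Nat.le_floor
      nlinarith
    · have h3 : 2 ^ Nat.log 2 (p.2 - 1) ≤ p.2 - 1 := Nat.pow_log_le_self 2 (by omega)
      have h4 : ((2 : ℝ) ^ Nat.log 2 (p.2 - 1)) ≤ x := by
        have h5 : ((2 ^ Nat.log 2 (p.2 - 1) : ℕ) : ℝ) ≤ (p.2 : ℝ) := by
          have : 2 ^ Nat.log 2 (p.2 - 1) ≤ p.2 := by omega
          exact_mod_cast this
        push_cast at h5
        nlinarith
      have h5 : (Nat.log 2 (p.2 - 1) : ℝ) * Real.log 2 ≤ L := by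
        have := Real.log_le_log (by positivity) h4
        rw [Real.log_pow] at this
        exact this
      have h6 : (1 : ℝ) / 2 < Real.log 2 := by
        have := Real.log_two_gt_d9
        linarith
      have h7 : (Nat.log 2 (p.2 - 1) : ℝ) < 2 * L := by
        by_contra hcon
        rw [not_lt] at hcon
        nlinarith
      exact_mod_cast h7.trans_le hI1
  have hfib : ∀ r ∈ Icc 1 N ×ˢ range I, ∑ p ∈ DD.filter (fun p => g p = r), F p ≤
      C * (H * (η * ∑ p ∈ DD.filter (fun p => g p = r), w p + x / r.1 * L ^ (-(U + 3)))) := by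
    intro r hr
    rw [Finset.mem_product, Finset.mem_Icc, Finset.mem_range] at hr
    have hr1 : (0 : ℝ) < r.1 := by exact_mod_cast hr.1.1
    have hLU : 0 < L ^ (-(U + 3)) := Real.rpow_pos_of_pos hL0 _
    have hs0 : 0 ≤ ∑ p ∈ DD.filter (fun p => g p = r), w p := Finset.sum_nonneg fun p _ => hw0 p
    rcases (DD.filter (fun p => g p = r)).eq_empty_or_nonempty with he | ⟨p0, hp0⟩
    · rw [he, Finset.sum_empty, Finset.sum_empty]
      positivity
    · obtain ⟨S, hS⟩ : ∃ S : Finset ℕ, S = (DD.filter (fun p => g p = r)).image Prod.snd := ⟨_, rfl⟩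
      have hfst : ∀ p ∈ DD.filter (fun p => g p = r), p ∈ DD ∧ p.1 = r.1 ∧ Nat.log 2 (p.2 - 1) = r.2 := by
        intro p hp
        rw [Finset.mem_filter, hg] at hp
        obtain ⟨c1, c2⟩ := hp
        have c3 := congrArg Prod.fst c2
        have c4 := congrArg Prod.snd c2
        exact ⟨c1, c3, c4⟩
      have hinj : ∀ p ∈ DD.filter (fun p => g p = r), ∀ p' ∈ DD.filter (fun p => g p = r), Prod.snd p = Prod.snd p' → p = p' := by
        intro p hp p' hp' he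
        exact Prod.ext ((hfst p hp).2.1.trans (hfst p' hp').2.1.symm) he
      have hsumF : ∑ p ∈ DD.filter (fun p => g p = r), F p = ∑ e ∈ S, Sj H r.1 e (b r.1 (kk r.1 e)) (y r.1 e) := by
        rw [hS, Finset.sum_image (fun p hp p' hp' he => hinj p hp p' hp' he)]
        refine Finset.sum_congr rfl fun p hp => ?_
        rw [hF, ← (hfst p hp).2.1]
      have hsumw : ∑ p ∈ DD.filter (fun p => g p = r), w p = ∑ e ∈ S, 1 / ((r.1 * e).totient : ℝ) := by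
        rw [hS, Finset.sum_image (fun p hp p' hp' he => hinj p hp p' hp' he)]
        refine Finset.sum_congr rfl fun p hp => ?_
        rw [hw, ← (hfst p hp).2.1]
      obtain ⟨c1, c2, c3⟩ := hfst p0 hp0
      obtain ⟨a1, a2, a3, a4, a5, a6⟩ := hD p0 c1
      obtain ⟨g1, g2⟩ := hG p0 c1
      rw [c2] at a1 a3 a4 a6 g2
      have hmem : ∀ e ∈ S, (r.1, e) ∈ DD ∧ Nat.log 2 (e - 1) = r.2 ∧ 2 ≤ e := by
        intro e he
        rw [hS, Finset.mem_image] at he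
        obtain ⟨p, hp, rfl⟩ := he
        obtain ⟨d1, d2, d3⟩ := hfst p hp
        refine ⟨?_, d3, (hG p d1).1⟩
        rw [← d2]
        exact d1
      have hIoc : ∀ e ∈ S, e ∈ Ioc (2 ^ r.2) (2 * 2 ^ r.2) := by
        intro e he
        obtain ⟨d1, d2, d3⟩ := hmem e he
        have e1 : 2 ^ r.2 ≤ e - 1 := by
          rw [← d2]
          exact Nat.pow_log_le_self 2 (by omega)
        have e2 : e - 1 < 2 ^ (r.2 + 1) := by
          rw [← d2]
          exact Nat.lt_pow_succ_log_self (by norm_num) _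
        rw [pow_succ] at e2
        rw [Finset.mem_Ioc]
        omega
      have hE : ((r.1 : ℝ) * ((2 ^ r.2 : ℕ) : ℝ)) ≤ x ^ (1 - ε) := by
        have e1 : 2 ^ r.2 ≤ p0.2 := by
          rw [← c3]
          have := Nat.pow_log_le_self 2 (x := p0.2 - 1) (by omega)
          omega
        have e2 : ((2 ^ r.2 : ℕ) : ℝ) ≤ (p0.2 : ℝ) := by exact_mod_cast e1
        exact (mul_le_mul_of_nonneg_left e2 hr1.le).trans a4
      have hQ := H1 x r.1 (2 ^ r.2) H K S (b r.1) (kk r.1) (y r.1) hx a1 a3 g2 a6 hK' Nat.one_le_two_pow hE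
        (fun e he => hIoc e he) (fun e he => (hD _ (hmem e he).1).2.2.2.2.1) (fun e j => hy r.1 e j) hBH hH
      rw [hsumF, hsumw, hη]
      exact hQ
  have e1 : ∑ p ∈ DD, Sj H p.1 p.2 (b p.1 (kk p.1 p.2)) (y p.1 p.2) =
      ∑ r ∈ Icc 1 N ×ˢ range I, ∑ p ∈ DD.filter (fun p => g p = r), F p := by
    rw [Finset.sum_fiberwise_of_maps_to hmaps, hF]
  have e2 : ∑ r ∈ Icc 1 N ×ˢ range I, ∑ p ∈ DD.filter (fun p => g p = r), w p =
      ∑ p ∈ DD, 1 / ((p.1 * p.2).totient : ℝ) := by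
    rw [Finset.sum_fiberwise_of_maps_to hmaps, hw]
  have e3 : ∑ r ∈ Icc 1 N ×ˢ range I, x / (r.1 : ℝ) * L ^ (-(U + 3)) ≤ 6 * (x * L ^ (-U)) := by
    rw [Finset.sum_product]
    have f1 : ∀ q ∈ Icc 1 N, ∑ i ∈ range I, x / (((q, i) : ℕ × ℕ).1 : ℝ) * L ^ (-(U + 3)) =
        (I * (x * L ^ (-(U + 3)))) * (1 / (q : ℝ)) := by
      intro q _
      show ∑ i ∈ range I, x / (q : ℝ) * L ^ (-(U + 3)) = _
      rw [Finset.sum_const, Finset.card_range, nsmul_eq_mul]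
      ring
    rw [Finset.sum_congr rfl f1, ← Finset.mul_sum]
    have f2 : ∑ q ∈ Icc 1 N, 1 / (q : ℝ) ≤ 2 * L := by
      have f3 := Qsu_harm N
      have f4 : Real.log N ≤ L := Real.log_le_log (by exact_mod_cast hN1) hNx
      linarith
    have f5 : 0 ≤ L ^ (-(U + 3)) := Real.rpow_nonneg hL0.le _
    have f6 : L * L * L ^ (-(U + 3)) ≤ L ^ (-U) := by
      calc L * L * L ^ (-(U + 3)) = L ^ (1 : ℝ) * L ^ (1 : ℝ) * L ^ (-(U + 3)) := by rw [Real.rpow_one]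
        _ = L ^ (1 + 1 + -(U + 3)) := by rw [← Real.rpow_add hL0, ← Real.rpow_add hL0]
        _ ≤ L ^ (-U) := Real.rpow_le_rpow_of_exponent_le hL1.le (by linarith)
    calc (I * (x * L ^ (-(U + 3)))) * ∑ q ∈ Icc 1 N, 1 / (q : ℝ) ≤ (3 * L * (x * L ^ (-(U + 3)))) * (2 * L) := by gcongr
      _ = 6 * (x * (L * L * L ^ (-(U + 3)))) := by ring
      _ ≤ 6 * (x * L ^ (-U)) := by gcongr
  have hT0 : 0 ≤ ∑ p ∈ DD, 1 / ((p.1 * p.2).totient : ℝ) := Finset.sum_nonneg fun _ _ => by positivity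
  rw [e1]
  refine (Finset.sum_le_sum hfib).trans ?_
  rw [← Finset.mul_sum, ← Finset.mul_sum, Finset.sum_add_distrib, ← Finset.mul_sum, e2, ← hη]
  have hH0 : (0 : ℝ) ≤ H := Nat.cast_nonneg _
  calc C * (H * (η * ∑ p ∈ DD, 1 / ((p.1 * p.2).totient : ℝ) + ∑ r ∈ Icc 1 N ×ˢ range I, x / (r.1 : ℝ) * L ^ (-(U + 3)))) ≤
        C * (H * (6 * (η * ∑ p ∈ DD, 1 / ((p.1 * p.2).totient : ℝ)) + 6 * (x * L ^ (-U)))) := by
          have h9 : η * ∑ p ∈ DD, 1 / ((p.1 * p.2).totient : ℝ) ≤ 6 * (η * ∑ p ∈ DD, 1 / ((p.1 * p.2).totient : ℝ)) := by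
            have : 0 ≤ η * ∑ p ∈ DD, 1 / ((p.1 * p.2).totient : ℝ) := mul_nonneg hη0 hT0
            linarith
          gcongr
    _ = 6 * C * (H * (η * ∑ p ∈ DD, 1 / ((p.1 * p.2).totient : ℝ) + x * L ^ (-U))) := by ring

end Pool.Agent.Lib.TR
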