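import Pool.Agent.Lib.TR.SpecQ

/-!
MP_00e23e_nt, directory Lib/TR, chapter Q, module Qsw: f(m) = fc (b + q m) is admissible.
-/

set_option autoImplicit false

namespace Pool.Agent.Lib.TR

open Finset Pool.Agent.Lib.EH3 Pool.Agent.Results.MP_00e23e_nt

/-- the sum over 1 ≤ n ≤ M -/
private noncomputable def Qsw_S (z q : ℕ) (b M : ℤ) : ℝ :=
  ∑ n ∈ Icc (1 : ℤ) M, if (q : ℤ) ∣ n - b then ff z n else 0

private theorem Qsw_small (z q : ℕ) (b M : ℤ) (hM : M < 2) : Qsw_S z q b M = 0 := by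
  unfold Qsw_S
  refine Finset.sum_eq_zero fun n hn => ?_
  rw [Finset.mem_Icc] at hn
  have h1 : n = 1 := by omega
  subst h1
  have h2 : ff z 1 = 0 := by
    unfold ff Pool.Agent.Lib.UI.lci
    norm_num
  rw [h2, ite_self]

/-- cutting an interval -/
private theorem Qsw_cut (z q : ℕ) (b u v Y : ℤ) : ∃ M1 M2 : ℤ, M1 ≤ Y ∧ M2 ≤ Y ∧
    |∑ n ∈ (Ico u v).filter (fun n => (q : ℤ) ∣ n - b), fc z Y n| ≤
      |Qsw_S z q b M1| + |Qsw_S z q b M2| := by
  by_cases hY : Y < 1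
  · refine ⟨Y, Y, le_rfl, le_rfl, ?_⟩
    rw [Finset.sum_eq_zero, abs_zero]
    · positivity
    · intro n hn
      unfold fc ff
      by_cases h1 : n ≤ Y
      · rw [if_pos h1, if_neg (by omega)]
      · rw [if_neg h1]
  have hS : ∑ n ∈ (Ico u v).filter (fun n => (q : ℤ) ∣ n - b), fc z Y n =
      ∑ n ∈ Ico (max u 1) (min v (Y + 1)), if (q : ℤ) ∣ n - b then ff z n else 0 := by
    rw [Finset.sum_filter]
    symm
    refine Finset.sum_subset_zero_on_sdiff ?_ ?_ ?_
    · intro n hn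
      rw [Finset.mem_Ico] at hn ⊢
      omega
    · intro n hn
      rw [Finset.mem_sdiff, Finset.mem_Ico, Finset.mem_Ico] at hn
      unfold fc ff
      by_cases h1 : n ≤ Y
      · rw [if_pos h1, if_neg (show ¬ (1 : ℤ) ≤ n by omega), ite_self]
      · rw [if_neg h1, ite_self]
    · intro n hn
      rw [Finset.mem_Ico] at hn
      unfold fc
      rw [if_pos (show n ≤ Y by omega)]
  rw [hS]
  by_cases h : max u 1 ≤ min v (Y + 1)
  · refine ⟨min v (Y + 1) - 1, max u 1 - 1, by omega, by omega, ?_⟩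
    have e1 : ∀ w : ℤ, Icc (1 : ℤ) (w - 1) = Ico 1 w := by
      intro w
      ext n
      simp only [Finset.mem_Icc, Finset.mem_Ico]
      omega
    have e2 : Ico (1 : ℤ) (max u 1) ∪ Ico (max u 1) (min v (Y + 1)) = Ico 1 (min v (Y + 1)) :=
      Finset.Ico_union_Ico_eq_Ico (le_max_right _ _) h
    have e3 : Disjoint (Ico (1 : ℤ) (max u 1)) (Ico (max u 1) (min v (Y + 1))) :=
      Finset.Ico_disjoint_Ico_consecutive _ _ _
    have e4 := Finset.sum_union e3 (f := fun n => if (q : ℤ) ∣ n - b then ff z n else 0)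
    rw [e2] at e4
    unfold Qsw_S
    rw [e1, e1]
    have e5 : ∑ n ∈ Ico (max u 1) (min v (Y + 1)), (if (q : ℤ) ∣ n - b then ff z n else 0) =
        ∑ n ∈ Ico 1 (min v (Y + 1)), (if (q : ℤ) ∣ n - b then ff z n else 0) -
          ∑ n ∈ Ico 1 (max u 1), (if (q : ℤ) ∣ n - b then ff z n else 0) := by
      rw [e4]
      ring
    rw [e5]
    exact abs_sub _ _
  · refine ⟨Y, Y, le_rfl, le_rfl, ?_⟩
    rw [Finset.Ico_eq_empty (by omega), Finset.sum_empty, abs_zero]
    positivity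


/-- the sum over the primes is resCount -/
private theorem Qsw_prime (M d : ℕ) (a : ℤ) :
    ∑ n ∈ Icc (1 : ℤ) M, (if (d : ℤ) ∣ n - a then (if n.toNat.Prime then (1 : ℝ) else 0) else 0) =
      (resCount (M : ℝ) d a : ℝ) := by
  unfold resCount
  rw [Nat.floor_natCast, Finset.card_filter]
  push_cast
  refine Finset.sum_nbij' Int.toNat (fun n : ℕ => (n : ℤ)) ?_ ?_ ?_ ?_ ?_
  · intro n hn
    rw [Finset.mem_Icc] at hn ⊢
    omega
  · intro n hn
    rw [Finset.mem_Icc] at hn ⊢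
    omega
  · intro n hn
    rw [Finset.mem_Icc] at hn
    omega
  · intro n hn
    exact Int.toNat_natCast n
  · intro n hn
    rw [Finset.mem_Icc] at hn
    have h1 : ((n.toNat : ℕ) : ℤ) = n := Int.toNat_of_nonneg (by omega)
    rw [h1]
    by_cases h2 : (d : ℤ) ∣ n - a
    · rw [if_pos h2]
      by_cases h3 : n.toNat.Prime
      · rw [if_pos h3, if_pos ⟨h3, h2⟩]
      · rw [if_neg h3, if_neg fun h => h3 h.1]
    · rw [if_neg h2, if_neg fun h => h2 h.2]

/-- coprime class -/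
private theorem Qsw_cop (z d M : ℕ) (a : ℤ) (R1 R2 : ℝ) (h1 : |resErr (M : ℝ) d a| ≤ R1)
    (h2 : |(∑ n ∈ (Icc (1 : ℤ) ⌊(M : ℝ)⌋).filter (fun n => (d : ℤ) ∣ n - a), Pool.Agent.Lib.UI.lci n * nu z n) -
      li (M : ℝ) / (d.totient : ℝ)| ≤ R2) :
    |Qsw_S z d a M| ≤ R1 + R2 := by
  have hsplit : Qsw_S z d a M = (resCount (M : ℝ) d a : ℝ) -
      ∑ n ∈ (Icc (1 : ℤ) ⌊(M : ℝ)⌋).filter (fun n => (d : ℤ) ∣ n - a), Pool.Agent.Lib.UI.lci n * nu z n := by
    rw [← Qsw_prime, Int.floor_natCast, Finset.sum_filter, ← Finset.sum_sub_distrib]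
    unfold Qsw_S
    refine Finset.sum_congr rfl fun n hn => ?_
    rw [Finset.mem_Icc] at hn
    by_cases h7 : (d : ℤ) ∣ n - a
    · rw [if_pos h7, if_pos h7, if_pos h7]
      unfold ff
      rw [if_pos hn.1]
    · rw [if_neg h7, if_neg h7, if_neg h7]
      ring
  have e1 : Qsw_S z d a M = resErr (M : ℝ) d a -
      ((∑ n ∈ (Icc (1 : ℤ) ⌊(M : ℝ)⌋).filter (fun n => (d : ℤ) ∣ n - a), Pool.Agent.Lib.UI.lci n * nu z n) -
        li (M : ℝ) / (d.totient : ℝ)) := by
    rw [hsplit]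
    unfold resErr
    ring
  rw [e1]
  exact (abs_sub _ _).trans (add_le_add h1 h2)

/-- class not coprime to r -/
private theorem Qsw_ncp (z q r : ℕ) (b M : ℤ) (hr : 1 ≤ r) (hrz : r ≤ z) (hgq : Int.gcd b q = 1)
    (hgcd : Int.gcd b ((q * r : ℕ) : ℤ) ≠ 1) :
    |Qsw_S z (q * r) b M| ≤ 1 := by
  obtain ⟨p, hp, hpg⟩ := Nat.exists_prime_and_dvd hgcd
  have hpq : (p : ℤ) ∣ ((q * r : ℕ) : ℤ) := (Int.natCast_dvd_natCast.2 hpg).trans (Int.gcd_dvd_right _ _)
  have hpb : (p : ℤ) ∣ b := (Int.natCast_dvd_natCast.2 hpg).trans (Int.gcd_dvd_left _ _)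
  have hpq' : p ∣ q * r := Int.natCast_dvd_natCast.1 hpq
  have hpr : p ∣ r := by
    rcases (Nat.Prime.dvd_mul hp).1 hpq' with h | h
    · exfalso
      have h3 : p ∣ Int.gcd b q := by
        rw [← Int.natCast_dvd_natCast]
        exact Int.dvd_coe_gcd hpb (Int.natCast_dvd_natCast.2 h)
      rw [hgq] at h3
      exact hp.one_lt.ne' (Nat.dvd_one.1 h3)
    · exact h
  have hpz : p ≤ z := (Nat.le_of_dvd hr hpr).trans hrz
  have hterm : ∀ n ∈ Icc (1 : ℤ) M, (if ((q * r : ℕ) : ℤ) ∣ n - b then ff z n else 0) =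
      if n = (p : ℤ) then (if ((q * r : ℕ) : ℤ) ∣ (p : ℤ) - b then 1 else 0) else 0 := by
    intro n hn
    rw [Finset.mem_Icc] at hn
    by_cases h7 : ((q * r : ℕ) : ℤ) ∣ n - b
    · rw [if_pos h7]
      have h8 : (p : ℤ) ∣ n := by
        have h9 := dvd_add (hpq.trans h7) hpb
        simpa using h9
      have h9 : p ∣ n.toNat := by
        have : ((n.toNat : ℕ) : ℤ) = n := Int.toNat_of_nonneg (by omega)
        rw [← this] at h8
        exact Int.natCast_dvd_natCast.1 h8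
      have h10 : Pool.Agent.Lib.BV.rr z n.toNat = 0 := by
        unfold Pool.Agent.Lib.BV.rr
        rw [if_neg]
        intro hR
        exact absurd hpz (not_le.2 (hR p hp h9))
      have h11 : ff z n = if n.toNat.Prime then 1 else 0 := by
        unfold ff nu
        rw [if_pos hn.1, if_pos hn.1, h10]
        simp
      rw [h11]
      by_cases h12 : n.toNat.Prime
      · have h13 : p = n.toNat := (Nat.prime_dvd_prime_iff_eq hp h12).1 h9
        have h14 : n = (p : ℤ) := by omega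
        rw [if_pos h12, if_pos h14, ← h14, if_pos h7]
      · rw [if_neg h12, if_neg]
        intro h13
        rw [h13, Int.toNat_natCast] at h12
        exact h12 hp
    · rw [if_neg h7]
      by_cases h8 : n = (p : ℤ)
      · rw [if_pos h8, if_neg (by rw [← h8]; exact h7)]
      · rw [if_neg h8]
  unfold Qsw_S
  rw [Finset.sum_congr rfl hterm, Finset.sum_ite_eq']
  split_ifs <;> norm_num

/-- the substitution n = b + q m -/
private theorem Qsw_sub (z q r : ℕ) (b c u v Y : ℤ) (hq : 1 ≤ q) :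
    ∑ m ∈ (Ico u v).filter (fun m => (r : ℤ) ∣ m - c), fc z Y (b + q * m) =
      ∑ n ∈ (Ico (b + q * u) (b + q * v)).filter (fun n => ((q * r : ℕ) : ℤ) ∣ n - (b + q * c)), fc z Y n := by
  have hq0 : (0 : ℤ) < q := by exact_mod_cast hq
  refine Finset.sum_nbij' (fun m => b + q * m) (fun n => (n - b) / q) ?_ ?_ ?_ ?_ ?_
  · intro m hm
    rw [Finset.mem_filter, Finset.mem_Ico] at hm ⊢
    obtain ⟨⟨h1, h2⟩, h3⟩ := hm
    refine ⟨⟨?_, ?_⟩, ?_⟩
    · have := mul_le_mul_of_nonneg_left h1 hq0.le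
      linarith
    · have := mul_lt_mul_of_pos_left h2 hq0
      linarith
    · have e : b + q * m - (b + q * c) = q * (m - c) := by ring
      rw [e]
      push_cast
      exact mul_dvd_mul_left _ h3
  · intro n hn
    rw [Finset.mem_filter, Finset.mem_Ico] at hn
    obtain ⟨⟨h1, h2⟩, h3⟩ := hn
    obtain ⟨t, ht⟩ := h3
    push_cast at ht
    have hn' : n = b + q * (c + r * t) := by linarith
    have hm : (n - b) / q = c + r * t := by
      rw [hn', add_sub_cancel_left]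
      exact Int.mul_ediv_cancel_left _ hq0.ne'
    simp only [hm]
    rw [Finset.mem_filter, Finset.mem_Ico]
    rw [hn'] at h1 h2
    refine ⟨⟨?_, ?_⟩, ⟨t, by ring⟩⟩
    · exact le_of_mul_le_mul_left (by linarith : (q : ℤ) * u ≤ q * (c + r * t)) hq0
    · exact lt_of_mul_lt_mul_left (by linarith : (q : ℤ) * (c + r * t) < q * v) hq0.le
  · intro m _
    rw [add_sub_cancel_left]
    exact Int.mul_ediv_cancel_left _ hq0.ne'
  · intro n hn
    rw [Finset.mem_filter, Finset.mem_Ico] at hn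
    obtain ⟨⟨h1, h2⟩, h3⟩ := hn
    obtain ⟨t, ht⟩ := h3
    push_cast at ht
    have hn' : n = b + q * (c + r * t) := by linarith
    have hm : (n - b) / q = c + r * t := by
      rw [hn', add_sub_cancel_left]
      exact Int.mul_ediv_cancel_left _ hq0.ne'
    simp only [hm]
    exact hn'.symm
  · intro m _
    rfl

private theorem Qsw_num (Cz Cn A2 β ζ X : ℝ) : ∃ x0 : ℝ, 3 ≤ x0 ∧ X ≤ x0 ∧ ∀ x : ℝ, x0 ≤ x →
    4 ≤ Real.log x ∧ 3 * Cn ≤ Real.log x ∧ 2 * 2 ^ A2 ≤ Real.log x ∧ 2 ^ β ≤ Real.log x ∧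
    1 + 2 * Cz * (Real.log 2 + ζ * Real.log (Real.log x)) ≤ Real.log x / 2 ∧
    Real.log x ^ (A2 + 1) ≤ x ^ ((1 : ℝ) / 2) ∧ Real.log x ^ ζ ≤ x ^ ((1 : ℝ) / 4) := by
  have hlog := Real.tendsto_log_atTop
  have e1 : ∀ᶠ x : ℝ in Filter.atTop, 4 ≤ Real.log x := hlog.eventually_ge_atTop 4
  have e2 : ∀ᶠ x : ℝ in Filter.atTop, 3 * Cn ≤ Real.log x := hlog.eventually_ge_atTop _
  have e3 : ∀ᶠ x : ℝ in Filter.atTop, 2 * 2 ^ A2 ≤ Real.log x := hlog.eventually_ge_atTop _
  have e4 : ∀ᶠ x : ℝ in Filter.atTop, 2 ^ β ≤ Real.log x := hlog.eventually_ge_atTop _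
  have e5 : ∀ᶠ x : ℝ in Filter.atTop, 1 + 2 * Cz * (Real.log 2 + ζ * Real.log (Real.log x)) ≤ Real.log x / 2 := by
    have h1 : (fun L : ℝ => (1 + 2 * Cz * Real.log 2) + (2 * Cz * ζ) * Real.log L) =o[Filter.atTop] (fun L : ℝ => L) := by
      have a1 : (fun _ : ℝ => (1 + 2 * Cz * Real.log 2)) =o[Filter.atTop] (fun L : ℝ => L) :=
        Asymptotics.isLittleO_const_id_atTop _
      have a2 : (fun L : ℝ => (2 * Cz * ζ) * Real.log L) =o[Filter.atTop] (fun L : ℝ => L) :=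
        Real.isLittleO_log_id_atTop.const_mul_left _
      exact a1.add a2
    have h2 := h1.bound (c := 1 / 2) (by norm_num)
    have h3 : ∀ᶠ L : ℝ in Filter.atTop, 1 + 2 * Cz * (Real.log 2 + ζ * Real.log L) ≤ L / 2 := by
      filter_upwards [h2, Filter.eventually_ge_atTop (0 : ℝ)] with L hL hL0
      rw [Real.norm_eq_abs, Real.norm_eq_abs, abs_of_nonneg hL0] at hL
      have := le_abs_self ((1 + 2 * Cz * Real.log 2) + (2 * Cz * ζ) * Real.log L)
      linarith
    exact hlog.eventually h3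
  have e6 : ∀ᶠ x : ℝ in Filter.atTop, Real.log x ^ (A2 + 1) ≤ x ^ ((1 : ℝ) / 2) := by
    have h1 := (isLittleO_log_rpow_rpow_atTop (A2 + 1) (show (0 : ℝ) < (1 : ℝ) / 2 by positivity)).def
      (show (0 : ℝ) < 1 by norm_num)
    filter_upwards [h1, e1, Filter.eventually_ge_atTop 1] with x h3 h4 h5
    rw [Real.norm_eq_abs, Real.norm_eq_abs,
      abs_of_nonneg (Real.rpow_nonneg (by linarith) _),
      abs_of_nonneg (Real.rpow_nonneg (by linarith) _), one_mul] at h3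
    exact h3
  have e7 : ∀ᶠ x : ℝ in Filter.atTop, Real.log x ^ ζ ≤ x ^ ((1 : ℝ) / 4) := by
    have h1 := (isLittleO_log_rpow_rpow_atTop ζ (show (0 : ℝ) < (1 : ℝ) / 4 by positivity)).def
      (show (0 : ℝ) < 1 by norm_num)
    filter_upwards [h1, e1, Filter.eventually_ge_atTop 1] with x h3 h4 h5
    rw [Real.norm_eq_abs, Real.norm_eq_abs,
      abs_of_nonneg (Real.rpow_nonneg (by linarith) _),
      abs_of_nonneg (Real.rpow_nonneg (by linarith) _), one_mul] at h3
    exact h3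
  obtain ⟨x0, hx0⟩ := Filter.eventually_atTop.mp (e1.and (e2.and (e3.and (e4.and (e5.and (e6.and e7))))))
  refine ⟨max x0 (max 3 X), le_trans (le_max_left _ _) (le_max_right _ _), le_trans (le_max_right _ _) (le_max_right _ _), ?_⟩
  intro x hx
  exact hx0 x (le_trans (le_max_left _ _) hx)

theorem tQsw (h1 : NapStmt) (h2 : NszStmt) : QswStmt := by
  intro ε A2 β ζ hε hε1 hA2 hβ hβζ hAζ
  obtain ⟨Cn, x1, hCn, hx1, H1⟩ := h1 (1 / 4) (A2 + 3) ζ (by norm_num) (by norm_num) (by linarith) (by linarith)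
  obtain ⟨Cz, hCz, H2⟩ := h2.1
  obtain ⟨x0, hx03, hX, hnum⟩ := Qsw_num Cz Cn A2 β ζ x1
  refine ⟨x0, hx03, ?_⟩
  intro x y q b hx hy hyx hq1 hqx hbx hbq hGq
  obtain ⟨n1, n2, n3, n4, n5, n6, n7⟩ := hnum x hx
  have hxx1 : x1 ≤ x := hX.trans hx
  have hx3 : 3 ≤ x := hx03.trans hx
  have hx0 : 0 < x := by linarith
  have hxone : 1 ≤ x := by linarith
  have hL0 : 0 < Real.log x := by linarith
  have hL1 : 1 ≤ Real.log x := by linarith
  have hq0 : (0 : ℝ) < q := by exact_mod_cast hq1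
  set L : ℝ := Real.log x with hLdef
  set z : ℕ := zz ζ x with hz
  have hzL : L ^ ζ ≤ (z : ℝ) := by rw [hz]; unfold zz; exact Nat.le_ceil _
  have hLζ : L ≤ L ^ ζ := by
    calc L = L ^ (1 : ℝ) := (Real.rpow_one L).symm
      _ ≤ L ^ ζ := Real.rpow_le_rpow_of_exponent_le hL1 (by linarith)
  have hz2 : 2 ≤ z := by
    have : (2 : ℝ) ≤ z := by linarith
    exact_mod_cast this
  have hzU : (z : ℝ) ≤ 2 * L ^ ζ := by
    have := Nat.ceil_lt_add_one (Real.rpow_nonneg hL0.le ζ)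
    rw [hz]; unfold zz
    rw [← hLdef]
    linarith
  have hlz : Real.log z ≤ Real.log 2 + ζ * Real.log L := by
    calc Real.log z ≤ Real.log (2 * L ^ ζ) := Real.log_le_log (by linarith) hzU
      _ = Real.log 2 + ζ * Real.log L := by
        rw [Real.log_mul (by norm_num) (Real.rpow_pos_of_pos hL0 _).ne', Real.log_rpow hL0]
  have hff : ∀ n, |ff z n| ≤ L / 2 := by
    intro n
    refine (H2 z n hz2).2.2.trans ?_
    have : 2 * Cz * Real.log z ≤ 2 * Cz * (Real.log 2 + ζ * Real.log L) := by gcongr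
    linarith
  -- X
  have hqh : (q : ℝ) ≤ x ^ ((1 : ℝ) / 2) := hqx.trans (Real.rpow_le_rpow_of_exponent_le hxone (by linarith))
  have hxh : x ^ ((1 : ℝ) / 2) * x ^ ((1 : ℝ) / 2) = x := by
    rw [← Real.rpow_add hx0]; norm_num
  have hxh0 : 0 < x ^ ((1 : ℝ) / 2) := Real.rpow_pos_of_pos hx0 _
  have hxq : x ^ ((1 : ℝ) / 2) ≤ x / q := by
    rw [le_div_iff₀ hq0]
    calc x ^ ((1 : ℝ) / 2) * q ≤ x ^ ((1 : ℝ) / 2) * x ^ ((1 : ℝ) / 2) := by gcongr
      _ = x := hxh
  obtain ⟨X, hXd⟩ : ∃ X : ℝ, X = 2 * x / q := ⟨_, rfl⟩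
  have hXq : X = 2 * (x / q) := by rw [hXd]; ring
  have hX0 : 0 < X := by rw [hXd]; positivity
  have hXl : L / 2 ≤ Real.log X := by
    have h5 : x ^ ((1 : ℝ) / 2) ≤ X := by rw [hXq]; linarith
    have h6 := Real.log_le_log hxh0 h5
    rw [Real.log_rpow hx0] at h6
    linarith
  have hXu : Real.log X ≤ 2 * L := by
    have h4 : (2 : ℝ) ≤ x := by linarith
    have h5 : X ≤ x ^ (2 : ℕ) := by
      have h6 : x / q ≤ x := div_le_self hx0.le (by exact_mod_cast hq1)
      rw [hXq]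
      nlinarith
    have h6 := Real.log_le_log hX0 h5
    rw [Real.log_pow] at h6
    exact_mod_cast h6
  have hlX0 : 0 < Real.log X := by linarith
  rw [← hXd]
  have hfc : ∀ n : ℤ, |fc z ⌊y⌋ n| ≤ L / 2 := by
    intro n
    unfold fc
    split_ifs
    · exact hff n
    · rw [abs_zero]; positivity
  refine ⟨?_, ?_, ?_⟩
  · intro m
    rw [Complex.norm_real, Real.norm_eq_abs]
    exact (hfc _).trans hXl
  · intro m hm
    have hz0 : fc z ⌊y⌋ (b + q * m) = 0 := by
      have h5 : 2 * x < q * |(m : ℝ)| := by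
        rw [hXd, div_lt_iff₀ hq0] at hm
        linarith
      unfold fc
      by_cases h6 : b + q * m ≤ ⌊y⌋
      · rw [if_pos h6]
        have h7 : ((b + q * m : ℤ) : ℝ) ≤ y := Int.le_floor.1 h6
        push_cast at h7
        have hb2 := abs_le.1 hbx
        have h8 : ((b + q * m : ℤ) : ℝ) < 1 := by
          push_cast
          by_contra hcon
          rw [not_lt] at hcon
          have h9 : |(q : ℝ) * m| ≤ 2 * x := by
            rw [abs_le]
            constructor <;> linarith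
          rw [abs_mul, abs_of_pos hq0] at h9
          linarith
        have h9 : b + q * m < 1 := by exact_mod_cast h8
        unfold ff
        rw [if_neg (by omega)]
      · rw [if_neg h6]
    show ((fc z ⌊y⌋ (b + q * m) : ℝ) : ℂ) = 0
    rw [hz0]
    simp
  · intro r c u v hr hrX
    have hrL : (r : ℝ) ≤ L ^ ζ := by
      calc (r : ℝ) ≤ (Real.log X) ^ β := hrX
        _ ≤ (2 * L) ^ β := Real.rpow_le_rpow hlX0.le hXu (by linarith)
        _ = 2 ^ β * L ^ β := Real.mul_rpow (by norm_num) hL0.le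
        _ ≤ L * L ^ β := by gcongr
        _ = L ^ (β + 1) := by rw [Real.rpow_add hL0, Real.rpow_one]; ring
        _ ≤ L ^ ζ := Real.rpow_le_rpow_of_exponent_le hL1 hβζ
    have hrz : r ≤ z := by exact_mod_cast hrL.trans hzL
    have hr0 : (0 : ℝ) < r := by exact_mod_cast hr
    have hqr : ((q * r : ℕ) : ℝ) ≤ x ^ (1 - (1 : ℝ) / 4) := by
      push_cast
      calc (q : ℝ) * r ≤ x ^ ((1 : ℝ) / 2) * x ^ ((1 : ℝ) / 4) := by
            apply mul_le_mul hqh (hrL.trans n7) hr0.le hxh0.le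
        _ = x ^ (1 - (1 : ℝ) / 4) := by
            rw [← Real.rpow_add hx0]; norm_num
    have hqr1 : 1 ≤ q * r := Nat.mul_pos hq1 hr
    have e0 : ∑ n ∈ (Ico u v).filter (fun n => (r : ℤ) ∣ n - c), ((fc z ⌊y⌋ (b + q * n) : ℝ) : ℂ) =
        ((∑ n ∈ (Ico u v).filter (fun n => (r : ℤ) ∣ n - c), fc z ⌊y⌋ (b + q * n) : ℝ) : ℂ) := by
      push_cast
      rfl
    rw [e0, Complex.norm_real, Real.norm_eq_abs, Qsw_sub z q r b c u v ⌊y⌋ hq1]
    obtain ⟨M1, M2, hM1, hM2, hc⟩ := Qsw_cut z (q * r) (b + q * c) (b + q * u) (b + q * v) ⌊y⌋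
    refine hc.trans ?_
    obtain ⟨R, hR⟩ : ∃ R : ℝ, R = x / q * L ^ (-(A2 + 1)) := ⟨_, rfl⟩
    have hR1 : 1 ≤ R := by
      have h5 : L ^ (A2 + 1) * L ^ (-(A2 + 1)) = 1 := by
        rw [← Real.rpow_add hL0, add_neg_cancel, Real.rpow_zero]
      have h6 : 0 ≤ L ^ (-(A2 + 1)) := Real.rpow_nonneg hL0.le _
      rw [hR]
      calc (1 : ℝ) = L ^ (A2 + 1) * L ^ (-(A2 + 1)) := h5.symm
        _ ≤ x / q * L ^ (-(A2 + 1)) := mul_le_mul_of_nonneg_right (n6.trans hxq) h6
    have hgbq : Int.gcd (b + q * c) q = 1 := by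
      rw [← Int.isCoprime_iff_gcd_eq_one] at hbq ⊢
      exact hbq.add_mul_left_left c
    have hkey : ∀ M : ℤ, M ≤ ⌊y⌋ → |Qsw_S z (q * r) (b + q * c) M| ≤ 2 * R := by
      intro M hM
      by_cases hMl : M < 2
      · rw [Qsw_small _ _ _ _ hMl, abs_zero]
        linarith
      by_cases hg : Int.gcd (b + q * c) ((q * r : ℕ) : ℤ) = 1
      · obtain ⟨M', rfl⟩ : ∃ M' : ℕ, M = (M' : ℤ) := ⟨M.toNat, by omega⟩
        have hM' : 2 ≤ M' := by omega
        have hM'r : (2 : ℝ) ≤ (M' : ℝ) := by exact_mod_cast hM'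
        have hMy : (M' : ℝ) ≤ y := by
          have h5 := Int.le_floor.1 hM
          exact_mod_cast h5
        have g1 := hGq r (b + q * c) (M' : ℝ) hr hrL hg hM'r (hMy.trans hyx)
        have g2 := H1 x (M' : ℝ) (q * r) (b + q * c) hxx1 hM'r (hMy.trans hyx) hqr1 hqr hg
        have g3 : Cn * (x / ((q * r).totient : ℝ) * L ^ (-(A2 + 3))) ≤ R := by
          have hph : (0 : ℝ) < (q.totient : ℝ) := by exact_mod_cast Nat.totient_pos.2 hq1
          have hphr : (0 : ℝ) < ((q * r).totient : ℝ) := by exact_mod_cast Nat.totient_pos.2 hqr1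
          have h6 : (q.totient : ℝ) ≤ ((q * r).totient : ℝ) := by
            exact_mod_cast Nat.le_of_dvd (Nat.totient_pos.2 hqr1) (Nat.totient_dvd_of_dvd (Dvd.intro r rfl))
          have h7 : 1 / (q.totient : ℝ) ≤ 3 * L / q := by
            have g1 := Pool.Agent.Lib.EH.le_totient q
            have g2 := Pool.Agent.Lib.EH.card_primeFactors_le hq1
            have hqx' : (q : ℝ) ≤ x := hqh.trans (by
              calc x ^ ((1 : ℝ) / 2) ≤ x ^ (1 : ℝ) := Real.rpow_le_rpow_of_exponent_le hxone (by norm_num)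
                _ = x := Real.rpow_one x)
            have g3 : Real.log q ≤ L := Real.log_le_log hq0 hqx'
            have g4 : (q.primeFactors.card : ℝ) + 1 ≤ 3 * L := by linarith
            rw [div_le_div_iff₀ hph hq0, one_mul]
            exact g1.trans (mul_le_mul_of_nonneg_right g4 hph.le)
          have h8 : x / ((q * r).totient : ℝ) ≤ x * (3 * L / q) := by
            calc x / ((q * r).totient : ℝ) ≤ x / (q.totient : ℝ) := div_le_div_of_nonneg_left hx0.le hph h6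
              _ = x * (1 / (q.totient : ℝ)) := by ring
              _ ≤ x * (3 * L / q) := mul_le_mul_of_nonneg_left h7 hx0.le
          have h9 : L ^ (-(A2 + 3)) * (L * L) = L ^ (-(A2 + 1)) := by
            calc L ^ (-(A2 + 3)) * (L * L) = L ^ (-(A2 + 3)) * (L ^ (1 : ℝ) * L ^ (1 : ℝ)) := by rw [Real.rpow_one]
              _ = L ^ (-(A2 + 1)) := by
                  rw [← Real.rpow_add hL0, ← Real.rpow_add hL0]
                  congr 1
                  ring
          have h10 : 0 ≤ L ^ (-(A2 + 3)) := Real.rpow_nonneg hL0.le _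
          calc Cn * (x / ((q * r).totient : ℝ) * L ^ (-(A2 + 3))) ≤ Cn * (x * (3 * L / q) * L ^ (-(A2 + 3))) := by gcongr
            _ = (3 * Cn) * (x / q * (L ^ (-(A2 + 3)) * L)) := by ring
            _ ≤ L * (x / q * (L ^ (-(A2 + 3)) * L)) := by gcongr
            _ = x / q * (L ^ (-(A2 + 3)) * (L * L)) := by ring
            _ = R := by rw [h9, hR]
        have g4 := Qsw_cop z (q * r) M' (b + q * c) _ _ g1 g2
        have g5 : x / q * Real.log x ^ (-(A2 + 1)) = R := by rw [hR]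
        rw [g5] at g4
        linarith
      · exact (Qsw_ncp z q r (b + q * c) M hr hrz hgbq hg).trans (by linarith)
    have g1 := hkey M1 hM1
    have g2 := hkey M2 hM2
    have g3 : 4 * R ≤ X * (Real.log X) ^ (-A2) := by
      have h5 : (2 * L) ^ (-A2) ≤ (Real.log X) ^ (-A2) :=
        Real.rpow_le_rpow_of_nonpos hlX0 hXu (by linarith)
      have h6 : (2 * L) ^ (-A2) = 2 ^ (-A2) * L ^ (-A2) := Real.mul_rpow (by norm_num) hL0.le
      have h7 : (2 : ℝ) ^ (-A2) * 2 ^ A2 = 1 := by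
        rw [← Real.rpow_add (by norm_num), neg_add_cancel, Real.rpow_zero]
      have h8 : L ^ (-A2) = L * L ^ (-(A2 + 1)) := by
        calc L ^ (-A2) = L ^ (1 + -(A2 + 1)) := by congr 1; ring
          _ = L * L ^ (-(A2 + 1)) := by rw [Real.rpow_add hL0, Real.rpow_one]
      have h9 : 0 < (2 : ℝ) ^ (-A2) := Real.rpow_pos_of_pos (by norm_num) _
      have h10 : 0 ≤ L ^ (-(A2 + 1)) := Real.rpow_nonneg hL0.le _
      have h11 : 2 ≤ (2 : ℝ) ^ (-A2) * L := by
        calc (2 : ℝ) = 2 * (2 ^ (-A2) * 2 ^ A2) := by rw [h7]; norm_num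
          _ = 2 ^ (-A2) * (2 * 2 ^ A2) := by ring
          _ ≤ 2 ^ (-A2) * L := by gcongr
      have h12 : 0 ≤ x / q := by positivity
      calc 4 * R = 2 * (x / q * (2 * L ^ (-(A2 + 1)))) := by rw [hR]; ring
        _ ≤ 2 * (x / q * ((2 ^ (-A2) * L) * L ^ (-(A2 + 1)))) := by gcongr
        _ = X * (2 ^ (-A2) * L ^ (-A2)) := by rw [hXq, h8]; ring
        _ = X * (2 * L) ^ (-A2) := by rw [h6]
        _ ≤ X * (Real.log X) ^ (-A2) := by gcongr
    linarith

end Pool.Agent.Lib.TR
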