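import Pool.Agent.Lib.TR.SpecQ

/-!
MP_00e23e_nt, directory Lib/TR, chapter Q, module Qto: all pairs, H of middle size.
-/

set_option autoImplicit false

namespace Pool.Agent.Lib.TR

open Finset Pool.Agent.Lib.EH3 Pool.Agent.Results.MP_00e23e_nt

private lemma Qto_L (x : ℝ) (hx : 3 ≤ x) : 1 < Real.log x ∧ 0 < Real.log (Real.log x) := by
  have h1 : Real.exp 1 < 3 := lt_of_lt_of_le Real.exp_one_lt_d9 (by norm_num)
  have h2 : 1 < Real.log x := by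
    rw [Real.lt_log_iff_exp_lt (by linarith)]
    linarith
  exact ⟨h2, Real.log_pos h2⟩

private lemma Qto_sub (ε x : ℝ) (H K : ℕ) (DD D1 : Finset (ℕ × ℕ)) (b : ℕ → ℕ → ℤ) (kk : ℕ → ℕ → ℕ)
    (h : Dat ε x H K DD b kk) (hs : D1 ⊆ DD) : Dat ε x H K D1 b kk := fun p hp => h p (hs hp)

private lemma Qto_Sj0 (H q e : ℕ) (b : ℤ) (y : ℕ → ℝ) : 0 ≤ Sj H q e b y :=
  Finset.sum_nonneg fun _ _ => abs_nonneg _

private lemma Qto_gq (q : ℕ) (b : ℤ) (j : ℕ) (h : Int.gcd b q = 1) : Int.gcd (b + q * j) q = 1 := by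
  rw [← Int.isCoprime_iff_gcd_eq_one] at h ⊢
  have h2 : IsCoprime (b + (q : ℤ) * j) (q : ℤ) := by
    have := h.add_mul_left_left (j : ℤ)
    exact this
  exact h2

private lemma Qto_gqe (q e : ℕ) (a : ℤ) (h : Int.gcd a q = 1) (h2 : Int.gcd a e = 1) :
    Int.gcd a ((q * e : ℕ) : ℤ) = 1 := by
  rw [← Int.isCoprime_iff_gcd_eq_one] at h h2 ⊢
  push_cast
  exact h.mul_right h2

/-- the pairs with e = 1 -/
private lemma Qto_one (h2 : QbvStmt) (ε U : ℝ) (hε : 0 < ε) (hε2 : ε ≤ 1 / 10) (hU : 0 < U) :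
    ∃ C x0 : ℝ, 0 < C ∧ 3 ≤ x0 ∧ ∀ (x : ℝ) (H K : ℕ) (DD : Finset (ℕ × ℕ)) (b : ℕ → ℕ → ℤ) (kk : ℕ → ℕ → ℕ)
      (y : ℕ → ℕ → ℕ → ℝ), x0 ≤ x → Dat ε x H K DD b kk → (∀ q e j, 2 ≤ y q e j ∧ y q e j ≤ x) →
      (∀ p ∈ DD, p.2 = 1) →
      ∑ p ∈ DD, Sj H p.1 p.2 (b p.1 (kk p.1 p.2)) (y p.1 p.2) ≤ C * (H * (x * (Real.log x) ^ (-U))) := by
  classical
  obtain ⟨C, x0, hC, hx0, hC1⟩ := h2 ε U hε (by linarith) hU
  refine ⟨C, x0, hC, by linarith, ?_⟩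
  intro x H K DD b kk y hx hD hy h1
  have hL := Qto_L x (by linarith)
  have hL0 : 0 < Real.log x := by linarith [hL.1]
  obtain ⟨QQ, hQQ⟩ : ∃ QQ : Finset ℕ, QQ = DD.image Prod.fst := ⟨_, rfl⟩
  have hinj : ∀ p ∈ DD, ∀ p' ∈ DD, Prod.fst p = Prod.fst p' → p = p' := by
    intro p hp p' hp' he
    exact Prod.ext he ((h1 p hp).trans (h1 p' hp').symm)
  have e1 : ∑ p ∈ DD, Sj H p.1 p.2 (b p.1 (kk p.1 p.2)) (y p.1 p.2) =
      ∑ q ∈ QQ, Sj H q 1 (b q (kk q 1)) (y q 1) := by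
    rw [hQQ, Finset.sum_image (fun p hp p' hp' he => hinj p hp p' hp' he)]
    refine Finset.sum_congr rfl fun p hp => ?_
    rw [h1 p hp]
  have hq : ∀ q ∈ QQ, 1 ≤ q ∧ (q : ℝ) ≤ x ^ (1 / 2 - ε) ∧ Int.gcd (b q (kk q 1)) q = 1 := by
    intro q hq
    rw [hQQ] at hq
    obtain ⟨p, hp, rfl⟩ := Finset.mem_image.1 hq
    obtain ⟨a1, a2, a3, a4, a5, a6⟩ := hD p hp
    rw [h1 p hp] at a5
    exact ⟨a1, a3, (a6 _ a5).1⟩
  rw [e1]
  have e2 : ∑ q ∈ QQ, Sj H q 1 (b q (kk q 1)) (y q 1) ≤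
      ∑ j ∈ range H, ∑ q ∈ QQ, |resErr (y q 1 j) (q * 1) (b q (kk q 1) + q * j)| := by
    rw [Finset.sum_comm]
    refine Finset.sum_le_sum fun q _ => ?_
    unfold Sj
    exact Finset.sum_le_sum_of_subset_of_nonneg (Finset.filter_subset _ _) fun _ _ _ => abs_nonneg _
  refine e2.trans ?_
  have e3 : ∀ j ∈ range H, ∑ q ∈ QQ, |resErr (y q 1 j) (q * 1) (b q (kk q 1) + q * j)| ≤
      C * (x * (Real.log x) ^ (-U)) := by
    intro j _
    have e4 := hC1 x 1 QQ (fun q _ => b q (kk q 1) + q * j) (fun q _ => y q 1 j) hx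
      (fun q hq1 => ⟨(hq q hq1).1, by rw [Nat.cast_one, mul_one]; exact (hq q hq1).2.1⟩)
      (fun q r => hy q 1 j)
    rw [Finset.Icc_self, Finset.sum_singleton, Nat.cast_one, one_mul] at e4
    rw [Finset.filter_true_of_mem (fun q hq1 => by
      rw [mul_one]
      exact Qto_gq q _ j (hq q hq1).2.2)] at e4
    refine e4.trans (le_of_eq ?_)
    rw [Real.rpow_neg hL0.le, div_eq_mul_inv]
  refine (Finset.sum_le_sum e3).trans (le_of_eq ?_)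
  rw [Finset.sum_const, Finset.card_range, nsmul_eq_mul]
  ring

/-- the pairs with bad q -/
private lemma Qto_bad (h3 : QbdStmt) (h4 : QptStmt) (h5 : BphStmt) (ε ζ A U : ℝ) (hε : 0 < ε) (hε2 : ε ≤ 1 / 10)
    (hζ : 1 ≤ ζ) (hA : 0 < A) (hU : 0 < U) :
    ∃ C x0 : ℝ, 0 < C ∧ 3 ≤ x0 ∧ ∀ (x : ℝ) (H K : ℕ) (DD : Finset (ℕ × ℕ)) (b : ℕ → ℕ → ℤ) (kk : ℕ → ℕ → ℕ)
      (y : ℕ → ℕ → ℕ → ℝ), x0 ≤ x → Dat ε x H K DD b kk → (∀ q e j, 2 ≤ y q e j ∧ y q e j ≤ x) →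
      (∀ p ∈ DD, ¬ Gq x ζ A p.1) →
      ∑ p ∈ DD, Sj H p.1 p.2 (b p.1 (kk p.1 p.2)) (y p.1 p.2) ≤ C * (H * (x * (Real.log x) ^ (-U))) := by
  classical
  obtain ⟨C3, x3, hC3, hx3, hb3⟩ := h3 ε ζ A U hε (by linarith) hζ hA hU
  obtain ⟨C4, x4, hC4, hx4, hb4⟩ := h4 ε hε (by linarith)
  refine ⟨8 * C4 * C3, max x3 x4, by positivity, le_trans hx3 (le_max_left _ _), ?_⟩
  intro x H K DD b kk y hx hD hy hbad
  have hxa : x3 ≤ x := (le_max_left _ _).trans hx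
  have hxb : x4 ≤ x := (le_max_right _ _).trans hx
  have hx0 : 3 ≤ x := by linarith
  have hxp : 0 < x := by linarith
  have hL := Qto_L x hx0
  have hL0 : 0 < Real.log x := by linarith [hL.1]
  obtain ⟨QB, hQB⟩ : ∃ QB : Finset ℕ, QB = DD.image Prod.fst := ⟨_, rfl⟩
  have hq : ∀ q ∈ QB, 1 ≤ q ∧ (q : ℝ) ≤ x ^ (1 / 2 - ε) ∧ ¬ Gq x ζ A q := by
    intro q hq
    rw [hQB] at hq
    obtain ⟨p, hp, rfl⟩ := Finset.mem_image.1 hq
    obtain ⟨a1, a2, a3, a4, a5, a6⟩ := hD p hp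
    exact ⟨a1, a3, hbad p hp⟩
  -- one pair
  have e1 : ∀ p ∈ DD, Sj H p.1 p.2 (b p.1 (kk p.1 p.2)) (y p.1 p.2) ≤
      H * (C4 * (x / Real.log x)) * (1 / ((p.1 * p.2).totient : ℝ)) := by
    intro p hp
    obtain ⟨a1, a2, a3, a4, a5, a6⟩ := hD p hp
    have hd : 1 ≤ p.1 * p.2 := Nat.mul_pos a1 a2
    have hd2 : (((p.1 * p.2 : ℕ)) : ℝ) ≤ x ^ (1 - ε) := by
      push_cast
      exact a4
    have hph : (0 : ℝ) < ((p.1 * p.2).totient : ℝ) := by exact_mod_cast Nat.totient_pos.2 hd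
    have e2 : ∀ j ∈ (range H).filter (fun j : ℕ => Int.gcd (b p.1 (kk p.1 p.2) + p.1 * j) p.2 = 1),
        |resErr (y p.1 p.2 j) (p.1 * p.2) (b p.1 (kk p.1 p.2) + p.1 * j)| ≤
          C4 * (x / (((p.1 * p.2).totient : ℝ) * Real.log x)) := by
      intro j hj
      have hg := (Finset.mem_filter.1 hj).2
      exact hb4 x _ _ _ hxb (hy _ _ _).1 (hy _ _ _).2 hd hd2
        (Qto_gqe _ _ _ (Qto_gq _ _ j (a6 _ a5).1) hg)
    unfold Sj
    refine (Finset.sum_le_sum e2).trans ?_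
    rw [Finset.sum_const, nsmul_eq_mul]
    have hcard : (((range H).filter (fun j : ℕ => Int.gcd (b p.1 (kk p.1 p.2) + p.1 * j) p.2 = 1)).card : ℝ) ≤ H := by
      have := Finset.card_filter_le (range H) (fun j : ℕ => Int.gcd (b p.1 (kk p.1 p.2) + p.1 * j) p.2 = 1)
      rw [Finset.card_range] at this
      exact_mod_cast this
    calc _ ≤ (H : ℝ) * (C4 * (x / (((p.1 * p.2).totient : ℝ) * Real.log x))) :=
          mul_le_mul_of_nonneg_right hcard (by positivity)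
      _ = H * (C4 * (x / Real.log x)) * (1 / ((p.1 * p.2).totient : ℝ)) := by
          field_simp
  -- the sum of 1/φ
  obtain ⟨N, hN⟩ : ∃ N : ℕ, N = ⌊x⌋₊ := ⟨_, rfl⟩
  have hN1 : 1 ≤ N := by
    rw [hN, Nat.one_le_floor_iff]
    linarith
  have hNx : (N : ℝ) ≤ x := by rw [hN]; exact Nat.floor_le hxp.le
  have hsub : DD ⊆ QB ×ˢ Icc 1 N := by
    intro p hp
    obtain ⟨a1, a2, a3, a4, a5, a6⟩ := hD p hp
    rw [Finset.mem_product, Finset.mem_Icc]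
    refine ⟨by rw [hQB]; exact Finset.mem_image_of_mem _ hp, a2, ?_⟩
    rw [hN]
    apply Nat.le_floor
    have e3 : x ^ (1 - ε) ≤ x := by
      calc x ^ (1 - ε) ≤ x ^ (1 : ℝ) := Real.rpow_le_rpow_of_exponent_le (by linarith) (by linarith)
        _ = x := Real.rpow_one x
    have e4 : (1 : ℝ) ≤ p.1 := by exact_mod_cast a1
    have e5 : (0 : ℝ) ≤ p.2 := Nat.cast_nonneg _
    nlinarith
  have e2 : ∑ p ∈ DD, 1 / ((p.1 * p.2).totient : ℝ) ≤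
      (∑ q ∈ QB, 1 / (q.totient : ℝ)) * ∑ e ∈ Icc 1 N, 1 / (e.totient : ℝ) := by
    have e3 : ∀ p ∈ QB ×ˢ Icc 1 N, 1 / ((p.1 * p.2).totient : ℝ) ≤ 1 / (p.1.totient : ℝ) * (1 / (p.2.totient : ℝ)) := by
      intro p hp
      rw [Finset.mem_product, Finset.mem_Icc] at hp
      have h6 : (0 : ℝ) < (p.1.totient : ℝ) := by exact_mod_cast Nat.totient_pos.2 (hq _ hp.1).1
      have h7 : (0 : ℝ) < (p.2.totient : ℝ) := by exact_mod_cast Nat.totient_pos.2 hp.2.1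
      have h8 : (p.1.totient : ℝ) * (p.2.totient : ℝ) ≤ ((p.1 * p.2).totient : ℝ) := by
        exact_mod_cast Nat.totient_super_multiplicative p.1 p.2
      rw [one_div_mul_one_div]
      exact one_div_le_one_div_of_le (by positivity) h8
    calc ∑ p ∈ DD, 1 / ((p.1 * p.2).totient : ℝ) ≤ ∑ p ∈ QB ×ˢ Icc 1 N, 1 / ((p.1 * p.2).totient : ℝ) :=
          Finset.sum_le_sum_of_subset_of_nonneg hsub fun _ _ _ => by positivity
      _ ≤ ∑ p ∈ QB ×ˢ Icc 1 N, 1 / (p.1.totient : ℝ) * (1 / (p.2.totient : ℝ)) := Finset.sum_le_sum e3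
      _ = (∑ q ∈ QB, 1 / (q.totient : ℝ)) * ∑ e ∈ Icc 1 N, 1 / (e.totient : ℝ) := by
          rw [Finset.sum_mul_sum, ← Finset.sum_product']
  have e3 : ∑ e ∈ Icc 1 N, 1 / (e.totient : ℝ) ≤ 8 * Real.log x := by
    have h6 := h5.1 N hN1
    have h7 : Real.log N ≤ Real.log x := Real.log_le_log (by exact_mod_cast hN1) hNx
    linarith [hL.1]
  have e4 := hb3 x QB hxa hq
  have e5 : 0 ≤ ∑ e ∈ Icc 1 N, 1 / (e.totient : ℝ) := Finset.sum_nonneg fun _ _ => by positivity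
  have hLU : 0 < (Real.log x) ^ (-U) := Real.rpow_pos_of_pos hL0 _
  have e6 : ∑ p ∈ DD, 1 / ((p.1 * p.2).totient : ℝ) ≤ C3 * (Real.log x) ^ (-U) * (8 * Real.log x) :=
    e2.trans (mul_le_mul e4 e3 e5 (by positivity))
  calc ∑ p ∈ DD, Sj H p.1 p.2 (b p.1 (kk p.1 p.2)) (y p.1 p.2) ≤
        ∑ p ∈ DD, H * (C4 * (x / Real.log x)) * (1 / ((p.1 * p.2).totient : ℝ)) := Finset.sum_le_sum e1
    _ = H * (C4 * (x / Real.log x)) * ∑ p ∈ DD, 1 / ((p.1 * p.2).totient : ℝ) := by rw [Finset.mul_sum]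
    _ ≤ H * (C4 * (x / Real.log x)) * (C3 * (Real.log x) ^ (-U) * (8 * Real.log x)) :=
        mul_le_mul_of_nonneg_left e6 (by positivity)
    _ = 8 * C4 * C3 * (H * (x * (Real.log x) ^ (-U))) := by
        field_simp

theorem tQto (h1 : QsuStmt) (h2 : QbvStmt) (h3 : QbdStmt) (h4 : QptStmt) (h5 : BphStmt) : QtoStmt := by
  classical
  intro ε U hε hε2 hU
  obtain ⟨C1, B, ζ, A3, c0, x1, hC1, hB, hζ, hA3, hc0, hc1, hx1, H1⟩ := h1 ε U hε hε2 hU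
  obtain ⟨C2, x2, hC2, hx2, H2⟩ := Qto_one h2 ε U hε hε2 hU
  obtain ⟨C3, x3, hC3, hx3, H3⟩ := Qto_bad h3 h4 h5 ε ζ A3 U hε hε2 hζ hA3 hU
  refine ⟨C1 + C2 + C3, B, c0, max x1 (max x2 x3), by positivity, hB, hc0, hc1, hx1.trans (le_max_left _ _), ?_⟩
  intro x H K DD b kk y hx hD hK hy hBH hH
  have hxa : x1 ≤ x := (le_max_left _ _).trans hx
  have hxb : x2 ≤ x := ((le_max_left _ _).trans (le_max_right _ _)).trans hx
  have hxc : x3 ≤ x := ((le_max_right _ _).trans (le_max_right _ _)).trans hx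
  have hx0 : 3 ≤ x := by linarith
  have hL := Qto_L x hx0
  have hL0 : 0 < Real.log x := by linarith [hL.1]
  have hLH : 0 ≤ Real.log H := Real.log_natCast_nonneg H
  have hLU : 0 < (Real.log x) ^ (-U) := Real.rpow_pos_of_pos hL0 _
  obtain ⟨F, hF⟩ : ∃ F : ℕ × ℕ → ℝ, F = fun p => Sj H p.1 p.2 (b p.1 (kk p.1 p.2)) (y p.1 p.2) := ⟨_, rfl⟩
  obtain ⟨T, hT⟩ : ∃ T : ℝ, T = ∑ p ∈ DD, 1 / ((p.1 * p.2).totient : ℝ) := ⟨_, rfl⟩
  have hT0 : 0 ≤ T := by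
    rw [hT]
    exact Finset.sum_nonneg fun _ _ => by positivity
  rw [← hT]
  have f1 : ∑ p ∈ DD, Sj H p.1 p.2 (b p.1 (kk p.1 p.2)) (y p.1 p.2) = ∑ p ∈ DD, F p := by rw [hF]
  rw [f1, ← Finset.sum_filter_add_sum_filter_not DD (fun p => p.2 = 1) F,
    ← Finset.sum_filter_add_sum_filter_not (DD.filter (fun p => ¬ p.2 = 1)) (fun p => Gq x ζ A3 p.1) F]
  have g2 := H2 x H K (DD.filter (fun p => p.2 = 1)) b kk y hxb (Qto_sub _ _ _ _ _ _ _ _ hD (Finset.filter_subset _ _))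
    hy (fun p hp => (Finset.mem_filter.1 hp).2)
  have g1 := H1 x H K ((DD.filter (fun p => ¬ p.2 = 1)).filter (fun p => Gq x ζ A3 p.1)) b kk y hxa
    (Qto_sub _ _ _ _ _ _ _ _ hD ((Finset.filter_subset _ _).trans (Finset.filter_subset _ _)))
    (fun p hp => by
      have h6 := Finset.mem_filter.1 hp
      have h7 := Finset.mem_filter.1 h6.1
      have h8 := (hD p h7.1).2.1
      exact ⟨by have := h7.2; omega, h6.2⟩) hK hy hBH hH
  have g3 := H3 x H K ((DD.filter (fun p => ¬ p.2 = 1)).filter (fun p => ¬ Gq x ζ A3 p.1)) b kk y hxc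
    (Qto_sub _ _ _ _ _ _ _ _ hD ((Finset.filter_subset _ _).trans (Finset.filter_subset _ _)))
    hy (fun p hp => (Finset.mem_filter.1 hp).2)
  have g4 : ∑ p ∈ (DD.filter (fun p => ¬ p.2 = 1)).filter (fun p => Gq x ζ A3 p.1), 1 / ((p.1 * p.2).totient : ℝ) ≤ T := by
    rw [hT]
    exact Finset.sum_le_sum_of_subset_of_nonneg ((Finset.filter_subset _ _).trans (Finset.filter_subset _ _))
      fun _ _ _ => by positivity
  have hη : 0 ≤ x / Real.log x * (Real.log (Real.log x) / Real.log H) := by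
    have := hL.2.le
    positivity
  have g5 : C1 * (H * (x / Real.log x * (Real.log (Real.log x) / Real.log H) *
      ∑ p ∈ (DD.filter (fun p => ¬ p.2 = 1)).filter (fun p => Gq x ζ A3 p.1), 1 / ((p.1 * p.2).totient : ℝ) +
        x * (Real.log x) ^ (-U))) ≤ C1 * (H * (x / Real.log x * (Real.log (Real.log x) / Real.log H) * T +
        x * (Real.log x) ^ (-U))) := by
    refine mul_le_mul_of_nonneg_left (mul_le_mul_of_nonneg_left ?_ (Nat.cast_nonneg _)) hC1.le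
    have := mul_le_mul_of_nonneg_left g4 hη
    linarith
  have g6 : (H : ℝ) * (x * (Real.log x) ^ (-U)) ≤ H * (x / Real.log x * (Real.log (Real.log x) / Real.log H) * T +
        x * (Real.log x) ^ (-U)) := by
    refine mul_le_mul_of_nonneg_left ?_ (Nat.cast_nonneg _)
    have := mul_nonneg hη hT0
    linarith
  have g7 := mul_le_mul_of_nonneg_left g6 hC2.le
  have g8 := mul_le_mul_of_nonneg_left g6 hC3.le
  rw [hF]
  rw [add_mul, add_mul]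
  have g9 := g1.trans g5
  have g10 := g2.trans g7
  have g11 := g3.trans g8
  simp only at g9 g10 g11 ⊢
  linarith

end Pool.Agent.Lib.TR
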