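import Pool.Agent.Lib.TR.SpecF
import Pool.Agent.Lib.BV.SpecE

/-!
MP_00e23e_nt, directory Lib/TR, chapter Q: THEOREM T++ (proposal of helper9, mails 69747, 69818, 69839): for every set of pairs (q, d), q | d,
q ≤ x^(1/2-ε), d = q e ≤ x^(1-ε), one class modulo q is chosen at will (maximum over the classes modulo q) and one averages over H = (log x)^ω
members a = b + q j of this class. Rules: see Defs.lean; architect: helper59.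

ORDER: Bpt (bad u, pointwise), Qpt (Brun-Titchmarsh, pointwise), Qbv (Bombieri-Vinogradov), Qbd (bad q), Qsw (Siegel-Walfisz for f(b + q m)), Qgo (good u),
Qas (one q, one dyadic block of e), Qsu (all good q, e ≥ 2), Qto (all pairs, H of middle size), Qfi (final theorem TqStmt).
NOTATION in the proofs: L = log x, l2 = log L = log log x, φ = totient, d = q e, a = b + q j.
-/

set_option autoImplicit false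

namespace Pool.Agent.Lib.TR

open Finset Pool.Agent.Lib.EH3 Pool.Agent.Results.MP_00e23e_nt

/-- q is good: for r ≤ (log x)^ζ no class modulo q r has an error > (x/q) (log x)^(-A) at some y in [2, x] -/
def Gq (x ζ A : ℝ) (q : ℕ) : Prop := ∀ (r : ℕ) (a : ℤ) (y : ℝ), 1 ≤ r → (r : ℝ) ≤ (Real.log x) ^ ζ →
  Int.gcd a ((q * r : ℕ) : ℤ) = 1 → 2 ≤ y → y ≤ x → |resErr y (q * r) a| ≤ x / q * (Real.log x) ^ (-A)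

/-- the sum of |E(y; q e, a)| over the a = b + q j, 0 ≤ j < H, which are coprime to e -/
noncomputable def Sj (H q e : ℕ) (b : ℤ) (y : ℕ → ℝ) : ℝ :=
  ∑ j ∈ (range H).filter (fun j : ℕ => Int.gcd (b + q * j) e = 1), |resErr (y j) (q * e) (b + q * j)|

/-- the hypotheses on the pairs p = (q, e) and the progressions b q k + q j, j < H, with index k < K; kk q e = the chosen index -/
def Dat (ε x : ℝ) (H K : ℕ) (DD : Finset (ℕ × ℕ)) (b : ℕ → ℕ → ℤ) (kk : ℕ → ℕ → ℕ) : Prop :=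
  ∀ p ∈ DD, 1 ≤ p.1 ∧ 1 ≤ p.2 ∧ (p.1 : ℝ) ≤ x ^ (1 / 2 - ε) ∧ (p.1 : ℝ) * p.2 ≤ x ^ (1 - ε) ∧ kk p.1 p.2 < K ∧
    ∀ k < K, Int.gcd (b p.1 k) p.1 = 1 ∧ -x ≤ b p.1 k ∧ (b p.1 k : ℝ) + p.1 * H ≤ x + p.1

/-- Module Bpt (theorem tBpt; THE BAD PART, POINTWISE). Uses: SG.GsvStmt, SG.VbdStmt, BV.MprStmt, Nnm, Nsz
(theorem tBpt (h1 : Pool.Agent.Lib.SG.GsvStmt) (h2 : Pool.Agent.Lib.SG.VbdStmt) (h3 : Pool.Agent.Lib.BV.MprStmt) (h4 : NnmStmt) (h5 : NszStmt) : BptStmt). Owner: helper9.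
Proof. d ≥ 2 and gcd(a,d) = 1 give a ≠ 0. Let u > 0 (for u < 0 put u = -u', n = a - d u'; the same with the classes of a - d u'). Sieve in the variable u ∈ Ioc 0 U, constants C0, ps, E from Gsv. L² > ps.
(1) PRIMES: y = ⌊x^(ε/(8E))⌋ (so y^E ≤ x^(ε/8); κ = ε/(16 E), P1 ≤ x^κ ≤ y). T = the primes of (ps, y], R p = {the class of u with p | a + d u, if p ∤ d} ∪ {0 if P0 < p ≤ P1}. If u is bad and n = a + d u is a prime > y then u % p ∉ R p. Since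
1 - 2/p ≤ (1 - 1/p)² and the two classes coincide only if p | a (p ∤ d), the product in Gsv is at most ∏_{p ∈ T, p ∤ d} (1 - 1/p) · ∏_{PS} (1 - 1/p) · ∏_{p | a, p > P0} (1 - 1/p)⁻¹ ≤ C (d/φ(d)) (1/log y)(log P0/log P1) · 4
(BV.Mpr for the primes p ≤ y, p ∤ d, the finitely many p ≤ ps cost a constant; SG.Vbd; at most 2L primes divide a, each factor ≤ 1 + 2/P0 ≤ 1 + 2/L²). (N2 - N) d/φ(d) = U d/φ(d) ≤ 20 x/φ(d), log y ≥ ε L/(16 E). The u with n = prime ≤ y: at most y/d + 1.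
|fc n| ≤ 1[n prime] + lci n nu n (Nsz). (2) MODEL, n ≥ √x: lci n ≤ 3/L (Nsz); nu z n = 1[all primes of n > z]/nrm z (n ≥ 1); y = max z P1, R p as above but the first class only for p ≤ z: number of the bad u with n free of primes ≤ z ≤
C0 U ∏_{ps < p ≤ z, p ∤ d} (1 - 1/p) ∏_{PS} (1 - 1/p) · 4 + y^E ≤ C U (d/φ(d)) nrm z (log P0/log P1) + x^(ε/8) (∏_{p ≤ z, p ∤ d} (1 - 1/p) ≤ nrm z d/φ(d)); times 1/nrm z ≤ C log z (Nnm) for the second term.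
(3) MODEL, n < √x: at most √x/d + 1 values of u, |fc n| ≤ 1 + 2 C log z ≤ L. -/
def BptStmt : Prop := ∀ ε ζ : ℝ, 0 < ε → ε ≤ 1 / 10 → 1 ≤ ζ → ∃ C κ x0 : ℝ, 0 < C ∧ 0 < κ ∧ κ ≤ ε / 8 ∧ 3 ≤ x0 ∧
  ∀ (x : ℝ) (d P0 P1 U : ℕ) (a : ℤ), x0 ≤ x → 2 ≤ d → (d : ℝ) ≤ x ^ (1 - ε) → |(a : ℝ)| ≤ x → Int.gcd a d = 1 →
    (Real.log x) ^ (2 : ℝ) ≤ P0 → P0 ≤ P1 → (P1 : ℝ) ≤ x ^ κ → (U : ℝ) ≤ 20 * x / d →
    ∑ u ∈ (Icc (-(U : ℤ)) U).filter (fun u => u ≠ 0 ∧ ¬ Good P0 P1 u.natAbs), |fc (zz ζ x) ⌊x⌋ (a + d * u)| ≤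
      C * (x / ((d.totient : ℝ) * Real.log x) * (Real.log P0 / Real.log P1) + Real.log x * (Real.sqrt x / d + 1) + x ^ (ε / 4))

/-- Module Qpt (theorem tQpt (h1 : Pool.Agent.Lib.BV.UbStmt) : QptStmt; Brun-Titchmarsh, pointwise). Uses: BV.UbStmt.
Proof. The private lemma Btr_term of Lib/TR/Btr.lean (copy it and Btr_res under new names) gives |resErr y d a| ≤ K x/(φ(d) L) if 2^128 ≤ x/d and ε L ≤ log (x/d): both follow from d ≤ x^(1-ε), x ≥ (2^128)^(1/ε). -/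
def QptStmt : Prop := ∀ ε : ℝ, 0 < ε → ε ≤ 1 → ∃ C x0 : ℝ, 0 < C ∧ 3 ≤ x0 ∧
  ∀ (x y : ℝ) (d : ℕ) (a : ℤ), x0 ≤ x → 2 ≤ y → y ≤ x → 1 ≤ d → (d : ℝ) ≤ x ^ (1 - ε) → Int.gcd a d = 1 →
    |resErr y d a| ≤ C * (x / ((d.totient : ℝ) * Real.log x))

/-- Module Qbv (theorem tQbv (h1 : Pool.Agent.Lib.BV.ExtStmt) : QbvStmt; Bombieri-Vinogradov for r ≤ R multiples). Uses: BV.ExtStmt.
Proof. gcd(a, d) = 1: |resErr y d a| ≤ maxErr y d (the residue l ∈ [1, d] of a; EH.le_maxErr; compare Lib/TR/Nsw.lean or Lib/KF). For fixed r ≤ R the moduli q r, q ∈ QQ, are different and ≤ D := ⌊x^(1/2-ε)⌋; Ext with A = U and the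
function y' d = y (d/r) r: ∑_q maxErr (y q r) (q r) ≤ ∑_{d ≤ D} maxErr (y' d) d ≤ C (x/L^U + √x D (log Kf loglog Kf)), Kf ≤ 16 + √x ≤ x^2, so the last factor is ≤ 4 L² and √x D 4 L² ≤ 4 x^(1-ε) L² ≤ x/L^U for x ≥ x0
(if D = 0 the sum is empty). Sum over r ≤ R. -/
def QbvStmt : Prop := ∀ ε U : ℝ, 0 < ε → ε < 1 / 2 → 0 < U → ∃ C x0 : ℝ, 0 < C ∧ 16 ≤ x0 ∧
  ∀ (x : ℝ) (R : ℕ) (QQ : Finset ℕ) (s : ℕ → ℕ → ℤ) (y : ℕ → ℕ → ℝ), x0 ≤ x →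
    (∀ q ∈ QQ, 1 ≤ q ∧ (q : ℝ) * R ≤ x ^ (1 / 2 - ε)) → (∀ q r, 2 ≤ y q r ∧ y q r ≤ x) →
    ∑ r ∈ Icc 1 R, ∑ q ∈ QQ.filter (fun q => Int.gcd (s q r) ((q * r : ℕ) : ℤ) = 1), |resErr (y q r) (q * r) (s q r)| ≤
      R * (C * (x / (Real.log x) ^ U))

/-- Module Qbd (theorem tQbd; the bad q). Uses: Qbv.
Proof. ε' = ε/2, R = ⌊L^ζ⌋ (q R ≤ x^(1/2-ε) L^ζ ≤ x^(1/2-ε/2) for x large). For q ∈ QB choose r_q ≤ R, a_q, y_q with |resErr y_q (q r_q) a_q| > (x/q) L^(-A) and put s q r = a_q if r = r_q, otherwise 0 (no matter), y q r = y_q if r = r_q, otherwise 2. All terms of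
the double sum of Qbv (with U' = A + ζ + U + 2) are ≥ 0, so ∑_{q ∈ QB} (x/q) L^(-A) ≤ R C x/L^U', i.e. ∑ 1/q ≤ C L^(-U-2). Finally 1/φ(q) ≤ (1/q)(ω(q) + 1) ≤ (1/q)(1 + 2 log q) ≤ 3 L/q (EH.le_totient, EH.card_primeFactors_le). -/
def QbdStmt : Prop := ∀ ε ζ A U : ℝ, 0 < ε → ε < 1 / 2 → 1 ≤ ζ → 0 < A → 0 < U → ∃ C x0 : ℝ, 0 < C ∧ 3 ≤ x0 ∧
  ∀ (x : ℝ) (QB : Finset ℕ), x0 ≤ x → (∀ q ∈ QB, 1 ≤ q ∧ (q : ℝ) ≤ x ^ (1 / 2 - ε) ∧ ¬ Gq x ζ A q) →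
    ∑ q ∈ QB, 1 / (q.totient : ℝ) ≤ C * (Real.log x) ^ (-U)

/-- Module Qsw (theorem tQsw; the function f(m) = fc (b + q m) is admissible). Uses: Nap, Nsz. (Model: Lib/TR/Nsw.lean.)
Proof. X = 2x/q, L/2 ≤ log X ≤ L + 1 (q ≤ √x). (i) |fc| ≤ |ff| ≤ 1 + 2C log z ≤ L/2 (Nsz). (ii) |m| > X: b + q m > x or b + q m < -x < 1 (|b| ≤ x... b ≥ -x, b ≤ x), so fc = 0 (y ≤ x). (iii) r ≤ (log X)^β ≤ (L+1)^β ≤ L^(β+1) ≤ L^ζ ≤ z = zz ζ x. The m ∈ Ico u v with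
r | m - c correspond to the n = b + q m ∈ Ico (b + q u) (b + q v) with q r | n - (b + q c). So the sum is the difference of two sums σ(M) = ∑_{1 ≤ n ≤ M, q r | n - a} ff z n, a = b + q c, M ≤ ⌊y⌋; M < 2: σ = 0. gcd(a, q r) = 1: σ(M) = resErr M (q r) a - (∑ lci n nu n - li M/φ(qr)):
Gq with A3 = A2 + 1: ≤ (x/q) L^(-A2-1); Nap with (1/4, A2 + 3, ζ) (q r ≤ x^(3/4), ζ ≥ A2 + 6): ≤ C (x/φ(qr)) L^(-A2-3) ≤ C (x/q) 3L L^(-A2-3) (φ(q r) ≥ φ(q), EH.le_totient). gcd(a, q r) = g > 1: gcd(a, q) = gcd(b, q) = 1, so a prime p | g divides r and p ≤ z; every n of the sum is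
divisible by p: nu z n = 0 and at most one n is prime: |σ| ≤ 1. Together ≤ 2 · 2 (x/q) L^(-A2-1) ≤ X (log X)^(-A2) (x large: (log X)^(-A2) ≥ 2^(-A2) L^(-A2)). -/
def QswStmt : Prop := ∀ ε A2 β ζ : ℝ, 0 < ε → ε ≤ 1 / 10 → 0 < A2 → 1 ≤ β → β + 1 ≤ ζ → A2 + 6 ≤ ζ → ∃ x0 : ℝ, 3 ≤ x0 ∧
  ∀ (x y : ℝ) (q : ℕ) (b : ℤ), x0 ≤ x → 2 ≤ y → y ≤ x → 1 ≤ q → (q : ℝ) ≤ x ^ (1 / 2 - ε) → |(b : ℝ)| ≤ x → Int.gcd b q = 1 →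
    Gq x ζ (A2 + 1) q → Adm (2 * x / q) β A2 (fun m : ℤ => ((fc (zz ζ x) ⌊y⌋ (b + q * m) : ℝ) : ℂ))

/-- Module Qgo (theorem tQgo; the good u for f(b + q m)). Uses: Fpo, Frf, Qsw. (Model: Lib/TR/Fgd.lean.)
Proof. Fpo with (ε, A + 1): B0', B1', β, A2, c0'. B0 = B0' + 2, B1 = B1' + 1, ζ = max (max (β + 1) (A2 + 6)) (A + 6), A3 = A2 + 1, c0 = c0'/4. X = 2x/q, L/2 ≤ log X ≤ L + 1, X ≥ √x large, f m = fc z ⌊y⌋ (b + q m) (complex), Adm X β A2 f (Qsw). A0 = 0 in Fpo (a = j); c j e = the sign of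
the sum over u if gcd(b + q j, e) = 1, otherwise 0. Conditions of Fpo at X: E ≤ x^(1-ε)/q ≤ (2x/q)^(1-ε); 2X = 4x/q ≤ E U; U ≤ 3X/E; (log X)^B0' ≤ (L+1)^B0' ≤ L^B0 ≤ P0; P1 (log X)^B1' ≤ P1 L^B1 ≤ H; H ≤ exp (c0 L/l2) ≤ exp (c0' log X/loglog X)
(log X ≥ L/2, loglog X ≤ 2 l2); |j| ≤ H - 1 ≤ (x - b)/q ≤ 2x/q. b + q j + (q e) u = b + q (j + e u). The sum over u ≠ 0 is split by Frf (2) with D = E; the second sum is Fpo for (1 - H, c(-j) e, f(-m)) (Frf (1)). Total ≤ 2 H (2x/q)(log X)^(-A-1) ≤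
H (x/q) L^(-A) (x large). -/
def QgoStmt : Prop := ∀ ε A : ℝ, 0 < ε → ε ≤ 1 / 10 → 0 < A → ∃ B0 B1 ζ A3 c0 x0 : ℝ, 2 ≤ B0 ∧ 1 ≤ B1 ∧ A + 6 ≤ ζ ∧ 0 < A3 ∧
  0 < c0 ∧ c0 ≤ 1 ∧ 3 ≤ x0 ∧
  ∀ (x y : ℝ) (q E U P0 P1 H : ℕ) (b : ℤ), x0 ≤ x → 2 ≤ y → y ≤ x → 1 ≤ q → (q : ℝ) ≤ x ^ (1 / 2 - ε) → Gq x ζ A3 q →
    Int.gcd b q = 1 → -x ≤ b → (b : ℝ) + q * H ≤ x + q → 1 ≤ H → 1 ≤ E → (q : ℝ) * E ≤ x ^ (1 - ε) →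
    4 * x ≤ (q : ℝ) * E * U → (U : ℝ) ≤ 6 * x / (q * E) → (Real.log x) ^ B0 ≤ P0 → P0 ≤ P1 → P1 * (Real.log x) ^ B1 ≤ H →
    (H : ℝ) ≤ Real.exp (c0 * (Real.log x / Real.log (Real.log x))) →
    ∑ j ∈ range H, ∑ e ∈ (Ioc E (2 * E)).filter (fun e : ℕ => Int.gcd (b + q * j) e = 1),
      |∑ u ∈ (Icc (-(U : ℤ)) U).filter (fun u => u ≠ 0 ∧ Good P0 P1 u.natAbs),
        fc (zz ζ x) ⌊y⌋ (b + q * j + ((q * e : ℕ) : ℤ) * u)| ≤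
      H * (x / q * (Real.log x) ^ (-A))

/-- Module Qas (theorem tQas; one good q, one dyadic block of e, any subset S of the block, any choice of the index). Uses: Qgo, Bpt, Fbs, Nap, Nsz, Bph. (Model: Lib/TR/Fbk.lean.)
Proof. A = 2U + 12. Qgo with (ε, A): B0, B1, ζ, A3, c0; Bpt with (ε/2, ζ): C, κ; Nap with (ε/2, U + 3, ζ) (ζ ≥ A + 6 ≥ U + 6). B = 2 (B0 + B1 + 2). x large, z = zz ζ x, M = L (Nsz), G = ⌈L^(U+4)⌉₊ ≤ 2 L^(U+4), u-range U1 = ⌈4x/(qE)⌉₊ ≤ 6x/(qE) (x/(qE) ≥ x^ε), 4x ≤ q E U1,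
P0 = ⌈L^B0⌉₊, P1 = ⌊H/L^B1⌋₊ ≥ √H ≥ P0, P1 L^B1 ≤ H, P1 ≤ H ≤ exp (c0 L/l2) ≤ x^κ. H ≥ 1. For e ∈ S: E < e ≤ 2E, d = q e, D = q E < d, 2x ≤ D U1, d ≤ 2 x^(1-ε) ≤ x^(1-ε/2), d ≥ 2 (e ≥ 2), gcd(a, d) = 1 iff gcd(a, e) = 1 (a = b k + q j, gcd(b k, q) = 1), |a| ≤ x.
Fbs with D = q E for each e ∈ S, j: (1) good part, for every g ∈ Icc 1 G: y_g = g x/G ∈ [2, x]; the sum over e ∈ S, j of the term with k = kk e is ≤ the sum over k < K, j, all e ∈ Ioc E (2E) (terms ≥ 0): K H (x/q) L^(-A) by Qgo; total G K H (x/q) L^(-A) ≤ 2 H (x/q) L^(2U+4-A) ≤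
2 H (x/q) L^(-U). (2) Bpt (U1 ≤ 6x/(qE) ≤ 12x/d): ≤ C (x/(φ(d) L)) (log P0/log P1) + C L (√x/d + 1) + C x^(ε/8); log P0 ≤ (B0+1) l2, log P1 ≥ (1/2) log H; the last two, summed over e ∈ S (at most E terms, q E ≤ x^(1-ε), d ≥ q): ≤ C L (√x/q)·... each e: √x/d ≤ √x/(q E), so the sum is
≤ C (L √x/q + E L + E x^(ε/8)) ≤ (x/q) L^(-U) (√x ≤ x^(1-ε/2), E ≤ x^(1-ε)/q). (3) Nap: C (x/φ(d)) L^(-U-3), φ(q e) ≥ φ(q) φ(e), ∑_{e} 1/φ(e) ≤ 20 (Bph (2)), 1/φ(q) ≤ 3L/q. (4) H E L (x/(G q E) + 2) ≤ H (x/q) L^(-U) · 3. -/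
def QasStmt : Prop := ∀ ε U : ℝ, 0 < ε → ε ≤ 1 / 10 → 0 < U → ∃ C B ζ A3 c0 x0 : ℝ, 0 < C ∧ 1 ≤ B ∧ 1 ≤ ζ ∧ 0 < A3 ∧
  0 < c0 ∧ c0 ≤ 1 ∧ 3 ≤ x0 ∧
  ∀ (x : ℝ) (q E H K : ℕ) (S : Finset ℕ) (b : ℕ → ℤ) (kk : ℕ → ℕ) (y : ℕ → ℕ → ℝ), x0 ≤ x → 1 ≤ q → (q : ℝ) ≤ x ^ (1 / 2 - ε) →
    Gq x ζ A3 q → (∀ k < K, Int.gcd (b k) q = 1 ∧ -x ≤ b k ∧ (b k : ℝ) + q * H ≤ x + q) → (K : ℝ) ≤ (Real.log x) ^ U →
    1 ≤ E → (q : ℝ) * E ≤ x ^ (1 - ε) → S ⊆ Ioc E (2 * E) → (∀ e ∈ S, kk e < K) → (∀ e j, 2 ≤ y e j ∧ y e j ≤ x) →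
    (Real.log x) ^ B ≤ H → (H : ℝ) ≤ Real.exp (c0 * (Real.log x / Real.log (Real.log x))) →
    ∑ e ∈ S, Sj H q e (b (kk e)) (y e) ≤
      C * (H * (x / Real.log x * (Real.log (Real.log x) / Real.log H) * ∑ e ∈ S, 1 / ((q * e).totient : ℝ) +
        x / q * (Real.log x) ^ (-U)))

/-- Module Qsu (theorem tQsu; all pairs with good q and e ≥ 2). Uses: Qas.
Proof. Qas with (ε, U + 3) (K ≤ L^U ≤ L^(U+3)). DD is the disjoint union of the sets S_(q,i) = the pairs with p.1 = q, p.2 ∈ Ioc (2^i) (2^(i+1)), q ≤ ⌊√x⌋, i < ⌈2L⌉₊ (2 ≤ p.2 ≤ x < 2^(2L)). If S_(q,i) is not empty then q 2^i < q e ≤ x^(1-ε) and the hypotheses on q hold. Sum of the bounds: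
the first terms give ∑_{DD} 1/φ(q e), the second ones ∑_q ∑_i (x/q) L^(-U-3) ≤ x (1 + L)(3L) L^(-U-3) ≤ 6 x L^(-U-1) ≤ 6 x L^(-U). -/
def QsuStmt : Prop := ∀ ε U : ℝ, 0 < ε → ε ≤ 1 / 10 → 0 < U → ∃ C B ζ A3 c0 x0 : ℝ, 0 < C ∧ 1 ≤ B ∧ 1 ≤ ζ ∧ 0 < A3 ∧
  0 < c0 ∧ c0 ≤ 1 ∧ 3 ≤ x0 ∧
  ∀ (x : ℝ) (H K : ℕ) (DD : Finset (ℕ × ℕ)) (b : ℕ → ℕ → ℤ) (kk : ℕ → ℕ → ℕ) (y : ℕ → ℕ → ℕ → ℝ), x0 ≤ x →
    Dat ε x H K DD b kk → (∀ p ∈ DD, 2 ≤ p.2 ∧ Gq x ζ A3 p.1) → (K : ℝ) ≤ (Real.log x) ^ U →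
    (∀ q e j, 2 ≤ y q e j ∧ y q e j ≤ x) → (Real.log x) ^ B ≤ H → (H : ℝ) ≤ Real.exp (c0 * (Real.log x / Real.log (Real.log x))) →
    ∑ p ∈ DD, Sj H p.1 p.2 (b p.1 (kk p.1 p.2)) (y p.1 p.2) ≤
      C * (H * (x / Real.log x * (Real.log (Real.log x) / Real.log H) * ∑ p ∈ DD, 1 / ((p.1 * p.2).totient : ℝ) +
        x * (Real.log x) ^ (-U)))

/-- Module Qto (theorem tQto; all pairs, H of middle size). Uses: Qsu, Qbv, Qbd, Qpt, Bph.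
Proof. DD = DD1 (e = 1) ∪ DD2 (e ≥ 2, q good) ∪ DD3 (e ≥ 2, q bad), (ζ, A3 from Qsu). DD2: Qsu. DD1: the pairs (q, 1), q ∈ Q1 = a set of q ≤ x^(1/2-ε); for each j < H: Qbv with R = 1, s q 1 = b q (kk q 1) + q j (coprime to q), y: ≤ C x/L^U; sum over j (Int.gcd (..) 1 = 1 always): ≤ H C x L^(-U).
DD3: Sj ≤ H C x/(φ(q e) L) (Qpt; gcd(a, q e) = 1; q e ≤ x^(1-ε)), φ(q e) ≥ φ(q) φ(e), ∑_{e ≤ x} 1/φ(e) ≤ 4 (1 + L) ≤ 8L (Bph (1)): ≤ 8 C H x ∑_{q bad} 1/φ(q) ≤ C' H x L^(-U) (Qbd with (ε, ζ, A3, U), QB = the bad q which occur). -/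
def QtoStmt : Prop := ∀ ε U : ℝ, 0 < ε → ε ≤ 1 / 10 → 0 < U → ∃ C B c0 x0 : ℝ, 0 < C ∧ 1 ≤ B ∧ 0 < c0 ∧ c0 ≤ 1 ∧ 3 ≤ x0 ∧
  ∀ (x : ℝ) (H K : ℕ) (DD : Finset (ℕ × ℕ)) (b : ℕ → ℕ → ℤ) (kk : ℕ → ℕ → ℕ) (y : ℕ → ℕ → ℕ → ℝ), x0 ≤ x →
    Dat ε x H K DD b kk → (K : ℝ) ≤ (Real.log x) ^ U →
    (∀ q e j, 2 ≤ y q e j ∧ y q e j ≤ x) → (Real.log x) ^ B ≤ H → (H : ℝ) ≤ Real.exp (c0 * (Real.log x / Real.log (Real.log x))) →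
    ∑ p ∈ DD, Sj H p.1 p.2 (b p.1 (kk p.1 p.2)) (y p.1 p.2) ≤
      C * (H * (x / Real.log x * (Real.log (Real.log x) / Real.log H) * ∑ p ∈ DD, 1 / ((p.1 * p.2).totient : ℝ) +
        x * (Real.log x) ^ (-U)))

/-- **THEOREM T++** (module Qfi, theorem tQfi (h1 : QptStmt) (h2 : QtoStmt) (h3 : FctStmt) : TqStmt). Uses: Qpt, Qto, Fct. (Model: Lib/TR/Fin.lean.)
Proof. δ = min ε (1/10): Dat ε gives Dat δ (x ≥ 1). x0 large (from Qpt with δ and Qto with δ; constants C1, C2, B, c0). S = ∑_{DD} 1/φ(q e), η = l2/log H + l2²/L, l2 > 0.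
(a) 3 ≤ x < x0: |resErr y d a| ≤ x (0 ≤ resCount ≤ y, 0 ≤ li y/φ(d) ≤ y), Sj ≤ H x, DD has at most x² ≤ x0² elements (q, e ≤ x): the sum is ≤ H x x0² ≤ x0² (log x0)^U H x L^(-U). (b) x ≥ x0, H < L^B: Qpt: Sj ≤ H C1 x/(φ(qe) L) (gcd(a, q e) = 1), log H ≤ B l2, so l2/log H ≥ 1/B: the sum is
≤ B C1 H x (l2/log H)(1/L) S. (c) L^B ≤ H ≤ X := exp (c0 L/l2): Qto. (d) H > X: H1 = ⌊X/2⌋₊, 2 H1 ≤ X, 1 ≤ H1 ≤ H, H1 ≥ X/4 ≥ exp (c0 L/(2 l2)) ≥ L^B. F j (j : ℤ) = the sum over the pairs of DD with gcd(b + q j, e) = 1 of |resErr (y q e j.toNat) (q e) (b + q j)|, b = b q (kk q e); the sum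
over DD of Sj H is ∑_{j ∈ Ico 0 (0 + H)} F j. For Ico A' (A' + H') inside Ico 0 H, H1 ≤ H' ≤ 2 H1, it is the sum over DD of Sj H' for b' q k = b q k + q A' (Dat holds: gcd(b', q) = 1, -x ≤ b', b' + q H' ≤ b + q H ≤ x + q) and y' q e j = y q e (A'.toNat + j): Qto: ≤ C2 H' (x (l2/log H') S/L + x L^(-U)),
l2/log H' ≤ l2/log H1 ≤ 2 l2²/(c0 L). Fct with κ = C2 (2 x l2² S/(c0 L²) + x L^(-U)) gives the claim. -/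
def TqStmt : Prop := ∀ ε U : ℝ, 0 < ε → 0 < U → ∃ C : ℝ, ∀ (x : ℝ) (H K : ℕ) (DD : Finset (ℕ × ℕ)) (b : ℕ → ℕ → ℤ)
  (kk : ℕ → ℕ → ℕ) (y : ℕ → ℕ → ℕ → ℝ), 3 ≤ x → 2 ≤ H → Dat ε x H K DD b kk → (K : ℝ) ≤ (Real.log x) ^ U →
    (∀ q e j, 2 ≤ y q e j ∧ y q e j ≤ x) →
    ∑ p ∈ DD, Sj H p.1 p.2 (b p.1 (kk p.1 p.2)) (y p.1 p.2) ≤
      C * (H * x * ((Real.log (Real.log x) / Real.log H + (Real.log (Real.log x)) ^ 2 / Real.log x) *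
        (1 / Real.log x * ∑ p ∈ DD, 1 / ((p.1 * p.2).totient : ℝ)) + (Real.log x) ^ (-U)))

end Pool.Agent.Lib.TR
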