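import Pool.Agent.Lib.TR.AllA
import Pool.Agent.Lib.TR.SpecQ
import Pool.Agent.Lib.TR.Bpt
import Pool.Agent.Lib.TR.Qpt
import Pool.Agent.Lib.TR.Qbv
import Pool.Agent.Lib.TR.Qbd
import Pool.Agent.Lib.TR.Qsw
import Pool.Agent.Lib.TR.Qgo
import Pool.Agent.Lib.TR.Qas
import Pool.Agent.Lib.TR.Qsu
import Pool.Agent.Lib.TR.Qto
import Pool.Agent.Lib.TR.Qfi

/-!
MP_00e23e_nt, THEOREM T++: assembly of chapter Q. Final theorem: aTq : TqStmt.
-/

set_option autoImplicit false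

namespace Pool.Agent.Lib.TR

theorem aBpt : BptStmt := tBpt Pool.Agent.Lib.SG.uGsv Pool.Agent.Lib.SG.uVbd Pool.Agent.Lib.BV.aMpr aNnm aNsz
theorem aQpt : QptStmt := tQpt Pool.Agent.Lib.BV.aUb
theorem aQbv : QbvStmt := tQbv Pool.Agent.Lib.BV.aExt
theorem aQbd : QbdStmt := tQbd aQbv
theorem aQsw : QswStmt := tQsw aNap aNsz
theorem aQgo : QgoStmt := tQgo aFpo aFrf aQsw
theorem aQas : QasStmt := tQas aQgo aBpt aFbs aNap aNsz aBph
theorem aQsu : QsuStmt := tQsu aQas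
theorem aQto : QtoStmt := tQto aQsu aQbv aQbd aQpt aBph

/-- **THEOREM T++**, without hypotheses. -/
theorem aTq : TqStmt := tQfi aQpt aQto aFct

end Pool.Agent.Lib.TR
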