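import Pool.Agent.Lib.TR.SpecB

/-! MP_00e23e_nt, Lib/TR, module Bpr: Brun-Titchmarsh for the variable d. -/

set_option autoImplicit false

namespace Pool.Agent.Lib.TR

open Finset Pool.Agent.Lib.EH3 Pool.Agent.Results.MP_00e23e_nt

private theorem Bpr_z (x : ℝ) (hx : (2 : ℝ) ^ 128 ≤ x) :
    ∃ z : ℕ, 2 ≤ z ∧ Real.log x / 128 ≤ Real.log z ∧ (z : ℝ) ^ 16 ≤ x ^ ((1 : ℝ) / 4) ∧
      (z : ℝ) ≤ x ^ ((1 : ℝ) / 4) := by
  have hxpos : 0 < x := lt_of_lt_of_le (by positivity) hx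
  have hx1 : 1 ≤ x := le_trans (one_le_pow₀ (by norm_num)) hx
  have h1 : 2 ≤ x ^ ((1 : ℝ) / 128) := by
    have h2 : ((2 : ℝ) ^ 128) ^ ((1 : ℝ) / 128) ≤ x ^ ((1 : ℝ) / 128) :=
      Real.rpow_le_rpow (by positivity) hx (by norm_num)
    have h3 : ((2 : ℝ) ^ 128) ^ ((1 : ℝ) / 128) = 2 := by
      rw [← Real.rpow_natCast, ← Real.rpow_mul (by norm_num)]
      norm_num
    rwa [h3] at h2
  have h4 : x ^ ((1 : ℝ) / 64) = x ^ ((1 : ℝ) / 128) * x ^ ((1 : ℝ) / 128) := by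
    rw [← Real.rpow_add hxpos]; norm_num
  have h5 : 4 ≤ x ^ ((1 : ℝ) / 64) := by rw [h4]; nlinarith
  have h0 : 0 ≤ x ^ ((1 : ℝ) / 64) := by linarith
  refine ⟨⌊x ^ ((1 : ℝ) / 64)⌋₊, ?_, ?_, ?_, ?_⟩
  · apply Nat.le_floor
    push_cast
    linarith
  · have h6 : x ^ ((1 : ℝ) / 128) ≤ (⌊x ^ ((1 : ℝ) / 64)⌋₊ : ℝ) := by
      have h7 := Nat.lt_floor_add_one (x ^ ((1 : ℝ) / 64))
      have h8 : x ^ ((1 : ℝ) / 128) + 1 ≤ x ^ ((1 : ℝ) / 64) := by rw [h4]; nlinarith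
      linarith
    have h9 := Real.log_le_log (by linarith) h6
    rw [Real.log_rpow hxpos] at h9
    linarith
  · have h6 : (⌊x ^ ((1 : ℝ) / 64)⌋₊ : ℝ) ≤ x ^ ((1 : ℝ) / 64) := Nat.floor_le h0
    have h7 := pow_le_pow_left₀ (Nat.cast_nonneg _) h6 16
    have h8 : (x ^ ((1 : ℝ) / 64)) ^ 16 = x ^ ((1 : ℝ) / 4) := by
      rw [← Real.rpow_natCast, ← Real.rpow_mul hxpos.le]
      norm_num
    rwa [h8] at h7
  · refine le_trans (Nat.floor_le h0) ?_
    exact Real.rpow_le_rpow_of_exponent_le hx1 (by norm_num)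

/-- the values a + d u lie in an interval of length D |u| and in one residue class modulo |u| -/
private theorem Bpr_int (D : ℕ) (a u : ℤ) (hu : u ≠ 0) (hg : Int.gcd a u = 1) :
    ∃ l N N2 : ℕ, l.Coprime u.natAbs ∧ N ≤ N2 ∧ N2 ≤ N + D * u.natAbs ∧
      ∀ d ∈ Ioc D (2 * D), 1 ≤ a + (d : ℤ) * u →
        (a + (d : ℤ) * u).toNat ∈ Ioc N N2 ∧ (a + (d : ℤ) * u).toNat ≡ l [MOD u.natAbs] := by
  have hq : 0 < u.natAbs := Int.natAbs_pos.2 hu
  have hqz : (0 : ℤ) < (u.natAbs : ℤ) := by exact_mod_cast hq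
  have hl0 : 0 ≤ a % (u.natAbs : ℤ) := Int.emod_nonneg _ hqz.ne'
  have hlc : (a % (u.natAbs : ℤ)).toNat.Coprime u.natAbs := by
    have h1 : Int.gcd (a % (u.natAbs : ℤ)) (u.natAbs : ℤ) = 1 := by
      rw [Int.gcd_emod, ← hg, Int.gcd_def, Int.gcd_def, Int.natAbs_natCast]
    rw [Int.gcd_def, Int.natAbs_natCast] at h1
    rw [Nat.coprime_iff_gcd_eq_one]
    have h2 : (a % (u.natAbs : ℤ)).natAbs = (a % (u.natAbs : ℤ)).toNat := by omega
    rw [h2] at h1
    exact h1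
  have hmod : ∀ d : ℕ, 1 ≤ a + (d : ℤ) * u →
      (a + (d : ℤ) * u).toNat ≡ (a % (u.natAbs : ℤ)).toNat [MOD u.natAbs] := by
    intro d hd
    rw [← Int.natCast_modEq_iff, Int.toNat_of_nonneg (by omega), Int.toNat_of_nonneg hl0]
    have h1 : a % (u.natAbs : ℤ) ≡ a [ZMOD (u.natAbs : ℤ)] := Int.mod_modEq _ _
    refine Int.ModEq.trans ?_ h1.symm
    have h2 : ((u.natAbs : ℤ)) ∣ (d : ℤ) * u := Dvd.dvd.mul_left (Int.natAbs_dvd.2 dvd_rfl) _
    have h3 : a + (d : ℤ) * u ≡ a + 0 [ZMOD (u.natAbs : ℤ)] :=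
      Int.ModEq.add_left _ ((Int.modEq_zero_iff_dvd).2 h2)
    rw [add_zero] at h3
    exact h3
  rcases lt_or_gt_of_ne hu with hneg | hpos
  · refine ⟨(a % (u.natAbs : ℤ)).toNat, (a + 2 * (D : ℤ) * u - 1).toNat, (a + (D : ℤ) * u - 1).toNat,
      hlc, ?_, ?_, ?_⟩
    · have h1 : (D : ℤ) * u ≤ 0 := mul_nonpos_of_nonneg_of_nonpos (by positivity) hneg.le
      have h2 : 2 * (D : ℤ) * u = (D : ℤ) * u + (D : ℤ) * u := by ring
      rw [h2]
      omega
    · have h0 : (u.natAbs : ℤ) = -u := by omega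
      have h1 : ((D * u.natAbs : ℕ) : ℤ) = -((D : ℤ) * u) := by
        push_cast
        rw [← Int.natCast_natAbs, h0]
        ring
      have h2 : 2 * (D : ℤ) * u = (D : ℤ) * u + (D : ℤ) * u := by ring
      rw [h2]
      omega
    · intro d hd h1
      refine ⟨?_, hmod d h1⟩
      rw [Finset.mem_Ioc] at hd ⊢
      have h2 : (D : ℤ) + 1 ≤ (d : ℤ) := by exact_mod_cast hd.1
      have h3 : (d : ℤ) ≤ 2 * (D : ℤ) := by exact_mod_cast hd.2
      have h4 : (d : ℤ) * u ≤ ((D : ℤ) + 1) * u := mul_le_mul_of_nonpos_right h2 hneg.le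
      have h5 : 2 * (D : ℤ) * u ≤ (d : ℤ) * u := mul_le_mul_of_nonpos_right h3 hneg.le
      have h6 : ((D : ℤ) + 1) * u = (D : ℤ) * u + u := by ring
      rw [h6] at h4
      constructor
      · omega
      · omega
  · refine ⟨(a % (u.natAbs : ℤ)).toNat, (a + (D : ℤ) * u).toNat, (a + 2 * (D : ℤ) * u).toNat,
      hlc, ?_, ?_, ?_⟩
    · have h1 : 0 ≤ (D : ℤ) * u := mul_nonneg (by positivity) hpos.le
      have h2 : 2 * (D : ℤ) * u = (D : ℤ) * u + (D : ℤ) * u := by ring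
      rw [h2]
      omega
    · have h0 : (u.natAbs : ℤ) = u := by omega
      have h1 : ((D * u.natAbs : ℕ) : ℤ) = (D : ℤ) * u := by
        push_cast
        rw [← Int.natCast_natAbs, h0]
      have h2 : 2 * (D : ℤ) * u = (D : ℤ) * u + (D : ℤ) * u := by ring
      rw [h2]
      omega
    · intro d hd h1
      refine ⟨?_, hmod d h1⟩
      rw [Finset.mem_Ioc] at hd ⊢
      have h2 : (D : ℤ) + 1 ≤ (d : ℤ) := by exact_mod_cast hd.1
      have h3 : (d : ℤ) ≤ 2 * (D : ℤ) := by exact_mod_cast hd.2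
      have h4 : ((D : ℤ) + 1) * u ≤ (d : ℤ) * u := mul_le_mul_of_nonneg_right h2 hpos.le
      have h5 : (d : ℤ) * u ≤ 2 * (D : ℤ) * u := mul_le_mul_of_nonneg_right h3 hpos.le
      have h6 : ((D : ℤ) + 1) * u = (D : ℤ) * u + u := by ring
      rw [h6] at h4
      constructor
      · omega
      · omega

private theorem Bpr_card (D z l N N2 : ℕ) (a u : ℤ) (hu : u ≠ 0)
    (h : ∀ d ∈ Ioc D (2 * D), 1 ≤ a + (d : ℤ) * u →
        (a + (d : ℤ) * u).toNat ∈ Ioc N N2 ∧ (a + (d : ℤ) * u).toNat ≡ l [MOD u.natAbs]) :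
    (((Ioc D (2 * D)).filter (fun d : ℕ => 1 ≤ a + d * u ∧ (a + d * u).toNat.Prime)).card : ℝ) ≤
      z + ∑ n ∈ (Ioc N N2).filter (fun n => n ≡ l [MOD u.natAbs]), Pool.Agent.Lib.BV.rr z n := by
  classical
  have h1 : ((Ioc D (2 * D)).filter (fun d : ℕ => 1 ≤ a + d * u ∧ (a + d * u).toNat.Prime)).card ≤
      (Icc 1 z ∪ ((Ioc N N2).filter (fun n => n ≡ l [MOD u.natAbs])).filter
        (fun n => Pool.Agent.Lib.BV.Rough z n)).card := by
    apply Finset.card_le_card_of_injOn (fun d : ℕ => (a + (d : ℤ) * u).toNat)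
    · intro d hd
      rw [Finset.mem_coe, Finset.mem_filter] at hd
      obtain ⟨hd1, hd2, hd3⟩ := hd
      obtain ⟨h2, h3⟩ := h d hd1 hd2
      rw [Finset.mem_coe, Finset.mem_union, Finset.mem_Icc, Finset.mem_filter, Finset.mem_filter]
      by_cases h4 : (a + (d : ℤ) * u).toNat ≤ z
      · exact Or.inl ⟨hd3.one_lt.le, h4⟩
      · refine Or.inr ⟨⟨h2, h3⟩, ?_⟩
        intro q hq hqp
        rw [(Nat.prime_dvd_prime_iff_eq hq hd3).1 hqp]
        omega
    · intro d hd e he hde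
      rw [Finset.mem_coe, Finset.mem_filter] at hd he
      have h2 : a + (d : ℤ) * u = a + (e : ℤ) * u := by
        have h3 : (a + (d : ℤ) * u).toNat = (a + (e : ℤ) * u).toNat := hde
        have h4 := hd.2.1
        have h5 := he.2.1
        omega
      have h3 : (d : ℤ) * u = (e : ℤ) * u := by linarith
      have h4 := mul_right_cancel₀ hu h3
      exact_mod_cast h4
  have h2 := le_trans h1 (Finset.card_union_le _ _)
  rw [Nat.card_Icc] at h2
  have h3 : ∑ n ∈ (Ioc N N2).filter (fun n => n ≡ l [MOD u.natAbs]), Pool.Agent.Lib.BV.rr z n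
      = ((((Ioc N N2).filter (fun n => n ≡ l [MOD u.natAbs])).filter
        (fun n => Pool.Agent.Lib.BV.Rough z n)).card : ℝ) := by
    unfold Pool.Agent.Lib.BV.rr
    rw [Finset.card_filter]
    push_cast
    rfl
  rw [h3]
  have h4 : z + 1 - 1 = z := by omega
  rw [h4] at h2
  exact_mod_cast h2

theorem tBpr (h1 : Pool.Agent.Lib.BV.UbStmt) : BprStmt := by
  constructor
  · obtain ⟨C, hC, hU⟩ := h1
    refine ⟨128 * C + 8, 2 ^ 128, by positivity, by norm_num, ?_⟩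
    intro D a u hD hu hg
    have hx : (2 : ℝ) ^ 128 ≤ (D : ℝ) := by exact_mod_cast hD
    have hx1 : (1 : ℝ) ≤ D := le_trans (one_le_pow₀ (by norm_num)) hx
    have hx2 : (2 : ℝ) ≤ D := le_trans (by norm_num) hx
    have hxpos : (0 : ℝ) < D := by linarith
    have hL : 0 < Real.log (D : ℝ) := Real.log_pos (by linarith)
    have hq : 0 < u.natAbs := Int.natAbs_pos.2 hu
    have ht : (0 : ℝ) < (u.natAbs.totient : ℝ) := by exact_mod_cast Nat.totient_pos.2 hq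
    have htd : (u.natAbs.totient : ℝ) ≤ (u.natAbs : ℝ) := by exact_mod_cast Nat.totient_le _
    obtain ⟨z, hz2, hzlog, hz16, hz⟩ := Bpr_z (D : ℝ) hx
    obtain ⟨l, N, N2, hl, hN, hN2, hmem⟩ := Bpr_int D a u hu hg
    have hc := Bpr_card D z l N N2 a u hu hmem
    have hb := hU z u.natAbs l N N2 hz2 hq hl hN
    have hNr : (N2 : ℝ) - N ≤ (D : ℝ) * (u.natAbs : ℝ) := by
      have : (N2 : ℝ) ≤ (N : ℝ) + (D : ℝ) * (u.natAbs : ℝ) := by exact_mod_cast hN2
      linarith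
    set W : ℝ := (u.natAbs : ℝ) / (u.natAbs.totient : ℝ) * ((D : ℝ) / Real.log D) with hW
    have hqr : (0 : ℝ) < (u.natAbs : ℝ) := by exact_mod_cast hq
    have h3 : ((N2 : ℝ) - N) / ((u.natAbs.totient : ℝ) * Real.log z) ≤ 128 * W := by
      have h4 : ((N2 : ℝ) - N) / ((u.natAbs.totient : ℝ) * Real.log z)
          ≤ ((D : ℝ) * (u.natAbs : ℝ)) / ((u.natAbs.totient : ℝ) * (Real.log D / 128)) := by
        apply div_le_div₀ (by positivity) hNr (by positivity)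
        exact mul_le_mul_of_nonneg_left hzlog ht.le
      have h5 : ((D : ℝ) * (u.natAbs : ℝ)) / ((u.natAbs.totient : ℝ) * (Real.log D / 128)) = 128 * W := by
        rw [hW]; field_simp
      rwa [h5] at h4
    have hqpos : 0 < (D : ℝ) ^ ((1 : ℝ) / 4) := Real.rpow_pos_of_pos hxpos _
    have h6 : (D : ℝ) ^ ((1 : ℝ) / 4) ≤ 4 * W := by
      have h7 : Real.log (D : ℝ) ≤ 4 * (D : ℝ) ^ ((1 : ℝ) / 4) := by
        have h8 := Real.log_le_sub_one_of_pos hqpos
        rw [Real.log_rpow hxpos] at h8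
        linarith
      have h9 : (D : ℝ) ^ ((1 : ℝ) / 4) * (D : ℝ) ^ ((1 : ℝ) / 4) ≤ D := by
        rw [← Real.rpow_add hxpos]
        have := Real.rpow_le_rpow_of_exponent_le hx1 (show (1 : ℝ) / 4 + 1 / 4 ≤ 1 by norm_num)
        rwa [Real.rpow_one] at this
      have h10 : (D : ℝ) ^ ((1 : ℝ) / 4) ≤ 4 * ((D : ℝ) / Real.log D) := by
        rw [← mul_div_assoc, le_div_iff₀ hL]
        have := mul_le_mul_of_nonneg_left h7 hqpos.le
        linarith
      have h11 : (D : ℝ) / Real.log D ≤ W := by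
        have h12 : 1 ≤ (u.natAbs : ℝ) / (u.natAbs.totient : ℝ) := by
          rw [le_div_iff₀ ht]; linarith
        have h13 : 0 ≤ (D : ℝ) / Real.log D := by positivity
        rw [hW]
        exact le_mul_of_one_le_left h13 h12
      linarith
    have h7 := mul_le_mul_of_nonneg_left h3 hC.le
    have h8 : (128 * C + 8) * W = C * (128 * W) + 8 * W := by ring
    rw [h8]
    linarith
  · intro D a u hu hg
    rw [Finset.card_le_one]
    intro d hd e he
    rw [Finset.mem_filter] at hd he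
    have hkey : ∀ d : ℕ, 1 ≤ a + (d : ℤ) * u → (a + (d : ℤ) * u).toNat.Prime →
        (a + (d : ℤ) * u).toNat = Int.gcd a u := by
      intro d h2 h3
      have h4 : ((Int.gcd a u : ℕ) : ℤ) ∣ a + (d : ℤ) * u :=
        dvd_add (Int.gcd_dvd_left a u) (Dvd.dvd.mul_left (Int.gcd_dvd_right a u) _)
      have h5 : Int.gcd a u ∣ (a + (d : ℤ) * u).toNat := by
        rw [← Int.natCast_dvd_natCast, Int.toNat_of_nonneg (by omega)]
        exact h4
      rcases (Nat.dvd_prime h3).1 h5 with h6 | h6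
      · exact absurd h6 hg
      · exact h6.symm
    have h2 := hkey d hd.2.1 hd.2.2
    have h3 := hkey e he.2.1 he.2.2
    have h4 : a + (d : ℤ) * u = a + (e : ℤ) * u := by
      have h5 := hd.2.1
      have h6 := he.2.1
      omega
    have h5 : (d : ℤ) * u = (e : ℤ) * u := by linarith
    have h6 := mul_right_cancel₀ hu h5
    exact_mod_cast h6

end Pool.Agent.Lib.TR
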