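import Pool.Agent.Lib.UI.SpecF
import Pool.Agent.Lib.UI.SpecZ
import Pool.Agent.Lib.BV.SpecF
import Pool.Agent.Lib.SG.SpecB

/-!
MP_00e23e_nt, directory Lib/TR (THEOREM T: Elliott-Halberstam to x^(1-eps), all moduli, absolute values, on average over the
residues of every interval of length (log x)^omega; architect helper59; paper proof: note 5022). Definitions of all chapters.

RULES. Module Xyz: file Pool/Agent/Lib/TR/Xyz.lean, first line `import Pool.Agent.Lib.TR.SpecN` (or the Spec file which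
contains XyzStmt, plus the files named in the docstring), then `namespace Pool.Agent.Lib.TR`,
`open Finset Pool.Agent.Lib.EH3 Pool.Agent.Results.MP_00e23e_nt`, private lemmas with names starting with Xyz_, final theorem
`theorem tXyz (h1 : AStmt) ... : XyzStmt`; the statements listed under Uses are hypotheses of your theorem, in this order.
Never use congr! / convert! / native_decide. Every module below 60 s.
-/

set_option autoImplicit false

namespace Pool.Agent.Lib.TR

open Finset Pool.Agent.Lib.EH3 Pool.Agent.Results.MP_00e23e_nt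

/-! ### The model -/

/-- the product of 1 - 1/p over the primes p ≤ z -/
noncomputable def nrm (z : ℕ) : ℝ := ∏ p ∈ (Icc 1 z).filter Nat.Prime, (1 - 1 / (p : ℝ))

/-- the model of the von Mangoldt function: numbers without prime factor ≤ z, mean value 1 -/
noncomputable def nu (z : ℕ) (n : ℤ) : ℝ := if 1 ≤ n then Pool.Agent.Lib.BV.rr z n.toNat / nrm z else 0

/-- primes minus model -/
noncomputable def ff (z : ℕ) (n : ℤ) : ℝ :=
  if 1 ≤ n then (if n.toNat.Prime then 1 else 0) - Pool.Agent.Lib.UI.lci n * nu z n else 0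

/-- the same, cut at y -/
noncomputable def fc (z : ℕ) (y n : ℤ) : ℝ := if n ≤ y then ff z n else 0

/-- z = the power of log x -/
noncomputable def zz (ζ x : ℝ) : ℕ := ⌈(Real.log x) ^ ζ⌉₊

/-! ### Good and bad integers, weights -/

/-- the primes of (P0, P1] -/
def PS (P0 P1 : ℕ) : Finset ℕ := (Ioc P0 P1).filter Nat.Prime

/-- u has a prime factor in (P0, P1] -/
def Good (P0 P1 u : ℕ) : Prop := ∃ p ∈ PS P0 P1, p ∣ u

noncomputable instance (P0 P1 u : ℕ) : Decidable (Good P0 P1 u) := Classical.dec _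

/-- the number of primes of (P0, P1] which divide v -/
def om (P0 P1 v : ℕ) : ℕ := ((PS P0 P1).filter (fun p => p ∣ v)).card

/-- squarefree with all prime factors in (P0, P1] -/
def SqP (P0 P1 l : ℕ) : Prop := Squarefree l ∧ ∀ p : ℕ, p.Prime → p ∣ l → p ∈ PS P0 P1

noncomputable instance (P0 P1 l : ℕ) : Decidable (SqP P0 P1 l) := Classical.dec _

/-- the coefficients of 1/(om + 1) -/
noncomputable def rho (P0 P1 l : ℕ) : ℝ :=
  if SqP P0 P1 l then (-1 : ℝ) ^ l.primeFactors.card / ((l.primeFactors.card : ℝ) + 1) else 0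

/-- the truncated sum over the divisors l ≤ Z of v -/
noncomputable def wt (ρ : ℕ → ℝ) (Z v : ℕ) : ℝ := ∑ l ∈ (Icc 1 Z).filter (fun l => l ∣ v), ρ l

/-- the number of the divisors l > Z of v which are squarefree with all prime factors in (P0, P1] -/
noncomputable def tl (P0 P1 Z v : ℕ) : ℝ := ((v.divisors.filter (fun l => Z < l ∧ SqP P0 P1 l)).card : ℝ)

/-! ### Ramanujan sums and local averages -/

/-- the sum of the Ramanujan sums c_q(j), q ≤ Q -/
noncomputable def Rq (Q : ℕ) (j : ℤ) : ℂ := ∑ q ∈ Icc 1 Q, Pool.Agent.Lib.UI.redc q (fun t => ee ((j : ℝ) * t))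

/-- the local average of f with the major arcs of denominators ≤ Q -/
noncomputable def Ch (Q h : ℕ) (f : ℤ → ℂ) (n : ℤ) : ℂ := (1 / (h : ℂ)) * ∑ j ∈ range h, Rq Q j * f (n + j)

/-- the average of F over the points n, n + w, ..., n + (L0 - 1) w -/
noncomputable def Aw (L0 : ℕ) (w : ℤ) (F : ℤ → ℂ) (n : ℤ) : ℂ := (1 / (L0 : ℂ)) * ∑ t ∈ range L0, F (n + w * t)

/-- the Fourier multiplier of Ch -/
noncomputable def mm (Q h : ℕ) (α : ℝ) : ℂ :=
  ∑ q ∈ Icc 1 Q, Pool.Agent.Lib.UI.redc q (fun t => (1 / (h : ℂ)) * ∑ j ∈ range h, ee ((j : ℝ) * (t - α)))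

/-- normalised geometric sum -/
noncomputable def KK (L0 : ℕ) (β : ℝ) : ℂ := (1 / (L0 : ℂ)) * ∑ t ∈ range L0, ee ((t : ℝ) * β)

/-- the sum of the squares of the absolute values on [-K, K] -/
noncomputable def sq (K : ℕ) (F : ℤ → ℂ) : ℝ := ∑ n ∈ Icc (-(K : ℤ)) K, ‖F n‖ ^ 2

/-- the difference of the averages over (n - h, n] and (n - h0, n] -/
noncomputable def kg (h h0 : ℕ) (g : ℤ → ℂ) (n : ℤ) : ℂ :=
  (1 / (h : ℂ)) * ∑ j ∈ range h, g (n - j) - (1 / (h0 : ℂ)) * ∑ j ∈ range h0, g (n - j)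

/-- the convolution of c on (D, 2D], of the indicator of S and of w on [V, 2V) -/
noncomputable def gg (D V : ℕ) (S : Finset ℕ) (c w : ℕ → ℂ) (m : ℤ) : ℂ :=
  ∑ d ∈ Ioc D (2 * D), ∑ p ∈ S, ∑ v ∈ Ico V (2 * V), if ((d * p * v : ℕ) : ℤ) = m then c d * w v else 0

/-! ### Dirichlet polynomials on the imaginary axis -/

/-- the phase m log n/4 -/
noncomputable def lp (m : ℤ) (n : ℕ) : ℂ := ee (-((m : ℝ) * Real.log n / 4))

/-- the sum over y - δ < log m ≤ y of g(m), g supported on [1, X] -/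
noncomputable def Wd (X : ℕ) (g : ℤ → ℂ) (δ y : ℝ) : ℂ :=
  ∑ m ∈ (Icc 1 X).filter (fun m : ℕ => y - δ < Real.log m ∧ Real.log m ≤ y), g m

/-- the Dirichlet polynomial of g -/
noncomputable def GD (X : ℕ) (g : ℤ → ℂ) (m : ℤ) : ℂ := ∑ n ∈ Icc 1 X, g n * lp m n

end Pool.Agent.Lib.TR
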