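import Pool.Agent.Lib.TR.SpecF

/-!
MP_00e23e_nt, directory Lib/TR, module Frf: reflection (u < 0).
-/

set_option autoImplicit false

namespace Pool.Agent.Lib.TR

open Finset Pool.Agent.Lib.EH3 Pool.Agent.Results.MP_00e23e_nt

private lemma Frf_split (F : ℤ → ℂ) (U P0 P1 : ℕ) :
    ∑ u ∈ (Icc (-(U : ℤ)) U).filter (fun u => u ≠ 0 ∧ Good P0 P1 u.natAbs), F u =
      ∑ u ∈ (Icc 1 U).filter (fun u => Good P0 P1 u), F (u : ℤ) +
      ∑ u ∈ (Icc 1 U).filter (fun u => Good P0 P1 u), F (-(u : ℤ)) := by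
  have hS : (Icc (-(U : ℤ)) U).filter (fun u => u ≠ 0 ∧ Good P0 P1 u.natAbs) =
      ((Icc 1 U).filter (fun u => Good P0 P1 u)).image (fun u : ℕ => (u : ℤ)) ∪
      ((Icc 1 U).filter (fun u => Good P0 P1 u)).image (fun u : ℕ => -(u : ℤ)) := by
    ext u
    simp only [mem_filter, mem_Icc, mem_union, mem_image]
    constructor
    · rintro ⟨⟨h1, h2⟩, h3, h4⟩
      rcases lt_or_gt_of_ne h3 with h | h
      · right
        exact ⟨u.natAbs, ⟨⟨by omega, by omega⟩, h4⟩, by omega⟩
      · left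
        exact ⟨u.natAbs, ⟨⟨by omega, by omega⟩, h4⟩, by omega⟩
    · rintro (⟨n, ⟨⟨h1, h2⟩, h3⟩, rfl⟩ | ⟨n, ⟨⟨h1, h2⟩, h3⟩, rfl⟩)
      · refine ⟨⟨by omega, by omega⟩, by omega, ?_⟩
        have : (n : ℤ).natAbs = n := by omega
        rw [this]
        exact h3
      · refine ⟨⟨by omega, by omega⟩, by omega, ?_⟩
        have : (-(n : ℤ)).natAbs = n := by omega
        rw [this]
        exact h3
  rw [hS, Finset.sum_union, Finset.sum_image, Finset.sum_image]
  · intro a _ b _ h
    simp only at h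
    omega
  · intro a _ b _ h
    simp only at h
    omega
  · rw [Finset.disjoint_left]
    intro u hu hu'
    simp only [mem_filter, mem_Icc, mem_image] at hu hu'
    obtain ⟨a, ⟨⟨h1, _⟩, _⟩, h2⟩ := hu
    obtain ⟨b, ⟨⟨h3, _⟩, _⟩, h4⟩ := hu'
    omega

theorem tFrf : FrfStmt := by
  refine ⟨?_, ?_⟩
  · intro x β A2 f hf
    obtain ⟨h1, h2, h3⟩ := hf
    refine ⟨fun n => h1 (-n), fun n hn => h2 (-n) ?_, ?_⟩
    · push_cast
      rw [abs_neg]
      exact hn
    · intro q b u v hq hqx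
      have key : ∑ n ∈ (Ico u v).filter (fun n => (q : ℤ) ∣ n - b), f (-n) =
          ∑ n ∈ (Ico (1 - v) (1 - u)).filter (fun n => (q : ℤ) ∣ n - (-b)), f n := by
        refine Finset.sum_nbij' (fun n => -n) (fun n => -n) ?_ ?_ ?_ ?_ ?_
        · intro n hn
          simp only [mem_filter, mem_Ico] at hn ⊢
          refine ⟨⟨by omega, by omega⟩, ?_⟩
          have : -n - -b = -(n - b) := by ring
          rw [this]
          exact (dvd_neg).2 hn.2
        · intro n hn
          simp only [mem_filter, mem_Ico] at hn ⊢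
          refine ⟨⟨by omega, by omega⟩, ?_⟩
          have : -n - b = -(n - -b) := by ring
          rw [this]
          exact (dvd_neg).2 hn.2
        · intro n _
          ring
        · intro n _
          ring
        · intro n _
          rfl
      simp only at key ⊢
      rw [key]
      exact h3 q (-b) (1 - v) (1 - u) hq hqx
  · intro A0 H D U P0 P1 c f
    have e1 : ∀ a ∈ Ico A0 (A0 + H), ∑ d ∈ Ioc D (2 * D),
        ∑ u ∈ (Icc (-(U : ℤ)) U).filter (fun u => u ≠ 0 ∧ Good P0 P1 u.natAbs), c a d * f (a + d * u) =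
        ∑ d ∈ Ioc D (2 * D), ∑ u ∈ (Icc 1 U).filter (fun u => Good P0 P1 u), c a d * f (a + d * u) +
        ∑ d ∈ Ioc D (2 * D), ∑ u ∈ (Icc 1 U).filter (fun u => Good P0 P1 u), c a d * f (a + d * -(u : ℤ)) := by
      intro a _
      rw [← Finset.sum_add_distrib]
      refine Finset.sum_congr rfl fun d _ => ?_
      exact Frf_split (fun u => c a d * f (a + d * u)) U P0 P1
    rw [Finset.sum_congr rfl e1, Finset.sum_add_distrib]
    refine congrArg₂ (· + ·) rfl ?_
    refine Finset.sum_nbij' (fun a => -a) (fun a => -a) ?_ ?_ ?_ ?_ ?_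
    · intro a ha
      rw [mem_Ico] at ha ⊢
      omega
    · intro a ha
      rw [mem_Ico] at ha ⊢
      omega
    · intro a _
      ring
    · intro a _
      ring
    · intro a _
      refine Finset.sum_congr rfl fun d _ => Finset.sum_congr rfl fun u _ => ?_
      have e2 : -(-a) = a := by ring
      have e3 : -(-a + (d : ℤ) * (u : ℤ)) = a + (d : ℤ) * -(u : ℤ) := by ring
      rw [e2, e3]

end Pool.Agent.Lib.TR
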