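import Pool.Agent.Lib.TR.SpecM

/-!
MP_00e23e_nt, directory Lib/TR, module Mcs: the Cauchy-Schwarz step of the minor arcs.
-/

set_option autoImplicit false

namespace Pool.Agent.Lib.TR

open Finset Pool.Agent.Lib.EH3 Pool.Agent.Results.MP_00e23e_nt

private lemma Mcs_card {P : ℕ} {S : Finset ℕ} (hS : ∀ p ∈ S, P < p ∧ p ≤ 2 * P) : (S.card : ℝ) ≤ P := by
  have h : S ⊆ Ioc P (2 * P) := fun p hp => mem_Ioc.2 (hS p hp)
  have h1 := card_le_card h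
  rw [Nat.card_Ioc] at h1
  have h2 : S.card ≤ P := by omega
  exact_mod_cast h2

private lemma Mcs_van {F : ℤ → ℂ} {K P L0 : ℕ} {w : ℤ} (hw : |w| < P)
    (hF : ∀ n : ℤ, (K : ℤ) < |n| → F n = 0) (n : ℤ) (hn : ((K + P * L0 : ℕ) : ℤ) < |n|) :
    Aw L0 w F n = 0 := by
  unfold Aw
  rw [sum_eq_zero, mul_zero]
  intro t ht
  apply hF
  have ht' : t < L0 := mem_range.1 ht
  have h1 : |w * t| ≤ (P : ℤ) * L0 := by
    rw [abs_mul, Nat.abs_cast]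
    exact mul_le_mul hw.le (by exact_mod_cast ht'.le) (by positivity) (by positivity)
  have h2 : |n| ≤ |n + w * t| + |w * t| := by
    calc |n| = |(n + w * t) - w * t| := by rw [add_sub_cancel_right]
      _ ≤ _ := abs_sub _ _
  push_cast at hn
  linarith

private lemma Mcs_ratio {H P p : ℕ} (hP : 1 ≤ P) (hPH : P ≤ H) (hp : P < p) :
    (H : ℝ) / p + 1 ≤ 2 * H / P := by
  have hP0 : (0 : ℝ) < P := by exact_mod_cast hP
  have h1 : (H : ℝ) / p ≤ H / P :=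
    div_le_div_of_nonneg_left (Nat.cast_nonneg _) hP0 (by exact_mod_cast hp.le)
  have h2 : 1 ≤ (H : ℝ) / P := (one_le_div hP0).2 (by exact_mod_cast hPH)
  calc (H : ℝ) / p + 1 ≤ H / P + H / P := add_le_add h1 h2
    _ = 2 * H / P := by ring

private lemma Mcs_sq_nonneg (K : ℕ) (F : ℤ → ℂ) : 0 ≤ sq K F := by
  unfold sq
  exact sum_nonneg fun _ _ => by positivity

/-- Exchange of the four sums. -/
private lemma Mcs_comm {α β γ δ : Type} (A : Finset α) (B : Finset β) (C : Finset γ) (D : Finset δ)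
    (X : α → β → γ → δ → ℂ) :
    ∑ a ∈ A, ∑ e ∈ B, ∑ p ∈ C, ∑ r ∈ D, X a e p r = ∑ p ∈ C, ∑ r ∈ D, ∑ a ∈ A, ∑ e ∈ B, X a e p r := by
  calc ∑ a ∈ A, ∑ e ∈ B, ∑ p ∈ C, ∑ r ∈ D, X a e p r
      = ∑ a ∈ A, ∑ p ∈ C, ∑ e ∈ B, ∑ r ∈ D, X a e p r := sum_congr rfl fun a _ => sum_comm
    _ = ∑ p ∈ C, ∑ a ∈ A, ∑ e ∈ B, ∑ r ∈ D, X a e p r := sum_comm
    _ = ∑ p ∈ C, ∑ a ∈ A, ∑ r ∈ D, ∑ e ∈ B, X a e p r :=
        sum_congr rfl fun p _ => sum_congr rfl fun a _ => sum_comm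
    _ = ∑ p ∈ C, ∑ r ∈ D, ∑ a ∈ A, ∑ e ∈ B, X a e p r := sum_congr rfl fun p _ => sum_comm

/-- Opening the square. -/
private lemma Mcs_open (F : ℤ → ℂ) (S : Finset ℕ) (I J : Finset ℤ) :
    ((∑ a ∈ I, ∑ e ∈ J, ‖∑ p ∈ S, F (a + p * e)‖ ^ 2 : ℝ) : ℂ) =
      ∑ p ∈ S, ∑ p' ∈ S, ∑ a ∈ I, ∑ e ∈ J, F (a + p * e) * (starRingEnd ℂ) (F (a + p' * e)) := by
  rw [← Mcs_comm]
  push_cast
  refine sum_congr rfl fun a _ => sum_congr rfl fun e _ => ?_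
  rw [← Complex.mul_conj', map_sum, sum_mul_sum]

/-- Cauchy-Schwarz over the quadruples. -/
private lemma Mcs_cs (S : Finset ℕ) (I J : Finset ℤ) (f g : ℕ → ℕ → ℤ → ℤ → ℂ) :
    ‖∑ p ∈ S, ∑ p' ∈ S, ∑ a ∈ I, ∑ e ∈ J, f p p' a e * (starRingEnd ℂ) (g p p' a e)‖ ≤
      Real.sqrt (∑ p ∈ S, ∑ p' ∈ S, ∑ a ∈ I, ∑ e ∈ J, ‖f p p' a e‖ ^ 2) *
        Real.sqrt (∑ p ∈ S, ∑ p' ∈ S, ∑ a ∈ I, ∑ e ∈ J, ‖g p p' a e‖ ^ 2) := by
  have h := Real.sum_mul_le_sqrt_mul_sqrt (S ×ˢ (S ×ˢ (I ×ˢ J)))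
    (fun w => ‖f w.1 w.2.1 w.2.2.1 w.2.2.2‖) (fun w => ‖g w.1 w.2.1 w.2.2.1 w.2.2.2‖)
  simp only [sum_product] at h
  refine le_trans ?_ h
  refine (norm_sum_le _ _).trans (sum_le_sum fun p _ => ?_)
  refine (norm_sum_le _ _).trans (sum_le_sum fun p' _ => ?_)
  refine (norm_sum_le _ _).trans (sum_le_sum fun a _ => ?_)
  refine (norm_sum_le _ _).trans (sum_le_sum fun e _ => ?_)
  rw [norm_mul, RCLike.norm_conj]

theorem tMcs (h1 : MctStmt) (h2 : MshStmt) : McsStmt := by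
  intro F K E H P L0 S A0 hP hPH hL hS hF
  have hP0 : (0 : ℝ) < P := by exact_mod_cast hP
  obtain ⟨E', hE'⟩ : ∃ E' : ℕ, E' = max E (K + A0.natAbs + H + 2 * P * L0 + L0 + 2) := ⟨_, rfl⟩
  have hEE : E ≤ E' := by
    rw [hE']
    exact le_max_left _ _
  have hE2 : (K : ℤ) + |A0| + H + 2 * P * L0 + L0 + 2 ≤ E' := by
    have h : K + A0.natAbs + H + 2 * P * L0 + L0 + 2 ≤ E' := by
      rw [hE']
      exact le_max_right _ _
    have h' : ((K + A0.natAbs + H + 2 * P * L0 + L0 + 2 : ℕ) : ℤ) ≤ E' := by exact_mod_cast h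
    push_cast at h'
    linarith
  have hmono : ∑ a ∈ Ico A0 (A0 + H), ∑ e ∈ Icc (-(E : ℤ)) E, ‖∑ p ∈ S, F (a + p * e)‖ ^ 2 ≤
      ∑ a ∈ Ico A0 (A0 + H), ∑ e ∈ Icc (-(E' : ℤ)) E', ‖∑ p ∈ S, F (a + p * e)‖ ^ 2 := by
    have hEE' : (E : ℤ) ≤ E' := by exact_mod_cast hEE
    refine sum_le_sum fun a _ => sum_le_sum_of_subset_of_nonneg ?_ fun _ _ _ => by positivity
    exact Icc_subset_Icc (by linarith) hEE'
  refine hmono.trans ?_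
  obtain ⟨I, hI⟩ : ∃ I, I = Ico A0 (A0 + (H : ℤ)) := ⟨_, rfl⟩
  obtain ⟨J, hJ⟩ : ∃ J, J = Icc (-(E' : ℤ)) E' := ⟨_, rfl⟩
  obtain ⟨s, hs⟩ : ∃ s, s = sq K F := ⟨_, rfl⟩
  obtain ⟨W, hW⟩ : ∃ W, W = ∑ w ∈ Ioo (-(P : ℤ)) P, sq (K + P * L0) (Aw L0 w F) := ⟨_, rfl⟩
  have hs0 : 0 ≤ s := by
    rw [hs]
    exact Mcs_sq_nonneg K F
  have hW0 : 0 ≤ W := by
    rw [hW]
    exact sum_nonneg fun _ _ => Mcs_sq_nonneg _ _
  have hcard := Mcs_card hS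
  have hcard0 : (0 : ℝ) ≤ S.card := Nat.cast_nonneg _
  -- the diagonal difference
  have hD : ∀ p ∈ S, ∀ p' ∈ S, ‖∑ a ∈ I, ∑ e ∈ J, F (a + p * e) * (starRingEnd ℂ) (F (a + p' * e)) -
      ∑ a ∈ I, ∑ e ∈ J, F (a + p * e) * (starRingEnd ℂ) (Aw L0 ((p' : ℤ) - p) F (a + p' * e))‖ ≤
      10 * L0 * s := by
    intro p hp p' hp'
    rw [hI, hJ, hs]
    exact h2 F K E' H P L0 p p' A0 hP hL (hS p hp).1 (hS p hp).2 (hS p' hp').1 (hS p' hp').2 hF hE2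
  have hA : ∀ p ∈ S, ∑ a ∈ I, ∑ e ∈ J, ‖F (a + p * e)‖ ^ 2 ≤ 2 * H / P * s := by
    intro p hp
    have hp1 : 1 ≤ p := by
      have := (hS p hp).1
      omega
    have h3 := h1 (fun n => ‖F n‖ ^ 2) K E' p H A0 hp1 (fun _ => by positivity)
      (fun n hn => by
        show ‖F n‖ ^ 2 = 0
        rw [hF n hn]
        simp)
    rw [hI, hJ]
    refine h3.trans ?_
    have h4 : ∑ n ∈ Icc (-(K : ℤ)) K, ‖F n‖ ^ 2 = s := by
      rw [hs]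
      rfl
    rw [h4]
    exact mul_le_mul_of_nonneg_right (Mcs_ratio hP hPH (hS p hp).1) hs0
  have hw : ∀ p ∈ S, ∀ p' ∈ S, |(p' : ℤ) - p| < P := by
    intro p hp p' hp'
    have h3 := hS p hp
    have h4 := hS p' hp'
    rw [abs_lt]
    omega
  have hB : ∀ p ∈ S, ∀ p' ∈ S, ∑ a ∈ I, ∑ e ∈ J, ‖Aw L0 ((p' : ℤ) - p) F (a + p' * e)‖ ^ 2 ≤
      2 * H / P * sq (K + P * L0) (Aw L0 ((p' : ℤ) - p) F) := by
    intro p hp p' hp'
    have hp1 : 1 ≤ p' := by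
      have := (hS p' hp').1
      omega
    have h3 := h1 (fun n => ‖Aw L0 ((p' : ℤ) - p) F n‖ ^ 2) (K + P * L0) E' p' H A0 hp1
      (fun _ => by positivity)
      (fun n hn => by
        show ‖Aw L0 ((p' : ℤ) - p) F n‖ ^ 2 = 0
        rw [Mcs_van (hw p hp p' hp') hF n hn]
        simp)
    rw [hI, hJ]
    refine h3.trans ?_
    have h4 : ∑ n ∈ Icc (-((K + P * L0 : ℕ) : ℤ)) ((K + P * L0 : ℕ) : ℤ), ‖Aw L0 ((p' : ℤ) - p) F n‖ ^ 2 =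
        sq (K + P * L0) (Aw L0 ((p' : ℤ) - p) F) := rfl
    rw [h4]
    exact mul_le_mul_of_nonneg_right (Mcs_ratio hP hPH (hS p' hp').1) (Mcs_sq_nonneg _ _)
  -- first factor
  have hX : ∑ p ∈ S, ∑ p' ∈ S, ∑ a ∈ I, ∑ e ∈ J, ‖F (a + p * e)‖ ^ 2 ≤ 2 * H * P * s := by
    have h3 : ∀ p ∈ S, ∑ p' ∈ S, ∑ a ∈ I, ∑ e ∈ J, ‖F (a + p * e)‖ ^ 2 ≤ P * (2 * H / P * s) := by
      intro p hp
      rw [sum_const, nsmul_eq_mul]
      exact mul_le_mul hcard (hA p hp) (sum_nonneg fun _ _ => sum_nonneg fun _ _ => by positivity) hP0.le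
    calc _ ≤ ∑ p ∈ S, (P : ℝ) * (2 * H / P * s) := sum_le_sum h3
      _ = S.card * (P * (2 * H / P * s)) := by rw [sum_const, nsmul_eq_mul]
      _ ≤ P * (P * (2 * H / P * s)) := mul_le_mul_of_nonneg_right hcard (by positivity)
      _ = 2 * H * P * s := by
        field_simp
  -- second factor
  have hY : ∑ p ∈ S, ∑ p' ∈ S, ∑ a ∈ I, ∑ e ∈ J, ‖Aw L0 ((p' : ℤ) - p) F (a + p' * e)‖ ^ 2 ≤ 2 * H * W := by
    rw [sum_comm]
    have h3 : ∀ p' ∈ S, ∑ p ∈ S, ∑ a ∈ I, ∑ e ∈ J, ‖Aw L0 ((p' : ℤ) - p) F (a + p' * e)‖ ^ 2 ≤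
        2 * H / P * W := by
      intro p' hp'
      calc _ ≤ ∑ p ∈ S, 2 * H / P * sq (K + P * L0) (Aw L0 ((p' : ℤ) - p) F) :=
            sum_le_sum fun p hp => hB p hp p' hp'
        _ = 2 * H / P * ∑ p ∈ S, sq (K + P * L0) (Aw L0 ((p' : ℤ) - p) F) := by rw [mul_sum]
        _ ≤ 2 * H / P * W := by
          refine mul_le_mul_of_nonneg_left ?_ (by positivity)
          rw [hW, ← sum_image (s := S) (g := fun p : ℕ => (p' : ℤ) - p)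
            (f := fun w => sq (K + P * L0) (Aw L0 w F)) (fun a _ b _ hab => by
              have h5 : (p' : ℤ) - a = (p' : ℤ) - b := hab
              omega)]
          refine sum_le_sum_of_subset_of_nonneg ?_ fun _ _ _ => Mcs_sq_nonneg _ _
          intro w hw'
          obtain ⟨p, hp, rfl⟩ := mem_image.1 hw'
          have h5 := abs_lt.1 (hw p hp p' hp')
          exact mem_Ioo.2 h5
    calc _ ≤ ∑ p' ∈ S, 2 * H / P * W := sum_le_sum h3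
      _ = S.card * (2 * H / P * W) := by rw [sum_const, nsmul_eq_mul]
      _ ≤ P * (2 * H / P * W) := mul_le_mul_of_nonneg_right hcard (by positivity)
      _ = 2 * H * W := by
        field_simp
  have hcs := Mcs_cs S I J (fun p _ a e => F (a + p * e))
    (fun p p' a e => Aw L0 ((p' : ℤ) - p) F (a + p' * e))
  have hV : ‖∑ p ∈ S, ∑ p' ∈ S, ∑ a ∈ I, ∑ e ∈ J,
      F (a + p * e) * (starRingEnd ℂ) (Aw L0 ((p' : ℤ) - p) F (a + p' * e))‖ ≤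
      2 * H * Real.sqrt P * (Real.sqrt s * Real.sqrt W) := by
    refine hcs.trans ((mul_le_mul (Real.sqrt_le_sqrt hX) (Real.sqrt_le_sqrt hY) (Real.sqrt_nonneg _)
      (Real.sqrt_nonneg _)).trans (le_of_eq ?_))
    have hH0 : (0 : ℝ) ≤ 2 * H := by positivity
    rw [Real.sqrt_mul (by positivity), Real.sqrt_mul hH0, Real.sqrt_mul hH0]
    have h5 : Real.sqrt (2 * H) * Real.sqrt (2 * H) = 2 * H := Real.mul_self_sqrt hH0
    calc Real.sqrt (2 * H) * Real.sqrt P * Real.sqrt s * (Real.sqrt (2 * H) * Real.sqrt W)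
        = (Real.sqrt (2 * H) * Real.sqrt (2 * H)) * Real.sqrt P * (Real.sqrt s * Real.sqrt W) := by ring
      _ = _ := by rw [h5]
  have hU : ‖∑ p ∈ S, ∑ p' ∈ S, (∑ a ∈ I, ∑ e ∈ J, F (a + p * e) * (starRingEnd ℂ) (F (a + p' * e)) -
      ∑ a ∈ I, ∑ e ∈ J, F (a + p * e) * (starRingEnd ℂ) (Aw L0 ((p' : ℤ) - p) F (a + p' * e)))‖ ≤
      10 * (P : ℝ) ^ 2 * L0 * s := by
    calc _ ≤ ∑ p ∈ S, ∑ p' ∈ S, 10 * (L0 : ℝ) * s := by
          refine (norm_sum_le _ _).trans (sum_le_sum fun p hp => ?_)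
          exact (norm_sum_le _ _).trans (sum_le_sum fun p' hp' => hD p hp p' hp')
      _ = (S.card * S.card) * (10 * (L0 : ℝ) * s) := by
          rw [sum_const, sum_const, nsmul_eq_mul, nsmul_eq_mul]
          ring
      _ ≤ (P * P) * (10 * (L0 : ℝ) * s) :=
          mul_le_mul_of_nonneg_right (mul_le_mul hcard hcard hcard0 hP0.le) (by positivity)
      _ = 10 * (P : ℝ) ^ 2 * L0 * s := by ring
  rw [← hI, ← hJ, ← hs, ← hW]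
  have hT0 : 0 ≤ ∑ a ∈ I, ∑ e ∈ J, ‖∑ p ∈ S, F (a + p * e)‖ ^ 2 :=
    sum_nonneg fun _ _ => sum_nonneg fun _ _ => by positivity
  have hT : ∑ a ∈ I, ∑ e ∈ J, ‖∑ p ∈ S, F (a + p * e)‖ ^ 2 =
      ‖((∑ a ∈ I, ∑ e ∈ J, ‖∑ p ∈ S, F (a + p * e)‖ ^ 2 : ℝ) : ℂ)‖ := by
    rw [Complex.norm_real, Real.norm_of_nonneg hT0]
  rw [hT, Mcs_open]
  have hsplit : ∑ p ∈ S, ∑ p' ∈ S, ∑ a ∈ I, ∑ e ∈ J, F (a + p * e) * (starRingEnd ℂ) (F (a + p' * e)) =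
      ∑ p ∈ S, ∑ p' ∈ S, (∑ a ∈ I, ∑ e ∈ J, F (a + p * e) * (starRingEnd ℂ) (F (a + p' * e)) -
        ∑ a ∈ I, ∑ e ∈ J, F (a + p * e) * (starRingEnd ℂ) (Aw L0 ((p' : ℤ) - p) F (a + p' * e))) +
      ∑ p ∈ S, ∑ p' ∈ S, ∑ a ∈ I, ∑ e ∈ J,
        F (a + p * e) * (starRingEnd ℂ) (Aw L0 ((p' : ℤ) - p) F (a + p' * e)) := by
    rw [← sum_add_distrib]
    refine sum_congr rfl fun p _ => ?_
    rw [← sum_add_distrib]
    refine sum_congr rfl fun p' _ => ?_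
    rw [sub_add_cancel]
  rw [hsplit]
  refine (norm_add_le _ _).trans ?_
  linarith

end Pool.Agent.Lib.TR
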