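import Pool.Agent.Lib.TR.SpecQ
import Pool.Agent.Lib.EH.Basic
import Pool.Agent.Lib.EH4.Triv
import Pool.Agent.Lib.CO.Spec

/-!
MP_00e23e_nt, directory Lib/TR, chapter Q, module Qex: THEOREM T++ with the moduli d = q e ≤ x^(1/2-ε) treated by Bombieri-Vinogradov: only the pairs
with q e > x^(1/2-ε) enter the sum of 1/φ(q e) on the right side.
-/

set_option autoImplicit false

namespace Pool.Agent.Lib.TR

open Finset Pool.Agent.Lib.EH3 Pool.Agent.Results.MP_00e23e_nt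

/-- THEOREM T++, the pairs with q e ≤ x^(1/2-ε) only in the second term -/
def TxStmt : Prop := ∀ ε U : ℝ, 0 < ε → 0 < U → ∃ C : ℝ, 0 ≤ C ∧ ∀ (x : ℝ) (H K : ℕ) (DD : Finset (ℕ × ℕ)) (b : ℕ → ℕ → ℤ)
  (kk : ℕ → ℕ → ℕ) (y : ℕ → ℕ → ℕ → ℝ), 3 ≤ x → 2 ≤ H → Dat ε x H K DD b kk → (K : ℝ) ≤ (Real.log x) ^ U →
    (∀ q e j, 2 ≤ y q e j ∧ y q e j ≤ x) →
    ∑ p ∈ DD, Sj H p.1 p.2 (b p.1 (kk p.1 p.2)) (y p.1 p.2) ≤
      C * (H * x * ((Real.log (Real.log x) / Real.log H + (Real.log (Real.log x)) ^ 2 / Real.log x) *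
        (1 / Real.log x * ∑ p ∈ DD.filter (fun p => x ^ (1 / 2 - ε) < (p.1 : ℝ) * p.2), 1 / ((p.1 * p.2).totient : ℝ)) +
        (Real.log x) ^ (-U)))

/-- the number of primes in a class -/
private theorem Qex_count {x z : ℝ} (hx : 3 ≤ x) (hz : z ≤ x) {d : ℕ} (a : ℤ) (hd : 1 ≤ d) :
    (resCount z d a : ℝ) ≤ x / d + 1 := by
  have hd0 : (d : ℤ) ≠ 0 := by exact_mod_cast (by omega : d ≠ 0)
  obtain ⟨b, hb⟩ := Int.eq_ofNat_of_zero_le (Int.emod_nonneg a hd0)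
  have h1 : resCount z d a ≤ primeCount x d b := by
    unfold resCount primeCount
    refine Finset.card_le_card fun p hp => ?_
    rw [mem_filter, mem_Icc] at hp ⊢
    refine ⟨⟨hp.1.1, hp.1.2.trans (Nat.floor_le_floor hz)⟩, hp.2.1, ?_⟩
    have h2 : (p : ℤ) ≡ a [ZMOD d] := (Int.modEq_iff_dvd.2 (by
      have := (dvd_neg (a := (d : ℤ))).2 hp.2.2
      rwa [neg_sub] at this))
    rw [← Int.natCast_modEq_iff]
    have h3 : ((b : ℕ) : ℤ) ≡ a [ZMOD d] := by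
      have : ((b : ℕ) : ℤ) = a % d := hb.symm
      rw [this]
      exact Int.mod_modEq a d
    exact h2.trans h3.symm
  have h2 := Pool.Agent.Lib.EH4.Triv_count hx b hd
  have h3 : (resCount z d a : ℝ) ≤ (primeCount x d b : ℝ) := by exact_mod_cast h1
  exact h3.trans h2

/-- the trivial bound -/
private theorem Qex_term {x z : ℝ} (hx : 3 ≤ x) (hz2 : 2 ≤ z) (hz : z ≤ x) {d : ℕ} (a : ℤ) (hd : 1 ≤ d)
    (hdx : (d : ℝ) ≤ x) : |resErr z d a| ≤ 2 * x / (d.totient : ℝ) := by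
  have hd1 : (1 : ℝ) ≤ (d : ℝ) := by exact_mod_cast hd
  have hd0 : (0 : ℝ) < (d : ℝ) := by linarith
  have ht : (0 : ℝ) < (d.totient : ℝ) := by exact_mod_cast Nat.totient_pos.2 hd
  have htd : (d.totient : ℝ) ≤ (d : ℝ) := by exact_mod_cast Nat.totient_le d
  have h1 := Qex_count hx hz a hd
  have h2 : (resCount z d a : ℝ) ≤ 2 * x / (d.totient : ℝ) := by
    have h3 : x / d + 1 ≤ 2 * x / d := by
      have : (1 : ℝ) ≤ x / d := by
        rw [le_div_iff₀ hd0]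
        linarith
      calc x / d + 1 ≤ x / d + x / d := by linarith
        _ = 2 * x / d := by ring
    have h4 : 2 * x / (d : ℝ) ≤ 2 * x / (d.totient : ℝ) := div_le_div_of_nonneg_left (by linarith) ht htd
    linarith
  have h3 : li z / (d.totient : ℝ) ≤ 2 * x / (d.totient : ℝ) := by
    have h4 := Pool.Agent.Lib.EH.li_le hz2
    exact div_le_div_of_nonneg_right (by linarith) ht.le
  have h4 : 0 ≤ li z / (d.totient : ℝ) := div_nonneg (Pool.Agent.Lib.EH.li_nonneg hz2) ht.le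
  have h5 : (0 : ℝ) ≤ (resCount z d a : ℝ) := Nat.cast_nonneg _
  unfold resErr
  rw [abs_le]
  constructor <;> linarith

/-- one j: pairs to moduli -/
private lemma Qex_fix (h5 : Pool.Agent.Lib.CO.Smb2Stmt) (x T G : ℝ) (D : ℕ) (DD : Finset (ℕ × ℕ)) (E : ℕ × ℕ → ℝ)
    (hx : 0 ≤ x) (hD : 1 ≤ D) (hE0 : ∀ p, 0 ≤ E p) (hDD : ∀ p ∈ DD, 1 ≤ p.1 ∧ 1 ≤ p.2 ∧ p.1 * p.2 ≤ D)
    (htriv : ∀ p ∈ DD, E p ≤ 2 * x / ((p.1 * p.2).totient : ℝ)) (hT : 0 < T)
    (hG : ∀ g : ℕ → ℕ × ℕ, (∀ d ∈ DD.image (fun p => p.1 * p.2), g d ∈ DD ∧ (g d).1 * (g d).2 = d) →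
      ∑ d ∈ DD.image (fun p => p.1 * p.2), E (g d) ≤ G) :
    ∑ p ∈ DD, E p ≤ T * G + 2 * x / T * (1 + Real.log D) ^ 8 := by
  obtain ⟨DS, hDS⟩ : ∃ DS : Finset ℕ, DS = DD.image (fun p => p.1 * p.2) := ⟨_, rfl⟩
  -- the maximal pair
  have hmax : ∀ d ∈ DS, ∃ q ∈ DD.filter (fun p => p.1 * p.2 = d), ∀ p ∈ DD.filter (fun p => p.1 * p.2 = d), E p ≤ E q := by
    intro d hd
    apply Finset.exists_max_image
    rw [hDS, mem_image] at hd
    obtain ⟨p, hp, rfl⟩ := hd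
    exact ⟨p, mem_filter.2 ⟨hp, rfl⟩⟩
  choose! g hg1 hg2 using hmax
  have hg3 : ∀ d ∈ DS, g d ∈ DD ∧ (g d).1 * (g d).2 = d := fun d hd => mem_filter.1 (hg1 d hd)
  have hG' : ∑ d ∈ DS, E (g d) ≤ G := by
    rw [hDS]
    exact hG g (by rw [← hDS]; exact hg3)
  have hsum : ∑ p ∈ DD, E p = ∑ d ∈ DS, ∑ p ∈ DD.filter (fun p => p.1 * p.2 = d), E p := by
    rw [Finset.sum_fiberwise_of_maps_to]
    intro p hp
    rw [hDS]
    exact mem_image_of_mem _ hp
  have hD1 : ∀ d ∈ DS, 1 ≤ d ∧ d ≤ D := by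
    intro d hd
    rw [hDS, mem_image] at hd
    obtain ⟨p, hp, rfl⟩ := hd
    obtain ⟨a1, a2, a3⟩ := hDD p hp
    exact ⟨Nat.mul_pos a1 a2, a3⟩
  have hone : ∀ d ∈ DS, ∑ p ∈ DD.filter (fun p => p.1 * p.2 = d), E p ≤
      T * E (g d) + 2 * x / T * ((d.divisors.card : ℝ) ^ 2 / (d.totient : ℝ)) := by
    intro d hd
    obtain ⟨d1, d2⟩ := hD1 d hd
    have hcard : (DD.filter (fun p => p.1 * p.2 = d)).card ≤ d.divisors.card := by
      apply Finset.card_le_card_of_injOn Prod.fst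
      · intro p hp
        rw [mem_coe, mem_filter] at hp
        rw [mem_coe, Nat.mem_divisors]
        exact ⟨⟨p.2, hp.2.symm⟩, by omega⟩
      · intro p hp p' hp' h
        rw [mem_coe, mem_filter] at hp hp'
        have h6 : p.1 * p.2 = p.1 * p'.2 := by
          rw [hp.2, h, hp'.2]
        exact Prod.ext h (Nat.eq_of_mul_eq_mul_left (hDD p hp.1).1 h6)
    have h6 : ∑ p ∈ DD.filter (fun p => p.1 * p.2 = d), E p ≤ (d.divisors.card : ℝ) * E (g d) := by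
      refine (Finset.sum_le_card_nsmul _ _ (E (g d)) (hg2 d hd)).trans ?_
      rw [nsmul_eq_mul]
      exact mul_le_mul_of_nonneg_right (by exact_mod_cast hcard) (hE0 _)
    refine h6.trans ?_
    have ht : (0 : ℝ) < (d.totient : ℝ) := by exact_mod_cast Nat.totient_pos.2 d1
    rcases le_or_gt (d.divisors.card : ℝ) T with h7 | h7
    · have h8 : (d.divisors.card : ℝ) * E (g d) ≤ T * E (g d) := mul_le_mul_of_nonneg_right h7 (hE0 _)
      have h9 : 0 ≤ 2 * x / T * ((d.divisors.card : ℝ) ^ 2 / (d.totient : ℝ)) := by positivity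
      linarith
    · have h8 : E (g d) ≤ 2 * x / (d.totient : ℝ) := by
        have := htriv (g d) (hg3 d hd).1
        rwa [(hg3 d hd).2] at this
      have h9 : (d.divisors.card : ℝ) * E (g d) ≤ (d.divisors.card : ℝ) * (2 * x / (d.totient : ℝ)) :=
        mul_le_mul_of_nonneg_left h8 (Nat.cast_nonneg _)
      have h10 : (d.divisors.card : ℝ) * (2 * x / (d.totient : ℝ)) ≤
          2 * x / T * ((d.divisors.card : ℝ) ^ 2 / (d.totient : ℝ)) := by
        have h11 : 2 * x / T * ((d.divisors.card : ℝ) ^ 2 / (d.totient : ℝ)) =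
            (d.divisors.card : ℝ) * (2 * x / (d.totient : ℝ)) * ((d.divisors.card : ℝ) / T) := by
          field_simp
        rw [h11]
        apply le_mul_of_one_le_right
        · positivity
        · rw [le_div_iff₀ hT]
          linarith
      have h12 : 0 ≤ T * E (g d) := mul_nonneg hT.le (hE0 _)
      linarith
  rw [hsum]
  refine (Finset.sum_le_sum hone).trans ?_
  rw [Finset.sum_add_distrib, ← Finset.mul_sum, ← Finset.mul_sum]
  have h13 : ∑ d ∈ DS, (d.divisors.card : ℝ) ^ 2 / (d.totient : ℝ) ≤ (1 + Real.log D) ^ 8 := by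
    refine le_trans ?_ (h5 D hD)
    apply Finset.sum_le_sum_of_subset_of_nonneg
    · intro d hd
      rw [mem_Icc]
      exact hD1 d hd
    · intro d _ _
      positivity
  have h14 : T * ∑ d ∈ DS, E (g d) ≤ T * G := mul_le_mul_of_nonneg_left hG' hT.le
  have h15 : 2 * x / T * ∑ d ∈ DS, (d.divisors.card : ℝ) ^ 2 / (d.totient : ℝ) ≤ 2 * x / T * (1 + Real.log D) ^ 8 :=
    mul_le_mul_of_nonneg_left h13 (by positivity)
  linarith

private lemma Qex_cop (b : ℤ) (q j : ℕ) (h : Int.gcd b q = 1) : IsCoprime (b + q * j : ℤ) (q : ℤ) := by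
  rw [← Int.isCoprime_iff_gcd_eq_one] at h
  exact h.add_mul_left_left (j : ℤ)

/-- the pairs with q e ≤ x^(1/2-ε) -/
private lemma Qex_small (h2 : QbvStmt) (h5 : Pool.Agent.Lib.CO.Smb2Stmt) (ε U : ℝ) (hε : 0 < ε) (hU : 0 < U) :
    ∃ C : ℝ, 0 ≤ C ∧ ∀ (x : ℝ) (H K : ℕ) (DD : Finset (ℕ × ℕ)) (b : ℕ → ℕ → ℤ) (kk : ℕ → ℕ → ℕ) (y : ℕ → ℕ → ℕ → ℝ),
    3 ≤ x → Dat ε x H K DD b kk → (∀ p ∈ DD, (p.1 : ℝ) * p.2 ≤ x ^ (1 / 2 - ε)) → (∀ q e j, 2 ≤ y q e j ∧ y q e j ≤ x) →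
    ∑ p ∈ DD, Sj H p.1 p.2 (b p.1 (kk p.1 p.2)) (y p.1 p.2) ≤ C * (H * x * (Real.log x) ^ (-U)) := by
  obtain ⟨C2, x0, hC2, hx0, h2'⟩ := h2 (min ε (1 / 4)) (U + (U + 8)) (lt_min hε (by norm_num))
    (lt_of_le_of_lt (min_le_right _ _) (by norm_num)) (by linarith)
  have hlx0 : 0 ≤ Real.log x0 := Real.log_nonneg (by linarith)
  refine ⟨C2 + 512 + 2 * x0 ^ 2 * (Real.log x0) ^ U, by positivity, ?_⟩
  intro x H K DD b kk y hx hD hDD hy
  have hL : 1 ≤ Real.log x := by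
    rw [Real.le_log_iff_exp_le (by linarith)]
    exact (Real.exp_one_lt_d9.le.trans (by norm_num)).trans hx
  have hL0 : 0 < Real.log x := by linarith
  have hLU : 0 < (Real.log x) ^ U := by positivity
  have hHx : 0 ≤ (H : ℝ) * x * (Real.log x) ^ (-U) := by positivity
  have hxle : x ^ (1 / 2 - ε) ≤ x := by
    calc x ^ (1 / 2 - ε) ≤ x ^ (1 : ℝ) := Real.rpow_le_rpow_of_exponent_le (by linarith) (by linarith)
      _ = x := Real.rpow_one x
  -- the terms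
  obtain ⟨aa, haa⟩ : ∃ aa : ℕ → ℕ × ℕ → ℤ, aa = fun (j : ℕ) (p : ℕ × ℕ) => b p.1 (kk p.1 p.2) + p.1 * j := ⟨_, rfl⟩
  obtain ⟨E, hE⟩ : ∃ E : ℕ → ℕ × ℕ → ℝ, E = fun (j : ℕ) (p : ℕ × ℕ) => if Int.gcd (aa j p) ((p.1 * p.2 : ℕ) : ℤ) = 1 then
      |resErr (y p.1 p.2 j) (p.1 * p.2) (aa j p)| else 0 := ⟨_, rfl⟩
  have hE0 : ∀ j p, 0 ≤ E j p := by
    intro j p
    rw [hE]
    simp only
    split_ifs
    · exact abs_nonneg _
    · exact le_rfl
  have hdx : ∀ p ∈ DD, 1 ≤ p.1 ∧ 1 ≤ p.2 ∧ ((p.1 * p.2 : ℕ) : ℝ) ≤ x := by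
    intro p hp
    obtain ⟨a1, a2, a3, a4, a5, a6⟩ := hD p hp
    refine ⟨a1, a2, ?_⟩
    push_cast
    exact (hDD p hp).trans hxle
  have htriv : ∀ j, ∀ p ∈ DD, E j p ≤ 2 * x / ((p.1 * p.2).totient : ℝ) := by
    intro j p hp
    obtain ⟨a1, a2, a3⟩ := hdx p hp
    rw [hE]
    simp only
    split_ifs
    · exact Qex_term hx (hy _ _ _).1 (hy _ _ _).2 _ (Nat.mul_pos a1 a2) a3
    · positivity
  have hsum : ∑ p ∈ DD, Sj H p.1 p.2 (b p.1 (kk p.1 p.2)) (y p.1 p.2) = ∑ j ∈ range H, ∑ p ∈ DD, E j p := by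
    rw [Finset.sum_comm]
    apply Finset.sum_congr rfl
    intro p hp
    obtain ⟨a1, a2, a3, a4, a5, a6⟩ := hD p hp
    have c1 := (a6 _ a5).1
    unfold Sj
    rw [Finset.sum_filter]
    apply Finset.sum_congr rfl
    intro j _
    rw [hE, haa]
    simp only
    have h6 : Int.gcd (b p.1 (kk p.1 p.2) + p.1 * j) p.2 = 1 ↔
        Int.gcd (b p.1 (kk p.1 p.2) + p.1 * j) ((p.1 * p.2 : ℕ) : ℤ) = 1 := by
      have h7 := Qex_cop (b p.1 (kk p.1 p.2)) p.1 j c1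
      rw [← Int.isCoprime_iff_gcd_eq_one, ← Int.isCoprime_iff_gcd_eq_one]
      push_cast
      constructor
      · intro h8
        exact h7.mul_right h8
      · intro h8
        exact h8.of_mul_right_right
    by_cases h9 : Int.gcd (b p.1 (kk p.1 p.2) + p.1 * j) p.2 = 1
    · rw [if_pos h9, if_pos (h6.1 h9)]
    · rw [if_neg h9, if_neg (fun h10 => h9 (h6.2 h10))]
  rw [hsum]
  rcases le_or_gt x0 x with hxx | hxx
  · -- Bombieri-Vinogradov for every j
    have hD1 : 1 ≤ ⌊x⌋₊ := Nat.one_le_iff_ne_zero.2 (by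
      have : 3 ≤ ⌊x⌋₊ := Nat.le_floor (by exact_mod_cast hx)
      omega)
    have hj : ∀ j ∈ range H, ∑ p ∈ DD, E j p ≤ (C2 + 512) * (x * (Real.log x) ^ (-U)) := by
      intro j _
      have h6 := Qex_fix h5 x ((Real.log x) ^ (U + 8)) (C2 * (x / (Real.log x) ^ (U + (U + 8)))) ⌊x⌋₊ DD (E j)
        (by linarith) hD1 (hE0 j) (by
          intro p hp
          obtain ⟨a1, a2, a3⟩ := hdx p hp
          exact ⟨a1, a2, Nat.le_floor a3⟩) (htriv j) (by positivity) (by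
          intro g hg
          have h3 := h2' x 1 (DD.image (fun p => p.1 * p.2)) (fun d _ => aa j (g d)) (fun d _ => y (g d).1 (g d).2 j) hxx (by
            intro d hd
            obtain ⟨g1, g2⟩ := hg d hd
            obtain ⟨a1, a2, a3⟩ := hdx (g d) g1
            refine ⟨by rw [← g2]; exact Nat.mul_pos a1 a2, ?_⟩
            have h7 := hDD (g d) g1
            have h8 : (d : ℝ) = ((g d).1 : ℝ) * (g d).2 := by
              rw [← Nat.cast_mul, g2]
            push_cast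
            rw [mul_one, h8]
            refine h7.trans (Real.rpow_le_rpow_of_exponent_le (by linarith) ?_)
            linarith [min_le_left ε (1 / 4)]) (fun d _ => hy _ _ _)
          rw [Finset.Icc_self, Finset.sum_singleton, Finset.sum_filter] at h3
          have h9 : ∑ d ∈ DD.image (fun p => p.1 * p.2), E j (g d) =
              ∑ d ∈ DD.image (fun p => p.1 * p.2), if Int.gcd (aa j (g d)) ((d * 1 : ℕ) : ℤ) = 1 then
                |resErr (y (g d).1 (g d).2 j) (d * 1) (aa j (g d))| else 0 := by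
            apply Finset.sum_congr rfl
            intro d hd
            rw [hE]
            simp only
            rw [(hg d hd).2, mul_one]
          rw [h9]
          simpa using h3)
      refine h6.trans ?_
      have hlogD : Real.log (⌊x⌋₊ : ℕ) ≤ Real.log x := by
        apply Real.log_le_log
        · exact_mod_cast (by omega : 0 < ⌊x⌋₊)
        · exact Nat.floor_le (by linarith)
      have hlogD0 : 0 ≤ Real.log (⌊x⌋₊ : ℕ) := Real.log_natCast_nonneg _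
      have h10 : (1 + Real.log (⌊x⌋₊ : ℕ)) ^ 8 ≤ 256 * (Real.log x) ^ (8 : ℝ) := by
        calc (1 + Real.log (⌊x⌋₊ : ℕ)) ^ 8 ≤ (2 * Real.log x) ^ 8 := by
              apply pow_le_pow_left₀ (by linarith)
              linarith
          _ = 256 * (Real.log x) ^ (8 : ℕ) := by ring
          _ = 256 * (Real.log x) ^ (8 : ℝ) := by
              rw [← Real.rpow_natCast]
              norm_num
      have e1 : (Real.log x) ^ (U + (U + 8)) = (Real.log x) ^ U * ((Real.log x) ^ U * (Real.log x) ^ (8 : ℝ)) := by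
        rw [Real.rpow_add hL0, Real.rpow_add hL0]
      have e2 : (Real.log x) ^ (U + 8) = (Real.log x) ^ U * (Real.log x) ^ (8 : ℝ) := by
        rw [Real.rpow_add hL0]
      have e3 : (Real.log x) ^ (-U) = ((Real.log x) ^ U)⁻¹ := Real.rpow_neg hL0.le U
      have hL8 : 0 < (Real.log x) ^ (8 : ℝ) := by positivity
      have h11 : (Real.log x) ^ (U + 8) * (C2 * (x / (Real.log x) ^ (U + (U + 8)))) = C2 * (x * (Real.log x) ^ (-U)) := by
        rw [e1, e2, e3]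
        field_simp
      have h12 : 2 * x / (Real.log x) ^ (U + 8) * (1 + Real.log (⌊x⌋₊ : ℕ)) ^ 8 ≤ 512 * (x * (Real.log x) ^ (-U)) := by
        calc 2 * x / (Real.log x) ^ (U + 8) * (1 + Real.log (⌊x⌋₊ : ℕ)) ^ 8
            ≤ 2 * x / (Real.log x) ^ (U + 8) * (256 * (Real.log x) ^ (8 : ℝ)) :=
              mul_le_mul_of_nonneg_left h10 (by positivity)
          _ = 512 * (x * (Real.log x) ^ (-U)) := by
              rw [e2, e3]
              field_simp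
              ring
      rw [h11]
      linarith
    refine (Finset.sum_le_card_nsmul (range H) _ _ hj).trans ?_
    rw [card_range, nsmul_eq_mul]
    have h4 : (H : ℝ) * ((C2 + 512) * (x * (Real.log x) ^ (-U))) = (C2 + 512) * (H * x * (Real.log x) ^ (-U)) := by
      ring
    rw [h4]
    apply mul_le_mul_of_nonneg_right _ hHx
    have : 0 ≤ 2 * x0 ^ 2 * (Real.log x0) ^ U := by positivity
    linarith
  · -- small x
    have hcard : (DD.card : ℝ) ≤ x0 ^ 2 := by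
      have h5 : DD ⊆ (Icc 1 ⌊x⌋₊) ×ˢ (Icc 1 ⌊x⌋₊) := by
        intro p hp
        obtain ⟨a1, a2, a3⟩ := hdx p hp
        have h6 : p.1 * p.2 ≤ ⌊x⌋₊ := Nat.le_floor a3
        rw [mem_product, mem_Icc, mem_Icc]
        refine ⟨⟨a1, ?_⟩, ⟨a2, ?_⟩⟩
        · exact (Nat.le_mul_of_pos_right _ a2).trans h6
        · exact (Nat.le_mul_of_pos_left _ a1).trans h6
      have h6 : DD.card ≤ ⌊x⌋₊ * ⌊x⌋₊ := by
        refine (card_le_card h5).trans ?_
        rw [card_product, Nat.card_Icc]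
        simp
      have h7 : ((⌊x⌋₊ : ℕ) : ℝ) ≤ x := Nat.floor_le (by linarith)
      have h8 : (DD.card : ℝ) ≤ ((⌊x⌋₊ : ℕ) : ℝ) * ((⌊x⌋₊ : ℕ) : ℝ) := by exact_mod_cast h6
      have h9 : (0 : ℝ) ≤ ((⌊x⌋₊ : ℕ) : ℝ) := Nat.cast_nonneg _
      nlinarith
    have hj : ∀ j ∈ range H, ∑ p ∈ DD, E j p ≤ x0 ^ 2 * (2 * x) := by
      intro j _
      refine (Finset.sum_le_card_nsmul DD _ (2 * x) ?_).trans ?_
      · intro p hp
        refine (htriv j p hp).trans ?_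
        apply div_le_self (by linarith)
        obtain ⟨a1, a2, a3⟩ := hdx p hp
        exact_mod_cast Nat.totient_pos.2 (Nat.mul_pos a1 a2)
      · rw [nsmul_eq_mul]
        exact mul_le_mul_of_nonneg_right hcard (by linarith)
    refine (Finset.sum_le_card_nsmul (range H) _ _ hj).trans ?_
    rw [card_range, nsmul_eq_mul]
    have hle : (Real.log x) ^ U ≤ (Real.log x0) ^ U :=
      Real.rpow_le_rpow (by linarith) (Real.log_le_log (by linarith) hxx.le) hU.le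
    have h9 : (H : ℝ) * (x0 ^ 2 * (2 * x)) = (2 * x0 ^ 2 * (Real.log x) ^ U) * (H * x * (Real.log x) ^ (-U)) := by
      rw [Real.rpow_neg (by linarith)]
      field_simp
    rw [h9]
    apply mul_le_mul_of_nonneg_right _ hHx
    have h10 : 2 * x0 ^ 2 * (Real.log x) ^ U ≤ 2 * x0 ^ 2 * (Real.log x0) ^ U :=
      mul_le_mul_of_nonneg_left hle (by positivity)
    linarith

theorem tQex (h1 : TqStmt) (h2 : QbvStmt) (h5 : Pool.Agent.Lib.CO.Smb2Stmt) : TxStmt := by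
  intro ε U hε hU
  obtain ⟨C1, h3⟩ := h1 ε U hε hU
  obtain ⟨C2, hC2, h4⟩ := Qex_small h2 h5 ε U hε hU
  refine ⟨max C1 0 + C2, by positivity, ?_⟩
  intro x H K DD b kk y hx hH hD hK hy
  have hL : 1 ≤ Real.log x := by
    rw [Real.le_log_iff_exp_le (by linarith)]
    exact (Real.exp_one_lt_d9.le.trans (by norm_num)).trans hx
  have hll : 0 ≤ Real.log (Real.log x) := Real.log_nonneg hL
  have hlH : 0 ≤ Real.log (H : ℝ) := Real.log_nonneg (by exact_mod_cast (by omega : 1 ≤ H))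
  have h5 := h3 x H K (DD.filter (fun p => x ^ (1 / 2 - ε) < (p.1 : ℝ) * p.2)) b kk y hx hH
    (fun p hp => hD p (mem_filter.1 hp).1) hK hy
  have h6 := h4 x H K (DD.filter (fun p => ¬ x ^ (1 / 2 - ε) < (p.1 : ℝ) * p.2)) b kk y hx
    (fun p hp => hD p (mem_filter.1 hp).1) (fun p hp => not_lt.1 (mem_filter.1 hp).2) hy
  rw [← Finset.sum_filter_add_sum_filter_not DD (fun p => x ^ (1 / 2 - ε) < (p.1 : ℝ) * p.2)]
  have hS : 0 ≤ ∑ p ∈ DD.filter (fun p => x ^ (1 / 2 - ε) < (p.1 : ℝ) * p.2), 1 / ((p.1 * p.2).totient : ℝ) :=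
    Finset.sum_nonneg fun p _ => by positivity
  obtain ⟨S, hSS⟩ : ∃ S : ℝ, S = ∑ p ∈ DD.filter (fun p => x ^ (1 / 2 - ε) < (p.1 : ℝ) * p.2),
    1 / ((p.1 * p.2).totient : ℝ) := ⟨_, rfl⟩
  rw [← hSS] at h5 hS ⊢
  have hT0 : 0 ≤ (H : ℝ) * x * ((Real.log (Real.log x) / Real.log H + (Real.log (Real.log x)) ^ 2 / Real.log x) *
      (1 / Real.log x * S)) := by
    positivity
  have hT1 : 0 ≤ (H : ℝ) * x * (Real.log x) ^ (-U) := by positivity
  obtain ⟨T0, hT00⟩ : ∃ T0 : ℝ, T0 = (H : ℝ) * x * ((Real.log (Real.log x) / Real.log H +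
      (Real.log (Real.log x)) ^ 2 / Real.log x) * (1 / Real.log x * S)) := ⟨_, rfl⟩
  obtain ⟨T1, hT11⟩ : ∃ T1 : ℝ, T1 = (H : ℝ) * x * (Real.log x) ^ (-U) := ⟨_, rfl⟩
  rw [mul_add, ← hT00, ← hT11] at h5
  rw [← hT11] at h6 hT1
  rw [← hT00] at hT0
  rw [mul_add, ← hT00, ← hT11]
  have h7 : C1 * (T0 + T1) ≤ max C1 0 * (T0 + T1) := mul_le_mul_of_nonneg_right (le_max_left _ _) (by linarith)
  have h8 : C2 * T1 ≤ C2 * (T0 + T1) := mul_le_mul_of_nonneg_left (by linarith) hC2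
  linarith

end Pool.Agent.Lib.TR
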