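import Pool.Agent.Lib.TR.Defs

/-!
MP_00e23e_nt, directory Lib/TR, chapter N: the model nu of the primes (numbers without prime factor ≤ z, z a power of log x)
in residue classes. Rules: see Defs.lean. BV = Pool.Agent.Lib.BV, UI = Pool.Agent.Lib.UI, SG = Pool.Agent.Lib.SG,
KF = Pool.Agent.Lib.KF.
-/

set_option autoImplicit false

namespace Pool.Agent.Lib.TR

open Finset Pool.Agent.Lib.EH3 Pool.Agent.Results.MP_00e23e_nt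

/-- Module Ncl (theorem tNcl; fundamental lemma with main term). Uses: BV.BnfStmt, BV.HlyStmt, BV.PbsStmt, BV.MnsStmt, BV.ClfStmt
(theorem tNcl (h1 : Pool.Agent.Lib.BV.BnfStmt) (h2 : Pool.Agent.Lib.BV.HlyStmt) (h3 : Pool.Agent.Lib.BV.PbsStmt) (h4 : Pool.Agent.Lib.BV.MnsStmt)
(h5 : Pool.Agent.Lib.BV.ClfStmt) : NclStmt).
Proof. X = (N2 - N)/d, W_j = ∏_{p ∈ pbl z d j} (1 - 1/p). Clf (second part): |∑ - X ∏ Yd| ≤ X ∑_i Ud_i ∏_{j≠i} Yd_j + 2 (z+1) z^(4b+6).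
Bnf with S = pbl z d j, R = b + j, x p = 1/p (∏_{p ∈ s} 1/p = 1/∏ s): 0 ≤ W_j ≤ Yd_j ≤ W_j + Ud_j, so Hly (J = z): |∏ Yd - ∏ W| ≤
∑_i Ud_i ∏_{j≠i} Yd_j, and ∏_{j<z} W_j = the product over p ≤ z, p ∤ d (Pbs (2)). So the error is ≤ 2 X ∑_i Ud ∏ Yd + 2 (z+1) z^(4b+6) ≤
2 C (N2-N)/φ(d) e^(-b)/log z + z^(16b) (Mns (3); 2 (z+1) ≤ z^4, 4b + 10 ≤ 16 b for b ≥ 1; compare Lib/BV/Fl.lean). -/
def NclStmt : Prop :=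
  ∃ C : ℝ, 0 < C ∧ ∀ z b d l N N2 : ℕ, 2 ≤ z → 1 ≤ b → 1 ≤ d → l.Coprime d → N ≤ N2 →
    |∑ n ∈ (Ioc N N2).filter (fun n => n ≡ l [MOD d]), Pool.Agent.Lib.BV.rr z n -
      ((N2 : ℝ) - N) / d * ∏ p ∈ (Icc 1 z).filter (fun p => p.Prime ∧ ¬ p ∣ d), (1 - 1 / (p : ℝ))| ≤
      C * (((N2 : ℝ) - N) / (d.totient : ℝ) * (Real.exp (-(b : ℝ)) / Real.log z)) + (z : ℝ) ^ (16 * b)

/-- Module Nnm (theorem tNnm; the normalisation). Uses: SG.VbdStmt, BV.MprStmt.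
Proof. nrm z = (1/2) SG.VV 2 z for z ≥ 2 (Icc 1 z = the primes 2 and Ioc 2 z; 1 is not a prime), so Vbd with p0 = 2: nrm z ≥ (1/2) c log 2/log z. Upper
bound: BV.Mpr with d = 1: nrm z ≤ 1/log z. 0 < nrm z ≤ 1: every factor is in [1/2, 1]. -/
def NnmStmt : Prop :=
  ∃ C : ℝ, 1 ≤ C ∧ ∀ z : ℕ, 2 ≤ z → 0 < nrm z ∧ nrm z ≤ 1 ∧ nrm z ≤ 1 / Real.log z ∧ 1 / nrm z ≤ C * Real.log z

/-- Module Nnu (theorem tNnu; the model in a class). Uses: Ncl, Nnm.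
Proof. Divide Ncl by nrm z: z^(16b)/nrm z ≤ C log z z^(16b), e^(-b)/(log z nrm z) ≤ C e^(-b). Main term: the product over the primes p ≤ z, p ∤ d, divided by
nrm z is ∏_{p ≤ z, p | d} (1 - 1/p)⁻¹ (Finset.prod_filter_mul_prod_filter_not), and d/φ(d) = ∏_{p | d} (1 - 1/p)⁻¹ (Nat.totient_eq_mul_prod_factors), so
(1/d) times it is (1/φ(d)) R, R = ∏_{p | d, p > z} (1 - 1/p) ∈ [1 - card/z, 1], card ≤ 2 log d (EH.card_primeFactors_le; ∏ (1 - t_i) ≥ 1 - ∑ t_i). If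
d ≤ z there is no such p, R = 1. -/
def NnuStmt : Prop :=
  ∃ C : ℝ, 0 < C ∧ ∀ z b d l N N2 : ℕ, 2 ≤ z → 1 ≤ b → 1 ≤ d → l.Coprime d → N ≤ N2 →
    |∑ n ∈ (Ioc N N2).filter (fun n => n ≡ l [MOD d]), Pool.Agent.Lib.BV.rr z n / nrm z -
      ((N2 : ℝ) - N) / (d.totient : ℝ)| ≤
      C * (((N2 : ℝ) - N) / (d.totient : ℝ) * (Real.exp (-(b : ℝ)) + (if d ≤ z then 0 else Real.log d / z))) +
        C * Real.log z * (z : ℝ) ^ (16 * b)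

/-- Module Nab (theorem tNab; Abel summation with the increments of li). Uses: UI.MincStmt.
Proof. M = ⌊y⌋ ≥ 2, S m = ∑_{1 ≤ n ≤ m} u n = κ m + r m, |r m| ≤ E for 0 ≤ m ≤ M. lci n = 0 for n ≤ 2. For M ≥ 3: ∑_{n=3}^{M} lci n u n =
∑_{n=3}^{M-1} (lci n - lci (n+1)) S n + lci M S M - lci 3 S 2; the same identity with κ n in place of S n gives ∑_{n=3}^M lci n κ = κ li M (Minc (3), v = M + 1).
The difference is ≤ E (∑ (lci n - lci (n+1)) + lci M + lci 3) = 2 E lci 3 ≤ 4 E (lci decreases, Minc (2), (1)). |κ li y - κ li M| ≤ 2 (Minc (4)).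
M = 2: the left sum is 0 and κ li y ≤ 2 (li 2 = 0). -/
def NabStmt : Prop := ∀ (u : ℤ → ℝ) (κ E y : ℝ), 0 ≤ κ → κ ≤ 1 → 0 ≤ E → 2 ≤ y →
  (∀ N : ℕ, (N : ℝ) ≤ y → |∑ n ∈ Icc (1 : ℤ) N, u n - κ * N| ≤ E) →
  |∑ n ∈ Icc (1 : ℤ) ⌊y⌋, Pool.Agent.Lib.UI.lci n * u n - κ * li y| ≤ 10 * (E + 1)

/-- Module Nap (theorem tNap; the main term). Uses: Nnu, Nab.
Proof. L = log x, z = zz ζ x, L^ζ ≤ z ≤ 2 L^ζ ≤ L^(ζ+1), b = ⌊ε L/(64 (ζ+1) log L)⌋ ≥ 1 (x large), so z^(16 b) ≤ x^(ε/4) and e^(-b) ≤ L^(-A-2)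
(b ≥ (A+2) log L). l = a mod d as a natural number (Int.emod), coprime to d. Nab with u n = [d | n - a] nu z n, κ = 1/φ(d): for N ≤ y the sum over n ≤ N is the sum of Nnu on
Ioc 0 N, so E = C (x/φ(d)) (e^(-b) + log d/z) + C log z z^(16b) ≤ C' (x/φ(d)) L^(-A-1) because log d ≤ L, ζ ≥ A + 3, and log z z^(16b) ≤ x^(ε/2) ≤
(x/d) L^(-A-1) ≤ (x/φ(d)) L^(-A-1) (x/d ≥ x^ε). 10 (E + 1) ≤ C'' (x/φ(d)) L^(-A). -/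
def NapStmt : Prop := ∀ ε A ζ : ℝ, 0 < ε → ε ≤ 1 → 0 < A → A + 3 ≤ ζ → ∃ C x0 : ℝ, 0 < C ∧ 3 ≤ x0 ∧
  ∀ (x y : ℝ) (d : ℕ) (a : ℤ), x0 ≤ x → 2 ≤ y → y ≤ x → 1 ≤ d → (d : ℝ) ≤ x ^ (1 - ε) → Int.gcd a d = 1 →
    |(∑ n ∈ (Icc (1 : ℤ) ⌊y⌋).filter (fun n => (d : ℤ) ∣ n - a), Pool.Agent.Lib.UI.lci n * nu (zz ζ x) n) -
      li y / (d.totient : ℝ)| ≤ C * (x / (d.totient : ℝ) * (Real.log x) ^ (-A))

/-- Module Nsw (theorem tNsw; Siegel-Walfisz for primes minus model). Uses: Nnu, Nab, KF.BvyStmt.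
Proof. Let B = ζ, q ≤ (log x)^ζ, so q ≤ z = zz ζ x. The sum over Ico u v is the difference of two sums over 1 ≤ n ≤ M, M ≤ ⌊y⌋ (a sum over n < 1 is 0), so it is enough to bound
σ(M) = ∑_{1 ≤ n ≤ M, q | n - b} ff z n. If M < 2: at most 1 term of norm ≤ 1 (lci = 0). gcd(b,q) = 1: the primes: li M/φ(q) + err, |err| ≤ maxErr M q ≤ C x/L^(A+1)
(EH.le_maxErr with the residue of b in 1..q; Bvy, κ = 1/4, one modulus q ≤ x^(1/4)). The model: Nab with κ = 1/φ(q) and E from Nnu (d = q ≤ z, so the term log d/z is absent), b =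
⌊L/(64 (ζ+1) log L)⌋: z^(16b) ≤ x^(1/4), e^(-b) ≤ L^(-A-2), E ≤ C x L^(-A-1). gcd(b,q) = g > 1: a prime p' | g satisfies p' ≤ q ≤ z and divides every n of the sum, so nu z n = 0 and n is
prime only if n = p' : |σ| ≤ 1. -/
def NswStmt : Prop := ∀ A ζ : ℝ, 0 < A → 1 ≤ ζ → ∃ C x0 : ℝ, 0 < C ∧ 3 ≤ x0 ∧
  ∀ (x y : ℝ) (q : ℕ) (b u v : ℤ), x0 ≤ x → 2 ≤ y → y ≤ x → 1 ≤ q → (q : ℝ) ≤ (Real.log x) ^ ζ →
    |∑ n ∈ (Ico u v).filter (fun n => (q : ℤ) ∣ n - b), fc (zz ζ x) ⌊y⌋ n| ≤ C * (x * (Real.log x) ^ (-A))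

/-- Module Nsz (theorem tNsz; sizes). Uses: Nnm, UI.MincStmt.
Proof. 0 ≤ rr ≤ 1, 0 ≤ lci ≤ 2 (Minc (1)). Last part: lci n = li n - li (n-1) = ∫_{n-1}^n dt/log t ≤ 1/log (n-1) ≤ 1/log (√x - 1) ≤ 3/log x for x ≥ 100. -/
def NszStmt : Prop :=
  (∃ C : ℝ, 1 ≤ C ∧ ∀ (z : ℕ) (n : ℤ), 2 ≤ z → 0 ≤ nu z n ∧ nu z n ≤ C * Real.log z ∧ |ff z n| ≤ 1 + 2 * C * Real.log z) ∧
  (∀ (z : ℕ) (n : ℤ), 2 ≤ z → |ff z n| ≤ (if 1 ≤ n ∧ n.toNat.Prime then 1 else 0) + Pool.Agent.Lib.UI.lci n * nu z n) ∧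
  (∀ (z : ℕ) (n : ℤ), n < 1 → ff z n = 0) ∧
  (∀ (x : ℝ) (n : ℤ), 100 ≤ x → Real.sqrt x ≤ n → Pool.Agent.Lib.UI.lci n ≤ 3 / Real.log x)

end Pool.Agent.Lib.TR
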