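import Pool.Agent.Lib.TR.SpecN

/-!
MP_00e23e_nt, directory Lib/TR, chapter R: the good integers u (at least one prime factor in (P0, P1]): Ramare weights, truncated
divisor sums, reduction to the sums KS; statement KeyStmt of the main proposition. Rules: see Defs.lean.
-/

set_option autoImplicit false

namespace Pool.Agent.Lib.TR

open Finset Pool.Agent.Lib.EH3 Pool.Agent.Results.MP_00e23e_nt

/-- the sum over a ∈ [A0, A0 + H), d ∈ (D, 2D], p ∈ S, v ∈ [V, 2V) -/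
noncomputable def KS (A0 : ℤ) (H D V : ℕ) (S : Finset ℕ) (c : ℤ → ℕ → ℂ) (w : ℕ → ℂ) (f : ℤ → ℂ) : ℂ :=
  ∑ a ∈ Ico A0 (A0 + H), ∑ d ∈ Ioc D (2 * D), ∑ p ∈ S, ∑ v ∈ Ico V (2 * V), c a d * w v * f (a + d * p * v)

/-- Module Ram (theorem tRam; Ramare weights). Uses: nothing.
Proof. If u is not good both sides are 0 (no p ∈ PS divides u). Otherwise ω = om u ≥ 1 and 1 = ∑_{p ∈ PS, p | u} 1/ω. If p² ∤ u then p ∤ u/p and the primes ≠ p dividing u/p are those dividing u, so om (u/p) = ω - 1 and the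
term is 1/ω. If p² | u then om (u/p) = ω and |1/(ω+1) - 1/ω| ≤ 1. -/
def RamStmt : Prop := ∀ P0 P1 u : ℕ, 1 ≤ u →
  |(if Good P0 P1 u then (1 : ℝ) else 0) - ∑ p ∈ (PS P0 P1).filter (fun p => p ∣ u), 1 / ((om P0 P1 (u / p) : ℝ) + 1)| ≤
    (((PS P0 P1).filter (fun p => p ^ 2 ∣ u)).card : ℝ)

/-- Module Rbi (theorem tRbi; expansion of 1/(om + 1)). Uses: nothing.
Proof. Let T = the primes of PS which divide v (finite, card ω = om v). The divisors l of v with SqP are exactly the products ∏_{p ∈ s} p, s ⊆ T (bijection s ↦ ∏ s, inverse l ↦ l.primeFactors;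
Nat.prod_primeFactors_of_squarefree), with |s| = l.primeFactors.card. So the sum is ∑_{k=0}^{ω} C(ω,k) (-1)^k/(k+1) = 1/(ω+1): C(ω,k)/(k+1) = C(ω+1,k+1)/(ω+1) and ∑_{j=0}^{ω+1} (-1)^j C(ω+1,j) = 0
(Finset.sum_powerset_apply_card, Int.alternating_sum_range_choose). -/
def RbiStmt : Prop := ∀ P0 P1 v : ℕ, 1 ≤ v →
  ∑ l ∈ v.divisors, rho P0 P1 l = 1 / ((om P0 P1 v : ℝ) + 1)

/-- Module Rtr (theorem tRtr; truncation). Uses: Rbi.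
Proof. |rho| ≤ 1, rho l = 0 unless SqP l. wt rho Z v is the sum over the divisors l ≤ Z (v ≥ 1: l | v, 1 ≤ l). The difference is the sum of rho over the divisors l > Z, of absolute value ≤ tl. Second part:
at most v.divisors.card terms of absolute value ≤ 1. -/
def RtrStmt : Prop := ∀ P0 P1 Z v : ℕ, 1 ≤ v →
  |1 / ((om P0 P1 v : ℝ) + 1) - wt (rho P0 P1) Z v| ≤ tl P0 P1 Z v ∧ |wt (rho P0 P1) Z v| ≤ (v.divisors.card : ℝ)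

/-- Module Ran (theorem tRan; Rankin's trick). Uses: Nnm.
Proof. ∑_{v ≤ V} tl v = ∑_{Z < l ≤ V, SqP l} ⌊V/l⌋ ≤ V ∑ 1/l. δ = 1/log P1 (P1 ≥ 2): for l > Z, 1/l ≤ Z^(-δ) l^(δ-1) (Z ≥ 1). ∑_{l ≤ V, SqP l} l^(δ-1) ≤ ∏_{p ∈ PS} (1 + p^(δ-1)) (expand the product over the subsets of
PS, Finset.prod_one_add; each l is the product of its prime factors) and p^δ ≤ P1^δ = e ≤ 3, 1 + 3/p ≤ exp (3/p), exp (1/p) ≤ (1 - 1/p)⁻¹, so the product is ≤ (∏_{p ≤ P1} (1 - 1/p)⁻¹)^3 = (1/nrm P1)^3 ≤ (C log P1)^3.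
Z^(-δ) = exp (-log Z/log P1). -/
def RanStmt : Prop := ∃ C : ℝ, 0 < C ∧ ∀ P0 P1 Z V : ℕ, 2 ≤ P0 → P0 ≤ P1 → 1 ≤ Z →
  ∑ v ∈ Icc 1 V, tl P0 P1 Z v ≤ C * (V * (Real.exp (-(Real.log Z / Real.log P1)) * (Real.log P1) ^ 3))

/-- Module Rer (theorem tRer; the error of the reduction). Uses: Ran.
Proof. First sum: exchange: ∑_{p ∈ PS} ⌊U/p²⌋ ≤ U ∑_{p > P0} 1/p² ≤ U/P0 (1/n² ≤ 1/(n-1) - 1/n). Second: Ran with V = U/p ≤ U/p: ≤ C U (∑_{p ≤ P1} 1/p) exp(..) (log P1)^3 and ∑_{p ≤ P1} 1/p ≤ 1 + log P1 ≤ 3 log P1 (P1 ≥ 2). -/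
def RerStmt : Prop := ∃ C : ℝ, 0 < C ∧ ∀ P0 P1 Z U : ℕ, 2 ≤ P0 → P0 ≤ P1 → 1 ≤ Z →
  ∑ u ∈ Icc 1 U, (((PS P0 P1).filter (fun p => p ^ 2 ∣ u)).card : ℝ) + ∑ p ∈ PS P0 P1, ∑ v ∈ Icc 1 (U / p), tl P0 P1 Z v ≤
    C * (U * (1 / (P0 : ℝ) + Real.exp (-(Real.log Z / Real.log P1)) * (Real.log P1) ^ 4))

/-- Module Red (theorem tRed; reduction to the sums KS). Uses: Ram, Rtr.
Proof. Write θ(v) = 1/(om v + 1), w = wt rho Z. By Ram, the sum over the good u is the sum over the pairs p ∈ PS, v ≥ 1, p v ≤ U of θ(v) f(a + d p v) up to M ∑_u #{p : p² | u} for each (a,d) (u = p v, v = u/p); replace θ by w (Rtr):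
error M ∑_p ∑_{v ≤ U/p} tl v. Now extend the range of v to 1 ≤ v < 2^J: for p v > U and d > D: d p v > D U ≥ 2X (natural numbers, real X), |a| ≤ X, so f(a + d p v) = 0; and v ≤ U < 2^J for the others. Finally PS P0 P1 is the disjoint union
of the sets PS ∩ Ioc (2^i P0) (2^(i+1) P0), i < J, and [1, 2^J) of the Ico (2^j) (2^(j+1)), j < J. |c| ≤ 1, the number of pairs (a,d) is H D. -/
def RedStmt : Prop := ∀ (A0 : ℤ) (H D U P0 P1 Z J : ℕ) (X M : ℝ) (c : ℤ → ℕ → ℂ) (f : ℤ → ℂ),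
  1 ≤ D → 1 ≤ P0 → P1 ≤ P0 * 2 ^ J → U < 2 ^ J → 0 ≤ M → (∀ a d, ‖c a d‖ ≤ 1) → (∀ n, ‖f n‖ ≤ M) →
  (∀ n : ℤ, X < |(n : ℝ)| → f n = 0) → (∀ a ∈ Ico A0 (A0 + H), |(a : ℝ)| ≤ X) → 2 * X ≤ (D : ℝ) * U →
  ‖∑ a ∈ Ico A0 (A0 + H), ∑ d ∈ Ioc D (2 * D), ∑ u ∈ (Icc 1 U).filter (fun u => Good P0 P1 u), c a d * f (a + d * u) -
    ∑ i ∈ range J, ∑ j ∈ range J, KS A0 H D (2 ^ j) (PS P0 P1 ∩ Ioc (2 ^ i * P0) (2 * (2 ^ i * P0))) c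
      (fun v => ((wt (rho P0 P1) Z v : ℝ) : ℂ)) f‖ ≤
    H * D * M * (∑ u ∈ Icc 1 U, (((PS P0 P1).filter (fun p => p ^ 2 ∣ u)).card : ℝ) +
      ∑ p ∈ PS P0 P1, ∑ v ∈ Icc 1 (U / p), tl P0 P1 Z v)

/-- **THE MAIN PROPOSITION** (module Key, chapter K). -/
def KeyStmt : Prop := ∀ ε A : ℝ, 0 < ε → ε ≤ 1 / 10 → 0 < A → ∃ B0 B1 β A2 x0 : ℝ, 1 ≤ B0 ∧ 1 ≤ B1 ∧ 1 ≤ β ∧ β ≤ B0 ∧ 0 < A2 ∧ 3 ≤ x0 ∧
  ∀ (x : ℝ) (D P V Z H : ℕ) (S : Finset ℕ) (A0 : ℤ) (c : ℤ → ℕ → ℂ) (ρ : ℕ → ℝ) (f : ℤ → ℂ), x0 ≤ x → 1 ≤ D → 1 ≤ Z →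
    x * (Real.log x) ^ (-(A + 5)) ≤ (D : ℝ) * P * V → (D : ℝ) * P * V ≤ 4 * x → x ^ (ε / 2) * Z ≤ V →
    (Real.log x) ^ B0 ≤ P → P * (Real.log x) ^ B1 ≤ H → (H : ℝ) ≤ x ^ ((1 : ℝ) / 10) →
    (∀ p ∈ S, p.Prime ∧ P < p ∧ p ≤ 2 * P) → (∀ a d, ‖c a d‖ ≤ 1) → (∀ l, |ρ l| ≤ 1) →
    (∀ l, ρ l ≠ 0 → ∀ p : ℕ, p.Prime → p ∣ l → (Real.log x) ^ β < p) →
    (∀ n, ‖f n‖ ≤ Real.log x) → (∀ n : ℤ, x < |(n : ℝ)| → f n = 0) →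
    (∀ (q : ℕ) (b u v : ℤ), 1 ≤ q → (q : ℝ) ≤ (Real.log x) ^ β →
      ‖∑ n ∈ (Ico u v).filter (fun n => (q : ℤ) ∣ n - b), f n‖ ≤ x * (Real.log x) ^ (-A2)) →
    ‖KS A0 H D V S c (fun v => ((wt ρ Z v : ℝ) : ℂ)) f‖ ≤ H * (x * (Real.log x) ^ (-A))

end Pool.Agent.Lib.TR
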