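import Pool.Agent.Lib.TR.SpecR

/-!
MP_00e23e_nt, directory Lib/TR: interfaces between the chapters. KeyStmt (SpecR.lean) is proved in chapter K from VarStmt (chapter V)
and the modules of chapter M; TStmt is the final theorem.
-/

set_option autoImplicit false

namespace Pool.Agent.Lib.TR

open Finset Pool.Agent.Lib.EH3 Pool.Agent.Results.MP_00e23e_nt

/-- **CHAPTER V: short intervals.** The averages of c * 1_S * (w 1_(v = κ mod q)) over (n - h, n] and over (n - h0, n] agree in mean square. -/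
def VarStmt : Prop := ∀ ε A β : ℝ, 0 < ε → ε ≤ 1 / 10 → 0 < A → 1 ≤ β → ∃ B0 B b0 x0 : ℝ, 1 ≤ B0 ∧ β ≤ B0 ∧ 1 ≤ B ∧ 1 ≤ b0 ∧ 3 ≤ x0 ∧
  ∀ (x : ℝ) (D P V Z h h0 q κ N' : ℕ) (S : Finset ℕ) (c : ℕ → ℂ) (ρ : ℕ → ℝ), x0 ≤ x → 1 ≤ D → 1 ≤ Z →
    x ^ ((1 : ℝ) / 2) ≤ (D : ℝ) * P * V → (D : ℝ) * P * V ≤ 4 * x → x ^ (ε / 2) * Z ≤ V →
    (Real.log x) ^ B0 ≤ P → P * (Real.log x) ^ B ≤ h → (h : ℝ) ≤ x ^ ((1 : ℝ) / 10) →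
    (h0 : ℝ) ≤ (D : ℝ) * P * V * (Real.log x) ^ (-b0) → (D : ℝ) * P * V * (Real.log x) ^ (-b0) ≤ 2 * h0 →
    1 ≤ q → (q : ℝ) ≤ (Real.log x) ^ β → κ < q →
    (∀ p ∈ S, p.Prime ∧ P < p ∧ p ≤ 2 * P) → (∀ d, ‖c d‖ ≤ 1) → (∀ l, |ρ l| ≤ 1) →
    (∀ l, ρ l ≠ 0 → ∀ p : ℕ, p.Prime → p ∣ l → (Real.log x) ^ β < p) →
    ∑ n ∈ Icc (1 : ℤ) N', ‖kg h h0 (gg D V S c (fun v => if v % q = κ then ((wt ρ Z v : ℝ) : ℂ) else 0)) n‖ ^ 2 ≤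
      (D : ℝ) * P * V * (Real.log x) ^ (-A)

/-- **THEOREM T.** -/
def TStmt : Prop := ∀ ε : ℝ, 0 < ε → ∃ C : ℝ, ∀ (x : ℝ) (A : ℤ) (H : ℕ) (y : ℕ → ℤ → ℝ),
  3 ≤ x → 2 ≤ H → -x ≤ A → (A : ℝ) + H ≤ x + 1 → (∀ d a, 2 ≤ y d a ∧ y d a ≤ x) →
  ∑ a ∈ Ico A (A + H), ∑ d ∈ (Icc 1 ⌊x ^ (1 - ε)⌋₊).filter (fun d : ℕ => Int.gcd a d = 1), |resErr (y d a) d a| ≤
    C * (H * x * (Real.log (Real.log x) / Real.log H + (Real.log (Real.log x)) ^ 2 / Real.log x))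

end Pool.Agent.Lib.TR
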