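import Pool.Agent.Lib.TR.SpecV

/-!
MP_00e23e_nt, directory Lib/TR, chapter V: module Var, the result of chapter V (parameters).
-/

set_option autoImplicit false

namespace Pool.Agent.Lib.TR

open Finset Pool.Agent.Lib.EH3 Pool.Agent.Results.MP_00e23e_nt

private theorem Var_x0 (b x1 : ℝ) : ∃ x0 : ℝ, 3 ≤ x0 ∧ x1 ≤ x0 ∧ ∀ x : ℝ, x0 ≤ x →
    10 ^ 16 ≤ Real.log x ∧ 2 * (Real.log x) ^ b ≤ x ^ ((2 : ℝ) / 5) := by
  have h1 : ∀ᶠ x : ℝ in Filter.atTop, (10 : ℝ) ^ 16 ≤ Real.log x :=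
    Real.tendsto_log_atTop.eventually_ge_atTop _
  have h2 : ∀ᶠ x : ℝ in Filter.atTop, 2 * (Real.log x) ^ b ≤ x ^ ((2 : ℝ) / 5) := by
    have h := (isLittleO_log_rpow_rpow_atTop b (by norm_num : (0 : ℝ) < 2 / 5)).bound
      (by norm_num : (0 : ℝ) < 1 / 2)
    filter_upwards [h, Filter.eventually_ge_atTop (1 : ℝ)] with x hx hx1
    rw [Real.norm_of_nonneg (Real.rpow_nonneg (Real.log_nonneg hx1) _),
      Real.norm_of_nonneg (Real.rpow_nonneg (by linarith) _)] at hx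
    linarith
  obtain ⟨y, hy⟩ := Filter.eventually_atTop.1 (h1.and h2)
  exact ⟨max (max 3 x1) y, (le_max_left _ _).trans (le_max_left _ _), (le_max_right _ _).trans (le_max_left _ _),
    fun x hx => hy x ((le_max_right _ _).trans hx)⟩

private theorem Var_abs {L s t c : ℝ} (hL : 10 ^ 16 ≤ L) (hc : c ≤ 10 ^ 16) (hst : s + 1 ≤ t) :
    c * L ^ s ≤ L ^ t := by
  have hL1 : (1 : ℝ) ≤ L := le_trans (by norm_num) hL
  have hL0 : 0 < L := by linarith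
  calc c * L ^ s ≤ L * L ^ s := mul_le_mul_of_nonneg_right (hc.trans hL) (Real.rpow_nonneg hL0.le _)
    _ = L ^ (s + 1) := by rw [Real.rpow_add_one hL0.ne', mul_comm]
    _ ≤ L ^ t := Real.rpow_le_rpow_of_exponent_le hL1 hst

private theorem Var_gd (N : ℕ) (g : ℤ → ℂ) (m : ℤ) : ‖GD N g m‖ ^ 2 ≤ (N : ℝ) * ∑ n ∈ Icc 1 N, ‖g n‖ ^ 2 := by
  have h1 : ‖GD N g m‖ ≤ ∑ n ∈ Icc 1 N, ‖g n‖ := by
    unfold GD
    refine (norm_sum_le _ _).trans (Finset.sum_le_sum fun n _ => ?_)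
    rw [norm_mul]
    unfold lp
    rw [norm_ee, mul_one]
  have h2 : (∑ n ∈ Icc 1 N, ‖g n‖) ^ 2 ≤ ((Icc 1 N).card : ℝ) * ∑ n ∈ Icc 1 N, ‖g n‖ ^ 2 :=
    sq_sum_le_card_mul_sum_sq
  rw [Nat.card_Icc, Nat.add_sub_cancel] at h2
  exact (pow_le_pow_left₀ (norm_nonneg _) h1 2).trans h2

private theorem Var_wt (ρ : ℕ → ℝ) (Z v : ℕ) (hρ : ∀ l, |ρ l| ≤ 1) (hv : 1 ≤ v) :
    |wt ρ Z v| ≤ (v.divisors.card : ℝ) := by
  unfold wt
  calc |∑ l ∈ (Icc 1 Z).filter (fun l => l ∣ v), ρ l|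
      ≤ ∑ l ∈ (Icc 1 Z).filter (fun l => l ∣ v), |ρ l| := Finset.abs_sum_le_sum_abs _ _
    _ ≤ ∑ l ∈ (Icc 1 Z).filter (fun l => l ∣ v), (1 : ℝ) := Finset.sum_le_sum fun l _ => hρ l
    _ = (((Icc 1 Z).filter (fun l => l ∣ v)).card : ℝ) := by simp
    _ ≤ _ := by
        exact_mod_cast Finset.card_le_card (fun l hl => by
          rw [Finset.mem_filter] at hl
          exact Nat.mem_divisors.2 ⟨hl.2, by omega⟩)

private theorem Var_gg (D V : ℕ) (S : Finset ℕ) (c w w' : ℕ → ℂ) (hV : 1 ≤ V) (h : ∀ v, 1 ≤ v → w v = w' v) :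
    gg D V S c w = gg D V S c w' := by
  funext m
  unfold gg
  refine Finset.sum_congr rfl fun d _ => Finset.sum_congr rfl fun p _ => Finset.sum_congr rfl fun v hv => ?_
  rw [h v (by rw [Finset.mem_Ico] at hv; omega)]

private theorem Var_seg (hVpc : VpcStmt) (g : ℤ → ℂ) (X M h h0 T0 T1 : ℕ) (L E τ0 b0 c' A' : ℝ)
    (hL : 10 ^ 16 ≤ L) (hX : 1 ≤ X) (hM : X ≤ M) (hh : 1 ≤ h) (hhh : h ≤ h0) (hh0M : h0 ≤ M) (hT0 : 1 ≤ T0)
    (hT01 : T0 ≤ T1) (hs : ∀ k : ℤ, (k ≤ X ∨ (8 * X : ℕ) < k) → g k = 0)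
    (hlog : 1 + Real.log (8 * X) ≤ 3 * L)
    (hB : ∑ n ∈ Icc 1 (8 * X), ‖g n‖ ^ 2 ≤ X * L ^ (66 : ℝ)) (hT0' : (T0 : ℝ) ≤ 2 * L ^ τ0)
    (hh0 : (h0 : ℝ) ≤ X * L ^ (-b0)) (hT1 : (T1 : ℝ) ≤ X) (hT1' : X * L ^ c' ≤ T1 * h)
    (hmid : ∑ m ∈ (Icc (-(T1 : ℤ)) T1).filter (fun m : ℤ => (T0 : ℤ) < |m|), ‖GD (8 * X) g m‖ ^ 2 ≤
      (X : ℝ) ^ 2 * L ^ (-A'))
    (e1 : 3 * τ0 + 67 + E ≤ 2 * b0) (e2 : E + 1 ≤ A') (e3 : 68 + E ≤ 2 * c') :
    ∫ y in (Real.log X)..(Real.log X + 4), ‖YY (8 * X) M h h0 g y‖ ^ 2 ≤ 3 * L ^ (-E) := by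
  have hL1 : (1 : ℝ) ≤ L := le_trans (by norm_num) hL
  have hL0 : 0 < L := by linarith
  have hX0 : (0 : ℝ) < X := by exact_mod_cast hX
  have key := hVpc g X M h h0 T0 T1 hX hM hh hhh hh0M hT0 hT01 hs
  have hBg0 : 0 ≤ ∑ n ∈ Icc 1 (8 * X), ‖g n‖ ^ 2 := Finset.sum_nonneg fun _ _ => by positivity
  have hp : 0 < L ^ (τ0 - b0) := Real.rpow_pos_of_pos hL0 _
  have hq : 0 < L ^ τ0 := Real.rpow_pos_of_pos hL0 _
  have hr : 0 < L ^ (66 : ℝ) := Real.rpow_pos_of_pos hL0 _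
  have t1 : (2 * T0 * h0 / (X : ℝ) ^ 2) ^ 2 * ∑ m ∈ Icc (-(T0 : ℤ)) T0, ‖GD (8 * X) g m‖ ^ 2 ≤ L ^ (-E) := by
    have a1 : 2 * (T0 : ℝ) * h0 / (X : ℝ) ^ 2 ≤ 4 * L ^ (τ0 - b0) / X := by
      rw [div_le_div_iff₀ (by positivity) hX0]
      have e : L ^ (τ0 - b0) = L ^ τ0 * L ^ (-b0) := by rw [← Real.rpow_add hL0, sub_eq_add_neg]
      have a : (T0 : ℝ) * h0 ≤ (2 * L ^ τ0) * (X * L ^ (-b0)) :=
        mul_le_mul hT0' hh0 (Nat.cast_nonneg _) (by positivity)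
      calc 2 * (T0 : ℝ) * h0 * X = 2 * X * (T0 * h0) := by ring
        _ ≤ 2 * X * ((2 * L ^ τ0) * (X * L ^ (-b0))) := mul_le_mul_of_nonneg_left a (by positivity)
        _ = 4 * L ^ (τ0 - b0) * (X : ℝ) ^ 2 := by rw [e]; ring
    have a2 : ∑ m ∈ Icc (-(T0 : ℤ)) T0, ‖GD (8 * X) g m‖ ^ 2 ≤ (6 * L ^ τ0) * (8 * X * (X * L ^ (66 : ℝ))) := by
      have b1 : ∀ m ∈ Icc (-(T0 : ℤ)) T0, ‖GD (8 * X) g m‖ ^ 2 ≤ 8 * X * (X * L ^ (66 : ℝ)) := by
        intro m _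
        refine (Var_gd (8 * X) g m).trans ?_
        have : (((8 * X : ℕ) : ℝ)) = 8 * X := by push_cast; ring
        rw [this]
        exact mul_le_mul_of_nonneg_left hB (by positivity)
      have b2 := Finset.sum_le_card_nsmul _ _ _ b1
      refine b2.trans ?_
      rw [nsmul_eq_mul]
      refine mul_le_mul_of_nonneg_right ?_ (by positivity)
      have b3 : ((Icc (-(T0 : ℤ)) T0).card : ℝ) ≤ 3 * T0 := by
        rw [Int.card_Icc]
        have : ((T0 : ℤ) + 1 - -(T0 : ℤ)).toNat = 2 * T0 + 1 := by omega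
        rw [this]
        have hT0r : (1 : ℝ) ≤ T0 := by exact_mod_cast hT0
        push_cast
        linarith
      linarith
    have a3 : (2 * (T0 : ℝ) * h0 / (X : ℝ) ^ 2) ^ 2 ≤ (4 * L ^ (τ0 - b0) / X) ^ 2 :=
      pow_le_pow_left₀ (by positivity) a1 2
    calc (2 * (T0 : ℝ) * h0 / (X : ℝ) ^ 2) ^ 2 * ∑ m ∈ Icc (-(T0 : ℤ)) T0, ‖GD (8 * X) g m‖ ^ 2
        ≤ (4 * L ^ (τ0 - b0) / X) ^ 2 * ((6 * L ^ τ0) * (8 * X * (X * L ^ (66 : ℝ)))) :=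
          mul_le_mul a3 a2 (Finset.sum_nonneg fun _ _ => by positivity) (by positivity)
      _ = 768 * (L ^ (τ0 - b0) * L ^ (τ0 - b0) * L ^ τ0 * L ^ (66 : ℝ)) := by
          field_simp
          ring
      _ = 768 * L ^ (3 * τ0 - 2 * b0 + 66) := by
          rw [← Real.rpow_add hL0, ← Real.rpow_add hL0, ← Real.rpow_add hL0]
          ring_nf
      _ ≤ L ^ (-E) := Var_abs hL (by norm_num) (by linarith)
  have t2 : (2 / (X : ℝ)) ^ 2 * ∑ m ∈ (Icc (-(T1 : ℤ)) T1).filter (fun m : ℤ => (T0 : ℤ) < |m|),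
      ‖GD (8 * X) g m‖ ^ 2 ≤ L ^ (-E) := by
    calc _ ≤ (2 / (X : ℝ)) ^ 2 * ((X : ℝ) ^ 2 * L ^ (-A')) := mul_le_mul_of_nonneg_left hmid (by positivity)
      _ = 4 * L ^ (-A') := by
          field_simp
          ring
      _ ≤ L ^ (-E) := Var_abs hL (by norm_num) (by linarith)
  have t3 : 10000 * (1 + Real.log (8 * X)) * ((T1 : ℝ) + 3 * X) / (T1 * h) ^ 2 *
      ∑ n ∈ Icc 1 (8 * X), ‖g n‖ ^ 2 ≤ L ^ (-E) := by
    have hX1r : (1 : ℝ) ≤ X := by exact_mod_cast hX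
    have hlg0 : 0 ≤ Real.log (8 * X) := Real.log_nonneg (by linarith)
    have hc : 0 < L ^ c' := Real.rpow_pos_of_pos hL0 _
    have a1 : 10000 * (1 + Real.log (8 * X)) * ((T1 : ℝ) + 3 * X) ≤ 10000 * (3 * L) * (4 * X) := by
      refine mul_le_mul ?_ (by linarith) (by positivity) (by positivity)
      linarith
    have a2 : (X * L ^ c') ^ 2 ≤ ((T1 : ℝ) * h) ^ 2 := pow_le_pow_left₀ (by positivity) hT1' 2
    have a3 : 10000 * (1 + Real.log (8 * X)) * ((T1 : ℝ) + 3 * X) / ((T1 : ℝ) * h) ^ 2 ≤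
        10000 * (3 * L) * (4 * X) / (X * L ^ c') ^ 2 :=
      div_le_div₀ (by positivity) a1 (by positivity) a2
    have e : L ^ c' * L ^ c' * L ^ (66 - 2 * c' + 1) = L * L ^ (66 : ℝ) := by
      rw [← Real.rpow_add hL0, ← Real.rpow_add hL0]
      have : L * L ^ (66 : ℝ) = L ^ ((66 : ℝ) + 1) := by rw [Real.rpow_add_one hL0.ne', mul_comm]
      rw [this]
      ring_nf
    calc 10000 * (1 + Real.log (8 * X)) * ((T1 : ℝ) + 3 * X) / (T1 * h) ^ 2 * ∑ n ∈ Icc 1 (8 * X), ‖g n‖ ^ 2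
        ≤ (10000 * (3 * L) * (4 * X) / (X * L ^ c') ^ 2) * (X * L ^ (66 : ℝ)) :=
          mul_le_mul a3 hB hBg0 (by positivity)
      _ = 120000 * (L * L ^ (66 : ℝ) / (L ^ c' * L ^ c')) := by
          field_simp
          ring
      _ = 120000 * L ^ (66 - 2 * c' + 1) := by
          rw [← e]
          field_simp
      _ ≤ L ^ (-E) := Var_abs hL (by norm_num) (by linarith)
  linarith

/-- **The result of chapter V.** -/
theorem tVar (h1 : DfaStmt) (h2 : DmnStmt) (h3 : VsgStmt) (h4 : VpcStmt) : VarStmt := by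
  intro ε A β hε hε1 hA hβ
  obtain ⟨B0, τ0, x1, hB0, hβB, hτ0, hx1, hD⟩ := h2 ε (2 * A + 75) β hε hε1 (by linarith only [hA]) hβ
  obtain ⟨x0, hx03, hx01, hx0⟩ := Var_x0 (3 * τ0 + 3 * A + 222) x1
  refine ⟨B0, 3 * A + 225, 3 * τ0 + 3 * A + 222, x0, hB0, hβB, by linarith only [hA], by linarith only [hA, hτ0], hx03, ?_⟩
  intro x D P V Z h h0 q κ N' S c ρ hx hD1 hZ hX1 hX2 hVZ hPB hPh hh hh0 hh0' hq hqβ hκ hS hc hρ hρ'
  obtain ⟨hL, hbig⟩ := hx0 x hx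
  have hx0' : 0 < x := by linarith only [hx, hx03]
  set L := Real.log x with hLdef
  have hL1 : (1 : ℝ) ≤ L := le_trans (by norm_num) hL
  have hL0 : 0 < L := by linarith only [hL1]
  have hpow : ∀ s : ℝ, 0 < L ^ s := fun s => Real.rpow_pos_of_pos hL0 s
  have hone : ∀ s : ℝ, 0 ≤ s → 1 ≤ L ^ s := fun s hs => Real.one_le_rpow hL1 hs
  -- P, V
  have hPr : (1 : ℝ) ≤ P := (hone B0 (by linarith only [hB0])).trans hPB
  have hP1 : 1 ≤ P := by exact_mod_cast hPr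
  have hZr : (1 : ℝ) ≤ Z := by exact_mod_cast hZ
  have hVr : (0 : ℝ) < V := lt_of_lt_of_le (mul_pos (Real.rpow_pos_of_pos hx0' _) (by linarith only [hZr])) hVZ
  have hV1 : 1 ≤ V := by exact_mod_cast hVr
  have hDr : (1 : ℝ) ≤ D := by exact_mod_cast hD1
  -- X
  obtain ⟨X, hXdef⟩ : ∃ X : ℕ, X = D * P * V := ⟨_, rfl⟩
  have hXr : (X : ℝ) = (D : ℝ) * P * V := by rw [hXdef]; push_cast; ring
  have hX : 1 ≤ X := by
    rw [hXdef]
    exact Nat.succ_le_of_lt (Nat.mul_pos (Nat.mul_pos (by omega) (by omega)) (by omega))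
  have hXr1 : (1 : ℝ) ≤ X := by exact_mod_cast hX
  rw [← hXr] at hX1 hX2 hh0 hh0'
  -- h
  have hPh1 : L ^ (3 * A + 225) ≤ h := by
    have : 1 * L ^ (3 * A + 225) ≤ P * L ^ (3 * A + 225) := mul_le_mul_of_nonneg_right hPr (hpow _).le
    linarith only [this, hPh]
  have hhr : (1 : ℝ) ≤ h := (hone _ (by linarith only [hA])).trans hPh1
  have hh1 : 1 ≤ h := by exact_mod_cast hhr
  have hhr0 : (0 : ℝ) < h := by linarith only [hhr]
  -- the weights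
  obtain ⟨w, hw⟩ : ∃ w : ℕ → ℂ, w = fun v => if v % q = κ then ((wt ρ Z v : ℝ) : ℂ) else 0 := ⟨_, rfl⟩
  obtain ⟨w', hw'⟩ : ∃ w' : ℕ → ℂ, w' = fun v => if v = 0 then 0 else w v := ⟨_, rfl⟩
  have hww : ∀ v, 1 ≤ v → w v = w' v := by
    intro v hv
    rw [hw']
    simp only
    rw [if_neg (by omega)]
  have hw'b : ∀ v, ‖w' v‖ ≤ (v.divisors.card : ℝ) := by
    intro v
    rw [hw']
    simp only
    split_ifs with hv
    · simp
    · rw [hw]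
      simp only
      split_ifs with hv2
      · rw [Complex.norm_real, Real.norm_eq_abs]
        exact Var_wt ρ Z v hρ (by omega)
      · simp
  obtain ⟨g, hg⟩ : ∃ g : ℤ → ℂ, g = gg D V S c w := ⟨_, rfl⟩
  have hg' : g = gg D V S c w' := by rw [hg]; exact Var_gg D V S c w w' hV1 hww
  obtain ⟨-, hDf2, -, hDf4⟩ := h1 D P V S c w' hD1 hP1 hV1 (fun p hp => ⟨(hS p hp).2.1, (hS p hp).2.2⟩) hc hw'b
  rw [← hg', ← hXdef] at hDf2 hDf4
  have hlog : 1 + Real.log (8 * X) ≤ 3 * L := by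
    have a1 : Real.log (8 * X) ≤ Real.log (32 * x) :=
      Real.log_le_log (by linarith only [hXr1]) (by linarith only [hX2])
    rw [Real.log_mul (by norm_num) hx0'.ne'] at a1
    have a2 : Real.log 32 ≤ 32 - 1 := Real.log_le_sub_one_of_pos (by norm_num)
    have a3 : (10 : ℝ) ^ 16 ≤ L := hL
    rw [← hLdef] at a1
    linarith only [a1, a2, a3]
  have hlg0 : 0 ≤ Real.log (8 * X) := Real.log_nonneg (by linarith only [hXr1])
  have hB : ∑ n ∈ Icc 1 (8 * X), ‖g n‖ ^ 2 ≤ X * L ^ (66 : ℝ) := by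
    refine hDf2.trans ?_
    have a1 : (1 + Real.log (8 * X)) ^ 64 ≤ (3 * L) ^ 64 := pow_le_pow_left₀ (by linarith only [hlg0]) hlog 64
    have a2 : L ^ (66 : ℝ) = L ^ 64 * L ^ 2 := by
      rw [← pow_add]
      exact_mod_cast Real.rpow_natCast L 66
    have a3 : (10 ^ 16 : ℝ) ^ 2 ≤ L ^ 2 := pow_le_pow_left₀ (by norm_num) hL 2
    have a4 : (8 : ℝ) * 3 ^ 64 ≤ L ^ 2 := le_trans (by norm_num) a3
    calc 8 * (X : ℝ) * (1 + Real.log (8 * X)) ^ 64 ≤ 8 * X * (3 * L) ^ 64 :=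
          mul_le_mul_of_nonneg_left a1 (by positivity)
      _ = X * (L ^ 64 * (8 * 3 ^ 64)) := by rw [mul_pow]; ring
      _ ≤ X * (L ^ 64 * L ^ 2) := by gcongr
      _ = X * L ^ (66 : ℝ) := by rw [a2]
  -- h0
  have hh0X : (h0 : ℝ) ≤ X := by
    refine hh0.trans ?_
    have : L ^ (-(3 * τ0 + 3 * A + 222)) ≤ 1 := Real.rpow_le_one_of_one_le_of_nonpos hL1 (by linarith only [hA, hτ0])
    calc (X : ℝ) * L ^ (-(3 * τ0 + 3 * A + 222)) ≤ X * 1 := mul_le_mul_of_nonneg_left this (by linarith only [hXr1])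
      _ = X := mul_one _
  have hh0Xn : h0 ≤ X := by exact_mod_cast hh0X
  have hx12 : x ^ ((1 : ℝ) / 2) = x ^ ((1 : ℝ) / 10) * x ^ ((2 : ℝ) / 5) := by
    rw [← Real.rpow_add hx0']
    norm_num
  have hx110 : 0 < x ^ ((1 : ℝ) / 10) := Real.rpow_pos_of_pos hx0' _
  have hbp := hpow (3 * τ0 + 3 * A + 222)
  have hinv : L ^ (-(3 * τ0 + 3 * A + 222)) * L ^ (3 * τ0 + 3 * A + 222) = 1 := by
    rw [← Real.rpow_add hL0, neg_add_cancel, Real.rpow_zero]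
  have hhh : h ≤ h0 := by
    have a1 : x ^ ((1 : ℝ) / 10) * (2 * L ^ (3 * τ0 + 3 * A + 222)) ≤ X := by
      refine le_trans ?_ hX1
      rw [hx12]
      exact mul_le_mul_of_nonneg_left hbig hx110.le
    have a2 : x ^ ((1 : ℝ) / 10) * 2 ≤ X * L ^ (-(3 * τ0 + 3 * A + 222)) := by
      calc x ^ ((1 : ℝ) / 10) * 2
          = (x ^ ((1 : ℝ) / 10) * (2 * L ^ (3 * τ0 + 3 * A + 222))) * L ^ (-(3 * τ0 + 3 * A + 222)) := by
            calc _ = x ^ ((1 : ℝ) / 10) * 2 * (L ^ (-(3 * τ0 + 3 * A + 222)) * L ^ (3 * τ0 + 3 * A + 222)) := by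
                  rw [hinv, mul_one]
              _ = _ := by ring
        _ ≤ X * L ^ (-(3 * τ0 + 3 * A + 222)) := mul_le_mul_of_nonneg_right a1 (hpow _).le
    have a3 : (h : ℝ) ≤ h0 := by linarith only [a2, hh0', hh]
    exact_mod_cast a3
  -- X / h
  have hXh : L ^ (3 * τ0 + 3 * A + 222) ≤ X / h := by
    rw [le_div_iff₀ hhr0]
    calc L ^ (3 * τ0 + 3 * A + 222) * h ≤ x ^ ((2 : ℝ) / 5) * x ^ ((1 : ℝ) / 10) :=
          mul_le_mul (by linarith only [hbig, hbp]) hh hhr0.le (Real.rpow_nonneg hx0'.le _)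
      _ = x ^ ((1 : ℝ) / 2) := by rw [hx12, mul_comm]
      _ ≤ X := hX1
  have hXh1 : 1 ≤ (X : ℝ) / h := (hone _ (by linarith only [hA, hτ0])).trans hXh
  -- T0, T1
  obtain ⟨T0, hT0def⟩ : ∃ T0 : ℕ, T0 = ⌈L ^ τ0⌉₊ := ⟨_, rfl⟩
  obtain ⟨T1, hT1def⟩ : ∃ T1 : ℕ, T1 = ⌈(X : ℝ) / h * L ^ (2 * A + 150)⌉₊ := ⟨_, rfl⟩
  have hT0l : L ^ τ0 ≤ T0 := by rw [hT0def]; exact Nat.le_ceil _
  have hT1l : (X : ℝ) / h * L ^ (2 * A + 150) ≤ T1 := by rw [hT1def]; exact Nat.le_ceil _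
  have hτ1 : 1 ≤ L ^ τ0 := hone _ (by linarith only [hτ0])
  have hT0u : (T0 : ℝ) ≤ 2 * L ^ τ0 := by
    rw [hT0def]
    have := (Nat.ceil_lt_add_one (by linarith only [hτ1] : (0 : ℝ) ≤ L ^ τ0)).le
    linarith only [this, hτ1]
  have hT1b : 1 ≤ (X : ℝ) / h * L ^ (2 * A + 150) := by
    have := mul_le_mul hXh1 (hone (2 * A + 150) (by linarith only [hA])) zero_le_one (by linarith only [hXh1])
    linarith only [this]
  have hT1u : (T1 : ℝ) ≤ 2 * ((X : ℝ) / h * L ^ (2 * A + 150)) := by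
    rw [hT1def]
    have := (Nat.ceil_lt_add_one (by linarith only [hT1b] : (0 : ℝ) ≤ (X : ℝ) / h * L ^ (2 * A + 150))).le
    linarith only [this, hT1b]
  have hT01' : 1 ≤ T0 := by
    have : (1 : ℝ) ≤ T0 := hτ1.trans hT0l
    exact_mod_cast this
  have hT011 : T0 ≤ T1 := by
    rw [hT0def, hT1def]
    refine Nat.ceil_le_ceil ?_
    have a1 : L ^ τ0 ≤ L ^ (3 * τ0 + 3 * A + 222) := Real.rpow_le_rpow_of_exponent_le hL1 (by linarith only [hA, hτ0])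
    have a2 : (X : ℝ) / h * 1 ≤ (X : ℝ) / h * L ^ (2 * A + 150) :=
      mul_le_mul_of_nonneg_left (hone _ (by linarith only [hA])) (by linarith only [hXh1])
    linarith only [a1, a2, hXh]
  have hT1DV : (T1 : ℝ) ≤ (D : ℝ) * V := by
    refine hT1u.trans ?_
    have a1 : P * L ^ (3 * A + 225) ≤ (h : ℝ) := hPh
    have a2 : 2 * L ^ (2 * A + 150) ≤ L ^ (3 * A + 225) := Var_abs hL (by norm_num) (by linarith only [hA])
    have a3 : P * (2 * L ^ (2 * A + 150)) ≤ (h : ℝ) := (mul_le_mul_of_nonneg_left a2 (by linarith only [hPr])).trans a1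
    have a4 : 2 * ((X : ℝ) / h * L ^ (2 * A + 150)) = ((D : ℝ) * V) * (P * (2 * L ^ (2 * A + 150))) / h := by
      rw [hXr]
      ring
    rw [a4, div_le_iff₀ hhr0]
    exact mul_le_mul_of_nonneg_left a3 (by positivity)
  have hT1X : (T1 : ℝ) ≤ X := by
    refine hT1DV.trans ?_
    rw [hXr]
    calc (D : ℝ) * V = D * 1 * V := by ring
      _ ≤ D * P * V := by gcongr
  have hT1h : (X : ℝ) * L ^ (2 * A + 150) ≤ T1 * h := by
    calc (X : ℝ) * L ^ (2 * A + 150) = ((X : ℝ) / h * L ^ (2 * A + 150)) * h := by field_simp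
      _ ≤ T1 * h := mul_le_mul_of_nonneg_right hT1l hhr0.le
  have hT11 : 1 ≤ T1 := hT01'.trans hT011
  -- chapter D
  have hP10 : (P : ℝ) ≤ x ^ ((1 : ℝ) / 10) := by
    refine le_trans ?_ hh
    refine le_trans ?_ hPh
    calc (P : ℝ) = P * 1 := (mul_one _).symm
      _ ≤ P * L ^ (3 * A + 225) := mul_le_mul_of_nonneg_left (hone _ (by linarith only [hA])) (by linarith only [hPr])
  have hmid0 := hD x D P V Z T1 q κ S c ρ (hx01.trans hx) hD1 hZ hT11 (by rw [← hXr]; exact hX2) hVZ hPB hP10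
    hT1DV hq hqβ hS hc hρ hρ'
  rw [← hw, ← hg, ← hXdef, ← hXr, ← hLdef] at hmid0
  have hmid : ∑ m ∈ (Icc (-(T1 : ℤ)) T1).filter (fun m : ℤ => (T0 : ℤ) < |m|), ‖GD (8 * X) g m‖ ^ 2 ≤
      (X : ℝ) ^ 2 * L ^ (-(2 * A + 75)) := by
    refine le_trans (Finset.sum_le_sum_of_subset_of_nonneg ?_ (fun _ _ _ => by positivity)) hmid0
    intro m hm
    rw [Finset.mem_filter] at hm ⊢
    refine ⟨hm.1, lt_of_le_of_lt hT0l ?_⟩
    have := hm.2
    exact_mod_cast this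
  -- the segments
  obtain ⟨lam, hlam⟩ : ∃ lam : ℝ, lam = L ^ (-(A + 70)) := ⟨_, rfl⟩
  have hlam0 : 0 < lam := by rw [hlam]; exact hpow _
  have hlam1 : lam ≤ 1 := by rw [hlam]; exact Real.rpow_le_one_of_one_le_of_nonpos hL1 (by linarith only [hA])
  have hseg : ∀ k : ℕ, ∫ y in (Real.log X)..(Real.log X + 4), ‖YY (8 * X) (X + k * ⌊lam * X / 2⌋₊) h h0 g y‖ ^ 2 ≤
      3 * L ^ (-(2 * A + 74)) := by
    intro k
    exact Var_seg h4 g X (X + k * ⌊lam * X / 2⌋₊) h h0 T0 T1 L (2 * A + 74) τ0 (3 * τ0 + 3 * A + 222) (2 * A + 150)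
      (2 * A + 75) hL hX (Nat.le_add_right _ _) hh1 hhh (hh0Xn.trans (Nat.le_add_right _ _)) hT01' hT011 hDf4 hlog hB
      hT0u hh0 hT1X hT1h hmid (by linarith only [hA, hτ0]) (by linarith only) (by linarith only [hA])
  have hlh : 4 ≤ lam * h := by
    have a1 : lam * L ^ (3 * A + 225) ≤ lam * h := mul_le_mul_of_nonneg_left hPh1 hlam0.le
    have a2 : lam * L ^ (3 * A + 225) = L ^ (2 * A + 155) := by
      rw [hlam, ← Real.rpow_add hL0]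
      ring_nf
    have a3 : 4 * L ^ (0 : ℝ) ≤ L ^ (2 * A + 155) := Var_abs hL (by norm_num) (by linarith only [hA])
    rw [Real.rpow_zero, mul_one] at a3
    linarith only [a1, a2, a3]
  have hh0l : (h0 : ℝ) ≤ lam * X / 4 := by
    have a1 : 4 * L ^ (-(3 * τ0 + 3 * A + 222)) ≤ lam := by
      rw [hlam]
      exact Var_abs hL (by norm_num) (by linarith only [hA, hτ0])
    have a2 : (X : ℝ) * (4 * L ^ (-(3 * τ0 + 3 * A + 222))) ≤ X * lam := mul_le_mul_of_nonneg_left a1 (by linarith only [hXr1])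
    linarith only [a2, hh0]
  have hVs := h3 g X h h0 N' lam hX hDf4 hh1 hhh hlam0 hlam1 hh0l hlh
  have hcnt : ((⌈40 / lam⌉₊ : ℕ) : ℝ) ≤ 50 * L ^ (A + 70) := by
    have a1 : 40 / lam = 40 * L ^ (A + 70) := by
      rw [hlam, Real.rpow_neg hL0.le]
      field_simp
    have a2 := (Nat.ceil_lt_add_one (by positivity : (0 : ℝ) ≤ 40 / lam)).le
    have a3 := hone (A + 70) (by linarith only [hA])
    rw [a1] at a2
    rw [a1]
    linarith only [a2, a3]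
  have hsum : ∑ k ∈ range ⌈40 / lam⌉₊, (∫ y in (Real.log X)..(Real.log X + 4),
      ‖YY (8 * X) (X + k * ⌊lam * X / 2⌋₊) h h0 g y‖ ^ 2) ≤ 150 * L ^ (-(A + 4)) := by
    have a1 := Finset.sum_le_card_nsmul (range ⌈40 / lam⌉₊) _ _ (fun k _ => hseg k)
    refine a1.trans ?_
    rw [nsmul_eq_mul, Finset.card_range]
    calc ((⌈40 / lam⌉₊ : ℕ) : ℝ) * (3 * L ^ (-(2 * A + 74))) ≤ (50 * L ^ (A + 70)) * (3 * L ^ (-(2 * A + 74))) :=
          mul_le_mul_of_nonneg_right hcnt (by have := hpow (-(2 * A + 74)); linarith only [this])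
      _ = 150 * (L ^ (A + 70) * L ^ (-(2 * A + 74))) := by ring
      _ = 150 * L ^ (-(A + 4)) := by
          rw [← Real.rpow_add hL0]
          ring_nf
  have f1 : 30000 * L ^ (-(A + 4)) ≤ L ^ (-A) := Var_abs hL (by norm_num) (by linarith only)
  have f2 : 400 * L ^ (66 - 2 * (A + 70)) ≤ L ^ (-A) := Var_abs hL (by norm_num) (by linarith only [hA])
  have f3 : 200 * lam ^ 2 * ∑ m ∈ Icc 1 (8 * X), ‖g m‖ ^ 2 ≤ 200 * (X * L ^ (66 - 2 * (A + 70))) := by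
    calc 200 * lam ^ 2 * ∑ m ∈ Icc 1 (8 * X), ‖g m‖ ^ 2 ≤ 200 * lam ^ 2 * (X * L ^ (66 : ℝ)) :=
          mul_le_mul_of_nonneg_left hB (by positivity)
      _ = 200 * (X * (lam * lam * L ^ (66 : ℝ))) := by ring
      _ = 200 * (X * L ^ (66 - 2 * (A + 70))) := by
          rw [hlam, ← Real.rpow_add hL0, ← Real.rpow_add hL0]
          ring_nf
  have f4 : 100 * (X : ℝ) * ∑ k ∈ range ⌈40 / lam⌉₊, (∫ y in (Real.log X)..(Real.log X + 4),
      ‖YY (8 * X) (X + k * ⌊lam * X / 2⌋₊) h h0 g y‖ ^ 2) ≤ 100 * X * (150 * L ^ (-(A + 4))) :=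
    mul_le_mul_of_nonneg_left hsum (by positivity)
  have f5 : (X : ℝ) * (30000 * L ^ (-(A + 4))) ≤ X * L ^ (-A) := mul_le_mul_of_nonneg_left f1 (by linarith only [hXr1])
  have f6 : (X : ℝ) * (400 * L ^ (66 - 2 * (A + 70))) ≤ X * L ^ (-A) := mul_le_mul_of_nonneg_left f2 (by linarith only [hXr1])
  rw [← hw, ← hg, ← hXr]
  linarith only [hVs, f3, f4, f5, f6]

end Pool.Agent.Lib.TR
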